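import Pool.Agent.Lib.MP_4952d6_mp.Pk.G15
import Pool.Agent.Lib.MP_4952d6_mp.Pk.G22

/-! Merged modules (to save import time): M.Base0, M.PReg. -/

/-! ### M.Base0 -/

section

/-!
# Two sided mesoscopic theorem: data of the gas

`Dat.GDm` (quantitative bounds) and `Spl` (splitting of the long range potential).
-/

set_option autoImplicit false
set_option linter.unusedSectionVars false
set_option linter.unusedVariables false
open MeasureTheory Function Filter Topology Set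
open scoped ENNReal

namespace Pool.Agent.Lib.MP_4952d6_mp

/-- Quantitative bounds in the mesoscopic regime (fields as in `Dat.GD`, new `Nq`, `NqU`). -/
structure Dat.GDm (C q a : ℝ) (N : ℕ) (D : Dat) : Prop where
  ok : D.Ok
  C1 : 1 ≤ C
  q0 : 0 < q
  q1 : q ≤ 1 / 2
  a0 : 0 < a
  hN : (N : ℝ) * a ^ 3 = q ^ 400
  Nq : 4 ≤ (N : ℝ) * q ^ 200
  NqU : (N : ℝ) * q ^ 200 ≤ C
  uh0 : (N : ℝ) * D.uh 0 ≤ C
  uh_le : ∀ p, D.uh p ≤ D.uh 0
  uh_ksq : ∀ p, ksq p * D.uh p ≤ C * a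
  ul_le : ∀ x, D.ul x ≤ C * q ^ 78
  uh_sq : (N : ℝ) * ∑' p, D.uh p ^ 2 ≤ C * q ^ 200
  uh_inv : Summable (fun p => D.uh p / Real.sqrt (ksq p)) ∧
    ∑' p, D.uh p / Real.sqrt (ksq p) ≤ C * a / q
  uh_cos : ∀ z, ∑' p, D.uh p / ksq p * (1 - (ch p z).re) ≤ C * a * rr z
  d1 : ∀ α, ∫ z, |D.dul α z| ∂lam3 ≤ C * a ^ 2 / q ^ 200
  d2 : ∀ α, ∫ z, D.dul α z ^ 2 ∂lam3 ≤ C * a * q ^ 78
  dd : ∀ α β, ∫ z, |D.ddul α β z| * rr z ∂lam3 ≤ C * a ^ 2 / q ^ 200
  ddc : ∀ α β, ∫ z, (1 - D.Fc z) * (|D.ddul α β z| * rr z) ∂lam3 ≤ C * a ^ 2 * q ^ 110 / q ^ 200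
  Ic : (N : ℝ) * ∫ z, (1 - D.Fc z) ∂lam3 ≤ C * q ^ 240
  Kint : ∫ z, D.Kc z * rr z ∂lam3 ≤ C * a ^ 2 * q ^ 110 / q ^ 200

namespace M

/-- Splitting of the long range potential: a positive definite short part `us` of small total mass
and a positive definite smooth part `uo` with small supremum. -/
structure Spl (C q : ℝ) (N : ℕ) (D : Dat) (us uo : T3 → ℝ) (sh oh : (Fin 3 → ℤ) → ℝ) : Prop where
  us_bm : BM us
  uo_bm : BM uo
  us_nonneg : ∀ x, 0 ≤ us x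
  uo_nonneg : ∀ x, 0 ≤ uo x
  us_even : ∀ x, us (-x) = us x
  uo_even : ∀ x, uo (-x) = uo x
  sh_nonneg : ∀ p, 0 ≤ sh p
  oh_nonneg : ∀ p, 0 ≤ oh p
  sh_summable : Summable sh
  oh_summable : Summable oh
  us_hasSum : ∀ x, HasSum (fun p => (sh p : ℂ) * ch p x) (us x : ℂ)
  uo_hasSum : ∀ x, HasSum (fun p => (oh p : ℂ) * ch p x) (uo x : ℂ)
  add : ∀ x, D.ul x = us x + uo x
  add_h : ∀ p, D.uh p = sh p + oh p
  sh0 : (N : ℝ) * sh 0 ≤ 1 / 2
  uo_le : ∀ x, uo x ≤ C * q ^ 200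

end M

end Pool.Agent.Lib.MP_4952d6_mp

end

/-! ### M.PReg -/

section

/-!
# PReg: the regime of the potential files, mesoscopic case

As `Reg` of `U/Par.lean`, with `a ≤ q ^ 200 / 8` (that is `lq ≤ 1 / 8`) in place of `a ≤ q ^ 1000`.
-/

set_option autoImplicit false
set_option linter.unusedSectionVars false
set_option linter.unusedVariables false
open MeasureTheory Function Filter Topology Set
open scoped ENNReal

namespace Pool.Agent.Lib.MP_4952d6_mp.M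

/-- The regime: scattering data with range `R ≤ θ a`, `q` small, `a ≤ q ^ 200 / 8`. -/
structure Reg (W : ℝ → ℝ) (R₀ R a : ℝ) (f Q : ℝ → ℝ) (θ q : ℝ) : Prop where
  sc : Scat W R₀ R a f Q
  Rle : R ≤ θ * a
  hθ : 1 ≤ θ
  hθq : θ * q ≤ 1
  q_pos : 0 < q
  q_le : q ≤ 1 / 100
  a8 : a ≤ q ^ 200 / 8

section
variable {W f Q : ℝ → ℝ} {R₀ R a θ q : ℝ}

theorem Reg.a_pos (h : Reg W R₀ R a f Q θ q) : 0 < a := by
  exact h.sc.a_pos

theorem Reg.q_le_one (h : Reg W R₀ R a f Q θ q) : q ≤ 1 := by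
  have := h.q_le
  linarith

theorem Reg.a_le (h : Reg W R₀ R a f Q θ q) : a ≤ q ^ 200 := by
  have h1 : 0 < q ^ 200 := pow_pos h.q_pos _
  have := h.a8
  linarith

theorem Reg.a3_le (h : Reg W R₀ R a f Q θ q) : a ^ 3 ≤ q ^ 600 := by
  calc a ^ 3 ≤ (q ^ 200) ^ 3 := pow_le_pow_left₀ h.a_pos.le h.a_le 3
    _ = q ^ 600 := by rw [← pow_mul]

theorem Reg.R_le_b (h : Reg W R₀ R a f Q θ q) : 2 * R ≤ bq q a := by
  have ha := h.sc.a_pos
  have hq := h.q_pos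
  have hq1 := h.q_le
  unfold bq
  rw [le_div_iff₀ (pow_pos hq 80)]
  have h1 : θ * q ^ 80 ≤ 1 / 100 := by
    have h2 : θ * q ^ 80 = (θ * q) * q ^ 79 := by ring
    have h3 : q ^ 79 ≤ q ^ 1 := pow_le_pow_of_le_one hq.le (by linarith) (by norm_num)
    rw [pow_one] at h3
    have h4 : 0 ≤ q ^ 79 := by positivity
    rw [h2]
    calc θ * q * q ^ 79 ≤ 1 * q ^ 79 := mul_le_mul_of_nonneg_right h.hθq h4
      _ ≤ 1 / 100 := by linarith
  calc 2 * R * q ^ 80 ≤ 2 * (θ * a) * q ^ 80 := by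
        refine mul_le_mul_of_nonneg_right ?_ (by positivity)
        linarith [h.Rle]
    _ = 2 * a * (θ * q ^ 80) := by ring
    _ ≤ 2 * a * (1 / 100) := mul_le_mul_of_nonneg_left h1 (by positivity)
    _ ≤ a := by linarith

theorem Reg.b_lt (h : Reg W R₀ R a f Q θ q) : bq q a < 1 / 4 := by
  have hq := h.q_pos
  have hq1 := h.q_le
  unfold bq
  rw [div_lt_iff₀ (pow_pos hq 80)]
  have h1 : q ^ 200 = q ^ 120 * q ^ 80 := by rw [← pow_add]
  have h2 : q ^ 120 ≤ q ^ 1 := pow_le_pow_of_le_one hq.le (by linarith) (by norm_num)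
  rw [pow_one] at h2
  have h3 : 0 < q ^ 80 := by positivity
  have h4 := h.a_le
  rw [h1] at h4
  nlinarith

theorem Reg.f_b (h : Reg W R₀ R a f Q θ q) : f (bq q a) = 1 - q ^ 80 := by
  have ha := h.sc.a_pos
  have hq := h.q_pos
  have h1 := h.R_le_b
  have h2 := h.sc.R_pos
  rw [h.sc.f_out _ (by linarith)]
  unfold bq
  field_simp

theorem lq_pos (hq : 0 < q) (ha : 0 < a) : 0 < lq q a := by
  unfold lq
  positivity

theorem Reg.l_pos (h : Reg W R₀ R a f Q θ q) : 0 < lq q a := lq_pos h.q_pos h.a_pos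

theorem Reg.lq_le (h : Reg W R₀ R a f Q θ q) : lq q a ≤ 1 / 8 := by
  have hq := h.q_pos
  unfold lq
  rw [div_le_iff₀ (pow_pos hq 200)]
  have := h.a8
  linarith

theorem Reg.lq_le_one (h : Reg W R₀ R a f Q θ q) : lq q a ≤ 1 := by
  have := h.lq_le
  linarith

/-- `a = l q^200` -/
theorem a_eq (hq : 0 < q) : a = lq q a * q ^ 200 := by
  unfold lq
  field_simp

/-- `a l² ≤ q^200` -/
theorem Reg.al2_le (h : Reg W R₀ R a f Q θ q) : a * lq q a ^ 2 ≤ q ^ 200 := by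
  have h1 : lq q a ^ 2 ≤ 1 := pow_le_one₀ h.l_pos.le h.lq_le_one
  calc a * lq q a ^ 2 ≤ a * 1 := mul_le_mul_of_nonneg_left h1 h.a_pos.le
    _ ≤ q ^ 200 := by rw [mul_one]; exact h.a_le

end

end Pool.Agent.Lib.MP_4952d6_mp.M

end

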