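import Pool.Agent.Lib.MP_4952d6_mp.Pk.G16
import Pool.Agent.Lib.MP_4952d6_mp.Pk.G17
import Pool.Agent.Lib.MP_4952d6_mp.Pk.G34
import Pool.Agent.Lib.MP_4952d6_mp.Pm.M02

/-! Merged modules (to save import time): M.LPreB, M.GBase, M.GOk, M.GLa, M.GB, M.GA, M.PGas. -/

/-! ### M.LPreB -/

section

/-!
# M.LPreB: sum of the uncertainty inequalities over all momenta, `lam ≥ - 2 π²`

Copies of `PreA`, `PreB` for possibly negative `lam`; for `p ≠ 0`, `ksq p ≥ 4 π²`. The hypothesis `Np ≤ N / 2` is not needed.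
-/

set_option autoImplicit false
set_option linter.unusedSectionVars false
set_option linter.unusedVariables false
open MeasureTheory Function Filter Topology Set ComplexConjugate

namespace Pool.Agent.Lib.MP_4952d6_mp.LB

lemma four_pi_le_ksq {p : Fin 3 → ℤ} (hp : p ≠ 0) : 4 * Real.pi ^ 2 ≤ ksq p := by
  have h1 : (1 : ℝ) ≤ mom2 p := by
    have h : ∃ α, p α ≠ 0 := by
      by_contra hcon
      push_neg at hcon
      exact hp (funext hcon)
    obtain ⟨α, hα⟩ := h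
    have h2 : (1 : ℤ) ≤ p α ^ 2 := by
      have := sq_pos_of_ne_zero hα
      omega
    have h3 : (1 : ℝ) ≤ (p α : ℝ) ^ 2 := by exact_mod_cast h2
    unfold mom2
    calc (1 : ℝ) ≤ (p α : ℝ) ^ 2 := h3
      _ ≤ ∑ β, (p β : ℝ) ^ 2 :=
        Finset.single_le_sum (f := fun β => (p β : ℝ) ^ 2) (fun β _ => sq_nonneg _)
          (Finset.mem_univ α)
  unfold ksq
  have h4 : 0 ≤ 4 * Real.pi ^ 2 := by positivity
  nlinarith

lemma ksq_add_ge {lam : ℝ} (hl : -(2 * Real.pi ^ 2) ≤ lam) {p : Fin 3 → ℤ} (hp : p ≠ 0) :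
    ksq p / 2 ≤ ksq p + lam := by
  have := four_pi_le_ksq hp
  linarith

lemma ksq_add_pos {lam : ℝ} (hl : -(2 * Real.pi ^ 2) ≤ lam) {p : Fin 3 → ℤ} (hp : p ≠ 0) :
    0 < ksq p + lam := by
  have h1 := ksq_add_ge hl hp
  have h2 := ksq_pos hp
  linarith

/-- `η² ε ≤ 1/t + |λ| + G` -/
lemma et_eps_leM {t lam G : ℝ} (ht : 0 < t) (hl : -(2 * Real.pi ^ 2) ≤ lam) (hG : 0 ≤ G)
    {p : Fin 3 → ℤ} (hp : p ≠ 0) :
    et t p ^ 2 * epsf G (ksq p + lam) ≤ 1 / t + |lam| + G := by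
  have h1 := et_eps_le (G := G) ht (abs_nonneg lam) hG p
  refine le_trans (mul_le_mul_of_nonneg_left ?_ (sq_nonneg _)) h1
  unfold epsf
  apply Real.sqrt_le_sqrt
  have h2 := ksq_add_pos hl hp
  have h3 : ksq p + lam ≤ ksq p + |lam| := by linarith [le_abs_self lam]
  have h4 : (ksq p + lam) ^ 2 ≤ (ksq p + |lam|) ^ 2 := pow_le_pow_left₀ h2.le h3 2
  have h5 : 2 * G * (ksq p + lam) ≤ 2 * G * (ksq p + |lam|) :=
    mul_le_mul_of_nonneg_left h3 (by positivity)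
  linarith

lemma summable_LSM {t lam G : ℝ} (ht : 0 < t) (hl : -(2 * Real.pi ^ 2) ≤ lam) (hG : 0 ≤ G) :
    Summable fun p : Fin 3 → ℤ => if p = 0 then 0 else
      et t p ^ 2 * (epsf G (ksq p + lam) - (ksq p + lam) - G) := by
  refine Summable.of_norm_bounded ((PreA_summable_et ht).mul_right G) fun p => ?_
  split_ifs with hp
  · rw [norm_zero]
    exact mul_nonneg (sq_nonneg _) hG
  · have hE : 0 ≤ ksq p + lam := (ksq_add_pos hl hp).le
    have h1 := epsf_le hG hE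
    have h2 := epsf_ge hG hE
    rw [Real.norm_eq_abs, abs_mul, abs_of_nonneg (sq_nonneg _)]
    apply mul_le_mul_of_nonneg_left _ (sq_nonneg _)
    rw [abs_le]
    constructor <;> linarith

/-- `LS` is antitone in `G`. -/
lemma LS_anti {t lam G G' : ℝ} (ht : 0 < t) (hl : -(2 * Real.pi ^ 2) ≤ lam) (hG' : 0 ≤ G')
    (h : G' ≤ G) : LS t lam G ≤ LS t lam G' := by
  unfold LS
  refine (summable_LSM ht hl (hG'.trans h)).tsum_le_tsum (fun p => ?_) (summable_LSM ht hl hG')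
  split_ifs with hp
  · exact le_rfl
  · have hE := ksq_add_pos hl hp
    have h1 := epsf_sub_le hG' h hE
    exact mul_le_mul_of_nonneg_left (by linarith) (sq_nonneg _)

/-- summability of the right side -/
lemma pre_summableM {N : ℕ} {s t lam g : ℝ} (hs : 0 < s) (ht : 0 < t)
    (hl : -(2 * Real.pi ^ 2) ≤ lam) (hg : 0 ≤ g) {ψ : HS (Fin N)} (hψ : ‖ψ‖ = 1)
    (hkin : ∀ j, Summable fun k : Fin N → Fin 3 → ℤ => ksq (k j) * ‖cf ψ k‖ ^ 2) :
    Summable fun p : Fin 3 → ℤ => if p = 0 then 0 else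
          (et t p ^ 2 * (ksq p + lam) * nk ψ p + g * Real.exp (-(s * ksq p)) / 2 * Rsq t ψ p) := by
  refine Summable.of_nonneg_of_le (fun p => ?_) (fun p => ?_)
    (PreB_summable hs ht (abs_nonneg lam) hg hψ hkin)
  · split_ifs with hp
    · exact le_rfl
    · refine add_nonneg ?_ ?_
      · exact mul_nonneg (mul_nonneg (sq_nonneg _) (ksq_add_pos hl hp).le) (nk_nonneg ψ p)
      · unfold Rsq
        positivity
  · split_ifs with hp
    · exact PreB_nonneg (abs_nonneg lam) hg ψ p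
    · have h1 : ksq p + lam ≤ ksq p + |lam| := by linarith [le_abs_self lam]
      have h2 : et t p ^ 2 * (ksq p + lam) * nk ψ p ≤ et t p ^ 2 * (ksq p + |lam|) * nk ψ p :=
        mul_le_mul_of_nonneg_right (mul_le_mul_of_nonneg_left h1 (sq_nonneg _)) (nk_nonneg ψ p)
      linarith

/-- the bound for the pair `p`, `-p` -/
lemma PreB_termM {N : ℕ} (hN : 0 < N) {s t lam g Np : ℝ} (hs : 0 < s) (ht : 0 < t)
    (hl : -(2 * Real.pi ^ 2) ≤ lam)
    (hg : 0 ≤ g) {ψ : HS (Fin N)} (hψ : ‖ψ‖ = 1) (hNp : nk ψ 0 = N - Np) (hNp0 : 0 ≤ Np)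
    {p : Fin 3 → ℤ} (hp : p ≠ 0) :
    et t p ^ 2 * (epsf (N * g) (ksq p + lam) - (ksq p + lam) - N * g) + N * g * et t p ^ 2
      - N * g * s * (et t p ^ 2 * ksq p) - Np / N * (N * g) * et t p ^ 2
      - (1 / t + |lam| + N * g) / (2 * N) * (nk ψ p + nk ψ (-p))
      ≤ (et t p ^ 2 * (ksq p + lam) * nk ψ p + g * Real.exp (-(s * ksq p)) / 2 * Rsq t ψ p)
        + (et t (-p) ^ 2 * (ksq (-p) + lam) * nk ψ (-p)
          + g * Real.exp (-(s * ksq (-p))) / 2 * Rsq t ψ (-p)) := by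
  have hN' : (0 : ℝ) < N := by exact_mod_cast hN
  have hE : 0 < ksq p + lam := ksq_add_pos hl hp
  have hk := ksq_nonneg p
  have hy : 0 ≤ nk ψ p + nk ψ (-p) := add_nonneg (nk_nonneg _ _) (nk_nonneg _ _)
  have hc : 0 < Fintype.card (Fin N) := by
    rw [Fintype.card_fin]
    exact hN
  have hge : 0 ≤ g * Real.exp (-(s * ksq p)) := mul_nonneg hg (Real.exp_pos _).le
  have hn0 : 0 ≤ nk ψ 0 := nk_nonneg _ _
  have h4 : et t p ^ 2 * ((nk ψ 0 - (nk ψ p + nk ψ (-p)) / 2) / N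
        * Real.sqrt ((ksq p + lam) ^ 2 + 2 * N * (g * Real.exp (-(s * ksq p))) * (ksq p + lam))
        - nk ψ 0 / N * (ksq p + lam))
      ≤ et t p ^ 2 * (ksq p + lam) * (nk ψ p + nk ψ (-p))
        + g * Real.exp (-(s * ksq p)) / 2 * (Rsq t ψ p + Rsq t ψ (-p)) := by
    by_cases hm : 0 ≤ nk ψ 0 - (nk ψ p + nk ψ (-p)) / 2
    · have h := unc_k ht.le hp ψ hc hE hge hm
      rw [Fintype.card_fin] at h
      exact h
    · push_neg at hm
      have h1 : (nk ψ 0 - (nk ψ p + nk ψ (-p)) / 2) / N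
          * Real.sqrt ((ksq p + lam) ^ 2
            + 2 * N * (g * Real.exp (-(s * ksq p))) * (ksq p + lam)) ≤ 0 :=
        mul_nonpos_of_nonpos_of_nonneg (div_nonpos_of_nonpos_of_nonneg hm.le hN'.le)
          (Real.sqrt_nonneg _)
      have h2 : 0 ≤ nk ψ 0 / N * (ksq p + lam) := by positivity
      have h3 : et t p ^ 2 * ((nk ψ 0 - (nk ψ p + nk ψ (-p)) / 2) / N
        * Real.sqrt ((ksq p + lam) ^ 2 + 2 * N * (g * Real.exp (-(s * ksq p))) * (ksq p + lam))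
        - nk ψ 0 / N * (ksq p + lam)) ≤ 0 :=
        mul_nonpos_of_nonneg_of_nonpos (sq_nonneg _) (by linarith)
      have h5 : 0 ≤ et t p ^ 2 * (ksq p + lam) * (nk ψ p + nk ψ (-p)) :=
        mul_nonneg (mul_nonneg (sq_nonneg _) hE.le) hy
      have h6 : 0 ≤ g * Real.exp (-(s * ksq p)) / 2 * (Rsq t ψ p + Rsq t ψ (-p)) := by
        unfold Rsq
        positivity
      linarith
  have h5 : Real.sqrt ((ksq p + lam) ^ 2 + 2 * N * (g * Real.exp (-(s * ksq p))) * (ksq p + lam))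
      = epsf (N * g * Real.exp (-(s * ksq p))) (ksq p + lam) := by
    unfold epsf
    congr 1
    ring
  rw [h5] at h4
  have hG : 0 ≤ N * g := mul_nonneg hN'.le hg
  have h6 := pre_mode (q := ksq p) hN' hNp hn0 hNp0 hy hE hG hs.le hk
  have h7 := mul_le_mul_of_nonneg_left h6 (sq_nonneg (et t p))
  have h8 := et_eps_leM (G := N * g) ht hl hG hp
  have h9 : (nk ψ p + nk ψ (-p)) / (2 * N) * (et t p ^ 2 * epsf (N * g) (ksq p + lam))
      ≤ (nk ψ p + nk ψ (-p)) / (2 * N) * (1 / t + |lam| + N * g) :=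
    mul_le_mul_of_nonneg_left h8 (div_nonneg hy (mul_nonneg zero_le_two hN'.le))
  rw [et_neg, ksq_neg]
  have h10 : (nk ψ p + nk ψ (-p)) / (2 * N) * (1 / t + |lam| + N * g)
      = (1 / t + |lam| + N * g) / (2 * N) * (nk ψ p + nk ψ (-p)) := by ring
  rw [h10] at h9
  generalize (1 / t + |lam| + N * g) / (2 * N) * (nk ψ p + nk ψ (-p)) = Z at *
  generalize (nk ψ 0 - (nk ψ p + nk ψ (-p)) / 2) / N * epsf (N * g * Real.exp (-(s * ksq p))) (ksq p + lam)
    - nk ψ 0 / N * (ksq p + lam) = W at *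
  generalize epsf (N * g) (ksq p + lam) = ε at *
  linear_combination h4 + h7 + h9

theorem pre_sumM {N : ℕ} (hN : 0 < N) {s t lam g : ℝ} (hs : 0 < s) (ht : 0 < t)
    (hl : -(2 * Real.pi ^ 2) ≤ lam) (hg : 0 ≤ g) {ψ : HS (Fin N)} (hψ : ‖ψ‖ = 1)
    (hkin : ∀ j, Summable fun k : Fin N → Fin 3 → ℤ => ksq (k j) * ‖cf ψ k‖ ^ 2) :
    1 / 2 * LS t lam (N * g) + 1 / 2 * (N * g) * (∑' p : Fin 3 → ℤ, et t p ^ 2) - 1 / 2 * (N * g)
      - 1 / 2 * (N * g) * s * (∑' p : Fin 3 → ℤ, et t p ^ 2 * ksq p)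
      - 1 / 2 * ((∑ j, ‖perp j ψ‖ ^ 2) / N) * (N * g) * (∑' p : Fin 3 → ℤ, et t p ^ 2)
      - 1 / 2 * ((∑ j, ‖perp j ψ‖ ^ 2) / N) * (1 / t + |lam| + N * g)
      ≤ ∑' p : Fin 3 → ℤ, if p = 0 then 0 else
          (et t p ^ 2 * (ksq p + lam) * nk ψ p + g * Real.exp (-(s * ksq p)) / 2 * Rsq t ψ p) := by
  have hN' : (0 : ℝ) < N := by exact_mod_cast hN
  have hG : 0 ≤ N * g := mul_nonneg hN'.le hg
  have hNp0 : 0 ≤ ∑ j, ‖perp j ψ‖ ^ 2 := Finset.sum_nonneg fun j _ => sq_nonneg _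
  have hsp := sum_perp ψ
  rw [Fintype.card_fin, hψ, one_pow, mul_one] at hsp
  have htn := tsum_nk ψ
  rw [Fintype.card_fin, hψ, one_pow, mul_one] at htn
  generalize (∑ j, ‖perp j ψ‖ ^ 2) = Np at *
  have hNp : nk ψ 0 = N - Np := by linarith
  have hF := (pre_summableM hs ht hl hg hψ hkin).hasSum
  have hF2 := (Equiv.neg (Fin 3 → ℤ)).hasSum_iff.2 hF
  have hA := (summable_LSM ht hl hG).hasSum
  have hS := (PreA_summable_et ht).hasSum
  have hK := (summable_et_ksq ht).hasSum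
  have hn := (summable_nk ψ).hasSum
  have hn2 := (Equiv.neg (Fin 3 → ℤ)).hasSum_iff.2 hn
  have h0 := hasSum_ite_eq (0 : Fin 3 → ℤ) (N * g - Np / N * (N * g)
    - (1 / t + |lam| + N * g) / (2 * N) * (nk ψ 0 + nk ψ 0))
  have hL := ((((hA.add (hS.mul_left (N * g))).sub (hK.mul_left (N * g * s))).sub
    (hS.mul_left (Np / N * (N * g)))).sub ((hn.add hn2).mul_left ((1 / t + |lam| + N * g) / (2 * N)))).sub h0
  have key := hasSum_le (fun p => ?_) hL (hF.add hF2)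
  · rw [htn] at key
    have e1 : (∑' p : Fin 3 → ℤ, if p = 0 then (0 : ℝ) else
      et t p ^ 2 * (epsf (N * g) (ksq p + lam) - (ksq p + lam) - N * g)) = LS t lam (N * g) := rfl
    rw [e1, hNp] at key
    have e2 : (1 / t + |lam| + N * g) / (2 * N) * ((N : ℝ) + N)
        - (1 / t + |lam| + N * g) / (2 * N) * (N - Np + (N - Np)) = Np / N * (1 / t + |lam| + N * g) := by
      field_simp
      ring
    have e3 : 0 ≤ Np / N * (N * g) := by positivity
    linear_combination (1 / 2 : ℝ) * key + (1 / 2 : ℝ) * e2 + (1 / 2 : ℝ) * e3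
  · simp only [Function.comp_apply, Equiv.neg_apply]
    by_cases hp : p = 0
    · subst hp
      simp only [if_true, neg_zero, et_zero, ksq_zero]
      linarith
    · have hp' : -p ≠ 0 := neg_ne_zero.2 hp
      rw [if_neg hp, if_neg hp, if_neg hp, if_neg hp', sub_zero]
      exact PreB_termM hN hs ht hl hg hψ hNp hNp0 hp

end Pool.Agent.Lib.MP_4952d6_mp.LB

end

/-! ### M.GBase -/

section

set_option autoImplicit false
set_option linter.unusedSectionVars false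
set_option linter.unusedVariables false
open MeasureTheory Function Filter Topology Set

namespace Pool.Agent.Lib.MP_4952d6_mp.M

/-! # MG: the gas without exponential constants: basic facts -/

/-- Smallness of `q` used in the crude bounds. -/
structure Sm (C q : ℝ) : Prop where
  s : C ^ 8 * q ≤ 1 / 10 ^ 9
  e : Real.exp (-(1 / q)) ≤ q ^ 1500

/-- `GDm` is monotone in the constant. -/
theorem GDm_mono {C K q a : ℝ} {N : ℕ} {D : Dat} (h : D.GDm C q a N) (hCK : C ≤ K) :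
    D.GDm K q a N := by
  have hq := h.q0
  have ha := h.a0
  have hr : ∀ z : T3, 0 ≤ rr z := rr_nonneg
  have h1 : C * a ≤ K * a := mul_le_mul_of_nonneg_right hCK ha.le
  have h2 : C * q ^ 78 ≤ K * q ^ 78 := mul_le_mul_of_nonneg_right hCK (by positivity)
  have h3 : C * q ^ 200 ≤ K * q ^ 200 := mul_le_mul_of_nonneg_right hCK (by positivity)
  have h4 : C * a / q ≤ K * a / q := div_le_div_of_nonneg_right h1 hq.le
  have h5 : C * a ^ 2 / q ^ 200 ≤ K * a ^ 2 / q ^ 200 :=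
    div_le_div_of_nonneg_right (mul_le_mul_of_nonneg_right hCK (by positivity)) (by positivity)
  have h6 : C * a * q ^ 78 ≤ K * a * q ^ 78 := mul_le_mul_of_nonneg_right h1 (by positivity)
  have h7 : C * a ^ 2 * q ^ 110 / q ^ 200 ≤ K * a ^ 2 * q ^ 110 / q ^ 200 :=
    div_le_div_of_nonneg_right (mul_le_mul_of_nonneg_right
      (mul_le_mul_of_nonneg_right hCK (by positivity)) (by positivity)) (by positivity)
  have h8 : C * q ^ 240 ≤ K * q ^ 240 := mul_le_mul_of_nonneg_right hCK (by positivity)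
  exact
    { ok := h.ok
      C1 := h.C1.trans hCK
      q0 := h.q0
      q1 := h.q1
      a0 := h.a0
      hN := h.hN
      Nq := h.Nq
      NqU := h.NqU.trans hCK
      uh0 := h.uh0.trans hCK
      uh_le := h.uh_le
      uh_ksq := fun p => (h.uh_ksq p).trans h1
      ul_le := fun x => (h.ul_le x).trans h2
      uh_sq := h.uh_sq.trans h3
      uh_inv := ⟨h.uh_inv.1, h.uh_inv.2.trans h4⟩
      uh_cos := fun z => (h.uh_cos z).trans (mul_le_mul_of_nonneg_right h1 (hr z))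
      d1 := fun α => (h.d1 α).trans h5
      d2 := fun α => (h.d2 α).trans h6
      dd := fun α β => (h.dd α β).trans h5
      ddc := fun α β => (h.ddc α β).trans h7
      Ic := h.Ic.trans h8
      Kint := h.Kint.trans h7 }

theorem PBm_mono {C K q a : ℝ} {N : ℕ} {D : Dat} {ψ : T3 → ℝ} {ph : (Fin 3 → ℤ) → ℝ}
    (h : Dat.PB C q a N D ψ ph) (hg : D.GDm C q a N) (hCK : C ≤ K) :
    Dat.PB K q a N D ψ ph := by
  have hq := hg.q0
  have ha := hg.a0
  have h1 : C * a * q ^ 2 / q ^ 200 ≤ K * a * q ^ 2 / q ^ 200 :=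
    div_le_div_of_nonneg_right (mul_le_mul_of_nonneg_right
      (mul_le_mul_of_nonneg_right hCK ha.le) (by positivity)) (by positivity)
  have h2 : C * q ^ 300 ≤ K * q ^ 300 := mul_le_mul_of_nonneg_right hCK (by positivity)
  have h3 : C * q ^ 198 ≤ K * q ^ 198 := mul_le_mul_of_nonneg_right hCK (by positivity)
  have h4 : C * N / q ^ 4 ≤ K * N / q ^ 4 :=
    div_le_div_of_nonneg_right (mul_le_mul_of_nonneg_right hCK (Nat.cast_nonneg N)) (by positivity)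
  exact
    { bm := h.bm
      nonneg := h.nonneg
      ph_nonneg := h.ph_nonneg
      ph_le := h.ph_le
      ph_zero := h.ph_zero
      ph_summable := h.ph_summable
      hasSum := h.hasSum
      ph_uh := fun p => (h.ph_uh p).trans (mul_le_mul_of_nonneg_right h4 (hg.ok.uh_nonneg p))
      m1 := h.m1.trans h1
      mc := h.mc.trans h2
      mu := h.mu.trans h3 }

section
variable {C q a : ℝ} {N : ℕ} {D : Dat} (h : D.GDm C q a N)
include h

theorem GDm_Ic_nonneg : 0 ≤ ∫ z, (1 - D.Fc z) ∂lam3 :=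
  integral_nonneg fun z => sub_nonneg.2 (h.ok.Fc_le z)

theorem GDm_n_uh0 {n : ℕ} (hn : n ≤ N) : n * D.uh 0 ≤ C :=
  (mul_le_mul_of_nonneg_right (Nat.cast_le.2 hn) (h.ok.uh_nonneg 0)).trans h.uh0

theorem GDm_n_Ic {n : ℕ} (hn : n ≤ N) : n * ∫ z, (1 - D.Fc z) ∂lam3 ≤ C * q ^ 240 :=
  (mul_le_mul_of_nonneg_right (Nat.cast_le.2 hn) (GDm_Ic_nonneg h)).trans h.Ic

theorem GDm_N_pos : (0 : ℝ) < N := by
  by_contra hc
  have h0 : (N : ℝ) = 0 := le_antisymm (not_lt.1 hc) (Nat.cast_nonneg N)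
  have := h.Nq
  rw [h0, zero_mul] at this
  norm_num at this

theorem GDm_q_le_one : q ≤ 1 := h.q1.trans (by norm_num)

theorem GDm_four_le : (4 : ℝ) ≤ N := by
  refine h.Nq.trans ?_
  exact mul_le_of_le_one_right (Nat.cast_nonneg N) (pow_le_one₀ h.q0.le (GDm_q_le_one h))

variable (hs : Sm C q)
include hs

/-- `C ^ k * q ≤ 10⁻⁹` for `k ≤ 8`. -/
theorem GDm_small {k : ℕ} (hk : k ≤ 8) : C ^ k * q ≤ 1 / 10 ^ 9 :=
  (mul_le_mul_of_nonneg_right (pow_le_pow_right₀ h.C1 hk) h.q0.le).trans hs.s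

theorem GDm_q_small : q ≤ 1 / 10 ^ 9 := by
  have := GDm_small h hs (k := 0) (by norm_num)
  simpa using this

/-- `C ^ k * q ^ m ≤ 10⁻⁹ * q ^ (m - 1)`. -/
theorem GDm_small' {k : ℕ} (hk : k ≤ 8) (m : ℕ) : C ^ k * q ^ (m + 1) ≤ 1 / 10 ^ 9 * q ^ m := by
  have h1 := GDm_small h hs hk
  have h2 : 0 ≤ q ^ m := pow_nonneg h.q0.le m
  calc C ^ k * q ^ (m + 1) = C ^ k * q * q ^ m := by ring
    _ ≤ 1 / 10 ^ 9 * q ^ m := mul_le_mul_of_nonneg_right h1 h2

end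

/-- Common hypotheses of the crude bounds. -/
structure Cr (C q a : ℝ) (N : ℕ) (D : Dat) : Prop where
  gd : D.GDm C q a N
  sm : Sm C q

end Pool.Agent.Lib.MP_4952d6_mp.M

end

/-! ### M.GOk -/

section

set_option autoImplicit false
set_option linter.unusedSectionVars false
set_option linter.unusedVariables false
open MeasureTheory Function Filter Topology Set

namespace Pool.Agent.Lib.MP_4952d6_mp.M

/-- All crude bounds with one constant (mesoscopic regime). -/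
structure GasOKm (K q a : ℝ) (N : ℕ) (D : Dat) : Prop where
  gd : D.GDm K q a N
  small : K ^ 20 * q ≤ 1 / 1000
  Zpos : ∀ δ τ : ℝ, 0 ≤ δ → δ ≤ 1 → 0 ≤ τ → τ ≤ 1 → ∀ n, n ≤ N + 1 → 0 < Zg (D.F δ τ) n
  rpos : ∀ n, n ≤ N → 0 < rg (D.F 0 1) n
  uS : ∀ δ τ : ℝ, 0 ≤ δ → δ ≤ 1 → 0 ≤ τ → τ ≤ 1 → ∀ n, 1 ≤ n → n ≤ N →
    sm0 (fun p => D.uh p * Sg (D.F δ τ) n p) ∧
      tsum0 (fun p => D.uh p * Sg (D.F δ τ) n p) ≤ K * q ^ 78
  varX : ∀ δ τ : ℝ, 0 ≤ δ → δ ≤ 1 → 0 ≤ τ → τ ≤ 1 → ∀ n, n ≤ N →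
    Eg (D.F δ τ) n (fun x => (Xg D.ul x 0 - n * D.uh 0) ^ 2) ≤ K * q ^ 78
  yy1 : ∀ δ τ : ℝ, 0 ≤ δ → δ ≤ 1 → 0 ≤ τ → τ ≤ 1 → ∀ n, n + 2 ≤ N → ∀ z,
    |yy (D.F δ τ) n z - 1| ≤ K * q ^ 78
  rsharp : ∀ k, k ≤ N → 1 + 1 / 2 * (1 - q ^ 18)
        * Eg (D.F 0 1) k (fun x => Tr (q ^ 18) (2 * Xg D.ul x 0 - 2 * k * D.uh 0) ^ 2)
        - K * q ^ 220 ≤ Real.exp (2 * k * D.uh 0) * rg (D.F 0 1) k
  ydiff : ∀ n, n + 2 ≤ N → ∀ z, yy (D.F 0 1) n 0 - yy (D.F 0 1) n z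
      ≤ 10000 * Eg (D.F 0 1) n (fun x => (Xg D.ul x 0 - Xg D.ul x z) ^ 2) + K * q ^ 230

end Pool.Agent.Lib.MP_4952d6_mp.M

end

/-! ### M.GLa -/

section

set_option autoImplicit false
set_option linter.unusedSectionVars false
set_option linter.unusedVariables false
open MeasureTheory Function Filter Topology Set ComplexConjugate

namespace Pool.Agent.Lib.MP_4952d6_mp.M

/-! Light copy of `U/GM3` -/

/-- The first moment of the majorant `Xi`. -/
theorem GM3_int_Xi_rr {K q a : ℝ} {N : ℕ} {D : Dat} (h : D.GDm K q a N) :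
    ∫ z, rr z * D.Xi (K * q ^ 78) N z ∂lam3
      ≤ 2 * N * (27 * K ^ 2 * q ^ 78 * (a ^ 2 / q ^ 200)
          + 27 * K * q ^ 110 * (a ^ 2 / q ^ 200)) := by
  have hD := h.ok
  have hFc := GM3_Fc_bm hD
  have hul := GM3_ul_bm hD
  have hrr : BM (fun x : T3 => rr x) := JData.rr_bm'
  have hK0 : 0 ≤ K := zero_le_one.trans h.C1
  have hq0 := h.q0
  have hN0 : (0:ℝ) ≤ N := Nat.cast_nonneg N
  have hdd : ∀ α β, BM (fun z => |D.ddul α β z| * rr z) := fun α β =>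
    (hD.ddul_bm α β).abs.mul hrr
  have h1F : BM (fun z => 1 - D.Fc z) := (BM.const 1).sub hFc
  have hddc : ∀ α β, BM (fun z => (1 - D.Fc z) * (|D.ddul α β z| * rr z)) := fun α β =>
    h1F.mul (hdd α β)
  have hKc : BM (fun z => D.Kc z * rr z) := hD.Kc_bm.mul hrr
  have hterm : ∀ α β, BM (fun z => 3 * K * q ^ 78 * (|D.ddul α β z| * rr z)
      + (1 - D.Fc z) * (|D.ddul α β z| * rr z)) := fun α β =>
    ((hdd α β).const_mul _).add (hddc α β)
  have hsum1 : ∀ α, BM (fun z => ∑ β, (3 * K * q ^ 78 * (|D.ddul α β z| * rr z)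
      + (1 - D.Fc z) * (|D.ddul α β z| * rr z))) := fun α =>
    BM.finset_sum Finset.univ fun β _ => hterm α β
  have hsum2 : BM (fun z => ∑ α, ∑ β, (3 * K * q ^ 78 * (|D.ddul α β z| * rr z)
      + (1 - D.Fc z) * (|D.ddul α β z| * rr z))) :=
    BM.finset_sum Finset.univ fun α _ => hsum1 α
  have h18 : BM (fun z => 18 * (D.Kc z * rr z)) := hKc.const_mul 18
  have hin : BM (fun z => (∑ α, ∑ β, (3 * K * q ^ 78 * (|D.ddul α β z| * rr z)
      + (1 - D.Fc z) * (|D.ddul α β z| * rr z))) + 18 * (D.Kc z * rr z)) := hsum2.add h18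
  have hGbm := hin.const_mul (2 * N)
  have hle : ∀ z, rr z * D.Xi (K * q ^ 78) N z
      ≤ 2 * N * ((∑ α, ∑ β, (3 * K * q ^ 78 * (|D.ddul α β z| * rr z)
      + (1 - D.Fc z) * (|D.ddul α β z| * rr z))) + 18 * (D.Kc z * rr z)) := by
    intro z
    have e1 : rr z * D.Xi (K * q ^ 78) N z
        = 2 * N * ((K * q ^ 78 + 2 * D.ul z + (1 - D.Fc z))
          * ((∑ α, ∑ β, |D.ddul α β z|) * rr z) + 18 * (D.Kc z * rr z)) := by
      unfold Dat.Xi
      ring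
    have e2 : ∑ α, ∑ β, (3 * K * q ^ 78 * (|D.ddul α β z| * rr z)
        + (1 - D.Fc z) * (|D.ddul α β z| * rr z))
        = (3 * K * q ^ 78 + (1 - D.Fc z)) * ((∑ α, ∑ β, |D.ddul α β z|) * rr z) := by
      rw [Finset.sum_mul, Finset.mul_sum]
      refine Finset.sum_congr rfl fun α _ => ?_
      rw [Finset.sum_mul, Finset.mul_sum]
      refine Finset.sum_congr rfl fun β _ => ?_
      ring
    rw [e1, e2]
    have e3 : 0 ≤ (∑ α, ∑ β, |D.ddul α β z|) * rr z :=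
      mul_nonneg (Finset.sum_nonneg fun α _ => Finset.sum_nonneg fun β _ => abs_nonneg _)
        (rr_nonneg z)
    have e4 := h.ul_le z
    refine mul_le_mul_of_nonneg_left ?_ (by positivity)
    have e5 : K * q ^ 78 + 2 * D.ul z + (1 - D.Fc z) ≤ 3 * K * q ^ 78 + (1 - D.Fc z) := by
      linarith
    have e6 := mul_le_mul_of_nonneg_right e5 e3
    linarith
  have hXi : BM (fun z => rr z * D.Xi (K * q ^ 78) N z) := hrr.mul (Xi_bm hD _ N)
  have hmono := integral_mono (hXi.integrable lam3) (hGbm.integrable lam3) hle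
  refine hmono.trans ?_
  have i1 : ∫ z, 2 * (N:ℝ) * ((∑ α, ∑ β, (3 * K * q ^ 78 * (|D.ddul α β z| * rr z)
      + (1 - D.Fc z) * (|D.ddul α β z| * rr z))) + 18 * (D.Kc z * rr z)) ∂lam3
      = 2 * N * ((∑ α, ∑ β, (3 * K * q ^ 78 * (∫ z, |D.ddul α β z| * rr z ∂lam3)
        + ∫ z, (1 - D.Fc z) * (|D.ddul α β z| * rr z) ∂lam3))
        + 18 * ∫ z, D.Kc z * rr z ∂lam3) := by
    rw [integral_const_mul, integral_add (hsum2.integrable lam3) (h18.integrable lam3),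
      integral_const_mul, integral_finsetSum _ fun α _ => (hsum1 α).integrable lam3]
    congr 2
    refine Finset.sum_congr rfl fun α _ => ?_
    rw [integral_finsetSum _ fun β _ => (hterm α β).integrable lam3]
    refine Finset.sum_congr rfl fun β _ => ?_
    rw [integral_add (((hdd α β).const_mul _).integrable lam3) ((hddc α β).integrable lam3),
      integral_const_mul]
  rw [i1]
  refine mul_le_mul_of_nonneg_left ?_ (by positivity)
  have j1 : ∑ α : Fin 3, ∑ β : Fin 3, (3 * K * q ^ 78 * (∫ z, |D.ddul α β z| * rr z ∂lam3)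
        + ∫ z, (1 - D.Fc z) * (|D.ddul α β z| * rr z) ∂lam3)
      ≤ ∑ _α : Fin 3, ∑ _β : Fin 3, (3 * K * q ^ 78 * (K * a ^ 2 / q ^ 200)
        + K * a ^ 2 * q ^ 110 / q ^ 200) := by
    refine Finset.sum_le_sum fun α _ => Finset.sum_le_sum fun β _ => ?_
    exact add_le_add (mul_le_mul_of_nonneg_left (h.dd α β) (by positivity)) (h.ddc α β)
  have j2 := h.Kint
  have j3 : ∑ _α : Fin 3, ∑ _β : Fin 3, (3 * K * q ^ 78 * (K * a ^ 2 / q ^ 200)
        + K * a ^ 2 * q ^ 110 / q ^ 200)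
      = 9 * (3 * K * q ^ 78 * (K * a ^ 2 / q ^ 200) + K * a ^ 2 * q ^ 110 / q ^ 200) := by
    simp only [Finset.sum_const, Finset.card_univ, Fintype.card_fin, nsmul_eq_mul]
    push_cast
    ring
  rw [j3] at j1
  have j4 : 9 * (3 * K * q ^ 78 * (K * a ^ 2 / q ^ 200) + K * a ^ 2 * q ^ 110 / q ^ 200)
      + 18 * (K * a ^ 2 * q ^ 110 / q ^ 200)
      = 27 * K ^ 2 * q ^ 78 * (a ^ 2 / q ^ 200) + 27 * K * q ^ 110 * (a ^ 2 / q ^ 200) := by
    ring
  linarith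

/-- The total error `E* ≤ 120 K⁴ q^278`: for finite sets of momenta `∑ uh p (|k|²)⁻¹ ∫ (1 - Re ch) Xi = ∫ (∑ ...) Xi ≤ ∫ K a rr Xi`
(`uh_cos`), then `dd`, `ddc`, `Kint`, `ul_le`, `N a³ = q^400`; `2 ∑ uh² ≤ 2 K q^200 / N`, `1/N ≤ q^400`. -/
theorem eb_sum {K q a : ℝ} {N : ℕ} {D : Dat} (h : GasOKm K q a N D) :
    sm0 (fun p => D.uh p * D.eb (K * q ^ 78) N p) ∧
      tsum0 (fun p => D.uh p * D.eb (K * q ^ 78) N p) ≤ 120 * K ^ 4 * q ^ 278 := by
  have g := h.gd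
  have hD := g.ok
  have hK1 := g.C1
  have hK0 : 0 ≤ K := zero_le_one.trans hK1
  have hq0 := g.q0
  have hκ : 0 ≤ K * q ^ 78 := by positivity
  have hN4 := g.Nq
  have hN0 : (0:ℝ) < N := by
    by_contra hc
    have : (N:ℝ) = 0 := le_antisymm (not_lt.1 hc) (Nat.cast_nonneg N)
    rw [this] at hN4
    norm_num at hN4
  have ha0 := g.a0
  have hXb := Xi_bm hD (K * q ^ 78) N
  have hX0 := Xi_nonneg hD hκ N
  have hrr : BM (fun x : T3 => rr x) := JData.rr_bm'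
  have hcb : ∀ p, BM (fun z : T3 => 1 - (ch p z).re) := fun p =>
    BM.of_mem_Icc (measurable_const.sub (Complex.measurable_re.comp
      (ch_continuous p).measurable)) (a := 0) (b := 2)
      fun z => ⟨one_sub_re_nonneg p z, one_sub_re_le p z⟩
  refine tsum0_le_of_sum_le (fun p _ => mul_nonneg (hD.uh_nonneg p) (eb_nonneg hD hκ N p))
    fun s hs => ?_
  have e1 : ∑ p ∈ s, D.uh p * D.eb (K * q ^ 78) N p
      = ∫ z, (∑ p ∈ s, D.uh p / ksq p * (1 - (ch p z).re)) * D.Xi (K * q ^ 78) N z ∂lam3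
        + 2 * ∑ p ∈ s, D.uh p ^ 2 := by
    have e11 : ∀ z, (∑ p ∈ s, D.uh p / ksq p * (1 - (ch p z).re)) * D.Xi (K * q ^ 78) N z
        = ∑ p ∈ s, D.uh p / ksq p * ((1 - (ch p z).re) * D.Xi (K * q ^ 78) N z) := by
      intro z
      rw [Finset.sum_mul]
      exact Finset.sum_congr rfl fun p _ => by ring
    simp only [e11]
    have hb : ∀ p ∈ s, Integrable (fun z => D.uh p / ksq p
        * ((1 - (ch p z).re) * D.Xi (K * q ^ 78) N z)) lam3 := fun p _ =>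
      (((hcb p).mul hXb).const_mul _).integrable lam3
    rw [integral_finsetSum _ hb, Finset.mul_sum, ← Finset.sum_add_distrib]
    refine Finset.sum_congr rfl fun p _ => ?_
    rw [integral_const_mul]
    unfold Dat.eb
    ring
  have e2 : ∀ z, ∑ p ∈ s, D.uh p / ksq p * (1 - (ch p z).re) ≤ K * a * rr z := by
    intro z
    refine le_trans ?_ (g.uh_cos z)
    have hsm : Summable (fun p => D.uh p / ksq p * (1 - (ch p z).re)) := by
      refine Summable.of_nonneg_of_le (fun p => mul_nonneg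
        (div_nonneg (hD.uh_nonneg p) (ksq_nonneg p)) (one_sub_re_nonneg p z)) (fun p => ?_)
        (hD.uh_summable.mul_right 2)
      by_cases hp : p = 0
      · subst hp
        rw [ksq_zero, div_zero, zero_mul]
        exact mul_nonneg (hD.uh_nonneg 0) two_pos.le
      · exact mul_le_mul (div_le_self (hD.uh_nonneg p) (ksq_ge_one hp)) (one_sub_re_le p z)
          (one_sub_re_nonneg p z) (hD.uh_nonneg p)
    exact hsm.sum_le_tsum s fun p _ => mul_nonneg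
        (div_nonneg (hD.uh_nonneg p) (ksq_nonneg p)) (one_sub_re_nonneg p z)
  have hsqsm : Summable (fun p => D.uh p ^ 2) := by
    refine Summable.of_nonneg_of_le (fun p => sq_nonneg _) (fun p => ?_)
      (hD.uh_summable.mul_left (D.uh 0))
    rw [sq]
    exact mul_le_mul_of_nonneg_right (g.uh_le p) (hD.uh_nonneg p)
  have e3 : ∑ p ∈ s, D.uh p ^ 2 ≤ K * q ^ 200 / N := by
    rw [le_div_iff₀ hN0]
    have h1 := hsqsm.sum_le_tsum s fun p _ => sq_nonneg (D.uh p)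
    have h2 := g.uh_sq
    have h3 := mul_le_mul_of_nonneg_left h1 hN0.le
    linarith
  have e4 : ∫ z, (∑ p ∈ s, D.uh p / ksq p * (1 - (ch p z).re)) * D.Xi (K * q ^ 78) N z ∂lam3
      ≤ K * a * ∫ z, rr z * D.Xi (K * q ^ 78) N z ∂lam3 := by
    rw [← integral_const_mul]
    have hb1 : BM (fun z => (∑ p ∈ s, D.uh p / ksq p * (1 - (ch p z).re))
        * D.Xi (K * q ^ 78) N z) :=
      (BM.finset_sum s fun p _ => (hcb p).const_mul (D.uh p / ksq p)).mul hXb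
    have hb2 : BM (fun z => K * a * (rr z * D.Xi (K * q ^ 78) N z)) :=
      (hrr.mul hXb).const_mul _
    refine integral_mono (hb1.integrable lam3) (hb2.integrable lam3) fun z => ?_
    have := mul_le_mul_of_nonneg_right (e2 z) (hX0 z)
    calc _ ≤ K * a * rr z * D.Xi (K * q ^ 78) N z := this
      _ = K * a * (rr z * D.Xi (K * q ^ 78) N z) := by ring
  have e5 := GM3_int_Xi_rr g
  have e6 := mul_le_mul_of_nonneg_left e5 (by positivity : 0 ≤ K * a)
  have e7 : K * a * (2 * N * (27 * K ^ 2 * q ^ 78 * (a ^ 2 / q ^ 200)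
      + 27 * K * q ^ 110 * (a ^ 2 / q ^ 200)))
      = 54 * K ^ 3 * q ^ 278 + 54 * K ^ 2 * q ^ 310 := by
    have : K * a * (2 * N * (27 * K ^ 2 * q ^ 78 * (a ^ 2 / q ^ 200)
      + 27 * K * q ^ 110 * (a ^ 2 / q ^ 200)))
      = (N * a ^ 3) / q ^ 200 * (54 * K ^ 3 * q ^ 78 + 54 * K ^ 2 * q ^ 110) := by ring
    rw [this, g.hN]
    have hq : q ^ 400 / q ^ 200 = q ^ 200 := by
      rw [div_eq_iff (by positivity)]; ring
    rw [hq]
    ring
  have hq1 : q ≤ 1 := g.q1.trans (by norm_num)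
  have e8 : K * q ^ 200 / N ≤ K ^ 4 * q ^ 278 := by
    rw [div_le_iff₀ hN0]
    have h1 : q ^ 200 ≤ q ^ 78 := pow_le_pow_of_le_one hq0.le hq1 (by norm_num)
    have h2 : 1 ≤ N * q ^ 78 := by
      have := mul_le_mul_of_nonneg_left h1 hN0.le
      linarith
    have h3 : K ≤ K ^ 4 := le_self_pow₀ hK1 (by norm_num)
    have h4 : 0 ≤ K ^ 4 * q ^ 200 := by positivity
    calc K * q ^ 200 ≤ K ^ 4 * q ^ 200 * 1 := by
          rw [mul_one]; exact mul_le_mul_of_nonneg_right h3 (by positivity)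
      _ ≤ K ^ 4 * q ^ 200 * (N * q ^ 78) := mul_le_mul_of_nonneg_left h2 h4
      _ = K ^ 4 * q ^ 278 * N := by ring
  have e9 : 54 * K ^ 3 * q ^ 278 ≤ 54 * (K ^ 4 * q ^ 278) := by
    have h3 : K ^ 3 ≤ K ^ 4 := pow_le_pow_right₀ hK1 (by norm_num)
    have := mul_le_mul_of_nonneg_right h3 (by positivity : 0 ≤ q ^ 278)
    linarith
  have e10 : 54 * K ^ 2 * q ^ 310 ≤ 54 * (K ^ 4 * q ^ 278) := by
    have h3 : K ^ 2 ≤ K ^ 4 := pow_le_pow_right₀ hK1 (by norm_num)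
    have h4 : q ^ 310 ≤ q ^ 278 := pow_le_pow_of_le_one hq0.le hq1 (by norm_num)
    have := mul_le_mul h3 h4 (by positivity) (by positivity)
    linarith
  have e11 : 0 ≤ K ^ 4 * q ^ 278 := by positivity
  rw [e1]
  linarith

end Pool.Agent.Lib.MP_4952d6_mp.M

end

/-! ### M.GB -/

section

set_option autoImplicit false
set_option linter.unusedSectionVars false
set_option linter.unusedVariables false
open MeasureTheory Function Filter Topology Set ComplexConjugate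

namespace Pool.Agent.Lib.MP_4952d6_mp.M

/-! ### GB: the core gas and positivity -/

theorem GB_Cq {C q a : ℝ} {N : ℕ} {D : Dat} (h : D.GDm C q a N) (hs : Sm C q) :
    C * q ^ 240 ≤ 1 / 4 := by
  have h1 := GDm_small' h hs (k := 1) (by norm_num) 239
  have h2 : q ^ 239 ≤ 1 := pow_le_one₀ h.q0.le (GDm_q_le_one h)
  have h3 : C ^ 1 * q ^ (239 + 1) = C * q ^ 240 := by rw [pow_one]
  rw [h3] at h1
  have h4 : (1 : ℝ) / 10 ^ 9 * q ^ 239 ≤ 1 / 10 ^ 9 * 1 :=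
    mul_le_mul_of_nonneg_left h2 (by positivity)
  have h5 : (1 : ℝ) / 10 ^ 9 * 1 ≤ 1 / 4 := by norm_num
  linarith

theorem core_pos {C q a : ℝ} {N : ℕ} {D : Dat} (h : D.GDm C q a N) (hs : Sm C q) {δ : ℝ}
    (hδ : 0 ≤ δ) (hδ1 : δ ≤ 1) {n : ℕ} (hn : n ≤ N + 1) : 0 < Zg (D.F δ 0) n := by
  have hD := h.ok
  have hF := F_gas hD hδ hδ1 (le_refl (0 : ℝ))
  have hqC := GB_Cq h hs
  induction n with
  | zero =>
    rw [Zg_zero]
    exact one_pos
  | succ n ih =>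
    have h1 := ih (by omega)
    rw [Zg_succ hF h1]
    have h2 := rg_ge hD hδ hδ1 (le_refl (0 : ℝ)) h1
    have h3 : -(2 * (0 : ℝ) * n * D.uh 0) = 0 := by ring
    rw [h3, Real.exp_zero] at h2
    have h4 := GDm_n_Ic h (n := n) (by omega)
    exact mul_pos (by linarith) h1

theorem GB_Hg_zero (h : T3 → ℝ) (F : T3 → ℝ) {n : ℕ} (hn : n ≤ 1) : Eg F n (Hg h) = 0 := by
  have h0 : ∀ x : Fin n → T3, Hg h x = 0 := by
    intro x
    unfold Hg
    refine Finset.sum_eq_zero fun i _ => Finset.sum_eq_zero fun j hj => ?_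
    exact absurd (Fin.ext (by omega)) (Finset.ne_of_mem_erase hj)
  unfold Eg
  simp [h0]

theorem core_Hg {C q a : ℝ} {N : ℕ} {D : Dat} (h : D.GDm C q a N) (hs : Sm C q) {δ : ℝ}
    (hδ : 0 ≤ δ) (hδ1 : δ ≤ 1) {n : ℕ} (hn : n ≤ N) :
    Eg (D.F δ 0) n (Hg D.ul) ≤ (n : ℝ) ^ 2 * D.uh 0
      + 4 * n * (n * ∫ z, (1 - D.Fc z) ∂lam3) * (n * D.uh 0) := by
  have hD := h.ok
  have hF0 := F_gas hD hδ hδ1 (le_refl (0 : ℝ))
  have hu0 := hD.uh_nonneg 0
  have hI0 := GDm_Ic_nonneg h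
  rcases Nat.lt_or_ge n 2 with hn2 | hn2
  · rw [GB_Hg_zero D.ul (D.F δ 0) (by omega)]
    positivity
  obtain ⟨k, rfl⟩ : ∃ k, n = k + 2 := ⟨n - 2, by omega⟩
  have hZk0 : 0 < Zg (D.F δ 0) (k + 2) := core_pos h hs hδ hδ1 (by omega)
  set Ic := ∫ z, (1 - D.Fc z) ∂lam3 with hIc
  have hk0 : (0 : ℝ) ≤ k := Nat.cast_nonneg k
  set ε := ((k : ℝ) + 1) * Ic with hε
  have hε4 : ε ≤ 1 / 4 := by
    have h1 := GDm_n_Ic h hn
    rw [← hIc] at h1
    push_cast at h1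
    have h2 : ε ≤ ((k : ℝ) + 2) * Ic := mul_le_mul_of_nonneg_right (by linarith) hI0
    exact (h2.trans h1).trans (GB_Cq h hs)
  have hulbm := ul_bm hD
  have hpp : ∫ z, D.ul z * pp (D.F δ 0) k z ∂lam3 ≤ (1 + 4 * ε) * D.uh 0 := by
    have h1 : ∀ z, D.ul z * pp (D.F δ 0) k z ≤ D.ul z * (1 + 4 * ε) := fun z =>
      mul_le_mul_of_nonneg_left (pp_core_le hD hδ hδ1 hε4 z) (hD.ul_nonneg z)
    have h2 := integral_mono (μ := lam3) ((hulbm.mul (pp_bm hF0 k)).integrable _)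
      ((hulbm.mul (BM.const (1 + 4 * ε))).integrable _) h1
    rw [integral_mul_const, ul_int hD] at h2
    linarith
  have hE0 : Eg (D.F δ 0) (k + 2) (Hg D.ul) =
      (k + 2) * ((k + 1) * ∫ z, D.ul z * pp (D.F δ 0) k z ∂lam3) := by
    have hpb : ∀ i j : Fin (k + 2), BM (fun x : Fin (k + 2) → T3 => D.ul (x i - x j)) :=
      fun i j => hulbm.comp (measurable_sub' (measurable_pi_apply i) (measurable_pi_apply j))
    unfold Hg
    rw [Eg_sum hF0 Finset.univ (fun i _ => BM.finset_sum _ fun j _ => hpb i j)]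
    have h2 : ∀ i : Fin (k + 2), Eg (D.F δ 0) (k + 2)
        (fun x => ∑ j ∈ Finset.univ.erase i, D.ul (x i - x j)) =
        (k + 1) * ∫ z, D.ul z * pp (D.F δ 0) k z ∂lam3 := by
      intro i
      rw [Eg_sum hF0 (Finset.univ.erase i) (fun j _ => hpb i j)]
      have h3 : ∀ j ∈ Finset.univ.erase i, Eg (D.F δ 0) (k + 2) (fun x => D.ul (x i - x j)) =
          ∫ z, D.ul z * pp (D.F δ 0) k z ∂lam3 := fun j hj =>
        pair_pp hF0 k hZk0 hulbm i j (Finset.ne_of_mem_erase hj).symm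
      rw [Finset.sum_congr rfl h3, Finset.sum_const, Finset.card_erase_of_mem (Finset.mem_univ i),
        Finset.card_univ, Fintype.card_fin, nsmul_eq_mul]
      push_cast
      simp
    rw [Finset.sum_congr rfl fun i _ => h2 i, Finset.sum_const, Finset.card_univ,
      Fintype.card_fin, nsmul_eq_mul]
    push_cast
    ring
  rw [hE0]
  push_cast
  set J := ∫ z, D.ul z * pp (D.F δ 0) k z ∂lam3 with hJ
  have h1 : ((k : ℝ) + 2) * ((k + 1) * J) ≤ ((k : ℝ) + 2) * ((k + 1) * ((1 + 4 * ε) * D.uh 0)) :=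
    mul_le_mul_of_nonneg_left (mul_le_mul_of_nonneg_left hpp (by positivity)) (by positivity)
  have h2 : 0 ≤ ((k : ℝ) + 2) * D.uh 0 := by positivity
  have h3 : 0 ≤ ((k : ℝ) + 2) * (Ic * D.uh 0) * (2 * k + 3) := by positivity
  have h4 : ((k : ℝ) + 2) ^ 2 * D.uh 0 + 4 * (k + 2) * ((k + 2) * Ic) * ((k + 2) * D.uh 0) -
      ((k : ℝ) + 2) * ((k + 1) * ((1 + 4 * ε) * D.uh 0)) =
      ((k : ℝ) + 2) * D.uh 0 + 4 * (((k : ℝ) + 2) * (Ic * D.uh 0) * (2 * k + 3)) := by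
    rw [hε]
    ring
  linarith

theorem Zpos_m {C q a : ℝ} {N : ℕ} {D : Dat} (h : D.GDm C q a N) (hs : Sm C q) {δ τ : ℝ}
    (hδ : 0 ≤ δ) (hδ1 : δ ≤ 1) (hτ : 0 ≤ τ) (hτ1 : τ ≤ 1) {n : ℕ} (hn : n ≤ N + 1) :
    0 < Zg (D.F δ τ) n := by
  have h0 := core_pos h hs hδ hδ1 hn
  have h1 := Zg_tilt h.ok hδ hδ1 (le_refl (0 : ℝ)) hτ h0
  exact lt_of_lt_of_le (mul_pos h0 (Real.exp_pos _)) h1

theorem Z_ratio {C q a : ℝ} {N : ℕ} {D : Dat} (h : D.GDm C q a N) (hs : Sm C q) {δ τ : ℝ}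
    (hδ : 0 ≤ δ) (hδ1 : δ ≤ 1) (hτ : 0 ≤ τ) (hτ1 : τ ≤ 1) {n : ℕ} (hn : n ≤ N) :
    Zg (D.F δ 0) n ≤ Zg (D.F δ τ) n * Real.exp (τ * ((n : ℝ) ^ 2 * D.uh 0
      + 4 * n * (n * ∫ z, (1 - D.Fc z) ∂lam3) * (n * D.uh 0))) := by
  have h0 := core_pos h hs hδ hδ1 (n := n) (by omega)
  have h1 := Zg_tilt h.ok hδ hδ1 (le_refl (0 : ℝ)) hτ h0
  have h2 := core_Hg h hs hδ hδ1 hn
  set B := (n : ℝ) ^ 2 * D.uh 0 + 4 * n * (n * ∫ z, (1 - D.Fc z) ∂lam3) * (n * D.uh 0) with hB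
  have h3 : Real.exp (-(τ * B)) ≤ Real.exp (-((τ - 0) * Eg (D.F δ 0) n (Hg D.ul))) := by
    rw [Real.exp_le_exp, sub_zero]
    exact neg_le_neg (mul_le_mul_of_nonneg_left h2 hτ)
  have h4 : Zg (D.F δ 0) n * Real.exp (-(τ * B)) ≤ Zg (D.F δ τ) n :=
    (mul_le_mul_of_nonneg_left h3 h0.le).trans h1
  have h5 := mul_le_mul_of_nonneg_right h4 (Real.exp_pos (τ * B)).le
  rw [mul_assoc, ← Real.exp_add, neg_add_cancel, Real.exp_zero, mul_one] at h5
  exact h5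

end Pool.Agent.Lib.MP_4952d6_mp.M

end

/-! ### M.GA -/

section

set_option autoImplicit false
set_option linter.unusedSectionVars false
set_option linter.unusedVariables false
open MeasureTheory Function Filter Topology Set ComplexConjugate

namespace Pool.Agent.Lib.MP_4952d6_mp.M

/-! ### GA: Fourier bounds -/

theorem GA_re {h : T3 → ℝ} {hh : (Fin 3 → ℤ) → ℝ}
    (H : ∀ x, HasSum (fun p => (hh p : ℂ) * ch p x) (h x : ℂ)) (x : T3) :
    HasSum (fun p => hh p * (ch p x).re) (h x) := by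
  have h1 := (H x).mapL Complex.reCLM
  simpa using h1

theorem GA_zero {h : T3 → ℝ} {hh : (Fin 3 → ℤ) → ℝ}
    (H : ∀ x, HasSum (fun p => (hh p : ℂ) * ch p x) (h x : ℂ)) : HasSum hh (h 0) := by
  have h1 := GA_re H 0
  have h2 : ∀ p : Fin 3 → ℤ, (ch p 0).re = 1 := fun p => by
    have : ch p (0 : T3) = 1 := by simp [ch, UnitAddTorus.mFourier]
    rw [this]; rfl
  simp_rw [h2, mul_one] at h1
  exact h1

theorem Hg_four {h : T3 → ℝ} {hh : (Fin 3 → ℤ) → ℝ}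
    (H : ∀ x, HasSum (fun p => (hh p : ℂ) * ch p x) (h x : ℂ)) {n : ℕ} (x : Fin n → T3) :
    HasSum (fun p => hh p * (‖rhoN p x‖ ^ 2 - n)) (Hg h x) := by
  unfold Hg
  have h1 : ∀ p, hh p * (‖rhoN p x‖ ^ 2 - n)
      = ∑ i, ∑ j ∈ Finset.univ.erase i, hh p * (ch p (x i - x j)).re := fun p => by
    rw [rhoN_sq, add_sub_cancel_left, Finset.mul_sum]
    refine Finset.sum_congr rfl fun i _ => ?_
    rw [Finset.mul_sum]
  simp_rw [h1]
  exact hasSum_sum fun i _ => hasSum_sum fun j _ => GA_re H _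

theorem GA_Xg {h : T3 → ℝ} {hh : (Fin 3 → ℤ) → ℝ}
    (H : ∀ x, HasSum (fun p => (hh p : ℂ) * ch p x) (h x : ℂ)) {n : ℕ} (x : Fin n → T3)
    (y : T3) : HasSum (fun p => hh p * (conj (rhoN p x) * ch p y).re) (Xg h x y) := by
  have h0 : HasSum (fun p => (hh p : ℂ) * (conj (rhoN p x) * ch p y)) (Xg h x y : ℂ) := by
    unfold Xg rhoN
    push_cast
    have h1 : ∀ p, (hh p : ℂ) * (conj (∑ j, ch p (x j)) * ch p y)
        = ∑ j, (hh p : ℂ) * ch p (y - x j) := fun p => by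
      rw [map_sum, Finset.sum_mul, Finset.mul_sum]
      refine Finset.sum_congr rfl fun j _ => ?_
      rw [sub_eq_add_neg, ch_add_arg, ch_neg_arg]
      ring
    simp_rw [h1]
    exact hasSum_sum fun j _ => H _
  have h2 := h0.mapL Complex.reCLM
  simpa using h2

theorem Hg_short {h : T3 → ℝ} {hh : (Fin 3 → ℤ) → ℝ} (h0 : ∀ p, 0 ≤ hh p) (hs : Summable hh)
    (H : ∀ x, HasSum (fun p => (hh p : ℂ) * ch p x) (h x : ℂ)) {n : ℕ} (x : Fin n → T3) :
    (n : ℝ) ^ 2 * hh 0 - n * h 0 ≤ Hg h x := by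
  have A := Hg_four H x
  have B := (hasSum_ite_eq (0 : Fin 3 → ℤ) ((n : ℝ) ^ 2 * hh 0)).sub
    ((GA_zero H).mul_left (n : ℝ))
  refine hasSum_le (fun p => ?_) B A
  by_cases hp : p = 0
  · subst hp
    rw [if_pos rfl, rhoN_zero, Complex.norm_natCast]
    apply le_of_eq
    ring
  · rw [if_neg hp]
    have h1 := h0 p
    have h2 := mul_nonneg h1 (sq_nonneg ‖rhoN p x‖)
    have h3 : hh p * (‖rhoN p x‖ ^ 2 - n) = hh p * ‖rhoN p x‖ ^ 2 - n * hh p := by ring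
    rw [h3]
    linarith

theorem GA_norm (a b : ℂ) (P : ℝ) :
    ‖a + (P : ℂ) * b‖ ^ 2 = ‖a‖ ^ 2 + P ^ 2 * ‖b‖ ^ 2 + 2 * P * (conj a * b).re := by
  rw [← Complex.normSq_eq_norm_sq, ← Complex.normSq_eq_norm_sq, ← Complex.normSq_eq_norm_sq,
    Complex.normSq_apply, Complex.normSq_apply, Complex.normSq_apply]
  simp only [Complex.add_re, Complex.add_im, Complex.mul_re, Complex.mul_im, Complex.ofReal_re,
    Complex.ofReal_im, Complex.conj_re, Complex.conj_im]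
  ring

theorem Hg_long {h : T3 → ℝ} {hh : (Fin 3 → ℤ) → ℝ} (h0 : ∀ p, 0 ≤ hh p) (hs : Summable hh)
    (H : ∀ x, HasSum (fun p => (hh p : ℂ) * ch p x) (h x : ℂ)) {n j : ℕ} (x : Fin n → T3)
    (y : Fin j → T3) {P : ℝ} (hP : 0 ≤ P) :
    hh 0 * (n + P * j) ^ 2 - (n + P ^ 2 * j ^ 2) * h 0 ≤ Hg h x + 2 * P * ∑ b, Xg h x (y b) := by
  have A1 := Hg_four H x
  have A2 := (hasSum_sum fun (b : Fin j) (_ : b ∈ Finset.univ) => GA_Xg H x (y b)).mul_left (2 * P)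
  have A := A1.add A2
  have B := (hasSum_ite_eq (0 : Fin 3 → ℤ) (hh 0 * (n + P * j) ^ 2)).sub
    ((GA_zero H).mul_left ((n : ℝ) + P ^ 2 * j ^ 2))
  refine hasSum_le (fun p => ?_) B A
  have hterm : hh p * (‖rhoN p x‖ ^ 2 - n)
      + 2 * P * ∑ b, hh p * (conj (rhoN p x) * ch p (y b)).re
      = hh p * (‖rhoN p x + (P : ℂ) * rhoN p y‖ ^ 2 - n - P ^ 2 * ‖rhoN p y‖ ^ 2) := by
    rw [GA_norm]
    have e : ∑ b, hh p * (conj (rhoN p x) * ch p (y b)).re
        = hh p * (conj (rhoN p x) * rhoN p y).re := by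
      rw [← Finset.mul_sum]
      congr 1
      have e2 : conj (rhoN p x) * rhoN p y = ∑ b, conj (rhoN p x) * ch p (y b) := by
        rw [← Finset.mul_sum]
        rfl
      rw [e2, Complex.re_sum]
    rw [e]
    ring
  rw [hterm]
  have hle := rhoN_sq_le p y
  by_cases hp : p = 0
  · subst hp
    rw [if_pos rfl, rhoN_zero, rhoN_zero]
    have e3 : ((n : ℂ) + (P : ℂ) * (j : ℂ)) = ((((n : ℝ) + P * (j : ℝ)) : ℝ) : ℂ) := by
      push_cast
      ring
    rw [e3, Complex.norm_real, Real.norm_eq_abs, sq_abs, Complex.norm_natCast]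
    apply le_of_eq
    ring
  · rw [if_neg hp]
    have h1 := h0 p
    have h2 := mul_nonneg h1 (sq_nonneg ‖rhoN p x + (P : ℂ) * rhoN p y‖)
    have h3 : hh p * (P ^ 2 * ‖rhoN p y‖ ^ 2) ≤ hh p * (P ^ 2 * (j : ℝ) ^ 2) :=
      mul_le_mul_of_nonneg_left (mul_le_mul_of_nonneg_left hle (sq_nonneg P)) h1
    have h4 : hh p * (‖rhoN p x + (P : ℂ) * rhoN p y‖ ^ 2 - n - P ^ 2 * ‖rhoN p y‖ ^ 2)
        = hh p * ‖rhoN p x + (P : ℂ) * rhoN p y‖ ^ 2 - n * hh p
          - hh p * (P ^ 2 * ‖rhoN p y‖ ^ 2) := by ring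
    rw [h4]
    have h5 : ((n : ℝ) + P ^ 2 * (j : ℝ) ^ 2) * hh p
        = n * hh p + hh p * (P ^ 2 * (j : ℝ) ^ 2) := by ring
    rw [h5]
    linarith

theorem GA_Hg_add {h g k : T3 → ℝ} (ha : ∀ x, h x = g x + k x) {n : ℕ} (x : Fin n → T3) :
    Hg h x = Hg g x + Hg k x := by
  unfold Hg
  simp_rw [ha, Finset.sum_add_distrib]

theorem EM_point {C q : ℝ} {N : ℕ} {D : Dat} {us uo : T3 → ℝ} {sh oh : (Fin 3 → ℤ) → ℝ}
    (S : Spl C q N D us uo sh oh) {τ P : ℝ} (hτ : 0 ≤ τ) (hP : 0 ≤ P) {n j : ℕ}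
    (x : Fin n → T3) (y : Fin j → T3) :
    -(τ * Hg D.ul x) - P * (2 * τ * ∑ b, (Xg uo x (y b) - n * oh 0))
      ≤ -(τ * ((n : ℝ) ^ 2 * D.uh 0)) + τ * (n * D.ul 0 + P ^ 2 * (j : ℝ) ^ 2 * uo 0) := by
  have h1 := Hg_short S.sh_nonneg S.sh_summable S.us_hasSum x
  have h2 := Hg_long S.oh_nonneg S.oh_summable S.uo_hasSum x y hP
  have h3 := GA_Hg_add S.add x
  have h4 : ∑ b, (Xg uo x (y b) - n * oh 0) = (∑ b, Xg uo x (y b)) - j * (n * oh 0) := by
    rw [Finset.sum_sub_distrib]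
    simp
  rw [h3, h4, S.add 0, S.add_h 0]
  generalize Hg us x = A at *
  generalize Hg uo x = B at *
  generalize (∑ b, Xg uo x (y b)) = X at *
  have h5 := mul_le_mul_of_nonneg_left h1 hτ
  have h6 := mul_le_mul_of_nonneg_left h2 hτ
  have h7 : 0 ≤ τ * (oh 0 * (P * j) ^ 2) :=
    mul_nonneg hτ (mul_nonneg (S.oh_nonneg 0) (sq_nonneg _))
  linarith [h5, h6, h7]

end Pool.Agent.Lib.MP_4952d6_mp.M

end

/-! ### M.PGas -/

section

/-!
# PGas: the input of the potential stream (MP) from the gas stream (MG)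

`MGStatement` is to be proved by the gas stream; `MUStatement` is proved from it in `M/PMain.lean`.
-/

set_option autoImplicit false
set_option linter.unusedSectionVars false
set_option linter.unusedVariables false
open MeasureTheory Function Filter Topology Set
open scoped ENNReal

namespace Pool.Agent.Lib.MP_4952d6_mp.M

/-- **(MG)** the gas results: structure factor and contact value, constants polynomial in `C`. -/
def MGStatement : Prop :=
  ∃ A q₀ : ℝ, 1 ≤ A ∧ 0 < q₀ ∧ ∀ (C q a : ℝ) (N : ℕ) (D : Dat) (us uo : T3 → ℝ)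
    (sh oh : (Fin 3 → ℤ) → ℝ) (ψ : T3 → ℝ) (ph : (Fin 3 → ℤ) → ℝ),
    D.GDm C q a N → Spl C q N D us uo sh oh → Dat.PB C q a N D ψ ph →
    q ≤ q₀ → (A * C ^ 3) ^ 20 * q ≤ 1 / 1000 →
      0 < Zg (D.F 0 1) N ∧
      Summable (fun p => if p = 0 then 0 else D.uh p * |Sg (D.F 0 1) N p - D.Ss 1 N p|) ∧
      tsum0 (fun p => D.uh p * |Sg (D.F 0 1) N p - D.Ss 1 N p|) ≤ A * C ^ 33 * q ^ 208 ∧
      yy (D.F 0 1) (N - 2) 0 ≤ 1 + 2 * D.uh 0 + D.Vn N + A * C ^ 33 * q ^ 202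

end Pool.Agent.Lib.MP_4952d6_mp.M

end

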