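import Pool.Agent.Lib.MP_4952d6_mp.Pk.G22
import Pool.Agent.Lib.MP_4952d6_mp.Pk.G23
import Pool.Agent.Lib.MP_4952d6_mp.Pm.M02

/-! Merged modules (to save import time): M.PCOA, M.PCOB. -/

/-! ### M.PCOA -/

section

/-!
# PCOA: bounds of the core function

Copy of `U/COA` for the regime `a ≤ q ^ 200 / 8` (`M.Reg`).
-/

set_option autoImplicit false
set_option linter.unusedSectionVars false
set_option linter.unusedVariables false
open MeasureTheory Function Filter Topology Set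
open scoped ENNReal

namespace Pool.Agent.Lib.MP_4952d6_mp.M


section
variable {W f Q : ℝ → ℝ} {R₀ R a θ q : ℝ}

theorem Reg.fs_of_ge (h : Reg W R₀ R a f Q θ q) {r : ℝ} (hr : bq q a ≤ r) : fs q a f r = 1 := by
  obtain ⟨ht, ht1⟩ := PRB_t h.q_pos h.q_le (k := 80) (by norm_num)
  unfold fs
  rw [min_eq_right hr, h.f_b]
  unfold efs
  rw [sub_self, mul_zero, Real.exp_zero]
  have h1 : (1 - q ^ 80 : ℝ) ≠ 0 := by linarith
  field_simp

theorem Reg.fs_of_le (h : Reg W R₀ R a f Q θ q) {r : ℝ} (hr : r ≤ bq q a) :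
    fs q a f r = f r * efs q a r := by
  unfold fs
  rw [min_eq_left hr]

theorem Reg.fs_nonneg (h : Reg W R₀ R a f Q θ q) (r : ℝ) : 0 ≤ fs q a f r :=
  mul_nonneg (h.sc.f_nonneg _) (efs_pos h.q_pos h.q_le).le

/-- derivative of `f e` -/
theorem Reg.COA_deriv (h : Reg W R₀ R a f Q θ q) {x : ℝ} (hx : R < x) :
    HasDerivAt (fun r => f r * efs q a r)
      (efs q a x / x ^ 2 * (Q x - auq q a * qbf (tq q a) x * f x)) x := by
  have hR := h.sc.R_pos
  have hx0 : 0 < x := hR.trans hx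
  have h1 := h.sc.f_deriv x hx0 (by have := h.sc.R₀_le; linarith)
  have h2 : HasDerivAt (fun r => Real.exp (auq q a * (sbf (tq q a) r - sbf (tq q a) (bq q a)))
      / (1 - q ^ 80))
      (Real.exp (auq q a * (sbf (tq q a) x - sbf (tq q a) (bq q a)))
        * (auq q a * (-(qbf (tq q a) x / x ^ 2))) / (1 - q ^ 80)) x :=
    ((((sbf_hasDerivAt (tq_pos h.q_pos h.a_pos) hx0).sub_const _).const_mul _).exp).div_const _
  have h3 := h1.mul h2
  refine h3.congr_deriv ?_
  unfold efs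
  field_simp
  ring

theorem Reg.COA_far (h : Reg W R₀ R a f Q θ q) {r : ℝ} (hr : R ≤ r) (hrb : r ≤ bq q a) :
    fs q a f r ≤ 1 := by
  have hR := h.sc.R_pos
  have hm : MonotoneOn (fun r => f r * efs q a r) (Icc R (bq q a)) := by
    refine monotoneOn_of_deriv_nonneg (convex_Icc _ _) ?_ ?_ ?_
    · intro x hx
      have hx0 : 0 < x := hR.trans_le hx.1
      have h1 : ContinuousAt f x := h.sc.f_cont.continuousAt
      have h2 : ContinuousAt (sbf (tq q a)) x :=
        (sbf_hasDerivAt (tq_pos h.q_pos h.a_pos) hx0).continuousAt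
      refine ContinuousAt.continuousWithinAt (h1.mul ?_)
      unfold efs
      exact ((continuousAt_const.mul (h2.sub continuousAt_const)).rexp).div_const _
    · intro x hx
      rw [interior_Icc] at hx
      exact (h.COA_deriv hx.1).differentiableAt.differentiableWithinAt
    · intro x hx
      rw [interior_Icc] at hx
      rw [(h.COA_deriv hx.1).deriv]
      have hx0 : 0 < x := hR.trans hx.1
      have h1 : 0 ≤ efs q a x / x ^ 2 := div_nonneg (efs_pos h.q_pos h.q_le).le (sq_nonneg x)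
      refine mul_nonneg h1 ?_
      rw [h.sc.Q_out x hx.1.le]
      have h2 := auq_match h.q_pos h.q_le h.a_pos
      have h3 := qbf_mono (tq_pos h.q_pos h.a_pos) hx0.le hx.2.le
      have h4 := h.sc.f_mono hx.2.le
      rw [h.f_b] at h4
      have h5 := (PRB_au h.q_pos h.q_le h.a_pos).le
      have h6 := qbf_nonneg (t := tq q a) hx0.le
      have h7 := h.sc.f_nonneg x
      have h8 : auq q a * qbf (tq q a) x * f x
          ≤ auq q a * qbf (tq q a) (bq q a) * (1 - q ^ 80) := by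
        refine mul_le_mul (mul_le_mul_of_nonneg_left h3 h5) h4 h7 ?_
        exact mul_nonneg h5 (h6.trans h3)
      linarith
  have h1 := hm ⟨hr, hrb⟩ ⟨hr.trans hrb, le_rfl⟩ hrb
  simp only at h1
  rw [← h.fs_of_le hrb, ← h.fs_of_le le_rfl, h.fs_of_ge le_rfl] at h1
  exact h1

theorem Reg.COA_near (h : Reg W R₀ R a f Q θ q) {r : ℝ} (h0 : 0 ≤ r) (hr : r ≤ R) :
    fs q a f r ≤ 1 := by
  have hR := h.sc.R_pos
  have hq := h.q_pos
  have hq1 := h.q_le
  have ha := h.a_pos
  have hb : r ≤ bq q a := by have := h.R_le_b; linarith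
  rw [h.fs_of_le hb]
  have h1 : f r ≤ 1 - q := by
    have h2 := h.sc.f_mono hr
    rw [h.sc.f_out R le_rfl] at h2
    have h3 : q ≤ a / R := by
      rw [le_div_iff₀ hR]
      calc q * R ≤ q * (θ * a) := mul_le_mul_of_nonneg_left h.Rle hq.le
        _ = (θ * q) * a := by ring
        _ ≤ 1 * a := mul_le_mul_of_nonneg_right h.hθq ha.le
        _ = a := one_mul a
    linarith
  obtain ⟨ht, ht1⟩ := PRB_t hq hq1 (k := 80) (by norm_num)
  obtain ⟨hu, hu1⟩ := PRB_t hq hq1 (k := 79) (by norm_num)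
  obtain ⟨hv, hv1⟩ := PRB_t hq hq1 (k := 78) (by norm_num)
  obtain ⟨h4, h5⟩ := au_sb_le hq hq1 ha h0 hb
  have h6 : Real.exp (auq q a * (sbf (tq q a) r - sbf (tq q a) (bq q a))) ≤ 1 / (1 - 2 * q ^ 79) := by
    refine (Real.exp_le_exp.2 h5).trans ?_
    have h7 := Real.add_one_le_exp (-(2 * q ^ 79))
    rw [Real.exp_neg] at h7
    have h8 := Real.exp_pos (2 * q ^ 79)
    rw [le_div_iff₀ (by linarith)]
    calc Real.exp (2 * q ^ 79) * (1 - 2 * q ^ 79)
        ≤ Real.exp (2 * q ^ 79) * (Real.exp (2 * q ^ 79))⁻¹ :=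
          mul_le_mul_of_nonneg_left (by linarith) h8.le
      _ = 1 := mul_inv_cancel₀ h8.ne'
  have h9 : efs q a r ≤ 1 / (1 - 2 * q ^ 79) / (1 - q ^ 80) := by
    unfold efs
    exact div_le_div_of_nonneg_right h6 (by linarith)
  have h10 : (1 - q) ≤ (1 - 2 * q ^ 79) * (1 - q ^ 80) := by
    have e1 : q ^ 79 = q ^ 78 * q := by ring
    have e2 : q ^ 80 = q ^ 79 * q := by ring
    have h11 : q ^ 79 ≤ 1 / 100 * q := by rw [e1]; exact mul_le_mul_of_nonneg_right hv1 hq.le
    have h12 : q ^ 80 ≤ 1 / 100 * q := by rw [e2]; exact mul_le_mul_of_nonneg_right hu1 hq.le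
    nlinarith [mul_pos hu ht]
  calc f r * efs q a r ≤ (1 - q) * (1 / (1 - 2 * q ^ 79) / (1 - q ^ 80)) :=
        mul_le_mul h1 h9 (efs_pos hq hq1).le (by linarith)
    _ = (1 - q) / ((1 - 2 * q ^ 79) * (1 - q ^ 80)) := by
        rw [div_div, mul_one_div]
    _ ≤ 1 := by
        rw [div_le_one (mul_pos (by linarith) (by linarith))]
        exact h10

theorem Reg.fs_le_one (h : Reg W R₀ R a f Q θ q) {r : ℝ} (hr : 0 ≤ r) : fs q a f r ≤ 1 := by
  rcases le_total (bq q a) r with h1 | h1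
  · rw [h.fs_of_ge h1]
  · rcases le_total R r with h2 | h2
    · exact h.COA_far h2 h1
    · exact h.COA_near hr h2

theorem Reg.f_le_fs (h : Reg W R₀ R a f Q θ q) {r : ℝ} (hr : 0 ≤ r) : f r ≤ fs q a f r := by
  rcases le_total (bq q a) r with h1 | h1
  · rw [h.fs_of_ge h1]
    exact h.sc.f_le_one r
  · rw [h.fs_of_le h1]
    have h2 := (efs_bounds h.q_pos h.q_le h.a_pos hr h1).1
    calc f r = f r * 1 := (mul_one _).symm
      _ ≤ f r * efs q a r := mul_le_mul_of_nonneg_left h2 (h.sc.f_nonneg r)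

theorem Reg.one_sub_fs_sq_le (h : Reg W R₀ R a f Q θ q) {r : ℝ} (hr : 0 < r) :
    1 - fs q a f r ^ 2 ≤ 2 * a / r := by
  have h1 := h.f_le_fs hr.le
  have h2 := h.sc.f_nonneg r
  have h3 := h.sc.f_ge r hr
  have h4 := h.sc.f_le_one r
  have h5 : f r ^ 2 ≤ fs q a f r ^ 2 := pow_le_pow_left₀ h2 h1 2
  have h6 : 1 - f r ^ 2 ≤ 2 * (1 - f r) := by nlinarith
  have e : 2 * a / r = 2 * (a / r) := by ring
  rw [e]
  linarith

theorem Reg.COA_one_sub (h : Reg W R₀ R a f Q θ q) {r : ℝ} (hr : 0 < r) :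
    0 ≤ 1 - fs q a f r ^ 2 := by
  have := pow_le_one₀ (n := 2) (h.fs_nonneg r) (h.fs_le_one hr.le)
  linarith

/-- `I_c = ∫ (1 - F_c) ≤ 4 π a b²` -/
theorem Reg.Ic_le (h : Reg W R₀ R a f Q θ q) :
    ∫ x, (1 - fs q a f (rr x) ^ 2) ∂lam3 ≤ 4 * Real.pi * a * bq q a ^ 2 := by
  have hb0 := bq_pos h.q_pos h.a_pos
  have hb2 := h.b_lt
  have h5 := rad_le (b := bq q a) (s := 0) (φ := fun r => 1 - fs q a f r ^ 2)
    (B := fun r => (2 * a) * r) le_rfl hb0.le (by linarith)
    (fun r hr => by rw [h.fs_of_ge hr]; simp)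
    (fun r hr0 hr => absurd hr (not_lt.2 hr0.le))
    (fun r hr => h.COA_one_sub hr)
    (fun r hr hrb => by
      have h6 := mul_le_mul_of_nonneg_left (h.one_sub_fs_sq_le hr) (sq_nonneg r)
      refine h6.trans (le_of_eq ?_)
      field_simp)
    (Continuous.intervalIntegrable (by fun_prop) _ _)
  refine h5.trans (le_of_eq ?_)
  rw [intervalIntegral.integral_const_mul, integral_id, sig_eq_four_pi]
  ring

/-- `∫ (1 - F_c) |x| ≤ 4 π a b³` -/
theorem Reg.Ic_rr_le (h : Reg W R₀ R a f Q θ q) :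
    ∫ x, (1 - fs q a f (rr x) ^ 2) * rr x ∂lam3 ≤ 4 * Real.pi * a * bq q a ^ 3 := by
  have hb0 := bq_pos h.q_pos h.a_pos
  have hb2 := h.b_lt
  have ha := h.a_pos
  have h5 := rad_le (b := bq q a) (s := 0) (φ := fun r => (1 - fs q a f r ^ 2) * r)
    (B := fun r => (2 * a) * r ^ 2) le_rfl hb0.le (by linarith)
    (fun r hr => by rw [h.fs_of_ge hr]; simp)
    (fun r hr0 hr => absurd hr (not_lt.2 hr0.le))
    (fun r hr => mul_nonneg (h.COA_one_sub hr) hr.le)
    (fun r hr hrb => by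
      have h6 := mul_le_mul_of_nonneg_left (h.one_sub_fs_sq_le hr) (sq_nonneg r)
      have h7 := mul_le_mul_of_nonneg_right h6 hr.le
      refine (le_of_eq (by ring)).trans (h7.trans (le_of_eq ?_))
      field_simp)
    (Continuous.intervalIntegrable (by fun_prop) _ _)
  refine h5.trans ?_
  rw [intervalIntegral.integral_const_mul, integral_pow, sig_eq_four_pi]
  have h8 : 0 ≤ Real.pi * a * bq q a ^ 3 := by
    have := Real.pi_pos
    positivity
  norm_num
  nlinarith

theorem Reg.fs_core (h : Reg W R₀ R a f Q θ q) {r : ℝ} (hR : 0 < R₀) (hr : r < R₀) :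
    fs q a f r = 0 := by
  unfold fs
  rw [h.sc.f_core _ hR ((min_le_left _ _).trans hr.le), zero_mul]

end

end Pool.Agent.Lib.MP_4952d6_mp.M

end

/-! ### M.PCOB -/

section

/-!
# PCOB: regularity of the core functions

Copy of `U/COB` for the regime `a ≤ q ^ 200 / 8` (`M.Reg`).
-/

set_option autoImplicit false
set_option linter.unusedSectionVars false
set_option linter.unusedVariables false
open MeasureTheory Function Filter Topology Set
open scoped ENNReal

namespace Pool.Agent.Lib.MP_4952d6_mp.M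


section
variable {W f Q : ℝ → ℝ} {R₀ R a θ q : ℝ}

/-! ### Auxiliary facts -/

theorem COB_g_bd (h : Reg W R₀ R a f Q θ q) : ∃ C, 0 ≤ C ∧ ∀ r, 0 ≤ r → |COB_g q a f Q r| ≤ C * r ^ 3 := by
  have hq := h.q_pos
  have hq1 := h.q_le
  have ha := h.a_pos
  have ht := tq_pos hq ha
  have hA := COB_auq_nonneg hq hq1 ha
  obtain ⟨C, hC0, hC⟩ := h.sc.exists_C
  refine ⟨C + auq q a / Real.sqrt (tq q a) ^ 3, by positivity, fun r hr => ?_⟩
  rcases hr.eq_or_lt with h0 | h0
  · have hq0 : qbf (tq q a) 0 = 0 := by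
      have := qbf_neg (tq q a) 0
      rw [neg_zero] at this
      linarith
    rw [← h0]
    unfold COB_g
    rw [h.sc.Q_zero' 0 le_rfl, hq0]
    simp
  · have hf0 := h.sc.f_nonneg r
    have hf1 := h.sc.f_le_one r
    have h1 := hC r h0
    have h2 := qbf_le_cube ht hr
    have h3 := qbf_nonneg (t := tq q a) hr
    have h4 := h.sc.Q_nonneg r
    unfold COB_g
    refine (abs_sub _ _).trans ?_
    rw [abs_of_nonneg (mul_nonneg hf0 h4), abs_of_nonneg (by positivity), add_mul]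
    refine add_le_add ?_ ?_
    · calc f r * Q r ≤ 1 * (C * r ^ 3) := mul_le_mul hf1 h1 h4 zero_le_one
        _ = C * r ^ 3 := one_mul _
    · calc auq q a * qbf (tq q a) r * f r ^ 2 ≤ auq q a * qbf (tq q a) r * 1 :=
            mul_le_mul_of_nonneg_left (pow_le_one₀ hf0 hf1) (by positivity)
        _ ≤ auq q a * (r ^ 3 / Real.sqrt (tq q a) ^ 3) := by
            rw [mul_one]; exact mul_le_mul_of_nonneg_left h2 hA
        _ = auq q a / Real.sqrt (tq q a) ^ 3 * r ^ 3 := by ring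

/-- increments of `f Q` -/
theorem COB_fQ_sub (h : Reg W R₀ R a f Q θ q) : ∃ C, 0 ≤ C ∧ ∀ r s, 0 ≤ r → r ≤ s → s ≤ 1 →
    |f s * Q s - f r * Q r| ≤ C * s ^ 2 * (s - r) := by
  obtain ⟨C, hC0, hC⟩ := h.sc.exists_C
  obtain ⟨M, hM0, hM⟩ := h.sc.exists_M
  obtain ⟨L, hL0, hL⟩ := h.sc.exists_L
  have hQC : ∀ s, 0 ≤ s → s ≤ 1 → Q s ≤ C * s ^ 2 := by
    intro s hs hs1
    rcases hs.eq_or_lt with h0 | h0
    · rw [← h0, h.sc.Q_zero' 0 le_rfl]; simp
    · refine (hC s h0).trans (mul_le_mul_of_nonneg_left ?_ hC0)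
      exact pow_le_pow_of_le_one hs hs1 (by norm_num)
  refine ⟨L * C + M, by positivity, fun r s hr hrs hs1 => ?_⟩
  have hs : 0 ≤ s := hr.trans hrs
  have hsr : 0 ≤ s - r := by linarith
  have hfs0 := h.sc.f_nonneg s
  have hfs1 := h.sc.f_le_one s
  rcases lt_or_ge r R₀ with h1 | h1
  · rw [h.sc.Q_zero r h1, mul_zero, sub_zero, abs_of_nonneg (mul_nonneg hfs0 (h.sc.Q_nonneg s))]
    have hR0 : 0 < R₀ := hr.trans_lt h1
    rcases lt_or_ge s R₀ with h2 | h2
    · rw [h.sc.Q_zero s h2, mul_zero]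
      positivity
    · have h3 : f s ≤ L * (s - r) := by
        have h4 := hL s R₀
        rw [h.sc.f_core R₀ hR0 le_rfl, sub_zero, abs_of_nonneg hfs0,
          abs_of_nonneg (sub_nonneg.2 h2)] at h4
        exact h4.trans (mul_le_mul_of_nonneg_left (by linarith) hL0)
      calc f s * Q s ≤ (L * (s - r)) * (C * s ^ 2) :=
            mul_le_mul h3 (hQC s hs hs1) (h.sc.Q_nonneg s) (by positivity)
        _ = L * C * s ^ 2 * (s - r) := by ring
        _ ≤ (L * C + M) * s ^ 2 * (s - r) := by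
            refine mul_le_mul_of_nonneg_right (mul_le_mul_of_nonneg_right ?_ (sq_nonneg s)) hsr
            linarith
  · have h2 := h.sc.Q_sub_le hM0 hM h1 hrs
    have h3 : 0 ≤ Q s - Q r := sub_nonneg.2 (h.sc.Q_mono hrs)
    have h4 := hL s r
    rw [abs_of_nonneg hsr] at h4
    have e : f s * Q s - f r * Q r = f s * (Q s - Q r) + (f s - f r) * Q r := by ring
    rw [e]
    refine (abs_add_le _ _).trans ?_
    rw [abs_mul, abs_mul, abs_of_nonneg hfs0, abs_of_nonneg h3, abs_of_nonneg (h.sc.Q_nonneg r)]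
    have h5 : Q r ≤ C * s ^ 2 := (h.sc.Q_mono hrs).trans (hQC s hs hs1)
    calc f s * (Q s - Q r) + |f s - f r| * Q r
        ≤ 1 * (M * s ^ 2 * (s - r)) + (L * (s - r)) * (C * s ^ 2) :=
          add_le_add (mul_le_mul hfs1 h2 h3 zero_le_one)
            (mul_le_mul h4 h5 (h.sc.Q_nonneg r) (by positivity))
      _ = (L * C + M) * s ^ 2 * (s - r) := by ring

theorem COB_g_sub (h : Reg W R₀ R a f Q θ q) : ∃ C, 0 ≤ C ∧ ∀ r s, 0 ≤ r → r ≤ s → s ≤ 1 →
    |COB_g q a f Q s - COB_g q a f Q r| ≤ C * s ^ 2 * (s - r) := by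
  have hq := h.q_pos
  have hq1 := h.q_le
  have ha := h.a_pos
  have ht := tq_pos hq ha
  have hA := COB_auq_nonneg hq hq1 ha
  obtain ⟨C1, hC1, h1⟩ := COB_fQ_sub h
  obtain ⟨L, hL0, hL⟩ := h.sc.exists_L
  have hg0 : 0 ≤ gam (tq q a) 0 := (COB_gam_le ht 0).1
  have hpi := Real.pi_pos
  set T : ℝ := Real.sqrt (tq q a) ^ 3 with hT
  have hT0 : 0 < T := by
    have := Real.sqrt_pos.2 ht
    positivity
  refine ⟨C1 + auq q a * (4 * Real.pi * gam (tq q a) 0 + 2 * L / T), by positivity,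
    fun r s hr hrs hs1 => ?_⟩
  have hs : 0 ≤ s := hr.trans hrs
  have hsr : 0 ≤ s - r := by linarith
  have hfs0 := h.sc.f_nonneg s
  have hfs1 := h.sc.f_le_one s
  have hfr0 := h.sc.f_nonneg r
  have hfr1 := h.sc.f_le_one r
  have h2 := h1 r s hr hrs hs1
  have h3 := COB_qbf_sub ht hr hrs
  have h4 := hL s r
  rw [abs_of_nonneg hsr] at h4
  have h5 : qbf (tq q a) r ≤ s ^ 2 / T := by
    refine (qbf_le_cube ht hr).trans (div_le_div_of_nonneg_right ?_ hT0.le)
    calc r ^ 3 ≤ s ^ 3 := pow_le_pow_left₀ hr hrs 3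
      _ ≤ s ^ 2 := pow_le_pow_of_le_one hs hs1 (by norm_num)
  have h6 := qbf_nonneg (t := tq q a) hr
  have e : COB_g q a f Q s - COB_g q a f Q r = (f s * Q s - f r * Q r)
      - auq q a * ((qbf (tq q a) s - qbf (tq q a) r) * f s ^ 2
        + qbf (tq q a) r * ((f s - f r) * (f s + f r))) := by
    unfold COB_g
    ring
  rw [e]
  refine (abs_sub _ _).trans ?_
  rw [abs_mul, abs_of_nonneg hA]
  have h7 : |(qbf (tq q a) s - qbf (tq q a) r) * f s ^ 2
        + qbf (tq q a) r * ((f s - f r) * (f s + f r))|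
      ≤ (4 * Real.pi * gam (tq q a) 0 + 2 * L / T) * s ^ 2 * (s - r) := by
    refine (abs_add_le _ _).trans ?_
    rw [abs_mul, abs_mul, abs_mul, abs_of_nonneg (sq_nonneg (f s)), abs_of_nonneg h6,
      abs_of_nonneg (add_nonneg hfs0 hfr0)]
    have h8 : |qbf (tq q a) s - qbf (tq q a) r| * f s ^ 2
        ≤ (4 * Real.pi * gam (tq q a) 0 * s ^ 2 * (s - r)) * 1 :=
      mul_le_mul h3 (pow_le_one₀ hfs0 hfs1) (sq_nonneg _) (by positivity)
    have h9 : qbf (tq q a) r * (|f s - f r| * (f s + f r)) ≤ (s ^ 2 / T) * ((L * (s - r)) * 2) :=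
      mul_le_mul h5 (mul_le_mul h4 (by linarith) (by linarith) (by positivity)) (by positivity)
        (by positivity)
    calc _ ≤ (4 * Real.pi * gam (tq q a) 0 * s ^ 2 * (s - r)) * 1 + (s ^ 2 / T) * ((L * (s - r)) * 2) :=
          add_le_add h8 h9
      _ = _ := by ring
  have h8 := mul_le_mul_of_nonneg_left h7 hA
  calc |f s * Q s - f r * Q r| + _ ≤ C1 * s ^ 2 * (s - r)
        + auq q a * ((4 * Real.pi * gam (tq q a) 0 + 2 * L / T) * s ^ 2 * (s - r)) :=
        add_le_add h2 h8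
    _ = _ := by ring

theorem COB_phi_b (h : Reg W R₀ R a f Q θ q) : COB_phi q a f Q (bq q a) = 0 := by
  have hR := h.R_le_b
  have hRp := h.sc.R_pos
  have h1 : COB_g q a f Q (bq q a) = 0 := by
    unfold COB_g
    rw [h.f_b, h.sc.Q_out (bq q a) (by linarith)]
    have h2 := auq_match h.q_pos h.q_le h.a_pos
    linear_combination (-(1 - q ^ 80)) * h2
  unfold COB_phi
  rw [h1]
  simp

theorem COB_phi_wlip (h : Reg W R₀ R a f Q θ q) : ∃ M, 0 ≤ M ∧ ∀ r s, 0 ≤ r → r ≤ s → s ≤ 1 →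
    r * |COB_phi q a f Q s - COB_phi q a f Q r| ≤ M * (s - r) := by
  obtain ⟨B, L, hB, hL, h1, h2⟩ := COB_efs h.q_pos h.q_le h.a_pos
  obtain ⟨C, hC, h3⟩ := COB_g_bd h
  obtain ⟨C', hC', h4⟩ := COB_g_sub h
  refine ⟨2 * B * L * C + B ^ 2 * (C' + 3 * C), by positivity, fun r s hr hrs hs1 => ?_⟩
  have hs : 0 ≤ s := hr.trans hrs
  have hsr : 0 ≤ s - r := by linarith
  have h5 := COB_wlip0 hC hC' h3 h4 hr hrs hs1
  have h6 : |COB_g q a f Q s / s ^ 3| ≤ C := by
    rcases hs.eq_or_lt with h0 | h0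
    · rw [← h0]; simpa using hC
    · rw [abs_div, abs_of_pos (pow_pos h0 3), div_le_iff₀ (pow_pos h0 3)]
      exact h3 s hs
  have h7 := h2 s r
  rw [abs_of_nonneg hsr] at h7
  have e : COB_phi q a f Q s - COB_phi q a f Q r
      = (efs q a s - efs q a r) * (efs q a s + efs q a r) * (COB_g q a f Q s / s ^ 3)
        + efs q a r ^ 2 * (COB_g q a f Q s / s ^ 3 - COB_g q a f Q r / r ^ 3) := by
    unfold COB_phi
    ring
  rw [e]
  have hes := h1 s
  have her := h1 r
  have h8 : |(efs q a s - efs q a r) * (efs q a s + efs q a r) * (COB_g q a f Q s / s ^ 3)|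
      ≤ L * (s - r) * (2 * B) * C := by
    rw [abs_mul, abs_mul, abs_of_nonneg (add_nonneg hes.1.le her.1.le)]
    exact mul_le_mul (mul_le_mul h7 (by linarith [hes.2, her.2]) (by linarith [hes.1, her.1])
      (by positivity)) h6 (abs_nonneg _) (by positivity)
  have h9 : r * |efs q a r ^ 2 * (COB_g q a f Q s / s ^ 3 - COB_g q a f Q r / r ^ 3)|
      ≤ B ^ 2 * ((C' + 3 * C) * (s - r)) := by
    rw [abs_mul, abs_of_nonneg (sq_nonneg (efs q a r))]
    calc r * (efs q a r ^ 2 * |COB_g q a f Q s / s ^ 3 - COB_g q a f Q r / r ^ 3|)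
        = efs q a r ^ 2 * (r * |COB_g q a f Q s / s ^ 3 - COB_g q a f Q r / r ^ 3|) := by ring
      _ ≤ B ^ 2 * ((C' + 3 * C) * (s - r)) :=
          mul_le_mul (pow_le_pow_left₀ her.1.le her.2 2) h5 (by positivity) (by positivity)
  calc r * |(efs q a s - efs q a r) * (efs q a s + efs q a r) * (COB_g q a f Q s / s ^ 3)
        + efs q a r ^ 2 * (COB_g q a f Q s / s ^ 3 - COB_g q a f Q r / r ^ 3)|
      ≤ r * (|(efs q a s - efs q a r) * (efs q a s + efs q a r) * (COB_g q a f Q s / s ^ 3)|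
        + |efs q a r ^ 2 * (COB_g q a f Q s / s ^ 3 - COB_g q a f Q r / r ^ 3)|) :=
        mul_le_mul_of_nonneg_left (abs_add_le _ _) hr
    _ = r * |(efs q a s - efs q a r) * (efs q a s + efs q a r) * (COB_g q a f Q s / s ^ 3)|
        + r * |efs q a r ^ 2 * (COB_g q a f Q s / s ^ 3 - COB_g q a f Q r / r ^ 3)| := by ring
    _ ≤ 1 * (L * (s - r) * (2 * B) * C) + B ^ 2 * ((C' + 3 * C) * (s - r)) :=
        add_le_add (mul_le_mul (by linarith) h8 (abs_nonneg _) zero_le_one) h9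
    _ = _ := by ring

theorem COB_fs_lip (h : Reg W R₀ R a f Q θ q) : ∃ L, ∀ r s, |fs q a f r - fs q a f s| ≤ L * |r - s| := by
  obtain ⟨B, L, hB, hL, h1, h2⟩ := COB_efs h.q_pos h.q_le h.a_pos
  obtain ⟨L', hL0', hL'⟩ := h.sc.exists_L
  refine ⟨L' * B + L, fun r s => ?_⟩
  unfold fs
  set x := min r (bq q a)
  set y := min s (bq q a)
  have hxy : |x - y| ≤ |r - s| := abs_min_sub_min_le_max r (bq q a) s (bq q a) |>.trans (by simp)
  have e : f x * efs q a x - f y * efs q a y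
      = (f x - f y) * efs q a x + f y * (efs q a x - efs q a y) := by ring
  rw [e]
  refine (abs_add_le _ _).trans ?_
  rw [abs_mul, abs_mul, abs_of_pos (h1 x).1, abs_of_nonneg (h.sc.f_nonneg y)]
  have h3 : |f x - f y| * efs q a x ≤ (L' * |x - y|) * B :=
    mul_le_mul (hL' x y) (h1 x).2 (h1 x).1.le (by positivity)
  have h4 : f y * |efs q a x - efs q a y| ≤ 1 * (L * |x - y|) :=
    mul_le_mul (h.sc.f_le_one y) (h2 x y) (abs_nonneg _) zero_le_one
  have h5 : (L' * B + L) * |x - y| ≤ (L' * B + L) * |r - s| :=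
    mul_le_mul_of_nonneg_left hxy (by positivity)
  calc _ ≤ (L' * |x - y|) * B + 1 * (L * |x - y|) := add_le_add h3 h4
    _ = (L' * B + L) * |x - y| := by ring
    _ ≤ _ := h5

theorem COB_fs_bdd (h : Reg W R₀ R a f Q θ q) : ∃ B, 0 ≤ B ∧ ∀ r, |fs q a f r| ≤ B := by
  obtain ⟨B, L, hB, hL, h1, h2⟩ := COB_efs h.q_pos h.q_le h.a_pos
  refine ⟨B, hB, fun r => ?_⟩
  unfold fs
  rw [abs_mul, abs_of_nonneg (h.sc.f_nonneg _), abs_of_pos (h1 _).1]
  calc f (min r (bq q a)) * efs q a (min r (bq q a)) ≤ 1 * B :=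
        mul_le_mul (h.sc.f_le_one _) (h1 _).2 (h1 _).1.le zero_le_one
    _ = B := one_mul B

theorem Reg.fs_prof (h : Reg W R₀ R a f Q θ q) : Prof (bq q a) (fs q a f) (gs q a f Q) where
  b_lt := h.b_lt.trans (by norm_num)
  lip := COB_fs_lip h
  bdd := by
    obtain ⟨B, _, hB⟩ := COB_fs_bdd h
    exact ⟨B, hB⟩
  deriv := by
    filter_upwards [COB_ne R₀, COB_ne (bq q a)] with r h1 h2 hr0
    rcases lt_or_gt_of_ne h2 with hlt | hgt
    · have h3 := (h.sc.f_deriv r hr0 h1).fun_mul (COB_efs_deriv h.q_pos h.a_pos hr0)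
      have e : Q r / r ^ 2 * efs q a r
          + f r * (-(auq q a * qbf (tq q a) r / r ^ 2) * efs q a r) = r * gs q a f Q r := by
        rw [COB_gs_eq hlt]
        field_simp
        ring
      rw [e] at h3
      refine h3.congr_of_eventuallyEq ?_
      filter_upwards [gt_mem_nhds hlt] with s hs
      exact COB_fs_lt (le_of_lt hs)
    · rw [COB_gs_ge hgt.le, mul_zero]
      refine (hasDerivAt_const r (fs q a f (bq q a))).congr_of_eventuallyEq ?_
      filter_upwards [lt_mem_nhds hgt] with s hs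
      unfold fs
      rw [min_eq_right (le_of_lt hs), min_self]
  zero := fun r hr => COB_gs_ge hr
  const := fun r hr => by
    unfold fs
    rw [min_eq_right hr, min_self]

theorem Reg.gs_meas (h : Reg W R₀ R a f Q θ q) : Measurable (gs q a f Q) := by
  unfold gs
  refine Measurable.ite measurableSet_Iio ?_ measurable_const
  exact ((COB_efs_cont h.q_pos h.q_le h.a_pos).measurable.mul (h.sc.Q_meas.sub
    (((COB_qbf_cont (tq_pos h.q_pos h.a_pos)).measurable.const_mul _).mul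
      h.sc.f_cont.measurable))).div (measurable_id.pow_const 3)

theorem Reg.gs_bdd (h : Reg W R₀ R a f Q θ q) : ∃ C, ∀ r, |gs q a f Q r| ≤ C := by
  obtain ⟨B, L, hB, hL, h1, h2⟩ := COB_efs h.q_pos h.q_le h.a_pos
  obtain ⟨C, hC0, hC⟩ := h.sc.exists_C
  have ht := tq_pos h.q_pos h.a_pos
  have hA := COB_auq_nonneg h.q_pos h.q_le h.a_pos
  set T : ℝ := Real.sqrt (tq q a) ^ 3 with hT
  have hT0 : 0 < T := by
    have := Real.sqrt_pos.2 ht
    positivity
  refine ⟨B * (C + auq q a / T), fun r => ?_⟩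
  rcases lt_or_ge r (bq q a) with hr | hr
  · rw [COB_gs_eq hr]
    rcases eq_or_ne r 0 with h0 | h0
    · rw [h0]
      have : 0 ≤ B * (C + auq q a / T) := by positivity
      simpa using this
    · have hr3 : 0 < |r| ^ 3 := pow_pos (abs_pos.2 h0) 3
      rw [abs_div, abs_mul, abs_pow, abs_of_pos (h1 r).1, div_le_iff₀ hr3]
      have h3 : |Q r - auq q a * qbf (tq q a) r * f r| ≤ (C + auq q a / T) * |r| ^ 3 := by
        refine (abs_sub _ _).trans ?_
        rw [add_mul]
        refine add_le_add ?_ ?_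
        · rw [abs_of_nonneg (h.sc.Q_nonneg r)]
          rcases le_or_gt r 0 with h4 | h4
          · rw [h.sc.Q_zero' r h4]; positivity
          · rw [abs_of_pos h4]; exact hC r h4
        · rw [abs_mul, abs_mul, abs_of_nonneg hA, abs_of_nonneg (h.sc.f_nonneg r)]
          have h4 := (COB_qbf_abs ht r).1
          calc auq q a * |qbf (tq q a) r| * f r ≤ auq q a * |qbf (tq q a) r| * 1 :=
                mul_le_mul_of_nonneg_left (h.sc.f_le_one r) (by positivity)
            _ ≤ auq q a * (|r| ^ 3 / T) := by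
                rw [mul_one]; exact mul_le_mul_of_nonneg_left h4 hA
            _ = auq q a / T * |r| ^ 3 := by ring
      calc efs q a r * |Q r - auq q a * qbf (tq q a) r * f r|
          ≤ B * ((C + auq q a / T) * |r| ^ 3) := mul_le_mul (h1 r).2 h3 (abs_nonneg _) hB
        _ = B * (C + auq q a / T) * |r| ^ 3 := by ring
  · rw [COB_gs_ge hr, abs_zero]
    positivity

/-- boundedness of `ks` -/
theorem COB_ks_bdd (h : Reg W R₀ R a f Q θ q) : ∃ C, ∀ r, |ks q a f Q W r| ≤ C := by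
  obtain ⟨B, L, hB, hL, h1, h2⟩ := COB_efs h.q_pos h.q_le h.a_pos
  obtain ⟨C, hC0, hC⟩ := h.sc.exists_C
  obtain ⟨M, hM0, hM⟩ := h.sc.exists_M
  have ha := h.a_pos
  have ht := tq_pos h.q_pos ha
  have hA := COB_auq_nonneg h.q_pos h.q_le ha
  have hb1 : bq q a < 1 := h.b_lt.trans (by norm_num)
  set T : ℝ := Real.sqrt (tq q a) ^ 3 with hT
  have hT0 : 0 < T := by
    have := Real.sqrt_pos.2 ht
    positivity
  have hg0 := (COB_gam_le ht 0).1
  have hpi := Real.pi_pos
  set A := auq q a with hAdef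
  -- the four basic bounds for `r ≠ 0`, `r < 1`
  have hQ : ∀ r, r < 1 → Q r ≤ C * |r| ^ 3 ∧ Q r ≤ C * |r| ^ 2 := by
    intro r hr
    rcases le_or_gt r 0 with h4 | h4
    · rw [h.sc.Q_zero' r h4]; constructor <;> positivity
    · rw [abs_of_pos h4]
      refine ⟨hC r h4, (hC r h4).trans (mul_le_mul_of_nonneg_left ?_ hC0)⟩
      exact pow_le_pow_of_le_one h4.le hr.le (by norm_num)
  have hqq : ∀ r, |qbf (tq q a) r| ^ 2 ≤ (1 + 1 / T ^ 2) * |r| ^ 4 := by
    intro r
    obtain ⟨h3, h4⟩ := COB_qbf_abs ht r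
    rcases le_total 1 |r| with h5 | h5
    · have h6 : (1:ℝ) ≤ |r| ^ 4 := one_le_pow₀ h5
      have h7 : |qbf (tq q a) r| ^ 2 ≤ 1 := pow_le_one₀ (abs_nonneg _) h4
      have h8 : 0 ≤ 1 / T ^ 2 * |r| ^ 4 := by positivity
      rw [add_mul, one_mul]
      linarith
    · have h6 : |qbf (tq q a) r| ^ 2 ≤ (|r| ^ 3 / T) ^ 2 := pow_le_pow_left₀ (abs_nonneg _) h3 2
      have h7 : (|r| ^ 3 / T) ^ 2 = 1 / T ^ 2 * |r| ^ 6 := by
        field_simp
      have h8 : |r| ^ 6 ≤ |r| ^ 4 := pow_le_pow_of_le_one (abs_nonneg _) h5 (by norm_num)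
      have h9 : 1 / T ^ 2 * |r| ^ 6 ≤ 1 / T ^ 2 * |r| ^ 4 :=
        mul_le_mul_of_nonneg_left h8 (by positivity)
      have h10 : 0 ≤ |r| ^ 4 := by positivity
      rw [add_mul, one_mul]
      linarith
  have hqQ : ∀ r, r < 1 → |qbf (tq q a) r| * Q r ≤ (C / T) * |r| ^ 4 := by
    intro r hr
    rcases le_or_gt r 0 with h4 | h4
    · rw [h.sc.Q_zero' r h4, mul_zero]; positivity
    · have h5 := (COB_qbf_abs ht r).1
      rw [abs_of_pos h4] at h5 ⊢
      calc |qbf (tq q a) r| * Q r ≤ (r ^ 3 / T) * (C * r ^ 3) :=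
            mul_le_mul h5 (hC r h4) (h.sc.Q_nonneg r) (by positivity)
        _ = C / T * r ^ 6 := by ring
        _ ≤ C / T * r ^ 4 := mul_le_mul_of_nonneg_left
            (pow_le_pow_of_le_one h4.le hr.le (by norm_num)) (by positivity)
  have hQQ : ∀ r, r < 1 → Q r ^ 2 ≤ C ^ 2 * |r| ^ 4 := by
    intro r hr
    calc Q r ^ 2 ≤ (C * |r| ^ 2) ^ 2 := pow_le_pow_left₀ (h.sc.Q_nonneg r) (hQ r hr).2 2
      _ = C ^ 2 * |r| ^ 4 := by ring
  set G := gam (tq q a) 0 with hG
  refine ⟨B ^ 2 * ((2 * A * (C / T) + 2 * A ^ 2 * (1 + 1 / T ^ 2)) + 3 * (C + A / T)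
    + (C ^ 2 + M + 4 * Real.pi * A * G + 2 * A * (C / T))), fun r => ?_⟩
  rcases lt_or_ge r (bq q a) with hr | hr
  · have hr1 : r < 1 := hr.trans hb1
    have hf0 := h.sc.f_nonneg r
    have hf1 := h.sc.f_le_one r
    have hf2 : f r ^ 2 ≤ 1 := pow_le_one₀ hf0 hf1
    have hf20 : 0 ≤ f r ^ 2 := sq_nonneg _
    have hQ0 := h.sc.Q_nonneg r
    have hW0 := h.sc.W_nonneg r
    unfold ks
    rw [if_pos hr, abs_mul, abs_of_nonneg (sq_nonneg (efs q a r))]
    refine mul_le_mul (pow_le_pow_left₀ (h1 r).1.le (h1 r).2 2) ?_ (abs_nonneg _) (by positivity)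
    rcases eq_or_ne r 0 with h0 | h0
    · rw [h0]
      have : 0 ≤ (2 * A * (C / T) + 2 * A ^ 2 * (1 + 1 / T ^ 2)) + 3 * (C + A / T)
        + (C ^ 2 + M + 4 * Real.pi * A * G + 2 * A * (C / T)) := by positivity
      simpa using this
    · have hp : 0 < |r| := abs_pos.2 h0
      have hp4 : 0 < |r| ^ 4 := pow_pos hp 4
      have hp3 : 0 < |r| ^ 3 := pow_pos hp 3
      have t1 : |-(2 * A * qbf (tq q a) r / r) * (f r * Q r - A * qbf (tq q a) r * f r ^ 2) / r ^ 3|
          ≤ 2 * A * (C / T) + 2 * A ^ 2 * (1 + 1 / T ^ 2) := by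
        have e : -(2 * A * qbf (tq q a) r / r) * (f r * Q r - A * qbf (tq q a) r * f r ^ 2) / r ^ 3
            = (-(2 * A * f r * (qbf (tq q a) r * Q r)) + 2 * A ^ 2 * f r ^ 2 * qbf (tq q a) r ^ 2)
              / r ^ 4 := by
          field_simp
          ring
        rw [e, abs_div, abs_pow, div_le_iff₀ hp4]
        refine (abs_add_le _ _).trans ?_
        rw [abs_neg, abs_mul (2 * A * f r) (qbf (tq q a) r * Q r), abs_mul (qbf (tq q a) r) (Q r),
          abs_of_nonneg (by positivity : 0 ≤ 2 * A * f r),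
          abs_of_nonneg hQ0, abs_mul (2 * A ^ 2 * f r ^ 2) (qbf (tq q a) r ^ 2),
          abs_of_nonneg (by positivity : 0 ≤ 2 * A ^ 2 * f r ^ 2), abs_pow]
        have s1 : 2 * A * f r * (|qbf (tq q a) r| * Q r) ≤ 2 * A * 1 * (C / T * |r| ^ 4) :=
          mul_le_mul (mul_le_mul_of_nonneg_left hf1 (by positivity)) (hqQ r hr1) (by positivity)
            (by positivity)
        have s2 : 2 * A ^ 2 * f r ^ 2 * |qbf (tq q a) r| ^ 2
            ≤ 2 * A ^ 2 * 1 * ((1 + 1 / T ^ 2) * |r| ^ 4) :=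
          mul_le_mul (mul_le_mul_of_nonneg_left hf2 (by positivity)) (hqq r) (by positivity)
            (by positivity)
        calc _ ≤ 2 * A * 1 * (C / T * |r| ^ 4) + 2 * A ^ 2 * 1 * ((1 + 1 / T ^ 2) * |r| ^ 4) :=
              add_le_add s1 s2
          _ = _ := by ring
      have t2 : |3 * (f r * Q r - A * qbf (tq q a) r * f r ^ 2) / r ^ 3| ≤ 3 * (C + A / T) := by
        rw [abs_div, abs_mul 3, abs_pow, abs_of_pos (by norm_num : (0:ℝ) < 3), div_le_iff₀ hp3,
          mul_assoc 3 (C + A / T)]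
        refine mul_le_mul_of_nonneg_left ?_ (by norm_num : (0:ℝ) ≤ 3)
        refine (abs_sub _ _).trans ?_
        rw [add_mul, abs_of_nonneg (mul_nonneg hf0 hQ0), abs_mul, abs_mul, abs_of_nonneg hA,
          abs_of_nonneg hf20]
        have s1 : f r * Q r ≤ 1 * (C * |r| ^ 3) := mul_le_mul hf1 (hQ r hr1).1 hQ0 zero_le_one
        have s2 : A * |qbf (tq q a) r| * f r ^ 2 ≤ A * (|r| ^ 3 / T) * 1 :=
          mul_le_mul (mul_le_mul_of_nonneg_left (COB_qbf_abs ht r).1 hA) hf2 hf20 (by positivity)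
        calc _ ≤ 1 * (C * |r| ^ 3) + A * (|r| ^ 3 / T) * 1 := add_le_add s1 s2
          _ = _ := by ring
      have t3 : |(Q r ^ 2 / r ^ 2 + r ^ 2 * W r * f r ^ 2 - 4 * Real.pi * A * r ^ 2 * gam (tq q a) r * f r ^ 2
          - 2 * A * qbf (tq q a) r * f r * Q r / r ^ 2) / r ^ 2|
          ≤ C ^ 2 + M + 4 * Real.pi * A * G + 2 * A * (C / T) := by
        have e : (Q r ^ 2 / r ^ 2 + r ^ 2 * W r * f r ^ 2
            - 4 * Real.pi * A * r ^ 2 * gam (tq q a) r * f r ^ 2
            - 2 * A * qbf (tq q a) r * f r * Q r / r ^ 2) / r ^ 2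
            = Q r ^ 2 / r ^ 4 + W r * f r ^ 2 - 4 * Real.pi * A * gam (tq q a) r * f r ^ 2
              - 2 * A * f r * (qbf (tq q a) r * Q r) / r ^ 4 := by
          field_simp
        rw [e]
        have hgr := COB_gam_le ht r
        have s1 : |Q r ^ 2 / r ^ 4| ≤ C ^ 2 := by
          rw [abs_div, abs_pow r, abs_of_nonneg (sq_nonneg (Q r)), div_le_iff₀ hp4]
          exact hQQ r hr1
        have s2 : |W r * f r ^ 2| ≤ M := by
          rw [abs_of_nonneg (by positivity)]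
          calc W r * f r ^ 2 ≤ M * 1 := mul_le_mul (hM r) hf2 hf20 hM0
            _ = M := mul_one M
        have s3 : |4 * Real.pi * A * gam (tq q a) r * f r ^ 2| ≤ 4 * Real.pi * A * G := by
          rw [abs_of_nonneg (mul_nonneg (mul_nonneg (by positivity) hgr.1) hf20)]
          calc 4 * Real.pi * A * gam (tq q a) r * f r ^ 2 ≤ 4 * Real.pi * A * G * 1 :=
                mul_le_mul (mul_le_mul_of_nonneg_left hgr.2 (by positivity)) hf2 hf20 (by positivity)
            _ = _ := mul_one _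
        have s4 : |2 * A * f r * (qbf (tq q a) r * Q r) / r ^ 4| ≤ 2 * A * (C / T) := by
          rw [abs_div, abs_pow, abs_mul (2 * A * f r) (qbf (tq q a) r * Q r), abs_mul (qbf (tq q a) r) (Q r),
            abs_of_nonneg (by positivity : 0 ≤ 2 * A * f r), abs_of_nonneg hQ0, div_le_iff₀ hp4]
          calc 2 * A * f r * (|qbf (tq q a) r| * Q r) ≤ 2 * A * 1 * (C / T * |r| ^ 4) :=
                mul_le_mul (mul_le_mul_of_nonneg_left hf1 (by positivity)) (hqQ r hr1)
                  (by positivity) (by positivity)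
            _ = _ := by ring
        refine (abs_sub _ _).trans (add_le_add ((abs_sub _ _).trans (add_le_add
          ((abs_add_le _ _).trans (add_le_add s1 s2)) s3)) s4)
      exact (abs_add_le _ _).trans (add_le_add ((abs_sub _ _).trans (add_le_add t1 t2)) t3)
  · unfold ks
    rw [if_neg (not_lt.2 hr), abs_zero]
    positivity

theorem COB_ks_meas (h : Reg W R₀ R a f Q θ q) : Measurable (ks q a f Q W) := by
  have me := (COB_efs_cont h.q_pos h.q_le h.a_pos).measurable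
  have mq := (COB_qbf_cont (tq_pos h.q_pos h.a_pos)).measurable
  have mg := (COB_gam_cont (tq q a)).measurable
  have mf := h.sc.f_cont.measurable
  have mQ := h.sc.Q_meas
  have mW := h.sc.W_meas
  unfold ks
  refine Measurable.ite measurableSet_Iio ?_ measurable_const
  fun_prop

theorem COB_deriv (h : Reg W R₀ R a f Q θ q) : ∀ᵐ r : ℝ, 0 < r →
    HasDerivAt (fun r => fs q a f r * gs q a f Q r) (ks q a f Q W r / r) r := by
  filter_upwards [COB_ne R₀, COB_ne (bq q a), h.sc.Q_deriv] with r h1 h2 h3 hr0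
  rcases lt_or_gt_of_ne h2 with hlt | hgt
  · rcases lt_or_gt_of_ne h1 with hlt0 | hgt0
    · -- inside the core
      have hR0 : 0 < R₀ := hr0.trans hlt0
      have e : ks q a f Q W r / r = 0 := by
        unfold ks
        rw [if_pos hlt, h.sc.f_core r hR0 hlt0.le, h.sc.Q_zero r hlt0]
        simp
      rw [e]
      refine (hasDerivAt_const r (0:ℝ)).congr_of_eventuallyEq ?_
      filter_upwards [gt_mem_nhds hlt0, gt_mem_nhds hlt] with s hs hs'
      rw [COB_fs_lt (le_of_lt hs'), h.sc.f_core s hR0 (le_of_lt hs)]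
      ring
    · have he := COB_efs_deriv (q := q) (a := a) h.q_pos h.a_pos hr0
      have hf := h.sc.f_deriv r hr0 h1
      have hQ := h3 hgt0
      have hqb := qbf_hasDerivAt (tq_pos h.q_pos h.a_pos) r
      have hg := (hf.fun_mul hQ).fun_sub ((hqb.const_mul (auq q a)).fun_mul (hf.fun_pow 2))
      have hphi := (he.fun_pow 2).fun_mul (hg.fun_div (hasDerivAt_pow 3 r) (pow_pos hr0 3).ne')
      have hev : (fun r => fs q a f r * gs q a f Q r) =ᶠ[𝓝 r] fun x =>
          efs q a x ^ 2 * ((f x * Q x - auq q a * qbf (tq q a) x * f x ^ 2) / x ^ 3) := by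
        filter_upwards [gt_mem_nhds hlt] with s hs
        rw [COB_prod_eq hs]
        rfl
      refine HasDerivAt.congr_of_eventuallyEq ?_ hev
      refine hphi.congr_deriv ?_
      unfold ks
      rw [if_pos hlt]
      have hr0' := hr0.ne'
      push_cast
      field_simp
      ring
  · have e : ks q a f Q W r / r = 0 := by
      unfold ks
      rw [if_neg (not_lt.2 hgt.le), zero_div]
    rw [e]
    refine (hasDerivAt_const r (0:ℝ)).congr_of_eventuallyEq ?_
    filter_upwards [lt_mem_nhds hgt] with s hs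
    rw [COB_gs_ge (le_of_lt hs), mul_zero]

theorem Reg.fsgs_fprof (h : Reg W R₀ R a f Q θ q) :
    FProf (bq q a) (fun r => fs q a f r * gs q a f Q r) (ks q a f Q W) where
  b_lt := h.b_lt.trans (by norm_num)
  meas := h.fs_prof.continuous.measurable.mul h.gs_meas
  meas' := COB_ks_meas h
  wlip := by
    obtain ⟨M, hM0, hM⟩ := COB_phi_wlip h
    have hb1 : bq q a < 1 := h.b_lt.trans (by norm_num)
    refine ⟨M, fun r s hr hrs => ?_⟩
    have hsr : 0 ≤ s - r := by linarith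
    rcases lt_or_ge s (bq q a) with h1 | h1
    · rw [COB_prod_eq h1, COB_prod_eq (hrs.trans_lt h1)]
      exact hM r s hr hrs (by linarith)
    · rw [COB_gs_ge h1, mul_zero]
      rcases lt_or_ge r (bq q a) with h2 | h2
      · rw [COB_prod_eq h2]
        have h3 := hM r (bq q a) hr h2.le hb1.le
        rw [COB_phi_b h] at h3
        exact h3.trans (mul_le_mul_of_nonneg_left (by linarith) hM0)
      · rw [COB_gs_ge h2, mul_zero, sub_self, abs_zero, mul_zero]
        positivity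
  bdd := by
    obtain ⟨B, hB0, hB⟩ := COB_fs_bdd h
    obtain ⟨C, hC⟩ := h.gs_bdd
    refine ⟨B * C, fun r => ?_⟩
    rw [abs_mul]
    exact mul_le_mul (hB r) (hC r) (abs_nonneg _) hB0
  bdd' := COB_ks_bdd h
  deriv := COB_deriv h
  zero := fun r hr => by
    rw [COB_gs_ge hr, mul_zero]
  zero' := fun r hr => by
    unfold ks
    rw [if_neg (not_lt.2 hr)]

end

end Pool.Agent.Lib.MP_4952d6_mp.M

end

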