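import Pool.Agent.Lib.MP_4952d6_mp.Pk.G18
import Pool.Agent.Lib.MP_4952d6_mp.Pk.G26
import Pool.Agent.Lib.MP_4952d6_mp.Pk.G29
import Pool.Agent.Lib.MP_4952d6_mp.Pk.G34
import Pool.Agent.Lib.MP_4952d6_mp.Pm.M02
import Pool.Agent.Lib.MP_4952d6_mp.Pm.M03

/-! Merged modules (to save import time): M.Base, M.PCOC, M.PDOK, M.PU7A. -/

/-! ### M.Base -/

section

/-!
# Two sided mesoscopic theorem: shared definitions and the statements at the meeting points

Notes: `notes_MP_4952d6_mp_meso.md`. Unit torus, `N` particles, scattering length `a`, `Y = q ^ 200 = u ^ 20`, `N a³ = Y²`,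
`l = a / Y` (`1 / l = K` is the side of the box in units of the healing length), `X = N² a Y = l⁻⁵`.
-/

set_option autoImplicit false
set_option linter.unusedSectionVars false
set_option linter.unusedVariables false
open MeasureTheory Function Filter Topology Set
open scoped ENNReal

namespace Pool.Agent.Lib.MP_4952d6_mp

namespace M

/-- Local moment bounds at the time scale `t`, in terms of the number `D` of excited particles. -/
structure LocL {ι : Type*} [Fintype ι] [DecidableEq ι] (C u t : ℝ) (ψ : (ι → T3) → ℂ) : Prop where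
  m0 : ∀ s, t / 8 ≤ s → s ≤ 8 * t →
    ∑ m, ∫ x, ‖ψ x‖ ^ 2 * crowd s m x ∂(piN ι) ≤ C * (Fintype.card ι : ℝ) ^ 2
  m1 : ∀ s, t / 8 ≤ s → s ≤ 8 * t →
    ∑ m, ∫ x, ‖ψ x - avj m ψ x‖ ^ 2 * (crowd s m x + Fintype.card ι) ^ 2 ∂(piN ι)
      ≤ C * (Fintype.card ι : ℝ) ^ 2
        * ((∑ i, nuQ (fc ψ) i) / u + u ^ 19 * (Fintype.card ι : ℝ))
  m2 : ∀ s, t / 8 ≤ s → s ≤ 8 * t →
    ∑ m, ∫ x, ‖ψ x - htj (t / 2) m ψ x‖ ^ 2 * (crowd s m x + Fintype.card ι) ^ 2 ∂(piN ι)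
      ≤ C * (Fintype.card ι : ℝ) ^ 2
        * ((∑ i, nuQ (fc ψ) i) / u + u ^ 19 * (Fintype.card ι : ℝ))

/-- The regime of the trial function: scattering data of range `R ≤ θ a`, `l = a / q ^ 200 ≤ 1 / 8`,
mass `κ ≤ l ^ 2`, and `q` small compared with every needed power of `κ`. -/
structure RegM (W : ℝ → ℝ) (R₀ R a : ℝ) (f Q : ℝ → ℝ) (θ q κ c₀ : ℝ) (M : ℕ) : Prop where
  sc : Scat W R₀ R a f Q
  Rle : R ≤ θ * a
  hθ : 1 ≤ θ
  hθq : θ * q ≤ 1
  q_pos : 0 < q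
  q_le : q ≤ 1 / 100
  a8 : a ≤ q ^ 200 / 8
  κ_pos : 0 < κ
  κl : κ ≤ lq q a ^ 2
  qκ : q ≤ c₀ * κ ^ M

/-- The depletion of the Bogoliubov theory in the box, `l = 1 / K`:
`s = l³ (1/2) ∑_{p ≠ 0} [(k² + G)/√(k⁴ + 2 G k²) - 1]`, `G = 8 π / l²`. -/
noncomputable def sl (l : ℝ) : ℝ :=
  l ^ 3 * (1 / 2 * ∑' p : Fin 3 → ℤ, if p = 0 then 0 else
    ((ksq p + 8 * Real.pi / l ^ 2) / Real.sqrt (ksq p ^ 2 + 16 * Real.pi / l ^ 2 * ksq p) - 1))

/-- **(ML)** lower bound. -/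
def MLStatement : Prop :=
  ∀ θ CM : ℝ, ∃ C u₀ : ℝ, 0 ≤ C ∧ 0 < u₀ ∧ ∀ u : ℝ, 0 < u → u < u₀ →
    ∀ (N : ℕ) (W f Q : ℝ → ℝ) (R₀ R a : ℝ), Scat W R₀ R a f Q →
      (N : ℝ) * a ^ 3 = u ^ 40 → a ≤ u ^ 20 / 8 → R ≤ θ * a →
      ∀ 𝒱 : T3 → ℝ≥0∞, (∀ᵐ y ∂lam3, ENNReal.ofReal (2 * W (rr y)) ≤ 𝒱 y) →
      ∀ ψ : (Fin N → T3) → ℂ, tAdm R₀ 𝒱 ψ → LocL CM u ((a / u ^ 16) ^ 2) ψ →
      ∀ lam : ℝ, -(2 * Real.pi ^ 2) ≤ lam → lam ≤ N * a →
      ENNReal.ofReal (4 * Real.pi * (N * (N - 1)) * a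
        + 4 * Real.sqrt Real.pi / u ^ 4 * (N ^ 2 * a * u ^ 20)
        + 1 / 2 * LB.LS ((a / u ^ 16) ^ 2) lam (8 * Real.pi * (N * a))
        - C * u * (N ^ 2 * a * u ^ 20 + N * a * ∑ i, nuQ (fc ψ) i)
        - lam * ∑ i, nuQ (fc ψ) i) ≤ tE 𝒱 ψ

/-- **(MU)** upper bound. -/
def MUStatement : Prop :=
  ∃ M : ℕ, ∀ θ : ℝ, ∃ c₀ : ℝ, 0 < c₀ ∧ ∀ (κ q : ℝ), 0 < κ → 0 < q → q ≤ c₀ * κ ^ M →
    ∀ (N : ℕ) (W f Q : ℝ → ℝ) (R₀ R a : ℝ), Scat W R₀ R a f Q →
      (N : ℝ) * a ^ 3 = q ^ 400 → a ≤ q ^ 200 / 8 → κ ≤ lq q a ^ 2 → R ≤ θ * a →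
      ∀ 𝒱 𝒱₂ : T3 → ℝ≥0∞, Measurable 𝒱₂ →
      (∀ᵐ y ∂lam3, 𝒱 y ≤ ENNReal.ofReal (2 * W (rr y)) + 𝒱₂ y) →
      ∀ ζ : ℝ, 0 ≤ ζ → ∫⁻ y, 𝒱₂ y ∂lam3 ≤ ENNReal.ofReal ζ →
      ∃ ψ : (Fin N → T3) → ℂ, tAdm R₀ 𝒱 ψ ∧
        tE 𝒱 ψ ≤ ENNReal.ofReal (4 * Real.pi * (N * (N - 1)) * a
          + N ^ 2 * a * q ^ 200 * (1 / 4 * (Isq q - lq q a ^ 3
              * tsum0 (fun p => hs κ q (lq q a * Real.sqrt (ksq p)))) + q)
          + N ^ 2 * ζ)

/-- **(MV)** comparison of the two lattice sums. -/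
def MVStatement : Prop :=
  ∃ (M : ℕ) (C c₀ : ℝ), 0 ≤ C ∧ 0 < c₀ ∧ ∀ (κ q l : ℝ), 0 < κ → 0 < q → q ≤ c₀ * κ ^ M →
    0 < l → l ≤ 1 / 8 → κ ≤ l ^ 2 →
    1 / 4 * (Isq q - l ^ 3 * tsum0 (fun p => hs κ q (l * Real.sqrt (ksq p))))
      ≤ 4 * Real.sqrt Real.pi / q ^ 40
        + 1 / 2 * l ^ 5 * LB.LS (l ^ 2 * q ^ 80) 0 (8 * Real.pi / l ^ 2)
        + C * (κ ^ 3 + q)

/-- **(MX)** the depletion of a ground state on the torus. -/
def MXStatement : Prop :=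
  ∃ M : ℕ, ∀ θ CM : ℝ, ∃ C c₀ : ℝ, 0 ≤ C ∧ 0 < c₀ ∧ ∀ (κ q : ℝ), 0 < κ → 0 < q →
    q ≤ c₀ * κ ^ M →
    ∀ (N : ℕ) (W f Q : ℝ → ℝ) (R₀ R a : ℝ), Scat W R₀ R a f Q →
      (N : ℝ) * a ^ 3 = q ^ 400 → a ≤ q ^ 200 / 8 → κ ≤ lq q a ^ 2 → R ≤ θ * a →
      ∀ 𝒱 𝒱₂ : T3 → ℝ≥0∞, Measurable 𝒱₂ →
      (∀ᵐ y ∂lam3, ENNReal.ofReal (2 * W (rr y)) ≤ 𝒱 y) →
      (∀ᵐ y ∂lam3, 𝒱 y ≤ ENNReal.ofReal (2 * W (rr y)) + 𝒱₂ y) →
      ∫⁻ y, 𝒱₂ y ∂lam3 ≤ ENNReal.ofReal (a * q ^ 201) →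
      ∀ ψ : (Fin N → T3) → ℂ, tAdm R₀ 𝒱 ψ →
      (∀ φ : (Fin N → T3) → ℂ, tAdm R₀ 𝒱 φ → tE 𝒱 ψ ≤ tE 𝒱 φ) →
      LocL CM (q ^ 10) ((a / q ^ 160) ^ 2) ψ →
      |lq q a ^ 3 * (∑ i, nuQ (fc ψ) i) - sl (lq q a)| ≤ C * (Real.sqrt κ + q / κ ^ 3)

/-- **(MM)** moment bounds for ground states, for a fixed physical potential and an arbitrary
length `A`, for every `N` with `l = A / (Y side) ≤ 1 / 8`. -/
def MMStatement : Prop :=
  ∀ (m R₀ R : ℝ) (v : (Fin 3 → ℝ) → ℝ), 0 < m → 0 ≤ R₀ → R₀ < R → Integrable v →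
    (∀ x, 0 ≤ v x) → (∀ x y : Fin 3 → ℝ, ∑ α, x α ^ 2 = ∑ α, y α ^ 2 → v x = v y) →
    (∀ x : Fin 3 → ℝ, R ^ 2 ≤ ∑ α, x α ^ 2 → v x = 0) → (0 < R₀ ∨ 0 < ∫ x, v x) →
    ∀ A : ℝ, 0 < A → ∃ C u0 : ℝ, 0 < C ∧ 0 < u0 ∧ ∀ ρ u : ℝ, 0 < ρ → 0 < u → u < u0 →
      u ^ 20 = Real.sqrt (ρ * A ^ 3) →
      ∀ N : ℕ, 1 ≤ N → 8 * (A / side ρ N) ≤ u ^ 20 → ∀ ψ : (Fin N → T3) → ℂ,
        tAdm (R₀ / side ρ N) (Vp m (side ρ N) v) ψ →
        (∀ φ : (Fin N → T3) → ℂ, tAdm (R₀ / side ρ N) (Vp m (side ρ N) v) φ →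
          tE (Vp m (side ρ N) v) ψ ≤ tE (Vp m (side ρ N) v) φ) →
        ∀ t : ℝ, (A / side ρ N / u ^ 16) ^ 2 / 2 ≤ t →
          t ≤ 2 * (A / side ρ N / u ^ 16) ^ 2 → LocL C u t ψ

/-- **Final theorem.** -/
def MesoStatement : Prop :=
  ∃ κ₀ : ℝ, 0 < κ₀ ∧ ∀ (m R₀ R : ℝ) (v : (Fin 3 → ℝ) → ℝ), 0 < m → 0 ≤ R₀ → R₀ < R →
    Integrable v → (∀ x, 0 ≤ v x) →
    (∀ x y : Fin 3 → ℝ, ∑ α, x α ^ 2 = ∑ α, y α ^ 2 → v x = v y) →
    (∀ x : Fin 3 → ℝ, R ^ 2 ≤ ∑ α, x α ^ 2 → v x = 0) → (0 < R₀ ∨ 0 < ∫ x, v x) →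
    ∀ ε : ℝ, 0 < ε → ∃ ρ₀ : ℝ, 0 < ρ₀ ∧ ∀ ρ : ℝ, 0 < ρ → ρ < ρ₀ → ∀ N : ℕ,
      10 ≤ side ρ N * Real.sqrt (ρ * scatLen m R₀ v) →
      side ρ N * Real.sqrt (ρ * scatLen m R₀ v) ≤ (ρ * scatLen m R₀ v ^ 3) ^ (-κ₀) →
      ∀ ψ : (Fin N → Fin 3 → ℝ) → ℂ, Admissible m R₀ v N (side ρ N) ψ →
        (∀ φ : (Fin N → Fin 3 → ℝ) → ℂ, Admissible m R₀ v N (side ρ N) φ →
          energy m v N (side ρ N) ψ ≤ energy m v N (side ρ N) φ) →
        |(1 - condFraction N (side ρ N) ψ) / Real.sqrt (ρ * scatLen m R₀ v ^ 3)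
          - sl (1 / (side ρ N * Real.sqrt (ρ * scatLen m R₀ v)))| ≤ ε

end M

end Pool.Agent.Lib.MP_4952d6_mp

end

/-! ### M.PCOC -/

section

/-!
# PCOC: the integral of the curvature bound

Copy of `U/COC` for the regime `a ≤ q ^ 200 / 8` (`M.Reg`).
-/

set_option autoImplicit false
set_option linter.unusedSectionVars false
set_option linter.unusedVariables false
open MeasureTheory Function Filter Topology Set
open scoped ENNReal

namespace Pool.Agent.Lib.MP_4952d6_mp.M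


section
variable {W f Q : ℝ → ℝ} {R₀ R a θ q : ℝ}

theorem Reg.kcr_bm (h : Reg W R₀ R a f Q θ q) : BM (fun x : T3 => kcr q a f Q W (rr x)) := by
  have h1 : BM (fun x : T3 => fs q a f (rr x)) :=
    JData.rr_bm h.fs_prof.continuous.measurable h.fs_prof.bdd
  have h2 : BM (fun x : T3 => gs q a f Q (rr x)) := JData.rr_bm h.gs_meas h.gs_bdd
  have h3 : BM (fun x : T3 => ks q a f Q W (rr x)) :=
    JData.rr_bm h.fsgs_fprof.meas' h.fsgs_fprof.bdd'
  exact ((((h2.pow 2).const_mul 4).mul (JData.rr_bm'.pow 2)).add (h3.abs.const_mul 2)).add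
    ((h1.mul h2).abs.const_mul 2)

theorem Reg.kcr_nonneg (h : Reg W R₀ R a f Q θ q) (r : ℝ) : 0 ≤ kcr q a f Q W r := by
  unfold kcr
  positivity

end

section
variable {W f Q : ℝ → ℝ} {R₀ R a θ q : ℝ}

theorem COC_pt (h : Reg W R₀ R a f Q θ q) {r : ℝ} (hr : 0 < r) (hrb : r < bq q a) :
    r ^ 3 * kcr q a f Q W r ≤ 24 * r * (Q r ^ 2 / r ^ 2 + r ^ 2 * W r * f r ^ 2)
      + 160 * a ^ 2 / (a / q ^ 79) ^ 3 * r ^ 2 + 64 * a + 16 * a / (a / q ^ 79) ^ 3 * r ^ 3 := by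
  have ha := h.a_pos
  have hq := h.q_pos
  have hq1 := h.q_le
  have hs : 0 < a / q ^ 79 := by positivity
  have ht : 0 < tq q a := tq_pos hq ha
  have he := efs_bounds hq hq1 ha hr.le hrb.le
  have hu0 : 0 ≤ auq q a := by
    have := one_le_alq hq hq1
    unfold auq; positivity
  have hu1 : auq q a ≤ 2 * a := by
    have := alq_le_two hq hq1
    unfold auq; nlinarith only [this, ha]
  have hq2 : qbf (tq q a) r ≤ r ^ 3 / (a / q ^ 79) ^ 3 := by
    have := qbf_le_cube ht hr.le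
    rwa [sqrt_tq hq ha] at this
  have hG : 4 * Real.pi * gam (tq q a) r ≤ 1 / (a / q ^ 79) ^ 3 := COC_gam hs
  have key := COC_alg (e := efs q a r) (F := f r) (QQ := Q r) (u := auq q a)
    (qb := qbf (tq q a) r) (G := gam (tq q a) r) (w := W r) (r := r) (a := a) (s := a / q ^ 79)
    he.1 he.2 (h.sc.f_nonneg r) (h.sc.f_le_one r) (h.sc.Q_nonneg r) (h.sc.Q_le r) hu0 hu1
    (qbf_nonneg hr.le) (qbf_le_one ht hr.le) hq2 (gam_nonneg _ _) hG (h.sc.W_nonneg r) hr hs ha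
  refine le_trans (le_of_eq ?_) key
  unfold kcr gs ks fs
  rw [if_pos hrb, if_pos hrb, min_eq_left hrb.le]

theorem COC_zero (h : Reg W R₀ R a f Q θ q) {r : ℝ} (hr : 0 < r) (hr0 : r < R₀) :
    kcr q a f Q W r = 0 := by
  have hf : f r = 0 := h.sc.f_core r (hr.trans hr0) hr0.le
  have hQ : Q r = 0 := h.sc.Q_zero r hr0
  have h1 : gs q a f Q r = 0 := by
    unfold gs; rw [hf, hQ]; simp
  have h2 : ks q a f Q W r = 0 := by
    unfold ks; rw [hf, hQ]; simp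
  unfold kcr
  rw [h1, h2]; simp

end

theorem kcr_int : ∃ C : ℝ, 0 ≤ C ∧ ∀ (W f Q : ℝ → ℝ) (R₀ R a θ q : ℝ), Reg W R₀ R a f Q θ q →
    ∫ x, kcr q a f Q W (rr x) * rr x ∂lam3 ≤ C * a ^ 2 * q ^ 110 / q ^ 200 := by
  refine ⟨sig * 146, by have := sig_pos; positivity, ?_⟩
  intro W f Q R₀ R a θ q h
  have ha := h.a_pos
  have hq := h.q_pos
  have hq1 := h.q_le
  have hb0 : 0 < bq q a := bq_pos hq ha
  have hb4 := h.b_lt
  have hRb : R ≤ bq q a := by
    have h1 := h.R_le_b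
    have h2 := h.sc.R_pos
    linarith only [h1, h2]
  have hR0b : R₀ ≤ bq q a := h.sc.R₀_le.trans hRb
  have hs : 0 < a / q ^ 79 := by positivity
  have h5 := rad_le (b := bq q a) (s := R₀) (φ := fun r => kcr q a f Q W r * r)
    (B := fun r => 24 * bq q a * (Q r ^ 2 / r ^ 2 + r ^ 2 * W r * f r ^ 2)
      + (160 * a ^ 2 / (a / q ^ 79) ^ 3 * r ^ 2 + 64 * a + 16 * a / (a / q ^ 79) ^ 3 * r ^ 3))
    h.sc.R₀_nonneg hR0b (by linarith only [hb4])
    (fun r hr => by rw [COC_out hr, zero_mul])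
    (fun r hr hr0 => by rw [COC_zero h hr hr0, zero_mul])
    (fun r hr => mul_nonneg (h.kcr_nonneg r) hr.le)
    (fun r hr hrb => by
      have hr0 : 0 < r := h.sc.R₀_nonneg.trans_lt hr
      have h6 := COC_pt h hr0 hrb
      have hE : 0 ≤ Q r ^ 2 / r ^ 2 + r ^ 2 * W r * f r ^ 2 := by
        have := h.sc.W_nonneg r
        positivity
      have h7 : 24 * r * (Q r ^ 2 / r ^ 2 + r ^ 2 * W r * f r ^ 2)
          ≤ 24 * bq q a * (Q r ^ 2 / r ^ 2 + r ^ 2 * W r * f r ^ 2) :=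
        mul_le_mul_of_nonneg_right (by linarith only [hrb]) hE
      have e1 : r ^ 2 * (kcr q a f Q W r * r) = r ^ 3 * kcr q a f Q W r := by ring
      rw [e1]
      linarith only [h6, h7])
    (((h.sc.energy_int _).const_mul _).add (Continuous.intervalIntegrable (by fun_prop) _ _))
  refine h5.trans ?_
  rw [intervalIntegral.integral_add ((h.sc.energy_int _).const_mul _)
    (Continuous.intervalIntegrable (by fun_prop) _ _), intervalIntegral.integral_const_mul,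
    h.sc.energy hRb]
  have hsig := sig_pos
  have hR0 := h.sc.R₀_nonneg
  -- elementary integral
  have h8 : ∫ r in R₀..bq q a, (160 * a ^ 2 / (a / q ^ 79) ^ 3 * r ^ 2 + 64 * a
      + 16 * a / (a / q ^ 79) ^ 3 * r ^ 3)
      ≤ ∫ r in (0:ℝ)..bq q a, (160 * a ^ 2 / (a / q ^ 79) ^ 3 * r ^ 2 + 64 * a
      + 16 * a / (a / q ^ 79) ^ 3 * r ^ 3) := by
    rw [← intervalIntegral.integral_add_adjacent_intervals (a := 0) (b := R₀) (c := bq q a)
      (Continuous.intervalIntegrable (by fun_prop) _ _)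
      (Continuous.intervalIntegrable (by fun_prop) _ _)]
    have : 0 ≤ ∫ r in (0:ℝ)..R₀, (160 * a ^ 2 / (a / q ^ 79) ^ 3 * r ^ 2 + 64 * a
      + 16 * a / (a / q ^ 79) ^ 3 * r ^ 3) := by
      refine intervalIntegral.integral_nonneg hR0 fun t ht => ?_
      have := ht.1
      positivity
    linarith only [this]
  have h9 : ∫ r in (0:ℝ)..bq q a, (160 * a ^ 2 / (a / q ^ 79) ^ 3 * r ^ 2 + 64 * a
      + 16 * a / (a / q ^ 79) ^ 3 * r ^ 3)
      = 160 * a ^ 2 / (a / q ^ 79) ^ 3 * (bq q a ^ 3 / 3) + 64 * a * bq q a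
        + 16 * a / (a / q ^ 79) ^ 3 * (bq q a ^ 4 / 4) := by
    rw [intervalIntegral.integral_add (Continuous.intervalIntegrable (by fun_prop) _ _)
      (Continuous.intervalIntegrable (by fun_prop) _ _),
      intervalIntegral.integral_add (Continuous.intervalIntegrable (by fun_prop) _ _)
      (Continuous.intervalIntegrable (by fun_prop) _ _),
      intervalIntegral.integral_const_mul (16 * a / (a / q ^ 79) ^ 3),
      intervalIntegral.integral_const_mul (160 * a ^ 2 / (a / q ^ 79) ^ 3),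
      integral_pow, integral_pow, intervalIntegral.integral_const, smul_eq_mul]
    push_cast
    ring
  have h10 : a * (1 - a / bq q a) ≤ a := by
    have : 0 ≤ a / bq q a := by positivity
    nlinarith only [this, ha]
  have h11 : 24 * bq q a * (a * (1 - a / bq q a)) ≤ 24 * bq q a * a :=
    mul_le_mul_of_nonneg_left h10 (by positivity)
  have e5 : 24 * bq q a * a + (160 * a ^ 2 / (a / q ^ 79) ^ 3 * (bq q a ^ 3 / 3) + 64 * a * bq q a
        + 16 * a / (a / q ^ 79) ^ 3 * (bq q a ^ 4 / 4))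
      = a ^ 2 * (88 * (q ^ 3 / q ^ 83) + 160 / 3 * (q ^ 80 / q ^ 83) + 4 * (1 / q ^ 83)) := by
    unfold bq
    field_simp
    ring
  have hq01 : q ≤ 1 := by linarith only [hq1]
  have h12 : 88 * (q ^ 3 / q ^ 83) + 160 / 3 * (q ^ 80 / q ^ 83) + 4 * (1 / q ^ 83)
      ≤ 146 * (1 / q ^ 83) := by
    have c1 : q ^ 3 / q ^ 83 ≤ 1 / q ^ 83 :=
      div_le_div_of_nonneg_right (pow_le_one₀ hq.le hq01) (by positivity)
    have c2 : q ^ 80 / q ^ 83 ≤ 1 / q ^ 83 :=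
      div_le_div_of_nonneg_right (pow_le_one₀ hq.le hq01) (by positivity)
    have c3 : 0 < 1 / q ^ 83 := by positivity
    linarith only [c1, c2, c3]
  have h13 : 1 / q ^ 83 ≤ q ^ 110 / q ^ 200 := by
    rw [div_le_div_iff₀ (by positivity) (by positivity)]
    have e6 : q ^ 200 = q ^ 7 * (q ^ 110 * q ^ 83) := by ring
    rw [one_mul, e6]
    exact mul_le_of_le_one_left (by positivity) (pow_le_one₀ hq.le hq01)
  calc sig * (24 * bq q a * (a * (1 - a / bq q a)) + ∫ r in R₀..bq q a,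
        (160 * a ^ 2 / (a / q ^ 79) ^ 3 * r ^ 2 + 64 * a + 16 * a / (a / q ^ 79) ^ 3 * r ^ 3))
      ≤ sig * (a ^ 2 * (146 * (q ^ 110 / q ^ 200))) := by
        refine mul_le_mul_of_nonneg_left ?_ hsig.le
        have h14 : a ^ 2 * (88 * (q ^ 3 / q ^ 83) + 160 / 3 * (q ^ 80 / q ^ 83) + 4 * (1 / q ^ 83))
            ≤ a ^ 2 * (146 * (q ^ 110 / q ^ 200)) := by
          refine mul_le_mul_of_nonneg_left ?_ (sq_nonneg a)
          linarith only [h12, h13]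
        rw [← e5] at h14
        rw [h9] at h8
        linarith only [h8, h11, h14]
    _ = _ := by ring

end Pool.Agent.Lib.MP_4952d6_mp.M

end

/-! ### M.PDOK -/

section

/-!
# PDOK: qualitative properties of the data

Copy of `U/DOK` for the regime `a ≤ q ^ 200 / 8` (`M.Reg`).
-/

set_option autoImplicit false
set_option linter.unusedSectionVars false
set_option linter.unusedVariables false
open MeasureTheory Function Filter Topology Set
open scoped ENNReal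

namespace Pool.Agent.Lib.MP_4952d6_mp.M


theorem DPot_ok {κ : ℝ} (hκ : 0 < κ) {W f Q : ℝ → ℝ} {R₀ R a θ q : ℝ}
    (h : Reg W R₀ R a f Q θ q) : (DPot κ q a f Q W).Ok := by
  have ha := h.a_pos
  have hom := omu_ok hκ h.q_pos h.q_le ha
  have hp := h.fs_prof
  have hF := h.fsgs_fprof
  have hks : BM (fun x : T3 => ks q a f Q W (rr x)) := JData.rr_bm hF.meas' hF.bdd'
  have hfg : BM (fun x : T3 => fs q a f (rr x) * gs q a f Q (rr x)) := JData.rr_bm hF.meas hF.bdd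
  have hfar : ∀ x : T3, bq q a ≤ rr x → fs q a f (rr x) * gs q a f Q (rr x) = 0 := fun x hx => hF.zero _ hx
  have hfar' : ∀ x : T3, bq q a ≤ rr x → ks q a f Q W (rr x) = 0 := fun x hx => hF.zero' _ hx
  refine
    { Fc_nonneg := fun x => sq_nonneg _
      Fc_le := fun x => pow_le_one₀ (h.fs_nonneg _) (h.fs_le_one (rr_nonneg x))
      Fc_even := fun x => ?_
      Fc_WD := fun α => ?_
      dFc_WD := fun α β => ?_
      dFc_odd := fun α x => ?_
      ddFc_even := fun α β x => ?_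
      ddFc_bm := fun α β => ?_
      Kc_bm := h.kcr_bm
      Kc_nonneg := fun x => h.kcr_nonneg _
      Kc_dd := fun α β x => ?_
      Kc_d := fun α x => ?_
      ul_nonneg := fun x => mix0_nonneg hom x
      ul_even := fun x => mix0_neg _ _ x
      ul_WD := fun α => mix0_WD hom α
      dul_WD := fun α β => mix1_WD hom α β
      dul_odd := fun α x => mix1_neg _ _ α x
      ddul_even := fun α β x => mix2_neg _ _ α β x
      ddul_bm := fun α β => mix2_bm hom α β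
      uh_nonneg := fun p => mixh_nonneg hom p
      uh_even := fun p => mixh_neg _ _ p
      uh_summable := mixh_summable hom
      ul_hasSum := fun x => mix0_hasSum hom x }
  · show fs q a f (rr (-x)) ^ 2 = fs q a f (rr x) ^ 2
    rw [rr_neg]
  · have h1 := (hp.rad_WD α).mul (hp.rad_WD α)
    have e1 : (DPot κ q a f Q W).Fc = fun x => fs q a f (rr x) * fs q a f (rr x) := by
      funext x
      show fs q a f (rr x) ^ 2 = _
      ring
    have e2 : (DPot κ q a f Q W).dFc α = fun x => gs q a f Q (rr x) * crd x α * fs q a f (rr x)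
        + fs q a f (rr x) * (gs q a f Q (rr x) * crd x α) := by
      funext x
      show 2 * (fs q a f (rr x) * gs q a f Q (rr x)) * crd x α = _
      ring
    rw [e1, e2]
    exact h1
  · have h1 := DOK_double (hF.fld_WD_all α β)
    have e1 : (DPot κ q a f Q W).dFc α = fun x => 2 * (fs q a f (rr x) * gs q a f Q (rr x) * crd x α) := by
      funext x
      show 2 * (fs q a f (rr x) * gs q a f Q (rr x)) * crd x α = _
      ring
    have e2 : (DPot κ q a f Q W).ddFc α β = fun x => 2 * (ks q a f Q W (rr x) * (crd x α / rr x) * (crd x β / rr x)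
        + if α = β then fs q a f (rr x) * gs q a f Q (rr x) else 0) := by
      funext x
      show 2 * ks q a f Q W (rr x) * (crd x α / rr x) * (crd x β / rr x)
        + (if α = β then 2 * (fs q a f (rr x) * gs q a f Q (rr x)) else 0) = _
      by_cases hab : α = β
      · rw [if_pos hab, if_pos hab]
        ring
      · rw [if_neg hab, if_neg hab]
        ring
    rw [e1, e2]
    exact h1
  · show 2 * (fs q a f (rr (-x)) * gs q a f Q (rr (-x))) * crd (-x) α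
      = -(2 * (fs q a f (rr x) * gs q a f Q (rr x)) * crd x α)
    rw [rr_neg]
    rcases lt_or_ge (rr x) (bq q a) with hx | hx
    · rw [DOK_crd_neg (DOK_crd_lt (hx.trans hp.b_lt) α)]
      ring
    · rw [hfar x hx]
      ring
  · show 2 * ks q a f Q W (rr (-x)) * (crd (-x) α / rr (-x)) * (crd (-x) β / rr (-x))
        + (if α = β then 2 * (fs q a f (rr (-x)) * gs q a f Q (rr (-x))) else 0)
      = 2 * ks q a f Q W (rr x) * (crd x α / rr x) * (crd x β / rr x)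
        + (if α = β then 2 * (fs q a f (rr x) * gs q a f Q (rr x)) else 0)
    rw [rr_neg]
    congr 1
    rcases lt_or_ge (rr x) (bq q a) with hx | hx
    · rw [DOK_crd_neg (DOK_crd_lt (hx.trans hp.b_lt) α), DOK_crd_neg (DOK_crd_lt (hx.trans hp.b_lt) β)]
      ring
    · rw [hfar' x hx]
      ring
  · have h1 : BM (fun x : T3 => 2 * ks q a f Q W (rr x) * (crd x α / rr x) * (crd x β / rr x)) :=
      ((hks.const_mul 2).mul (JData.dir_bm α)).mul (JData.dir_bm β)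
    have h2 : BM (fun x : T3 => if α = β then 2 * (fs q a f (rr x) * gs q a f Q (rr x)) else 0) := by
      by_cases hab : α = β
      · simp only [if_pos hab]
        exact hfg.const_mul 2
      · simp only [if_neg hab]
        exact BM.const 0
    exact h1.add h2
  · show |2 * ks q a f Q W (rr x) * (crd x α / rr x) * (crd x β / rr x)
        + (if α = β then 2 * (fs q a f (rr x) * gs q a f Q (rr x)) else 0)| ≤ kcr q a f Q W (rr x)
    unfold kcr
    have h1 : |2 * ks q a f Q W (rr x) * (crd x α / rr x) * (crd x β / rr x)| ≤ 2 * |ks q a f Q W (rr x)| := by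
      rw [abs_mul, abs_mul, abs_mul, abs_of_nonneg (by norm_num : (0:ℝ) ≤ 2)]
      have a1 := DOK_dir x α
      have a2 := DOK_dir x β
      have a3 : 0 ≤ 2 * |ks q a f Q W (rr x)| := by positivity
      calc 2 * |ks q a f Q W (rr x)| * |crd x α / rr x| * |crd x β / rr x|
          ≤ 2 * |ks q a f Q W (rr x)| * 1 * 1 := by
            apply mul_le_mul _ a2 (abs_nonneg _) (by linarith)
            exact mul_le_mul_of_nonneg_left a1 a3
        _ = 2 * |ks q a f Q W (rr x)| := by ring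
    have h2 : |(if α = β then 2 * (fs q a f (rr x) * gs q a f Q (rr x)) else 0)|
        ≤ 2 * |fs q a f (rr x) * gs q a f Q (rr x)| := by
      by_cases hab : α = β
      · rw [if_pos hab, abs_mul, abs_of_nonneg (by norm_num : (0:ℝ) ≤ 2)]
      · rw [if_neg hab, abs_zero]
        positivity
    have h3 : 0 ≤ 4 * gs q a f Q (rr x) ^ 2 * rr x ^ 2 := by positivity
    refine (abs_add_le _ _).trans ?_
    linarith
  · show (2 * (fs q a f (rr x) * gs q a f Q (rr x)) * crd x α) ^ 2 ≤ kcr q a f Q W (rr x) * fs q a f (rr x) ^ 2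
    have h1 : crd x α ^ 2 ≤ rr x ^ 2 := by
      rw [← sq_abs (crd x α)]
      exact pow_le_pow_left₀ (abs_nonneg _) (abs_crd_le_rr x α) 2
    have h2 : 4 * gs q a f Q (rr x) ^ 2 * rr x ^ 2 ≤ kcr q a f Q W (rr x) := by
      unfold kcr
      have a1 : 0 ≤ 2 * |ks q a f Q W (rr x)| := by positivity
      have a2 : 0 ≤ 2 * |fs q a f (rr x) * gs q a f Q (rr x)| := by positivity
      linarith
    calc (2 * (fs q a f (rr x) * gs q a f Q (rr x)) * crd x α) ^ 2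
        = 4 * gs q a f Q (rr x) ^ 2 * crd x α ^ 2 * fs q a f (rr x) ^ 2 := by ring
      _ ≤ 4 * gs q a f Q (rr x) ^ 2 * rr x ^ 2 * fs q a f (rr x) ^ 2 := by gcongr
      _ ≤ kcr q a f Q W (rr x) * fs q a f (rr x) ^ 2 := by gcongr

end Pool.Agent.Lib.MP_4952d6_mp.M

end

/-! ### M.PU7A -/

section

/-!
# PU7A: the trial function

Copy of `U/U7A` for the regime `a ≤ q ^ 200 / 8` (`M.Reg`).
-/

set_option autoImplicit false
set_option linter.unusedSectionVars false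
set_option linter.unusedVariables false
open MeasureTheory Function Filter Topology Set
open scoped ENNReal

namespace Pool.Agent.Lib.MP_4952d6_mp.M


section
variable {W f Q : ℝ → ℝ} {R₀ R a θ q κ : ℝ}

theorem U7A_ok (hκ : 0 < κ) (h : Reg W R₀ R a f Q θ q) :
    MixOk (omu κ q a) (tq q a) (4 * Real.pi * auq q a) (κ ^ 2 / lq q a ^ 2) :=
  omu_ok hκ h.q_pos h.q_le h.a_pos

/-- exponential of the long range part -/
theorem U7A_exp (hκ : 0 < κ) (h : Reg W R₀ R a f Q θ q) (α : Fin 3) (c : ℝ) :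
    WD lam3 (tau α) (fun x => Real.exp (-(c * mix0 (omu κ q a) (tq q a) x)))
      (fun x => -(c * Real.exp (-(c * mix0 (omu κ q a) (tq q a) x)))
        * mix1 (omu κ q a) (tq q a) α x) := by
  refine (mix0_WD (U7A_ok hκ h) α).comp_C1 (ψ := fun y => Real.exp (-(c * y)))
    (ψ' := fun y => -(c * Real.exp (-(c * y)))) (fun y => ?_) (by fun_prop)
  have h1 : HasDerivAt (fun y : ℝ => -(c * y)) (-(c * 1)) y := ((hasDerivAt_id y).const_mul c).neg
  have h2 := h1.exp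
  have e : Real.exp (-(c * y)) * -(c * 1) = -(c * Real.exp (-(c * y))) := by ring
  rw [e] at h2
  exact h2

theorem U7A_exp_bm (hκ : 0 < κ) (h : Reg W R₀ R a f Q θ q) {c : ℝ} (hc : 0 ≤ c) :
    BM (fun x : T3 => Real.exp (-(c * mix0 (omu κ q a) (tq q a) x))) := by
  refine BM.of_mem_Icc (a := 0) (b := 1) ?_ fun x => ⟨(Real.exp_pos _).le, ?_⟩
  · exact Real.measurable_exp.comp ((mix0_bm (U7A_ok hκ h)).meas.const_mul c).neg
  · rw [Real.exp_le_one_iff]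
    have := mul_nonneg hc (mix0_nonneg (U7A_ok hκ h) x)
    linarith

theorem U7A_fs_bm (h : Reg W R₀ R a f Q θ q) : BM (fun x : T3 => fs q a f (rr x)) :=
  ⟨h.fs_prof.continuous.measurable.comp rr_measurable,
    h.fs_prof.bdd.imp fun C hC x => hC _⟩

theorem U7A_gs_bm (h : Reg W R₀ R a f Q θ q) : BM (fun x : T3 => gs q a f Q (rr x)) :=
  ⟨h.gs_meas.comp rr_measurable, h.gs_bdd.imp fun C hC x => hC _⟩

theorem U7A_ks_bm (h : Reg W R₀ R a f Q θ q) : BM (fun x : T3 => ks q a f Q W (rr x)) :=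
  ⟨h.fsgs_fprof.meas'.comp rr_measurable, h.fsgs_fprof.bdd'.imp fun C hC x => hC _⟩

theorem U7A_WDf (hκ : 0 < κ) (h : Reg W R₀ R a f Q θ q) (α : Fin 3) :
    WD lam3 (tau α) (ftot κ q a f) (dftot κ q a f Q α) := by
  have h1 := (h.fs_prof.rad_WD α).mul (U7A_exp hκ h α 1)
  have e1 : (fun x => fs q a f (rr x) * Real.exp (-(1 * mix0 (omu κ q a) (tq q a) x)))
      = ftot κ q a f := by
    funext x
    simp only [ftot, one_mul]
  rw [e1] at h1
  refine h1.congr (Eventually.of_forall fun x => ?_)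
  simp only [dftot, one_mul]
  ring

theorem U7A_WDh (hκ : 0 < κ) (h : Reg W R₀ R a f Q θ q) (α : Fin 3) :
    WD lam3 (tau α) (fun x => ftot κ q a f x * dftot κ q a f Q α x) (hftot κ q a f Q W α) := by
  have hG := h.fsgs_fprof.fld_WD α
  have hF := (h.fs_prof.rad_WD α).mul (h.fs_prof.rad_WD α)
  have hM := hF.mul (mix1_WD (U7A_ok hκ h) α α)
  have hN : WD lam3 (tau α) (fun x => -(fs q a f (rr x) * fs q a f (rr x)
      * mix1 (omu κ q a) (tq q a) α x)) _ :=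
    hM.comp_C1 (ψ := fun y => -y) (ψ' := fun _ => -1) (fun y =>
      hasDerivAt_neg y) continuous_const
  have hE := (hG.add hN).mul (U7A_exp hκ h α 2)
  have e1 : (fun x => (fs q a f (rr x) * gs q a f Q (rr x) * crd x α
      + -(fs q a f (rr x) * fs q a f (rr x) * mix1 (omu κ q a) (tq q a) α x))
      * Real.exp (-(2 * mix0 (omu κ q a) (tq q a) x)))
      = fun x => ftot κ q a f x * dftot κ q a f Q α x := by
    funext x
    simp only [ftot, dftot]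
    have e2 : Real.exp (-(2 * mix0 (omu κ q a) (tq q a) x))
        = Real.exp (-mix0 (omu κ q a) (tq q a) x) * Real.exp (-mix0 (omu κ q a) (tq q a) x) := by
      rw [← Real.exp_add]
      congr 1
      ring
    rw [e2]
    ring
  rw [e1] at hE
  refine hE.congr (Eventually.of_forall fun x => ?_)
  simp only [hftot]
  ring

theorem Reg.tdata (hκ : 0 < κ) (h : Reg W R₀ R a f Q θ q) :
    TData (ftot κ q a f) (dftot κ q a f Q) (hftot κ q a f Q W) where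
  nonneg x := mul_nonneg (h.fs_nonneg _) (Real.exp_pos _).le
  le_one x := by
    refine mul_le_one₀ (h.fs_le_one (rr_nonneg x)) (Real.exp_pos _).le ?_
    rw [Real.exp_le_one_iff]
    have := mix0_nonneg (U7A_ok hκ h) x
    linarith
  even x := by
    simp only [ftot, rr_neg, mix0_neg]
  WDf := U7A_WDf hκ h
  WDh := U7A_WDh hκ h
  df_bm α := by
    have h1 := U7A_exp_bm hκ h (c := 1) zero_le_one
    simp only [one_mul] at h1
    exact h1.mul (((U7A_gs_bm h).mul (U7A_crd_bm α)).sub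
      ((U7A_fs_bm h).mul (mix1_bm (U7A_ok hκ h) α)))
  hf_bm α := by
    have h1 := U7A_exp_bm hκ h (c := 2) zero_le_two
    have hk := U7A_ks_bm h
    have hfg := (U7A_fs_bm h).mul (U7A_gs_bm h)
    have hf2 := (U7A_fs_bm h).pow 2
    have hm1 := mix1_bm (U7A_ok hκ h) α
    have hm2 := mix2_bm (U7A_ok hκ h) α α
    exact h1.mul ((((hk.mul ((U7A_dir_bm α).pow 2)).add hfg).sub
      (((hfg.const_mul 2).mul (U7A_crd_bm α)).mul hm1)).sub (hf2.mul hm2) |>.sub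
      ((hm1.const_mul 2).mul ((hfg.mul (U7A_crd_bm α)).sub (hf2.mul hm1))))

theorem Reg.ftot_core (h : Reg W R₀ R a f Q θ q) (x : T3) (hx : rr x < R₀) :
    ftot κ q a f x = 0 := by
  simp only [ftot]
  rw [h.fs_core ((rr_nonneg x).trans_lt hx) hx, zero_mul]

end

end Pool.Agent.Lib.MP_4952d6_mp.M

end

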