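import Pool.Agent.Lib.MP_4952d6_mp.Pk.G29
import Pool.Agent.Lib.MP_4952d6_mp.Pk.G54
import Pool.Agent.Lib.MP_4952d6_mp.Pm.M04
import Pool.Agent.Lib.MP_4952d6_mp.Pm.M08

/-! Merged modules (to save import time): M.SL, M.X1. -/

/-! ### M.SL -/

section

/-!
# The depletion function `sl`: convergence, bounds, continuity, limit `8/(3√π)`

`sl l = (1/2) l³ ∑_{p ≠ 0} Jgd ((2πl|p|)²)`.  Riemann sums of a decreasing function `g` on `(0,∞)` with
`r² g(r/3)` integrable: for `x` in the cube of `p = ⌊x/h⌋ ≠ 0`, `|x| ≤ |h p| + 2h ≤ 3 |h p|`.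
-/

set_option autoImplicit false
set_option linter.unusedSectionVars false
set_option linter.unusedVariables false
open MeasureTheory Function Filter Topology Set
open scoped ENNReal

namespace Pool.Agent.Lib.MP_4952d6_mp

lemma SL_mom2_ge_one {p : Fin 3 → ℤ} (hp : p ≠ 0) : 1 ≤ mom2 p := by
  obtain ⟨α, hα⟩ : ∃ α, p α ≠ 0 := by
    by_contra h
    push Not at h
    exact hp (funext h)
  have h1 : (1 : ℝ) ≤ (p α : ℝ) ^ 2 := by
    have h2 : (1 : ℤ) ≤ (p α) ^ 2 := by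
      have := sq_pos_of_ne_zero hα
      linarith
    exact_mod_cast h2
  exact h1.trans (Finset.single_le_sum (f := fun α => (p α : ℝ) ^ 2) (fun β _ => sq_nonneg _)
    (Finset.mem_univ α))

lemma SL_lower {h : ℝ} (hh : 0 < h) {x : Fin 3 → ℝ} (hx : F2a_fm h x ≠ 0) :
    nr x ≤ 3 * nr (fun α => h * ((F2a_fm h x α : ℤ) : ℝ)) := by
  have h1 := F2a_nr_near hh x
  have h2 : nr (fun α => h * (⌊x α / h⌋ : ℝ)) = nr (fun α => h * ((F2a_fm h x α : ℤ) : ℝ)) := rfl
  rw [h2] at h1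
  have h3 : h ≤ nr (fun α => h * ((F2a_fm h x α : ℤ) : ℝ)) := by
    rw [F2b_nr_mul hh.le]
    have h4 : 1 ≤ Real.sqrt (mom2 (F2a_fm h x)) := by
      rw [Real.one_le_sqrt]
      exact SL_mom2_ge_one hx
    nlinarith
  linarith

lemma SL_fm_zero {h : ℝ} : F2a_fm h 0 = 0 := by
  funext α
  simp [F2a_fm]

lemma SL_nr_pos {x : Fin 3 → ℝ} (hx : x ≠ 0) : 0 < nr x := by
  obtain ⟨α, hα⟩ : ∃ α, x α ≠ 0 := by
    by_contra h
    push Not at h
    exact hx (funext h)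
  unfold nr
  refine Real.sqrt_pos.2 ?_
  exact (by positivity : 0 < x α ^ 2).trans_le
    (Finset.single_le_sum (f := fun α => x α ^ 2) (fun β _ => sq_nonneg _) (Finset.mem_univ α))

/-- lattice function -/
noncomputable def SLG (g : ℝ → ℝ) (h : ℝ) (p : Fin 3 → ℤ) : ℝ :=
  if p = 0 then 0 else g (nr (fun α => h * (p α : ℝ)))

section
variable {g : ℝ → ℝ} (hant : ∀ r s, 0 < r → r ≤ s → g s ≤ g r) (hg0 : ∀ r, 0 < r → 0 ≤ g r)
  (hint : IntegrableOn (fun r => r ^ 2 * g (r / 3)) (Ioi (0:ℝ)))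
include hant hg0

lemma SL_bound {h : ℝ} (hh : 0 < h) (x : Fin 3 → ℝ) :
    |SLG g h (F2a_fm h x)| ≤ |g (nr x / 3)| := by
  unfold SLG
  split_ifs with h0
  · rw [abs_zero]; exact abs_nonneg _
  · have hx : x ≠ 0 := by
      rintro rfl
      exact h0 SL_fm_zero
    have h1 := SL_lower hh h0
    have h2 := SL_nr_pos hx
    have h3 := hant (nr x / 3) _ (by linarith) (by linarith : nr x / 3 ≤
      nr (fun α => h * ((F2a_fm h x α : ℤ) : ℝ)))
    have h4 : 0 ≤ g (nr (fun α => h * ((F2a_fm h x α : ℤ) : ℝ))) := hg0 _ (by linarith)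
    rw [abs_of_nonneg h4, abs_of_nonneg (h4.trans h3)]
    exact h3

include hint in
lemma SL_int (hg0 : ∀ r, 0 < r → 0 ≤ g r) : Integrable (fun x : Fin 3 → ℝ => |g (nr x / 3)|) :=
  ((integrable_nr (fun r => g (r / 3))).2 hint).abs

include hint

lemma SL_integrable {h : ℝ} (hh : 0 < h) :
    Integrable (fun x : Fin 3 → ℝ => SLG g h (F2a_fm h x)) := by
  refine (SL_int hant hg0 hint hg0).mono' ?_ (Eventually.of_forall fun x => ?_)
  · exact ((measurable_of_countable (SLG g h)).comp (F2a_fm_measurable h)).aestronglyMeasurable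
  · rw [Real.norm_eq_abs]
    exact SL_bound hant hg0 hh x

lemma SL_summable {h : ℝ} (hh : 0 < h) : Summable (SLG g h) :=
  (F2a_integrable_iff hh _).1 (SL_integrable hant hg0 hint hh)

lemma SL_le {h : ℝ} (hh : 0 < h) :
    h ^ 3 * ∑' p, SLG g h p ≤ sig * ∫ r in Ioi (0:ℝ), r ^ 2 * g (r / 3) := by
  rw [← F2a_integral hh (SL_summable hant hg0 hint hh), ← integral_nr]
  refine integral_mono_ae (SL_integrable hant hg0 hint hh)
    ((integrable_nr (fun r => g (r / 3))).2 hint) ?_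
  have h0 : ∀ᵐ x : Fin 3 → ℝ, x ≠ 0 := by
    rw [ae_iff]
    simp
  filter_upwards [h0] with x hx
  have h1 := SL_bound hant hg0 hh x
  have h2 := hg0 (nr x / 3) (by have := SL_nr_pos hx; linarith)
  rw [abs_of_nonneg h2] at h1
  exact (le_abs_self _).trans h1

lemma SL_tendsto (hcont : ContinuousOn g (Ioi 0)) :
    Tendsto (fun h : ℝ => h ^ 3 * ∑' p, SLG g h p) (𝓝[>] 0)
      (𝓝 (sig * ∫ r in Ioi (0:ℝ), r ^ 2 * g r)) := by
  have h1 : Tendsto (fun h : ℝ => ∫ x : Fin 3 → ℝ, SLG g h (F2a_fm h x)) (𝓝[>] 0)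
      (𝓝 (∫ x : Fin 3 → ℝ, g (nr x))) := by
    refine tendsto_integral_filter_of_dominated_convergence
      (fun x => |g (nr x / 3)|) ?_ ?_ (SL_int hant hg0 hint hg0) ?_
    · refine Eventually.of_forall fun h => ?_
      exact ((measurable_of_countable (SLG g h)).comp (F2a_fm_measurable h)).aestronglyMeasurable
    · filter_upwards [self_mem_nhdsWithin] with h hh
      exact Eventually.of_forall fun x => by
        rw [Real.norm_eq_abs]
        exact SL_bound hant hg0 hh x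
    · have h0 : ∀ᵐ x : Fin 3 → ℝ, x ≠ 0 := by
        rw [ae_iff]
        simp
      filter_upwards [h0] with x hx
      have hpos := SL_nr_pos hx
      have h2 := F2b_fl_tendsto x
      have h3 : Tendsto (fun h : ℝ => nr (fun α => h * (⌊x α / h⌋ : ℝ))) (𝓝[>] 0) (𝓝 (nr x)) :=
        (nr_cont.tendsto x).comp h2
      have h4 : Tendsto (fun h : ℝ => g (nr (fun α => h * (⌊x α / h⌋ : ℝ)))) (𝓝[>] 0)
          (𝓝 (g (nr x))) :=
        ((hcont.continuousAt (Ioi_mem_nhds hpos)).tendsto).comp h3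
      refine h4.congr' ?_
      have h5 : ∀ᶠ h : ℝ in 𝓝[>] 0, 0 < nr (fun α => h * (⌊x α / h⌋ : ℝ)) :=
        h3.eventually (eventually_gt_nhds hpos)
      filter_upwards [h5] with h hh
      unfold SLG
      rw [if_neg]
      · rfl
      · intro h6
        have h7 : (fun α => h * (⌊x α / h⌋ : ℝ)) = (0 : Fin 3 → ℝ) := by
          funext α
          have h8 : ⌊x α / h⌋ = 0 := congrFun h6 α
          simp [h8]
        rw [h7] at hh
        simp [nr] at hh
  rw [integral_nr] at h1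
  refine h1.congr' ?_
  filter_upwards [self_mem_nhdsWithin] with h hh
  exact F2a_integral hh (SL_summable hant hg0 hint hh)

end

/-- `g r = Jgd (r²)` -/
lemma SL_ant : ∀ r s : ℝ, 0 < r → r ≤ s → Jgd (s ^ 2) ≤ Jgd (r ^ 2) := fun r s hr hrs =>
  Jgd_anti (by positivity) (pow_le_pow_left₀ hr.le hrs 2)

lemma SL_nonneg : ∀ r : ℝ, 0 < r → 0 ≤ Jgd (r ^ 2) := fun r hr => (Jgd_pos (by positivity)).le

lemma SL_int3 : IntegrableOn (fun r => r ^ 2 * Jgd ((r / 3) ^ 2)) (Ioi (0:ℝ)) := by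
  have h1 := Jgd_integrable (δ := 0) le_rfl
  simp only [add_zero] at h1
  have h2 := (integrableOn_Ioi_comp_mul_left_iff (fun r => r ^ 2 * Jgd (r ^ 2)) 0
    (show (0:ℝ) < 1 / 3 by norm_num)).2 (by rw [mul_zero]; exact h1)
  refine (h2.const_mul 9).congr (Eventually.of_forall fun r => ?_)
  simp only
  have h3 : (1:ℝ) / 3 * r = r / 3 := by ring
  rw [h3]
  ring

lemma SL_cont : ContinuousOn (fun r : ℝ => Jgd (r ^ 2)) (Ioi 0) := fun r hr =>
  (ContinuousAt.comp (f := fun r : ℝ => r ^ 2) (g := Jgd)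
    (F1c_Jgd_continuousAt (s := r ^ 2) (by have : (0:ℝ) < r := hr; positivity))
    (continuous_pow 2).continuousAt).continuousWithinAt

/-- the sum in `sl` -/
noncomputable def SLS (l : ℝ) : ℝ := ∑' p, SLG (fun r => Jgd (r ^ 2)) (2 * Real.pi * l) p

lemma SLG_eq {l : ℝ} (hl : 0 < l) (p : Fin 3 → ℤ) :
    SLG (fun r => Jgd (r ^ 2)) (2 * Real.pi * l) p = if p = 0 then 0 else
      ((ksq p + 8 * Real.pi / l ^ 2) / Real.sqrt (ksq p ^ 2 + 16 * Real.pi / l ^ 2 * ksq p)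
        - 1) := by
  unfold SLG
  split_ifs with h0
  · rfl
  · have hpi := Real.pi_pos
    rw [F2b_nr_mul (by positivity)]
    have h1 : (2 * Real.pi * l * Real.sqrt (mom2 p)) ^ 2 = l ^ 2 * ksq p := by
      rw [mul_pow, Real.sq_sqrt (mom2_nonneg p)]
      unfold ksq
      ring
    show Jgd ((2 * Real.pi * l * Real.sqrt (mom2 p)) ^ 2) = _
    rw [h1]
    unfold Jgd
    have h2 : (l ^ 2 * ksq p) ^ 2 + 16 * Real.pi * (l ^ 2 * ksq p)
        = (l ^ 2) ^ 2 * (ksq p ^ 2 + 16 * Real.pi / l ^ 2 * ksq p) := by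
      field_simp
    rw [h2, Real.sqrt_mul (by positivity), Real.sqrt_sq (by positivity)]
    have h3 : l ^ 2 * ksq p + 8 * Real.pi = l ^ 2 * (ksq p + 8 * Real.pi / l ^ 2) := by
      field_simp
    rw [h3, mul_div_mul_left _ _ (by positivity)]

lemma sl_eq {l : ℝ} (hl : 0 < l) : M.sl l = 1 / 2 * (l ^ 3 * SLS l) := by
  unfold M.sl SLS
  rw [tsum_congr (SLG_eq hl)]
  ring

lemma SLS_summable {l : ℝ} (hl : 0 < l) :
    Summable (SLG (fun r => Jgd (r ^ 2)) (2 * Real.pi * l)) :=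
  SL_summable SL_ant SL_nonneg SL_int3 (by have := Real.pi_pos; positivity)

lemma SLG_nonneg {l : ℝ} (hl : 0 < l) (p : Fin 3 → ℤ) :
    0 ≤ SLG (fun r => Jgd (r ^ 2)) (2 * Real.pi * l) p := by
  unfold SLG
  split_ifs with h0
  · exact le_rfl
  · have hpi := Real.pi_pos
    rw [F2b_nr_mul (by positivity)]
    have h1 : 0 < Real.sqrt (mom2 p) := Real.sqrt_pos.2 (one_pos.trans_le (SL_mom2_ge_one h0))
    exact SL_nonneg _ (by positivity)

lemma SLS_nonneg {l : ℝ} (hl : 0 < l) : 0 ≤ SLS l := tsum_nonneg (SLG_nonneg hl)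

lemma sl_nonneg {l : ℝ} (hl : 0 < l) : 0 ≤ M.sl l := by
  rw [sl_eq hl]
  have := SLS_nonneg hl
  positivity

/-- `sl` is bounded. -/
theorem sl_bdd : ∃ C : ℝ, 0 < C ∧ ∀ l : ℝ, 0 < l → M.sl l ≤ C := by
  set I : ℝ := sig * ∫ r in Ioi (0:ℝ), r ^ 2 * Jgd ((r / 3) ^ 2) with hI
  have hpi := Real.pi_pos
  refine ⟨1 + |1 / 2 * (1 / (2 * Real.pi) ^ 3 * I)|, by positivity, fun l hl => ?_⟩
  have h1 := SL_le (g := fun r => Jgd (r ^ 2)) SL_ant SL_nonneg SL_int3
    (show 0 < 2 * Real.pi * l by positivity)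
  rw [sl_eq hl]
  have h2 : 1 / 2 * (l ^ 3 * SLS l) = 1 / 2 * (1 / (2 * Real.pi) ^ 3 *
      ((2 * Real.pi * l) ^ 3 * ∑' p, SLG (fun r => Jgd (r ^ 2)) (2 * Real.pi * l) p)) := by
    unfold SLS
    field_simp
  rw [h2]
  have h3 : 1 / 2 * (1 / (2 * Real.pi) ^ 3 *
      ((2 * Real.pi * l) ^ 3 * ∑' p, SLG (fun r => Jgd (r ^ 2)) (2 * Real.pi * l) p))
      ≤ 1 / 2 * (1 / (2 * Real.pi) ^ 3 * I) :=
    mul_le_mul_of_nonneg_left (mul_le_mul_of_nonneg_left h1 (by positivity)) (by norm_num)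
  refine h3.trans ((le_abs_self _).trans (by linarith))

/-- **Limit of `sl`:** the Lee-Huang-Yang constant. -/
theorem sl_tendsto : Tendsto M.sl (𝓝[>] 0) (𝓝 (8 / (3 * Real.sqrt Real.pi))) := by
  have hpi := Real.pi_pos
  have h1 := SL_tendsto (g := fun r => Jgd (r ^ 2)) SL_ant SL_nonneg SL_int3 SL_cont
  rw [Jgd_integral, sig_eq] at h1
  have h2 : Tendsto (fun l : ℝ => 2 * Real.pi * l) (𝓝[>] 0) (𝓝[>] 0) := by
    refine tendsto_nhdsWithin_iff.2 ⟨?_, ?_⟩
    · have h3 : Tendsto (fun l : ℝ => 2 * Real.pi * l) (𝓝 0) (𝓝 (2 * Real.pi * 0)) :=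
        (continuous_const.mul continuous_id).tendsto 0
      rw [mul_zero] at h3
      exact h3.mono_left nhdsWithin_le_nhds
    · filter_upwards [self_mem_nhdsWithin] with l hl
      have : (0:ℝ) < l := hl
      show 0 < 2 * Real.pi * l
      positivity
  have h4 := (h1.comp h2).const_mul (1 / 2 * (1 / (2 * Real.pi) ^ 3))
  have h5 : 1 / 2 * (1 / (2 * Real.pi) ^ 3)
      * (4 * Real.pi * (32 / 3 * Real.pi * Real.sqrt Real.pi)) = 8 / (3 * Real.sqrt Real.pi) := by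
    have h6 : Real.sqrt Real.pi ^ 2 = Real.pi := Real.sq_sqrt hpi.le
    have h7 : 0 < Real.sqrt Real.pi := Real.sqrt_pos.2 hpi
    rw [eq_div_iff (by positivity)]
    have h8 : 1 / 2 * (1 / (2 * Real.pi) ^ 3)
      * (4 * Real.pi * (32 / 3 * Real.pi * Real.sqrt Real.pi)) * (3 * Real.sqrt Real.pi)
      = 1 / 2 * (1 / (2 * Real.pi) ^ 3) * (4 * Real.pi * (32 * Real.pi * Real.sqrt Real.pi ^ 2)) := by
      ring
    rw [h8, h6]
    field_simp
    ring
  rw [h5] at h4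
  refine h4.congr' ?_
  filter_upwards [self_mem_nhdsWithin] with l hl
  have hl0 : (0:ℝ) < l := hl
  rw [sl_eq hl0]
  simp only [Function.comp]
  unfold SLS
  field_simp

lemma Jgd_scale {s c : ℝ} (hs : 0 < s) (hc : 1 ≤ c) : Jgd s ≤ c ^ 2 * Jgd (c * s) := by
  have hpi := Real.pi_pos
  have hc0 : 0 < c := by linarith
  have hcs : 0 < c * s := by positivity
  rw [F1a_Jgd_eq hs, F1a_Jgd_eq hcs]
  set S : ℝ := Real.sqrt (s ^ 2 + 16 * Real.pi * s) with hS
  set Sc : ℝ := Real.sqrt ((c * s) ^ 2 + 16 * Real.pi * (c * s)) with hSc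
  have hS0 : 0 < S := Real.sqrt_pos.2 (by positivity)
  have hSc0 : 0 < Sc := Real.sqrt_pos.2 (by positivity)
  have h1 : Sc ≤ c * S := by
    rw [hSc, hS, ← Real.sqrt_sq hc0.le, ← Real.sqrt_mul (sq_nonneg c), Real.sqrt_sq hc0.le]
    refine Real.sqrt_le_sqrt ?_
    nlinarith [mul_pos (mul_pos hpi hs) hc0, mul_nonneg (mul_pos (mul_pos hpi hs) hc0).le
      (by linarith : 0 ≤ c - 1)]
  have h2 : c * s + 8 * Real.pi + Sc ≤ c * (s + 8 * Real.pi + S) := by
    nlinarith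
  have h3 : Sc * (c * s + 8 * Real.pi + Sc) ≤ (c * S) * (c * (s + 8 * Real.pi + S)) :=
    mul_le_mul h1 h2 (by positivity) (by positivity)
  rw [← mul_div_assoc, div_le_div_iff₀ (by positivity) (by positivity)]
  nlinarith [mul_le_mul_of_nonneg_left h3 (show 0 ≤ 64 * Real.pi ^ 2 by positivity)]

/-- Monotonicity properties of `sl`. -/
theorem sl_mono {l l' : ℝ} (hl : 0 < l) (hll : l ≤ l') :
    M.sl l' ≤ (l' / l) ^ 3 * M.sl l ∧ M.sl l ≤ (l' / l) * M.sl l' := by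
  have hl' : 0 < l' := hl.trans_le hll
  have hpi := Real.pi_pos
  have hn := SLS_nonneg hl
  have hn' := SLS_nonneg hl'
  have h1 : SLS l' ≤ SLS l := by
    refine (SLS_summable hl').tsum_le_tsum (fun p => ?_) (SLS_summable hl)
    unfold SLG
    split_ifs with h0
    · exact le_rfl
    · rw [F2b_nr_mul (by positivity), F2b_nr_mul (by positivity)]
      have h1 : 0 < Real.sqrt (mom2 p) := Real.sqrt_pos.2 (one_pos.trans_le (SL_mom2_ge_one h0))
      refine SL_ant _ _ (by positivity) ?_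
      gcongr
  have h2 : SLS l ≤ (l' / l) ^ 4 * SLS l' := by
    unfold SLS
    rw [← tsum_mul_left]
    refine (SLS_summable hl).tsum_le_tsum (fun p => ?_) ((SLS_summable hl').mul_left _)
    unfold SLG
    split_ifs with h0
    · simp
    · rw [F2b_nr_mul (by positivity), F2b_nr_mul (by positivity)]
      have h1 : 0 < Real.sqrt (mom2 p) := Real.sqrt_pos.2 (one_pos.trans_le (SL_mom2_ge_one h0))
      have h3 : (1:ℝ) ≤ (l' / l) ^ 2 := by
        have : 1 ≤ l' / l := by rwa [one_le_div hl]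
        nlinarith
      have h4 := Jgd_scale (s := (2 * Real.pi * l * Real.sqrt (mom2 p)) ^ 2) (by positivity) h3
      have h5 : (l' / l) ^ 2 * (2 * Real.pi * l * Real.sqrt (mom2 p)) ^ 2
          = (2 * Real.pi * l' * Real.sqrt (mom2 p)) ^ 2 := by
        field_simp
      rw [h5] at h4
      calc Jgd ((2 * Real.pi * l * Real.sqrt (mom2 p)) ^ 2)
          ≤ ((l' / l) ^ 2) ^ 2 * Jgd ((2 * Real.pi * l' * Real.sqrt (mom2 p)) ^ 2) := h4
        _ = _ := by ring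
  rw [sl_eq hl, sl_eq hl']
  constructor
  · have h3 : (l' / l) ^ 3 * (1 / 2 * (l ^ 3 * SLS l)) = 1 / 2 * (l' ^ 3 * SLS l) := by
      field_simp
    rw [h3]
    gcongr
  · have h3 : 1 / 2 * (l ^ 3 * SLS l) ≤ 1 / 2 * (l ^ 3 * ((l' / l) ^ 4 * SLS l')) := by
      gcongr
    refine h3.trans (le_of_eq ?_)
    field_simp

/-- Continuity of `sl` with constants. -/
theorem sl_close : ∃ C : ℝ, 0 < C ∧ ∀ l l' δ : ℝ, 0 < l → 0 < l' → 0 ≤ δ → δ ≤ 1 →
    l' ≤ (1 + δ) * l → l ≤ (1 + δ) * l' → |M.sl l' - M.sl l| ≤ C * δ := by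
  obtain ⟨C, hC, hb⟩ := sl_bdd
  have key : ∀ l l' δ : ℝ, 0 < l → l ≤ l' → 0 ≤ δ → δ ≤ 1 → l' ≤ (1 + δ) * l →
      |M.sl l' - M.sl l| ≤ 7 * C * δ := by
    intro l l' δ hl hll hδ hδ1 h1
    have hl' : 0 < l' := hl.trans_le hll
    obtain ⟨h2, h3⟩ := sl_mono hl hll
    have h4 : l' / l ≤ 1 + δ := by rwa [div_le_iff₀ hl]
    have h5 : 0 < l' / l := by positivity
    have h6 : (l' / l) ^ 3 ≤ 1 + 7 * δ := by
      calc (l' / l) ^ 3 ≤ (1 + δ) ^ 3 := pow_le_pow_left₀ h5.le h4 3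
        _ ≤ 1 + 7 * δ := by
          have e1 := mul_nonneg hδ hδ
          have e2 := mul_nonneg hδ (sub_nonneg.2 hδ1)
          have e3 := mul_nonneg (mul_nonneg hδ hδ) (sub_nonneg.2 hδ1)
          nlinarith only [e1, e2, e3]
    have n1 := sl_nonneg hl
    have n2 := sl_nonneg hl'
    have b1 := hb l hl
    have b2 := hb l' hl'
    rw [abs_le]
    constructor
    · have h7 : M.sl l ≤ (1 + δ) * M.sl l' := h3.trans (mul_le_mul_of_nonneg_right h4 n2)
      have h8 : δ * M.sl l' ≤ δ * C := mul_le_mul_of_nonneg_left b2 hδ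
      have h9 : 0 ≤ C * δ := by positivity
      linarith
    · have h7 : M.sl l' ≤ (1 + 7 * δ) * M.sl l := h2.trans (mul_le_mul_of_nonneg_right h6 n1)
      have h8 : δ * M.sl l ≤ δ * C := mul_le_mul_of_nonneg_left b1 hδ
      linarith
  refine ⟨7 * C, by positivity, fun l l' δ hl hl' hδ hδ1 h1 h2 => ?_⟩
  rcases le_total l l' with h | h
  · exact key l l' δ hl h hδ hδ1 h1
  · rw [abs_sub_comm]
    exact key l' l δ hl' h hδ hδ1 h2

end Pool.Agent.Lib.MP_4952d6_mp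

end

/-! ### M.X1 -/

section

/-!
# MX, part 1: differences of the lattice sums `LS t lam G`, `G = 8π/l²`

`epsf G E - E - G = (1/l²) (Jg (l² E) - 8π)`; `Jg' = Jgd` is decreasing.
-/

set_option autoImplicit false
set_option linter.unusedSectionVars false
set_option linter.unusedVariables false
open MeasureTheory Function Filter Topology Set
open scoped ENNReal

namespace Pool.Agent.Lib.MP_4952d6_mp.LB

lemma X_g {l E : ℝ} (hl : 0 < l) (hE : 0 ≤ E) :
    epsf (8 * Real.pi / l ^ 2) E - E - 8 * Real.pi / l ^ 2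
      = (1 / l ^ 2) * (Jg (l ^ 2 * E) - 8 * Real.pi) := by
  have hpi := Real.pi_pos
  unfold epsf Jg
  have h1 : (l ^ 2 * E) ^ 2 + 16 * Real.pi * (l ^ 2 * E)
      = (l ^ 2) ^ 2 * (E ^ 2 + 2 * (8 * Real.pi / l ^ 2) * E) := by
    field_simp
    ring
  rw [h1, Real.sqrt_mul (by positivity), Real.sqrt_sq (by positivity)]
  field_simp

lemma X_up1 {l κ E : ℝ} (hl : 0 < l) (hκ : 0 ≤ κ) (hE : κ < E) :
    (epsf (8 * Real.pi / l ^ 2) E - E - 8 * Real.pi / l ^ 2)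
      - (epsf (8 * Real.pi / l ^ 2) (E - κ) - (E - κ) - 8 * Real.pi / l ^ 2)
      ≤ κ * Jgd (l ^ 2 * (E - κ)) := by
  rw [X_g hl (by linarith), X_g hl (by linarith)]
  have hs : 0 < l ^ 2 * (E - κ) := mul_pos (by positivity) (by linarith)
  have h1 := Jg_sub_le hs (show 0 ≤ l ^ 2 * κ by positivity)
  have h2 : l ^ 2 * (E - κ) + l ^ 2 * κ = l ^ 2 * E := by ring
  rw [h2] at h1
  have h3 : 1 / l ^ 2 * (Jg (l ^ 2 * E) - 8 * Real.pi)
      - 1 / l ^ 2 * (Jg (l ^ 2 * (E - κ)) - 8 * Real.pi)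
      = 1 / l ^ 2 * (Jg (l ^ 2 * E) - Jg (l ^ 2 * (E - κ))) := by ring
  rw [h3]
  calc 1 / l ^ 2 * (Jg (l ^ 2 * E) - Jg (l ^ 2 * (E - κ)))
      ≤ 1 / l ^ 2 * (l ^ 2 * κ * Jgd (l ^ 2 * (E - κ))) :=
        mul_le_mul_of_nonneg_left h1 (by positivity)
    _ = _ := by field_simp

lemma X_lo1 {l κ E : ℝ} (hl : 0 < l) (hκ : 0 < κ) (hE : 0 ≤ E) :
    κ * Jgd (l ^ 2 * (E + κ)) ≤
    (epsf (8 * Real.pi / l ^ 2) (E + κ) - (E + κ) - 8 * Real.pi / l ^ 2)
      - (epsf (8 * Real.pi / l ^ 2) E - E - 8 * Real.pi / l ^ 2) := by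
  rw [X_g hl (by linarith), X_g hl (by linarith)]
  have hs : 0 ≤ l ^ 2 * E := mul_nonneg (by positivity) hE
  have h1 := Jg_sub_ge hs (show 0 < l ^ 2 * κ by positivity)
  have h2 : l ^ 2 * E + l ^ 2 * κ = l ^ 2 * (E + κ) := by ring
  rw [h2] at h1
  have h3 : 1 / l ^ 2 * (Jg (l ^ 2 * (E + κ)) - 8 * Real.pi)
      - 1 / l ^ 2 * (Jg (l ^ 2 * E) - 8 * Real.pi)
      = 1 / l ^ 2 * (Jg (l ^ 2 * (E + κ)) - Jg (l ^ 2 * E)) := by ring
  rw [h3]
  calc κ * Jgd (l ^ 2 * (E + κ)) = 1 / l ^ 2 * (l ^ 2 * κ * Jgd (l ^ 2 * (E + κ))) := by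
        field_simp
    _ ≤ 1 / l ^ 2 * (Jg (l ^ 2 * (E + κ)) - Jg (l ^ 2 * E)) :=
        mul_le_mul_of_nonneg_left h1 (by positivity)

lemma X_up2 {l κ E : ℝ} (hl : 0 < l) (hκ : 0 ≤ κ) (hκ4 : κ ≤ 1 / 4) (hE : 1 ≤ E) :
    Jgd (l ^ 2 * (E - κ)) ≤ (1 + 4 * κ) * Jgd (l ^ 2 * E) := by
  have h1 : 0 < 1 - κ := by linarith
  have hs : 0 < (1 - κ) * (l ^ 2 * E) := by positivity
  have h2 : (1 - κ) * (l ^ 2 * E) ≤ l ^ 2 * (E - κ) := by
    have : 0 ≤ l ^ 2 * (κ * (E - 1)) :=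
      mul_nonneg (sq_nonneg _) (mul_nonneg hκ (by linarith))
    nlinarith only [this]
  refine (Jgd_anti hs h2).trans ?_
  have h3 := Jgd_scale hs (c := 1 / (1 - κ)) (by rw [le_div_iff₀ h1]; linarith)
  have h4 : 1 / (1 - κ) * ((1 - κ) * (l ^ 2 * E)) = l ^ 2 * E := by field_simp
  rw [h4] at h3
  refine h3.trans (mul_le_mul_of_nonneg_right ?_ (Jgd_pos (by positivity)).le)
  rw [div_pow, one_pow, div_le_iff₀ (by positivity)]
  have e1 : 0 ≤ κ * (2 - 7 * κ) := mul_nonneg hκ (by linarith)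
  have e2 : 0 ≤ κ * κ * κ := by positivity
  nlinarith only [e1, e2]

lemma X_lo2 {l κ E : ℝ} (hl : 0 < l) (hκ : 0 ≤ κ) (hE : 1 ≤ E) :
    (1 - 2 * κ) * Jgd (l ^ 2 * E) ≤ Jgd (l ^ 2 * (E + κ)) := by
  have hs : 0 < l ^ 2 * (E + κ) := by positivity
  have hs2 : 0 < l ^ 2 * E := by positivity
  have h2 : l ^ 2 * (E + κ) ≤ (1 + κ) * (l ^ 2 * E) := by
    have : 0 ≤ l ^ 2 * (κ * (E - 1)) :=
      mul_nonneg (sq_nonneg _) (mul_nonneg hκ (by linarith))
    nlinarith only [this]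
  refine le_trans ?_ (Jgd_anti hs h2)
  have h3 := Jgd_scale hs2 (c := 1 + κ) (by linarith)
  have h5 := (Jgd_pos hs2).le
  have h6 := (Jgd_pos (s := (1 + κ) * (l ^ 2 * E)) (by positivity)).le
  rcases le_or_gt (1 - 2 * κ) 0 with h7 | h7
  · exact (mul_nonpos_of_nonpos_of_nonneg h7 h5).trans h6
  · calc (1 - 2 * κ) * Jgd (l ^ 2 * E)
        ≤ (1 - 2 * κ) * ((1 + κ) ^ 2 * Jgd ((1 + κ) * (l ^ 2 * E))) :=
          mul_le_mul_of_nonneg_left h3 h7.le
      _ = ((1 - 2 * κ) * (1 + κ) ^ 2) * Jgd ((1 + κ) * (l ^ 2 * E)) := by ring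
      _ ≤ 1 * Jgd ((1 + κ) * (l ^ 2 * E)) := by
          refine mul_le_mul_of_nonneg_right ?_ h6
          have e2 : 0 ≤ κ * κ * κ := by positivity
          have e3 : 0 ≤ κ * κ := by positivity
          nlinarith only [e2, e3]
      _ = _ := one_mul _

lemma X_ksq_ge_one {p : Fin 3 → ℤ} (hp : p ≠ 0) : 1 ≤ ksq p := by
  have h1 := four_pi_le_ksq hp
  have h2 := Real.pi_gt_three
  nlinarith

lemma SLG_eq' {l : ℝ} (hl : 0 < l) (p : Fin 3 → ℤ) :
    SLG (fun r => Jgd (r ^ 2)) (2 * Real.pi * l) p = if p = 0 then 0 else Jgd (l ^ 2 * ksq p) := by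
  unfold SLG
  split_ifs with h0
  · rfl
  · have hpi := Real.pi_pos
    rw [F2b_nr_mul (by positivity)]
    have h1 : (2 * Real.pi * l * Real.sqrt (mom2 p)) ^ 2 = l ^ 2 * ksq p := by
      rw [mul_pow, Real.sq_sqrt (mom2_nonneg p)]
      unfold ksq
      ring
    show Jgd ((2 * Real.pi * l * Real.sqrt (mom2 p)) ^ 2) = _
    rw [h1]

lemma X_summable {l : ℝ} (hl : 0 < l) :
    Summable fun p : Fin 3 → ℤ => if p = 0 then 0 else Jgd (l ^ 2 * ksq p) :=
  (SLS_summable hl).congr fun p => SLG_eq' hl p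

lemma X_SLS {l : ℝ} (hl : 0 < l) :
    SLS l = ∑' p : Fin 3 → ℤ, if p = 0 then 0 else Jgd (l ^ 2 * ksq p) :=
  tsum_congr fun p => SLG_eq' hl p

/-- upper bound of the difference -/
theorem X_LS_up {t l κ : ℝ} (ht : 0 < t) (hl : 0 < l) (hκ : 0 < κ) (hκ4 : κ ≤ 1 / 4) :
    LS t 0 (8 * Real.pi / l ^ 2) - LS t (-κ) (8 * Real.pi / l ^ 2)
      ≤ κ * (1 + 4 * κ) * SLS l := by
  have hpi := Real.pi_pos
  have hpi3 := Real.pi_gt_three
  have hG : 0 ≤ 8 * Real.pi / l ^ 2 := by positivity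
  have hl1 : -(2 * Real.pi ^ 2) ≤ -κ := by nlinarith
  have hl0 : -(2 * Real.pi ^ 2) ≤ (0:ℝ) := by nlinarith
  have s1 := summable_LSM ht hl0 hG
  have s2 := summable_LSM ht hl1 hG
  unfold LS
  rw [← s1.tsum_sub s2, X_SLS hl, ← tsum_mul_left]
  refine (s1.sub s2).tsum_le_tsum (fun p => ?_) ((X_summable hl).mul_left _)
  by_cases hp : p = 0
  · simp [hp]
  · simp only [if_neg hp]
    have hk := X_ksq_ge_one hp
    have h1 := X_up1 hl hκ.le (show κ < ksq p by linarith)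
    have h2 := X_up2 hl hκ.le hκ4 hk
    have he0 := sq_nonneg (et t p)
    have he1 : et t p ^ 2 ≤ 1 := by
      rw [Mul_et_sq, Real.exp_le_one_iff]
      have := mul_nonneg ht.le (ksq_nonneg p)
      linarith
    have h3 : 0 ≤ Jgd (l ^ 2 * (ksq p - κ)) :=
      (Jgd_pos (mul_pos (by positivity) (by linarith))).le
    rw [add_zero, ← sub_eq_add_neg]
    calc et t p ^ 2 * (epsf (8 * Real.pi / l ^ 2) (ksq p) - ksq p - 8 * Real.pi / l ^ 2)
          - et t p ^ 2 * (epsf (8 * Real.pi / l ^ 2) (ksq p - κ) - (ksq p - κ)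
            - 8 * Real.pi / l ^ 2)
        = et t p ^ 2 * ((epsf (8 * Real.pi / l ^ 2) (ksq p) - ksq p - 8 * Real.pi / l ^ 2)
          - (epsf (8 * Real.pi / l ^ 2) (ksq p - κ) - (ksq p - κ) - 8 * Real.pi / l ^ 2)) := by
          ring
      _ ≤ et t p ^ 2 * (κ * Jgd (l ^ 2 * (ksq p - κ))) := mul_le_mul_of_nonneg_left h1 he0
      _ ≤ 1 * (κ * Jgd (l ^ 2 * (ksq p - κ))) := mul_le_mul_of_nonneg_right he1 (by positivity)
      _ = κ * Jgd (l ^ 2 * (ksq p - κ)) := one_mul _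
      _ ≤ κ * ((1 + 4 * κ) * Jgd (l ^ 2 * ksq p)) := mul_le_mul_of_nonneg_left h2 hκ.le
      _ = κ * (1 + 4 * κ) * Jgd (l ^ 2 * ksq p) := by ring

/-- lower bound of the difference -/
theorem X_LS_lo {t l κ : ℝ} (ht : 0 < t) (hl : 0 < l) (hκ : 0 < κ) (hκ4 : κ ≤ 1 / 4) :
    κ * (1 - 2 * κ) * (SLS l - ∑' p : Fin 3 → ℤ, if p = 0 then 0 else
        (1 - Real.exp (-(t * ksq p))) * Jgd (l ^ 2 * ksq p))
      ≤ LS t κ (8 * Real.pi / l ^ 2) - LS t 0 (8 * Real.pi / l ^ 2) := by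
  have hpi := Real.pi_pos
  have hpi3 := Real.pi_gt_three
  have hG : 0 ≤ 8 * Real.pi / l ^ 2 := by positivity
  have hl1 : -(2 * Real.pi ^ 2) ≤ κ := by nlinarith
  have hl0 : -(2 * Real.pi ^ 2) ≤ (0:ℝ) := by nlinarith
  have s1 := summable_LSM ht hl1 hG
  have s2 := summable_LSM ht hl0 hG
  have sX := X_summable hl
  have s3 : Summable fun p : Fin 3 → ℤ => if p = 0 then 0 else
      (1 - Real.exp (-(t * ksq p))) * Jgd (l ^ 2 * ksq p) := by
    refine Summable.of_nonneg_of_le (fun p => ?_) (fun p => ?_) sX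
    · split_ifs with hp
      · exact le_rfl
      · have h1 := (Jgd_pos (s := l ^ 2 * ksq p)
          (mul_pos (by positivity) (by have := X_ksq_ge_one hp; linarith))).le
        have h2 : Real.exp (-(t * ksq p)) ≤ 1 := by
          rw [Real.exp_le_one_iff]
          have := mul_nonneg ht.le (ksq_nonneg p)
          linarith
        exact mul_nonneg (by linarith) h1
    · split_ifs with hp
      · exact le_rfl
      · have h1 := (Jgd_pos (s := l ^ 2 * ksq p)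
          (mul_pos (by positivity) (by have := X_ksq_ge_one hp; linarith))).le
        have h2 := (Real.exp_pos (-(t * ksq p))).le
        exact mul_le_of_le_one_left h1 (by linarith)
  unfold LS
  rw [← s1.tsum_sub s2, X_SLS hl, ← sX.tsum_sub s3, ← tsum_mul_left]
  refine ((sX.sub s3).mul_left _).tsum_le_tsum (fun p => ?_) (s1.sub s2)
  by_cases hp : p = 0
  · simp [hp]
  · simp only [if_neg hp]
    have hk := X_ksq_ge_one hp
    have h1 := X_lo1 hl hκ (ksq_nonneg p)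
    have h2 := X_lo2 hl hκ.le hk
    have he0 := sq_nonneg (et t p)
    rw [add_zero]
    have e1 : Jgd (l ^ 2 * ksq p) - (1 - Real.exp (-(t * ksq p))) * Jgd (l ^ 2 * ksq p)
        = et t p ^ 2 * Jgd (l ^ 2 * ksq p) := by
      rw [Mul_et_sq]; ring
    rw [e1]
    calc κ * (1 - 2 * κ) * (et t p ^ 2 * Jgd (l ^ 2 * ksq p))
        = et t p ^ 2 * (κ * ((1 - 2 * κ) * Jgd (l ^ 2 * ksq p))) := by ring
      _ ≤ et t p ^ 2 * (κ * Jgd (l ^ 2 * (ksq p + κ))) :=
          mul_le_mul_of_nonneg_left (mul_le_mul_of_nonneg_left h2 hκ.le) he0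
      _ ≤ et t p ^ 2 * ((epsf (8 * Real.pi / l ^ 2) (ksq p + κ) - (ksq p + κ)
            - 8 * Real.pi / l ^ 2)
          - (epsf (8 * Real.pi / l ^ 2) (ksq p) - ksq p - 8 * Real.pi / l ^ 2)) :=
          mul_le_mul_of_nonneg_left h1 he0
      _ = _ := by ring

/-- majorant -/
noncomputable def Xg (r : ℝ) : ℝ := min (4 / Real.sqrt r) (32 * Real.pi ^ 2 / (r ^ 3 * Real.sqrt r))

lemma Xg_ant : ∀ r s : ℝ, 0 < r → r ≤ s → Xg s ≤ Xg r := by
  intro r s hr hrs
  have h1 : 0 < Real.sqrt r := Real.sqrt_pos.2 hr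
  have h2 : Real.sqrt r ≤ Real.sqrt s := Real.sqrt_le_sqrt hrs
  have h3 : r ^ 3 ≤ s ^ 3 := pow_le_pow_left₀ hr.le hrs 3
  unfold Xg
  refine min_le_min ?_ ?_
  · exact div_le_div_of_nonneg_left (by norm_num) h1 h2
  · refine div_le_div_of_nonneg_left (by positivity) (by positivity) ?_
    exact mul_le_mul h3 h2 h1.le (pow_nonneg (hr.le.trans hrs) 3)

lemma Xg_nonneg : ∀ r : ℝ, 0 < r → 0 ≤ Xg r := by
  intro r hr
  unfold Xg
  exact le_min (by positivity) (by positivity)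

lemma Xg_int : IntegrableOn (fun r => r ^ 2 * Xg (r / 3)) (Ioi (0:ℝ)) := by
  have hm : Measurable fun r : ℝ => r ^ 2 * Xg (r / 3) := by
    unfold Xg
    fun_prop
  have h1 : IntegrableOn (fun r => r ^ 2 * Xg (r / 3)) (Ioc (0:ℝ) 1) := by
    refine Measure.integrableOn_of_bounded (M := 12) (by simp) hm.aestronglyMeasurable ?_
    refine (ae_restrict_iff' measurableSet_Ioc).2 (Eventually.of_forall fun r hr => ?_)
    have hr0 : 0 < r := hr.1
    have hr1 : r ≤ 1 := hr.2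
    rw [Real.norm_of_nonneg (mul_nonneg (sq_nonneg r) (Xg_nonneg _ (by positivity)))]
    have h2 : Xg (r / 3) ≤ 4 / Real.sqrt (r / 3) := min_le_left _ _
    have h3 : r / 3 ≤ Real.sqrt (r / 3) := by
      refine Real.le_sqrt_of_sq_le ?_
      nlinarith
    have h4 : 4 / Real.sqrt (r / 3) ≤ 4 / (r / 3) :=
      div_le_div_of_nonneg_left (by norm_num) (by positivity) h3
    calc r ^ 2 * Xg (r / 3) ≤ r ^ 2 * (4 / (r / 3)) :=
          mul_le_mul_of_nonneg_left (h2.trans h4) (sq_nonneg r)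
      _ = 12 * r := by field_simp; ring
      _ ≤ 12 := by linarith
  have h2 : IntegrableOn (fun r => r ^ 2 * Xg (r / 3)) (Ioi (1:ℝ)) := by
    have h3 : IntegrableOn (fun r : ℝ => 2000 * Real.pi ^ 2 * r ^ (-(3:ℝ) / 2)) (Ioi (1:ℝ)) :=
      (integrableOn_Ioi_rpow_of_lt (by norm_num) one_pos).const_mul _
    refine h3.mono' hm.aestronglyMeasurable
      ((ae_restrict_iff' measurableSet_Ioi).2 (Eventually.of_forall fun r hr => ?_))
    have hr1 : 1 < r := hr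
    have hr0 : 0 < r := by linarith
    rw [Real.norm_of_nonneg (mul_nonneg (sq_nonneg r) (Xg_nonneg _ (by positivity)))]
    have h4 : Xg (r / 3) ≤ 32 * Real.pi ^ 2 / ((r / 3) ^ 3 * Real.sqrt (r / 3)) := min_le_right _ _
    have h5 : Real.sqrt r / 2 ≤ Real.sqrt (r / 3) := by
      refine Real.le_sqrt_of_sq_le ?_
      rw [div_pow, Real.sq_sqrt hr0.le]
      linarith
    have hsr : 0 < Real.sqrt r := Real.sqrt_pos.2 hr0
    have h6 : 32 * Real.pi ^ 2 / ((r / 3) ^ 3 * Real.sqrt (r / 3))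
        ≤ 32 * Real.pi ^ 2 / ((r / 3) ^ 3 * (Real.sqrt r / 2)) := by
      refine div_le_div_of_nonneg_left (by positivity) (by positivity) ?_
      exact mul_le_mul_of_nonneg_left h5 (by positivity)
    have h7 : r ^ (-(3:ℝ) / 2) = 1 / (r * Real.sqrt r) := by
      rw [Real.sqrt_eq_rpow]
      nth_rewrite 2 [← Real.rpow_one r]
      rw [← Real.rpow_add hr0, one_div, ← Real.rpow_neg hr0.le]
      norm_num
    rw [h7]
    calc r ^ 2 * Xg (r / 3) ≤ r ^ 2 * (32 * Real.pi ^ 2 / ((r / 3) ^ 3 * (Real.sqrt r / 2))) :=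
          mul_le_mul_of_nonneg_left (h4.trans h6) (sq_nonneg r)
      _ = 1728 * Real.pi ^ 2 * (1 / (r * Real.sqrt r)) := by field_simp; ring
      _ ≤ 2000 * Real.pi ^ 2 * (1 / (r * Real.sqrt r)) := by
          have h8 : 0 ≤ Real.pi ^ 2 * (1 / (r * Real.sqrt r)) := by positivity
          nlinarith only [h8]
  rw [← Ioc_union_Ioi_eq_Ioi zero_le_one]
  exact h1.union h2

lemma X_min {σ r : ℝ} (hσ : 0 ≤ σ) (hr : 0 < r) :
    1 - Real.exp (-(σ ^ 4 * r ^ 2)) ≤ σ * Real.sqrt r := by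
  have h0 : 0 ≤ σ * Real.sqrt r := by positivity
  have h1 := Real.exp_pos (-(σ ^ 4 * r ^ 2))
  rcases le_or_gt 1 (σ * Real.sqrt r) with h | h
  · linarith
  · have h2 := Real.add_one_le_exp (-(σ ^ 4 * r ^ 2))
    have h3 : σ ^ 4 * r ^ 2 = (σ * Real.sqrt r) ^ 4 := by
      rw [mul_pow, show Real.sqrt r ^ 4 = (Real.sqrt r ^ 2) ^ 2 by ring, Real.sq_sqrt hr.le]
    have h4 : (σ * Real.sqrt r) ^ 4 ≤ σ * Real.sqrt r := by
      calc (σ * Real.sqrt r) ^ 4 = (σ * Real.sqrt r) * (σ * Real.sqrt r) ^ 3 := by ring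
        _ ≤ (σ * Real.sqrt r) * 1 := mul_le_mul_of_nonneg_left (pow_le_one₀ h0 h.le) h0
        _ = _ := mul_one _
    linarith

/-- the cutoff error -/
theorem X_cut : ∃ C : ℝ, 0 < C ∧ ∀ l σ : ℝ, 0 < l → 0 ≤ σ →
    l ^ 3 * (∑' p : Fin 3 → ℤ, if p = 0 then 0 else
        (1 - Real.exp (-((l ^ 2 * σ ^ 4) * ksq p))) * Jgd (l ^ 2 * ksq p)) ≤ C * σ := by
  have hpi := Real.pi_pos
  set I : ℝ := sig * ∫ r in Ioi (0:ℝ), r ^ 2 * Xg (r / 3) with hI
  have hI0 : 0 ≤ I := by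
    rw [hI]
    refine mul_nonneg sig_pos.le (setIntegral_nonneg measurableSet_Ioi fun r hr => ?_)
    have hr0 : 0 < r := hr
    exact mul_nonneg (sq_nonneg r) (Xg_nonneg _ (by positivity))
  refine ⟨1 / (2 * Real.pi) ^ 3 * I + 1, by positivity, fun l σ hl hσ => ?_⟩
  have hh : 0 < 2 * Real.pi * l := by positivity
  have h1 := SL_le Xg_ant Xg_nonneg Xg_int hh
  have h2 := SL_summable Xg_ant Xg_nonneg Xg_int hh
  have h3 : (∑' p : Fin 3 → ℤ, if p = 0 then 0 else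
        (1 - Real.exp (-((l ^ 2 * σ ^ 4) * ksq p))) * Jgd (l ^ 2 * ksq p))
      ≤ σ * ∑' p, SLG Xg (2 * Real.pi * l) p := by
    rw [← tsum_mul_left]
    refine Summable.tsum_le_tsum (fun p => ?_) ?_ (h2.mul_left _)
    · unfold SLG
      split_ifs with hp
      · simp
      · have hm : 0 < Real.sqrt (mom2 p) := Real.sqrt_pos.2 (one_pos.trans_le (SL_mom2_ge_one hp))
        rw [F2b_nr_mul hh.le]
        set r : ℝ := 2 * Real.pi * l * Real.sqrt (mom2 p) with hr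
        have hr0 : 0 < r := by rw [hr]; positivity
        have hr2 : r ^ 2 = l ^ 2 * ksq p := by
          rw [hr, mul_pow, Real.sq_sqrt (mom2_nonneg p)]
          unfold ksq
          ring
        have e1 : (l ^ 2 * σ ^ 4) * ksq p = σ ^ 4 * r ^ 2 := by rw [hr2]; ring
        rw [e1, ← hr2]
        have h4 := X_min hσ hr0
        have h5 := (Jgd_pos (s := r ^ 2) (by positivity)).le
        have h6 : Real.sqrt r * Jgd (r ^ 2) ≤ Xg r := by
          have hsr : 0 < Real.sqrt r := Real.sqrt_pos.2 hr0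
          have hsq : Real.sqrt r ^ 2 = r := Real.sq_sqrt hr0.le
          unfold Xg
          refine le_min ?_ ?_
          · have h7 := Jgd_le_sqrt (s := r ^ 2) (by positivity)
            rw [Real.sqrt_sq hr0.le] at h7
            calc Real.sqrt r * Jgd (r ^ 2) ≤ Real.sqrt r * (4 / r) :=
                  mul_le_mul_of_nonneg_left h7 hsr.le
              _ = 4 / Real.sqrt r := by
                  rw [mul_div_assoc', div_eq_div_iff hr0.ne' hsr.ne']
                  nlinarith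
          · have h7 := Jgd_le_sq (s := r ^ 2) (by positivity)
            calc Real.sqrt r * Jgd (r ^ 2) ≤ Real.sqrt r * (32 * Real.pi ^ 2 / (r ^ 2) ^ 2) :=
                  mul_le_mul_of_nonneg_left h7 hsr.le
              _ = 32 * Real.pi ^ 2 / (r ^ 3 * Real.sqrt r) := by
                  rw [mul_div_assoc', div_eq_div_iff (by positivity) (by positivity)]
                  have e3 : Real.sqrt r * (32 * Real.pi ^ 2) * (r ^ 3 * Real.sqrt r)
                      = 32 * Real.pi ^ 2 * r ^ 3 * (Real.sqrt r ^ 2) := by ring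
                  rw [e3, hsq]
                  ring
        calc (1 - Real.exp (-(σ ^ 4 * r ^ 2))) * Jgd (r ^ 2)
            ≤ (σ * Real.sqrt r) * Jgd (r ^ 2) := mul_le_mul_of_nonneg_right h4 h5
          _ = σ * (Real.sqrt r * Jgd (r ^ 2)) := by ring
          _ ≤ σ * Xg r := mul_le_mul_of_nonneg_left h6 hσ
    · refine Summable.of_nonneg_of_le (fun p => ?_) (fun p => ?_) (X_summable hl)
      · split_ifs with hp
        · exact le_rfl
        · have h1 := (Jgd_pos (s := l ^ 2 * ksq p)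
            (mul_pos (by positivity) (by have := X_ksq_ge_one hp; linarith))).le
          have h2 : Real.exp (-((l ^ 2 * σ ^ 4) * ksq p)) ≤ 1 := by
            rw [Real.exp_le_one_iff]
            have := ksq_nonneg p
            have h9 : 0 ≤ (l ^ 2 * σ ^ 4) * ksq p := by positivity
            linarith
          exact mul_nonneg (by linarith) h1
      · split_ifs with hp
        · exact le_rfl
        · have h1 := (Jgd_pos (s := l ^ 2 * ksq p)
            (mul_pos (by positivity) (by have := X_ksq_ge_one hp; linarith))).le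
          have h2 := (Real.exp_pos (-((l ^ 2 * σ ^ 4) * ksq p))).le
          exact mul_le_of_le_one_left h1 (by linarith)
  have h4 : (2 * Real.pi * l) ^ 3 = (2 * Real.pi) ^ 3 * l ^ 3 := by ring
  rw [h4] at h1
  have h5 : l ^ 3 * ∑' p, SLG Xg (2 * Real.pi * l) p ≤ 1 / (2 * Real.pi) ^ 3 * I := by
    rw [one_div, ← div_eq_inv_mul, le_div_iff₀ (by positivity)]
    calc l ^ 3 * (∑' p, SLG Xg (2 * Real.pi * l) p) * (2 * Real.pi) ^ 3
        = (2 * Real.pi) ^ 3 * l ^ 3 * ∑' p, SLG Xg (2 * Real.pi * l) p := by ring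
      _ ≤ I := h1
  calc l ^ 3 * _ ≤ l ^ 3 * (σ * ∑' p, SLG Xg (2 * Real.pi * l) p) :=
        mul_le_mul_of_nonneg_left h3 (by positivity)
    _ = σ * (l ^ 3 * ∑' p, SLG Xg (2 * Real.pi * l) p) := by ring
    _ ≤ σ * (1 / (2 * Real.pi) ^ 3 * I) := mul_le_mul_of_nonneg_left h5 hσ
    _ ≤ (1 / (2 * Real.pi) ^ 3 * I + 1) * σ := by nlinarith

end Pool.Agent.Lib.MP_4952d6_mp.LB

end

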