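import Pool.Agent.Lib.MP_4952d6_mp.Pk.G08
import Pool.Agent.Lib.MP_4952d6_mp.Pk.G29
import Pool.Agent.Lib.MP_4952d6_mp.Pk.G34
import Pool.Agent.Lib.MP_4952d6_mp.Pm.M13

/-! Merged modules (to save import time): M.X2, M.Grd. -/

/-! ### M.X2 -/

section

/-!
# MX: the depletion of a ground state on the torus

`κ D` is squeezed between the differences `(1/2) (LS t κ G - LS t 0 G)` and `(1/2) (LS t 0 G - LS t (-κ) G)` up to the errors of (ML), (MU), (MV).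
-/

set_option autoImplicit false
set_option linter.unusedSectionVars false
set_option linter.unusedVariables false
open MeasureTheory Function Filter Topology Set
open scoped ENNReal

namespace Pool.Agent.Lib.MP_4952d6_mp.LB

open Pool.Agent.Lib.MP_4952d6_mp.M

lemma X_LS_ge {t G : ℝ} (ht : 0 < t) (hG : 0 ≤ G) :
    -(G * ∑' p : Fin 3 → ℤ, et t p ^ 2) ≤ LS t 0 G := by
  have hl0 : -(2 * Real.pi ^ 2) ≤ (0:ℝ) := by nlinarith [sq_nonneg Real.pi]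
  have s1 := summable_LSM ht hl0 hG
  have s2 := (PreA_summable_et ht).mul_left (-G)
  have h1 : -(G * ∑' p : Fin 3 → ℤ, et t p ^ 2) = ∑' p : Fin 3 → ℤ, -G * et t p ^ 2 := by
    rw [tsum_mul_left]; ring
  rw [h1]
  unfold LS
  refine s2.tsum_le_tsum (fun p => ?_) s1
  have he0 := sq_nonneg (et t p)
  split_ifs with hp
  · have := mul_nonneg hG he0
    linarith
  · have h2 := epsf_ge hG (add_nonneg (ksq_nonneg p) le_rfl)
    have h3 : 0 ≤ et t p ^ 2 * (epsf G (ksq p + 0) - (ksq p + 0)) :=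
      mul_nonneg he0 (by linarith)
    nlinarith only [h3]

/-- real arithmetic: upper bound of `d = l³ D`, first form -/
lemma X_real1 {κ l Xi w D LS0 LS1 u q CL CV d e1 : ℝ} (hκ : 0 < κ) (hl : 0 < l)
    (hX : Xi = 1 / l ^ 5) (hw : w = 1 / l ^ 2) (hd : d = l ^ 3 * D) (hD : 0 ≤ D)
    (hκl : κ ≤ l ^ 2) (hq : 0 < q) (hu : 0 ≤ u) (huq : u ≤ q) (hCL : 0 ≤ CL) (hCV : 0 ≤ CV)
    (hdiff : 1 / 2 * (LS0 - LS1) * l ^ 3 ≤ κ * e1)
    (hup : 1 / 2 * LS1 - CL * u * (Xi + w * D) + κ * D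
      ≤ 1 / 2 * LS0 + Xi * (CV * (κ ^ 3 + q) + 2 * q)) :
    d ≤ e1 + CV * κ + (CV + 2 + CL) * (q / κ ^ 2) + CL * (q / κ ^ 2) * d := by
  have hl3 : 0 < l ^ 3 := by positivity
  have hd0 : 0 ≤ d := by rw [hd]; positivity
  have h1 := mul_le_mul_of_nonneg_left hup hl3.le
  have hXl : l ^ 3 * Xi = 1 / l ^ 2 := by rw [hX]; field_simp
  have hwk : 1 / l ^ 2 ≤ 1 / κ := one_div_le_one_div_of_le hκ hκl
  have hw0 : 0 ≤ 1 / l ^ 2 := by positivity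
  have h2 : κ * d ≤ κ * e1 + 1 / l ^ 2 * (CV * (κ ^ 3 + q) + 2 * q)
      + CL * u * (1 / l ^ 2) * (1 + d) := by
    have h3 : l ^ 3 * (1 / 2 * LS1 - CL * u * (Xi + w * D) + κ * D)
        = l ^ 3 * (1 / 2 * LS1) - CL * u * (l ^ 3 * Xi + w * d) + κ * d := by
      rw [hd]; ring
    have h4 : l ^ 3 * (1 / 2 * LS0 + Xi * (CV * (κ ^ 3 + q) + 2 * q))
        = l ^ 3 * (1 / 2 * LS0) + (l ^ 3 * Xi) * (CV * (κ ^ 3 + q) + 2 * q) := by ring
    rw [h3, h4, hXl, hw] at h1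
    linarith only [h1, hdiff]
  have h5 : 1 / l ^ 2 * (CV * (κ ^ 3 + q) + 2 * q) ≤ 1 / κ * (CV * (κ ^ 3 + q) + 2 * q) :=
    mul_le_mul_of_nonneg_right hwk (by positivity)
  have h6 : CL * u * (1 / l ^ 2) * (1 + d) ≤ CL * q * (1 / κ) * (1 + d) := by
    refine mul_le_mul_of_nonneg_right ?_ (by linarith)
    exact mul_le_mul (mul_le_mul_of_nonneg_left huq hCL) hwk hw0 (by positivity)
  have h7 : κ * d ≤ κ * (e1 + CV * κ + (CV + 2 + CL) * (q / κ ^ 2) + CL * (q / κ ^ 2) * d) := by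
    have h8 : κ * (e1 + CV * κ + (CV + 2 + CL) * (q / κ ^ 2) + CL * (q / κ ^ 2) * d)
        = κ * e1 + 1 / κ * (CV * (κ ^ 3 + q) + 2 * q) + CL * q * (1 / κ) * (1 + d) := by
      field_simp
      ring
    rw [h8]
    linarith
  exact le_of_mul_le_mul_left h7 hκ

/-- real arithmetic: lower bound -/
lemma X_real2 {κ l Xi w D LS0 LS1 u q CL CV d e1 : ℝ} (hκ : 0 < κ) (hl : 0 < l)
    (hX : Xi = 1 / l ^ 5) (hw : w = 1 / l ^ 2) (hd : d = l ^ 3 * D) (hD : 0 ≤ D)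
    (hκl : κ ≤ l ^ 2) (hq : 0 < q) (hu : 0 ≤ u) (huq : u ≤ q) (hCL : 0 ≤ CL) (hCV : 0 ≤ CV)
    (hdiff : κ * e1 ≤ 1 / 2 * (LS1 - LS0) * l ^ 3)
    (hlo : 1 / 2 * LS1 - CL * u * (Xi + w * D) - κ * D
      ≤ 1 / 2 * LS0 + Xi * (CV * (κ ^ 3 + q) + 2 * q)) :
    e1 ≤ d + CV * κ + (CV + 2 + CL) * (q / κ ^ 2) + CL * (q / κ ^ 2) * d := by
  have hl3 : 0 < l ^ 3 := by positivity
  have hd0 : 0 ≤ d := by rw [hd]; positivity
  have h1 := mul_le_mul_of_nonneg_left hlo hl3.le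
  have hXl : l ^ 3 * Xi = 1 / l ^ 2 := by rw [hX]; field_simp
  have hwk : 1 / l ^ 2 ≤ 1 / κ := one_div_le_one_div_of_le hκ hκl
  have hw0 : 0 ≤ 1 / l ^ 2 := by positivity
  have h2 : κ * e1 ≤ κ * d + 1 / l ^ 2 * (CV * (κ ^ 3 + q) + 2 * q)
      + CL * u * (1 / l ^ 2) * (1 + d) := by
    have h3 : l ^ 3 * (1 / 2 * LS1 - CL * u * (Xi + w * D) - κ * D)
        = l ^ 3 * (1 / 2 * LS1) - CL * u * (l ^ 3 * Xi + w * d) - κ * d := by
      rw [hd]; ring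
    have h4 : l ^ 3 * (1 / 2 * LS0 + Xi * (CV * (κ ^ 3 + q) + 2 * q))
        = l ^ 3 * (1 / 2 * LS0) + (l ^ 3 * Xi) * (CV * (κ ^ 3 + q) + 2 * q) := by ring
    rw [h3, h4, hXl, hw] at h1
    linarith only [h1, hdiff]
  have h5 : 1 / l ^ 2 * (CV * (κ ^ 3 + q) + 2 * q) ≤ 1 / κ * (CV * (κ ^ 3 + q) + 2 * q) :=
    mul_le_mul_of_nonneg_right hwk (by positivity)
  have h6 : CL * u * (1 / l ^ 2) * (1 + d) ≤ CL * q * (1 / κ) * (1 + d) := by
    refine mul_le_mul_of_nonneg_right ?_ (by linarith)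
    exact mul_le_mul (mul_le_mul_of_nonneg_left huq hCL) hwk hw0 (by positivity)
  have h7 : κ * e1 ≤ κ * (d + CV * κ + (CV + 2 + CL) * (q / κ ^ 2) + CL * (q / κ ^ 2) * d) := by
    have h8 : κ * (d + CV * κ + (CV + 2 + CL) * (q / κ ^ 2) + CL * (q / κ ^ 2) * d)
        = κ * d + 1 / κ * (CV * (κ ^ 3 + q) + 2 * q) + CL * q * (1 / κ) * (1 + d) := by
      field_simp
      ring
    rw [h8]
    linarith
  exact le_of_mul_le_mul_left h7 hκ

/-- real arithmetic: conclusion -/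
lemma X_real3 {κ q CL CV CC Cb s d : ℝ} (hκ : 0 < κ) (hκ1 : κ ≤ 1 / 64) (hq : 0 < q)
    (hq1 : q ≤ 1)
    (hCL : 0 ≤ CL) (hCV : 0 ≤ CV) (hCC : 0 ≤ CC) (hs0 : 0 ≤ s) (hsb : s ≤ Cb) (hd0 : 0 ≤ d)
    (hη1 : q / κ ^ 2 ≤ 1) (hη2 : CL * (q / κ ^ 2) ≤ 1 / 2)
    (hup : d ≤ (1 + 4 * κ) * s + CV * κ + (CV + 2 + CL) * (q / κ ^ 2) + CL * (q / κ ^ 2) * d)
    (hlo : (1 - 2 * κ) * (s - CC * q) ≤ d + CV * κ + (CV + 2 + CL) * (q / κ ^ 2)
      + CL * (q / κ ^ 2) * d) :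
    |d - s| ≤ (4 * Cb + 2 * CV + 2 + CL + CL * (4 * Cb + 4 * CV + 4 + 2 * CL) + CC)
      * (Real.sqrt κ + q / κ ^ 3) := by
  have hCb : 0 ≤ Cb := hs0.trans hsb
  obtain ⟨η, hη⟩ : ∃ η : ℝ, η = q / κ ^ 2 := ⟨_, rfl⟩
  rw [← hη] at hη1 hη2 hup hlo
  have hη0 : 0 < η := by rw [hη]; positivity
  have hdm : d ≤ 4 * Cb + 4 * CV + 4 + 2 * CL := by
    have h1 : CL * η * d ≤ 1 / 2 * d := mul_le_mul_of_nonneg_right hη2 hd0
    have h2 : (CV + 2 + CL) * η ≤ (CV + 2 + CL) * 1 :=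
      mul_le_mul_of_nonneg_left hη1 (by positivity)
    have h3 : CV * κ ≤ CV * 1 := mul_le_mul_of_nonneg_left (by linarith) hCV
    have h4 : (1 + 4 * κ) * s ≤ 2 * Cb := mul_le_mul (by linarith) hsb hs0 (by norm_num)
    linarith
  have h5 : CL * η * d ≤ CL * (4 * Cb + 4 * CV + 4 + 2 * CL) * η := by
    calc CL * η * d = CL * d * η := by ring
      _ ≤ CL * (4 * Cb + 4 * CV + 4 + 2 * CL) * η :=
        mul_le_mul_of_nonneg_right (mul_le_mul_of_nonneg_left hdm hCL) hη0.le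
  have hκs : κ ≤ Real.sqrt κ := by
    refine Real.le_sqrt_of_sq_le ?_
    nlinarith
  have hκ2 : κ ^ 2 ≤ 1 := pow_le_one₀ hκ.le (by linarith)
  have hqη : q ≤ η := by
    rw [hη, le_div_iff₀ (by positivity)]
    nlinarith
  have hη3 : η ≤ q / κ ^ 3 := by
    rw [hη]
    refine div_le_div_of_nonneg_left hq.le (by positivity) ?_
    calc κ ^ 3 = κ * κ ^ 2 := by ring
      _ ≤ 1 * κ ^ 2 := mul_le_mul_of_nonneg_right (by linarith) (by positivity)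
      _ = κ ^ 2 := one_mul _
  have hsum : κ + η ≤ Real.sqrt κ + q / κ ^ 3 := by linarith
  have hκη : 0 ≤ κ + η := by positivity
  obtain ⟨K, hK⟩ : ∃ K : ℝ, K = 4 * Cb + 2 * CV + 2 + CL + CL * (4 * Cb + 4 * CV + 4 + 2 * CL) + CC :=
    ⟨_, rfl⟩
  rw [← hK]
  have hK0 : 0 ≤ K := by rw [hK]; positivity
  have hKK : K * (κ + η) ≤ K * (Real.sqrt κ + q / κ ^ 3) := mul_le_mul_of_nonneg_left hsum hK0
  refine le_trans ?_ hKK
  have p1 : 0 ≤ Cb * κ := by positivity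
  have p2 : 0 ≤ Cb * η := by positivity
  have p3 : 0 ≤ CV * κ := by positivity
  have p4 : 0 ≤ CV * η := by positivity
  have p5 : 0 ≤ CL * κ := by positivity
  have p6 : 0 ≤ CL * η := by positivity
  have p7 : 0 ≤ CC * κ := by positivity
  have p8 : 0 ≤ CC * η := by positivity
  have p9 : 0 ≤ CL * (4 * Cb + 4 * CV + 4 + 2 * CL) * κ := by positivity
  have p10 : κ * s ≤ κ * Cb := mul_le_mul_of_nonneg_left hsb hκ.le
  rw [abs_le]
  constructor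
  · have h6 : CC * q ≤ CC * η := mul_le_mul_of_nonneg_left hqη hCC
    have h7 : 0 ≤ 2 * κ * (CC * q) := by positivity
    rw [hK]
    linarith only [hlo, h5, h6, h7, p1, p2, p3, p4, p5, p6, p7, p8, p9, p10, hκ, hη0]
  · rw [hK]
    linarith only [hup, h5, p1, p2, p3, p4, p5, p6, p7, p8, p9, p10, hκ, hη0]

theorem mx_final (hL : MLStatement) (hU : MUStatement) (hV : MVStatement) : MXStatement := by
  obtain ⟨MU, hU⟩ := hU
  obtain ⟨MV, CV, cV, hCV, hcV, hV⟩ := hV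
  refine ⟨MU + MV + 2, fun θ CM => ?_⟩
  obtain ⟨CL, u₀, hCL, hu₀, hL⟩ := hL θ CM
  obtain ⟨cU, hcU, hU⟩ := hU θ
  obtain ⟨CA, hCA, hA⟩ := limA
  obtain ⟨CC, hCC, hcut⟩ := X_cut
  obtain ⟨Cb, hCb, hsb⟩ := sl_bdd
  set c₀ : ℝ := min (min (min cU cV) (min (u₀ / 2) (1 / 2)))
    (min (1 / (2 * (CL + 1))) (1 / (2 * (CA + 1)))) with hc₀d
  have hc₀ : 0 < c₀ := by
    rw [hc₀d]
    exact lt_min (lt_min (lt_min hcU hcV) (lt_min (by positivity) (by norm_num)))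
      (lt_min (by positivity) (by positivity))
  have c1 : c₀ ≤ cU := (min_le_left _ _).trans ((min_le_left _ _).trans (min_le_left _ _))
  have c2 : c₀ ≤ cV := (min_le_left _ _).trans ((min_le_left _ _).trans (min_le_right _ _))
  have c3 : c₀ ≤ u₀ / 2 := (min_le_left _ _).trans ((min_le_right _ _).trans (min_le_left _ _))
  have c4 : c₀ ≤ 1 / 2 := (min_le_left _ _).trans ((min_le_right _ _).trans (min_le_right _ _))
  have c5 : c₀ ≤ 1 / (2 * (CL + 1)) := (min_le_right _ _).trans (min_le_left _ _)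
  have c6 : c₀ ≤ 1 / (2 * (CA + 1)) := (min_le_right _ _).trans (min_le_right _ _)
  refine ⟨4 * Cb + 2 * CV + 2 + CL + CL * (4 * Cb + 4 * CV + 4 + 2 * CL) + CC, c₀,
    by positivity, hc₀, ?_⟩
  intro κ q hκ hq hqκ N W f Q R₀ R a hsc hN ha8 hκl hR 𝒱 𝒱₂ hm₂ hV1 hV2 hζ ψ hψ hmin hloc
  have hpi := Real.pi_pos
  have ha : 0 < a := hsc.a_pos
  obtain ⟨l, hl⟩ : ∃ l : ℝ, l = lq q a := ⟨_, rfl⟩
  have hlq : l = a / q ^ 200 := hl
  rw [← hl] at hκl ⊢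
  have hl0 : 0 < l := by rw [hlq]; positivity
  have hl8 : l ≤ 1 / 8 := by
    rw [hlq, div_le_iff₀ (by positivity)]
    linarith
  have hκ64 : κ ≤ 1 / 64 := by
    refine hκl.trans ?_
    calc l ^ 2 ≤ (1 / 8) ^ 2 := pow_le_pow_left₀ hl0.le hl8 2
      _ = 1 / 64 := by norm_num
  have hκ1 : κ ≤ 1 := by linarith
  have hpow : ∀ k n : ℕ, k ≤ n → κ ^ n ≤ κ ^ k := fun k n h =>
    pow_le_pow_of_le_one hκ.le hκ1 h
  have hqU : q ≤ cU * κ ^ MU :=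
    hqκ.trans (mul_le_mul c1 (hpow _ _ (by omega)) (by positivity) hcU.le)
  have hqV : q ≤ cV * κ ^ MV :=
    hqκ.trans (mul_le_mul c2 (hpow _ _ (by omega)) (by positivity) hcV.le)
  have hq2 : q ≤ c₀ * κ ^ 2 :=
    hqκ.trans (mul_le_mul_of_nonneg_left (hpow _ _ (by omega)) hc₀.le)
  have hqc : q ≤ c₀ := by
    refine hq2.trans (mul_le_of_le_one_right hc₀.le (pow_le_one₀ hκ.le hκ1))
  have hq12 : q ≤ 1 / 2 := hqc.trans c4
  have hq1 : q ≤ 1 := by linarith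
  have hη : q / κ ^ 2 ≤ c₀ := by rwa [div_le_iff₀ (by positivity)]
  -- the parameter `u`
  obtain ⟨u, hu⟩ : ∃ u : ℝ, u = q ^ 10 := ⟨_, rfl⟩
  have hu0 : 0 < u := by rw [hu]; positivity
  have huq : u ≤ q := by
    rw [hu]
    calc q ^ 10 = q * q ^ 9 := by ring
      _ ≤ q * 1 := mul_le_mul_of_nonneg_left (pow_le_one₀ hq.le hq1) hq.le
      _ = q := mul_one _
  have huu : u < u₀ := by linarith
  have hu1 : u ≤ 1 := by linarith
  have hu20 : u ^ 20 = q ^ 200 := by rw [hu]; ring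
  have hu40 : u ^ 40 = q ^ 400 := by rw [hu]; ring
  have hu16 : u ^ 16 = q ^ 160 := by rw [hu]; ring
  have hal : a = l * u ^ 20 := by rw [hlq, hu20]; field_simp
  have hNl : (N : ℝ) = 1 / (l ^ 3 * u ^ 20) := by
    have h1 : (N : ℝ) * (l * u ^ 20) ^ 3 = u ^ 40 := by rw [← hal, hu40]; exact hN
    have h2 : (N : ℝ) * (l ^ 3 * u ^ 20) * u ^ 40 = 1 * u ^ 40 := by
      rw [one_mul]
      calc (N : ℝ) * (l ^ 3 * u ^ 20) * u ^ 40 = (N : ℝ) * (l * u ^ 20) ^ 3 := by ring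
        _ = u ^ 40 := h1
    rw [eq_div_iff (by positivity)]
    exact mul_right_cancel₀ (by positivity) h2
  have hNpos : (0:ℝ) < N := by rw [hNl]; positivity
  have hN2 : (2:ℝ) ≤ N := by
    rw [hNl, le_div_iff₀ (by positivity)]
    have h1 : l ^ 3 ≤ 1 / 512 := by
      calc l ^ 3 ≤ (1 / 8) ^ 3 := pow_le_pow_left₀ hl0.le hl8 3
        _ = 1 / 512 := by norm_num
    have h2 : u ^ 20 ≤ 1 := pow_le_one₀ hu0.le hu1
    have h3 : l ^ 3 * u ^ 20 ≤ 1 / 512 * 1 := mul_le_mul h1 h2 (by positivity) (by norm_num)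
    linarith
  have hNa : (N : ℝ) * a = 1 / l ^ 2 := by
    rw [hNl, hal]; field_simp
  have hX : (N : ℝ) ^ 2 * a * u ^ 20 = 1 / l ^ 5 := by
    rw [hNl, hal]; field_simp
  have hG : 8 * Real.pi * (N * a) = 8 * Real.pi / l ^ 2 := by rw [hNa]; ring
  -- time scale
  obtain ⟨t, ht⟩ : ∃ t : ℝ, t = (a / u ^ 16) ^ 2 := ⟨_, rfl⟩
  have hau : a / u ^ 16 = l * u ^ 4 := by
    rw [hal]; field_simp
  have htl : t = l ^ 2 * q ^ 80 := by
    rw [ht, hau, hu]; ring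
  have ht0 : 0 < t := by rw [htl]; positivity
  have hst : Real.sqrt t = l * u ^ 4 := by
    rw [ht, hau, Real.sqrt_sq (by positivity)]
  have ht1 : t ≤ 1 := by
    rw [htl]
    have h1 : l ^ 2 ≤ 1 := pow_le_one₀ hl0.le (by linarith)
    have h2 : q ^ 80 ≤ 1 := pow_le_one₀ hq.le hq1
    calc l ^ 2 * q ^ 80 ≤ 1 * 1 := mul_le_mul h1 h2 (by positivity) (by norm_num)
      _ = 1 := one_mul _
  set D : ℝ := ∑ i, nuQ (fc ψ) i with hD
  have hD0 : 0 ≤ D := Finset.sum_nonneg fun i _ => nuQ_nonneg _ _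
  -- upper bound of the energy
  obtain ⟨φ, hφ, hφE⟩ := hU κ q hκ hq hqU N W f Q R₀ R a hsc hN ha8 (by rw [← hl]; exact hκl) hR
    𝒱 𝒱₂ hm₂ hV2 (a * q ^ 201) (by positivity) hζ
  have hMV := hV κ q l hκ hq hqV hl0 hl8 hκl
  rw [← hl] at hφE
  set P : ℝ := 4 * Real.pi * (N * (N - 1)) * a
    + 4 * Real.sqrt Real.pi / u ^ 4 * (N ^ 2 * a * u ^ 20) with hP
  set LS0 : ℝ := LS t 0 (8 * Real.pi / l ^ 2) with hLS0
  set Xi : ℝ := 1 / l ^ 5 with hXi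
  have hXi0 : 0 < Xi := by positivity
  have hB : tE 𝒱 φ ≤ ENNReal.ofReal (P + (1 / 2 * LS0 + Xi * (CV * (κ ^ 3 + q) + 2 * q))) := by
    refine hφE.trans (ENNReal.ofReal_le_ofReal ?_)
    rw [← htl, ← hLS0] at hMV
    have e1 : (N : ℝ) ^ 2 * a * q ^ 200 = Xi := by rw [← hu20, hX]
    have e2 : (N : ℝ) ^ 2 * (a * q ^ 201) = Xi * q := by
      rw [← e1]; ring
    have e3 : u ^ 4 = q ^ 40 := by rw [hu]; ring
    rw [e1, e2, hP, hX, e3]
    have h1 := mul_le_mul_of_nonneg_left hMV hXi0.le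
    have h2 : Xi * (1 / 2 * l ^ 5 * LS0) = 1 / 2 * LS0 := by
      rw [hXi]; field_simp
    have h3 : Xi * (4 * Real.sqrt Real.pi / q ^ 40 + 1 / 2 * l ^ 5 * LS0 + CV * (κ ^ 3 + q))
        = 4 * Real.sqrt Real.pi / q ^ 40 * Xi + Xi * (1 / 2 * l ^ 5 * LS0)
          + Xi * (CV * (κ ^ 3 + q)) := by ring
    rw [h3, h2] at h1
    linarith
  -- positivity
  have hpos : 0 ≤ P + (1 / 2 * LS0 + Xi * (CV * (κ ^ 3 + q) + 2 * q)) := by
    have h1 := X_LS_ge ht0 (show 0 ≤ 8 * Real.pi / l ^ 2 by positivity)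
    obtain ⟨hA1, -⟩ := hA t ht0 ht1
    have h2 : 8 * Real.pi / l ^ 2 * (∑' p : Fin 3 → ℤ, et t p ^ 2)
        ≤ 8 * Real.pi / l ^ 2 * (CA * (Real.sqrt t)⁻¹ ^ 3) :=
      mul_le_mul_of_nonneg_left hA1 (by positivity)
    have h3 : 8 * Real.pi / l ^ 2 * (CA * (Real.sqrt t)⁻¹ ^ 3)
        = 8 * Real.pi * CA * (N ^ 2 * a) * u ^ 8 := by
      rw [hst]
      have e1 : (N : ℝ) ^ 2 * a = Xi / u ^ 20 := by
        rw [← hX]; field_simp
      rw [e1, hXi, inv_pow]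
      field_simp
    have h4 : CA * u ^ 8 ≤ 1 / 2 := by
      have e1 : u ^ 8 ≤ u := by
        calc u ^ 8 = u * u ^ 7 := by ring
          _ ≤ u * 1 := mul_le_mul_of_nonneg_left (pow_le_one₀ hu0.le hu1) hu0.le
          _ = u := mul_one _
      have e2 : u ^ 8 ≤ 1 / (2 * (CA + 1)) := by linarith
      calc CA * u ^ 8 ≤ (CA + 1) * (1 / (2 * (CA + 1))) :=
            mul_le_mul (by linarith) e2 (by positivity) (by positivity)
        _ = 1 / 2 := by field_simp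
    have h5 : 0 ≤ Real.pi * (N ^ 2 * a) := by positivity
    have h6 : 8 * Real.pi * CA * (N ^ 2 * a) * u ^ 8 ≤ 4 * (Real.pi * (N ^ 2 * a)) := by
      calc 8 * Real.pi * CA * (N ^ 2 * a) * u ^ 8
          = 8 * (Real.pi * (N ^ 2 * a)) * (CA * u ^ 8) := by ring
        _ ≤ 8 * (Real.pi * (N ^ 2 * a)) * (1 / 2) := mul_le_mul_of_nonneg_left h4 (by positivity)
        _ = _ := by ring
    have h7 : 2 * (Real.pi * ((N : ℝ) ^ 2 * a)) ≤ 4 * Real.pi * (N * (N - 1)) * a := by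
      have e1 : 0 ≤ Real.pi * a * (N * (N - 2)) :=
        mul_nonneg (by positivity) (mul_nonneg hNpos.le (by linarith))
      nlinarith only [e1]
    have h8 : 0 ≤ 4 * Real.sqrt Real.pi / u ^ 4 * ((N : ℝ) ^ 2 * a * u ^ 20) := by positivity
    have h9 : 0 ≤ Xi * (CV * (κ ^ 3 + q) + 2 * q) := by positivity
    rw [hP]
    linarith
  -- the two inequalities
  have hloc' : LocL CM u ((a / u ^ 16) ^ 2) ψ := by rw [hu16, hu]; exact hloc
  have hmain : ∀ lam : ℝ, -(2 * Real.pi ^ 2) ≤ lam → lam ≤ N * a →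
      1 / 2 * LS t lam (8 * Real.pi / l ^ 2) - CL * u * (Xi + 1 / l ^ 2 * D) - lam * D
        ≤ 1 / 2 * LS0 + Xi * (CV * (κ ^ 3 + q) + 2 * q) := by
    intro lam h1 h2
    have h3 := hL u hu0 huu N W f Q R₀ R a hsc (by rw [hu40]; exact hN) (by rw [hu20]; exact ha8)
      hR 𝒱 hV1 ψ hψ hloc' lam h1 h2
    have h4 := h3.trans ((hmin φ hφ).trans hB)
    rw [ENNReal.ofReal_le_ofReal_iff hpos, hG, hNa, ← ht, ← hD] at h4
    rw [hP, hX] at h4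
    linarith
  have hpi3 := Real.pi_gt_three
  have hκNa : κ ≤ N * a := by
    rw [hNa, le_div_iff₀ (by positivity)]
    have : l ^ 2 ≤ 1 := pow_le_one₀ hl0.le (by linarith)
    calc κ * l ^ 2 ≤ 1 * 1 := mul_le_mul hκ1 this (by positivity) (by norm_num)
      _ = 1 := one_mul _
  have hk1 : -(2 * Real.pi ^ 2) ≤ -κ := by nlinarith only [hpi3, hκ1]
  have hk2 : -(2 * Real.pi ^ 2) ≤ κ := by linarith only [hk1, hκ]
  have hm1 := hmain (-κ) hk1 (by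
    have : 0 < N * a := by positivity
    linarith)
  have hm2 := hmain κ hk2 hκNa
  have hκ4 : κ ≤ 1 / 4 := by linarith
  have d1 := X_LS_up ht0 hl0 hκ hκ4
  have d2 := X_LS_lo ht0 hl0 hκ hκ4
  have hcut' := hcut l (q ^ 20) hl0 (by positivity)
  have ht4 : l ^ 2 * (q ^ 20) ^ 4 = t := by rw [htl]; ring
  rw [ht4] at hcut'
  have hsl := sl_eq hl0
  have hl3 : 0 < l ^ 3 := by positivity
  have hq20 : q ^ 20 ≤ q := by
    calc q ^ 20 = q * q ^ 19 := by ring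
      _ ≤ q * 1 := mul_le_mul_of_nonneg_left (pow_le_one₀ hq.le hq1) hq.le
      _ = q := mul_one _
  refine X_real3 hκ hκ64 hq hq1 hCL hCV hCC.le (sl_nonneg hl0) (hsb l hl0) (by positivity)
    (hη.trans (by linarith)) ?_ ?_ ?_
  · calc CL * (q / κ ^ 2) ≤ (CL + 1) * (1 / (2 * (CL + 1))) :=
          mul_le_mul (by linarith) (hη.trans c5) (by positivity) (by positivity)
      _ = 1 / 2 := by field_simp
  · refine X_real1 (Xi := Xi) (w := 1 / l ^ 2) (D := D) (LS0 := LS0)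
      (LS1 := LS t (-κ) (8 * Real.pi / l ^ 2)) (u := u) hκ hl0 hXi rfl rfl hD0 hκl hq hu0.le huq
      hCL hCV ?_ (by linarith)
    rw [hsl]
    have h1 := mul_le_mul_of_nonneg_right d1 hl3.le
    nlinarith only [h1]
  · refine X_real2 (Xi := Xi) (w := 1 / l ^ 2) (D := D) (LS0 := LS0)
      (LS1 := LS t κ (8 * Real.pi / l ^ 2)) (u := u) hκ hl0 hXi rfl rfl hD0 hκl hq hu0.le huq
      hCL hCV ?_ (by linarith)
    rw [hsl]
    have h1 := mul_le_mul_of_nonneg_right d2 hl3.le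
    set cut : ℝ := ∑' p : Fin 3 → ℤ, if p = 0 then 0 else
        (1 - Real.exp (-(t * ksq p))) * Jgd (l ^ 2 * ksq p) with hcutd
    have h2 : l ^ 3 * cut ≤ CC * q := hcut'.trans (mul_le_mul_of_nonneg_left hq20 hCC.le)
    have h3 : 0 ≤ κ * (1 - 2 * κ) := mul_nonneg hκ.le (by linarith)
    have h4 : κ * (1 - 2 * κ) * (l ^ 3 * cut) ≤ κ * (1 - 2 * κ) * (CC * q) :=
      mul_le_mul_of_nonneg_left h2 h3
    have h5 : 0 ≤ κ * (1 - 2 * κ) * (CC * q) := mul_nonneg h3 (by positivity)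
    nlinarith only [h1, h4, h5]

end Pool.Agent.Lib.MP_4952d6_mp.LB

end

/-! ### M.Grd -/

section

set_option autoImplicit false
set_option linter.unusedSectionVars false
set_option linter.unusedVariables false
open MeasureTheory Function Filter Topology Set ComplexConjugate
open scoped ENNReal

namespace Pool.Agent.Lib.MP_4952d6_mp.M

/-! # Existence of a ground state (direct method on the torus side) -/

section

variable {N : ℕ}

/-- `|k|²` of a multi frequency. -/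
noncomputable def gq (k : Fin N → Fin 3 → ℤ) : ℝ := ∑ i, ∑ α, (k i α : ℝ) ^ 2

theorem gq_nonneg (k : Fin N → Fin 3 → ℤ) : 0 ≤ gq k :=
  Finset.sum_nonneg fun _ _ => Finset.sum_nonneg fun _ _ => sq_nonneg _

theorem gq_finite (Λ : ℝ) : {k : Fin N → Fin 3 → ℤ | gq k ≤ Λ}.Finite := by
  refine Set.Finite.subset (Set.finite_Icc (fun _ _ => -(⌈Λ⌉)) (fun _ _ => ⌈Λ⌉)) ?_
  intro k hk
  have h1 : ∀ i α, (k i α) ^ 2 ≤ ⌈Λ⌉ := by
    intro i α
    have h2 : ((k i α : ℝ)) ^ 2 ≤ gq k := by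
      refine le_trans ?_ (Finset.single_le_sum (f := fun i => ∑ α, (k i α : ℝ) ^ 2)
        (fun _ _ => Finset.sum_nonneg fun _ _ => sq_nonneg _) (Finset.mem_univ i))
      exact Finset.single_le_sum (f := fun α => (k i α : ℝ) ^ 2) (fun _ _ => sq_nonneg _)
        (Finset.mem_univ α)
    have h3 : ((k i α : ℝ)) ^ 2 ≤ (⌈Λ⌉ : ℝ) := (h2.trans hk).trans (Int.le_ceil Λ)
    exact_mod_cast h3
  refine Set.mem_Icc.2 ⟨fun i α => ?_, fun i α => ?_⟩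
  · nlinarith [h1 i α, sq_nonneg (k i α + 1), Int.le_self_sq (-(k i α))]
  · exact (Int.le_self_sq (k i α)).trans (h1 i α)

theorem fc_sub {f g : (Fin N → T3) → ℂ} (hf : MemLp f 2 (piN (Fin N)))
    (hg : MemLp g 2 (piN (Fin N))) (k : Fin N → Fin 3 → ℤ) :
    fc (fun x => f x - g x) k = fc f k - fc g k := by
  have h1 : ∀ {h : (Fin N → T3) → ℂ}, MemLp h 2 (piN (Fin N)) →
      Integrable (fun x => conj (chN k x) * h x) (piN (Fin N)) := by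
    intro h hh
    have hi : Integrable h (piN (Fin N)) := hh.integrable one_le_two
    refine hi.mono ((Complex.continuous_conj.comp_stronglyMeasurable
      (chN_sm k)).aestronglyMeasurable.mul hh.1) (Eventually.of_forall fun x => ?_)
    rw [norm_mul, Complex.norm_conj, chN_norm, one_mul]
  unfold fc
  rw [← integral_sub (h1 hf) (h1 hg)]
  congr 1
  ext x
  ring

theorem fc_sq_le {f : (Fin N → T3) → ℂ} (hf : MemLp f 2 (piN (Fin N)))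
    (k : Fin N → Fin 3 → ℤ) : ‖fc f k‖ ^ 2 ≤ ∫ x, ‖f x‖ ^ 2 ∂(piN (Fin N)) :=
  le_hasSum (parseval_sq hf) k fun _ _ => sq_nonneg _

/-- The `L²` norm squared of an element of `Lp`. -/
theorem nsq (F : Lp ℂ 2 (piN (Fin N))) : ‖F‖ ^ 2 = ∫ x, ‖F x‖ ^ 2 ∂(piN (Fin N)) := by
  have h1 : ‖F‖ ^ 2 = RCLike.re (inner ℂ F F) := (inner_self_eq_norm_sq F).symm
  rw [h1, L2.inner_def]
  have h2 : ∀ x, inner ℂ (F x) (F x) = ((‖F x‖ ^ 2 : ℝ) : ℂ) := by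
    intro x
    rw [inner_self_eq_norm_sq_to_K]
    push_cast
    rfl
  simp_rw [h2]
  rw [integral_complex_ofReal]
  rfl

theorem nsq_sub {f g : (Fin N → T3) → ℂ} (hf : MemLp f 2 (piN (Fin N)))
    (hg : MemLp g 2 (piN (Fin N))) :
    ‖hf.toLp f - hg.toLp g‖ ^ 2 = ∫ x, ‖f x - g x‖ ^ 2 ∂(piN (Fin N)) := by
  rw [← MemLp.toLp_sub, nsq]
  refine integral_congr_ae ?_
  filter_upwards [(hf.sub hg).coeFn_toLp] with x hx
  rw [hx]
  rfl

/-- Rellich type bound: low frequencies plus a tail controlled by the kinetic energy. -/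
theorem rellich {f g : (Fin N → T3) → ℂ} (hf : MemLp f 2 (piN (Fin N)))
    (hg : MemLp g 2 (piN (Fin N))) {C Λ : ℝ} (hΛ : 0 < Λ)
    (sf : Summable fun k => gq k * ‖fc f k‖ ^ 2) (sg : Summable fun k => gq k * ‖fc g k‖ ^ 2)
    (hfC : ∑' k, gq k * ‖fc f k‖ ^ 2 ≤ C) (hgC : ∑' k, gq k * ‖fc g k‖ ^ 2 ≤ C) :
    ∫ x, ‖f x - g x‖ ^ 2 ∂(piN (Fin N))
      ≤ ∑ k ∈ (gq_finite (N := N) Λ).toFinset, ‖fc f k - fc g k‖ ^ 2 + 4 * C / Λ := by
  classical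
  have hp := parseval_sq (hf.sub hg)
  have e1 : ∀ k, ‖fc (f - g) k‖ ^ 2 = ‖fc f k - fc g k‖ ^ 2 := fun k => by
    rw [← fc_sub hf hg k]; rfl
  have e0 : (∫ x, ‖(f - g) x‖ ^ 2 ∂(piN (Fin N))) = ∫ x, ‖f x - g x‖ ^ 2 ∂(piN (Fin N)) := rfl
  rw [e0] at hp
  simp_rw [e1] at hp
  obtain ⟨s, hs⟩ : ∃ s, s = (gq_finite (N := N) Λ).toFinset := ⟨_, rfl⟩
  rw [← hs]
  have h1 : HasSum (fun k => if k ∈ s then ‖fc f k - fc g k‖ ^ 2 else 0)
      (∑ k ∈ s, ‖fc f k - fc g k‖ ^ 2) := by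
    have h : HasSum (fun k => if k ∈ s then ‖fc f k - fc g k‖ ^ 2 else 0)
        (∑ k ∈ s, if k ∈ s then ‖fc f k - fc g k‖ ^ 2 else 0) :=
      hasSum_sum_of_ne_finset_zero fun k hk => if_neg hk
    rw [Finset.sum_congr rfl fun k hk => if_pos hk] at h
    exact h
  have h2 : Summable fun k => 2 / Λ * (gq k * ‖fc f k‖ ^ 2 + gq k * ‖fc g k‖ ^ 2) :=
    (sf.add sg).mul_left _
  have h3 : ∀ k, ‖fc f k - fc g k‖ ^ 2 ≤ (if k ∈ s then ‖fc f k - fc g k‖ ^ 2 else 0)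
      + 2 / Λ * (gq k * ‖fc f k‖ ^ 2 + gq k * ‖fc g k‖ ^ 2) := by
    intro k
    have hq := gq_nonneg k
    by_cases hk : k ∈ s
    · rw [if_pos hk]
      have : 0 ≤ 2 / Λ * (gq k * ‖fc f k‖ ^ 2 + gq k * ‖fc g k‖ ^ 2) := by positivity
      linarith
    · rw [if_neg hk, zero_add]
      have hk' : Λ ≤ gq k := by
        by_contra hc
        apply hk
        rw [hs, Set.Finite.mem_toFinset]
        exact (not_le.1 hc).le
      have h4 : ‖fc f k - fc g k‖ ^ 2 ≤ 2 * (‖fc f k‖ ^ 2 + ‖fc g k‖ ^ 2) := by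
        have h5 := norm_sub_le (fc f k) (fc g k)
        have h6 := pow_le_pow_left₀ (norm_nonneg _) h5 2
        nlinarith [sq_nonneg (‖fc f k‖ - ‖fc g k‖)]
      refine h4.trans ?_
      have h7 : 1 ≤ gq k / Λ := by rwa [le_div_iff₀ hΛ, one_mul]
      have h8 : 0 ≤ 2 * (‖fc f k‖ ^ 2 + ‖fc g k‖ ^ 2) := by positivity
      calc 2 * (‖fc f k‖ ^ 2 + ‖fc g k‖ ^ 2) = 1 * (2 * (‖fc f k‖ ^ 2 + ‖fc g k‖ ^ 2)) := by ring
        _ ≤ gq k / Λ * (2 * (‖fc f k‖ ^ 2 + ‖fc g k‖ ^ 2)) := mul_le_mul_of_nonneg_right h7 h8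
        _ = _ := by ring
  have h9 := hp.summable.tsum_le_tsum h3 (h1.summable.add h2)
  rw [hp.tsum_eq, h1.summable.tsum_add h2, h1.tsum_eq, tsum_mul_left, sf.tsum_add sg] at h9
  refine h9.trans ?_
  have h10 : 2 / Λ * (∑' k, gq k * ‖fc f k‖ ^ 2 + ∑' k, gq k * ‖fc g k‖ ^ 2)
      ≤ 2 / Λ * (C + C) := mul_le_mul_of_nonneg_left (add_le_add hfC hgC) (by positivity)
  have h11 : 2 / Λ * (C + C) = 4 * C / Λ := by ring
  linarith

/-- Compactness: a sequence with bounded `L²` norm and kinetic energy has a subsequence which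
converges in `L²`. -/
theorem compact_seq {f : ℕ → (Fin N → T3) → ℂ} (hf : ∀ n, MemLp (f n) 2 (piN (Fin N)))
    {B C : ℝ} (hB : ∀ n, ∫ x, ‖f n x‖ ^ 2 ∂(piN (Fin N)) ≤ B)
    (hs : ∀ n, Summable fun k => gq k * ‖fc (f n) k‖ ^ 2)
    (hC : ∀ n, ∑' k, gq k * ‖fc (f n) k‖ ^ 2 ≤ C) :
    ∃ φ : ℕ → ℕ, StrictMono φ ∧ ∃ F : Lp ℂ 2 (piN (Fin N)),
      Tendsto (fun n => (hf (φ n)).toLp (f (φ n))) atTop (𝓝 F) := by
  classical
  have hC0 : 0 ≤ C := (tsum_nonneg fun k => mul_nonneg (gq_nonneg k) (sq_nonneg _)).trans (hC 0)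
  have hB0 : 0 ≤ B := (integral_nonneg fun x => sq_nonneg _).trans (hB 0)
  have hmem : ∀ n, (fun k => fc (f n) k) ∈
      Set.pi univ (fun _ : Fin N → Fin 3 → ℤ => Metric.closedBall (0:ℂ) (Real.sqrt B)) := by
    intro n k _
    rw [mem_closedBall_zero_iff]
    exact Real.le_sqrt_of_sq_le ((fc_sq_le (hf n) k).trans (hB n))
  obtain ⟨c, -, φ, hφ, hc⟩ := (isCompact_univ_pi fun _ : Fin N → Fin 3 → ℤ =>
    isCompact_closedBall (0:ℂ) (Real.sqrt B)).tendsto_subseq hmem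
  refine ⟨φ, hφ, cauchySeq_tendsto_of_complete ?_⟩
  rw [Metric.cauchySeq_iff']
  intro ε hε
  obtain ⟨Λ, hΛ⟩ : ∃ Λ : ℝ, Λ = 8 * (C + 1) / ε ^ 2 := ⟨_, rfl⟩
  have hΛ0 : 0 < Λ := by rw [hΛ]; positivity
  obtain ⟨s, hs'⟩ : ∃ s, s = (gq_finite (N := N) Λ).toFinset := ⟨_, rfl⟩
  have hck : ∀ k, Tendsto (fun n => fc (f (φ n)) k) atTop (𝓝 (c k)) := fun k =>
    (tendsto_pi_nhds.1 hc) k
  have hr : Tendsto (fun n => ∑ k ∈ s, ‖fc (f (φ n)) k - c k‖ ^ 2) atTop (𝓝 0) := by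
    have : Tendsto (fun n => ∑ k ∈ s, ‖fc (f (φ n)) k - c k‖ ^ 2) atTop
        (𝓝 (∑ k ∈ s, ‖c k - c k‖ ^ 2)) :=
      tendsto_finsetSum _ fun k _ => (((hck k).sub tendsto_const_nhds).norm).pow 2
    simpa using this
  have hε8 : (0:ℝ) < ε ^ 2 / 16 := by positivity
  obtain ⟨M, hM⟩ := Filter.eventually_atTop.1 (hr.eventually (gt_mem_nhds hε8))
  refine ⟨M, fun n hn => ?_⟩
  rw [dist_eq_norm]
  refine lt_of_pow_lt_pow_left₀ 2 hε.le ?_
  rw [nsq_sub]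
  have h1 := rellich (hf (φ n)) (hf (φ M)) hΛ0 (hs _) (hs _) (hC _) (hC _)
  rw [← hs'] at h1
  have h2 : ∑ k ∈ s, ‖fc (f (φ n)) k - fc (f (φ M)) k‖ ^ 2
      ≤ 2 * ∑ k ∈ s, ‖fc (f (φ n)) k - c k‖ ^ 2 + 2 * ∑ k ∈ s, ‖fc (f (φ M)) k - c k‖ ^ 2 := by
    rw [Finset.mul_sum, Finset.mul_sum, ← Finset.sum_add_distrib]
    refine Finset.sum_le_sum fun k _ => ?_
    have h5 : ‖fc (f (φ n)) k - fc (f (φ M)) k‖
        ≤ ‖fc (f (φ n)) k - c k‖ + ‖fc (f (φ M)) k - c k‖ := by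
      have := norm_sub_le (fc (f (φ n)) k - c k) (fc (f (φ M)) k - c k)
      rwa [sub_sub_sub_cancel_right] at this
    have h6 := pow_le_pow_left₀ (norm_nonneg _) h5 2
    nlinarith [sq_nonneg (‖fc (f (φ n)) k - c k‖ - ‖fc (f (φ M)) k - c k‖)]
  have h3 : 4 * C / Λ ≤ ε ^ 2 / 2 := by
    rw [hΛ, div_div_eq_mul_div, div_le_div_iff₀ (by positivity) (by norm_num)]
    nlinarith [sq_nonneg ε]
  have h4 := hM n hn
  have h5 := hM M le_rfl
  have h6 : (0:ℝ) < ε ^ 2 := by positivity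
  linarith

/-- The low part of the kinetic energy. -/
noncomputable def kinS (s : Finset (Fin N → Fin 3 → ℤ)) (ψ : (Fin N → T3) → ℂ) : ℝ≥0∞ :=
  ∑ k ∈ s, ENNReal.ofReal (4 * Real.pi ^ 2 * (∑ i, ∑ α, (k i α : ℝ) ^ 2) * ‖fc ψ k‖ ^ 2)

/-- The potential energy. -/
noncomputable def potE (V : (Fin N → T3) → ℝ≥0∞) (ψ : (Fin N → T3) → ℂ) : ℝ≥0∞ :=
  ∫⁻ x, V x * ‖ψ x‖ₑ ^ 2 ∂(piN (Fin N))

/-- Pointwise lower semicontinuity. -/
theorem lsc_pt {c y a : ℝ≥0∞} {ys as : ℕ → ℝ≥0∞} (hy : Tendsto ys atTop (𝓝 y))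
    (ha : Tendsto as atTop (𝓝 a)) (ha' : a ≠ ⊤) :
    c * y + a ≤ liminf (fun n => c * ys n + as n) atTop := by
  by_cases h : y ≠ 0 ∨ c ≠ ⊤
  · have h1 : Tendsto (fun n => c * ys n) atTop (𝓝 (c * y)) := ENNReal.Tendsto.const_mul hy h
    exact (h1.add ha).liminf_eq.ge
  · push Not at h
    rw [h.1, mul_zero, zero_add, ← ha.liminf_eq]
    exact liminf_le_liminf (Eventually.of_forall fun n => le_add_self)

/-- Lower semicontinuity of the energy. -/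
theorem lsc_energy {V : (Fin N → T3) → ℝ≥0∞} (hV : AEMeasurable V (piN (Fin N)))
    {θ : ℕ → (Fin N → T3) → ℂ} (hθ : ∀ n, MemLp (θ n) 2 (piN (Fin N)))
    {g : (Fin N → T3) → ℂ} (hg : ∀ᵐ x ∂(piN (Fin N)), Tendsto (fun n => θ n x) atTop (𝓝 (g x)))
    (hk : ∀ k, Tendsto (fun n => fc (θ n) k) atTop (𝓝 (fc g k))) {E : ℕ → ℝ≥0∞} {e : ℝ≥0∞}
    (s : Finset (Fin N → Fin 3 → ℤ))
    (hE : ∀ n, kinS s (θ n) + potE V (θ n) ≤ E n) (he : Tendsto E atTop (𝓝 e)) :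
    kinS s g + potE V g ≤ e := by
  have hks : Tendsto (fun n => kinS s (θ n)) atTop (𝓝 (kinS s g)) := by
    refine tendsto_finsetSum _ fun k _ => ?_
    refine ENNReal.tendsto_ofReal ?_
    exact (((hk k).norm).pow 2).const_mul _
  have hfin : kinS s g ≠ ⊤ := by
    unfold kinS
    exact ENNReal.sum_ne_top.2 fun k _ => ENNReal.ofReal_ne_top
  have e1 : ∀ ψ : (Fin N → T3) → ℂ, kinS s ψ + potE V ψ
      = ∫⁻ x, (V x * ‖ψ x‖ₑ ^ 2 + kinS s ψ) ∂(piN (Fin N)) := by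
    intro ψ
    rw [lintegral_add_right _ measurable_const, lintegral_const, measure_univ, mul_one, add_comm]
    rfl
  have hm : ∀ n, AEMeasurable (fun x => V x * ‖θ n x‖ₑ ^ 2 + kinS s (θ n)) (piN (Fin N)) :=
    fun n => (hV.mul (((hθ n).1.enorm).pow_const 2)).add_const _
  rw [e1]
  calc ∫⁻ x, (V x * ‖g x‖ₑ ^ 2 + kinS s g) ∂(piN (Fin N))
      ≤ ∫⁻ x, liminf (fun n => V x * ‖θ n x‖ₑ ^ 2 + kinS s (θ n)) atTop ∂(piN (Fin N)) := by
        refine lintegral_mono_ae ?_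
        filter_upwards [hg] with x hx
        exact lsc_pt (ENNReal.Tendsto.pow hx.enorm) hks hfin
    _ ≤ liminf (fun n => ∫⁻ x, (V x * ‖θ n x‖ₑ ^ 2 + kinS s (θ n)) ∂(piN (Fin N))) atTop :=
        lintegral_liminf_le' hm
    _ ≤ liminf E atTop := by
        refine liminf_le_liminf (Eventually.of_forall fun n => ?_)
        rw [← e1]
        exact hE n
    _ = e := he.liminf_eq

theorem kinS_le {𝒱 : T3 → ℝ≥0∞} (s : Finset (Fin N → Fin 3 → ℤ)) (ψ : (Fin N → T3) → ℂ) :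
    kinS s ψ + potE (fun x => ∑ i, ∑ j ∈ Finset.Ioi i, 𝒱 (x i - x j)) ψ ≤ tE 𝒱 ψ := by
  unfold tE kinS potE
  exact add_le_add (ENNReal.sum_le_tsum s) le_rfl

theorem tE_le {𝒱 : T3 → ℝ≥0∞} (ψ : (Fin N → T3) → ℂ) {e : ℝ≥0∞}
    (h : ∀ s, kinS s ψ + potE (fun x => ∑ i, ∑ j ∈ Finset.Ioi i, 𝒱 (x i - x j)) ψ ≤ e) :
    tE 𝒱 ψ ≤ e := by
  unfold tE
  rw [ENNReal.tsum_eq_iSup_sum, ENNReal.iSup_add]
  exact iSup_le h

/-- The kinetic energy bound in real form. -/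
theorem kin_real {𝒱 : T3 → ℝ≥0∞} {ψ : (Fin N → T3) → ℂ} {R : ℝ} (hR : 0 ≤ R)
    (h : tE 𝒱 ψ ≤ ENNReal.ofReal R) :
    (Summable fun k => gq k * ‖fc ψ k‖ ^ 2) ∧
      ∑' k, gq k * ‖fc ψ k‖ ^ 2 ≤ R / (4 * Real.pi ^ 2) := by
  have h1 : ∑' k : Fin N → Fin 3 → ℤ, ENNReal.ofReal (4 * Real.pi ^ 2 * gq k * ‖fc ψ k‖ ^ 2)
      ≤ ENNReal.ofReal R := by
    refine le_trans ?_ h
    unfold tE
    exact le_self_add
  have hpi : (0:ℝ) < 4 * Real.pi ^ 2 := by positivity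
  obtain ⟨h2, h3⟩ := summable_of_ennreal (W := fun k : Fin N → Fin 3 → ℤ =>
    4 * Real.pi ^ 2 * gq k * ‖fc ψ k‖ ^ 2)
    (fun k => mul_nonneg (mul_nonneg hpi.le (gq_nonneg k)) (sq_nonneg _)) hR h1
  have e : (fun k : Fin N → Fin 3 → ℤ => gq k * ‖fc ψ k‖ ^ 2)
      = fun k => (4 * Real.pi ^ 2)⁻¹ * (4 * Real.pi ^ 2 * gq k * ‖fc ψ k‖ ^ 2) := by
    funext k
    field_simp
  refine ⟨?_, ?_⟩
  · rw [e]; exact h2.mul_left _
  · rw [e, tsum_mul_left, div_eq_inv_mul]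
    exact mul_le_mul_of_nonneg_left h3 (by positivity)

/-- Existence of a minimiser on the torus. -/
theorem tground {R₀ : ℝ} {𝒱 : T3 → ℝ≥0∞}
    (hV : AEMeasurable (fun x : Fin N → T3 => ∑ i, ∑ j ∈ Finset.Ioi i, 𝒱 (x i - x j))
      (piN (Fin N))) (h : ∃ φ : (Fin N → T3) → ℂ, tAdm R₀ 𝒱 φ) :
    ∃ ψ : (Fin N → T3) → ℂ, tAdm R₀ 𝒱 ψ ∧
      ∀ φ : (Fin N → T3) → ℂ, tAdm R₀ 𝒱 φ → tE 𝒱 ψ ≤ tE 𝒱 φ := by
  classical
  obtain ⟨S, hS⟩ : ∃ S : Set ℝ≥0∞, S = tE 𝒱 '' {φ : (Fin N → T3) → ℂ | tAdm R₀ 𝒱 φ} := ⟨_, rfl⟩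
  have hSne : S.Nonempty := by
    obtain ⟨φ, hφ⟩ := h
    exact ⟨tE 𝒱 φ, by rw [hS]; exact ⟨φ, hφ, rfl⟩⟩
  obtain ⟨u, hu_anti, hu_lim, hu_mem⟩ := exists_seq_tendsto_sInf hSne (OrderBot.bddBelow S)
  rw [hS] at hu_mem
  choose ψ hψ hψu using hu_mem
  have hu0 : u 0 ≠ ⊤ := by
    rw [← hψu 0]
    exact (hψ 0).2.2.2.ne
  have hle : ∀ n, tE 𝒱 (ψ n) ≤ ENNReal.ofReal (u 0).toReal := by
    intro n
    rw [ENNReal.ofReal_toReal hu0, hψu n]
    exact hu_anti (Nat.zero_le n)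
  have hmem : ∀ n, MemLp (ψ n) 2 (piN (Fin N)) := fun n => (hψ n).1
  have hkin := fun n => kin_real ENNReal.toReal_nonneg (hle n)
  obtain ⟨φ, hφ, F, hF⟩ := compact_seq hmem (fun n => (hψ n).2.1.le) (fun n => (hkin n).1)
    (fun n => (hkin n).2)
  obtain ⟨ns, hns, hae⟩ := (tendstoInMeasure_of_tendsto_Lp hF).exists_seq_tendsto_ae
  obtain ⟨θ, hθd⟩ : ∃ θ : ℕ → (Fin N → T3) → ℂ, θ = fun n => ψ (φ (ns n)) := ⟨_, rfl⟩
  have hθm : ∀ n, MemLp (θ n) 2 (piN (Fin N)) := fun n => by rw [hθd]; exact hmem _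
  have hFm : MemLp F 2 (piN (Fin N)) := Lp.memLp F
  have hθF : Tendsto (fun n => (hθm n).toLp (θ n)) atTop (𝓝 F) := by
    have := hF.comp hns.tendsto_atTop
    subst hθd
    exact this
  have hθae : ∀ᵐ x ∂(piN (Fin N)), Tendsto (fun n => θ n x) atTop (𝓝 (F x)) := by
    have h1 : ∀ᵐ x ∂(piN (Fin N)), ∀ n, (hmem (φ (ns n))).toLp (ψ (φ (ns n))) x
        = ψ (φ (ns n)) x := by
      rw [ae_all_iff]
      exact fun n => (hmem (φ (ns n))).coeFn_toLp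
    filter_upwards [hae, h1] with x hx h1x
    rw [hθd]
    refine hx.congr fun n => ?_
    exact h1x n
  obtain ⟨g, hgd⟩ : ∃ g : (Fin N → T3) → ℂ, g = fun x =>
      if ∃ i j : Fin N, i ≠ j ∧ rr (x i - x j) < R₀ then 0 else F x := ⟨_, rfl⟩
  have hcore : ∀ n x, ∀ i j : Fin N, i ≠ j → rr (x i - x j) < R₀ → θ n x = 0 := fun n => by
    rw [hθd]; exact (hψ _).2.2.1
  have hgF : g =ᵐ[piN (Fin N)] F := by
    filter_upwards [hθae] with x hx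
    rw [hgd]
    by_cases hc : ∃ i j : Fin N, i ≠ j ∧ rr (x i - x j) < R₀
    · simp only [if_pos hc]
      obtain ⟨i, j, hij, hr⟩ := hc
      have h2 : Tendsto (fun n => θ n x) atTop (𝓝 0) :=
        tendsto_const_nhds.congr fun n => (hcore n x i j hij hr).symm
      exact tendsto_nhds_unique h2 hx
    · simp only [if_neg hc]
  have hgm : MemLp g 2 (piN (Fin N)) := hFm.ae_eq hgF.symm
  have hgae : ∀ᵐ x ∂(piN (Fin N)), Tendsto (fun n => θ n x) atTop (𝓝 (g x)) := by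
    filter_upwards [hθae, hgF] with x hx hgx
    rw [hgx]; exact hx
  have hgnorm : ∫ x, ‖g x‖ ^ 2 ∂(piN (Fin N)) = 1 := by
    have h1 : ∫ x, ‖g x‖ ^ 2 ∂(piN (Fin N)) = ‖F‖ ^ 2 := by
      rw [nsq]
      refine integral_congr_ae ?_
      filter_upwards [hgF] with x hx
      rw [hx]
    have h2 : Tendsto (fun n => ‖(hθm n).toLp (θ n)‖ ^ 2) atTop (𝓝 (‖F‖ ^ 2)) :=
      hθF.norm.pow 2
    have h3 : ∀ n, ‖(hθm n).toLp (θ n)‖ ^ 2 = 1 := by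
      intro n
      rw [nsq]
      have h4 : ∫ x, ‖θ n x‖ ^ 2 ∂(piN (Fin N)) = 1 := by
        rw [hθd]; exact (hψ _).2.1
      refine Eq.trans (integral_congr_ae ?_) h4
      filter_upwards [(hθm n).coeFn_toLp] with x hx
      rw [hx]
    rw [h1]
    simp_rw [h3] at h2
    exact (tendsto_nhds_unique h2 tendsto_const_nhds)
  have hfcg : ∀ k, fc g k = fc F k := by
    intro k
    unfold fc
    refine integral_congr_ae ?_
    filter_upwards [hgF] with x hx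
    rw [hx]
  have hfc : ∀ k, Tendsto (fun n => fc (θ n) k) atTop (𝓝 (fc g k)) := by
    intro k
    rw [hfcg k, tendsto_iff_norm_sub_tendsto_zero]
    have h1 : Tendsto (fun n => ‖(hθm n).toLp (θ n) - F‖) atTop (𝓝 0) :=
      tendsto_iff_norm_sub_tendsto_zero.1 hθF
    refine squeeze_zero (fun n => norm_nonneg _) (fun n => ?_) h1
    refine le_of_sq_le_sq ?_ (norm_nonneg _)
    rw [← fc_sub (hθm n) hFm k]
    refine (fc_sq_le ((hθm n).sub hFm) k).trans (le_of_eq ?_)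
    have h2 := nsq_sub (hθm n) hFm
    rw [Lp.toLp_coeFn F hFm] at h2
    rw [h2]
    rfl
  have hen : tE 𝒱 g ≤ sInf S := by
    refine tE_le g fun s => ?_
    refine lsc_energy hV hθm hgae hfc (E := fun n => u (φ (ns n))) s (fun n => ?_)
      (hu_lim.comp (hφ.comp hns).tendsto_atTop)
    have h5 : tE 𝒱 (θ n) = u (φ (ns n)) := by
      rw [hθd]; exact hψu _
    rw [← h5]
    exact kinS_le s (θ n)
  have hinf : sInf S ≤ u 0 := by
    refine sInf_le ?_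
    rw [hS]
    exact ⟨ψ 0, hψ 0, hψu 0⟩
  refine ⟨g, ⟨hgm, hgnorm, ?_, (hen.trans hinf).trans_lt (lt_top_iff_ne_top.2 hu0)⟩, ?_⟩
  · intro x i j hij hr
    rw [hgd]
    exact if_pos ⟨i, j, hij, hr⟩
  · intro φ' hφ'
    refine hen.trans (sInf_le ?_)
    rw [hS]
    exact ⟨φ', hφ', rfl⟩

end

/-- **Existence of a ground state** in the periodic box: if there is an admissible state at all,
then the energy attains its minimum over the admissible states. -/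
theorem exists_ground {N : ℕ} {m R₀ L : ℝ} {v : (Fin 3 → ℝ) → ℝ} (hm : 0 < m) (hL : 0 < L)
    (hR : 0 ≤ R₀) (hv : AEMeasurable v volume) (h : ∃ φ, Admissible m R₀ v N L φ) :
    ∃ ψ, Admissible m R₀ v N L ψ ∧
      ∀ φ, Admissible m R₀ v N L φ → energy m v N L ψ ≤ energy m v N L φ := by
  have hV : AEMeasurable (fun x : Fin N → T3 => ∑ i, ∑ j ∈ Finset.Ioi i, Vp m L v (x i - x j))
      (piN (Fin N)) := by
    have e : (fun x : Fin N → T3 => ∑ i, ∑ j ∈ Finset.Ioi i, Vp m L v (x i - x j))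
        = fun x => ENNReal.ofReal (2 * m * L ^ 2)
          * ∑ i, ∑ j ∈ Finset.Ioi i, vper L v (x i - x j) := by
      funext x
      simp only [Vp, Finset.mul_sum]
    rw [e]
    exact (aem_pair hL hv).const_mul _
  obtain ⟨φ₀, hφ₀⟩ := h
  obtain ⟨g, hg, hmin⟩ := tground (R₀ := R₀ / L) hV ⟨TT N L φ₀, adm_TT hm hL hR hv hφ₀⟩
  have hB := adm_BB hm hL hR hv hg
  refine ⟨BB N L g, hB, fun φ hφ => ?_⟩
  rw [energy_eq hm hL hv hB.1.1, TT_BB hL, energy_eq hm hL hv hφ.1.1]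
  exact mul_le_mul_right (hmin _ (adm_TT hm hL hR hv hφ)) _

end Pool.Agent.Lib.MP_4952d6_mp.M

end

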