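import Mathlib

/-! Merged modules (to save import time): M.LErr. -/

/-! ### M.LErr -/

section

/-!
# M.LErr: size of the errors in the mesoscopic regime (real inequalities)

`a = l u^20`, `n = 1/(l³ u^20)`, `0 < l ≤ 1/8`, `0 < u ≤ 1`, `√t = l u^4`, `H = 8πa`, `e = c = u^6`, `X = n² a u^20 = l⁻⁵`,
`n a = l⁻²`, `M1, M2 ≤ CM n² (D/u + u^19 n)`, `M0 ≤ CM n²`. Everything is at most `K u (X + n a D)`.
-/

set_option autoImplicit false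

namespace Pool.Agent.Lib.MP_4952d6_mp.LB

theorem LErr_pow {u : ℝ} (h0 : 0 < u) (h1 : u ≤ 1) (k : ℕ) : u ^ (k + 1) ≤ u := by
  have := pow_le_one₀ (n := k) h0.le h1
  calc u ^ (k + 1) = u ^ k * u := pow_succ u k
    _ ≤ 1 * u := mul_le_mul_of_nonneg_right this h0.le
    _ = u := one_mul u

/-- a monomial with a power of `u` in front -/
theorem LErr_up {u c X : ℝ} (h0 : 0 < u) (h1 : u ≤ 1) (hc : 0 ≤ c) (hX : 0 ≤ X) (k : ℕ) :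
    c * u ^ (k + 1) * X ≤ c * u * X :=
  mul_le_mul_of_nonneg_right (mul_le_mul_of_nonneg_left (LErr_pow h0 h1 k) hc) hX

variable {u l D C C6 CM θ M0 M1 M2 A1 A2 al R : ℝ}

/-- first term of `elErr` -/
theorem LErr_1 (hl : 0 < l) (hu : 0 < u) (hu1 : u ≤ 1) :
    u ^ 6 * (8 * Real.pi * (l * u ^ 20)) ^ 2 * (1 / (l ^ 3 * u ^ 20)) ^ 2 / (l * u ^ 4)
      ≤ 64 * Real.pi ^ 2 * u * (1 / l ^ 5) := by
  have e : u ^ 6 * (8 * Real.pi * (l * u ^ 20)) ^ 2 * (1 / (l ^ 3 * u ^ 20)) ^ 2 / (l * u ^ 4)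
      = 64 * Real.pi ^ 2 * u ^ (1 + 1) * (1 / l ^ 5) := by
    field_simp
    ring
  rw [e]
  exact LErr_up hu hu1 (by positivity) (by positivity) 1

/-- second term of `elErr` -/
theorem LErr_2 (hl : 0 < l) (hu : 0 < u) (hu1 : u ≤ 1) (hD : 0 ≤ D) (hCM : 0 ≤ CM)
    (h1 : M1 ≤ CM * (1 / (l ^ 3 * u ^ 20)) ^ 2 * (D / u + u ^ 19 * (1 / (l ^ 3 * u ^ 20))))
    (h2 : M2 ≤ CM * (1 / (l ^ 3 * u ^ 20)) ^ 2 * (D / u + u ^ 19 * (1 / (l ^ 3 * u ^ 20)))) :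
    (l * u ^ 4) ^ 2 * (8 * Real.pi * (l * u ^ 20)) ^ 2 * (M1 + M2)
      ≤ 128 * Real.pi ^ 2 * CM * u * (1 / l ^ 5 + 1 / l ^ 2 * D) := by
  have e : (l * u ^ 4) ^ 2 * (8 * Real.pi * (l * u ^ 20)) ^ 2
      * (2 * (CM * (1 / (l ^ 3 * u ^ 20)) ^ 2 * (D / u + u ^ 19 * (1 / (l ^ 3 * u ^ 20)))))
      = 128 * Real.pi ^ 2 * CM * u ^ (6 + 1) * (1 / l ^ 5 + 1 / l ^ 2 * D) := by
    field_simp
    ring
  calc (l * u ^ 4) ^ 2 * (8 * Real.pi * (l * u ^ 20)) ^ 2 * (M1 + M2)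
      ≤ (l * u ^ 4) ^ 2 * (8 * Real.pi * (l * u ^ 20)) ^ 2
      * (2 * (CM * (1 / (l ^ 3 * u ^ 20)) ^ 2 * (D / u + u ^ 19 * (1 / (l ^ 3 * u ^ 20))))) :=
        mul_le_mul_of_nonneg_left (by linarith) (by positivity)
    _ = 128 * Real.pi ^ 2 * CM * u ^ (6 + 1) * (1 / l ^ 5 + 1 / l ^ 2 * D) := e
    _ ≤ _ := LErr_up hu hu1 (by positivity) (by positivity) 6

/-- third term of `elErr` -/
theorem LErr_3 (hl : 0 < l) (hu : 0 < u) (hu1 : u ≤ 1) (hD : 0 ≤ D) (hCM : 0 ≤ CM) (hC6 : 0 ≤ C6)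
    (h1 : M1 ≤ CM * (1 / (l ^ 3 * u ^ 20)) ^ 2 * (D / u + u ^ 19 * (1 / (l ^ 3 * u ^ 20)))) :
    C6 * (l * u ^ 20) / (l * u ^ 4) * (u ^ 6 * (8 * Real.pi * (l * u ^ 20)) * (1 / (l ^ 3 * u ^ 20)) ^ 2
        + 8 * Real.pi * (l * u ^ 20) * M1 / (1 / (l ^ 3 * u ^ 20) * u ^ 6))
      ≤ 8 * Real.pi * C6 * (1 + CM) * u * (1 / l ^ 5 + 1 / l ^ 2 * D) := by
  have hpi := Real.pi_pos
  have e1 : C6 * (l * u ^ 20) / (l * u ^ 4) * (u ^ 6 * (8 * Real.pi * (l * u ^ 20)) * (1 / (l ^ 3 * u ^ 20)) ^ 2)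
      = 8 * Real.pi * C6 * u ^ (1 + 1) * (1 / l ^ 5) := by
    field_simp
  have e2 : C6 * (l * u ^ 20) / (l * u ^ 4) * (8 * Real.pi * (l * u ^ 20)
      * (CM * (1 / (l ^ 3 * u ^ 20)) ^ 2 * (D / u + u ^ 19 * (1 / (l ^ 3 * u ^ 20))))
        / (1 / (l ^ 3 * u ^ 20) * u ^ 6))
      = 8 * Real.pi * C6 * CM * u ^ (8 + 1) * (1 / l ^ 5 + 1 / l ^ 2 * D) := by
    field_simp
    ring
  have i2 : C6 * (l * u ^ 20) / (l * u ^ 4) * (8 * Real.pi * (l * u ^ 20) * M1 / (1 / (l ^ 3 * u ^ 20) * u ^ 6))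
      ≤ C6 * (l * u ^ 20) / (l * u ^ 4) * (8 * Real.pi * (l * u ^ 20)
      * (CM * (1 / (l ^ 3 * u ^ 20)) ^ 2 * (D / u + u ^ 19 * (1 / (l ^ 3 * u ^ 20))))
        / (1 / (l ^ 3 * u ^ 20) * u ^ 6)) := by
    gcongr
  have j1 := LErr_up (X := 1 / l ^ 5) hu hu1 (show 0 ≤ 8 * Real.pi * C6 by positivity) (by positivity) 1
  have j2 := LErr_up (X := 1 / l ^ 5 + 1 / l ^ 2 * D) hu hu1 (show 0 ≤ 8 * Real.pi * C6 * CM by positivity)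
    (by positivity) 8
  have j3 : 8 * Real.pi * C6 * u * (1 / l ^ 5) ≤ 8 * Real.pi * C6 * u * (1 / l ^ 5 + 1 / l ^ 2 * D) :=
    mul_le_mul_of_nonneg_left (le_add_of_nonneg_right (by positivity)) (by positivity)
  rw [mul_add, e1]
  rw [e2] at i2
  calc 8 * Real.pi * C6 * u ^ (1 + 1) * (1 / l ^ 5)
        + C6 * (l * u ^ 20) / (l * u ^ 4) * (8 * Real.pi * (l * u ^ 20) * M1 / (1 / (l ^ 3 * u ^ 20) * u ^ 6))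
      ≤ 8 * Real.pi * C6 * u * (1 / l ^ 5 + 1 / l ^ 2 * D)
        + 8 * Real.pi * C6 * CM * u * (1 / l ^ 5 + 1 / l ^ 2 * D) :=
        add_le_add (j1.trans j3) (i2.trans j2)
    _ = _ := by ring

/-- fourth term of `elErr` -/
theorem LErr_4 (hl : 0 < l) (hl1 : l ≤ 1) (hu : 0 < u) (hu1 : u ≤ 1) (hD : 0 ≤ D) (hCM : 0 ≤ CM) (hC6 : 0 ≤ C6)
    (h1 : M1 ≤ CM * (1 / (l ^ 3 * u ^ 20)) ^ 2 * (D / u + u ^ 19 * (1 / (l ^ 3 * u ^ 20)))) :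
    (C6 * (l * u ^ 20) * (l * u ^ 4) ^ 2 + u ^ 6) * (8 * Real.pi * (l * u ^ 20)) * M1 / (1 / (l ^ 3 * u ^ 20))
      ≤ 8 * Real.pi * (C6 + 1) * CM * u * (1 / l ^ 5 + 1 / l ^ 2 * D) := by
  have hpi := Real.pi_pos
  have i : (C6 * (l * u ^ 20) * (l * u ^ 4) ^ 2 + u ^ 6) * (8 * Real.pi * (l * u ^ 20)) * M1 / (1 / (l ^ 3 * u ^ 20))
      ≤ (C6 * (l * u ^ 20) * (l * u ^ 4) ^ 2 + u ^ 6) * (8 * Real.pi * (l * u ^ 20))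
        * (CM * (1 / (l ^ 3 * u ^ 20)) ^ 2 * (D / u + u ^ 19 * (1 / (l ^ 3 * u ^ 20)))) / (1 / (l ^ 3 * u ^ 20)) := by
    gcongr
  have e : (C6 * (l * u ^ 20) * (l * u ^ 4) ^ 2 + u ^ 6) * (8 * Real.pi * (l * u ^ 20))
        * (CM * (1 / (l ^ 3 * u ^ 20)) ^ 2 * (D / u + u ^ 19 * (1 / (l ^ 3 * u ^ 20)))) / (1 / (l ^ 3 * u ^ 20))
      = 8 * Real.pi * CM * ((C6 * (l ^ 3 * u ^ 22) + 1) * u ^ (4 + 1)) * (1 / l ^ 5 + 1 / l ^ 2 * D) := by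
    field_simp
    ring
  have k1 : l ^ 3 * u ^ 22 ≤ 1 := by
    have h1 : l ^ 3 ≤ 1 := pow_le_one₀ hl.le hl1
    have h2 : u ^ 22 ≤ 1 := pow_le_one₀ hu.le hu1
    calc l ^ 3 * u ^ 22 ≤ 1 * 1 := mul_le_mul h1 h2 (by positivity) (by norm_num)
      _ = 1 := one_mul 1
  have k2 : (C6 * (l ^ 3 * u ^ 22) + 1) * u ^ (4 + 1) ≤ (C6 + 1) * u := by
    refine mul_le_mul ?_ (LErr_pow hu hu1 4) (by positivity) (by positivity)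
    have := mul_le_mul_of_nonneg_left k1 hC6
    linarith
  rw [e] at i
  refine i.trans ?_
  calc 8 * Real.pi * CM * ((C6 * (l ^ 3 * u ^ 22) + 1) * u ^ (4 + 1)) * (1 / l ^ 5 + 1 / l ^ 2 * D)
      ≤ 8 * Real.pi * CM * ((C6 + 1) * u) * (1 / l ^ 5 + 1 / l ^ 2 * D) :=
        mul_le_mul_of_nonneg_right (mul_le_mul_of_nonneg_left k2 (by positivity)) (by positivity)
    _ = _ := by ring

/-- fifth term of `elErr` -/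
theorem LErr_5 (hl : 0 < l) (hu : 0 < u) (hu1 : u ≤ 1) (hD : 0 ≤ D) (hCM : 0 ≤ CM)
    (h1 : M1 ≤ CM * (1 / (l ^ 3 * u ^ 20)) ^ 2 * (D / u + u ^ 19 * (1 / (l ^ 3 * u ^ 20)))) :
    (l * u ^ 4) ^ 2 / u ^ 6 * ((8 * Real.pi * (l * u ^ 20)) ^ 2
        * ((l * u ^ 4)⁻¹ ^ 3 / (1 / (l ^ 3 * u ^ 20)) + 1) * M1)
      ≤ 128 * Real.pi ^ 2 * CM * u * (1 / l ^ 5 + 1 / l ^ 2 * D) := by
  have hpi := Real.pi_pos
  have i : (l * u ^ 4) ^ 2 / u ^ 6 * ((8 * Real.pi * (l * u ^ 20)) ^ 2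
        * ((l * u ^ 4)⁻¹ ^ 3 / (1 / (l ^ 3 * u ^ 20)) + 1) * M1)
      ≤ (l * u ^ 4) ^ 2 / u ^ 6 * ((8 * Real.pi * (l * u ^ 20)) ^ 2
        * ((l * u ^ 4)⁻¹ ^ 3 / (1 / (l ^ 3 * u ^ 20)) + 1)
        * (CM * (1 / (l ^ 3 * u ^ 20)) ^ 2 * (D / u + u ^ 19 * (1 / (l ^ 3 * u ^ 20))))) := by
    gcongr
  have e : (l * u ^ 4) ^ 2 / u ^ 6 * ((8 * Real.pi * (l * u ^ 20)) ^ 2
        * ((l * u ^ 4)⁻¹ ^ 3 / (1 / (l ^ 3 * u ^ 20)) + 1)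
        * (CM * (1 / (l ^ 3 * u ^ 20)) ^ 2 * (D / u + u ^ 19 * (1 / (l ^ 3 * u ^ 20)))))
      = 64 * Real.pi ^ 2 * CM * ((u ^ 8 + 1) * u) * (1 / l ^ 5 + 1 / l ^ 2 * D) := by
    field_simp
    ring
  rw [e] at i
  refine i.trans ?_
  have k : (u ^ 8 + 1) * u ≤ 2 * u := by
    refine mul_le_mul_of_nonneg_right ?_ hu.le
    have : u ^ 8 ≤ 1 := pow_le_one₀ hu.le hu1
    linarith
  calc 64 * Real.pi ^ 2 * CM * ((u ^ 8 + 1) * u) * (1 / l ^ 5 + 1 / l ^ 2 * D)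
      ≤ 64 * Real.pi ^ 2 * CM * (2 * u) * (1 / l ^ 5 + 1 / l ^ 2 * D) :=
        mul_le_mul_of_nonneg_right (mul_le_mul_of_nonneg_left k (by positivity)) (by positivity)
    _ = _ := by ring

/-- the loss `δ₁` in the mean field term -/
theorem LErr_6 (hl : 0 < l) (hu : 0 < u) (hu1 : u ≤ 1) :
    u ^ 40 * (8 * Real.pi * (l * u ^ 20)) / 2 * (1 / (l ^ 3 * u ^ 20)) ^ 2
      ≤ 4 * Real.pi * u * (1 / l ^ 5) := by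
  have e : u ^ 40 * (8 * Real.pi * (l * u ^ 20)) / 2 * (1 / (l ^ 3 * u ^ 20)) ^ 2
      = 4 * Real.pi * u ^ (19 + 1) * (1 / l ^ 5) := by
    field_simp
    ring
  rw [e]
  exact LErr_up hu hu1 (by positivity) (by positivity) 19

theorem LErr_7 (hl : 0 < l) (hu : 0 < u) (hu1 : u ≤ 1) (hC : 0 ≤ C) (hA : A2 ≤ C * (l * u ^ 4)⁻¹ ^ 5) :
    1 / 2 * (1 / (l ^ 3 * u ^ 20) * (8 * Real.pi * (l * u ^ 20))) * (l * u ^ 20) ^ 2 * A2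
      ≤ 4 * Real.pi * C * u * (1 / l ^ 5) := by
  have hpi := Real.pi_pos
  have e : 1 / 2 * (1 / (l ^ 3 * u ^ 20) * (8 * Real.pi * (l * u ^ 20))) * (l * u ^ 20) ^ 2 * (C * (l * u ^ 4)⁻¹ ^ 5)
      = 4 * Real.pi * C * u ^ (19 + 1) * (1 / l ^ 5) := by
    field_simp
    ring
  calc 1 / 2 * (1 / (l ^ 3 * u ^ 20) * (8 * Real.pi * (l * u ^ 20))) * (l * u ^ 20) ^ 2 * A2
      ≤ 1 / 2 * (1 / (l ^ 3 * u ^ 20) * (8 * Real.pi * (l * u ^ 20))) * (l * u ^ 20) ^ 2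
        * (C * (l * u ^ 4)⁻¹ ^ 5) := mul_le_mul_of_nonneg_left hA (by positivity)
    _ = 4 * Real.pi * C * u ^ (19 + 1) * (1 / l ^ 5) := e
    _ ≤ _ := LErr_up hu hu1 (by positivity) (by positivity) 19

theorem LErr_8 (hl : 0 < l) (hu : 0 < u) (hu1 : u ≤ 1) (hD : 0 ≤ D) (hC : 0 ≤ C) (hA : A1 ≤ C * (l * u ^ 4)⁻¹ ^ 3) :
    1 / 2 * (D / (1 / (l ^ 3 * u ^ 20))) * (1 / (l ^ 3 * u ^ 20) * (8 * Real.pi * (l * u ^ 20))) * A1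
      ≤ 4 * Real.pi * C * u * (1 / l ^ 2 * D) := by
  have hpi := Real.pi_pos
  have e : 1 / 2 * (D / (1 / (l ^ 3 * u ^ 20))) * (1 / (l ^ 3 * u ^ 20) * (8 * Real.pi * (l * u ^ 20)))
      * (C * (l * u ^ 4)⁻¹ ^ 3) = 4 * Real.pi * C * u ^ (7 + 1) * (1 / l ^ 2 * D) := by
    field_simp
    ring
  calc 1 / 2 * (D / (1 / (l ^ 3 * u ^ 20))) * (1 / (l ^ 3 * u ^ 20) * (8 * Real.pi * (l * u ^ 20))) * A1
      ≤ 1 / 2 * (D / (1 / (l ^ 3 * u ^ 20))) * (1 / (l ^ 3 * u ^ 20) * (8 * Real.pi * (l * u ^ 20)))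
        * (C * (l * u ^ 4)⁻¹ ^ 3) := mul_le_mul_of_nonneg_left hA (by positivity)
    _ = 4 * Real.pi * C * u ^ (7 + 1) * (1 / l ^ 2 * D) := e
    _ ≤ _ := LErr_up hu hu1 (by positivity) (by positivity) 7

theorem LErr_9 (hl : 0 < l) (hl1 : l ≤ 1) (hu : 0 < u) (hu1 : u ≤ 1) (hD : 0 ≤ D) (hal : al ≤ 1 / l ^ 2) :
    1 / 2 * (D / (1 / (l ^ 3 * u ^ 20)))
        * (1 / (l * u ^ 4) ^ 2 + al + 1 / (l ^ 3 * u ^ 20) * (8 * Real.pi * (l * u ^ 20)))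
      ≤ (1 + 4 * Real.pi) * u * (1 / l ^ 2 * D) := by
  have hpi := Real.pi_pos
  have e : 1 / 2 * (D / (1 / (l ^ 3 * u ^ 20)))
        * (1 / (l * u ^ 4) ^ 2 + 1 / l ^ 2 + 1 / (l ^ 3 * u ^ 20) * (8 * Real.pi * (l * u ^ 20)))
      = 1 / 2 * (l ^ 3 * ((1 + (1 + 8 * Real.pi) * u ^ 8) * u ^ (11 + 1))) * (1 / l ^ 2 * D) := by
    field_simp
    ring
  have k1 : (1 + (1 + 8 * Real.pi) * u ^ 8) * u ^ (11 + 1) ≤ (2 + 8 * Real.pi) * u := by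
    refine mul_le_mul ?_ (LErr_pow hu hu1 11) (by positivity) (by positivity)
    have h8 : u ^ 8 ≤ 1 := pow_le_one₀ hu.le hu1
    have := mul_le_mul_of_nonneg_left h8 (show 0 ≤ 1 + 8 * Real.pi by positivity)
    linarith
  have k2 : l ^ 3 * ((1 + (1 + 8 * Real.pi) * u ^ 8) * u ^ (11 + 1)) ≤ 1 * ((2 + 8 * Real.pi) * u) :=
    mul_le_mul (pow_le_one₀ hl.le hl1) k1 (by positivity) (by norm_num)
  calc 1 / 2 * (D / (1 / (l ^ 3 * u ^ 20)))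
        * (1 / (l * u ^ 4) ^ 2 + al + 1 / (l ^ 3 * u ^ 20) * (8 * Real.pi * (l * u ^ 20)))
      ≤ 1 / 2 * (D / (1 / (l ^ 3 * u ^ 20)))
        * (1 / (l * u ^ 4) ^ 2 + 1 / l ^ 2 + 1 / (l ^ 3 * u ^ 20) * (8 * Real.pi * (l * u ^ 20))) := by
        refine mul_le_mul_of_nonneg_left ?_ (by positivity)
        linarith
    _ = 1 / 2 * (l ^ 3 * ((1 + (1 + 8 * Real.pi) * u ^ 8) * u ^ (11 + 1))) * (1 / l ^ 2 * D) := e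
    _ ≤ 1 / 2 * (1 * ((2 + 8 * Real.pi) * u)) * (1 / l ^ 2 * D) :=
        mul_le_mul_of_nonneg_right (mul_le_mul_of_nonneg_left k2 (by norm_num)) (by positivity)
    _ = _ := by ring

theorem LErr_10 (hl : 0 < l) (hu : 0 < u) (hu1 : u ≤ 1) (hD : 0 ≤ D) (hal0 : 0 ≤ al) (hal : al ≤ 1 / l ^ 2) :
    (1 / (l ^ 3 * u ^ 20) * (8 * Real.pi * (l * u ^ 20)) + al) ^ 2 * (l * u ^ 4) ^ 2 / u ^ 6 * D
      ≤ (8 * Real.pi + 1) ^ 2 * u * (1 / l ^ 2 * D) := by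
  have hpi := Real.pi_pos
  have e0 : 1 / (l ^ 3 * u ^ 20) * (8 * Real.pi * (l * u ^ 20)) = 8 * Real.pi * (1 / l ^ 2) := by
    field_simp
  rw [e0]
  have k1 : (8 * Real.pi * (1 / l ^ 2) + al) ^ 2 ≤ ((8 * Real.pi + 1) * (1 / l ^ 2)) ^ 2 := by
    refine pow_le_pow_left₀ (by positivity) ?_ 2
    linarith
  have e : ((8 * Real.pi + 1) * (1 / l ^ 2)) ^ 2 * (l * u ^ 4) ^ 2 / u ^ 6 * D
      = (8 * Real.pi + 1) ^ 2 * u ^ (1 + 1) * (1 / l ^ 2 * D) := by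
    field_simp
    ring
  calc (8 * Real.pi * (1 / l ^ 2) + al) ^ 2 * (l * u ^ 4) ^ 2 / u ^ 6 * D
      ≤ ((8 * Real.pi + 1) * (1 / l ^ 2)) ^ 2 * (l * u ^ 4) ^ 2 / u ^ 6 * D := by gcongr
    _ = (8 * Real.pi + 1) ^ 2 * u ^ (1 + 1) * (1 / l ^ 2 * D) := e
    _ ≤ _ := LErr_up hu hu1 (by positivity) (by positivity) 1

theorem LErr_11 (hl : 0 < l) (hu : 0 < u) (hu1 : u ≤ 1) (hD : 0 ≤ D) (hCM : 0 ≤ CM) (hC : 0 ≤ C) (hθ : 0 ≤ θ)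
    (hR : R ≤ θ * (l * u ^ 20)) (hM1n : 0 ≤ M1) (hM0n : 0 ≤ M0)
    (h1 : M1 ≤ CM * (1 / (l ^ 3 * u ^ 20)) ^ 2 * (D / u + u ^ 19 * (1 / (l ^ 3 * u ^ 20))))
    (h0 : M0 ≤ CM * (1 / (l ^ 3 * u ^ 20)) ^ 2) :
    C * (8 * Real.pi * (l * u ^ 20)) * ((R + l * u ^ 20) / (l * u ^ 4))
        * ((u ^ 6)⁻¹ / (1 / (l ^ 3 * u ^ 20)) * M1 + 1 / (u ^ 6)⁻¹ * M0)
      ≤ 16 * Real.pi * C * (θ + 1) * CM * u * (1 / l ^ 5 + 1 / l ^ 2 * D) := by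
  have hpi := Real.pi_pos
  have k1 : (R + l * u ^ 20) / (l * u ^ 4) ≤ (θ + 1) * u ^ 16 := by
    rw [div_le_iff₀ (by positivity)]
    calc R + l * u ^ 20 ≤ θ * (l * u ^ 20) + l * u ^ 20 := by linarith
      _ = (θ + 1) * u ^ 16 * (l * u ^ 4) := by ring
  have k2 : (u ^ 6)⁻¹ / (1 / (l ^ 3 * u ^ 20)) * M1 + 1 / (u ^ 6)⁻¹ * M0
      ≤ (u ^ 6)⁻¹ / (1 / (l ^ 3 * u ^ 20))
          * (CM * (1 / (l ^ 3 * u ^ 20)) ^ 2 * (D / u + u ^ 19 * (1 / (l ^ 3 * u ^ 20))))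
        + 1 / (u ^ 6)⁻¹ * (CM * (1 / (l ^ 3 * u ^ 20)) ^ 2) :=
    add_le_add (mul_le_mul_of_nonneg_left h1 (by positivity)) (mul_le_mul_of_nonneg_left h0 (by positivity))
  have k3 : 0 ≤ (u ^ 6)⁻¹ / (1 / (l ^ 3 * u ^ 20)) * M1 + 1 / (u ^ 6)⁻¹ * M0 := by positivity
  have e : C * (8 * Real.pi * (l * u ^ 20)) * ((θ + 1) * u ^ 16)
        * ((u ^ 6)⁻¹ / (1 / (l ^ 3 * u ^ 20))
          * (CM * (1 / (l ^ 3 * u ^ 20)) ^ 2 * (D / u + u ^ 19 * (1 / (l ^ 3 * u ^ 20))))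
        + 1 / (u ^ 6)⁻¹ * (CM * (1 / (l ^ 3 * u ^ 20)) ^ 2))
      = 8 * Real.pi * C * (θ + 1) * CM * u ^ (8 + 1) * (1 / l ^ 5 + 1 / l ^ 2 * D)
        + 8 * Real.pi * C * (θ + 1) * CM * u ^ (1 + 1) * (1 / l ^ 5) := by
    field_simp
    ring
  have j1 := LErr_up (X := 1 / l ^ 5 + 1 / l ^ 2 * D) hu hu1 (show 0 ≤ 8 * Real.pi * C * (θ + 1) * CM by positivity)
    (by positivity) 8
  have j2 := LErr_up (X := 1 / l ^ 5) hu hu1 (show 0 ≤ 8 * Real.pi * C * (θ + 1) * CM by positivity)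
    (by positivity) 1
  have j3 : 8 * Real.pi * C * (θ + 1) * CM * u * (1 / l ^ 5)
      ≤ 8 * Real.pi * C * (θ + 1) * CM * u * (1 / l ^ 5 + 1 / l ^ 2 * D) :=
    mul_le_mul_of_nonneg_left (le_add_of_nonneg_right (by positivity)) (by positivity)
  calc C * (8 * Real.pi * (l * u ^ 20)) * ((R + l * u ^ 20) / (l * u ^ 4))
        * ((u ^ 6)⁻¹ / (1 / (l ^ 3 * u ^ 20)) * M1 + 1 / (u ^ 6)⁻¹ * M0)
      ≤ C * (8 * Real.pi * (l * u ^ 20)) * ((θ + 1) * u ^ 16)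
        * ((u ^ 6)⁻¹ / (1 / (l ^ 3 * u ^ 20)) * M1 + 1 / (u ^ 6)⁻¹ * M0) :=
        mul_le_mul_of_nonneg_right (mul_le_mul_of_nonneg_left k1 (by positivity)) k3
    _ ≤ C * (8 * Real.pi * (l * u ^ 20)) * ((θ + 1) * u ^ 16)
        * ((u ^ 6)⁻¹ / (1 / (l ^ 3 * u ^ 20))
          * (CM * (1 / (l ^ 3 * u ^ 20)) ^ 2 * (D / u + u ^ 19 * (1 / (l ^ 3 * u ^ 20))))
        + 1 / (u ^ 6)⁻¹ * (CM * (1 / (l ^ 3 * u ^ 20)) ^ 2)) :=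
        mul_le_mul_of_nonneg_left k2 (by positivity)
    _ = _ := e
    _ ≤ _ := by linarith

/-- the diagonal term -/
theorem LErr_12 {B0 S : ℝ} (hl : 0 < l) (hl1 : l ≤ 1) (hu : 0 < u) (hu1 : u ≤ 1) (hD : 0 ≤ D) (hC6 : 0 ≤ C6)
    (hθ : 0 ≤ θ) (hR0 : 0 ≤ R) (hR : R ≤ θ * (l * u ^ 20))
    (hB : 8 * Real.pi * (l * u ^ 20) ^ 2 / Real.sqrt (Real.pi * (l * u ^ 4) ^ 2)
      - C6 * (l * u ^ 20) ^ 2 * (l * u ^ 4 + R / (l * u ^ 4) ^ 2) ≤ B0)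
    (hS0 : 0 ≤ S) (hS1 : S ≤ (1 / (l ^ 3 * u ^ 20)) ^ 2)
    (hS2 : (1 / (l ^ 3 * u ^ 20)) ^ 2 - 1 / (l ^ 3 * u ^ 20) - 2 * (1 / (l ^ 3 * u ^ 20)) * D ≤ S) :
    4 * Real.sqrt Real.pi / u ^ 4 * (1 / l ^ 5)
        - (12 * Real.sqrt Real.pi + C6 + C6 * θ) * u * (1 / l ^ 5 + 1 / l ^ 2 * D)
      ≤ 1 / 2 * B0 * S := by
  have hpi := Real.pi_pos
  set r := Real.sqrt Real.pi with hr
  have hr0 : 0 < r := Real.sqrt_pos.2 hpi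
  have hr2 : r ^ 2 = Real.pi := Real.sq_sqrt hpi.le
  have hst : Real.sqrt (Real.pi * (l * u ^ 4) ^ 2) = r * (l * u ^ 4) := by
    rw [Real.sqrt_mul hpi.le, Real.sqrt_sq (by positivity)]
  have hb : 8 * Real.pi * (l * u ^ 20) ^ 2 / Real.sqrt (Real.pi * (l * u ^ 4) ^ 2)
      = 8 * r * (l * u ^ 36) := by
    rw [hst, ← hr2]; field_simp
  rw [hb] at hB
  have k0 : 0 ≤ C6 * (l * u ^ 20) ^ 2 * (l * u ^ 4 + R / (l * u ^ 4) ^ 2) := by positivity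
  have m1 : 8 * r * (l * u ^ 36) * ((1 / (l ^ 3 * u ^ 20)) ^ 2 - 1 / (l ^ 3 * u ^ 20)
      - 2 * (1 / (l ^ 3 * u ^ 20)) * D) ≤ 8 * r * (l * u ^ 36) * S :=
    mul_le_mul_of_nonneg_left hS2 (by positivity)
  have m2 : C6 * (l * u ^ 20) ^ 2 * (l * u ^ 4 + R / (l * u ^ 4) ^ 2) * S
      ≤ C6 * (l * u ^ 20) ^ 2 * (l * u ^ 4 + R / (l * u ^ 4) ^ 2) * (1 / (l ^ 3 * u ^ 20)) ^ 2 :=
    mul_le_mul_of_nonneg_left hS1 k0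
  have m3 : (8 * r * (l * u ^ 36) - C6 * (l * u ^ 20) ^ 2 * (l * u ^ 4 + R / (l * u ^ 4) ^ 2)) * S ≤ B0 * S :=
    mul_le_mul_of_nonneg_right hB hS0
  have e1 : 8 * r * (l * u ^ 36) * ((1 / (l ^ 3 * u ^ 20)) ^ 2 - 1 / (l ^ 3 * u ^ 20)
      - 2 * (1 / (l ^ 3 * u ^ 20)) * D)
      = 2 * (4 * r / u ^ 4 * (1 / l ^ 5)) - 8 * r * (l ^ 3 * u ^ (15 + 1)) * (1 / l ^ 5)
        - 16 * r * u ^ (15 + 1) * (1 / l ^ 2 * D) := by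
    field_simp
    ring
  have e2 : C6 * (l * u ^ 20) ^ 2 * (l * u ^ 4 + R / (l * u ^ 4) ^ 2) * (1 / (l ^ 3 * u ^ 20)) ^ 2
      ≤ C6 * (l ^ 2 * u ^ (3 + 1)) * (1 / l ^ 5) + C6 * θ * u ^ (11 + 1) * (1 / l ^ 5) := by
    have h1 : R / (l * u ^ 4) ^ 2 ≤ θ * (l * u ^ 20) / (l * u ^ 4) ^ 2 :=
      div_le_div_of_nonneg_right hR (by positivity)
    have h2 : C6 * (l * u ^ 20) ^ 2 * (l * u ^ 4 + R / (l * u ^ 4) ^ 2) * (1 / (l ^ 3 * u ^ 20)) ^ 2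
        ≤ C6 * (l * u ^ 20) ^ 2 * (l * u ^ 4 + θ * (l * u ^ 20) / (l * u ^ 4) ^ 2)
          * (1 / (l ^ 3 * u ^ 20)) ^ 2 := by
      refine mul_le_mul_of_nonneg_right (mul_le_mul_of_nonneg_left ?_ (by positivity)) (by positivity)
      linarith
    refine h2.trans (le_of_eq ?_)
    field_simp
    ring
  have k3 : l ^ 3 * u ^ (15 + 1) ≤ u := by
    have h := mul_le_mul (pow_le_one₀ (n := 3) hl.le hl1) (LErr_pow hu hu1 15) (by positivity) zero_le_one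
    linarith
  have k2 : l ^ 2 * u ^ (3 + 1) ≤ u := by
    have h := mul_le_mul (pow_le_one₀ (n := 2) hl.le hl1) (LErr_pow hu hu1 3) (by positivity) zero_le_one
    linarith
  have hX : 0 < 1 / l ^ 5 := by positivity
  have hY : 0 ≤ 1 / l ^ 2 * D := by positivity
  have j1 : 8 * r * (l ^ 3 * u ^ (15 + 1)) * (1 / l ^ 5) ≤ 8 * r * u * (1 / l ^ 5) :=
    mul_le_mul_of_nonneg_right (mul_le_mul_of_nonneg_left k3 (by positivity)) hX.le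
  have j2 := LErr_up (X := 1 / l ^ 2 * D) hu hu1 (show 0 ≤ 16 * r by positivity) hY 15
  have j3 : C6 * (l ^ 2 * u ^ (3 + 1)) * (1 / l ^ 5) ≤ C6 * u * (1 / l ^ 5) :=
    mul_le_mul_of_nonneg_right (mul_le_mul_of_nonneg_left k2 hC6) hX.le
  have j4 := LErr_up (X := 1 / l ^ 5) hu hu1 (show 0 ≤ C6 * θ by positivity) hX.le 11
  have p1 : 0 ≤ r * u * (1 / l ^ 5) := by positivity
  have p2 : 0 ≤ r * u * (1 / l ^ 2 * D) := by positivity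
  have p3 : 0 ≤ C6 * u * (1 / l ^ 2 * D) := by positivity
  have p4 : 0 ≤ C6 * θ * u * (1 / l ^ 2 * D) := by positivity
  have p5 : 0 ≤ C6 * u * (1 / l ^ 5) := by positivity
  have p6 : 0 ≤ C6 * θ * u * (1 / l ^ 5) := by positivity
  have k5 : 1 / 2 * B0 * S = 1 / 2 * (B0 * S) := by ring
  rw [k5]
  have k6 : (12 * r + C6 + C6 * θ) * u * (1 / l ^ 5 + 1 / l ^ 2 * D)
      = 12 * (r * u * (1 / l ^ 5)) + 12 * (r * u * (1 / l ^ 2 * D)) + C6 * u * (1 / l ^ 5)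
        + C6 * u * (1 / l ^ 2 * D) + C6 * θ * u * (1 / l ^ 5) + C6 * θ * u * (1 / l ^ 2 * D) := by ring
  rw [k6]
  have k7 : 8 * r * u * (1 / l ^ 5) = 8 * (r * u * (1 / l ^ 5)) := by ring
  have k8 : 16 * r * u * (1 / l ^ 2 * D) = 16 * (r * u * (1 / l ^ 2 * D)) := by ring
  rw [k7] at j1
  rw [k8] at j2
  rw [e1] at m1
  have k9 : (8 * r * (l * u ^ 36) - C6 * (l * u ^ 20) ^ 2 * (l * u ^ 4 + R / (l * u ^ 4) ^ 2)) * S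
      = 8 * r * (l * u ^ 36) * S - C6 * (l * u ^ 20) ^ 2 * (l * u ^ 4 + R / (l * u ^ 4) ^ 2) * S := by ring
  rw [k9] at m3
  linarith

end Pool.Agent.Lib.MP_4952d6_mp.LB

end

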