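import Pool.Agent.Lib.MP_4952d6_mp.Pk.G20
import Pool.Agent.Lib.MP_4952d6_mp.Pk.G24
import Pool.Agent.Lib.MP_4952d6_mp.Pm.M02
import Pool.Agent.Lib.MP_4952d6_mp.Pm.M04

/-! Merged modules (to save import time): M.GF1, M.GF2, M.PSpl. -/

/-! ### M.GF1 -/

section

set_option autoImplicit false
set_option linter.unusedSectionVars false
set_option linter.unusedVariables false
open MeasureTheory Function Filter Topology Set ComplexConjugate

namespace Pool.Agent.Lib.MP_4952d6_mp.M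

/-! ### GF1: `uS` -/

theorem uS_m {C q a : ℝ} {N : ℕ} {D : Dat} (h : D.GDm C q a N) (hs : Sm C q) {δ τ : ℝ}
    (hδ : 0 ≤ δ) (hδ1 : δ ≤ 1) (hτ : 0 ≤ τ) (hτ1 : τ ≤ 1) {n : ℕ} (hn1 : 1 ≤ n) (hn : n ≤ N) :
    sm0 (fun p => D.uh p * Sg (D.F δ τ) n p) ∧
      tsum0 (fun p => D.uh p * Sg (D.F δ τ) n p) ≤ 5 * C ^ 2 * q ^ 78 := by
  have hC : 1 ≤ C := h.C1
  have hC0 : 0 < C := by linarith
  have hnN : n ≤ N := hn
  have hD := h.ok
  have hF := F_gas hD hδ hδ1 hτ
  have hF0 := F_gas hD hδ hδ1 (le_refl (0 : ℝ))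
  have hq0 := h.q0
  have hq1 : q ≤ 1 := h.q1.trans (by norm_num)
  have hI0 := GDm_Ic_nonneg h
  have hu0 := hD.uh_nonneg 0
  have hqC : C * q ^ 240 ≤ 1 / 4 := by
    have h1 := GDm_small' h hs (k := 1) (by norm_num) 239
    have h2 : q ^ 239 ≤ 1 := pow_le_one₀ hq0.le hq1
    rw [pow_one] at h1
    have h3 : C * q ^ (239 + 1) = C * q ^ 240 := rfl
    rw [h3] at h1
    linarith
  have hZτ : ∀ m, m ≤ N + 1 → 0 < Zg (D.F δ τ) m := fun m hm => Zpos_m h hs hδ hδ1 hτ hτ1 hm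
  have hZ0 : ∀ m, m ≤ N + 1 → 0 < Zg (D.F δ 0) m := fun m hm =>
    Zpos_m h hs hδ hδ1 le_rfl zero_le_one hm
  have hS0 : ∀ p, 0 ≤ Sg (D.F δ τ) n p := fun p => Sg_nonneg hF n p
  have hsm : Summable (fun p => D.uh p * Sg (D.F δ τ) n p) := by
    refine Summable.of_nonneg_of_le (fun p => mul_nonneg (hD.uh_nonneg p) (hS0 p)) (fun p => ?_)
      (hD.uh_summable.mul_right (n : ℝ))
    exact mul_le_mul_of_nonneg_left (Sg_le hF n p) (hD.uh_nonneg p)
  have hsmu : sm0 D.uh := sm0_of_summable hD.uh_summable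
  refine ⟨sm0_of_summable hsm, ?_⟩
  have hq78 : 0 < q ^ 78 := by positivity
  have hqq : q ^ 240 ≤ q ^ 78 := pow_le_pow_of_le_one hq0.le hq1 (by norm_num)
  have hCC : C ≤ C ^ 2 := by nlinarith
  have hu : tsum0 D.uh ≤ C * q ^ 78 := by
    have h1 := tsum0_le_tsum hD.uh_summable hu0
    rw [← ul_zero hD] at h1
    exact h1.trans (h.ul_le 0)
  rcases Nat.lt_or_ge n 2 with hn2 | hn2
  · have hn1e : n = 1 := by omega
    subst hn1e
    have h1 : tsum0 (fun p => D.uh p * Sg (D.F δ τ) 1 p) = tsum0 D.uh :=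
      tsum0_congr fun p _ => by rw [Sg_one, mul_one]
    rw [h1]
    nlinarith
  obtain ⟨k, rfl⟩ : ∃ k, n = k + 2 := ⟨n - 2, by omega⟩
  have hZk := hZτ (k + 2) (by omega)
  have hZk0 := hZ0 (k + 2) (by omega)
  have hmean := Hg_mean hD hF (n := k + 2) (by omega) hZk.ne'
  have hanti := Hg_mean_anti hD hδ hδ1 (le_refl (0 : ℝ)) hτ hZk0 hZk
  have hsplit : tsum0 (fun p => D.uh p * (Sg (D.F δ τ) (k + 2) p - 1)) =
      tsum0 (fun p => D.uh p * Sg (D.F δ τ) (k + 2) p) - tsum0 D.uh := by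
    rw [← tsum0_sub (sm0_of_summable hsm) hsmu]
    exact tsum0_congr fun p _ => by ring
  rw [hsplit] at hmean
  -- core gas
  have hkN : ((k : ℝ) + 2) ≤ N := by exact_mod_cast hnN
  have hk0 : (0 : ℝ) ≤ k := Nat.cast_nonneg k
  set ε := ((k : ℝ) + 1) * ∫ z, (1 - D.Fc z) ∂lam3 with hε
  have hεC : ε ≤ C * q ^ 240 := by
    refine le_trans ?_ h.Ic
    exact mul_le_mul_of_nonneg_right (by linarith) hI0
  have hε0 : 0 ≤ ε := mul_nonneg (by positivity) hI0
  have hulbm := ul_bm hD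
  have hpp : ∫ z, D.ul z * pp (D.F δ 0) k z ∂lam3 ≤ (1 + 4 * ε) * D.uh 0 := by
    have h1 : ∀ z, D.ul z * pp (D.F δ 0) k z ≤ D.ul z * (1 + 4 * ε) := fun z =>
      mul_le_mul_of_nonneg_left (pp_core_le hD hδ hδ1 (hεC.trans hqC) z) (hD.ul_nonneg z)
    have h2 := integral_mono (μ := lam3) ((hulbm.mul (pp_bm hF0 k)).integrable _)
      ((hulbm.mul (BM.const (1 + 4 * ε))).integrable _) h1
    rw [integral_mul_const, ul_int hD] at h2
    linarith
  have hE0 : Eg (D.F δ 0) (k + 2) (Hg D.ul) =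
      (k + 2) * ((k + 1) * ∫ z, D.ul z * pp (D.F δ 0) k z ∂lam3) := by
    have hpb : ∀ i j : Fin (k + 2), BM (fun x : Fin (k + 2) → T3 => D.ul (x i - x j)) :=
      fun i j => hulbm.comp (measurable_sub' (measurable_pi_apply i) (measurable_pi_apply j))
    unfold Hg
    rw [Eg_sum hF0 Finset.univ (fun i _ => BM.finset_sum _ fun j _ => hpb i j)]
    have h2 : ∀ i : Fin (k + 2), Eg (D.F δ 0) (k + 2)
        (fun x => ∑ j ∈ Finset.univ.erase i, D.ul (x i - x j)) =
        (k + 1) * ∫ z, D.ul z * pp (D.F δ 0) k z ∂lam3 := by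
      intro i
      rw [Eg_sum hF0 (Finset.univ.erase i) (fun j _ => hpb i j)]
      have h3 : ∀ j ∈ Finset.univ.erase i, Eg (D.F δ 0) (k + 2) (fun x => D.ul (x i - x j)) =
          ∫ z, D.ul z * pp (D.F δ 0) k z ∂lam3 := fun j hj =>
        pair_pp hF0 k hZk0 hulbm i j (Finset.ne_of_mem_erase hj).symm
      rw [Finset.sum_congr rfl h3, Finset.sum_const, Finset.card_erase_of_mem (Finset.mem_univ i),
        Finset.card_univ, Fintype.card_fin, nsmul_eq_mul]
      push_cast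
      simp
    rw [Finset.sum_congr rfl fun i _ => h2 i, Finset.sum_const, Finset.card_univ,
      Fintype.card_fin, nsmul_eq_mul]
    push_cast
    ring
  rw [hE0] at hanti
  rw [hmean] at hanti
  push_cast at hanti
  set S := tsum0 (fun p => D.uh p * Sg (D.F δ τ) (k + 2) p) with hS
  set J := ∫ z, D.ul z * pp (D.F δ 0) k z ∂lam3 with hJ
  -- divide by `k + 2`
  have hk2 : (0 : ℝ) < k + 2 := by positivity
  have h5 : ((k : ℝ) + 2) * ((k + 1) * D.uh 0 + (S - tsum0 D.uh)) ≤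
      (k + 2) * ((k + 1) * J) := by
    have e : ((k : ℝ) + 2) * ((k + 1) * D.uh 0 + (S - tsum0 D.uh)) =
        (k + 2) * (k + 2 - 1) * D.uh 0 + (k + 2) * (S - tsum0 D.uh) := by ring
    rw [e]
    exact hanti
  have h6 := le_of_mul_le_mul_left h5 hk2
  have h7 : ((k : ℝ) + 1) * J ≤ (k + 1) * ((1 + 4 * ε) * D.uh 0) :=
    mul_le_mul_of_nonneg_left hpp (by positivity)
  have h8 : ((k : ℝ) + 1) * D.uh 0 ≤ C :=
    (mul_le_mul_of_nonneg_right (by linarith) hu0).trans h.uh0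
  have h9 : 0 ≤ ((k : ℝ) + 1) * D.uh 0 := mul_nonneg (by positivity) hu0
  have h10 : (((k : ℝ) + 1) * D.uh 0) * ε ≤ C * (C * q ^ 240) := mul_le_mul h8 hεC hε0 hC0.le
  have h11 : C * (C * q ^ 240) ≤ C ^ 2 * q ^ 78 := by
    have := mul_le_mul_of_nonneg_left hqq (show 0 ≤ C ^ 2 by positivity)
    nlinarith
  have h12 : C * q ^ 78 ≤ C ^ 2 * q ^ 78 := mul_le_mul_of_nonneg_right hCC hq78.le
  nlinarith

end Pool.Agent.Lib.MP_4952d6_mp.M

end

/-! ### M.GF2 -/

section

set_option autoImplicit false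
set_option linter.unusedSectionVars false
set_option linter.unusedVariables false
open MeasureTheory Function Filter Topology Set ComplexConjugate

namespace Pool.Agent.Lib.MP_4952d6_mp.M

theorem varX_m {C q a : ℝ} {N : ℕ} {D : Dat} (h : D.GDm C q a N) (hs : Sm C q) {δ τ : ℝ}
    (hδ : 0 ≤ δ) (hδ1 : δ ≤ 1) (hτ : 0 ≤ τ) (hτ1 : τ ≤ 1) {n : ℕ} (hn : n ≤ N) :
    Eg (D.F δ τ) n (fun x => (Xg D.ul x 0 - n * D.uh 0) ^ 2) ≤ 5 * C ^ 3 * q ^ 78 := by
  have hGas := F_gas h.ok hδ hδ1 hτ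
  have hq0 := h.q0
  have hC1 := h.C1
  rcases Nat.eq_zero_or_pos n with h0 | h1
  · subst h0
    have e : (fun x : Fin 0 → T3 => (Xg D.ul x 0 - ((0 : ℕ) : ℝ) * D.uh 0) ^ 2)
        = fun _ => (0 : ℝ) := by
      ext x
      simp [Xg]
    rw [e, Eg_const (Zpos_m h hs hδ hδ1 hτ hτ1 (Nat.zero_le _)).ne']
    positivity
  · obtain ⟨hsm, hle⟩ := uS_m h hs hδ hδ1 hτ hτ1 h1 hn
    rw [Xg_var h.ok hGas h1 (Zpos_m h hs hδ hδ1 hτ hτ1 (by omega)).ne']
    have hS : ∀ p, 0 ≤ Sg (D.F δ τ) n p := Sg_nonneg hGas n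
    have hu : ∀ p, 0 ≤ D.uh p := h.ok.uh_nonneg
    have hpt : ∀ p, D.uh p ^ 2 * Sg (D.F δ τ) n p
        ≤ D.uh 0 * (D.uh p * Sg (D.F δ τ) n p) := by
      intro p
      have h2 := mul_le_mul_of_nonneg_right (h.uh_le p) (mul_nonneg (hu p) (hS p))
      linarith [h2, show D.uh p * (D.uh p * Sg (D.F δ τ) n p)
        = D.uh p ^ 2 * Sg (D.F δ τ) n p by ring]
    have hs1 := hsm.const_mul (D.uh 0)
    have hs2 : sm0 (fun p => D.uh p ^ 2 * Sg (D.F δ τ) n p) := by
      unfold sm0 at hs1 ⊢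
      refine Summable.of_nonneg_of_le (fun p => ?_) (fun p => ?_) hs1
      · split_ifs
        · exact le_rfl
        · exact mul_nonneg (sq_nonneg _) (hS p)
      · split_ifs
        · exact le_rfl
        · exact hpt p
    have h3 := tsum0_mono hs2 hs1 (fun p _ => hpt p)
    rw [tsum0_const_mul] at h3
    have h4 := mul_le_mul_of_nonneg_left h3 (Nat.cast_nonneg (α := ℝ) n)
    refine h4.trans ?_
    have h5 : 0 ≤ tsum0 fun p => D.uh p * Sg (D.F δ τ) n p :=
      tsum0_nonneg fun p _ => mul_nonneg (hu p) (hS p)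
    have h6 := GDm_n_uh0 h hn
    calc (n : ℝ) * (D.uh 0 * tsum0 fun p => D.uh p * Sg (D.F δ τ) n p)
        = (n * D.uh 0) * tsum0 fun p => D.uh p * Sg (D.F δ τ) n p := by ring
      _ ≤ C * (5 * C ^ 2 * q ^ 78) :=
          mul_le_mul h6 hle h5 (by linarith)
      _ = 5 * C ^ 3 * q ^ 78 := by ring

end Pool.Agent.Lib.MP_4952d6_mp.M

end

/-! ### M.PSpl -/

section

/-!
# PSpl: splitting of the long range potential at the time `l² / 64`

`us = ∫_t^{t_c} ω p_s`, `uo = ∫_{t_c}^∞ ω p_s`, `t_c = l² / 64`.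
`N us^(0) ≤ N 4π a_u l² / 64 ≤ 8π / 64 ≤ 1/2`; `uo ≤ 4 · 8π a (l²/κ² + 8/l) ≤ 32 π (1/κ² + 8) q^200` (`a l² ≤ q^200`, `a / l = q^200`).
-/

set_option autoImplicit false
set_option linter.unusedSectionVars false
set_option linter.unusedVariables false
open MeasureTheory Function Filter Topology Set
open scoped ENNReal

namespace Pool.Agent.Lib.MP_4952d6_mp.M

/-- the splitting time -/
noncomputable def tcq (q a : ℝ) : ℝ := lq q a ^ 2 / 64

/-- the weight cut off at the splitting time -/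
noncomputable def oms (κ q a s : ℝ) : ℝ := if s ≤ tcq q a then omu κ q a s else 0

theorem tq_lt_tcq {q a : ℝ} (hq : 0 < q) (hq1 : q ≤ 1 / 100) (ha : 0 < a) :
    tq q a < tcq q a := by
  have hl := lq_pos hq ha
  have h1 := OMB_tq hq ha
  have h2 : q ^ 242 < 1 / 64 := by
    calc q ^ 242 ≤ q ^ 1 := pow_le_pow_of_le_one hq.le (by linarith) (by norm_num)
      _ < 1 / 64 := by rw [pow_one]; linarith
  unfold tcq
  rw [← h1]
  have h3 : 0 < lq q a ^ 2 := by positivity
  nlinarith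

theorem uo_ok {κ q a : ℝ} (hκ : 0 < κ) (hq : 0 < q) (hq1 : q ≤ 1 / 100) (ha : 0 < a) :
    MixOk (omu κ q a) (tcq q a) (4 * Real.pi * auq q a) (κ ^ 2 / lq q a ^ 2) := by
  have h := omu_ok hκ hq hq1 ha
  have ht := tq_lt_tcq hq hq1 ha
  exact ⟨h.t_pos.trans ht, h.c_pos, h.meas, fun s hs => h.nonneg s (ht.trans hs),
    fun s hs => h.le s (ht.trans hs)⟩

theorem us_ok {κ q a : ℝ} (hκ : 0 < κ) (hq : 0 < q) (hq1 : q ≤ 1 / 100) (ha : 0 < a) :
    MixOk (oms κ q a) (tq q a) (4 * Real.pi * auq q a) (κ ^ 2 / lq q a ^ 2) := by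
  have h := omu_ok hκ hq hq1 ha
  have hA := OMB_auq hq hq1 ha
  have hpi := Real.pi_pos
  refine ⟨h.t_pos, h.c_pos, ?_, fun s hs => ?_, fun s hs => ?_⟩
  · unfold oms
    exact Measurable.ite measurableSet_Iic h.meas measurable_const
  · unfold oms
    split_ifs
    · exact h.nonneg s hs
    · exact le_rfl
  · unfold oms
    split_ifs
    · exact h.le s hs
    · positivity

/-- splitting of an integral over `(t, ∞)` at `t_c` -/
theorem split_int {κ q a : ℝ} (hκ : 0 < κ) (hq : 0 < q) (hq1 : q ≤ 1 / 100) (ha : 0 < a)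
    {g : ℝ → ℝ} (hg : IntegrableOn (fun s => omu κ q a s * g s) (Ioi (tq q a))) :
    ∫ s in Ioi (tq q a), omu κ q a s * g s
      = (∫ s in Ioi (tq q a), oms κ q a s * g s) + ∫ s in Ioi (tcq q a), omu κ q a s * g s := by
  have ht := tq_lt_tcq hq hq1 ha
  have hu : Ioi (tq q a) = Ioc (tq q a) (tcq q a) ∪ Ioi (tcq q a) :=
    (Ioc_union_Ioi_eq_Ioi ht.le).symm
  have h1 : IntegrableOn (fun s => omu κ q a s * g s) (Ioc (tq q a) (tcq q a)) :=
    hg.mono_set (by rw [hu]; exact subset_union_left)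
  have h2 : IntegrableOn (fun s => omu κ q a s * g s) (Ioi (tcq q a)) :=
    hg.mono_set (by rw [hu]; exact subset_union_right)
  have e1 : ∫ s in Ioi (tq q a), omu κ q a s * g s
      = (∫ s in Ioc (tq q a) (tcq q a), omu κ q a s * g s)
        + ∫ s in Ioi (tcq q a), omu κ q a s * g s := by
    conv_lhs => rw [hu]
    exact setIntegral_union (Set.Ioc_disjoint_Ioi le_rfl) measurableSet_Ioi h1 h2
  have e2 : ∫ s in Ioi (tq q a), oms κ q a s * g s
      = ∫ s in Ioc (tq q a) (tcq q a), omu κ q a s * g s := by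
    have e3 : (fun s => oms κ q a s * g s)
        = (Iic (tcq q a)).indicator (fun s => omu κ q a s * g s) := by
      funext s
      unfold oms
      by_cases hs : s ≤ tcq q a
      · rw [if_pos hs, Set.indicator_of_mem (show s ∈ Iic (tcq q a) from hs)]
      · rw [if_neg hs, Set.indicator_of_notMem (show s ∉ Iic (tcq q a) from hs), zero_mul]
    rw [e3, setIntegral_indicator measurableSet_Iic, Ioi_inter_Iic]
  rw [e1, e2]

theorem DPot_Spl : ∃ A : ℝ, 1 ≤ A ∧
    ∀ (κ : ℝ) (W f Q : ℝ → ℝ) (R₀ R a θ q : ℝ) (N : ℕ), 0 < κ → κ ≤ 1 →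
      Reg W R₀ R a f Q θ q → (N : ℝ) * a ^ 3 = q ^ 400 →
      Spl (A / κ ^ 4) q N (DPot κ q a f Q W) (mix0 (oms κ q a) (tq q a))
        (mix0 (omu κ q a) (tcq q a)) (mixh (oms κ q a) (tq q a))
        (mixh (omu κ q a) (tcq q a)) := by
  have hπ := Real.pi_pos
  refine ⟨288 * Real.pi + 1, by linarith, fun κ W f Q R₀ R a θ q N hκ hκ1 h hN => ?_⟩
  have hq := h.q_pos
  have hq1 := h.q_le
  have ha := h.a_pos
  have hl := h.l_pos
  have ho := uo_ok hκ hq hq1 ha
  have hs := us_ok hκ hq hq1 ha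
  have hu := omu_ok hκ hq hq1 ha
  have hA := OMB_auq hq hq1 ha
  have hα2 := alq_le_two hq hq1
  have hA2 : auq q a ≤ 2 * a := by
    unfold auq
    have := mul_le_mul_of_nonneg_left hα2 ha.le
    linarith
  refine ⟨mix0_bm hs, mix0_bm ho, mix0_nonneg hs, mix0_nonneg ho, fun x => mix0_neg _ _ x,
    fun x => mix0_neg _ _ x, mixh_nonneg hs, mixh_nonneg ho, mixh_summable hs, mixh_summable ho,
    mix0_hasSum hs, mix0_hasSum ho, fun x => ?_, fun p => ?_, ?_, fun x => ?_⟩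
  · exact split_int hκ hq hq1 ha (g := fun s => hk s x) (mix_integrable hu x).1
  · exact split_int hκ hq hq1 ha (g := fun s => Real.exp (-(s * ksq p))) (mixh_integrable hu p)
  · have ht := tq_lt_tcq hq hq1 ha
    have htp := hs.t_pos
    have hNl : (N : ℝ) * a * lq q a ^ 2 = 1 := by
      unfold lq
      have e : (N : ℝ) * a * (a / q ^ 200) ^ 2 = (N * a ^ 3) / q ^ 400 := by field_simp
      rw [e, hN, div_self (by positivity)]
    have h1 : mixh (oms κ q a) (tq q a) 0 ≤ 4 * Real.pi * auq q a * tcq q a := by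
      have e1 := split_int hκ hq hq1 ha (g := fun s => Real.exp (-(s * ksq 0)))
        (mixh_integrable hu 0)
      have e3 : (fun s => oms κ q a s * Real.exp (-(s * ksq 0)))
          = (Iic (tcq q a)).indicator (fun s => omu κ q a s) := by
        funext s
        rw [HKE_ksq_zero, mul_zero, neg_zero, Real.exp_zero, mul_one]
        unfold oms
        by_cases hs : s ≤ tcq q a
        · rw [if_pos hs, Set.indicator_of_mem (show s ∈ Iic (tcq q a) from hs)]
        · rw [if_neg hs, Set.indicator_of_notMem (show s ∉ Iic (tcq q a) from hs)]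
      have e2 : mixh (oms κ q a) (tq q a) 0 = ∫ s in Ioc (tq q a) (tcq q a), omu κ q a s := by
        unfold mixh
        rw [e3, setIntegral_indicator measurableSet_Iic, Ioi_inter_Iic]
      rw [e2]
      have hint : IntegrableOn (fun s => omu κ q a s) (Ioc (tq q a) (tcq q a)) := by
        have h2 := (mixh_integrable hu 0).mono_set
          (Ioc_subset_Ioi_self : Ioc (tq q a) (tcq q a) ⊆ Ioi (tq q a))
        refine h2.congr_fun (fun s _ => ?_) measurableSet_Ioc
        simp only [HKE_ksq_zero, mul_zero, neg_zero, Real.exp_zero, mul_one]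
      calc ∫ s in Ioc (tq q a) (tcq q a), omu κ q a s
          ≤ ∫ s in Ioc (tq q a) (tcq q a), 4 * Real.pi * auq q a := by
            refine setIntegral_mono_on hint continuous_const.integrableOn_Ioc measurableSet_Ioc
              fun s hs => ?_
            unfold omu
            have h3 : mh κ (s / lq q a ^ 2) ≤ 1 :=
              mh_le_one (div_nonneg (htp.trans hs.1).le (sq_nonneg _))
            have h4 : 0 ≤ 4 * Real.pi * auq q a := by positivity
            have := mul_le_mul_of_nonneg_left h3 h4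
            linarith
        _ = (tcq q a - tq q a) * (4 * Real.pi * auq q a) := by
            rw [setIntegral_const, smul_eq_mul, Measure.real, Real.volume_Ioc,
              ENNReal.toReal_ofReal (by linarith)]
        _ ≤ tcq q a * (4 * Real.pi * auq q a) :=
            mul_le_mul_of_nonneg_right (by linarith) (by positivity)
        _ = _ := by ring
    calc (N : ℝ) * mixh (oms κ q a) (tq q a) 0 ≤ N * (4 * Real.pi * auq q a * tcq q a) :=
          mul_le_mul_of_nonneg_left h1 (Nat.cast_nonneg _)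
      _ ≤ N * (4 * Real.pi * (2 * a) * tcq q a) := by
          have : 0 ≤ tcq q a := (htp.trans ht).le
          gcongr
      _ = Real.pi / 8 * (N * a * lq q a ^ 2) := by unfold tcq; ring
      _ = Real.pi / 8 := by rw [hNl, mul_one]
      _ ≤ 1 / 2 := by linarith [Real.pi_le_four]
  · have h1 := mix0_le ho x
    have hst : Real.sqrt (tcq q a) = lq q a / 8 := by
      unfold tcq
      have e : lq q a ^ 2 / 64 = (lq q a / 8) ^ 2 := by ring
      rw [e, Real.sqrt_sq (by positivity)]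
    rw [hst] at h1
    have h2 := h.al2_le
    have h3 : a / lq q a = q ^ 200 := by
      unfold lq
      field_simp
    have hκ4 : κ ^ 4 ≤ κ ^ 2 := pow_le_pow_of_le_one hκ.le hκ1 (by norm_num)
    have t3 : 1 / κ ^ 2 ≤ 1 / κ ^ 4 := one_div_le_one_div_of_le (by positivity) hκ4
    have t1 : 1 ≤ 1 / κ ^ 4 := by
      rw [le_div_iff₀ (by positivity), one_mul]
      exact pow_le_one₀ hκ.le hκ1
    have hq200 : 0 < q ^ 200 := by positivity
    calc mix0 (omu κ q a) (tcq q a) x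
        ≤ 4 * (4 * Real.pi * auq q a) * (1 / (κ ^ 2 / lq q a ^ 2) + 1 / (lq q a / 8)) := h1
      _ ≤ 4 * (4 * Real.pi * (2 * a)) * (1 / (κ ^ 2 / lq q a ^ 2) + 1 / (lq q a / 8)) := by
          gcongr
      _ = 32 * Real.pi * (1 / κ ^ 2 * (a * lq q a ^ 2) + 8 * (a / lq q a)) := by
          field_simp
          ring
      _ ≤ 32 * Real.pi * (1 / κ ^ 4 * q ^ 200 + 8 * (1 / κ ^ 4 * q ^ 200)) := by
          rw [h3]
          have h4 : 1 / κ ^ 2 * (a * lq q a ^ 2) ≤ 1 / κ ^ 4 * q ^ 200 :=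
            mul_le_mul t3 h2 (by positivity) (by positivity)
          have h5 : 1 * q ^ 200 ≤ 1 / κ ^ 4 * q ^ 200 := mul_le_mul_of_nonneg_right t1 hq200.le
          gcongr
          linarith
      _ = 288 * Real.pi * (1 / κ ^ 4 * q ^ 200) := by ring
      _ ≤ (288 * Real.pi + 1) * (1 / κ ^ 4 * q ^ 200) :=
          mul_le_mul_of_nonneg_right (by linarith) (by positivity)
      _ = (288 * Real.pi + 1) / κ ^ 4 * q ^ 200 := by ring

end Pool.Agent.Lib.MP_4952d6_mp.M

end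

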