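import Pool.Agent.Lib.MP_4952d6_mp.Pk.G17
import Pool.Agent.Lib.MP_4952d6_mp.Pm.M04

/-! Merged modules (to save import time): M.GLb, M.GLe, M.GLc, M.GLd, M.GLf, M.GLg. -/

/-! ### M.GLb -/

section

set_option autoImplicit false
set_option linter.unusedSectionVars false
set_option linter.unusedVariables false
open MeasureTheory Function Filter Topology Set ComplexConjugate

namespace Pool.Agent.Lib.MP_4952d6_mp.M

/-! Light copy of `U/GN` -/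

/-- Second moment of the score for all `1 ≤ n ≤ N` (`n = 1`: `Eg_J_sq_one`; `n ≥ 2`: `Eg_J_sq`, `jg_le`). -/
theorem Eg_J_sq_le {K q a : ℝ} {N : ℕ} {D : Dat} (h : GasOKm K q a N D) {δ τ : ℝ} (hδ : 0 < δ)
    (hδ1 : δ ≤ 1) (hτ : 0 ≤ τ) (hτ1 : τ ≤ 1) {n : ℕ} (hn1 : 1 ≤ n) (hn : n ≤ N)
    {p : Fin 3 → ℤ} (hp : p ≠ 0) :
    Eg (D.F δ τ) n (fun x => ‖Jk (D.du δ τ) p x‖ ^ 2)
      ≤ n * (ksq p ^ 2 * (1 + 2 * τ * n * D.uh p + D.eb (K * q ^ 78) N p)) := by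
  have g := h.gd
  have hD := g.ok
  have hK1 := g.C1
  have hq0 := g.q0
  have hq1 : q ≤ 1 := g.q1.trans (by norm_num)
  have hK0 : 0 ≤ K := zero_le_one.trans hK1
  have hκ : 0 ≤ K * q ^ 78 := by positivity
  have hκ1 : K * q ^ 78 ≤ 1 := by
    have h1 : K ≤ K ^ 20 := le_self_pow₀ hK1 (by norm_num)
    have h2 : q ^ 78 ≤ q := pow_le_of_le_one hq0.le hq1 (by norm_num)
    have h3 := mul_le_mul h1 h2 (by positivity) (by positivity)
    have h4 := h.small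
    linarith
  have he := eb_nonneg hD hκ N p
  have hu := hD.uh_nonneg p
  rcases Nat.lt_or_ge n 2 with hn2 | hn2
  · obtain rfl : n = 1 := by omega
    rw [Eg_J_sq_one hD hδ.le hδ1 hτ p]
    have hk : 0 ≤ ksq p ^ 2 := sq_nonneg _
    have h1 : 0 ≤ 2 * τ * ((1:ℕ):ℝ) * D.uh p + D.eb (K * q ^ 78) N p := by positivity
    have h2 := mul_nonneg hk h1
    have h3 : ((1:ℕ):ℝ) * (ksq p ^ 2 * (1 + 2 * τ * ((1:ℕ):ℝ) * D.uh p + D.eb (K * q ^ 78) N p))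
        = ksq p ^ 2 + ksq p ^ 2 * (2 * τ * ((1:ℕ):ℝ) * D.uh p + D.eb (K * q ^ 78) N p) := by
      push_cast; ring
    rw [h3]
    linarith
  · obtain ⟨m, rfl⟩ : ∃ m, n = m + 2 := ⟨n - 2, by omega⟩
    have hZ := h.Zpos δ τ hδ.le hδ1 hτ hτ1 (m + 2) (by omega)
    rw [Eg_J_sq hD hδ hδ1 hτ hZ p]
    have hy := h.yy1 δ τ hδ.le hδ1 hτ hτ1 m hn
    have hj := jg_le hD hδ hδ1 hτ hτ1 hn hκ hκ1 hy hp
    have e : ((m + 2 : ℕ) : ℝ) = (m:ℝ) + 2 := by push_cast; ring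
    rw [e]
    exact mul_le_mul_of_nonneg_left hj (by positivity)

/-- Cramer-Rao for `δ > 0`: `(n |k|²)² = |E[conj ρ J]|² ≤ E|ρ|² E|J|²` (`EgC_rho_J`, `EgC_cs`, `n_mul_Sg`), hence
`S ≥ 1/(1 + 2τn uh + e) ≥ 1/(1 + 2τn uh) - e`. -/
theorem Sg_lower_pos {K q a : ℝ} {N : ℕ} {D : Dat} (h : GasOKm K q a N D) {δ τ : ℝ} (hδ : 0 < δ)
    (hδ1 : δ ≤ 1) (hτ : 0 ≤ τ) (hτ1 : τ ≤ 1) {n : ℕ} (hn1 : 1 ≤ n) (hn : n ≤ N)
    {p : Fin 3 → ℤ} (hp : p ≠ 0) :
    D.Ss τ n p - D.eb (K * q ^ 78) N p ≤ Sg (D.F δ τ) n p := by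
  have g := h.gd
  have hD := g.ok
  have hq0 := g.q0
  have hK0 : 0 ≤ K := zero_le_one.trans g.C1
  have hκ : 0 ≤ K * q ^ 78 := by positivity
  have he := eb_nonneg hD hκ N p
  have hu := hD.uh_nonneg p
  have hF := F_gas hD hδ.le hδ1 hτ
  have hZ := h.Zpos δ τ hδ.le hδ1 hτ hτ1 n (by omega)
  have hn0 : (0:ℝ) < n := by exact_mod_cast hn1
  have hk : 0 < ksq p := lt_of_lt_of_le one_pos (ksq_ge_one hp)
  have hJ := Eg_J_sq_le h hδ hδ1 hτ hτ1 hn1 hn hp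
  obtain ⟨hJm, hJb⟩ := Jk_meas hD (τ := τ) hδ hδ1 n p
  obtain ⟨hRm, C, hC⟩ := rhoN_meas p n
  have hcm : Measurable (fun x : Fin n → T3 => conj (rhoN p x)) :=
    Complex.continuous_conj.measurable.comp hRm
  have hcb : ∃ C, ∀ x : Fin n → T3, ‖conj (rhoN p x)‖ ≤ C :=
    ⟨C, fun x => by rw [RCLike.norm_conj]; exact hC x⟩
  have hcs := EgC_cs hF hcm hcb hJm hJb
  rw [EgC_rho_J hD hδ hδ1 hτ hZ.ne' p] at hcs
  have e1 : Eg (D.F δ τ) n (fun x => ‖conj (rhoN p x)‖ ^ 2) = n * Sg (D.F δ τ) n p := by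
    rw [n_mul_Sg hF n p]
    simp only [RCLike.norm_conj]
  rw [e1, Complex.norm_real, Real.norm_eq_abs, sq_abs] at hcs
  have hS0 := Sg_nonneg hF n p
  set S := Sg (D.F δ τ) n p with hS
  set e := D.eb (K * q ^ 78) N p with hedef
  have hA : 1 ≤ 1 + 2 * τ * n * D.uh p := by
    have : 0 ≤ 2 * τ * n * D.uh p := by positivity
    linarith
  unfold Dat.Ss
  set A := 1 + 2 * τ * n * D.uh p with hAdef
  have hb : (n * ksq p) ^ 2 ≤ (n * S) * (n * (ksq p ^ 2 * (A + e))) :=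
    hcs.trans (mul_le_mul_of_nonneg_left hJ (by positivity))
  have hb1 : 1 ≤ S * (A + e) := by
    have h1 : (n * ksq p) ^ 2 * 1 ≤ (n * ksq p) ^ 2 * (S * (A + e)) := by
      rw [mul_one]
      refine hb.trans (le_of_eq ?_)
      ring
    exact le_of_mul_le_mul_left h1 (by positivity)
  have hA0 : 0 < A := lt_of_lt_of_le one_pos hA
  have h2 : 1 / A - e ≤ 1 / (A + e) := by
    rw [sub_le_iff_le_add, div_le_iff₀ hA0]
    have h3 : (1 / (A + e) + e) * A = A / (A + e) + e * A := by ring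
    rw [h3]
    have h4 : e / (A + e) ≤ e * A := by
      rw [div_le_iff₀ (by positivity)]
      have h5 : 1 ≤ A * (A + e) := by nlinarith
      calc e = e * 1 := (mul_one e).symm
        _ ≤ e * (A * (A + e)) := mul_le_mul_of_nonneg_left h5 he
        _ = e * A * (A + e) := by ring
    have h6 : A / (A + e) + e / (A + e) = 1 := by
      rw [← add_div, div_self (by positivity)]
    linarith
  refine h2.trans ?_
  rw [div_le_iff₀ (by positivity)]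
  exact hb1

/-- `(U4.3)` for `δ = 0`, by `Eg_delta_tendsto`. -/
theorem Sg_lower {K q a : ℝ} {N : ℕ} {D : Dat} (h : GasOKm K q a N D) {τ : ℝ} (hτ : 0 ≤ τ)
    (hτ1 : τ ≤ 1) {n : ℕ} (hn1 : 1 ≤ n) (hn : n ≤ N) {p : Fin 3 → ℤ} (hp : p ≠ 0) :
    D.Ss τ n p - D.eb (K * q ^ 78) N p ≤ Sg (D.F 0 τ) n p := by
  have hD := h.gd.ok
  have hZ := h.Zpos 0 τ le_rfl zero_le_one hτ hτ1 n (by omega)
  have hT := (Eg_delta_tendsto hD hτ hZ (rhoN_sq_bm p n)).div_const (n : ℝ)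
  refine ge_of_tendsto hT ?_
  filter_upwards [Ioo_mem_nhdsGT (zero_lt_one : (0:ℝ) < 1)] with δ hδ
  exact Sg_lower_pos h hδ.1 hδ.2.le hτ hτ1 hn1 hn hp

end Pool.Agent.Lib.MP_4952d6_mp.M

end

/-! ### M.GLe -/

section

set_option autoImplicit false
set_option linter.unusedSectionVars false
set_option linter.unusedVariables false
open MeasureTheory Function Filter Topology Set ComplexConjugate

namespace Pool.Agent.Lib.MP_4952d6_mp.M

/-! Light copy of `U/GS` -/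

/-- Lower bound for the mean of `H`. -/
theorem Hg_mean_ge {K q a : ℝ} {N : ℕ} {D : Dat} (h : GasOKm K q a N D) {σ : ℝ} (hσ : 0 ≤ σ)
    (hσ1 : σ ≤ 1) {n : ℕ} (hn1 : 1 ≤ n) (hn : n ≤ N) :
    n * (n - 1) * D.uh 0 - n * tsum0 (fun p => D.uh p * (2 * σ * n * D.uh p
        / (1 + 2 * σ * n * D.uh p))) - n * (120 * K ^ 4 * q ^ 278)
      ≤ Eg (D.F 0 σ) n (Hg D.ul) := by
  have hD := h.gd.ok
  have hF : GasFn lam3 (D.F 0 σ) := F_gas hD le_rfl zero_le_one hσ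
  have hZ : Zg (D.F 0 σ) n ≠ 0 := (h.Zpos 0 σ le_rfl zero_le_one hσ hσ1 n (by omega)).ne'
  rw [Hg_mean hD hF hn1 hZ]
  obtain ⟨s1, -⟩ := h.uS 0 σ le_rfl zero_le_one hσ hσ1 n hn1 hn
  obtain ⟨s2, e2⟩ := eb_sum h
  have hc : (0:ℝ) ≤ 2 * σ * n := by positivity
  have s3 := GS_frac_sm0 hD hc
  have s4 : sm0 (fun p => D.uh p * (Sg (D.F 0 σ) n p - 1)) :=
    sm0_congr (fun p _ => by ring) (s1.sub (GS_uh_summable hD))
  have h1 : -(tsum0 (fun p => D.uh p * (2 * σ * n * D.uh p / (1 + 2 * σ * n * D.uh p)))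
      + tsum0 (fun p => D.uh p * D.eb (K * q ^ 78) N p))
      ≤ tsum0 (fun p => D.uh p * (Sg (D.F 0 σ) n p - 1)) := by
    rw [← tsum0_add s3 s2, ← neg_one_mul, ← tsum0_const_mul]
    refine tsum0_mono ((s3.add s2).const_mul (-1)) s4 fun p hp => ?_
    have h2 := Sg_lower h hσ hσ1 hn1 hn hp
    have h0 := hD.uh_nonneg p
    have hx : 0 ≤ 2 * σ * n * D.uh p := mul_nonneg hc h0
    have h3 : D.Ss σ n p = 1 - 2 * σ * n * D.uh p / (1 + 2 * σ * n * D.uh p) := by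
      unfold Dat.Ss
      rw [eq_sub_iff_add_eq, ← add_div]
      exact div_self (by linarith)
    rw [h3] at h2
    have h4 := mul_le_mul_of_nonneg_left h2 h0
    linarith
  have hn0 : (0:ℝ) ≤ n := Nat.cast_nonneg n
  have h5 := mul_le_mul_of_nonneg_left h1 hn0
  have h6 := mul_le_mul_of_nonneg_left e2 hn0
  linarith

/-- One step: with `B σ = - σ u_0 n (n-1) + (1/2) ∑ gf (2σn uh) + σ n E*`,
`P(σ') - P(σ) ≤ B(σ') - B(σ) + (σ'-σ)² 2 n² ∑ uh²` (`gf_tangent` at `x = 2σn uh`, `y = 2σ'n uh`, and `x/(1+x)` is `1`-Lipschitz). -/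
theorem logZ_step {K q a : ℝ} {N : ℕ} {D : Dat} (h : GasOKm K q a N D) {σ σ' : ℝ} (hσ : 0 ≤ σ)
    (hσσ' : σ ≤ σ') (hσ' : σ' ≤ 1) {n : ℕ} (hn1 : 1 ≤ n) (hn : n ≤ N) :
    Real.log (Zg (D.F 0 σ') n) - Real.log (Zg (D.F 0 σ) n)
      ≤ (-(σ' * (n * (n - 1) * D.uh 0)) + 1 / 2 * tsum0 (fun p => gf (2 * σ' * n * D.uh p))
          + σ' * (n * (120 * K ^ 4 * q ^ 278)))
        - (-(σ * (n * (n - 1) * D.uh 0)) + 1 / 2 * tsum0 (fun p => gf (2 * σ * n * D.uh p))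
          + σ * (n * (120 * K ^ 4 * q ^ 278)))
        + (σ' - σ) ^ 2 * (2 * n ^ 2 * ∑' p, D.uh p ^ 2) := by
  have hD := h.gd.ok
  have hσ'0 : 0 ≤ σ' := hσ.trans hσσ'
  have hσ1 : σ ≤ 1 := hσσ'.trans hσ'
  have hZ := h.Zpos 0 σ le_rfl zero_le_one hσ hσ1 n (by omega)
  have hZ' := h.Zpos 0 σ' le_rfl zero_le_one hσ'0 hσ' n (by omega)
  have h1 := log_Zg_tilt hD le_rfl zero_le_one hσ'0 hσ hZ' hZ
  have h2 := Hg_mean_ge h hσ'0 hσ' hn1 hn
  have hc : (0:ℝ) ≤ 2 * σ * n := by positivity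
  have hc' : (0:ℝ) ≤ 2 * σ' * n := by positivity
  have hd : 0 ≤ σ' - σ := sub_nonneg.2 hσσ'
  have hn0 : (0:ℝ) ≤ n := Nat.cast_nonneg n
  have s3 := GS_frac_sm0 hD hc'
  have s4 := GS_gf_sm0 hD hc
  have s5 := GS_gf_sm0 hD hc'
  have s6 := GS_uh_sq_sm0 hD
  have key : (σ' - σ) * n * tsum0 (fun p => D.uh p * (2 * σ' * n * D.uh p
        / (1 + 2 * σ' * n * D.uh p)))
      ≤ 1 / 2 * (tsum0 (fun p => gf (2 * σ' * n * D.uh p)) - tsum0 (fun p => gf (2 * σ * n * D.uh p)))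
        + (σ' - σ) ^ 2 * (2 * n ^ 2 * tsum0 (fun p => D.uh p ^ 2)) := by
    rw [← tsum0_sub s5 s4, ← tsum0_const_mul, ← tsum0_const_mul,
      show (σ' - σ) ^ 2 * (2 * n ^ 2 * tsum0 (fun p => D.uh p ^ 2))
        = ((σ' - σ) ^ 2 * (2 * n ^ 2)) * tsum0 (fun p => D.uh p ^ 2) by ring,
      ← tsum0_const_mul, ← tsum0_add ((s5.sub s4).const_mul _) (s6.const_mul _)]
    refine tsum0_mono (s3.const_mul _) (((s5.sub s4).const_mul _).add (s6.const_mul _)) fun p _ => ?_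
    have h0 := hD.uh_nonneg p
    have hx : 0 ≤ 2 * σ * n * D.uh p := mul_nonneg hc h0
    have hy : 0 ≤ 2 * σ' * n * D.uh p := mul_nonneg hc' h0
    have hxy : 2 * σ * n * D.uh p ≤ 2 * σ' * n * D.uh p := by
      have : 2 * σ * n ≤ 2 * σ' * n := by nlinarith
      exact mul_le_mul_of_nonneg_right this h0
    have t1 := gf_tangent hx hy
    have t2 := GS_frac_lip hx hxy
    have t3 : 0 ≤ (σ' - σ) * n * D.uh p := mul_nonneg (mul_nonneg hd hn0) h0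
    have t4 := mul_le_mul_of_nonneg_left t2 t3
    have e1 : 2 * σ' * n * D.uh p - 2 * σ * n * D.uh p = 2 * ((σ' - σ) * n * D.uh p) := by ring
    rw [e1] at t1 t4
    nlinarith
  have h3 : tsum0 (fun p => D.uh p ^ 2) ≤ ∑' p, D.uh p ^ 2 :=
    tsum0_le_tsum (uh_sq_summable hD) (sq_nonneg _)
  have h4 : (σ' - σ) ^ 2 * (2 * n ^ 2 * tsum0 (fun p => D.uh p ^ 2))
      ≤ (σ' - σ) ^ 2 * (2 * n ^ 2 * ∑' p, D.uh p ^ 2) := by gcongr
  have h5 := mul_le_mul_of_nonneg_left h2 hd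
  nlinarith

/-- `(U5.1)`: telescope over `σ j / m`, `j ≤ m`, `P(0) ≤ 0` (`Zg_le_one`), and let `m → ∞`. -/
theorem logZ_upper {K q a : ℝ} {N : ℕ} {D : Dat} (h : GasOKm K q a N D) {σ : ℝ} (hσ : 0 ≤ σ)
    (hσ1 : σ ≤ 1) {n : ℕ} (hn1 : 1 ≤ n) (hn : n ≤ N) :
    Real.log (Zg (D.F 0 σ) n)
      ≤ -(σ * (n * (n - 1) * D.uh 0)) + 1 / 2 * tsum0 (fun p => gf (2 * σ * n * D.uh p))
        + σ * (n * (120 * K ^ 4 * q ^ 278)) := by
  have hD := h.gd.ok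
  obtain ⟨P, hP⟩ : ∃ P : ℝ → ℝ, P = fun σ => Real.log (Zg (D.F 0 σ) n) := ⟨_, rfl⟩
  obtain ⟨B, hB⟩ : ∃ B : ℝ → ℝ, B = fun σ => -(σ * (n * (n - 1) * D.uh 0))
    + 1 / 2 * tsum0 (fun p => gf (2 * σ * n * D.uh p)) + σ * (n * (120 * K ^ 4 * q ^ 278)) := ⟨_, rfl⟩
  obtain ⟨c, hc⟩ : ∃ c : ℝ, c = 2 * (n:ℝ) ^ 2 * ∑' p, D.uh p ^ 2 := ⟨_, rfl⟩
  have step : ∀ x y : ℝ, 0 ≤ x → x ≤ y → y ≤ 1 → P y - P x ≤ B y - B x + (y - x) ^ 2 * c := by
    intro x y h1 h2 h3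
    rw [hP, hB, hc]
    exact logZ_step h h1 h2 h3 hn1 hn
  have hP0 : P 0 ≤ 0 := by
    rw [hP]
    have hF : GasFn lam3 (D.F 0 0) := F_gas hD le_rfl zero_le_one le_rfl
    exact Real.log_nonpos (Zg_nonneg hF n) (Zg_le_one hF n)
  have hB0 : B 0 = 0 := by
    rw [hB]
    have e : tsum0 (fun p => gf (2 * 0 * n * D.uh p)) = 0 := by
      have e1 : ∀ p : Fin 3 → ℤ, p ≠ 0 → gf (2 * 0 * n * D.uh p) = 0 * D.uh p := by
        intro p _
        rw [mul_zero, zero_mul, zero_mul, gf_zero]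
      rw [tsum0_congr e1, tsum0_const_mul, zero_mul]
    simp only [e]
    ring
  have main : ∀ m : ℕ, 0 < m → P σ ≤ B σ + σ ^ 2 * c / m := by
    intro m hm
    have hm0 : (0:ℝ) < m := Nat.cast_pos.2 hm
    have tel : ∀ j : ℕ, j ≤ m → P (σ * j / m) - P 0 ≤ B (σ * j / m) - B 0 + j * ((σ / m) ^ 2 * c) := by
      intro j
      induction j with
      | zero =>
        intro _
        simp
      | succ j ih =>
        intro hj
        have h1 := ih (by omega)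
        have hjm : ((j:ℝ) + 1) ≤ m := by exact_mod_cast hj
        have h2 : 0 ≤ σ * j / m := by positivity
        have h3 : σ * j / m ≤ σ * ((j:ℝ) + 1) / m := by gcongr; linarith
        have h4 : σ * ((j:ℝ) + 1) / m ≤ 1 := by
          rw [div_le_one hm0]
          nlinarith
        have h5 := step _ _ h2 h3 h4
        have h6 : σ * ((j:ℝ) + 1) / m - σ * j / m = σ / m := by ring
        rw [h6] at h5
        push_cast
        linarith
    have h1 := tel m le_rfl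
    rw [mul_div_assoc, div_self hm0.ne', mul_one, hB0] at h1
    have h2 : (m:ℝ) * ((σ / m) ^ 2 * c) = σ ^ 2 * c / m := by
      field_simp
    rw [h2] at h1
    linarith
  have lim : Tendsto (fun m : ℕ => B σ + σ ^ 2 * c / (m:ℝ)) atTop (𝓝 (B σ + 0)) :=
    tendsto_const_nhds.add (tendsto_const_nhds.div_atTop tendsto_natCast_atTop_atTop)
  rw [add_zero] at lim
  have fin : P σ ≤ B σ := by
    refine ge_of_tendsto lim ?_
    filter_upwards [eventually_gt_atTop 0] with m hm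
    exact main m hm
  rw [hP, hB] at fin
  exact fin

end Pool.Agent.Lib.MP_4952d6_mp.M

end

/-! ### M.GLc -/

section

set_option autoImplicit false
set_option linter.unusedSectionVars false
set_option linter.unusedVariables false
open MeasureTheory Function Filter Topology Set ComplexConjugate

namespace Pool.Agent.Lib.MP_4952d6_mp.M

/-! Light copy of `U/GO2` -/

/-- `|∂_α θ| ≤ ∑ |k| c ≤ 2 ∑ uh / |k| ≤ 2 K a / q` (`uh_inv`, `abs_kc_le`), so `|κ| ≤ (4 K a/q) ∑_α |∂_α ul|`. -/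
theorem norm_kap_le {K q a : ℝ} {N : ℕ} {D : Dat} (h : GasOKm K q a N D) (n : ℕ)
    {P : Finset (Fin 3 → ℤ)} (hP : 0 ∉ P) (z : T3) :
    ‖kap D n P z‖ ≤ 4 * K * a / q * ∑ α, |D.dul α z| := by
  have hD := h.gd.ok
  refine (GO2_norm_kap_le D n P z).trans ?_
  rw [Finset.mul_sum]
  refine Finset.sum_le_sum fun α _ => ?_
  have h1 : ∑ p ∈ P, |cth D n p| * |kc p α| ≤ 2 * (K * a / q) := by
    have h2 : ∑ p ∈ P, |cth D n p| * |kc p α| ≤ ∑ p ∈ P, 2 * (D.uh p / Real.sqrt (ksq p)) := by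
      refine Finset.sum_le_sum fun p hp => ?_
      have hp0 : p ≠ 0 := fun h => hP (h ▸ hp)
      have hk : 0 < ksq p := lt_of_lt_of_le one_pos (ksq_ge_one hp0)
      have hu := hD.uh_nonneg p
      have h4 : 1 ≤ 1 + 2 * (n : ℝ) * D.uh p := by
        have : 0 ≤ 2 * (n : ℝ) * D.uh p := by positivity
        linarith
      have h5 : |cth D n p| ≤ 2 * D.uh p / ksq p := by
        unfold cth
        rw [abs_of_nonneg (by positivity)]
        refine div_le_div_of_nonneg_left (by positivity) hk ?_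
        exact le_mul_of_one_le_right hk.le h4
      have hs : 0 < Real.sqrt (ksq p) := Real.sqrt_pos.2 hk
      calc |cth D n p| * |kc p α| ≤ (2 * D.uh p / ksq p) * Real.sqrt (ksq p) :=
            mul_le_mul h5 (abs_kc_le p α) (abs_nonneg _) (by positivity)
        _ = 2 * (D.uh p / Real.sqrt (ksq p)) := by
            rw [div_mul_eq_mul_div, mul_div_assoc, Real.sqrt_div_self', mul_assoc, mul_one_div]
    refine h2.trans ?_
    rw [← Finset.mul_sum]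
    refine mul_le_mul_of_nonneg_left ?_ (by norm_num)
    refine le_trans ?_ h.gd.uh_inv.2
    refine h.gd.uh_inv.1.sum_le_tsum P fun p _ => ?_
    exact div_nonneg (hD.uh_nonneg p) (Real.sqrt_nonneg _)
  calc 2 * |D.dul α z| * ∑ p ∈ P, |cth D n p| * |kc p α| ≤ 2 * |D.dul α z| * (2 * (K * a / q)) :=
        mul_le_mul_of_nonneg_left h1 (by positivity)
    _ = 4 * K * a / q * |D.dul α z| := by ring

/-- `⟨|∑_i κ(x_i)|²⟩ ≤ n ∫|κ|² + 2 (n ∫|κ|)² ≤ 500 K⁴ q^398` (`pair_prod_le` with `B = 2`, `Eg_one`, `d1`, `d2`, `N a³ = q^400`). -/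
theorem kap_second {K q a : ℝ} {N : ℕ} {D : Dat} (h : GasOKm K q a N D) {δ τ : ℝ} (hδ : 0 ≤ δ)
    (hδ1 : δ ≤ 1) (hτ : 0 ≤ τ) (hτ1 : τ ≤ 1) {n m : ℕ} (hn : n ≤ N)
    {P : Finset (Fin 3 → ℤ)} (hP : 0 ∉ P) :
    Eg (D.F δ τ) n (fun x => ‖∑ i, kap D m P (x i)‖ ^ 2) ≤ 500 * K ^ 4 * q ^ 398 := by
  have hD := h.gd.ok
  have hF : GasFn lam3 (D.F δ τ) := F_gas hD hδ hδ1 hτ
  have hZ : 0 < Zg (D.F δ τ) n := h.Zpos δ τ hδ hδ1 hτ hτ1 n (by omega)
  have hq := h.gd.q0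
  have hq1 : q ≤ 1 := by linarith [h.gd.q1]
  have ha := h.gd.a0
  have hK : 1 ≤ K := h.gd.C1
  have hK0 : 0 < K := by linarith
  -- the majorant
  obtain ⟨g, hg⟩ : ∃ g : T3 → ℝ, g = fun z => 4 * K * a / q * ∑ α : Fin 3, |D.dul α z| := ⟨_, rfl⟩
  have hgb : BM g := by
    rw [hg]
    exact (BM.finset_sum _ fun α _ => (dul_bm hD α).abs).const_mul _
  have hg0 : ∀ z, 0 ≤ g z := fun z => by
    rw [hg]
    exact mul_nonneg (by positivity) (Finset.sum_nonneg fun α _ => abs_nonneg _)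
  have hkg : ∀ z, ‖kap D m P z‖ ≤ g z := fun z => by
    rw [hg]
    exact norm_kap_le h m hP z
  have hQ : ∫ z, g z ∂lam3 ≤ 12 * K ^ 2 * a ^ 3 / q ^ 201 := by
    rw [hg, integral_const_mul, integral_finsetSum _ fun α _ => ((dul_bm hD α).abs).integrable _]
    have h1 : ∑ α : Fin 3, ∫ z, |D.dul α z| ∂lam3 ≤ ∑ α : Fin 3, K * a ^ 2 / q ^ 200 :=
      Finset.sum_le_sum fun α _ => h.gd.d1 α
    rw [Finset.sum_const, Finset.card_univ, Fintype.card_fin, nsmul_eq_mul] at h1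
    calc 4 * K * a / q * ∑ α : Fin 3, ∫ z, |D.dul α z| ∂lam3
        ≤ 4 * K * a / q * (((3 : ℕ) : ℝ) * (K * a ^ 2 / q ^ 200)) :=
          mul_le_mul_of_nonneg_left h1 (by positivity)
      _ = 12 * K ^ 2 * a ^ 3 / q ^ 201 := by
          push_cast
          field_simp
          ring
  have hQ0 : 0 ≤ ∫ z, g z ∂lam3 := integral_nonneg hg0
  have hR : ∫ z, g z ^ 2 ∂lam3 ≤ 144 * K ^ 3 * a ^ 3 * q ^ 76 := by
    have h1 : ∀ z, g z ^ 2 ≤ 48 * K ^ 2 * a ^ 2 / q ^ 2 * ∑ α : Fin 3, D.dul α z ^ 2 := by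
      intro z
      rw [hg]
      show (4 * K * a / q * ∑ α : Fin 3, |D.dul α z|) ^ 2 ≤ _
      rw [mul_pow]
      have h2 : (∑ α : Fin 3, |D.dul α z|) ^ 2 ≤ 3 * ∑ α : Fin 3, D.dul α z ^ 2 := by
        have h3 := sq_sum_le_card_mul_sum_sq (s := (Finset.univ : Finset (Fin 3)))
          (f := fun α => |D.dul α z|)
        simp only [sq_abs, Finset.card_univ, Fintype.card_fin] at h3
        exact_mod_cast h3
      calc (4 * K * a / q) ^ 2 * (∑ α : Fin 3, |D.dul α z|) ^ 2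
          ≤ (4 * K * a / q) ^ 2 * (3 * ∑ α : Fin 3, D.dul α z ^ 2) :=
            mul_le_mul_of_nonneg_left h2 (by positivity)
        _ = _ := by ring
    have h2 : BM (fun z => 48 * K ^ 2 * a ^ 2 / q ^ 2 * ∑ α : Fin 3, D.dul α z ^ 2) :=
      (BM.finset_sum _ fun α _ => (dul_bm hD α).pow 2).const_mul _
    refine (integral_mono ((hgb.pow 2).integrable _) (h2.integrable _) h1).trans ?_
    rw [integral_const_mul, integral_finsetSum _ fun α _ => ((dul_bm hD α).pow 2).integrable _]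
    have h3 : ∑ α : Fin 3, ∫ z, D.dul α z ^ 2 ∂lam3 ≤ ∑ α : Fin 3, K * a * q ^ 78 :=
      Finset.sum_le_sum fun α _ => h.gd.d2 α
    rw [Finset.sum_const, Finset.card_univ, Fintype.card_fin, nsmul_eq_mul] at h3
    calc 48 * K ^ 2 * a ^ 2 / q ^ 2 * ∑ α : Fin 3, ∫ z, D.dul α z ^ 2 ∂lam3
        ≤ 48 * K ^ 2 * a ^ 2 / q ^ 2 * (((3 : ℕ) : ℝ) * (K * a * q ^ 78)) :=
          mul_le_mul_of_nonneg_left h3 (by positivity)
      _ = 144 * K ^ 3 * a ^ 3 * q ^ 76 := by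
          push_cast
          field_simp
          ring
  have hR0 : 0 ≤ ∫ z, g z ^ 2 ∂lam3 := integral_nonneg fun z => sq_nonneg _
  -- the pointwise majorant
  have hb1 : ∀ i : Fin n, BM (fun x : Fin n → T3 => g (x i) ^ 2) := fun i =>
    (hgb.comp (measurable_pi_apply i)).pow 2
  have hb2 : ∀ i j : Fin n, BM (fun x : Fin n → T3 => g (x i) * g (x j)) := fun i j =>
    (hgb.comp (measurable_pi_apply i)).mul (hgb.comp (measurable_pi_apply j))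
  have hb3 : BM (fun x : Fin n → T3 => ∑ i : Fin n, g (x i) ^ 2) :=
    BM.finset_sum _ fun i _ => hb1 i
  have hb4 : ∀ i : Fin n, BM (fun x : Fin n → T3 =>
      ∑ j ∈ Finset.univ.erase i, g (x i) * g (x j)) := fun i =>
    BM.finset_sum _ fun j _ => hb2 i j
  have hb5 : BM (fun x : Fin n → T3 =>
      ∑ i : Fin n, ∑ j ∈ Finset.univ.erase i, g (x i) * g (x j)) :=
    BM.finset_sum _ fun i _ => hb4 i
  have hpt : ∀ x : Fin n → T3, ‖∑ i, kap D m P (x i)‖ ^ 2 ≤ (∑ i : Fin n, g (x i) ^ 2) +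
      ∑ i : Fin n, ∑ j ∈ Finset.univ.erase i, g (x i) * g (x j) := by
    intro x
    have h1 : ‖∑ i, kap D m P (x i)‖ ≤ ∑ i : Fin n, g (x i) :=
      (norm_sum_le _ _).trans (Finset.sum_le_sum fun i _ => hkg (x i))
    have h2 : (∑ i : Fin n, g (x i)) ^ 2 = (∑ i : Fin n, g (x i) ^ 2) +
      ∑ i : Fin n, ∑ j ∈ Finset.univ.erase i, g (x i) * g (x j) := by
      rw [sq, Finset.sum_mul_sum, ← Finset.sum_add_distrib]
      refine Finset.sum_congr rfl fun i _ => ?_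
      rw [← Finset.add_sum_erase _ _ (Finset.mem_univ i), sq]
    rw [← h2]
    exact pow_le_pow_left₀ (norm_nonneg _) h1 2
  obtain ⟨hkm, Ck, hCk⟩ := kap_meas hD m P
  have hbL : BM (fun x : Fin n → T3 => ‖∑ i, kap D m P (x i)‖ ^ 2) := by
    refine BM.pow ?_ 2
    refine ⟨Measurable.norm (Finset.measurable_fun_sum _ fun i _ =>
      hkm.comp (measurable_pi_apply i)), ∑ i : Fin n, Ck, fun x => ?_⟩
    rw [abs_of_nonneg (norm_nonneg _)]
    exact (norm_sum_le _ _).trans (Finset.sum_le_sum fun i _ => hCk (x i))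
  refine (Eg_mono hF hbL (hb3.add hb5) hpt).trans ?_
  rw [Eg_add hF hb3 hb5, Eg_sum hF _ fun i _ => hb1 i, Eg_sum hF _ fun i _ => hb4 i]
  have hnN : (n : ℝ) ≤ N := by exact_mod_cast hn
  have hE1 : ∑ i : Fin n, Eg (D.F δ τ) n (fun x => g (x i) ^ 2) ≤ 144 * K ^ 3 * q ^ 476 := by
    have h1 : ∀ i : Fin n, Eg (D.F δ τ) n (fun x => g (x i) ^ 2) = ∫ z, g z ^ 2 ∂lam3 := fun i =>
      Eg_one hF hZ.ne' (hgb.pow 2) i
    simp only [h1]
    rw [Finset.sum_const, Finset.card_univ, Fintype.card_fin, nsmul_eq_mul]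
    calc (n : ℝ) * ∫ z, g z ^ 2 ∂lam3 ≤ N * (144 * K ^ 3 * a ^ 3 * q ^ 76) :=
          mul_le_mul hnN hR hR0 (by positivity)
      _ = 144 * K ^ 3 * q ^ 76 * (N * a ^ 3) := by ring
      _ = 144 * K ^ 3 * q ^ 476 := by rw [h.gd.hN]; ring
  have hpair : ∀ i j : Fin n, i ≠ j → Eg (D.F δ τ) n (fun x => g (x i) * g (x j)) ≤
      2 * ((∫ z, g z ∂lam3) * ∫ z, g z ∂lam3) := by
    intro i j hij
    obtain ⟨m', rfl⟩ : ∃ m', n = m' + 2 := by
      refine ⟨n - 2, ?_⟩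
      have h1 := i.2
      have h2 := j.2
      have h3 : (i : ℕ) ≠ j := fun h => hij (Fin.ext h)
      omega
    refine pair_prod_le hF m' hZ hgb hgb hg0 hg0 (fun z => ?_) i j hij
    have h1 := h.yy1 δ τ hδ hδ1 hτ hτ1 m' hn z
    have h2 : K * q ^ 78 ≤ 1 := by
      have h3 := h.small
      have h4 : K * q ^ 78 ≤ K ^ 20 * q := by
        refine mul_le_mul ?_ ?_ (by positivity) (by positivity)
        · calc K = K ^ 1 := (pow_one K).symm
            _ ≤ K ^ 20 := pow_le_pow_right₀ hK (by norm_num)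
        · calc q ^ 78 ≤ q ^ 1 := pow_le_pow_of_le_one hq.le hq1 (by norm_num)
            _ = q := pow_one q
      linarith
    have h3 : yy (D.F δ τ) m' z ≤ 2 := by
      have := (abs_le.1 h1).2
      linarith
    unfold pp
    calc D.F δ τ z * yy (D.F δ τ) m' z ≤ 1 * 2 :=
          mul_le_mul (hF.le_one z) h3 (yy_nonneg hF m' z) zero_le_one
      _ = 2 := one_mul 2
  have hE2 : ∑ i : Fin n, Eg (D.F δ τ) n (fun x => ∑ j ∈ Finset.univ.erase i, g (x i) * g (x j)) ≤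
      288 * K ^ 4 * q ^ 398 := by
    have h1 : ∀ i : Fin n, Eg (D.F δ τ) n (fun x =>
        ∑ j ∈ Finset.univ.erase i, g (x i) * g (x j)) ≤
        n * (2 * ((∫ z, g z ∂lam3) * ∫ z, g z ∂lam3)) := by
      intro i
      rw [Eg_sum hF _ fun j _ => hb2 i j]
      refine (Finset.sum_le_sum fun j hj => hpair i j (Finset.ne_of_mem_erase hj).symm).trans ?_
      rw [Finset.sum_const, nsmul_eq_mul]
      refine mul_le_mul_of_nonneg_right ?_ (by positivity)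
      have h2 : (Finset.univ.erase i).card ≤ n := by
        refine (Finset.card_le_univ _).trans ?_
        rw [Fintype.card_fin]
      exact_mod_cast h2
    refine (Finset.sum_le_sum fun i _ => h1 i).trans ?_
    rw [Finset.sum_const, Finset.card_univ, Fintype.card_fin, nsmul_eq_mul]
    have h2 : (n : ℝ) * ∫ z, g z ∂lam3 ≤ 12 * K ^ 2 * q ^ 199 := by
      calc (n : ℝ) * ∫ z, g z ∂lam3 ≤ N * (12 * K ^ 2 * a ^ 3 / q ^ 201) :=
            mul_le_mul hnN hQ hQ0 (by positivity)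
        _ = 12 * K ^ 2 * (N * a ^ 3) / q ^ 201 := by ring
        _ = 12 * K ^ 2 * q ^ 199 := by
            rw [h.gd.hN]
            field_simp
    have h3 : 0 ≤ (n : ℝ) * ∫ z, g z ∂lam3 := by positivity
    calc (n : ℝ) * (n * (2 * ((∫ z, g z ∂lam3) * ∫ z, g z ∂lam3)))
        = 2 * (n * ∫ z, g z ∂lam3) ^ 2 := by ring
      _ ≤ 2 * (12 * K ^ 2 * q ^ 199) ^ 2 :=
          mul_le_mul_of_nonneg_left (pow_le_pow_left₀ h3 h2 2) (by norm_num)
      _ = 288 * K ^ 4 * q ^ 398 := by ring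
  refine (add_le_add hE1 hE2).trans ?_
  have h1 : K ^ 3 * q ^ 476 ≤ K ^ 4 * q ^ 398 :=
    mul_le_mul (pow_le_pow_right₀ hK (by norm_num)) (pow_le_pow_of_le_one hq.le hq1 (by norm_num))
      (by positivity) (by positivity)
  have h2 : 0 ≤ K ^ 4 * q ^ 398 := by positivity
  calc 144 * K ^ 3 * q ^ 476 + 288 * K ^ 4 * q ^ 398
      = 144 * (K ^ 3 * q ^ 476) + 288 * (K ^ 4 * q ^ 398) := by ring
    _ ≤ 500 * (K ^ 4 * q ^ 398) := by linarith
    _ = 500 * K ^ 4 * q ^ 398 := by ring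

end Pool.Agent.Lib.MP_4952d6_mp.M

end

/-! ### M.GLd -/

section

set_option autoImplicit false
set_option linter.unusedSectionVars false
set_option linter.unusedVariables false
open MeasureTheory Function Filter Topology Set ComplexConjugate

namespace Pool.Agent.Lib.MP_4952d6_mp.M

/-! Light copy of `U/GP1`, `U/GP2` -/

/-- Step 1. -/
theorem J_theta_sq {K q a : ℝ} {N : ℕ} {D : Dat} (h : GasOKm K q a N D) {δ : ℝ} (hδ : 0 < δ)
    (hδ1 : δ ≤ 1) {n : ℕ} (hn1 : 1 ≤ n) (hn : n ≤ N) {P : Finset (Fin 3 → ℤ)} (hP : 0 ∉ P) :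
    Eg (D.F δ 1) n (fun x => ‖∑ p ∈ P, (cth D n p : ℂ) * Jk (D.du δ 1) p x‖ ^ 2)
      ≤ (∑ p ∈ P, 4 * n * D.uh p ^ 2 / (1 + 2 * n * D.uh p)) + 240 * K ^ 4 * q ^ 278 := by
  have hD := h.gd.ok
  have hK : 1 ≤ K := h.gd.C1
  have hq : 0 < q := h.gd.q0
  have hκ : 0 ≤ K * q ^ 78 := by positivity
  have hpne : ∀ p ∈ P, p ≠ 0 := fun p hp h0 => hP (h0 ▸ hp)
  have hn0 : (1:ℝ) ≤ n := by exact_mod_cast hn1
  rw [Eg_J_comb hD hδ hδ1 zero_le_one P (cth D n)]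
  have hterm : ∀ p ∈ P, cth D n p ^ 2 * Eg (D.F δ 1) n (fun x => ‖Jk (D.du δ 1) p x‖ ^ 2)
      ≤ 4 * n * D.uh p ^ 2 / (1 + 2 * n * D.uh p) + 2 * (D.uh p * D.eb (K * q ^ 78) N p) := by
    intro p hp
    have hp0 := hpne p hp
    have hu := hD.uh_nonneg p
    have he := eb_nonneg hD hκ N p
    have hk : 0 < ksq p := lt_of_lt_of_le zero_lt_one (ksq_ge_one hp0)
    have h1 := Eg_J_sq_le h hδ hδ1 zero_le_one le_rfl hn1 hn hp0
    have hA : (0:ℝ) < 1 + 2 * n * D.uh p := by positivity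
    calc cth D n p ^ 2 * Eg (D.F δ 1) n (fun x => ‖Jk (D.du δ 1) p x‖ ^ 2)
        ≤ cth D n p ^ 2 * (n * (ksq p ^ 2 * (1 + 2 * 1 * n * D.uh p + D.eb (K * q ^ 78) N p))) :=
          mul_le_mul_of_nonneg_left h1 (sq_nonneg _)
      _ = 4 * n * D.uh p ^ 2 / (1 + 2 * n * D.uh p)
          + (4 * n * D.uh p ^ 2 / (1 + 2 * n * D.uh p) ^ 2) * D.eb (K * q ^ 78) N p := by
          unfold cth
          field_simp
          ring
      _ ≤ 4 * n * D.uh p ^ 2 / (1 + 2 * n * D.uh p) + 2 * (D.uh p * D.eb (K * q ^ 78) N p) := by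
          have h2 : 4 * n * D.uh p ^ 2 / (1 + 2 * n * D.uh p) ^ 2 ≤ 2 * D.uh p := by
            rw [div_le_iff₀ (by positivity)]
            have h3 : 0 ≤ n * D.uh p := by positivity
            nlinarith [mul_nonneg hu h3, mul_nonneg hu (mul_nonneg h3 h3)]
          have h4 := mul_le_mul_of_nonneg_right h2 he
          linarith
  refine (Finset.sum_le_sum hterm).trans ?_
  rw [Finset.sum_add_distrib, ← Finset.mul_sum]
  obtain ⟨hs, hs'⟩ := eb_sum h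
  have h5 := sum_le_tsum0 hs (fun p _ => mul_nonneg (hD.uh_nonneg p) (eb_nonneg hD hκ N p)) hP
  linarith

/-- Steps 3 and 4. -/
theorem G_lower_P {K q a : ℝ} {N : ℕ} {D : Dat} (h : GasOKm K q a N D) {δ : ℝ} (hδ : 0 < δ)
    (hδ1 : δ ≤ 1) {n : ℕ} (hn1 : 1 ≤ n) (hn : n ≤ N) {P : Finset (Fin 3 → ℤ)} (hP : 0 ∉ P) :
    (∑ p ∈ P, 4 * n * D.uh p ^ 2 / (1 + 2 * n * D.uh p)) - 1000 * K ^ 4 * q ^ 220
      ≤ Eg (D.F δ 1) n (fun x => Tr (q ^ 18) (2 * Xg D.ul x 0 - 2 * n * D.uh 0) ^ 2) := by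
  have hD := h.gd.ok
  have hK : 1 ≤ K := h.gd.C1
  have hq : 0 < q := h.gd.q0
  have hq1 : q ≤ 1 := h.gd.q1.trans (by norm_num)
  have hs : 0 < q ^ 18 := by positivity
  have hF : GasFn lam3 (D.F δ 1) := F_gas hD hδ.le hδ1 zero_le_one
  have hZp : 0 < Zg (D.F δ 1) n := h.Zpos δ 1 hδ.le hδ1 zero_le_one le_rfl n (by omega)
  have hZ : Zg (D.F δ 1) n ≠ 0 := hZp.ne'
  set m : ℝ := 2 * n * D.uh 0 with hm
  set V : ℝ := ∑ p ∈ P, 4 * n * D.uh p ^ 2 / (1 + 2 * n * D.uh p) with hV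
  have hV0 : 0 ≤ V := Finset.sum_nonneg fun p _ => by
    have := hD.uh_nonneg p
    positivity
  have hG := GP1_G_bm hD hs m n
  have hG' := GP1_G'_bm hD hs m n
  obtain ⟨hkm, hkb⟩ := kap_meas hD n P
  -- the statistic
  have hSm : Measurable (fun x : Fin n → T3 => ∑ i, kap D n P (x i)) :=
    Finset.measurable_sum _ fun i _ => hkm.comp (measurable_pi_apply i)
  have hSb : ∃ C, ∀ x : Fin n → T3, ‖∑ i, kap D n P (x i)‖ ≤ C :=
    GP1_bound_sum _ fun i _ => hkb.imp fun C hC x => hC (x i)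
  have hS := GP2_kap_sum hD hδ hδ1 hZ hP
  -- step 3
  have h1G : BM (fun x : Fin n → T3 => 1 - Tr' (q ^ 18) (2 * Xg D.ul x 0 - m)) :=
    (BM.const 1).sub hG'
  have hcs1 := EgC_cs hF (n := n)
    (Φ := fun x => ((1 - Tr' (q ^ 18) (2 * Xg D.ul x 0 - m) : ℝ) : ℂ))
    (Ψ := fun x => ∑ i, kap D n P (x i)) (Complex.measurable_ofReal.comp h1G.meas)
    (GP1_bound_bm h1G) hSm hSb
  have hvar : Eg (D.F δ 1) n
      (fun x => ‖((1 - Tr' (q ^ 18) (2 * Xg D.ul x 0 - m) : ℝ) : ℂ)‖ ^ 2)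
      ≤ 36 * K * q ^ 78 / q ^ 36 := by
    have hX : BM (fun x : Fin n → T3 => (Xg D.ul x 0 - n * D.uh 0) ^ 2) :=
      ((Xg_bm hD n 0).sub (BM.const _)).pow 2
    have h2 : Eg (D.F δ 1) n
        (fun x => ‖((1 - Tr' (q ^ 18) (2 * Xg D.ul x 0 - m) : ℝ) : ℂ)‖ ^ 2)
        ≤ Eg (D.F δ 1) n (fun x => (36 / q ^ 36) * (Xg D.ul x 0 - n * D.uh 0) ^ 2) := by
      refine Eg_mono hF ?_ (hX.const_mul _) fun x => ?_
      · have e : (fun x : Fin n → T3 =>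
            ‖((1 - Tr' (q ^ 18) (2 * Xg D.ul x 0 - m) : ℝ) : ℂ)‖ ^ 2)
            = fun x => (1 - Tr' (q ^ 18) (2 * Xg D.ul x 0 - m)) ^ 2 := by
          funext x
          rw [Complex.norm_real, Real.norm_eq_abs, sq_abs]
        rw [e]
        exact h1G.pow 2
      · rw [Complex.norm_real, Real.norm_eq_abs, sq_abs]
        refine (one_sub_Tr'_sq hs _).trans (le_of_eq ?_)
        rw [hm]
        field_simp
        ring
    rw [Eg_const_mul] at h2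
    have h3 := h.varX δ 1 hδ.le hδ1 zero_le_one le_rfl n hn
    refine h2.trans ((mul_le_mul_of_nonneg_left h3 (by positivity)).trans (le_of_eq ?_))
    ring
  have hkap := kap_second h hδ.le hδ1 zero_le_one le_rfl (m := n) hn hP
  have herr : ‖EgC (D.F δ 1) n (fun x => ((1 - Tr' (q ^ 18) (2 * Xg D.ul x 0 - m) : ℝ) : ℂ)
      * ∑ i, kap D n P (x i))‖ ≤ 200 * K ^ 3 * q ^ 220 := by
    refine (pow_le_pow_iff_left₀ (norm_nonneg _) (by positivity) two_ne_zero).1 ?_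
    refine hcs1.trans ?_
    calc _ ≤ (36 * K * q ^ 78 / q ^ 36) * (500 * K ^ 4 * q ^ 398) :=
          mul_le_mul hvar hkap (Eg_nonneg hF fun x => sq_nonneg _) (by positivity)
      _ = 18000 * K ^ 5 * q ^ 440 := by field_simp; ring
      _ ≤ (200 * K ^ 3 * q ^ 220) ^ 2 := by
          have h5 : K ^ 5 ≤ K ^ 6 := pow_le_pow_right₀ hK (by norm_num)
          have h6 : (200 * K ^ 3 * q ^ 220) ^ 2 = 40000 * K ^ 6 * q ^ 440 := by ring
          rw [h6]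
          have h7 : 18000 * K ^ 5 ≤ 40000 * K ^ 6 := by
            have : 0 ≤ K ^ 5 := by positivity
            linarith
          exact mul_le_mul_of_nonneg_right h7 (by positivity)
  have hsplit : EgC (D.F δ 1) n (fun x => (Tr' (q ^ 18) (2 * Xg D.ul x 0 - m) : ℂ)
        * ∑ i, kap D n P (x i))
      = (V : ℂ) - EgC (D.F δ 1) n
        (fun x => ((1 - Tr' (q ^ 18) (2 * Xg D.ul x 0 - m) : ℝ) : ℂ)
          * ∑ i, kap D n P (x i)) := by
    have h8 := EgC_add hF (n := n)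
      (Φ := fun x => (Tr' (q ^ 18) (2 * Xg D.ul x 0 - m) : ℂ) * ∑ i, kap D n P (x i))
      (Ψ := fun x => ((1 - Tr' (q ^ 18) (2 * Xg D.ul x 0 - m) : ℝ) : ℂ) * ∑ i, kap D n P (x i))
      ((Complex.measurable_ofReal.comp hG'.meas).mul hSm)
      (GP1_bound_mul (GP1_bound_bm hG') hSb)
      ((Complex.measurable_ofReal.comp h1G.meas).mul hSm)
      (GP1_bound_mul (GP1_bound_bm h1G) hSb)
    have e : (fun x : Fin n → T3 => (Tr' (q ^ 18) (2 * Xg D.ul x 0 - m) : ℂ)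
          * ∑ i, kap D n P (x i)
        + ((1 - Tr' (q ^ 18) (2 * Xg D.ul x 0 - m) : ℝ) : ℂ) * ∑ i, kap D n P (x i))
        = fun x => ∑ i, kap D n P (x i) := by
      funext x
      push_cast
      ring
    rw [e, hS] at h8
    rw [h8]
    ring
  have hlow : V - 200 * K ^ 3 * q ^ 220 ≤ ‖EgC (D.F δ 1) n
      (fun x => (Tr' (q ^ 18) (2 * Xg D.ul x 0 - m) : ℂ) * ∑ i, kap D n P (x i))‖ := by
    rw [hsplit]
    have h9 := norm_sub_norm_le (V : ℂ) (EgC (D.F δ 1) n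
        (fun x => ((1 - Tr' (q ^ 18) (2 * Xg D.ul x 0 - m) : ℝ) : ℂ)
          * ∑ i, kap D n P (x i)))
    rw [Complex.norm_real, Real.norm_of_nonneg hV0] at h9
    linarith
  -- step 4
  have hJm : Measurable (fun x : Fin n → T3 => ∑ p ∈ P, (cth D n p : ℂ) * Jk (D.du δ 1) p x) :=
    Finset.measurable_sum _ fun p _ => (Jk_meas hD hδ hδ1 n p).1.const_mul _
  have hJb : ∃ C, ∀ x : Fin n → T3, ‖∑ p ∈ P, (cth D n p : ℂ) * Jk (D.du δ 1) p x‖ ≤ C :=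
    GP1_bound_sum _ fun p _ => GP1_bound_mul (GP1_bound_const _) (Jk_meas hD hδ hδ1 n p).2
  have hcs2 := EgC_cs hF (n := n)
    (Φ := fun x => ((Tr (q ^ 18) (2 * Xg D.ul x 0 - m) : ℝ) : ℂ))
    (Ψ := fun x => ∑ p ∈ P, (cth D n p : ℂ) * Jk (D.du δ 1) p x)
    (Complex.measurable_ofReal.comp hG.meas) (GP1_bound_bm hG) hJm hJb
  rw [← ibp_theta hD hδ hδ1 hZ hs m P] at hcs2
  have eG : (fun x : Fin n → T3 => ‖((Tr (q ^ 18) (2 * Xg D.ul x 0 - m) : ℝ) : ℂ)‖ ^ 2)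
      = fun x => Tr (q ^ 18) (2 * Xg D.ul x 0 - m) ^ 2 := by
    funext x
    rw [Complex.norm_real, Real.norm_eq_abs, sq_abs]
  rw [eG] at hcs2
  have hG0 : 0 ≤ Eg (D.F δ 1) n (fun x => Tr (q ^ 18) (2 * Xg D.ul x 0 - m) ^ 2) :=
    Eg_nonneg hF fun x => sq_nonneg _
  have hJ := J_theta_sq h hδ hδ1 hn1 hn hP
  have hfin := GP2_arith (V := V) (e := 200 * K ^ 3 * q ^ 220) (e' := 240 * K ^ 4 * q ^ 278)
    (by positivity) hV0 hG0 hlow (hcs2.trans (mul_le_mul_of_nonneg_left hJ hG0))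
  have h10 : K ^ 3 * q ^ 220 ≤ K ^ 4 * q ^ 220 :=
    mul_le_mul_of_nonneg_right (pow_le_pow_right₀ hK (by norm_num)) (by positivity)
  have h11 : K ^ 4 * q ^ 278 ≤ K ^ 4 * q ^ 220 :=
    mul_le_mul_of_nonneg_left (pow_le_pow_of_le_one hq.le hq1 (by norm_num)) (by positivity)
  have h12 : 0 ≤ K ^ 4 * q ^ 220 := by positivity
  nlinarith

/-- `(U4.4)`. -/
theorem G_lower {K q a : ℝ} {N : ℕ} {D : Dat} (h : GasOKm K q a N D) {n : ℕ} (hn : n ≤ N) :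
    D.Vn n - 1000 * K ^ 4 * q ^ 220
      ≤ Eg (D.F 0 1) n (fun x => Tr (q ^ 18) (2 * Xg D.ul x 0 - 2 * n * D.uh 0) ^ 2) := by
  have hD := h.gd.ok
  have hK : 1 ≤ K := h.gd.C1
  have hq : 0 < q := h.gd.q0
  have hs : 0 < q ^ 18 := by positivity
  have hF : GasFn lam3 (D.F 0 1) := F_gas hD le_rfl zero_le_one zero_le_one
  have hE : 0 ≤ 1000 * K ^ 4 * q ^ 220 := by positivity
  rcases Nat.eq_zero_or_pos n with hn0 | hn1
  · subst hn0
    have h1 : D.Vn 0 = 0 := by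
      unfold Dat.Vn
      simp [tsum0]
    rw [h1]
    have h2 : 0 ≤ Eg (D.F 0 1) 0
      (fun x => Tr (q ^ 18) (2 * Xg D.ul x 0 - 2 * (0 : ℕ) * D.uh 0) ^ 2) :=
      Eg_nonneg hF fun x => sq_nonneg _
    linarith
  · have hZp : 0 < Zg (D.F 0 1) n := h.Zpos 0 1 le_rfl zero_le_one zero_le_one le_rfl n (by omega)
    have hΦ : BM (fun x : Fin n → T3 =>
        Tr (q ^ 18) (2 * Xg D.ul x 0 - 2 * n * D.uh 0) ^ 2) := (GP1_G_bm hD hs _ n).pow 2
    have hlim := Eg_delta_tendsto hD zero_le_one hZp hΦ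
    have key : tsum0 (fun p => 4 * n * D.uh p ^ 2 / (1 + 2 * n * D.uh p))
        ≤ Eg (D.F 0 1) n (fun x => Tr (q ^ 18) (2 * Xg D.ul x 0 - 2 * n * D.uh 0) ^ 2)
          + 1000 * K ^ 4 * q ^ 220 := by
      refine tsum0_le_of_forall (fun p _ => ?_) fun P hP => ?_
      · have := hD.uh_nonneg p
        positivity
      · have h3 : (∑ p ∈ P, 4 * n * D.uh p ^ 2 / (1 + 2 * n * D.uh p)) - 1000 * K ^ 4 * q ^ 220
            ≤ Eg (D.F 0 1) n (fun x => Tr (q ^ 18) (2 * Xg D.ul x 0 - 2 * n * D.uh 0) ^ 2) := by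
          refine ge_of_tendsto hlim ?_
          filter_upwards [Ioc_mem_nhdsGT (zero_lt_one (α := ℝ))] with δ hδ
          exact G_lower_P h hδ.1 hδ.2 hn1 hn hP
        linarith
    unfold Dat.Vn
    linarith

end Pool.Agent.Lib.MP_4952d6_mp.M

end

/-! ### M.GLf -/

section

set_option autoImplicit false
set_option linter.unusedSectionVars false
set_option linter.unusedVariables false
open MeasureTheory Function Filter Topology Set ComplexConjugate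

namespace Pool.Agent.Lib.MP_4952d6_mp.M

/-! Light copy of `U/GT` -/

theorem Vn_bounds {K q a : ℝ} {N : ℕ} {D : Dat} (h : GasOKm K q a N D) {n : ℕ} (hn : n ≤ N) :
    sm0 (fun p => 4 * n * D.uh p ^ 2 / (1 + 2 * n * D.uh p)) ∧ 0 ≤ D.Vn n ∧
      D.Vn n ≤ 4 * K * q ^ 200 := by
  have hD := h.gd.ok
  have hs := uh_sq_summable hD
  have s0 : sm0 (fun p => D.uh p ^ 2) := sm0_of_summable hs
  have s1 : sm0 (fun p => 4 * n * D.uh p ^ 2 / (1 + 2 * n * D.uh p)) := by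
    refine sm0_of (hs.mul_left (4 * (n:ℝ))) fun p _ => ?_
    rw [abs_of_nonneg (GT_term_nonneg hD n p)]
    exact GT_term_le hD n p
  refine ⟨s1, tsum0_nonneg fun p _ => GT_term_nonneg hD n p, ?_⟩
  have h1 : D.Vn n ≤ tsum0 (fun p => 4 * n * D.uh p ^ 2) :=
    tsum0_mono s1 (s0.const_mul (4 * (n:ℝ))) fun p _ => GT_term_le hD n p
  rw [tsum0_const_mul] at h1
  have h2 : tsum0 (fun p => D.uh p ^ 2) ≤ ∑' p, D.uh p ^ 2 := tsum0_le_tsum hs (sq_nonneg _)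
  have h3 : (0:ℝ) ≤ ∑' p, D.uh p ^ 2 := tsum_nonneg fun p => sq_nonneg _
  have h4 : (n:ℝ) ≤ N := Nat.cast_le.2 hn
  have h5 := h.gd.uh_sq
  have h6 : 4 * (n:ℝ) * tsum0 (fun p => D.uh p ^ 2) ≤ 4 * (N * ∑' p, D.uh p ^ 2) := by
    calc 4 * (n:ℝ) * tsum0 (fun p => D.uh p ^ 2) ≤ 4 * (n:ℝ) * ∑' p, D.uh p ^ 2 := by gcongr
      _ ≤ 4 * (N:ℝ) * ∑' p, D.uh p ^ 2 := by gcongr
      _ = 4 * (N * ∑' p, D.uh p ^ 2) := by ring
  linarith

theorem log_rg_ge {K q a : ℝ} {N : ℕ} {D : Dat} (h : GasOKm K q a N D)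
    {k : ℕ} (hk : k ≤ N) :
    -(2 * k * D.uh 0) + 1 / 2 * D.Vn k - 5000 * K ^ 8 * q ^ 218
      ≤ Real.log (rg (D.F 0 1) k) := by
  have hD := h.gd.ok
  have hq := h.gd.q0
  have hK1 := h.gd.C1
  have hK0 : 0 < K := by linarith
  have hK20 : 1 ≤ K ^ 20 := one_le_pow₀ hK1
  have hq3 : q ≤ 1 / 1000 := by
    have := h.small
    nlinarith
  have hKq : K ^ 4 * q ≤ 1 / 1000 := by
    have h1 : K ^ 4 ≤ K ^ 20 := pow_le_pow_right₀ hK1 (by norm_num)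
    have := h.small
    nlinarith
  have q1 : q ≤ 1 := by linarith
  have hs : 0 < q ^ 18 := by positivity
  have hs1 : q ^ 18 ≤ 1 := pow_le_one₀ hq.le q1
  have h1 := h.rsharp k hk
  have h2 := G_lower h hk
  obtain ⟨-, hV0, hV⟩ := Vn_bounds h hk
  obtain ⟨m, hm⟩ : ∃ m : ℝ, m = 2 * k * D.uh 0 := ⟨_, rfl⟩
  obtain ⟨T, hT⟩ : ∃ T : ℝ, T = Eg (D.F 0 1) k
    (fun x => Tr (q ^ 18) (2 * Xg D.ul x 0 - 2 * k * D.uh 0) ^ 2) := ⟨_, rfl⟩
  rw [← hT] at h1 h2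
  rw [← hm] at h1 ⊢
  have hrpos : 0 < rg (D.F 0 1) k := h.rpos k hk
  obtain ⟨z, hz⟩ : ∃ z : ℝ, z = 1 / 2 * (1 - q ^ 18) * D.Vn k - 501 * K ^ 4 * q ^ 220 := ⟨_, rfl⟩
  have har := GT_arith hK1 hq hq3 hKq hV0 hV hz
  -- `1 + z ≤ exp m * r`
  have key : 1 + z ≤ Real.exp m * rg (D.F 0 1) k := by
    refine le_trans ?_ h1
    have h7 : (1 - q ^ 18) * (D.Vn k - 1000 * K ^ 4 * q ^ 220) ≤ (1 - q ^ 18) * T :=
      mul_le_mul_of_nonneg_left h2 (by linarith)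
    have h8 : 0 ≤ q ^ 18 * (K ^ 4 * q ^ 220) := by positivity
    have h9 : K * q ^ 220 ≤ K ^ 4 * q ^ 220 := by
      have : K ≤ K ^ 4 := le_self_pow₀ hK1 (by norm_num)
      gcongr
    rw [hz]
    nlinarith
  have hz1 : 0 < 1 + z := by
    rw [hz]
    have h10 : 0 ≤ (1 - q ^ 18) * D.Vn k := mul_nonneg (by linarith) hV0
    have h11 : K ^ 4 * q ^ 220 ≤ 1 / 1000 := by
      have e : K ^ 4 * q ^ 220 = (K ^ 4 * q) * q ^ 219 := by ring
      rw [e]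
      have h219 : q ^ 219 ≤ 1 := pow_le_one₀ hq.le q1
      calc K ^ 4 * q * q ^ 219 ≤ 1 / 1000 * 1 := by gcongr
        _ = 1 / 1000 := by norm_num
    linarith
  have h12 := Real.log_le_log hz1 key
  rw [Real.log_mul (Real.exp_pos m).ne' hrpos.ne', Real.log_exp] at h12
  linarith

/-- `∑_{k<n} V_k ≥ ∑_p gf (2 n uh) - V_n` (`gf_sum`). -/
theorem sum_Vn {K q a : ℝ} {N : ℕ} {D : Dat} (h : GasOKm K q a N D) {n : ℕ} (hn : n ≤ N) :
    tsum0 (fun p => gf (2 * n * D.uh p)) - D.Vn n ≤ ∑ k ∈ Finset.range n, D.Vn k := by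
  have hD := h.gd.ok
  have hs : ∀ k : ℕ, sm0 (fun p => 4 * k * D.uh p ^ 2 / (1 + 2 * k * D.uh p)) := by
    intro k
    refine sm0_of ((uh_sq_summable hD).mul_left (4 * (k:ℝ))) fun p _ => ?_
    rw [abs_of_nonneg (GT_term_nonneg hD k p)]
    exact GT_term_le hD k p
  obtain ⟨s1, e1⟩ := GT_sum hs n
  have s2 : sm0 (fun p => gf (2 * n * D.uh p)) := GT_gf_sm0 hD (by positivity)
  have e2 : ∑ k ∈ Finset.range n, D.Vn k
      = tsum0 (fun p => ∑ k ∈ Finset.range n, 4 * k * D.uh p ^ 2 / (1 + 2 * k * D.uh p)) := e1.symm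
  rw [e2]
  unfold Dat.Vn
  rw [← tsum0_sub s2 (hs n)]
  exact tsum0_mono (s2.sub (hs n)) s1 fun p _ => gf_sum (hD.uh_nonneg p) n

theorem GT_log_Z {K q a : ℝ} {N : ℕ} {D : Dat} (h : GasOKm K q a N D) :
    ∀ n : ℕ, n ≤ N →
      Real.log (Zg (D.F 0 1) n) = ∑ k ∈ Finset.range n, Real.log (rg (D.F 0 1) k) := by
  have hF : GasFn lam3 (D.F 0 1) := F_gas h.gd.ok le_rfl zero_le_one zero_le_one
  have hK0 : 0 < K := lt_of_lt_of_le zero_lt_one h.gd.C1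
  intro n
  induction n with
  | zero =>
    intro _
    rw [Zg_zero, Real.log_one, Finset.range_zero, Finset.sum_empty]
  | succ n ih =>
    intro hn
    have hZ := h.Zpos 0 1 le_rfl zero_le_one zero_le_one le_rfl n (by omega)
    have hr : 0 < rg (D.F 0 1) n := h.rpos n (by omega)
    rw [Zg_succ hF hZ, Real.log_mul hr.ne' hZ.ne', Finset.sum_range_succ, ih (by omega)]
    ring

/-- `(U5.2)`. The error `V_n/2 ≤ 2 K q^200` is at most `K N q^218` as `N q^400 ≥ 4`. -/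
theorem logZ_lower {K q a : ℝ} {N : ℕ} {D : Dat} (h : GasOKm K q a N D)
    {n : ℕ} (hn : n ≤ N) :
    -(n * (n - 1) * D.uh 0) + 1 / 2 * tsum0 (fun p => gf (2 * n * D.uh p))
        - 6000 * K ^ 8 * (N * q ^ 218)
      ≤ Real.log (Zg (D.F 0 1) n) := by
  have hq := h.gd.q0
  have q1 : q ≤ 1 := by linarith [h.gd.q1]
  have hK1 := h.gd.C1
  have hK0 : 0 < K := by linarith
  rw [GT_log_Z h n hn]
  have h1 : ∑ k ∈ Finset.range n, (-(2 * k * D.uh 0) + 1 / 2 * D.Vn k - 5000 * K ^ 8 * q ^ 218)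
      ≤ ∑ k ∈ Finset.range n, Real.log (rg (D.F 0 1) k) := by
    refine Finset.sum_le_sum fun k hk => ?_
    exact log_rg_ge h (by have := Finset.mem_range.1 hk; omega)
  have e0 : ∀ n : ℕ, ∑ k ∈ Finset.range n, (2 * (k:ℝ) * D.uh 0) = n * (n - 1) * D.uh 0 := by
    intro n
    induction n with
    | zero => simp
    | succ n ih =>
      rw [Finset.sum_range_succ, ih]
      push_cast
      ring
  have e1 : ∑ k ∈ Finset.range n, (-(2 * (k:ℝ) * D.uh 0) + 1 / 2 * D.Vn k - 5000 * K ^ 8 * q ^ 218)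
      = -(n * (n - 1) * D.uh 0) + 1 / 2 * ∑ k ∈ Finset.range n, D.Vn k
        - n * (5000 * K ^ 8 * q ^ 218) := by
    rw [Finset.sum_sub_distrib, Finset.sum_add_distrib, Finset.sum_neg_distrib, e0,
      ← Finset.mul_sum, Finset.sum_const, Finset.card_range, nsmul_eq_mul]
  rw [e1] at h1
  have h2 := sum_Vn h hn
  obtain ⟨-, hV0, hV⟩ := Vn_bounds h hn
  have hnN : (n:ℝ) ≤ N := Nat.cast_le.2 hn
  have h3 : (n:ℝ) * (5000 * K ^ 8 * q ^ 218) ≤ N * (5000 * K ^ 8 * q ^ 218) := by gcongr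
  have h4 : 2 * K * q ^ 200 ≤ 1000 * K ^ 8 * (N * q ^ 218) := by
    have h5 : q ^ 200 ≤ q ^ 18 := pow_le_pow_of_le_one hq.le q1 (by norm_num)
    have h7 : 4 * q ^ 18 ≤ N * q ^ 218 := by
      have := mul_le_mul_of_nonneg_right h.gd.Nq (show 0 ≤ q ^ 18 by positivity)
      calc 4 * q ^ 18 ≤ N * q ^ 200 * q ^ 18 := this
        _ = N * q ^ 218 := by ring
    have h8 : K ≤ K ^ 8 := le_self_pow₀ hK1 (by norm_num)
    have h9 : 0 ≤ q ^ 18 := by positivity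
    calc 2 * K * q ^ 200 ≤ 2 * K * q ^ 18 := by gcongr
      _ ≤ 2 * K ^ 8 * q ^ 18 := by gcongr
      _ ≤ 1000 * K ^ 8 * (4 * q ^ 18) := by
        have : 0 ≤ K ^ 8 * q ^ 18 := by positivity
        nlinarith
      _ ≤ 1000 * K ^ 8 * (N * q ^ 218) := by gcongr
  linarith

end Pool.Agent.Lib.MP_4952d6_mp.M

end

/-! ### M.GLg -/

section

set_option autoImplicit false
set_option linter.unusedSectionVars false
set_option linter.unusedVariables false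
open MeasureTheory Function Filter Topology Set ComplexConjugate

namespace Pool.Agent.Lib.MP_4952d6_mp.M

/-! Light copy of `U/GU` -/

theorem GU_n_pos {K q a : ℝ} {N : ℕ} {D : Dat} (h : GasOKm K q a N D) {n : ℕ} (hn2 : N ≤ 2 * n) :
    1 ≤ n := by
  by_contra hc
  have hn0 : n = 0 := by omega
  have hN0 : N = 0 := by omega
  have h1 := h.gd.Nq
  rw [hN0, Nat.cast_zero, zero_mul] at h1
  norm_num at h1

theorem S_sum_le {K q a : ℝ} {N : ℕ} {D : Dat} (h : GasOKm K q a N D)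
    {n : ℕ} (hn : n ≤ N) (hn2 : N ≤ 2 * n) :
    tsum0 (fun p => D.uh p * (Sg (D.F 0 1) n p - D.Ss 1 n p)) ≤ 20000 * K ^ 8 * q ^ 209 := by
  have hD := h.gd.ok
  have hq := h.gd.q0
  have q1 : q ≤ 1 := by linarith [h.gd.q1]
  have hK1 := h.gd.C1
  have hK0 : 0 < K := by linarith
  have hn1 := GU_n_pos h hn2
  have hn0 : (0:ℝ) < n := by exact_mod_cast hn1
  have hnN : (n:ℝ) ≤ N := Nat.cast_le.2 hn
  have hN2 : (N:ℝ) ≤ 2 * n := by exact_mod_cast hn2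
  have hF : GasFn lam3 (D.F 0 1) := F_gas hD le_rfl zero_le_one zero_le_one
  have hZ1 := h.Zpos 0 1 le_rfl zero_le_one zero_le_one le_rfl n (by omega)
  obtain ⟨s, hs⟩ : ∃ s : ℝ, s = q ^ 9 := ⟨_, rfl⟩
  have hs0 : 0 < s := by rw [hs]; positivity
  have hs1 : s ≤ 1 := by rw [hs]; exact pow_le_one₀ hq.le q1
  have hσ : 0 ≤ 1 - s := by linarith
  have hσ1 : 1 - s ≤ 1 := by linarith
  have hZs := h.Zpos 0 (1 - s) le_rfl zero_le_one hσ hσ1 n (by omega)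
  have h1 := log_Zg_tilt hD le_rfl zero_le_one zero_le_one hσ hZ1 hZs
  have h2 := logZ_upper h hσ hσ1 hn1 hn
  have h3 := logZ_lower h hn
  have h4 := Hg_mean hD hF hn1 hZ1.ne'
  -- summability
  obtain ⟨s1, -⟩ := h.uS 0 1 le_rfl zero_le_one zero_le_one le_rfl n hn1 hn
  have hc : (0:ℝ) ≤ 2 * n := by positivity
  have sU := GS_uh_summable hD
  have sQ := GS_uh_sq_sm0 hD
  have sF := GS_frac_sm0 hD hc
  have sG := GS_gf_sm0 hD hc
  have sGs := GS_gf_sm0 hD (show (0:ℝ) ≤ 2 * (1 - s) * n by positivity)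
  have sS : sm0 (fun p => D.uh p * (Sg (D.F 0 1) n p - 1)) :=
    sm0_congr (fun p _ => by ring) (s1.sub sU)
  -- gf_shrink summed
  have h5 : tsum0 (fun p => gf (2 * (1 - s) * n * D.uh p))
      ≤ tsum0 (fun p => gf (2 * n * D.uh p))
        - (s * (2 * n)) * tsum0 (fun p => D.uh p * (2 * n * D.uh p / (1 + 2 * n * D.uh p)))
        + (s ^ 2 * (2 * n ^ 2)) * tsum0 (fun p => D.uh p ^ 2) := by
    rw [← tsum0_const_mul, ← tsum0_const_mul, ← tsum0_sub sG (sF.const_mul _),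
      ← tsum0_add (sG.sub (sF.const_mul _)) (sQ.const_mul _)]
    refine tsum0_mono sGs ((sG.sub (sF.const_mul _)).add (sQ.const_mul _)) fun p _ => ?_
    have h0 := hD.uh_nonneg p
    have hx : 0 ≤ 2 * n * D.uh p := by positivity
    have t := gf_shrink hx hs0.le hs1
    have e1 : 2 * (1 - s) * n * D.uh p = (1 - s) * (2 * n * D.uh p) := by ring
    have e2 : s * (2 * n) * (D.uh p * (2 * n * D.uh p / (1 + 2 * n * D.uh p)))
        = s * ((2 * n * D.uh p) ^ 2 / (1 + 2 * n * D.uh p)) := by ring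
    have e3 : s ^ 2 * (2 * n ^ 2) * D.uh p ^ 2 = (s * (2 * n * D.uh p)) ^ 2 / 2 := by ring
    rw [e1, e2, e3]
    exact t
  -- the sum of `S - S*`
  have h6 : tsum0 (fun p => D.uh p * (Sg (D.F 0 1) n p - D.Ss 1 n p))
      = tsum0 (fun p => D.uh p * (Sg (D.F 0 1) n p - 1))
        + tsum0 (fun p => D.uh p * (2 * n * D.uh p / (1 + 2 * n * D.uh p))) := by
    rw [← tsum0_add sS sF]
    refine tsum0_congr fun p _ => ?_
    rw [(GU_Ss hD n p).1]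
    ring
  -- the squares
  have h7 : n * tsum0 (fun p => D.uh p ^ 2) ≤ K * q ^ 200 := by
    have h8 : tsum0 (fun p => D.uh p ^ 2) ≤ ∑' p, D.uh p ^ 2 :=
      tsum0_le_tsum (uh_sq_summable hD) (sq_nonneg _)
    have h9 : (0:ℝ) ≤ ∑' p, D.uh p ^ 2 := tsum_nonneg fun p => sq_nonneg _
    calc n * tsum0 (fun p => D.uh p ^ 2) ≤ n * ∑' p, D.uh p ^ 2 := by gcongr
      _ ≤ N * ∑' p, D.uh p ^ 2 := by gcongr
      _ ≤ K * q ^ 200 := h.gd.uh_sq
  obtain ⟨T, hT⟩ : ∃ T : ℝ, T = tsum0 (fun p => D.uh p * (Sg (D.F 0 1) n p - 1)) := ⟨_, rfl⟩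
  obtain ⟨A, hA⟩ : ∃ A : ℝ, A = tsum0 (fun p => D.uh p * (2 * n * D.uh p / (1 + 2 * n * D.uh p))) :=
    ⟨_, rfl⟩
  obtain ⟨Q, hQ⟩ : ∃ Q : ℝ, Q = tsum0 (fun p => D.uh p ^ 2) := ⟨_, rfl⟩
  obtain ⟨G, hG⟩ : ∃ G : ℝ, G = tsum0 (fun p => gf (2 * n * D.uh p)) := ⟨_, rfl⟩
  obtain ⟨G', hG'⟩ : ∃ G' : ℝ, G' = tsum0 (fun p => gf (2 * (1 - s) * n * D.uh p)) := ⟨_, rfl⟩
  rw [h6, ← hT, ← hA]
  rw [h4, ← hT] at h1
  rw [← hG'] at h2 h5
  rw [← hG] at h3 h5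
  rw [← hA, ← hQ] at h5
  rw [← hQ] at h7
  -- assembly
  have e1 : (1 - s - 1) * (n * (n - 1) * D.uh 0 + n * T)
      = -(s * (n * (n - 1) * D.uh 0) + s * (n * T)) := by ring
  rw [e1] at h1
  have e2 : (1 - s) * (n * (n - 1) * D.uh 0) = n * (n - 1) * D.uh 0 - s * (n * (n - 1) * D.uh 0) := by
    ring
  rw [e2] at h2
  have h10 : s * (n * (T + A)) ≤ s ^ 2 * n * (n * Q) + (1 - s) * (n * (120 * K ^ 4 * q ^ 278))
      + 6000 * K ^ 8 * (N * q ^ 218) := by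
    have e3 : s * (2 * n) * A = 2 * (s * (n * A)) := by ring
    have e4 : s ^ 2 * (2 * n ^ 2) * Q = 2 * (s ^ 2 * n * (n * Q)) := by ring
    rw [e3, e4] at h5
    have e5 : s * (n * (T + A)) = s * (n * T) + s * (n * A) := by ring
    rw [e5]
    linarith
  have h11 : s ^ 2 * n * (n * Q) ≤ s ^ 2 * n * (K * q ^ 200) := by gcongr
  have h12 : (1 - s) * (n * (120 * K ^ 4 * q ^ 278)) ≤ 1 * (n * (120 * K ^ 4 * q ^ 278)) := by gcongr
  have h13 : 6000 * K ^ 8 * (N * q ^ 218) ≤ 6000 * K ^ 8 * (2 * n * q ^ 218) := by gcongr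
  have h14 : K ≤ K ^ 8 := le_self_pow₀ hK1 (by norm_num)
  have h15 : K ^ 4 ≤ K ^ 8 := pow_le_pow_right₀ hK1 (by norm_num)
  have h16 : q ^ 278 ≤ q ^ 218 := pow_le_pow_of_le_one hq.le q1 (by norm_num)
  have h17 : s * (n * (T + A)) ≤ s * (n * (20000 * K ^ 8 * q ^ 209)) := by
    have e6 : s * (n * (20000 * K ^ 8 * q ^ 209)) = n * (20000 * (K ^ 8 * q ^ 218)) := by
      rw [hs]; ring
    have e7 : s ^ 2 * n * (K * q ^ 200) = n * (K * q ^ 218) := by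
      rw [hs]; ring
    rw [e6]
    rw [e7] at h11
    have h18 : K * q ^ 218 ≤ K ^ 8 * q ^ 218 := by gcongr
    have h19 : K ^ 4 * q ^ 278 ≤ K ^ 8 * q ^ 218 := by gcongr
    have h20 : n * (K * q ^ 218) ≤ n * (K ^ 8 * q ^ 218) := by gcongr
    have h21 : n * (K ^ 4 * q ^ 278) ≤ n * (K ^ 8 * q ^ 218) := by gcongr
    have h22 : 0 ≤ n * (K ^ 8 * q ^ 218) := by positivity
    linarith
  exact le_of_mul_le_mul_left (le_of_mul_le_mul_left h17 hs0) hn0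

theorem GU_eb_nonneg {K q a : ℝ} {N : ℕ} {D : Dat} (h : GasOKm K q a N D) (p : Fin 3 → ℤ) :
    0 ≤ D.eb (K * q ^ 78) N p := by
  have hD := h.gd.ok
  have hq := h.gd.q0
  have hK0 : 0 < K := by linarith [h.gd.C1]
  have h1 : 0 ≤ ∫ z, (1 - (ch p z).re) * D.Xi (K * q ^ 78) N z ∂lam3 := by
    refine integral_nonneg fun z => mul_nonneg (one_sub_re_nonneg p z) ?_
    unfold Dat.Xi
    have h2 := hD.ul_nonneg z
    have h3 : 0 ≤ 1 - D.Fc z := sub_nonneg.2 (hD.Fc_le z)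
    have h4 := hD.Kc_nonneg z
    have h5 : 0 ≤ ∑ α, ∑ β, |D.ddul α β z| :=
      Finset.sum_nonneg fun α _ => Finset.sum_nonneg fun β _ => abs_nonneg _
    have h6 : 0 ≤ (K * q ^ 78 + 2 * D.ul z + (1 - D.Fc z)) * ∑ α, ∑ β, |D.ddul α β z| :=
      mul_nonneg (by positivity) h5
    positivity
  unfold Dat.eb
  have h7 := ksq_nonneg p
  have h8 := hD.uh_nonneg p
  have h9 : 0 ≤ (ksq p)⁻¹ * ∫ z, (1 - (ch p z).re) * D.Xi (K * q ^ 78) N z ∂lam3 :=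
    mul_nonneg (inv_nonneg.2 h7) h1
  linarith

/-- `|y| = y + 2 y⁻` and `(S - S*)⁻ ≤ eb` (`Sg_lower`, `eb_sum`). -/
theorem S_sum_abs {K q a : ℝ} {N : ℕ} {D : Dat} (h : GasOKm K q a N D)
    {n : ℕ} (hn : n ≤ N) (hn2 : N ≤ 2 * n) :
    sm0 (fun p => D.uh p * |Sg (D.F 0 1) n p - D.Ss 1 n p|) ∧
      tsum0 (fun p => D.uh p * |Sg (D.F 0 1) n p - D.Ss 1 n p|) ≤ 30000 * K ^ 8 * q ^ 209 := by
  have hD := h.gd.ok
  have hq := h.gd.q0
  have q1 : q ≤ 1 := by linarith [h.gd.q1]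
  have hK1 := h.gd.C1
  have hK0 : 0 < K := by linarith
  have hn1 := GU_n_pos h hn2
  have hF : GasFn lam3 (D.F 0 1) := F_gas hD le_rfl zero_le_one zero_le_one
  have hbd : ∀ p, |Sg (D.F 0 1) n p - D.Ss 1 n p| ≤ n + 1 := by
    intro p
    have h1 := Sg_nonneg hF n p
    have h2 := Sg_le hF n p
    obtain ⟨-, h3, h4⟩ := GU_Ss hD n p
    rw [abs_le]
    constructor
    · have : (0:ℝ) ≤ n := Nat.cast_nonneg n
      linarith
    · linarith
  have sA : sm0 (fun p => D.uh p * |Sg (D.F 0 1) n p - D.Ss 1 n p|) := by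
    refine sm0_of (hD.uh_summable.mul_right ((n:ℝ) + 1)) fun p _ => ?_
    have h0 := hD.uh_nonneg p
    rw [abs_of_nonneg (mul_nonneg h0 (abs_nonneg _))]
    exact mul_le_mul_of_nonneg_left (hbd p) h0
  have sB : sm0 (fun p => D.uh p * (Sg (D.F 0 1) n p - D.Ss 1 n p)) := by
    refine sm0_of (hD.uh_summable.mul_right ((n:ℝ) + 1)) fun p _ => ?_
    have h0 := hD.uh_nonneg p
    rw [abs_mul, abs_of_nonneg h0]
    exact mul_le_mul_of_nonneg_left (hbd p) h0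
  obtain ⟨sE, hE⟩ := eb_sum h
  refine ⟨sA, ?_⟩
  have h1 : tsum0 (fun p => D.uh p * |Sg (D.F 0 1) n p - D.Ss 1 n p|)
      ≤ tsum0 (fun p => D.uh p * (Sg (D.F 0 1) n p - D.Ss 1 n p))
        + 2 * tsum0 (fun p => D.uh p * D.eb (K * q ^ 78) N p) := by
    rw [← tsum0_const_mul, ← tsum0_add sB (sE.const_mul 2)]
    refine tsum0_mono sA (sB.add (sE.const_mul 2)) fun p hp => ?_
    have h0 := hD.uh_nonneg p
    have h2 := Sg_lower h zero_le_one le_rfl hn1 hn hp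
    have h3 := GU_eb_nonneg h p
    have h4 : |Sg (D.F 0 1) n p - D.Ss 1 n p|
        ≤ (Sg (D.F 0 1) n p - D.Ss 1 n p) + 2 * D.eb (K * q ^ 78) N p := by
      rw [abs_le]
      constructor
      · linarith
      · linarith
    have h5 := mul_le_mul_of_nonneg_left h4 h0
    linarith
  have h2 := S_sum_le h hn hn2
  have h15 : K ^ 4 ≤ K ^ 8 := pow_le_pow_right₀ hK1 (by norm_num)
  have h16 : q ^ 278 ≤ q ^ 209 := pow_le_pow_of_le_one hq.le q1 (by norm_num)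
  have h19 : K ^ 4 * q ^ 278 ≤ K ^ 8 * q ^ 209 := by gcongr
  have h20 : 0 ≤ K ^ 8 * q ^ 209 := by positivity
  linarith

end Pool.Agent.Lib.MP_4952d6_mp.M

end

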