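import Pool.Agent.Lib.MP_4952d6_mp.Pk.G48
import Pool.Agent.Lib.MP_4952d6_mp.Pk.G49
import Pool.Agent.Lib.MP_4952d6_mp.Pm.M04

/-! Merged modules (to save import time): M.LPreC, M.LChg. -/

/-! ### M.LPreC -/

section

/-!
# M.LPreC: the lower bound at fixed particle number for `lam ≥ - 2 π²`, without a bound for the number of excited particles

Copy of `LB.PreC`: for `lam < 0` the loss is `(G + |lam|) ∑ (1-et²) nk`.
-/

set_option autoImplicit false
set_option linter.unusedSectionVars false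
set_option linter.unusedVariables false
open MeasureTheory Function Filter Topology Set ComplexConjugate

namespace Pool.Agent.Lib.MP_4952d6_mp.LB

/-- The sum over the nonzero momenta is at most kinetic energy, mass and interaction. -/
lemma PreC_modesM {N : ℕ} {s t lam g : ℝ} (hs : 0 < s) (ht : 0 < t)
    (hl : -(2 * Real.pi ^ 2) ≤ lam)
    (hg : 0 ≤ g) {ψ : HS (Fin N)} (hψ : ‖ψ‖ = 1)
    (hkin : ∀ j, Summable fun k : Fin N → Fin 3 → ℤ => ksq (k j) * ‖cf ψ k‖ ^ 2) :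
    (∑' p : Fin 3 → ℤ, if p = 0 then 0 else
          (et t p ^ 2 * (ksq p + lam) * nk ψ p + g * Real.exp (-(s * ksq p)) / 2 * Rsq t ψ p))
      ≤ (∑ j, ∑' k : Fin N → Fin 3 → ℤ, et t (k j) ^ 2 * ksq (k j) * ‖cf ψ k‖ ^ 2)
        + lam * (∑ j, ‖perp j ψ‖ ^ 2)
        + |lam| * (∑' a, (1 - et t a ^ 2) * nk ψ a)
        + g / 2 * ((∑' p : Fin 3 → ℤ, Real.exp (-(s * ksq p)) * Rsq t ψ p) - Rsq t ψ 0) := by
  have hη0 : ∀ a, 0 < et t a := et_pos t
  have hη1 : ∀ a, et t a ≤ 1 := et_le_one ht.le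
  have hη2 : ∀ a, et t a ^ 2 ≤ 1 := fun a => pow_le_one₀ (hη0 a).le (hη1 a)
  obtain ⟨k1, k2⟩ := sum_mult (φ := fun p => et t p ^ 2 * ksq p)
    (fun p => mul_nonneg (sq_nonneg _) (ksq_nonneg p)) ψ (fun j => by
      refine Summable.of_nonneg_of_le (fun K => mul_nonneg (mul_nonneg (sq_nonneg _) (ksq_nonneg _))
        (sq_nonneg _)) (fun K => ?_) (hkin j)
      exact mul_le_mul_of_nonneg_right (mul_le_of_le_one_left (ksq_nonneg _) (hη2 _)) (sq_nonneg _))
  rw [k2]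
  obtain ⟨n1, n2⟩ := PreC_split (summable_nk ψ)
  have n3 := PreC_Np hψ
  obtain ⟨d1, -⟩ := den_ge hs ht ψ hψ
  obtain ⟨r1, r2⟩ := PreC_split d1
  have s1 : Summable fun a => (1 - et t a ^ 2) * nk ψ a :=
    PreC_summable ψ (fun a => by have := hη2 a; linarith)
      (fun a => by have := sq_nonneg (et t a); linarith)
  rw [← n3]
  have r3 : (∑' p : Fin 3 → ℤ, Real.exp (-(s * ksq p)) * Rsq t ψ p) - Rsq t ψ 0
      = ∑' p : Fin 3 → ℤ, if p = 0 then 0 else Real.exp (-(s * ksq p)) * Rsq t ψ p := by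
    rw [r2, ksq_zero, mul_zero, neg_zero, Real.exp_zero, one_mul]
  rw [r3, ← tsum_mul_left, ← tsum_mul_left, ← tsum_mul_left, ← k1.tsum_add (n1.mul_left lam),
    ← (k1.add (n1.mul_left lam)).tsum_add (s1.mul_left |lam|),
    ← ((k1.add (n1.mul_left lam)).add (s1.mul_left |lam|)).tsum_add (r1.mul_left (g / 2))]
  refine (pre_summableM hs ht hl hg hψ hkin).tsum_le_tsum (fun p => ?_)
    (((k1.add (n1.mul_left lam)).add (s1.mul_left |lam|)).add (r1.mul_left (g / 2)))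
  have h0 : 0 ≤ |lam| * ((1 - et t p ^ 2) * nk ψ p) := by
    have := hη2 p
    have h1 := nk_nonneg ψ p
    have h2 : 0 ≤ 1 - et t p ^ 2 := by linarith
    positivity
  by_cases hp : p = 0
  · rw [if_pos hp, if_pos hp, if_pos hp]
    have h1 := mul_nonneg (mul_nonneg (sq_nonneg (et t p)) (ksq_nonneg p)) (nk_nonneg ψ p)
    linarith
  · rw [if_neg hp, if_neg hp, if_neg hp]
    have h2 : et t p ^ 2 * lam * nk ψ p
        ≤ lam * nk ψ p + |lam| * ((1 - et t p ^ 2) * nk ψ p) := by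
      have h3 : 0 ≤ (1 - et t p ^ 2) * nk ψ p :=
        mul_nonneg (by have := hη2 p; linarith) (nk_nonneg ψ p)
      have h4 : -(lam * ((1 - et t p ^ 2) * nk ψ p)) ≤ |lam| * ((1 - et t p ^ 2) * nk ψ p) := by
        rw [← neg_mul]
        exact mul_le_mul_of_nonneg_right (neg_le_abs lam) h3
      linarith
    have h4 : et t p ^ 2 * (ksq p + lam) * nk ψ p
        = et t p ^ 2 * ksq p * nk ψ p + et t p ^ 2 * lam * nk ψ p := by ring
    have h5 : g * Real.exp (-(s * ksq p)) / 2 * Rsq t ψ p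
        = g / 2 * (Real.exp (-(s * ksq p)) * Rsq t ψ p) := by ring
    rw [h4, h5]
    linarith

/-- The last step: real numbers only. -/
lemma PreC_finalM {Nn H g G t e s lam al δ₁ LSv cH cK Np QQ QH QK Kin A0 S0 TVv elE C1 C2 X Y RS R0 LO P : ℝ}
    (hN : 0 < Nn) (hg : g = (1 - δ₁) * H) (hG : G = Nn * g) (hH : 0 < H) (hδ0 : 0 ≤ δ₁) (hδ1 : δ₁ ≤ 1)
    (ht : 0 < t) (he : 0 < e) (hs : 0 < s) (hcH : 0 ≤ cH) (hcK : 0 ≤ cK) (hNp : 0 ≤ Np)
    (hC1 : 0 ≤ C1) (hC2 : 0 ≤ C2) (hX : 0 ≤ X) (hY : 0 ≤ Y) (hel : 0 ≤ elE) (hal : 0 ≤ al)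
    (elim1 : Kin + e / t * QQ + (1 - δ₁) / 2 * QH + 1 / 2 * A0 * S0 - C1 * elE ≤ TVv)
    (smo : H * QK - C2 * H * X * Y ≤ QH) (den : RS - Nn * cH ≤ QK)
    (r0 : Nn ^ 2 - 2 * Nn * LO ≤ R0)
    (loss : (G + al) * LO ≤ (G + al) ^ 2 * t / e * Np + e / t * QQ)
    (pre : 1 / 2 * LSv + 1 / 2 * G * cH - 1 / 2 * G - 1 / 2 * G * s * cK
      - 1 / 2 * (Np / Nn) * G * cH - 1 / 2 * (Np / Nn) * (1 / t + al + G) ≤ P)
    (modes : P ≤ Kin + lam * Np + al * LO + g / 2 * (RS - R0)) :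
    (1 - δ₁) * H / 2 * Nn ^ 2 + 1 / 2 * A0 * S0 + 1 / 2 * LSv - 1 / 2 * (Nn * H)
      - 1 / 2 * (Nn * H) * s * cK - 1 / 2 * (Np / Nn) * (Nn * H) * cH
      - 1 / 2 * (Np / Nn) * (1 / t + al + Nn * H) - (Nn * H + al) ^ 2 * t / e * Np
      - (C1 + C2) * elE - (C1 + C2) * H * X * Y ≤ TVv + lam * Np := by
  have hg0 : 0 ≤ g := by rw [hg]; exact mul_nonneg (by linarith) hH.le
  have hgH : g ≤ H := by rw [hg]; exact mul_le_of_le_one_left hH.le (by linarith)
  have hG0 : 0 ≤ G := by rw [hG]; exact mul_nonneg hN.le hg0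
  have m1 : G ≤ Nn * H := by rw [hG]; exact mul_le_mul_of_nonneg_left hgH hN.le
  have hq : 0 ≤ Np / Nn := div_nonneg hNp hN.le
  have m2 : 1 / 2 * G * s * cK ≤ 1 / 2 * (Nn * H) * s * cK := by
    have : 0 ≤ 1 / 2 * s * cK := by positivity
    nlinarith [mul_le_mul_of_nonneg_left m1 this]
  have m3 : 1 / 2 * (Np / Nn) * G * cH ≤ 1 / 2 * (Np / Nn) * (Nn * H) * cH := by
    have : 0 ≤ 1 / 2 * (Np / Nn) * cH := by positivity
    nlinarith [mul_le_mul_of_nonneg_left m1 this]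
  have m4 : 1 / 2 * (Np / Nn) * (1 / t + al + G) ≤ 1 / 2 * (Np / Nn) * (1 / t + al + Nn * H) :=
    mul_le_mul_of_nonneg_left (by linarith) (by positivity)
  have m5 : (G + al) ^ 2 * t / e * Np ≤ (Nn * H + al) ^ 2 * t / e * Np := by
    have h1 : (G + al) ^ 2 ≤ (Nn * H + al) ^ 2 := pow_le_pow_left₀ (by linarith) (by linarith) 2
    have h2 : 0 ≤ t / e * Np := by positivity
    calc (G + al) ^ 2 * t / e * Np = (G + al) ^ 2 * (t / e * Np) := by ring
      _ ≤ (Nn * H + al) ^ 2 * (t / e * Np) := mul_le_mul_of_nonneg_right h1 h2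
      _ = _ := by ring
  have m6 : C1 * elE ≤ (C1 + C2) * elE := mul_le_mul_of_nonneg_right (by linarith) hel
  have hHXY : 0 ≤ H * X * Y := by positivity
  have m7 : C2 * H * X * Y ≤ (C1 + C2) * H * X * Y := by
    calc C2 * H * X * Y = C2 * (H * X * Y) := by ring
      _ ≤ (C1 + C2) * (H * X * Y) := mul_le_mul_of_nonneg_right (by linarith) hHXY
      _ = _ := by ring
  -- the interaction
  have i1 : (1 - δ₁) / 2 * (H * QK - C2 * H * X * Y) ≤ (1 - δ₁) / 2 * QH :=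
    mul_le_mul_of_nonneg_left smo (by linarith)
  have i2 : (1 - δ₁) / 2 * (H * QK - C2 * H * X * Y) = g / 2 * QK - (1 - δ₁) / 2 * (C2 * H * X * Y) := by
    rw [hg]; ring
  have i3 : (1 - δ₁) / 2 * (C2 * H * X * Y) ≤ C2 * H * X * Y := by
    have h3 : 0 ≤ C2 * H * X * Y := by
      have := mul_nonneg hC2 hHXY
      linarith [this]
    exact mul_le_of_le_one_left h3 (by linarith)
  have i4 : g / 2 * (RS - Nn * cH) ≤ g / 2 * QK := mul_le_mul_of_nonneg_left den (by linarith)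
  have i5 : g / 2 * (Nn ^ 2 - 2 * Nn * LO) ≤ g / 2 * R0 := mul_le_mul_of_nonneg_left r0 (by linarith)
  have i6 : g / 2 * (Nn ^ 2 - 2 * Nn * LO) = (1 - δ₁) * H / 2 * Nn ^ 2 - G * LO := by
    rw [hG, hg]; ring
  have i7 : g / 2 * (RS - Nn * cH) = g / 2 * (RS - R0) + g / 2 * R0 - 1 / 2 * G * cH := by
    rw [hG]; ring
  have i8 : (G + al) * LO = G * LO + al * LO := by ring
  linarith

theorem pre8M (hS : SumStatement) : ∃ C : ℝ, 0 ≤ C ∧ ∀ (N : ℕ)
    (t e s H R δ₁ ε₂ ε₃ c c' lam : ℝ) (h k w : T3 → ℝ), 0 < N → 0 < t → t ≤ 1 → 0 < e →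
    e ≤ 1 / 2 → 0 < s → s ≤ t → 0 < H → SR H R h → 0 ≤ R →
    R ^ 2 ≤ t / 2 → BM k → BM w → (∀ z, 0 ≤ w z) → (∀ z, w z ≤ 2) → 0 ≤ δ₁ → δ₁ ≤ 1 →
    (∀ z, h z * w z + (1 - δ₁) * h z ≤ 2 * h z - k z) →
    (∀ᵐ z ∂lam3, h z * KK t h z ≤ h z * (2 * w z + ε₂)) →
    (∀ᵐ z ∂lam3, h z * |WT t h z - 2 * w z| ≤ h z * ε₃) → 0 ≤ ε₂ → 0 ≤ ε₃ → 0 < c → 0 < c' →
    -(2 * Real.pi ^ 2) ≤ lam → ∀ ψ : HS (Fin N), ‖ψ‖ = 1 →
    (∀ j, Summable fun k : Fin N → Fin 3 → ℤ => ksq (k j) * ‖cf ψ k‖ ^ 2) →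
    (1 - δ₁) * H / 2 * N ^ 2
      + 1 / 2 * ((∫ z, h z * w z ∂lam3)
          - 1 / 2 * ∑' p, alp t p * ‖fc3 (fun y => (h y : ℂ)) p‖ ^ 2)
        * (∑ j, ∑ l ∈ Finset.univ.erase j, ‖Phi0 j l ψ‖ ^ 2)
      + 1 / 2 * LS t lam (N * ((1 - δ₁) * H)) - 1 / 2 * (N * H)
      - 1 / 2 * (N * H) * s * (∑' p : Fin 3 → ℤ, et t p ^ 2 * ksq p)
      - 1 / 2 * ((∑ j, ‖perp j ψ‖ ^ 2) / N) * (N * H) * (∑' p : Fin 3 → ℤ, et t p ^ 2)
      - 1 / 2 * ((∑ j, ‖perp j ψ‖ ^ 2) / N) * (1 / t + |lam| + N * H)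
      - (N * H + |lam|) ^ 2 * t / e * (∑ j, ‖perp j ψ‖ ^ 2)
      - C * elErr N t e H ε₂ ε₃ c (∑ m, cw (8 * t) m (perp m ψ)) (∑ m, cw (8 * t) m (QQ1 t m ψ))
      - C * H * ((R + Real.sqrt s) / Real.sqrt t)
        * (c' / N * (∑ m, cw (8 * t) m (perp m ψ)) + 1 / c' * ∑ m, qf (crowd (8 * t) m) ψ)
      ≤ TV t h k ψ + lam * ∑ j, ‖perp j ψ‖ ^ 2 := by
  obtain ⟨C1, hC1, elim1⟩ := elim hS
  obtain ⟨C2, hC2, smo1⟩ := smo_sum
  refine ⟨C1 + C2, add_nonneg hC1 hC2, ?_⟩
  intro N t e s H R δ₁ ε₂ ε₃ c c' lam h k w hN ht ht1 he he2 hs hst hH hSR hR hRt hk hw hw0 hw2 hδ0 hδ1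
    hhw hKK hWT hε2 hε3 hc hc' hlam ψ hψ hkin
  have hNR : (0 : ℝ) < N := by exact_mod_cast hN
  have hg0 : 0 ≤ (1 - δ₁) * H := mul_nonneg (by linarith) hH.le
  have hM1 : 0 ≤ ∑ m, cw (8 * t) m (perp m ψ) := Finset.sum_nonneg fun m _ => cw_nonneg _ _ _
  have hM2 : 0 ≤ ∑ m, cw (8 * t) m (QQ1 t m ψ) := Finset.sum_nonneg fun m _ => cw_nonneg _ _ _
  have hCR : 0 ≤ ∑ m, qf (crowd (8 * t) m) ψ :=
    Finset.sum_nonneg fun m _ => qf_nonneg (fun x => crowd_nonneg _ _ _) ψ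
  have el := elim1 N t e H R δ₁ ε₂ ε₃ c h k w hN ht ht1 he he2 hSR hR hRt hk hw hw0 hw2 hhw hKK hWT hε2 hε3
    hc ψ hψ hkin
  have sm := smo1 N s t H R c' h hN hs hst ht1 hSR hR hRt hc' ψ
  have de := (den_ge hs ht ψ hψ).2
  rw [Fintype.card_fin] at de
  have r0 := R0_ge ht.le ψ hψ
  rw [Fintype.card_fin] at r0
  have lo := loss_le (e := e) ht he (add_nonneg (mul_nonneg hNR.le hg0) (abs_nonneg lam)) hψ
  have pr := pre_sumM hN hs ht hlam hg0 hψ hkin
  have mo := PreC_modesM hs ht hlam hg0 hψ hkin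
  exact PreC_finalM hNR rfl rfl hH hδ0 hδ1 ht he hs (tsum_nonneg fun p => sq_nonneg _)
    (tsum_nonneg fun p => mul_nonneg (sq_nonneg _) (ksq_nonneg p))
    (Finset.sum_nonneg fun j _ => sq_nonneg _) hC1 hC2 (by positivity) (by positivity)
    (PreC_elErr_nonneg ht he hH hε2 hε3 hc hM1 hM2) (abs_nonneg lam) el sm de r0 lo pr mo

end Pool.Agent.Lib.MP_4952d6_mp.LB

end

/-! ### M.LChg -/

section

/-!
# M.LChg: the charge data with an error `C a² (√t + R/t)` in the diagonal term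

Copies of `gam_radial_ge`, `cn_hk_inv_ge`, `c6_statement`; the mean field constant `6 a` cancels.
-/

set_option autoImplicit false
set_option linter.unusedSectionVars false
set_option linter.unusedVariables false
open MeasureTheory Function Filter Topology Set ComplexConjugate

namespace Pool.Agent.Lib.MP_4952d6_mp.LB

/-- Charge data, with the sharp diagonal term. -/
structure ChgM (W : ℝ → ℝ) (R₀ R a δ₁ C : ℝ) (h k w : T3 → ℝ) : Prop where
  sr : SR (8 * Real.pi * a) R h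
  k_bm : BM k
  k_nonneg : ∀ z, 0 ≤ k z
  k_even : ∀ z, k (-z) = k z
  w_bm : BM w
  w_nonneg : ∀ z, 0 ≤ w z
  w_le : ∀ z, w z ≤ 2
  out : ∀ z, R₀ ≤ rr z → h z ^ 2 ≤ 2 * W (rr z) * k z
  two : ∀ z, h z * w z + (1 - δ₁) * h z ≤ 2 * h z - k z
  p1 : ∀ t, 0 < t → t ≤ 1 → R ^ 2 ≤ t →
    ∀ᵐ z ∂lam3, h z * KK t h z ≤ h z * (2 * w z + C * a * t)
  p2 : ∀ t, 0 < t → t ≤ 1 → R ^ 2 ≤ t →
    ∀ᵐ z ∂lam3, h z * |WT t h z - 2 * w z| ≤ h z * (C * a / Real.sqrt t)
  p3 : ∀ t, 0 < t → t ≤ 1 → R ^ 2 ≤ t →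
    8 * Real.pi * a ^ 2 / Real.sqrt (Real.pi * t) - C * a ^ 2 * (Real.sqrt t + R / t)
      ≤ (∫ z, h z * w z ∂lam3) - 1 / 2 * ∑' p, alp t p * ‖fc3 (fun y => (h y : ℂ)) p‖ ^ 2

/-- Statement of the charge block. -/
def C6M : Prop :=
  ∃ C : ℝ, 0 ≤ C ∧ ∀ (W f Q : ℝ → ℝ) (R₀ R a : ℝ), Scat W R₀ R a f Q → R ≤ 1 / 8 →
    ∀ δ₁ : ℝ, 0 < δ₁ → ∃ h k w : T3 → ℝ, ChgM W R₀ R a δ₁ C h k w

theorem gam_radial_geM : ∃ C : ℝ, 0 ≤ C ∧ ∀ t R : ℝ, 0 < t → t ≤ 1 → 0 ≤ R → R ≤ 1 / 8 → R ^ 2 ≤ t →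
    1 / Real.sqrt (Real.pi * t) - C * (Real.sqrt t + R / t)
      ≤ 4 * Real.pi * ∫ r in R..(1 / 4), r * gam t (R + r) := by
  refine ⟨64, by norm_num, fun t R ht ht1 hR hR8 hRt => ?_⟩
  have hpi : 0 < Real.pi := Real.pi_pos
  have hpi1 : 1 ≤ Real.pi := by linarith [Real.pi_gt_three]
  have h0 : 0 < Real.pi * t := by positivity
  have hs : 0 < Real.sqrt (Real.pi * t) := Real.sqrt_pos.2 h0
  have hst : 0 < Real.sqrt t := Real.sqrt_pos.2 ht
  have hR4 : R ≤ 1 / 4 := by linarith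
  have hc := ChgE_gam_cont t
  have hcR : Continuous fun r => gam t (R + r) := hc.comp (continuous_const.add continuous_id)
  -- the split
  have e1 : ∫ r in R..(1 / 4), r * gam t (R + r) =
      (∫ r in R..(1 / 4), (R + r) * gam t (R + r)) - ∫ r in R..(1 / 4), R * gam t (R + r) := by
    rw [← intervalIntegral.integral_sub]
    · refine intervalIntegral.integral_congr fun r _ => ?_
      ring
    · exact ((continuous_const.add continuous_id).mul hcR).intervalIntegrable _ _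
    · exact (continuous_const.mul hcR).intervalIntegrable _ _
  have e2 : ∫ r in R..(1 / 4), (R + r) * gam t (R + r) =
      2 * t * gam t (2 * R) - 2 * t * gam t (R + 1 / 4) := by
    rw [intervalIntegral.integral_eq_sub_of_hasDerivAt (f := fun r => -(2 * t) * gam t (R + r))
      (fun r _ => ChgE_prim ht R r)]
    · rw [← two_mul]
      ring
    · exact ((continuous_const.add continuous_id).mul hcR).intervalIntegrable _ _
  -- the second part
  set c := (Real.sqrt (4 * Real.pi * t))⁻¹ ^ 3 with hcdef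
  have hc0 : 0 ≤ c := by positivity
  have hcc : 4 * Real.pi * (2 * t * c) = 1 / Real.sqrt (Real.pi * t) := ChgE_c ht
  have e3 : ∫ r in R..(1 / 4), R * gam t (R + r) ≤ R * (c * (Real.sqrt (Real.pi * t))) := by
    rw [intervalIntegral.integral_const_mul]
    refine mul_le_mul_of_nonneg_left ?_ hR
    have i1 : IntegrableOn (fun r : ℝ => Real.exp (-(1 / (4 * t)) * r ^ 2)) (Ioi 0) :=
      (integrable_exp_neg_mul_sq (by positivity)).integrableOn
    have i2 : ∫ r in Ioi (0:ℝ), Real.exp (-(1 / (4 * t)) * r ^ 2) = Real.sqrt (Real.pi * t) := by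
      rw [integral_gaussian_Ioi]
      rw [show Real.pi / (1 / (4 * t)) = 2 ^ 2 * (Real.pi * t) by field_simp; norm_num,
        Real.sqrt_mul (by norm_num), Real.sqrt_sq (by norm_num)]
      ring
    have i3 : ∫ r in R..(1 / 4), gam t (R + r) ≤
        ∫ r in R..(1 / 4), c * Real.exp (-(1 / (4 * t)) * r ^ 2) := by
      refine intervalIntegral.integral_mono_on hR4 (hcR.intervalIntegrable _ _) ?_ ?_
      · exact (by fun_prop : Continuous fun r : ℝ => c * Real.exp (-(1 / (4 * t)) * r ^ 2)).intervalIntegrable _ _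
      · intro r hr
        unfold gam
        refine mul_le_mul_of_nonneg_left (Real.exp_le_exp.2 ?_) hc0
        have hr0 : 0 ≤ r := hR.trans hr.1
        have : r ^ 2 ≤ (R + r) ^ 2 := pow_le_pow_left₀ hr0 (by linarith) 2
        rw [show -(1 / (4 * t)) * r ^ 2 = -(r ^ 2) / (4 * t) by ring]
        exact div_le_div_of_nonneg_right (by linarith) (by positivity)
    refine i3.trans ?_
    rw [intervalIntegral.integral_const_mul]
    refine mul_le_mul_of_nonneg_left ?_ hc0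
    rw [intervalIntegral.integral_of_le hR4, ← i2]
    refine setIntegral_mono_set i1 (Eventually.of_forall fun r => (Real.exp_pos _).le) ?_
    exact Eventually.of_forall fun r hr => lt_of_le_of_lt hR hr.1
  -- the first part
  have f1 : c * (1 - R ^ 2 / t) ≤ gam t (2 * R) := by
    unfold gam
    refine mul_le_mul_of_nonneg_left ?_ hc0
    have := Real.add_one_le_exp (-((2 * R) ^ 2) / (4 * t))
    have e : -((2 * R) ^ 2) / (4 * t) = -(R ^ 2 / t) := by
      field_simp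
      ring
    rw [e] at this ⊢
    linarith
  have f2 : gam t (R + 1 / 4) ≤ c * (64 * t) := by
    unfold gam
    refine mul_le_mul_of_nonneg_left ?_ hc0
    have g1 : 1 / (64 * t) ≤ (R + 1 / 4) ^ 2 / (4 * t) := by
      rw [div_le_div_iff₀ (by positivity) (by positivity)]
      linarith only [mul_nonneg ht.le (sq_nonneg R), mul_nonneg ht.le hR]
    have g2 : Real.exp (-((R + 1 / 4) ^ 2) / (4 * t)) ≤ Real.exp (-(1 / (64 * t))) := by
      refine Real.exp_le_exp.2 ?_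
      rw [neg_div]
      linarith
    refine g2.trans ?_
    rw [Real.exp_neg]
    have g3 := Real.add_one_le_exp (1 / (64 * t))
    have g4 : 0 < 1 / (64 * t) := by positivity
    calc (Real.exp (1 / (64 * t)))⁻¹ ≤ (1 / (64 * t))⁻¹ := inv_anti₀ g4 (by linarith)
      _ = 64 * t := by simp
  have f3 : R ^ 2 / t * (1 / Real.sqrt (Real.pi * t)) ≤ R / t := by
    have k1 : R ≤ Real.sqrt t := Real.le_sqrt_of_sq_le hRt
    have k2 : Real.sqrt t ≤ Real.sqrt (Real.pi * t) := Real.sqrt_le_sqrt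
      (by nlinarith only [mul_pos ht (sub_pos.2 Real.pi_gt_three), ht])
    have k3 : R ≤ Real.sqrt (Real.pi * t) := k1.trans k2
    rw [div_mul_div_comm, mul_one, div_le_div_iff₀ (by positivity) ht]
    linarith only [mul_le_mul_of_nonneg_left (mul_le_mul_of_nonneg_left k3 hR) ht.le]
  have f4 : 64 * t * (1 / Real.sqrt (Real.pi * t)) ≤ 64 * Real.sqrt t := by
    have k2 : Real.sqrt t ≤ Real.sqrt (Real.pi * t) := Real.sqrt_le_sqrt
      (by nlinarith only [mul_pos ht (sub_pos.2 Real.pi_gt_three), ht])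
    rw [mul_one_div, div_le_iff₀ hs]
    have k3 : 64 * Real.sqrt t * Real.sqrt t ≤ 64 * Real.sqrt t * Real.sqrt (Real.pi * t) :=
      mul_le_mul_of_nonneg_left k2 (by positivity)
    have k4 : Real.sqrt t * Real.sqrt t = t := Real.mul_self_sqrt ht.le
    have k5 : 64 * Real.sqrt t * Real.sqrt t = 64 * (Real.sqrt t * Real.sqrt t) := by ring
    rw [k5, k4] at k3
    exact k3
  have f5 : 4 * Real.pi * (R * (c * Real.sqrt (Real.pi * t))) = R / (2 * t) := by
    have k : 4 * Real.pi * (R * (c * Real.sqrt (Real.pi * t))) =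
        (4 * Real.pi * (2 * t * c)) * Real.sqrt (Real.pi * t) * R / (2 * t) := by
      field_simp
    rw [k, hcc]
    field_simp
  have hX : 4 * Real.pi * ∫ r in R..(1 / 4), r * gam t (R + r) =
      4 * Real.pi * (2 * t * gam t (2 * R)) - 4 * Real.pi * (2 * t * gam t (R + 1 / 4)) -
        4 * Real.pi * ∫ r in R..(1 / 4), R * gam t (R + r) := by
    rw [e1, e2]
    ring
  rw [hX]
  have l1 : 1 / Real.sqrt (Real.pi * t) * (1 - R ^ 2 / t) ≤ 4 * Real.pi * (2 * t * gam t (2 * R)) := by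
    rw [← hcc]
    have := mul_le_mul_of_nonneg_left f1 (show 0 ≤ 4 * Real.pi * (2 * t) by positivity)
    linarith
  have l2 : 4 * Real.pi * (2 * t * gam t (R + 1 / 4)) ≤ 1 / Real.sqrt (Real.pi * t) * (64 * t) := by
    rw [← hcc]
    have := mul_le_mul_of_nonneg_left f2 (show 0 ≤ 4 * Real.pi * (2 * t) by positivity)
    linarith
  have l3 : 4 * Real.pi * ∫ r in R..(1 / 4), R * gam t (R + r) ≤ R / (2 * t) := by
    rw [← f5]
    exact mul_le_mul_of_nonneg_left e3 (by positivity)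
  have l4 : R / (2 * t) ≤ R / t := by
    refine div_le_div_of_nonneg_left hR ht (by linarith)
  have l5 : 0 ≤ R / t := by positivity
  have l6 : 1 / Real.sqrt (Real.pi * t) * (1 - R ^ 2 / t) =
      1 / Real.sqrt (Real.pi * t) - R ^ 2 / t * (1 / Real.sqrt (Real.pi * t)) := by ring
  have l7 : 1 / Real.sqrt (Real.pi * t) * (64 * t) = 64 * t * (1 / Real.sqrt (Real.pi * t)) := by ring
  rw [l6] at l1
  rw [l7] at l2
  linarith

theorem cn_hk_inv_geM : ∃ C : ℝ, 0 ≤ C ∧ ∀ (t A B R : ℝ) (U : T3 → ℝ), 0 < t → t ≤ 1 → 0 ≤ A → 0 ≤ B →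
    0 ≤ R → R ≤ 1 / 8 → R ^ 2 ≤ t → BM U → (∀ z, 0 ≤ U z) →
    (∀ z, R ≤ rr z → rr z ≤ 1 / 4 → A / rr z - B ≤ U z) →
    ∀ z, rr z ≤ R → A / Real.sqrt (Real.pi * t) - C * A * (Real.sqrt t + R / t) - B ≤ cn (hk t) U z := by
  obtain ⟨C, hC0, hC⟩ := gam_radial_geM
  refine ⟨C, hC0, fun t A B R U ht ht1 hA hB hR hR8 hRt hU hU0 hUl z hz => ?_⟩
  have hk' : BM (fun y => hk t (z - y)) :=
    (hk_bm ht).comp (measurable_sub' measurable_const measurable_id)
  have hsum : BM (fun y => hk t (z - y) * U y + B * hk t (z - y)) := (hk'.mul hU).add (hk'.const_mul B)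
  have h1 : ∀ y, A * ChgE_chi t R (rr y) ≤ hk t (z - y) * U y + B * hk t (z - y) := by
    intro y
    have hk0 := hk_nonneg t (z - y)
    unfold ChgE_chi
    by_cases h : R < rr y ∧ rr y ≤ 1 / 4
    · rw [if_pos h]
      have hy0 : 0 < rr y := lt_of_le_of_lt hR h.1
      have h2 := hUl y h.1.le h.2
      have h3 : rr (z - y) ≤ R + rr y := by
        have := rr_add_le z (-y)
        rw [rr_neg, ← sub_eq_add_neg] at this
        linarith
      have h4 : gam t (R + rr y) ≤ hk t (z - y) :=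
        (ChgE_gam_anti ht (rr_nonneg _) h3).trans (gam_le_hk ht _)
      have h5 : A / rr y ≤ U y + B := by linarith
      calc A * (gam t (R + rr y) * (1 / rr y)) = gam t (R + rr y) * (A / rr y) := by ring
        _ ≤ hk t (z - y) * (U y + B) := mul_le_mul h4 h5 (by positivity) hk0
        _ = _ := by ring
    · rw [if_neg h, mul_zero]
      have := mul_nonneg hk0 (hU0 y)
      have := mul_nonneg hB hk0
      linarith
  have h0 : ∀ y : T3, 0 ≤ A * ChgE_chi t R (rr y) := by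
    intro y
    unfold ChgE_chi
    split_ifs with h
    · have hy0 : 0 < rr y := lt_of_le_of_lt hR h.1
      have := gam_nonneg t (R + rr y)
      positivity
    · simp
  obtain ⟨M, hM0, hM⟩ := hsum.exists_nonneg_bound
  have hchi : BM (fun y : T3 => A * ChgE_chi t R (rr y)) :=
    BM.of_mem_Icc (((ChgE_chi_meas t R).comp rr_measurable).const_mul A)
      fun y => ⟨h0 y, (h1 y).trans ((le_abs_self _).trans (hM y))⟩
  have h2 := integral_mono (hchi.integrable lam3) (hsum.integrable lam3) h1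
  rw [integral_const_mul, ChgE_chi_int hR hR8,
    integral_add ((hk'.mul hU).integrable _) ((hk'.const_mul B).integrable _),
    integral_const_mul, ChgE_hk_int ht, mul_one] at h2
  have h3 := mul_le_mul_of_nonneg_left (hC t R ht ht1 hR hR8 hRt) hA
  have h4 : A * (1 / Real.sqrt (Real.pi * t) - C * (Real.sqrt t + R / t)) =
      A / Real.sqrt (Real.pi * t) - C * A * (Real.sqrt t + R / t) := by ring
  rw [h4] at h3
  have h5 : cn (hk t) U z = ∫ y, hk t (z - y) * U y ∂lam3 := rfl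
  rw [h5]
  linarith

variable {W : ℝ → ℝ} {R₀ R a : ℝ} {f Q : ℝ → ℝ} {δ : ℝ}

theorem c6M : C6M := by
  obtain ⟨C1, hC1, hE1⟩ := cn_hk_inv_le
  obtain ⟨C2, hC2, hE2⟩ := cn_hk_inv_geM
  refine ⟨10000 + 3 * C1 + 32 * C2, by positivity, fun W f Q R₀ R a h hR δ₁ hδ₁ => ?_⟩
  obtain ⟨δ, hδ, hδ2, hδ3⟩ := ChgF_thick h hδ₁
  have ha := h.a_pos
  have hRp := h.R_pos
  have hSR := hC_SR h hR hδ hδ2
  have hUbm := uC_bm h hR hδ hδ2
  have hsbm : BM (sC a) := sC_bm ha
  have hU0 : ∀ z : T3, 0 ≤ uC W R₀ δ f Q a (rr z) := fun z => uC_nonneg h hR hδ hδ2 (rr_nonneg z)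
  have hwb := wC_bounds h hR hδ hδ2 (fun h0 => (hδ3 h0).trans (min_le_right _ _))
  have hwbm : BM (wC W R₀ δ f Q a) := BM.of_mem_Icc (wC_meas h hδ hδ2) hwb
  have hid : ∀ T, 0 < T → ∀ᵐ z ∂lam3, KI T (hC W R₀ δ f Q) z
      = uC W R₀ δ f Q a (rr z) + KI T (sC a) z - cn (hk T) (fun z => uC W R₀ δ f Q a (rr z)) z :=
    fun T hT => heat_identity hT hSR.bm hsbm hUbm (fc3_uC h hR hδ hδ2)
  -- facts on the support of the charge
  have hsupp : ∀ z : T3, 0 < rr z → hC W R₀ δ f Q z ≠ 0 → rr z ≤ R ∧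
      wC W R₀ δ f Q a z = wE W R₀ δ f Q a (rr z) ∧
      uC W R₀ δ f Q a (rr z) = 2 * wC W R₀ δ f Q a z - 12 * a + 64 * a * rr z ^ 2 := by
    intro z hz0 hz
    have h1 : rr z ≤ R := by
      by_contra hcon
      exact hz (hSR.supp z (not_le.1 hcon))
    have h2 : rr z ≤ 1 / 4 := by linarith
    have h3 : wC W R₀ δ f Q a z = wE W R₀ δ f Q a (rr z) := by
      unfold wC
      rw [if_pos ⟨hz0, h2⟩]
    refine ⟨h1, h3, ?_⟩
    rw [h3]
    exact uC_eq h hR hδ hδ2 hz0.le h2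
  have hr2 : ∀ z : T3, rr z ≤ R → 64 * a * rr z ^ 2 ≤ a := by
    intro z hz
    have h1 : rr z ^ 2 ≤ (1 / 8) ^ 2 := pow_le_pow_left₀ (rr_nonneg z) (hz.trans hR) 2
    linarith only [mul_le_mul_of_nonneg_left h1 ha.le]
  have hKs : ∀ T, 0 ≤ T → ∀ z, 0 ≤ KI T (sC a) z ∧ KI T (sC a) z ≤ T * (384 * a) := fun T hT z =>
    ⟨KI_nonneg hT (sC_nonneg ha) z, KI_le hT hsbm (sC_le ha) z⟩
  have hcU0 : ∀ T z, 0 ≤ cn (hk T) (fun z => uC W R₀ δ f Q a (rr z)) z := fun T z =>
    cn_nonneg (hk_nonneg T) hU0 z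
  have hcU1 : ∀ T, 0 < T → T ≤ 1 → ∀ z,
      cn (hk T) (fun z => uC W R₀ δ f Q a (rr z)) z ≤ C1 * (2 * a) / Real.sqrt T := fun T hT hT1 =>
    hE1 T (2 * a) _ hT hT1 (by positivity) hUbm (fun z hz => uC_le h hR hδ hδ2 hz)
      (fun z hz => (uC_zero h hR hδ hδ2 hz).le)
  refine ⟨hC W R₀ δ f Q, kC W R₀ f, wC W R₀ δ f Q a, hSR, kC_bm h, ?_,
    fun z => by unfold kC; rw [rr_neg], hwbm,
    fun z => (hwb z).1, fun z => (hwb z).2, ?_, ?_, ?_, ?_, ?_⟩
  · -- k_nonneg
    intro z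
    unfold kC
    split_ifs
    · have h1 := h.W_nonneg (rr z)
      positivity
    · exact le_rfl
  · -- out
    intro z hz
    rcases (rr_nonneg z).eq_or_lt with h0 | h0
    · rw [hC_zero h0.symm]
      unfold kC
      rw [if_neg (fun hh => by rw [← h0] at hh; exact lt_irrefl _ hh.2)]
      simp
    · rw [hC_out h hδ hδ2 hz h0]
      unfold kC
      rw [if_pos ⟨hz, h0⟩]
      exact le_of_eq (by ring)
  · -- two
    intro z
    have hh0 := hSR.nonneg z
    rcases (rr_nonneg z).eq_or_lt with h0 | h0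
    · rw [hC_zero h0.symm]
      unfold kC
      rw [if_neg (fun hh => by rw [← h0] at hh; exact lt_irrefl _ hh.2)]
      simp
    · rcases lt_or_ge (rr z) R₀ with h1 | h1
      · have h2 : rr z ≤ 1 / 4 := by linarith [h.R₀_le]
        have hk0 : kC W R₀ f z = 0 := by
          unfold kC
          rw [if_neg (fun hh => absurd hh.1 (not_le.2 h1))]
        have hw : wC W R₀ δ f Q a z ≤ 1 + δ₁ := by
          unfold wC
          rw [if_pos ⟨h0, h2⟩]
          have h3 := wE_core h hR hδ hδ2 h0.le h1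
          have h4 := (hδ3 (h0.trans h1)).trans (min_le_left _ _)
          linarith
        rw [hk0]
        linarith only [mul_le_mul_of_nonneg_left hw hh0]
      · rcases le_or_gt (rr z) (1 / 4) with h2 | h2
        · have hw : wC W R₀ δ f Q a z = 1 - f (rr z) := by
            unfold wC
            rw [if_pos ⟨h0, h2⟩]
            exact wE_eq_one_sub h hR hδ hδ2 h1 h0 h2
          have hk0 : kC W R₀ f z = 2 * W (rr z) * f (rr z) ^ 2 := by
            unfold kC
            rw [if_pos ⟨h1, h0⟩]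
          rw [hk0, hw]
          have h3 := hC_out h hδ hδ2 h1 h0
          have h4 : hC W R₀ δ f Q z * (1 - f (rr z)) = hC W R₀ δ f Q z - 2 * W (rr z) * f (rr z) ^ 2 := by
            rw [h3]; ring
          rw [h4]
          linarith only [mul_nonneg hδ₁.le hh0]
        · have h3 : hC W R₀ δ f Q z = 0 := hSR.supp z (by linarith)
          have hk0 : kC W R₀ f z = 0 := by
            unfold kC
            rw [if_pos ⟨h1, h0⟩, h.W_zero (rr z) (by linarith)]
            ring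
          rw [h3, hk0]
          simp
  · -- p1
    intro t ht ht1 hRt
    filter_upwards [hid (t / 2) (by positivity), ae_rr_pos] with z hz hz0
    by_cases h0 : hC W R₀ δ f Q z = 0
    · rw [h0]; simp
    · obtain ⟨h1, h2, h3⟩ := hsupp z hz0 h0
      refine mul_le_mul_of_nonneg_left ?_ (hSR.nonneg z)
      rw [KK_eq_KI, hz, h3]
      have h4 := (hKs (t / 2) (by positivity) z).2
      have h5 := hcU0 (t / 2) z
      have h6 := hr2 z h1
      have h7 : 0 ≤ (3 * C1 + 32 * C2) * a * t := by positivity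
      linarith only [mul_pos ha ht, h4, h5, h6, h7, ha]
  · -- p2
    intro t ht ht1 hRt
    filter_upwards [hid (t / 2) (by positivity), ae_rr_pos] with z hz hz0
    by_cases h0 : hC W R₀ δ f Q z = 0
    · rw [h0]; simp
    · obtain ⟨h1, h2, h3⟩ := hsupp z hz0 h0
      refine mul_le_mul_of_nonneg_left ?_ (hSR.nonneg z)
      have hs : 0 < Real.sqrt t := Real.sqrt_pos.2 ht
      have hs1 := ChgF_sqrt ht ht1
      have h4 := hKs (t / 2) (by positivity) z
      have h5 := hcU0 (t / 2) z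
      have h5' := hcU1 (t / 2) (by positivity) (by linarith) z
      have h6 := hr2 z h1
      have h6' : 0 ≤ 64 * a * rr z ^ 2 := by positivity
      -- the second time integral
      have h7 : 0 ≤ ∫ u in (t / 2)..t, cn (hk u) (hC W R₀ δ f Q) z :=
        intervalIntegral.integral_nonneg (by linarith) fun u hu => cn_nonneg (hk_nonneg u) hSR.nonneg z
      have h8 : ∫ u in (t / 2)..t, cn (hk u) (hC W R₀ δ f Q) z
          ≤ ∫ u in (t / 2)..t, (27 / 8) * (1 / Real.sqrt t) ^ 3 * (8 * Real.pi * a) :=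
        intervalIntegral.integral_mono_on (by linarith) (cn_hk_int hSR.bm z _ _)
          intervalIntegrable_const fun u hu => ChgF_cn_le hSR ht ht1 hu.1 z
      rw [intervalIntegral.integral_const, smul_eq_mul] at h8
      have hst : t * (1 / Real.sqrt t) ^ 3 = 1 / Real.sqrt t := by
        have : Real.sqrt t ^ 2 = t := Real.sq_sqrt ht.le
        have e : (1 / Real.sqrt t) ^ 3 = 1 / (Real.sqrt t ^ 2 * Real.sqrt t) := by
          rw [div_pow, one_pow, pow_succ]
        rw [e, this]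
        field_simp
      have h9 : (t - t / 2) * ((27 / 8) * (1 / Real.sqrt t) ^ 3 * (8 * Real.pi * a))
          = 27 / 2 * Real.pi * a * (1 / Real.sqrt t) := by
        calc (t - t / 2) * ((27 / 8) * (1 / Real.sqrt t) ^ 3 * (8 * Real.pi * a))
            = 27 / 2 * Real.pi * a * (t * (1 / Real.sqrt t) ^ 3) := by ring
          _ = _ := by rw [hst]
      rw [h9] at h8
      have h10 : 27 / 2 * Real.pi * a * (1 / Real.sqrt t) ≤ 54 * a * (1 / Real.sqrt t) := by
        have hpi := Real.pi_le_four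
        have : 0 ≤ a * (1 / Real.sqrt t) := by positivity
        linarith only [mul_le_mul_of_nonneg_right hpi this]
      have h11 : C1 * (2 * a) / Real.sqrt (t / 2) ≤ 3 * C1 * a * (1 / Real.sqrt t) := by
        have h12 : 2 / 3 * Real.sqrt t ≤ Real.sqrt (t / 2) := by
          refine Real.le_sqrt_of_sq_le ?_
          rw [mul_pow, Real.sq_sqrt ht.le]
          linarith only [ht]
        have h13 : 0 < Real.sqrt (t / 2) := Real.sqrt_pos.2 (by positivity)
        rw [div_le_iff₀ h13]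
        have h14 : 3 * C1 * a * (1 / Real.sqrt t) * (2 / 3 * Real.sqrt t)
            ≤ 3 * C1 * a * (1 / Real.sqrt t) * Real.sqrt (t / 2) :=
          mul_le_mul_of_nonneg_left h12 (by positivity)
        have h15 : 3 * C1 * a * (1 / Real.sqrt t) * (2 / 3 * Real.sqrt t) = C1 * (2 * a) := by
          field_simp
        linarith
      have h16 : a ≤ a * (1 / Real.sqrt t) := le_mul_of_one_le_right ha.le hs1
      have h17 : a * t ≤ a * (1 / Real.sqrt t) := mul_le_mul_of_nonneg_left (ht1.trans hs1) ha.le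
      have h18 : 0 ≤ C1 * a * (1 / Real.sqrt t) := by positivity
      have h19 : 0 ≤ C2 * a * (1 / Real.sqrt t) := by positivity
      have h20 : (10000 + 3 * C1 + 32 * C2) * a / Real.sqrt t
          = 10000 * (a * (1 / Real.sqrt t)) + 3 * (C1 * a * (1 / Real.sqrt t))
            + 32 * (C2 * a * (1 / Real.sqrt t)) := by ring
      rw [h20]
      unfold WT
      rw [KK_eq_KI, hz, h3, abs_le]
      constructor
      · linarith only [h4.1, h4.2, h5, h5', h6, h6', h7, h8, h10, h11, h16, h17, h18, h19, ha]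
      · linarith only [h4.1, h4.2, h5, h5', h6, h6', h7, h8, h10, h11, h16, h17, h18, h19, ha]
  · -- p3
    intro t ht ht1 hRt
    have hs : 0 < Real.sqrt t := Real.sqrt_pos.2 ht
    set hh := hC W R₀ δ f Q with hhdef
    set UU := fun z : T3 => uC W R₀ δ f Q a (rr z) with hUU
    have hf0 : fc3 (fun y => (hh y : ℂ)) 0 = ((8 * Real.pi * a : ℝ) : ℂ) := by
      unfold fc3
      have : ∀ x : T3, conj (ch 0 x) * ((hh x : ℝ) : ℂ) = ((hh x : ℝ) : ℂ) := fun x => by
        rw [ch_zero, map_one, one_mul]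
      simp_rw [this]
      rw [integral_complex_ofReal, hSR.int]
    have hP := KI_parseval ht.le hSR.bm
    have hz0 : HasSum (fun p : Fin 3 → ℤ => t * pz p * ‖fc3 (fun y => (hh y : ℂ)) p‖ ^ 2)
        (t * (8 * Real.pi * a) ^ 2) := by
      have h1 := hasSum_single (f := fun p : Fin 3 → ℤ => t * pz p * ‖fc3 (fun y => (hh y : ℂ)) p‖ ^ 2)
        0 (fun p hp => by
          simp only [pz]
          rw [if_neg hp]
          ring)
      have h2 : t * pz 0 * ‖fc3 (fun y => (hh y : ℂ)) 0‖ ^ 2 = t * (8 * Real.pi * a) ^ 2 := by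
        rw [hf0, Complex.norm_real, Real.norm_eq_abs, sq_abs]
        simp [pz]
      rw [h2] at h1
      exact h1
    have hA := hP.sub hz0
    have hAe : (fun p => (∫ u in (0:ℝ)..t, Real.exp (-(u * ksq p))) * ‖fc3 (fun y => (hh y : ℂ)) p‖ ^ 2
        - t * pz p * ‖fc3 (fun y => (hh y : ℂ)) p‖ ^ 2)
        = fun p => alp t p * ‖fc3 (fun y => (hh y : ℂ)) p‖ ^ 2 := by
      ext p
      rw [← alp_eq_integral]
      ring
    rw [hAe] at hA
    rw [hA.tsum_eq]
    have hKbm := KI_bm ht.le hSR.bm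
    have hI1 : Integrable (fun z => hh z * wC W R₀ δ f Q a z) lam3 := (hSR.bm.mul hwbm).integrable _
    have hI2 : Integrable (fun z => hh z * KI t hh z) lam3 := (hSR.bm.mul hKbm).integrable _
    have hst1 : t ≤ Real.sqrt t := by
      refine Real.le_sqrt_of_sq_le ?_
      nlinarith only [ht, ht1]
    have hRt0 : 0 ≤ R / t := by positivity
    set L : ℝ := (2 * a) / Real.sqrt (Real.pi * t)
      - (C2 * (2 * a) + 448 * a) * (Real.sqrt t + R / t) with hL
    have hpt : ∀ᵐ z ∂lam3, hh z * (1 / 2 * L) ≤ hh z * wC W R₀ δ f Q a z - 1 / 2 * (hh z * KI t hh z) := by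
      filter_upwards [hid t ht, ae_rr_pos] with z hz hz0
      by_cases h0 : hh z = 0
      · rw [h0]; simp
      · obtain ⟨h1, h2, h3⟩ := hsupp z hz0 h0
        have e : hh z * wC W R₀ δ f Q a z - 1 / 2 * (hh z * KI t hh z)
            = hh z * (wC W R₀ δ f Q a z - 1 / 2 * KI t hh z) := by ring
        rw [e]
        refine mul_le_mul_of_nonneg_left ?_ (hSR.nonneg z)
        rw [hz, h3]
        have h4 := (hKs t ht.le z).2
        have h6 : 64 * a * rr z ^ 2 ≤ 64 * a * Real.sqrt t := by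
          have h61 : rr z ^ 2 ≤ R ^ 2 := pow_le_pow_left₀ (rr_nonneg z) h1 2
          exact mul_le_mul_of_nonneg_left (h61.trans (hRt.trans hst1)) (by positivity)
        have h7 := hE2 t (2 * a) (12 * a) R UU ht ht1 (by positivity) (by positivity) hRp.le hR hRt
          hUbm hU0 (fun z hz hz' => uC_ge h hR hδ hδ2 hz hz') z h1
        have h8 : t * (384 * a) ≤ 384 * a * Real.sqrt t := by
          rw [mul_comm]
          exact mul_le_mul_of_nonneg_left hst1 (by positivity)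
        have h9 : 0 ≤ 448 * a * (R / t) := by positivity
        rw [hL]
        linarith only [h4, h6, h7, h8, h9, ha]
    have hint : ∫ z, hh z * (1 / 2 * L) ∂lam3
        ≤ ∫ z, (hh z * wC W R₀ δ f Q a z - 1 / 2 * (hh z * KI t hh z)) ∂lam3 :=
      integral_mono_ae ((hSR.bm.integrable _).mul_const _) (hI1.sub (hI2.const_mul _)) hpt
    rw [integral_mul_const, hSR.int, integral_sub hI1 (hI2.const_mul _), integral_const_mul] at hint
    have h2 : 8 * Real.pi * a ^ 2 / Real.sqrt (Real.pi * t)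
        = 8 * Real.pi * a * (1 / 2 * ((2 * a) / Real.sqrt (Real.pi * t))) := by ring
    have h3 : 8 * Real.pi * a * (1 / 2 * ((C2 * (2 * a) + 448 * a) * (Real.sqrt t + R / t)))
        ≤ (10000 + 3 * C1 + 32 * C2) * a ^ 2 * (Real.sqrt t + R / t) := by
      have hpi := Real.pi_le_four
      have hpi0 := Real.pi_pos
      have hsR : 0 ≤ Real.sqrt t + R / t := by positivity
      have h4 : 8 * Real.pi * a * (1 / 2 * ((C2 * (2 * a) + 448 * a) * (Real.sqrt t + R / t)))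
          = Real.pi * (a ^ 2 * ((8 * C2 + 1792) * (Real.sqrt t + R / t))) := by ring
      rw [h4]
      have h5 : 0 ≤ a ^ 2 * ((8 * C2 + 1792) * (Real.sqrt t + R / t)) := by positivity
      refine (mul_le_mul_of_nonneg_right hpi h5).trans ?_
      have h6 : 0 ≤ (2832 + 3 * C1) * a ^ 2 * (Real.sqrt t + R / t) := by positivity
      linarith only [h6]
    have h4 : 0 ≤ t * (8 * Real.pi * a) ^ 2 := by positivity
    have h5 : 8 * Real.pi * a * (1 / 2 * L)
        = 8 * Real.pi * a * (1 / 2 * ((2 * a) / Real.sqrt (Real.pi * t)))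
          - 8 * Real.pi * a * (1 / 2 * ((C2 * (2 * a) + 448 * a) * (Real.sqrt t + R / t))) := by
      rw [hL]; ring
    rw [h5] at hint
    rw [h2]
    linarith only [hint, h3, h4]

end Pool.Agent.Lib.MP_4952d6_mp.LB

end

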