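import Pool.Agent.Lib.MP_4952d6_mp.Pk.G23
import Pool.Agent.Lib.MP_4952d6_mp.Pk.G26
import Pool.Agent.Lib.MP_4952d6_mp.Pk.G41
import Pool.Agent.Lib.MP_4952d6_mp.Pm.M02
import Pool.Agent.Lib.MP_4952d6_mp.Pm.M03
import Pool.Agent.Lib.MP_4952d6_mp.Pm.M04
import Pool.Agent.Lib.MP_4952d6_mp.Pm.M08

/-! Merged modules (to save import time): M.XE, M.VA, M.VB, M.GC, M.GC2, M.PU7A2, M.PU7B, M.PU7C, M.PU7D. -/

/-! ### M.XE -/

section

/-!
# MX with existence of an admissible state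
-/

set_option autoImplicit false
set_option linter.unusedSectionVars false
set_option linter.unusedVariables false
open MeasureTheory Function Filter Topology Set
open scoped ENNReal

namespace Pool.Agent.Lib.MP_4952d6_mp.M

/-- **(MXE)** as (MX), and there is an admissible state. -/
def MXEStatement : Prop :=
  ∃ M : ℕ, ∀ θ CM : ℝ, ∃ C c₀ : ℝ, 0 ≤ C ∧ 0 < c₀ ∧ ∀ (κ q : ℝ), 0 < κ → 0 < q →
    q ≤ c₀ * κ ^ M →
    ∀ (N : ℕ) (W f Q : ℝ → ℝ) (R₀ R a : ℝ), Scat W R₀ R a f Q →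
      (N : ℝ) * a ^ 3 = q ^ 400 → a ≤ q ^ 200 / 8 → κ ≤ lq q a ^ 2 → R ≤ θ * a →
      ∀ 𝒱 𝒱₂ : T3 → ℝ≥0∞, Measurable 𝒱₂ →
      (∀ᵐ y ∂lam3, ENNReal.ofReal (2 * W (rr y)) ≤ 𝒱 y) →
      (∀ᵐ y ∂lam3, 𝒱 y ≤ ENNReal.ofReal (2 * W (rr y)) + 𝒱₂ y) →
      ∫⁻ y, 𝒱₂ y ∂lam3 ≤ ENNReal.ofReal (a * q ^ 201) →
      (∃ φ : (Fin N → T3) → ℂ, tAdm R₀ 𝒱 φ) ∧
      ∀ ψ : (Fin N → T3) → ℂ, tAdm R₀ 𝒱 ψ →
      (∀ φ : (Fin N → T3) → ℂ, tAdm R₀ 𝒱 φ → tE 𝒱 ψ ≤ tE 𝒱 φ) →
      LocL CM (q ^ 10) ((a / q ^ 160) ^ 2) ψ →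
      |lq q a ^ 3 * (∑ i, nuQ (fc ψ) i) - sl (lq q a)| ≤ C * (Real.sqrt κ + q / κ ^ 3)

theorem mxe_of (hX : MXStatement) (hU : MUStatement) : MXEStatement := by
  obtain ⟨M₁, hX⟩ := hX
  obtain ⟨M₂, hU⟩ := hU
  refine ⟨M₁ + M₂, fun θ CM => ?_⟩
  obtain ⟨C, c₁, hC, hc₁, hX⟩ := hX θ CM
  obtain ⟨c₂, hc₂, hU⟩ := hU θ
  refine ⟨C, min c₁ c₂, hC, lt_min hc₁ hc₂, ?_⟩
  intro κ q hκ hq hqκ N W f Q R₀ R a hsc hN ha8 hκl hR 𝒱 𝒱₂ hm hV1 hV2 hζ
  have ha : 0 < a := hsc.a_pos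
  have hl : 0 ≤ lq q a ∧ lq q a ≤ 1 := by
    unfold lq
    constructor
    · positivity
    · rw [div_le_one (by positivity)]
      have : 0 < q ^ 200 := by positivity
      linarith
  have hκ1 : κ ≤ 1 := hκl.trans (pow_le_one₀ hl.1 hl.2)
  have h1 : q ≤ c₁ * κ ^ M₁ := by
    refine hqκ.trans (mul_le_mul (min_le_left _ _) ?_ (by positivity) hc₁.le)
    exact pow_le_pow_of_le_one hκ.le hκ1 (by omega)
  have h2 : q ≤ c₂ * κ ^ M₂ := by
    refine hqκ.trans (mul_le_mul (min_le_right _ _) ?_ (by positivity) hc₂.le)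
    exact pow_le_pow_of_le_one hκ.le hκ1 (by omega)
  obtain ⟨φ, hφ, -⟩ := hU κ q hκ hq h2 N W f Q R₀ R a hsc hN ha8 hκl hR 𝒱 𝒱₂ hm hV2
    (a * q ^ 201) (by positivity) hζ
  exact ⟨⟨φ, hφ⟩, hX κ q hκ hq h1 N W f Q R₀ R a hsc hN ha8 hκl hR 𝒱 𝒱₂ hm hV1 hV2 hζ⟩

end Pool.Agent.Lib.MP_4952d6_mp.M

end

/-! ### M.VA -/

section

/-!
# VA: sums over the nonzero momenta

(B0) `∑' exp(-s k²) ≤ C s^{-3/2}` for all `s > 0` (`hk_sub_one_le`), (B2) `∑' exp(-s k²)/k² ≤ C s^{-1/2}`,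
(B3) `∑' (1 - exp(-t k²))/k⁴ ≤ C √t`, (B1) `∑' k^{-4}` converges. (B2) and (B3) follow from (B0) for finite sums by
comparison of derivatives in `s`.
-/

set_option autoImplicit false
set_option linter.unusedSectionVars false
set_option linter.unusedVariables false
open MeasureTheory Function Filter Topology Set
open scoped ENNReal

namespace Pool.Agent.Lib.MP_4952d6_mp.M

lemma VA_ksq_ge {p : Fin 3 → ℤ} (hp : p ≠ 0) : 4 * Real.pi ^ 2 ≤ ksq p := by
  have h := LB.Mul_one_le_mom2 hp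
  unfold ksq
  nlinarith [sq_nonneg Real.pi]

lemma VA_ksq_pos {p : Fin 3 → ℤ} (hp : p ≠ 0) : 0 < ksq p := by
  have h1 := VA_ksq_ge hp
  have h2 : 0 < Real.pi := Real.pi_pos
  have : 0 < 4 * Real.pi ^ 2 := by positivity
  linarith

lemma VA_hasSum {s : ℝ} (hs : 0 < s) :
    HasSum (fun p : Fin 3 → ℤ => if p = 0 then 0 else Real.exp (-(s * ksq p))) (hk s 0 - 1) := by
  have h1 := Complex.hasSum_re (hasSum_hk hs 0)
  rw [Complex.ofReal_re] at h1
  have e0 : ∀ p, ch p 0 = 1 := fun p => by simp [ch, UnitAddTorus.mFourier]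
  have h2 : HasSum (fun p : Fin 3 → ℤ => Real.exp (-(s * ksq p))) (hk s 0) := by
    refine h1.congr_fun ?_
    intro p
    rw [e0, mul_one, Complex.ofReal_re]
  have h3 : HasSum (fun p : Fin 3 → ℤ => if p = 0 then (1:ℝ) else 0) 1 := hasSum_ite_eq 0 1
  refine (h2.sub h3).congr_fun ?_
  intro p
  split_ifs with h
  · rw [h, HKE_ksq_zero]
    simp
  · simp

/-- (B0) -/
theorem VA_B0 : ∃ C : ℝ, 0 ≤ C ∧ ∀ s : ℝ, 0 < s →
    Summable (fun p : Fin 3 → ℤ => if p = 0 then 0 else Real.exp (-(s * ksq p))) ∧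
    (∑' p : Fin 3 → ℤ, if p = 0 then 0 else Real.exp (-(s * ksq p))) ≤ C * (Real.sqrt s)⁻¹ ^ 3 := by
  obtain ⟨C, hC, h⟩ := hk_sub_one_le
  refine ⟨C, hC, fun s hs => ⟨(VA_hasSum hs).summable, ?_⟩⟩
  rw [(VA_hasSum hs).tsum_eq]
  exact (le_abs_self _).trans (h s hs 0)

lemma VA_sqrt_inv_deriv {s : ℝ} (hs : 0 < s) :
    HasDerivAt (fun x : ℝ => (Real.sqrt x)⁻¹) (-(1 / 2 * (Real.sqrt s)⁻¹ ^ 3)) s := by
  have h0 : 0 < Real.sqrt s := Real.sqrt_pos.2 hs
  have h1 := (Real.hasDerivAt_sqrt hs.ne').inv h0.ne'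
  refine h1.congr_deriv ?_
  have h2 : Real.sqrt s ^ 2 = s := Real.sq_sqrt hs.le
  field_simp

lemma VA_sqrt_inv_tendsto : Tendsto (fun x : ℝ => (Real.sqrt x)⁻¹) atTop (𝓝 0) :=
  tendsto_inv_atTop_zero.comp Real.tendsto_sqrt_atTop

/-- (B2), finite sums -/
lemma VA_fin2 {C : ℝ} (hC : 0 ≤ C) (hB : ∀ s : ℝ, 0 < s →
    Summable (fun p : Fin 3 → ℤ => if p = 0 then 0 else Real.exp (-(s * ksq p))) ∧
    (∑' p : Fin 3 → ℤ, if p = 0 then 0 else Real.exp (-(s * ksq p))) ≤ C * (Real.sqrt s)⁻¹ ^ 3)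
    (F : Finset (Fin 3 → ℤ)) {s : ℝ} (hs : 0 < s) :
    ∑ p ∈ F, (if p = 0 then 0 else Real.exp (-(s * ksq p)) / ksq p) ≤ 2 * C * (Real.sqrt s)⁻¹ := by
  set φ : ℝ → ℝ := fun x => 2 * C * (Real.sqrt x)⁻¹
    - ∑ p ∈ F, (if p = 0 then 0 else Real.exp (-(x * ksq p)) / ksq p) with hφ
  have hd : ∀ x : ℝ, 0 < x → HasDerivAt φ (2 * C * (-(1 / 2 * (Real.sqrt x)⁻¹ ^ 3))
      - ∑ p ∈ F, (if p = 0 then 0 else -Real.exp (-(x * ksq p)))) x := by
    intro x hx
    refine ((VA_sqrt_inv_deriv hx).const_mul _).sub ?_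
    refine HasDerivAt.fun_sum fun p _ => ?_
    by_cases hp : p = 0
    · simp only [hp, if_true]
      exact hasDerivAt_const _ _
    · simp only [hp, if_false]
      have hk := VA_ksq_pos hp
      have h1 : HasDerivAt (fun y : ℝ => -(y * ksq p)) (-(1 * ksq p)) x :=
        ((hasDerivAt_id x).mul_const _).neg
      refine (h1.exp.div_const (ksq p)).congr_deriv ?_
      field_simp
  have hanti : AntitoneOn φ (Ioi 0) := by
    refine antitoneOn_of_deriv_nonpos (convex_Ioi 0)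
      (fun x hx => (hd x hx).continuousAt.continuousWithinAt) ?_ ?_
    · rw [interior_Ioi]
      exact fun x hx => (hd x hx).differentiableAt.differentiableWithinAt
    · rw [interior_Ioi]
      intro x hx
      have hx0 : 0 < x := hx
      rw [(hd x hx).deriv]
      obtain ⟨hs1, hs2⟩ := hB x hx0
      have h3 : ∑ p ∈ F, (if p = 0 then 0 else Real.exp (-(x * ksq p)))
          ≤ ∑' p : Fin 3 → ℤ, (if p = 0 then 0 else Real.exp (-(x * ksq p))) :=
        hs1.sum_le_tsum F (fun p _ => by split_ifs <;> positivity)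
      have h4 : ∑ p ∈ F, (if p = 0 then 0 else -Real.exp (-(x * ksq p)))
          = -∑ p ∈ F, (if p = 0 then 0 else Real.exp (-(x * ksq p))) := by
        rw [← Finset.sum_neg_distrib]
        refine Finset.sum_congr rfl fun p _ => ?_
        split_ifs <;> simp
      rw [h4]
      linarith
  have hlim : Tendsto φ atTop (𝓝 (2 * C * 0 - ∑ p ∈ F, 0)) := by
    refine (VA_sqrt_inv_tendsto.const_mul _).sub (tendsto_finsetSum _ fun p _ => ?_)
    by_cases hp : p = 0
    · simp [hp]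
    · simp only [hp, if_false]
      have hk := VA_ksq_pos hp
      have h1 : Tendsto (fun x : ℝ => x * ksq p) atTop atTop :=
        tendsto_id.atTop_mul_const hk
      have h2 := (Real.tendsto_exp_neg_atTop_nhds_zero.comp h1).div_const (ksq p)
      simpa [Function.comp_def] using h2
  have h0 : 2 * C * 0 - ∑ p ∈ F, (0:ℝ) = 0 := by simp
  rw [h0] at hlim
  have h5 : 0 ≤ φ s := by
    refine le_of_tendsto hlim ?_
    filter_upwards [eventually_ge_atTop s] with x hx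
    exact hanti hs (lt_of_lt_of_le hs hx) hx
  simp only [hφ] at h5
  linarith

/-- (B2) -/
theorem VA_B2 : ∃ C : ℝ, 0 ≤ C ∧ ∀ s : ℝ, 0 < s →
    Summable (fun p : Fin 3 → ℤ => if p = 0 then 0 else Real.exp (-(s * ksq p)) / ksq p) ∧
    (∑' p : Fin 3 → ℤ, if p = 0 then 0 else Real.exp (-(s * ksq p)) / ksq p)
      ≤ C * (Real.sqrt s)⁻¹ := by
  obtain ⟨C, hC, hB⟩ := VA_B0
  have h0 : ∀ s : ℝ, 0 ≤ fun p : Fin 3 → ℤ => if p = 0 then 0 else Real.exp (-(s * ksq p)) / ksq p := by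
    intro s p
    simp only [Pi.zero_apply]
    split_ifs with hp
    · exact le_rfl
    · have := VA_ksq_pos hp
      positivity
  exact ⟨2 * C, by positivity, fun s hs => ⟨summable_of_sum_le (h0 s) fun F => VA_fin2 hC hB F hs,
    Real.tsum_le_of_sum_le (h0 s) fun F => VA_fin2 hC hB F hs⟩⟩

/-- (B3), finite sums -/
lemma VA_fin3 {C : ℝ} (hC : 0 ≤ C) (hB : ∀ s : ℝ, 0 < s →
    Summable (fun p : Fin 3 → ℤ => if p = 0 then 0 else Real.exp (-(s * ksq p)) / ksq p) ∧
    (∑' p : Fin 3 → ℤ, if p = 0 then 0 else Real.exp (-(s * ksq p)) / ksq p)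
      ≤ C * (Real.sqrt s)⁻¹)
    (F : Finset (Fin 3 → ℤ)) {t : ℝ} (ht : 0 ≤ t) :
    ∑ p ∈ F, (if p = 0 then 0 else (1 - Real.exp (-(t * ksq p))) / ksq p ^ 2)
      ≤ 2 * C * Real.sqrt t := by
  set φ : ℝ → ℝ := fun x => 2 * C * Real.sqrt x
    - ∑ p ∈ F, (if p = 0 then 0 else (1 - Real.exp (-(x * ksq p))) / ksq p ^ 2) with hφ
  have hd : ∀ x : ℝ, 0 < x → HasDerivAt φ (2 * C * (1 / (2 * Real.sqrt x))
      - ∑ p ∈ F, (if p = 0 then 0 else Real.exp (-(x * ksq p)) / ksq p)) x := by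
    intro x hx
    refine ((Real.hasDerivAt_sqrt hx.ne').const_mul _).sub ?_
    refine HasDerivAt.fun_sum fun p _ => ?_
    by_cases hp : p = 0
    · simp only [hp, if_true]
      exact hasDerivAt_const _ _
    · simp only [hp, if_false]
      have hk := VA_ksq_pos hp
      have h1 : HasDerivAt (fun y : ℝ => -(y * ksq p)) (-(1 * ksq p)) x :=
        ((hasDerivAt_id x).mul_const _).neg
      refine ((h1.exp.const_sub 1).div_const (ksq p ^ 2)).congr_deriv ?_
      field_simp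
  have hcont : Continuous φ := by
    refine (continuous_const.mul Real.continuous_sqrt).sub (continuous_finsetSum _ fun p _ => ?_)
    by_cases hp : p = 0
    · simp only [hp, if_true]
      exact continuous_const
    · simp only [hp, if_false]
      fun_prop
  have hmono : MonotoneOn φ (Ici 0) := by
    refine monotoneOn_of_deriv_nonneg (convex_Ici 0) hcont.continuousOn ?_ ?_
    · rw [interior_Ici]
      exact fun x hx => (hd x hx).differentiableAt.differentiableWithinAt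
    · rw [interior_Ici]
      intro x hx
      have hx0 : 0 < x := hx
      rw [(hd x hx).deriv]
      obtain ⟨hs1, hs2⟩ := hB x hx0
      have h3 : ∑ p ∈ F, (if p = 0 then 0 else Real.exp (-(x * ksq p)) / ksq p)
          ≤ ∑' p : Fin 3 → ℤ, (if p = 0 then 0 else Real.exp (-(x * ksq p)) / ksq p) :=
        hs1.sum_le_tsum F (fun p _ => by
          split_ifs with hp
          · exact le_rfl
          · have := VA_ksq_pos hp
            positivity)
      have h4 : 2 * C * (1 / (2 * Real.sqrt x)) = C * (Real.sqrt x)⁻¹ := by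
        have : 0 < Real.sqrt x := Real.sqrt_pos.2 hx0
        field_simp
      rw [h4]
      linarith
  have h5 := hmono (mem_Ici.2 le_rfl) (mem_Ici.2 ht) ht
  have h6 : φ 0 = 0 := by
    simp only [hφ]
    rw [Real.sqrt_zero, mul_zero, zero_sub, neg_eq_zero]
    refine Finset.sum_eq_zero fun p _ => ?_
    simp
  rw [h6] at h5
  simp only [hφ] at h5
  linarith

/-- (B3) -/
theorem VA_B3 : ∃ C : ℝ, 0 ≤ C ∧ ∀ t : ℝ, 0 ≤ t →
    Summable (fun p : Fin 3 → ℤ => if p = 0 then 0 else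
      (1 - Real.exp (-(t * ksq p))) / ksq p ^ 2) ∧
    (∑' p : Fin 3 → ℤ, if p = 0 then 0 else (1 - Real.exp (-(t * ksq p))) / ksq p ^ 2)
      ≤ C * Real.sqrt t := by
  obtain ⟨C, hC, hB⟩ := VA_B2
  have h0 : ∀ t : ℝ, 0 ≤ t → 0 ≤ fun p : Fin 3 → ℤ => if p = 0 then 0 else
      (1 - Real.exp (-(t * ksq p))) / ksq p ^ 2 := by
    intro t ht p
    simp only [Pi.zero_apply]
    split_ifs with hp
    · exact le_rfl
    · have h1 := VA_ksq_pos hp
      have h2 : Real.exp (-(t * ksq p)) ≤ 1 := by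
        rw [Real.exp_le_one_iff]
        have : 0 ≤ t * ksq p := by positivity
        linarith
      exact div_nonneg (by linarith) (by positivity)
  exact ⟨2 * C, by positivity, fun t ht =>
    ⟨summable_of_sum_le (h0 t ht) fun F => VA_fin3 hC hB F ht,
      Real.tsum_le_of_sum_le (h0 t ht) fun F => VA_fin3 hC hB F ht⟩⟩

/-- (B1) -/
theorem VA_B1 : Summable (fun p : Fin 3 → ℤ => if p = 0 then 0 else 1 / ksq p ^ 2) := by
  obtain ⟨C, hC, hB⟩ := VA_B3
  refine Summable.of_nonneg_of_le (fun p => ?_) (fun p => ?_) ((hB 1 zero_le_one).1.mul_left 2)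
  · split_ifs with hp
    · exact le_rfl
    · have := VA_ksq_pos hp
      positivity
  · split_ifs with hp
    · simp
    · have h1 := VA_ksq_ge hp
      have hpi := Real.pi_gt_three
      have h2 : (1:ℝ) ≤ ksq p := by nlinarith
      have h3 : Real.exp (-(1 * ksq p)) ≤ 1 / 2 := by
        have h4 : Real.exp (-(1 * ksq p)) ≤ Real.exp (-1) := Real.exp_le_exp.2 (by linarith)
        have h5 : Real.exp (-1) ≤ 1 / 2 := by
          rw [Real.exp_neg, inv_eq_one_div]
          refine one_div_le_one_div_of_le (by norm_num) ?_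
          have := Real.add_one_le_exp (1:ℝ)
          linarith
        linarith
      have h6 : 0 < ksq p ^ 2 := by positivity
      rw [← mul_div_assoc]
      gcongr
      linarith

end Pool.Agent.Lib.MP_4952d6_mp.M

end

/-! ### M.VB -/

section

/-!
# VB: the function `Cc(τ) = 4 √π / √τ - 16 π² l³ ∑' exp(-τ r²) / r²`, `r² = l² k²`

`Cc' (τ) = 16 π² l³ (p_s(0) - 1 - γ_s(0)) ≥ - 16 π² l³`, `s = τ l²`. Used in the integrated form: for `β ≤ τ`,
`Cc(β) ≤ Cc(τ) + 16 π² l³ (τ - β)`; with `τ = l^{-2}`: `Cc(β) ≤ 16 π² l + 4 √π l`.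
-/

set_option autoImplicit false
set_option linter.unusedSectionVars false
set_option linter.unusedVariables false
open MeasureTheory Function Filter Topology Set
open scoped ENNReal

namespace Pool.Agent.Lib.MP_4952d6_mp.M

lemma VB_rr_zero : rr (0 : T3) = 0 := by
  have h1 := rr_sq (0 : T3)
  have h2 : ∀ α, crd (0 : T3) α = 0 := fun α => by
    have h3 := abs_crd (0 : T3) α
    rw [Pi.zero_apply, norm_zero] at h3
    exact abs_eq_zero.1 h3
  simp only [h2] at h1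
  have h4 : rr (0 : T3) ^ 2 = 0 := by
    rw [h1]
    simp
  exact (pow_eq_zero_iff two_ne_zero).1 h4

/-- lattice sum of `exp(-τ r²) / r²` -/
noncomputable def VE (l τ : ℝ) : ℝ :=
  ∑' p : Fin 3 → ℤ, if p = 0 then 0 else Real.exp (-(τ * (l ^ 2 * ksq p))) / (l ^ 2 * ksq p)

noncomputable def Cc (l τ : ℝ) : ℝ :=
  4 * Real.sqrt Real.pi / Real.sqrt τ - 16 * Real.pi ^ 2 * l ^ 3 * VE l τ

lemma VB_VE_summable {l τ : ℝ} (hl : 0 < l) (hτ : 0 < τ) :
    Summable (fun p : Fin 3 → ℤ => if p = 0 then 0 else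
      Real.exp (-(τ * (l ^ 2 * ksq p))) / (l ^ 2 * ksq p)) := by
  obtain ⟨C, hC, h⟩ := VA_B2
  refine ((h (τ * l ^ 2) (by positivity)).1.mul_left (1 / l ^ 2)).congr fun p => ?_
  split_ifs with hp
  · simp
  · have := VA_ksq_pos hp
    rw [mul_assoc τ]
    field_simp

lemma VB_VE_nonneg {l τ : ℝ} (hl : 0 < l) : 0 ≤ VE l τ := by
  refine tsum_nonneg fun p => ?_
  split_ifs with hp
  · exact le_rfl
  · have := VA_ksq_pos hp
    positivity

/-- `(1/l²) C (τ l²)^{-1/2}` -/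
lemma VB_VE_le : ∃ C : ℝ, 0 ≤ C ∧ ∀ l τ : ℝ, 0 < l → 0 < τ →
    VE l τ ≤ C * (Real.sqrt τ)⁻¹ / l ^ 3 := by
  obtain ⟨C, hC, h⟩ := VA_B2
  refine ⟨C, hC, fun l τ hl hτ => ?_⟩
  obtain ⟨h1, h2⟩ := h (τ * l ^ 2) (by positivity)
  have e : VE l τ = 1 / l ^ 2 * ∑' p : Fin 3 → ℤ, (if p = 0 then 0 else
      Real.exp (-(τ * l ^ 2 * ksq p)) / ksq p) := by
    rw [← tsum_mul_left]
    refine tsum_congr fun p => ?_
    split_ifs with hp
    · simp
    · have := VA_ksq_pos hp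
      rw [mul_assoc τ]
      field_simp
  rw [e]
  have h3 : (Real.sqrt (τ * l ^ 2))⁻¹ = (Real.sqrt τ)⁻¹ / l := by
    rw [Real.sqrt_mul hτ.le, Real.sqrt_sq hl.le, mul_inv]
    ring
  rw [h3] at h2
  calc _ ≤ 1 / l ^ 2 * (C * ((Real.sqrt τ)⁻¹ / l)) := by gcongr
    _ = C * (Real.sqrt τ)⁻¹ / l ^ 3 := by
      field_simp

private lemma VB_prim (l β τ : ℝ) (hl : 0 < l) (p : Fin 3 → ℤ) :
    ∫ s in β..τ, (if p = 0 then 0 else Real.exp (-(s * l ^ 2 * ksq p)))
      = (if p = 0 then 0 else Real.exp (-(β * (l ^ 2 * ksq p))) / (l ^ 2 * ksq p))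
        - (if p = 0 then 0 else Real.exp (-(τ * (l ^ 2 * ksq p))) / (l ^ 2 * ksq p)) := by
  by_cases hp : p = 0
  · simp [hp]
  · simp only [hp, if_false]
    have hk := VA_ksq_pos hp
    have hc : 0 < l ^ 2 * ksq p := by positivity
    have hd : ∀ x ∈ uIcc β τ, HasDerivAt (fun s : ℝ =>
        -(Real.exp (-(s * (l ^ 2 * ksq p))) / (l ^ 2 * ksq p)))
        (Real.exp (-(x * l ^ 2 * ksq p))) x := by
      intro x _
      have h1 : HasDerivAt (fun y : ℝ => -(y * (l ^ 2 * ksq p))) (-(1 * (l ^ 2 * ksq p))) x :=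
        ((hasDerivAt_id x).mul_const _).neg
      refine ((h1.exp.div_const (l ^ 2 * ksq p)).neg).congr_deriv ?_
      rw [mul_assoc x]
      field_simp
    rw [intervalIntegral.integral_eq_sub_of_hasDerivAt hd
      ((by fun_prop : Continuous fun s : ℝ => Real.exp (-(s * l ^ 2 * ksq p))).intervalIntegrable _ _)]
    ring

private lemma VB_gam (l s : ℝ) (hl : 0 < l) (hs : 0 < s) :
    gam (s * l ^ 2) 0 = 1 / (16 * Real.pi ^ 2 * l ^ 3)
      * (4 * Real.sqrt Real.pi * (1 / 2 * (Real.sqrt s)⁻¹ ^ 3)) := by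
  have hpi := Real.pi_pos
  unfold gam
  have h1 : Real.sqrt (4 * Real.pi * (s * l ^ 2)) = 2 * Real.sqrt Real.pi * Real.sqrt s * l := by
    have e : 4 * Real.pi * (s * l ^ 2) = (2 * Real.sqrt Real.pi * Real.sqrt s * l) ^ 2 := by
      have h2 := Real.sq_sqrt hpi.le
      have h3 := Real.sq_sqrt hs.le
      calc 4 * Real.pi * (s * l ^ 2) = 4 * Real.sqrt Real.pi ^ 2 * (Real.sqrt s ^ 2 * l ^ 2) := by
            rw [h2, h3]
        _ = _ := by ring
    rw [e, Real.sqrt_sq (by positivity)]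
  rw [h1]
  have h4 : -((0:ℝ) ^ 2) / (4 * (s * l ^ 2)) = 0 := by simp
  rw [h4, Real.exp_zero, mul_one]
  have hsp : 0 < Real.sqrt Real.pi := Real.sqrt_pos.2 hpi
  have hss : 0 < Real.sqrt s := Real.sqrt_pos.2 hs
  have h5 : Real.pi ^ 2 = Real.sqrt Real.pi ^ 4 := by
    have h2 := Real.sq_sqrt hpi.le
    calc Real.pi ^ 2 = (Real.sqrt Real.pi ^ 2) ^ 2 := by rw [h2]
      _ = _ := by ring
  rw [h5]
  field_simp
  ring

theorem VB_mono {l β τ : ℝ} (hl : 0 < l) (hβ : 0 < β) (hβτ : β ≤ τ) :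
    Cc l β ≤ Cc l τ + 16 * Real.pi ^ 2 * l ^ 3 * (τ - β) := by
  have hpi := Real.pi_pos
  have hτ : 0 < τ := lt_of_lt_of_le hβ hβτ
  have hIcc : ∀ s ∈ uIcc β τ, 0 < s := by
    intro s hs
    rw [uIcc_of_le hβτ] at hs
    exact lt_of_lt_of_le hβ hs.1
  have hIoc : ∀ s ∈ uIoc β τ, 0 < s := by
    intro s hs
    rw [uIoc_of_le hβτ] at hs
    exact hβ.trans hs.1
  -- the difference of the two sums
  have hsumE : VE l β - VE l τ = ∫ s in β..τ, (hk (s * l ^ 2) 0 - 1) := by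
    have h1 : HasSum (fun p : Fin 3 → ℤ => ∫ s in β..τ,
        (if p = 0 then 0 else Real.exp (-(s * l ^ 2 * ksq p))))
        (∫ s in β..τ, (hk (s * l ^ 2) 0 - 1)) := by
      refine intervalIntegral.hasSum_integral_of_dominated_convergence
        (fun p _ => if p = 0 then 0 else Real.exp (-(β * l ^ 2 * ksq p))) ?_ ?_ ?_ ?_ ?_
      · intro p
        refine Continuous.aestronglyMeasurable ?_
        by_cases hp : p = 0
        · simp only [hp, if_true]
          exact continuous_const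
        · simp only [hp, if_false]
          fun_prop
      · intro p
        refine Eventually.of_forall fun s hs => ?_
        rw [uIoc_of_le hβτ] at hs
        split_ifs with hp
        · simp
        · rw [Real.norm_eq_abs, Real.abs_exp, Real.exp_le_exp]
          have hk := VA_ksq_pos hp
          have h2 : β * l ^ 2 * ksq p ≤ s * l ^ 2 * ksq p := by
            have := hs.1.le
            gcongr
          linarith
      · refine Eventually.of_forall fun s hs => ?_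
        exact (VA_hasSum (s := β * l ^ 2) (by positivity)).summable
      · exact intervalIntegrable_const
      · refine Eventually.of_forall fun s hs => ?_
        have := hIoc s hs
        exact VA_hasSum (s := s * l ^ 2) (by positivity)
    have h2 := (VB_VE_summable hl hβ).hasSum.sub (VB_VE_summable hl hτ).hasSum
    have h3 : HasSum (fun p : Fin 3 → ℤ => ∫ s in β..τ,
        (if p = 0 then 0 else Real.exp (-(s * l ^ 2 * ksq p)))) (VE l β - VE l τ) := by
      refine h2.congr_fun ?_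
      intro p
      rw [VB_prim l β τ hl p]
    exact h3.unique h1
  -- the Gaussian
  have hG : 4 * Real.sqrt Real.pi / Real.sqrt β - 4 * Real.sqrt Real.pi / Real.sqrt τ
      = 16 * Real.pi ^ 2 * l ^ 3 * ∫ s in β..τ, gam (s * l ^ 2) 0 := by
    have h1 : ∫ s in β..τ, gam (s * l ^ 2) 0 = ∫ s in β..τ, 1 / (16 * Real.pi ^ 2 * l ^ 3)
        * (4 * Real.sqrt Real.pi * (1 / 2 * (Real.sqrt s)⁻¹ ^ 3)) :=
      intervalIntegral.integral_congr fun s hs => VB_gam l s hl (hIcc s hs)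
    have hd : ∀ x ∈ uIcc β τ, HasDerivAt (fun s : ℝ => -(4 * Real.sqrt Real.pi * (Real.sqrt s)⁻¹))
        (4 * Real.sqrt Real.pi * (1 / 2 * (Real.sqrt x)⁻¹ ^ 3)) x := by
      intro x hx
      refine (((VA_sqrt_inv_deriv (hIcc x hx)).const_mul (4 * Real.sqrt Real.pi)).neg).congr_deriv ?_
      ring
    have hcont : ContinuousOn (fun x : ℝ => 4 * Real.sqrt Real.pi * (1 / 2 * (Real.sqrt x)⁻¹ ^ 3))
        (uIcc β τ) := by
      refine continuousOn_const.mul (continuousOn_const.mul (ContinuousOn.pow ?_ 3))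
      refine ContinuousOn.inv₀ Real.continuous_sqrt.continuousOn fun x hx => ?_
      exact (Real.sqrt_pos.2 (hIcc x hx)).ne'
    have h2 := intervalIntegral.integral_eq_sub_of_hasDerivAt hd hcont.intervalIntegrable
    rw [h1, intervalIntegral.integral_const_mul, h2]
    field_simp
    ring
  -- comparison of the integrals
  have hcomp : (∫ s in β..τ, gam (s * l ^ 2) 0) - (τ - β) ≤ ∫ s in β..τ, (hk (s * l ^ 2) 0 - 1) := by
    have hgc : ContinuousOn (fun s : ℝ => gam (s * l ^ 2) 0) (uIcc β τ) := by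
      have hc : ContinuousOn (fun s : ℝ => 1 / (16 * Real.pi ^ 2 * l ^ 3)
        * (4 * Real.sqrt Real.pi * (1 / 2 * (Real.sqrt s)⁻¹ ^ 3))) (uIcc β τ) := by
        refine continuousOn_const.mul (continuousOn_const.mul (continuousOn_const.mul
          (ContinuousOn.pow ?_ 3)))
        refine ContinuousOn.inv₀ Real.continuous_sqrt.continuousOn fun x hx => ?_
        exact (Real.sqrt_pos.2 (hIcc x hx)).ne'
      exact hc.congr fun s hs => VB_gam l s hl (hIcc s hs)
    have hhc : ContinuousOn (fun s : ℝ => hk (s * l ^ 2) 0) (uIcc β τ) := by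
      -- continuity through the uniformly convergent series
      have h1 : ContinuousOn (fun s : ℝ => ∑' p : Fin 3 → ℤ,
          (if p = 0 then 0 else Real.exp (-(s * l ^ 2 * ksq p)))) (uIcc β τ) := by
        refine continuousOn_tsum (u := fun p : Fin 3 → ℤ =>
          if p = 0 then 0 else Real.exp (-(β * l ^ 2 * ksq p))) ?_
          (VA_hasSum (s := β * l ^ 2) (by positivity)).summable ?_
        · intro p
          by_cases hp : p = 0
          · simp only [hp, if_true]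
            exact continuousOn_const
          · simp only [hp, if_false]
            fun_prop
        · intro p s hs
          rw [uIcc_of_le hβτ] at hs
          split_ifs with hp
          · simp
          · rw [Real.norm_eq_abs, Real.abs_exp, Real.exp_le_exp]
            have hk := VA_ksq_pos hp
            have h2 : β * l ^ 2 * ksq p ≤ s * l ^ 2 * ksq p := by
              have := hs.1
              gcongr
            linarith
      refine (h1.add (continuousOn_const (c := (1:ℝ)))).congr fun s hs => ?_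
      have h3 := (VA_hasSum (s := s * l ^ 2) (by have := hIcc s hs; positivity)).tsum_eq
      rw [Pi.add_apply, h3]
      ring
    have h1 : (∫ s in β..τ, gam (s * l ^ 2) 0) - (τ - β) = ∫ s in β..τ, (gam (s * l ^ 2) 0 - 1) := by
      rw [intervalIntegral.integral_sub hgc.intervalIntegrable intervalIntegrable_const,
        intervalIntegral.integral_const]
      simp
    rw [h1]
    refine intervalIntegral.integral_mono_on hβτ ?_ ?_ ?_
    · exact hgc.intervalIntegrable.sub intervalIntegrable_const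
    · exact hhc.intervalIntegrable.sub intervalIntegrable_const
    · intro s hs
      have hs0 : 0 < s := lt_of_lt_of_le hβ hs.1
      have h2 := gam_le_hk (s := s * l ^ 2) (by positivity) 0
      rw [VB_rr_zero] at h2
      linarith
  unfold Cc
  rw [← hsumE] at hcomp
  have h5 : 0 < 16 * Real.pi ^ 2 * l ^ 3 := by positivity
  have h6 := mul_le_mul_of_nonneg_left hcomp h5.le
  rw [mul_sub, mul_sub, ← hG] at h6
  linarith

/-- `Cc(β) ≤ (4 √π + 16 π²) l` for `β ≤ l^{-2}` -/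
theorem VB_le {l β : ℝ} (hl : 0 < l) (hβ : 0 < β) (hβl : β ≤ 1 / l ^ 2) :
    Cc l β ≤ (4 * Real.sqrt Real.pi + 16 * Real.pi ^ 2) * l := by
  have hpi := Real.pi_pos
  have h1 := VB_mono hl hβ hβl
  have h2 : Real.sqrt (1 / l ^ 2) = 1 / l := by
    rw [Real.sqrt_div zero_le_one, Real.sqrt_one, Real.sqrt_sq hl.le]
  have h3 : Cc l (1 / l ^ 2) ≤ 4 * Real.sqrt Real.pi * l := by
    unfold Cc
    rw [h2]
    have h4 := VB_VE_nonneg (l := l) (τ := 1 / l ^ 2) hl
    have h5 : 0 ≤ 16 * Real.pi ^ 2 * l ^ 3 * VE l (1 / l ^ 2) := by positivity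
    have h6 : 4 * Real.sqrt Real.pi / (1 / l) = 4 * Real.sqrt Real.pi * l := by field_simp
    linarith
  have h7 : 16 * Real.pi ^ 2 * l ^ 3 * (1 / l ^ 2 - β) ≤ 16 * Real.pi ^ 2 * l := by
    have h8 : 16 * Real.pi ^ 2 * l ^ 3 * (1 / l ^ 2 - β)
        = 16 * Real.pi ^ 2 * l - 16 * Real.pi ^ 2 * l ^ 3 * β := by
      field_simp
    rw [h8]
    have : 0 ≤ 16 * Real.pi ^ 2 * l ^ 3 * β := by positivity
    linarith
  nlinarith

end Pool.Agent.Lib.MP_4952d6_mp.M

end

/-! ### M.GC -/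

section

set_option autoImplicit false
set_option linter.unusedSectionVars false
set_option linter.unusedVariables false
open MeasureTheory Function Filter Topology Set ComplexConjugate

namespace Pool.Agent.Lib.MP_4952d6_mp.M

/-! ### GC: power mean, product integral, translation average -/

theorem GC_tan {a m : ℝ} (ha : 0 ≤ a) (hm : 0 ≤ m) (k : ℕ) :
    m ^ (k + 1) + ((k : ℝ) + 1) * m ^ k * (a - m) ≤ a ^ (k + 1) := by
  induction k with
  | zero => simp
  | succ k ih =>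
    have h1 := mul_le_mul_of_nonneg_left ih ha
    have h2 : 0 ≤ ((k : ℝ) + 1) * m ^ k * (a - m) ^ 2 := by positivity
    push_cast
    have e1 : a ^ (k + 1 + 1) = a * a ^ (k + 1) := by ring
    have e2 : a * (m ^ (k + 1) + ((k : ℝ) + 1) * m ^ k * (a - m)) =
        m ^ (k + 1 + 1) + ((k : ℝ) + 1 + 1) * m ^ (k + 1) * (a - m)
          + ((k : ℝ) + 1) * m ^ k * (a - m) ^ 2 := by ring
    linarith

theorem Eg_pow_le {F : T3 → ℝ} (hF : GasFn lam3 F) {n : ℕ} (hZ : 0 < Zg F n)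
    {Φ : (Fin n → T3) → ℝ} (hΦ : BM Φ) (h0 : ∀ x, 0 ≤ Φ x) {j : ℕ} (hj : 1 ≤ j) :
    Eg F n Φ ^ j ≤ Eg F n (fun x => Φ x ^ j) := by
  obtain ⟨k, rfl⟩ : ∃ k, j = k + 1 := ⟨j - 1, by omega⟩
  have hm : 0 ≤ Eg F n Φ := Eg_nonneg hF h0
  set m := Eg F n Φ with hmd
  have h1 : Eg F n (fun x => (m ^ (k + 1) - ((k : ℝ) + 1) * m ^ k * m)
      + ((k : ℝ) + 1) * m ^ k * Φ x) ≤ Eg F n (fun x => Φ x ^ (k + 1)) := by
    refine Eg_mono hF ((BM.const _).add (hΦ.const_mul _)) (hΦ.pow _) fun x => ?_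
    have h2 := GC_tan (h0 x) hm k
    linarith
  rw [Eg_add hF (BM.const _) (hΦ.const_mul _), Eg_const hZ.ne', Eg_const_mul, ← hmd] at h1
  linarith

theorem pow_integral {g : T3 → ℝ} (hg : BM g) (j : ℕ) :
    (∫ y, g y ∂lam3) ^ j = ∫ y : Fin j → T3, ∏ b, g (y b) ∂(piN (Fin j)) := by
  have h := integral_fintype_prod_eq_pow (ι := Fin j) (μ := lam3) g
  rw [Fintype.card_fin] at h
  exact h.symm

/-- Translation average: `⟨Φ(x)⟩ = ⟨∫ Φ(x, y) dy⟩` for `Φ(x, y)` depending on `x - y` only. -/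
theorem Eg_avg_y {F : T3 → ℝ} (hF : GasFn lam3 F) {n : ℕ} {Φ : (Fin n → T3) → T3 → ℝ}
    (hΦ : BM (fun p : (Fin n → T3) × T3 => Φ p.1 p.2))
    (hsh : ∀ x y s, Φ (fun i => x i + s) (y + s) = Φ x y) (y₀ : T3) :
    Eg F n (fun x => Φ x y₀) = Eg F n (fun x => ∫ y, Φ x y ∂lam3) := by
  have hb : BM (fun x : Fin n → T3 => Φ x y₀) :=
    hΦ.comp (φ := fun x : Fin n → T3 => (x, y₀)) (measurable_id.prodMk measurable_const)
  rw [Eg_avg hF hb]
  congr 1
  funext x
  have h1 : ∀ s : T3, Φ (fun i => x i + s) y₀ = Φ x (y₀ - s) := by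
    intro s
    have h2 := hsh x (y₀ - s) s
    rwa [sub_add_cancel] at h2
  simp_rw [h1]
  exact integral_sub_left_eq_self (fun y => Φ x y) lam3 y₀

end Pool.Agent.Lib.MP_4952d6_mp.M

end

/-! ### M.GC2 -/

section

set_option autoImplicit false
set_option linter.unusedSectionVars false
set_option linter.unusedVariables false
open MeasureTheory Function Filter Topology Set ComplexConjugate

namespace Pool.Agent.Lib.MP_4952d6_mp.M

theorem GC2_exp_bm {α : Type*} [MeasurableSpace α] {f : α → ℝ} (h : BM f) :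
    BM (fun x => Real.exp (f x)) := by
  obtain ⟨hm, C, hC⟩ := h
  refine ⟨Real.measurable_exp.comp hm, Real.exp C, fun x => ?_⟩
  rw [abs_of_pos (Real.exp_pos _)]
  exact Real.exp_le_exp.2 ((le_abs_self _).trans (hC x))

/-- `⟨φ(x, y₀)⟩ ^ j ≤ (1/Z) sup ..`: the combination used in `EM`. -/
theorem EM_pow {F : T3 → ℝ} (hF : GasFn lam3 F) {n : ℕ} (hZ : 0 < Zg F n)
    {φ : (Fin n → T3) → T3 → ℝ} (hφ : BM (fun p : (Fin n → T3) × T3 => φ p.1 p.2))
    (hsh : ∀ x y s, φ (fun i => x i + s) (y + s) = φ x y) {j : ℕ} (hj : 1 ≤ j) {B : ℝ}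
    {W : (Fin n → T3) → ℝ} (hW : BM W) (hW0 : ∀ x, 0 ≤ W x)
    (hB : ∀ (x : Fin n → T3) (y : Fin j → T3),
      Wg F x * ∏ b, Real.exp (φ x (y b)) ≤ B * W x) (y₀ : T3) :
    Eg F n (fun x => Real.exp (φ x y₀)) ^ j ≤ B * (∫ x, W x ∂(piN (Fin n))) / Zg F n := by
  have hE : BM (fun p : (Fin n → T3) × T3 => Real.exp (φ p.1 p.2)) := GC2_exp_bm hφ
  have hEx : ∀ x : Fin n → T3, BM (fun y => Real.exp (φ x y)) := fun x =>
    hE.comp (measurable_const.prodMk measurable_id)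
  have h1 := Eg_avg_y hF (Φ := fun x y => Real.exp (φ x y)) hE
    (fun x y s => by show Real.exp (φ (fun i => x i + s) (y + s)) = Real.exp (φ x y); rw [hsh]) y₀
  have hI : BM (fun x => ∫ y, Real.exp (φ x y) ∂lam3) :=
    BM.integral_right (f := fun (x : Fin n → T3) (y : T3) => Real.exp (φ x y)) hE lam3
  have hI0 : ∀ x, 0 ≤ ∫ y, Real.exp (φ x y) ∂lam3 := fun x =>
    integral_nonneg fun y => (Real.exp_pos _).le
  rw [h1]
  refine (Eg_pow_le hF hZ hI hI0 hj).trans ?_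
  unfold Eg
  refine div_le_div_of_nonneg_right ?_ hZ.le
  rw [← integral_const_mul]
  refine integral_mono (((hI.pow j).mul (Wg_bm hF n)).integrable _)
    ((hW.const_mul B).integrable _) fun x => ?_
  show (∫ y, Real.exp (φ x y) ∂lam3) ^ j * Wg F x ≤ B * W x
  rw [pow_integral (hEx x) j, mul_comm, ← integral_const_mul]
  calc ∫ y : Fin j → T3, Wg F x * ∏ b, Real.exp (φ x (y b)) ∂(piN (Fin j))
      ≤ ∫ y : Fin j → T3, B * W x ∂(piN (Fin j)) := by
        refine integral_mono ?_ (integrable_const _) fun y => hB x y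
        exact ((BM.const (Wg F x)).mul (BM.finset_prod Finset.univ fun b _ =>
          (hEx x).comp (measurable_pi_apply b))).integrable _
    _ = B * W x := by simp

end Pool.Agent.Lib.MP_4952d6_mp.M

end

/-! ### M.PU7A2 -/

section

/-!
# PU7A2: pointwise energy

Copy of `U/U7A2` for the regime `a ≤ q ^ 200 / 8` (`M.Reg`).
-/

set_option autoImplicit false
set_option linter.unusedSectionVars false
set_option linter.unusedVariables false
open MeasureTheory Function Filter Topology Set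
open scoped ENNReal

namespace Pool.Agent.Lib.MP_4952d6_mp.M


section
variable {W f Q : ℝ → ℝ} {R₀ R a θ q κ : ℝ}

theorem U7A2_core (h : Reg W R₀ R a f Q θ q) {r : ℝ} (hr : 0 < r) :
    2 * gs q a f Q r ^ 2 * r ^ 2 - (ks q a f Q W r + 3 * (fs q a f r * gs q a f Q r))
      + 2 * W r * fs q a f r ^ 2 = ws q a f Q W r := by
  rcases lt_or_ge r (bq q a) with hb | hb
  · have hf : fs q a f r = f r * efs q a r := h.fs_of_le hb.le
    have hg : gs q a f Q r = efs q a r * (Q r - auq q a * qbf (tq q a) r * f r) / r ^ 3 := by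
      unfold gs
      rw [if_pos hb]
    have hk : ks q a f Q W r = efs q a r ^ 2 *
        (-(2 * auq q a * qbf (tq q a) r / r) * (f r * Q r - auq q a * qbf (tq q a) r * f r ^ 2)
            / r ^ 3
          - 3 * (f r * Q r - auq q a * qbf (tq q a) r * f r ^ 2) / r ^ 3
          + (Q r ^ 2 / r ^ 2 + r ^ 2 * W r * f r ^ 2
            - 4 * Real.pi * auq q a * r ^ 2 * gam (tq q a) r * f r ^ 2
            - 2 * auq q a * qbf (tq q a) r * f r * Q r / r ^ 2) / r ^ 2) := by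
      unfold ks
      rw [if_pos hb]
    have hw : ws q a f Q W r = efs q a r ^ 2 * (Q r ^ 2 / r ^ 4 + W r * f r ^ 2)
        + 4 * Real.pi * auq q a * gam (tq q a) r * fs q a f r ^ 2 := by
      unfold ws
      rw [if_pos hb]
    rw [hw, hk, hg, hf]
    generalize efs q a r = e
    generalize gam (tq q a) r = g
    generalize qbf (tq q a) r = s
    generalize auq q a = A
    generalize Q r = Q'
    generalize f r = f'
    generalize W r = W'
    have hr' : r ≠ 0 := hr.ne'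
    field_simp
    ring
  · have hR : R ≤ r := by
      have h1 := h.R_le_b
      have h2 := h.sc.R_pos
      linarith
    have hg : gs q a f Q r = 0 := by
      unfold gs
      rw [if_neg (not_lt.mpr hb)]
    have hk : ks q a f Q W r = 0 := by
      unfold ks
      rw [if_neg (not_lt.mpr hb)]
    have hw : ws q a f Q W r = 0 := by
      unfold ws
      rw [if_neg (not_lt.mpr hb)]
    rw [hg, hk, hw, h.sc.W_zero r hR]
    ring

theorem Reg.wtot (hκ : 0 < κ) (h : Reg W R₀ R a f Q θ q) : ∀ᵐ x ∂lam3,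
    2 * (effT (dftot κ q a f Q) (hftot κ q a f Q W) x + W (rr x) * ftot κ q a f x ^ 2)
      = Real.exp (-(2 * mix0 (omu κ q a) (tq q a) x)) * ws q a f Q W (rr x)
        + ftot κ q a f x ^ 2 * ∑ α, mix2 (omu κ q a) (tq q a) α α x := by
  filter_upwards [ae_rr_pos] with x hx
  have core := U7A2_core h hx
  have hr2 := rr_sq x
  have hE : Real.exp (-(2 * mix0 (omu κ q a) (tq q a) x))
      = Real.exp (-mix0 (omu κ q a) (tq q a) x) ^ 2 := by
    rw [← Real.exp_nat_mul]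
    congr 1
    push_cast
    ring
  rw [← core]
  unfold effT dftot hftot ftot
  rw [hE]
  simp only [Fin.sum_univ_three] at hr2 ⊢
  generalize Real.exp (-mix0 (omu κ q a) (tq q a) x) = E at *
  generalize fs q a f (rr x) = F at *
  generalize gs q a f Q (rr x) = G at *
  generalize ks q a f Q W (rr x) = K at *
  generalize W (rr x) = W' at *
  generalize mix1 (omu κ q a) (tq q a) 0 x = m0 at *
  generalize mix1 (omu κ q a) (tq q a) 1 x = m1 at *
  generalize mix1 (omu κ q a) (tq q a) 2 x = m2 at *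
  generalize mix2 (omu κ q a) (tq q a) 0 0 x = n0 at *
  generalize mix2 (omu κ q a) (tq q a) 1 1 x = n1 at *
  generalize mix2 (omu κ q a) (tq q a) 2 2 x = n2 at *
  generalize crd x 0 = c0 at *
  generalize crd x 1 = c1 at *
  generalize crd x 2 = c2 at *
  generalize rr x = r at *
  have hd : (c0 / r) ^ 2 + (c1 / r) ^ 2 + (c2 / r) ^ 2 = 1 := by
    have hr' : r ≠ 0 := hx.ne'
    field_simp
    linarith
  linear_combination (-2 * E ^ 2 * G ^ 2) * hr2 - E ^ 2 * K * hd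

end

end Pool.Agent.Lib.MP_4952d6_mp.M

end

/-! ### M.PU7B -/

section

/-!
# PU7B: one sided local comparison of `u_l` with `a_u s_b`

`p_s(x) ≥ exp(-r²/4s) p_s(0)` (pair the images `n` and `-n`), `γ_s(r) = exp(-r²/4s) γ_s(0)`, so with `m = mh(s/l²)`
`[m p_s(x) - γ_s(r)] - [m p_s(0) - γ_s(0)] ≥ (1 - exp(-r²/4s)) [(1-m) γ_s(0) - m (p_s(0) - γ_s(0))] ≥ -(r²/4s) m C s`.
-/

set_option autoImplicit false
set_option linter.unusedSectionVars false
set_option linter.unusedVariables false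
open MeasureTheory Function Filter Topology Set
open scoped ENNReal

namespace Pool.Agent.Lib.MP_4952d6_mp.M

theorem gs1_pair {s : ℝ} (hs : 0 < s) (y n : ℝ) :
    2 * (Real.exp (-(y ^ 2) / (4 * s)) * gs1 s n) ≤ gs1 s (y + n) + gs1 s (y - n) := by
  unfold gs1
  have hc : 0 ≤ (Real.sqrt (4 * Real.pi * s))⁻¹ := by positivity
  have e1 : Real.exp (-((y + n) ^ 2) / (4 * s))
      = Real.exp (-(y ^ 2) / (4 * s)) * Real.exp (-(n ^ 2) / (4 * s))
        * Real.exp (-(y * n / (2 * s))) := by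
    rw [← Real.exp_add, ← Real.exp_add]
    congr 1
    field_simp
    ring
  have e2 : Real.exp (-((y - n) ^ 2) / (4 * s))
      = Real.exp (-(y ^ 2) / (4 * s)) * Real.exp (-(n ^ 2) / (4 * s))
        * Real.exp (y * n / (2 * s)) := by
    rw [← Real.exp_add, ← Real.exp_add]
    congr 1
    field_simp
    ring
  rw [e1, e2]
  have h1 := Real.add_one_le_exp (-(y * n / (2 * s)))
  have h2 := Real.add_one_le_exp (y * n / (2 * s))
  have h3 : 2 ≤ Real.exp (-(y * n / (2 * s))) + Real.exp (y * n / (2 * s)) := by linarith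
  have h4 : 0 ≤ (Real.sqrt (4 * Real.pi * s))⁻¹
      * (Real.exp (-(y ^ 2) / (4 * s)) * Real.exp (-(n ^ 2) / (4 * s))) := by positivity
  have h5 := mul_le_mul_of_nonneg_left h3 h4
  linarith

/-- `p_s(y) ≥ exp(-y²/4s) p_s(0)` in one dimension -/
theorem hk1_ge {s : ℝ} (hs : 0 < s) (y : ℝ) :
    Real.exp (-(y ^ 2) / (4 * s)) * hk1 0 s 0 ≤ hk1 0 s y := by
  have h1 : Summable (fun n : ℤ => gsj 0 s (y + n)) := gsj_summable hs 0 y
  have h0 : Summable (fun n : ℤ => gsj 0 s (0 + n)) := gsj_summable hs 0 0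
  have h2 : Summable (fun n : ℤ => gsj 0 s (y + ((-n : ℤ) : ℝ))) :=
    (Equiv.neg ℤ).summable_iff.2 h1
  have e2 : ∑' n : ℤ, gsj 0 s (y + ((-n : ℤ) : ℝ)) = hk1 0 s y :=
    (Equiv.neg ℤ).tsum_eq (fun n : ℤ => gsj 0 s (y + n))
  have key : ∀ n : ℤ, 2 * (Real.exp (-(y ^ 2) / (4 * s)) * gsj 0 s (0 + n))
      ≤ gsj 0 s (y + n) + gsj 0 s (y + ((-n : ℤ) : ℝ)) := by
    intro n
    have h := gs1_pair hs y n
    have e : (y + ((-n : ℤ) : ℝ)) = y - n := by push_cast; ring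
    rw [e, zero_add]
    exact h
  have h3 := Summable.tsum_le_tsum key ((h0.mul_left _).mul_left 2) (h1.add h2)
  rw [tsum_mul_left, tsum_mul_left, h1.tsum_add h2, e2] at h3
  have h4 : 2 * (Real.exp (-(y ^ 2) / (4 * s)) * hk1 0 s 0) ≤ hk1 0 s y + hk1 0 s y := h3
  linarith

theorem crd_zero' (α : Fin 3) : crd (0 : T3) α = 0 := by
  have h3 := abs_crd (0 : T3) α
  rw [Pi.zero_apply, norm_zero] at h3
  exact abs_eq_zero.1 h3

theorem hk1_nonneg' {s : ℝ} (hs : 0 < s) (y : ℝ) : 0 ≤ hk1 0 s y :=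
  (gs1_nonneg s y).trans (HKF2_gs1_le hs y)

/-- `p_s(x) ≥ exp(-r²/4s) p_s(0)` -/
theorem hk_ge {s : ℝ} (hs : 0 < s) (x : T3) :
    Real.exp (-(rr x ^ 2) / (4 * s)) * hk s 0 ≤ hk s x := by
  unfold hk hkD
  have e1 : Real.exp (-(rr x ^ 2) / (4 * s)) = ∏ α, Real.exp (-(crd x α ^ 2) / (4 * s)) := by
    rw [← Real.exp_sum, rr_sq]
    congr 1
    rw [← Finset.sum_div, Finset.sum_neg_distrib]
  rw [e1, ← Finset.prod_mul_distrib]
  refine Finset.prod_le_prod (fun α _ => ?_) (fun α _ => ?_)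
  · exact mul_nonneg (Real.exp_pos _).le (hk1_nonneg' hs _)
  · rw [crd_zero']
    exact hk1_ge hs _

theorem gam_eq {s r : ℝ} : gam s r = Real.exp (-(r ^ 2) / (4 * s)) * gam s 0 := by
  unfold gam
  simp
  ring

/-- `p_s(0) - γ_s(0) ≤ C s` -/
theorem hk_sub_le : ∃ C : ℝ, 0 ≤ C ∧ ∀ s : ℝ, 0 < s →
    0 ≤ hk s 0 - gam s 0 ∧ hk s 0 - gam s 0 ≤ C * s := by
  obtain ⟨C1, hC10, hC1⟩ := U7B_hg
  obtain ⟨C2, hC20, hC2⟩ := hk_sub_gam_le
  refine ⟨C1 + 32 * C2, by positivity, fun s hs => ?_⟩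
  have h0 := hC1 s hs 0 (by rw [U7B_rr_zero]; norm_num)
  rw [U7B_rr_zero] at h0
  refine ⟨h0.1, ?_⟩
  rcases le_total s 1 with h1 | h1
  · have h2 := hC2 s hs h1 0 (by rw [U7B_rr_zero]; norm_num)
    rw [U7B_rr_zero] at h2
    have h3 := PRA_exp (1 / (32 * s)) (by positivity) 1
    have h4 : ((1 : ℕ).factorial : ℝ) / (1 / (32 * s)) ^ 1 = 32 * s := by
      rw [Nat.factorial_one, pow_one, Nat.cast_one, one_div_one_div]
    rw [h4] at h3
    have h5 := mul_le_mul_of_nonneg_left h3 hC20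
    have h6 : 0 ≤ C1 * s := by positivity
    linarith
  · have h2 : C1 * 1 ≤ C1 * s := mul_le_mul_of_nonneg_left h1 hC10
    have h3 : 0 ≤ 32 * C2 * s := by positivity
    linarith [h0.2]

/-- pointwise lower bound of the difference of the integrands at `x` and `0` -/
theorem point_ge {s C m : ℝ} (hs : 0 < s) (hC0 : 0 ≤ C) {x : T3}
    (h0 : 0 ≤ hk s 0 - gam s 0 ∧ hk s 0 - gam s 0 ≤ C * s) (hm0 : 0 ≤ m) (hm2 : m ≤ 1) :
    -(rr x ^ 2 / 4 * C * m)
      ≤ (m * hk s x - gam s (rr x)) - (m * hk s 0 - gam s 0) := by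
  have h1 := hk_ge hs x
  have h2 : gam s (rr x) = _ := gam_eq
  have h3 : Real.exp (-(rr x ^ 2) / (4 * s)) ≤ 1 := by
    rw [Real.exp_le_one_iff, neg_div]
    have : 0 ≤ rr x ^ 2 / (4 * s) := by positivity
    linarith
  have h4 : 1 - Real.exp (-(rr x ^ 2) / (4 * s)) ≤ rr x ^ 2 / (4 * s) := by
    have := Real.add_one_le_exp (-(rr x ^ 2) / (4 * s))
    rw [neg_div] at this ⊢
    linarith
  have hg := gam_nonneg s 0
  rw [h2]
  generalize Real.exp (-(rr x ^ 2) / (4 * s)) = E at *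
  have h5 := mul_le_mul_of_nonneg_left h1 hm0
  have h6 : 0 ≤ (1 - E) * ((1 - m) * gam s 0) :=
    mul_nonneg (by linarith) (mul_nonneg (by linarith) hg)
  have h7 : (1 - E) * (m * (hk s 0 - gam s 0)) ≤ rr x ^ 2 / (4 * s) * (m * (C * s)) :=
    mul_le_mul h4 (mul_le_mul_of_nonneg_left h0.2 hm0) (mul_nonneg hm0 h0.1) (by positivity)
  have h8 : rr x ^ 2 / (4 * s) * (m * (C * s)) = rr x ^ 2 / 4 * C * m := by
    field_simp
  rw [h8] at h7
  nlinarith only [h5, h6, h7]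

theorem ul_local_m : ∃ C : ℝ, 0 ≤ C ∧ ∀ (κ : ℝ) (W f Q : ℝ → ℝ) (R₀ R a θ q : ℝ), 0 < κ → κ ≤ 1 →
    Reg W R₀ R a f Q θ q →
      |c0q κ q a| ≤ C / κ ^ 2 * q ^ 200 ∧
      ∀ x : T3, rr x ≤ bq q a →
        c0q κ q a - C / κ ^ 2 * q ^ 300
          ≤ mix0 (omu κ q a) (tq q a) x - auq q a * sbf (tq q a) (rr x) := by
  obtain ⟨C1, hC10, hC1⟩ := U7B_hg
  obtain ⟨C2, hC20, hC2⟩ := hk_sub_le
  have hpi := Real.pi_pos
  refine ⟨8 * Real.pi * (C1 + 2 * (1 + 16 * Real.pi) + 1) + 2 * Real.pi * C2, by positivity,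
    fun κ W f Q R₀ R a θ q hκ hκ1 h => ?_⟩
  have hq := h.q_pos
  have hq1 := h.q_le
  have ha := h.a_pos
  have hq0 : q ≤ 1 := hq1.trans (by norm_num)
  have hl : 0 < lq q a := h.l_pos
  have ht := tq_pos hq ha
  have hA : 0 < auq q a := OMB_auq hq hq1 ha
  have hA' : auq q a ≤ 2 * a := by
    unfold auq
    have := mul_le_mul_of_nonneg_left (alq_le_two hq hq1) ha.le
    linarith
  have hK0 : 0 ≤ K2 κ := OMA_K2 κ
  have hK : K2 κ ≤ 1 + 16 * Real.pi := by
    unfold K2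
    have : κ ^ 2 ≤ 1 := pow_le_one₀ hκ.le hκ1
    linarith
  have hκ2 : 1 ≤ 1 / κ ^ 2 := by
    rw [le_div_iff₀ (by positivity), one_mul]
    exact pow_le_one₀ hκ.le hκ1
  have hc : 0 < κ ^ 2 / lq q a ^ 2 := div_pos (pow_pos hκ 2) (pow_pos hl 2)
  have hm0 : ∀ s, 0 ≤ mh κ (s / lq q a ^ 2) := fun s => mh_nonneg _ _
  have hm1 : ∀ s, 0 < s → mh κ (s / lq q a ^ 2) ≤ Real.exp (-(κ ^ 2 / lq q a ^ 2) * s) := by
    intro s hs
    have h1 := OMA_mh (κ := κ) hq ha hs.le
    rw [neg_mul]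
    exact h1
  have hm2 : ∀ s, 0 < s → mh κ (s / lq q a ^ 2) ≤ 1 :=
    fun s hs => mh_le_one (div_nonneg hs.le (sq_nonneg _))
  have hm3 : ∀ s, 0 < s → 1 - mh κ (s / lq q a ^ 2) ≤ K2 κ * (s / lq q a ^ 2) := by
    intro s hs
    have h2 := mh_ge_one_sub (κ := κ) (div_nonneg hs.le (sq_nonneg (lq q a)))
    linarith only [h2]
  have hmm : Measurable (fun s => mh κ (s / lq q a ^ 2)) :=
    (mh_continuous κ).measurable.comp (measurable_id.div_const _)
  have hal : a * lq q a ^ 2 ≤ q ^ 200 := h.al2_le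
  have hexp := U7B_exp hc ht
  have hrep0 := U7B_rep hκ hq hq1 ha (0 : T3)
  rw [U7B_rr_zero] at hrep0
  have h4A : 0 ≤ 4 * Real.pi * auq q a := mul_nonneg (by linarith only [hpi]) hA.le
  have hq200 : 0 < q ^ 200 := pow_pos hq _
  have hq300 : 0 < q ^ 300 := pow_pos hq _
  have e1c : 1 / (κ ^ 2 / lq q a ^ 2) = lq q a ^ 2 * (1 / κ ^ 2) := by
    rw [one_div_div]
    ring
  constructor
  · -- the constant
    have htl : tq q a ≤ lq q a ^ 2 := by
      rw [← OMB_tq hq ha]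
      have : q ^ 242 ≤ 1 := pow_le_one₀ hq.le hq0
      have h2 : 0 < lq q a ^ 2 := by positivity
      nlinarith
    have hI := U7B_int_one_sub (κ := κ) hl ht htl hmm (fun s _ => hm0 s)
      (fun s hs => hm2 s (ht.trans hs)) (fun s hs => hm3 s (ht.trans hs))
    have h1 : |∫ s in Ioi (tq q a), (mh κ (s / lq q a ^ 2) * hk s 0 - gam s 0)|
        ≤ C1 * (lq q a ^ 2 * (1 / κ ^ 2)) + (2 * K2 κ + 1) / lq q a := by
      have h2 : ‖∫ s in Ioi (tq q a), (mh κ (s / lq q a ^ 2) * hk s 0 - gam s 0)‖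
          ≤ ∫ s in Ioi (tq q a), (C1 * Real.exp (-(κ ^ 2 / lq q a ^ 2) * s)
            + (1 - mh κ (s / lq q a ^ 2)) * gam s 0) := by
        refine norm_integral_le_of_norm_le ((hexp.1.const_mul C1).add hI.1) ?_
        refine (ae_restrict_iff' measurableSet_Ioi).2 (Eventually.of_forall fun s hs => ?_)
        have hs0 : 0 < s := ht.trans hs
        have h3 := hC1 s hs0 0 (by rw [U7B_rr_zero]; norm_num)
        rw [U7B_rr_zero] at h3
        rw [Real.norm_eq_abs]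
        exact U7B_point0 hs0 hC10 h3 (hm0 s) (hm1 s hs0) (hm2 s hs0)
      rw [Real.norm_eq_abs, integral_add (hexp.1.const_mul C1) hI.1, integral_const_mul] at h2
      refine h2.trans (add_le_add ?_ hI.2)
      rw [← e1c]
      exact mul_le_mul_of_nonneg_left hexp.2 hC10
    unfold c0q
    rw [hrep0.2, abs_mul, abs_of_nonneg h4A]
    generalize |∫ s in Ioi (tq q a), (mh κ (s / lq q a ^ 2) * hk s 0 - gam s 0)| = X at *
    have hX0 : 0 ≤ C1 * (lq q a ^ 2 * (1 / κ ^ 2)) + (2 * K2 κ + 1) / lq q a := by positivity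
    have h2a : a / lq q a = q ^ 200 := by
      unfold lq
      field_simp
    calc 4 * Real.pi * auq q a * X
        ≤ 4 * Real.pi * auq q a * (C1 * (lq q a ^ 2 * (1 / κ ^ 2)) + (2 * K2 κ + 1) / lq q a) :=
          mul_le_mul_of_nonneg_left h1 h4A
      _ ≤ 4 * Real.pi * (2 * a)
            * (C1 * (lq q a ^ 2 * (1 / κ ^ 2)) + (2 * K2 κ + 1) / lq q a) :=
          mul_le_mul_of_nonneg_right (mul_le_mul_of_nonneg_left hA' (by positivity)) hX0
      _ = 8 * Real.pi * (C1 * (1 / κ ^ 2 * (a * lq q a ^ 2))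
            + (2 * K2 κ + 1) * (a / lq q a)) := by ring
      _ ≤ 8 * Real.pi * (C1 * (1 / κ ^ 2 * q ^ 200)
            + (2 * (1 + 16 * Real.pi) + 1) * (1 / κ ^ 2 * q ^ 200)) := by
          rw [h2a]
          have i1 : 1 / κ ^ 2 * (a * lq q a ^ 2) ≤ 1 / κ ^ 2 * q ^ 200 :=
            mul_le_mul_of_nonneg_left hal (by positivity)
          have i2 : q ^ 200 ≤ 1 / κ ^ 2 * q ^ 200 := le_mul_of_one_le_left hq200.le hκ2
          have i3 : (2 * K2 κ + 1) * q ^ 200
              ≤ (2 * (1 + 16 * Real.pi) + 1) * (1 / κ ^ 2 * q ^ 200) :=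
            mul_le_mul (by linarith) i2 hq200.le (by positivity)
          have i4 := mul_le_mul_of_nonneg_left i1 hC10
          exact mul_le_mul_of_nonneg_left (add_le_add i4 i3) (by positivity)
      _ = 8 * Real.pi * (C1 + 2 * (1 + 16 * Real.pi) + 1) / κ ^ 2 * q ^ 200 := by ring
      _ ≤ (8 * Real.pi * (C1 + 2 * (1 + 16 * Real.pi) + 1) + 2 * Real.pi * C2) / κ ^ 2
            * q ^ 200 := by
          refine mul_le_mul_of_nonneg_right (div_le_div_of_nonneg_right ?_ (by positivity))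
            hq200.le
          have : 0 ≤ 2 * Real.pi * C2 := by positivity
          linarith
  · intro x hx
    have hrepx := U7B_rep hκ hq hq1 ha x
    have hr := rr_nonneg x
    have hmint : IntegrableOn (fun s => mh κ (s / lq q a ^ 2)) (Ioi (tq q a)) := by
      refine Integrable.mono' hexp.1 hmm.aestronglyMeasurable ?_
      refine (ae_restrict_iff' measurableSet_Ioi).2 (Eventually.of_forall fun s hs => ?_)
      rw [Real.norm_eq_abs, abs_of_nonneg (hm0 s)]
      exact hm1 s (ht.trans hs)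
    have hmi : ∫ s in Ioi (tq q a), mh κ (s / lq q a ^ 2) ≤ lq q a ^ 2 * (1 / κ ^ 2) := by
      rw [← e1c]
      refine le_trans ?_ hexp.2
      exact setIntegral_mono_on hmint hexp.1 measurableSet_Ioi fun s hs => hm1 s (ht.trans hs)
    have h1 : -(rr x ^ 2 / 4 * C2 * (lq q a ^ 2 * (1 / κ ^ 2)))
        ≤ (∫ s in Ioi (tq q a), (mh κ (s / lq q a ^ 2) * hk s x - gam s (rr x)))
        - ∫ s in Ioi (tq q a), (mh κ (s / lq q a ^ 2) * hk s 0 - gam s 0) := by
      rw [← integral_sub hrepx.1 hrep0.1]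
      have h2 : ∫ s in Ioi (tq q a), -(rr x ^ 2 / 4 * C2 * mh κ (s / lq q a ^ 2))
          ≤ ∫ s in Ioi (tq q a), ((mh κ (s / lq q a ^ 2) * hk s x - gam s (rr x))
          - (mh κ (s / lq q a ^ 2) * hk s 0 - gam s 0)) := by
        refine setIntegral_mono_on (hmint.const_mul _).neg (hrepx.1.sub hrep0.1)
          measurableSet_Ioi fun s hs => ?_
        have hs0 : 0 < s := ht.trans hs
        exact point_ge hs0 hC20 (hC2 s hs0) (hm0 s) (hm2 s hs0)
      refine le_trans ?_ h2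
      rw [integral_neg, integral_const_mul]
      have h3 := mul_le_mul_of_nonneg_left hmi (show 0 ≤ rr x ^ 2 / 4 * C2 by positivity)
      linarith
    have e2 : mix0 (omu κ q a) (tq q a) x - auq q a * sbf (tq q a) (rr x) - c0q κ q a
        = 4 * Real.pi * auq q a
          * ((∫ s in Ioi (tq q a), (mh κ (s / lq q a ^ 2) * hk s x - gam s (rr x)))
        - ∫ s in Ioi (tq q a), (mh κ (s / lq q a ^ 2) * hk s 0 - gam s 0)) := by
      unfold c0q
      rw [hrepx.2, hrep0.2]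
      ring
    have h3 := mul_le_mul_of_nonneg_left h1 h4A
    rw [← e2] at h3
    have hb : rr x ^ 2 ≤ bq q a ^ 2 := pow_le_pow_left₀ hr hx 2
    have h5 : a * (bq q a ^ 2 * lq q a ^ 2) ≤ q ^ 300 := by
      have i1 : a * (bq q a ^ 2 * lq q a ^ 2) = a ^ 3 / q ^ 160 * lq q a ^ 2 := by
        unfold bq
        field_simp
      have i2 : lq q a ^ 2 ≤ 1 := pow_le_one₀ hl.le h.lq_le_one
      have i3 : a ^ 3 / q ^ 160 ≤ q ^ 300 := by
        rw [div_le_iff₀ (by positivity), ← pow_add]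
        exact h.a3_le.trans (pow_le_pow_of_le_one hq.le hq0 (by norm_num))
      rw [i1]
      calc a ^ 3 / q ^ 160 * lq q a ^ 2 ≤ a ^ 3 / q ^ 160 * 1 :=
            mul_le_mul_of_nonneg_left i2 (by positivity)
        _ ≤ q ^ 300 := by rw [mul_one]; exact i3
    have h6 : 4 * Real.pi * auq q a * (rr x ^ 2 / 4 * C2 * (lq q a ^ 2 * (1 / κ ^ 2)))
        ≤ 2 * Real.pi * C2 * (1 / κ ^ 2) * q ^ 300 := by
      calc 4 * Real.pi * auq q a * (rr x ^ 2 / 4 * C2 * (lq q a ^ 2 * (1 / κ ^ 2)))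
          ≤ 4 * Real.pi * (2 * a) * (bq q a ^ 2 / 4 * C2 * (lq q a ^ 2 * (1 / κ ^ 2))) := by
            gcongr
        _ = 2 * Real.pi * C2 * (1 / κ ^ 2) * (a * (bq q a ^ 2 * lq q a ^ 2)) := by ring
        _ ≤ _ := mul_le_mul_of_nonneg_left h5 (by positivity)
    have h7 : 2 * Real.pi * C2 * (1 / κ ^ 2) * q ^ 300
        ≤ (8 * Real.pi * (C1 + 2 * (1 + 16 * Real.pi) + 1) + 2 * Real.pi * C2) / κ ^ 2
            * q ^ 300 := by
      have e : 2 * Real.pi * C2 * (1 / κ ^ 2) = 2 * Real.pi * C2 / κ ^ 2 := by ring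
      rw [e]
      refine mul_le_mul_of_nonneg_right (div_le_div_of_nonneg_right ?_ (by positivity)) hq300.le
      have : 0 ≤ 8 * Real.pi * (C1 + 2 * (1 + 16 * Real.pi) + 1) := by positivity
      linarith
    linarith

end Pool.Agent.Lib.MP_4952d6_mp.M

end

/-! ### M.PU7C -/

section

/-!
# PU7C: the radial integral

Copy of `U/U7C` for the regime `a ≤ q ^ 200 / 8` (`M.Reg`).
-/

set_option autoImplicit false
set_option linter.unusedSectionVars false
set_option linter.unusedVariables false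
open MeasureTheory Function Filter Topology Set
open scoped ENNReal

namespace Pool.Agent.Lib.MP_4952d6_mp.M


section
variable {W f Q : ℝ → ℝ} {R₀ R a θ q : ℝ}

theorem Reg.wrad_bm (h : Reg W R₀ R a f Q θ q) : BM (fun x : T3 => wrad q a f Q W (rr x)) := by
  obtain ⟨M, hM0, hM⟩ := h.sc.exists_M
  obtain ⟨C, hC0, hC⟩ := h.sc.exists_C
  have hm : Measurable (wrad q a f Q W) := by
    unfold wrad
    refine Measurable.ite measurableSet_Iio ?_ measurable_const
    exact ((h.sc.Q_meas.pow_const 2).div (measurable_id.pow_const 4)).add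
      (h.sc.W_meas.mul (h.sc.f_cont.measurable.pow_const 2))
  have hb0 : 0 < bq q a := bq_pos h.q_pos h.a_pos
  refine ⟨hm.comp rr_measurable, C ^ 2 * bq q a ^ 2 + M, fun x => ?_⟩
  have e0 : 0 ≤ C ^ 2 * bq q a ^ 2 + M := by positivity
  change |wrad q a f Q W (rr x)| ≤ C ^ 2 * bq q a ^ 2 + M
  have hr0 := rr_nonneg x
  generalize rr x = r at hr0 ⊢
  unfold wrad
  split_ifs with hr
  · have hW := h.sc.W_nonneg r
    have e1 : 0 ≤ Q r ^ 2 / r ^ 4 + W r * f r ^ 2 := by positivity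
    rw [abs_of_nonneg e1]
    refine add_le_add ?_ ?_
    · rcases hr0.eq_or_lt with h0 | h0
      · rw [← h0]
        norm_num
        positivity
      · rw [div_le_iff₀ (by positivity)]
        have hQ0 := h.sc.Q_nonneg r
        have h2 : Q r ^ 2 ≤ (C * r ^ 3) ^ 2 := pow_le_pow_left₀ hQ0 (hC r h0) 2
        have h3 : r ^ 2 ≤ bq q a ^ 2 := pow_le_pow_left₀ h0.le hr.le 2
        calc Q r ^ 2 ≤ (C * r ^ 3) ^ 2 := h2
          _ = C ^ 2 * r ^ 2 * r ^ 4 := by ring
          _ ≤ C ^ 2 * bq q a ^ 2 * r ^ 4 := by gcongr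
    · have h2 : f r ^ 2 ≤ 1 := pow_le_one₀ (h.sc.f_nonneg r) (h.sc.f_le_one r)
      calc W r * f r ^ 2 ≤ W r * 1 := by gcongr
        _ ≤ M := by rw [mul_one]; exact hM r
  · rw [abs_zero]
    exact e0

theorem Reg.wrad_nonneg (h : Reg W R₀ R a f Q θ q) (r : ℝ) : 0 ≤ wrad q a f Q W r := by
  unfold wrad
  split_ifs
  · have hW := h.sc.W_nonneg r
    positivity
  · exact le_rfl

theorem Reg.int_wrad (h : Reg W R₀ R a f Q θ q) :
    ∫ x, wrad q a f Q W (rr x) ∂lam3 = 4 * Real.pi * a * (1 - q ^ 80) := by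
  have hb := h.b_lt
  have hRb : R ≤ bq q a := by
    have h1 := h.R_le_b
    have h2 := h.sc.R_pos
    linarith
  have hR0b : R₀ ≤ bq q a := h.sc.R₀_le.trans hRb
  have hR0 : 0 ≤ R₀ := h.sc.R₀_nonneg
  have hge : ∀ r, bq q a ≤ r → wrad q a f Q W r = 0 := by
    intro r hr
    unfold wrad
    rw [if_neg (not_lt.mpr hr)]
  have hlt : ∀ r, 0 < r → r < R₀ → wrad q a f Q W r = 0 := by
    intro r hr0 hr
    unfold wrad
    split_ifs
    · rw [h.sc.Q_zero r hr, h.sc.f_core r (hr0.trans hr) hr.le]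
      simp
    · rfl
  rw [integral_rad (fun r hr => hge r (by linarith)), sig_eq_four_pi]
  have h1 : ∫ r in Ioi (0:ℝ), r ^ 2 * wrad q a f Q W r
      = ∫ r in Ioc R₀ (bq q a), r ^ 2 * wrad q a f Q W r := by
    have hsub : Ioc R₀ (bq q a) ⊆ Ioi (0:ℝ) := fun r hr => hR0.trans_lt hr.1
    have hne : ∀ᵐ r : ℝ, r ≠ R₀ := by rw [ae_iff]; simp
    rw [← setIntegral_eq_of_subset_of_ae_sdiff_eq_zero (s := Ioc R₀ (bq q a)) (t := Ioi (0:ℝ))
      measurableSet_Ioi.nullMeasurableSet hsub]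
    filter_upwards [hne] with r hr hmem
    obtain ⟨h1, h2⟩ := hmem
    rcases lt_or_ge R₀ r with h3 | h3
    · have : bq q a < r := by
        by_contra hcon
        exact h2 ⟨h3, not_lt.1 hcon⟩
      rw [hge r this.le, mul_zero]
    · rw [hlt r h1 (lt_of_le_of_ne h3 hr), mul_zero]
  have h2 : ∫ r in Ioc R₀ (bq q a), r ^ 2 * wrad q a f Q W r
      = ∫ r in R₀..(bq q a), (Q r ^ 2 / r ^ 2 + r ^ 2 * W r * f r ^ 2) := by
    rw [intervalIntegral.integral_of_le hR0b]
    refine setIntegral_congr_ae measurableSet_Ioc ?_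
    have hne : ∀ᵐ r : ℝ, r ≠ bq q a := by rw [ae_iff]; simp
    filter_upwards [hne] with r hr hmem
    have hr0 : 0 < r := hR0.trans_lt hmem.1
    have hrb : r < bq q a := lt_of_le_of_ne hmem.2 hr
    unfold wrad
    rw [if_pos hrb]
    field_simp
  rw [h1, h2, h.sc.energy hRb]
  have h3 : a / bq q a = q ^ 80 := by
    unfold bq
    have hq := h.q_pos.ne'
    have ha := h.a_pos.ne'
    field_simp
  rw [h3]
  ring

end

theorem main_radial : ∃ C : ℝ, 0 ≤ C ∧ ∀ (W f Q : ℝ → ℝ) (R₀ R a θ q : ℝ),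
    Reg W R₀ R a f Q θ q →
    Real.exp (-(2 * (auq q a * sbf (tq q a) (bq q a)))) / (1 - q ^ 80) ^ 2
      * ∫ x, wrad q a f Q W (rr x) ∂lam3
      ≤ 4 * Real.pi * a * (1 - q ^ 80 - q ^ 160 + C * q ^ 240) := by
  obtain ⟨C, hC0, hC⟩ := ct_le
  refine ⟨C, hC0, fun W f Q R₀ R a θ q h => ?_⟩
  have h1 := hC q a h.q_pos h.q_le h.a_pos
  have hq : q ^ 80 < 1 := pow_lt_one₀ h.q_pos.le (lt_of_le_of_lt h.q_le (by norm_num)) (by norm_num)
  have hne : 1 - q ^ 80 ≠ 0 := by
    have : 0 < 1 - q ^ 80 := by linarith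
    exact this.ne'
  rw [h.int_wrad]
  have e1 : Real.exp (-(2 * (auq q a * sbf (tq q a) (bq q a)))) / (1 - q ^ 80) ^ 2
      * (4 * Real.pi * a * (1 - q ^ 80))
      = 4 * Real.pi * a * (Real.exp (-(2 * (auq q a * sbf (tq q a) (bq q a)))) / (1 - q ^ 80)) := by
    generalize Real.exp (-(2 * (auq q a * sbf (tq q a) (bq q a)))) = E
    generalize q ^ 80 = y at hne ⊢
    field_simp
  rw [e1]
  have ha := h.a_pos
  exact mul_le_mul_of_nonneg_left h1 (by positivity)

end Pool.Agent.Lib.MP_4952d6_mp.M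

end

/-! ### M.PU7D -/

section

/-!
# PU7D: pointwise bound of the total pair energy, mesoscopic regime (copy of `U7D`, from the one sided local comparison)
-/

set_option autoImplicit false
set_option linter.unusedSectionVars false
set_option linter.unusedVariables false
open MeasureTheory Function Filter Topology Set
open scoped ENNReal

namespace Pool.Agent.Lib.MP_4952d6_mp.M

theorem wtot_le_m : ∃ C : ℝ, 0 ≤ C ∧
    ∀ (κ : ℝ) (W f Q : ℝ → ℝ) (R₀ R a θ q : ℝ), 0 < κ → κ ≤ 1 → Reg W R₀ R a f Q θ q →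
    |c0q κ q a| ≤ C / κ ^ 2 * q ^ 200 ∧ ∀ᵐ x ∂lam3,
    2 * (effT (dftot κ q a f Q) (hftot κ q a f Q W) x + W (rr x) * ftot κ q a f x ^ 2)
      ≤ Real.exp (-(2 * c0q κ q a) + C / κ ^ 2 * q ^ 300)
          * (Real.exp (-(2 * (auq q a * sbf (tq q a) (bq q a)))) / (1 - q ^ 80) ^ 2)
          * wrad q a f Q W (rr x)
        + 4 * Real.pi * auq q a * (1 - mh κ (q ^ 242)) * (hk (tq q a) x * ftot κ q a f x ^ 2)
        + wl κ q a x * ftot κ q a f x ^ 2 := by
  obtain ⟨C, hC0, hC⟩ := ul_local_m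
  refine ⟨2 * C, by linarith, fun κ W f Q R₀ R a θ q hκ hκ1 h => ?_⟩
  have hq := h.q_pos
  have hq1 := h.q_le
  have ha := h.a_pos
  have hloc := (hC κ W f Q R₀ R a θ q hκ hκ1 h).2
  refine ⟨(hC κ W f Q R₀ R a θ q hκ hκ1 h).1.trans ?_, ?_⟩
  · refine mul_le_mul_of_nonneg_right (div_le_div_of_nonneg_right ?_ (by positivity))
      (by positivity)
    linarith
  filter_upwards [h.wtot (κ := κ) hκ] with x hx
  rw [hx, ul_laplace hκ hq hq1 ha x]
  have ht := tq_pos hq ha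
  have hA : 0 < auq q a := by
    unfold auq
    have := one_le_alq hq hq1
    positivity
  have hhk := hk_nonneg (tq q a) x
  have hgam := gam_le_hk ht x
  have hpi := Real.pi_pos
  have hF : 0 ≤ ftot κ q a f x ^ 2 := sq_nonneg _
  have hE : 0 ≤ Real.exp (-(2 * c0q κ q a) + 2 * C / κ ^ 2 * q ^ 300) := Real.exp_nonneg _
  rcases lt_or_ge (rr x) (bq q a) with hb | hb
  · have hw : ws q a f Q W (rr x) = efs q a (rr x) ^ 2 * wrad q a f Q W (rr x)
        + 4 * Real.pi * auq q a * gam (tq q a) (rr x) * fs q a f (rr x) ^ 2 := by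
      unfold ws wrad
      rw [if_pos hb, if_pos hb]
    have hwr := h.wrad_nonneg (rr x)
    have h1 : Real.exp (-(2 * mix0 (omu κ q a) (tq q a) x)) * efs q a (rr x) ^ 2
        ≤ Real.exp (-(2 * c0q κ q a) + 2 * C / κ ^ 2 * q ^ 300)
          * (Real.exp (-(2 * (auq q a * sbf (tq q a) (bq q a)))) / (1 - q ^ 80) ^ 2) := by
      rw [← efs_sb (a := a) (r := rr x) hq hq1, ← mul_assoc]
      refine mul_le_mul_of_nonneg_right ?_ (sq_nonneg _)
      rw [← Real.exp_add, Real.exp_le_exp]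
      have h2 := hloc x hb.le
      have e : 2 * C / κ ^ 2 * q ^ 300 = 2 * (C / κ ^ 2 * q ^ 300) := by ring
      linarith
    have h3 : Real.exp (-(2 * mix0 (omu κ q a) (tq q a) x)) * ws q a f Q W (rr x)
        = Real.exp (-(2 * mix0 (omu κ q a) (tq q a) x)) * efs q a (rr x) ^ 2
            * wrad q a f Q W (rr x)
          + 4 * Real.pi * auq q a * gam (tq q a) (rr x) * ftot κ q a f x ^ 2 := by
      rw [hw, ftot_sq]
      ring
    have h4 := mul_le_mul_of_nonneg_right h1 hwr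
    have h5 : 4 * Real.pi * auq q a * gam (tq q a) (rr x) * ftot κ q a f x ^ 2
        ≤ 4 * Real.pi * auq q a * hk (tq q a) x * ftot κ q a f x ^ 2 := by
      gcongr
    rw [h3]
    linarith
  · have hw : ws q a f Q W (rr x) = 0 := by
      unfold ws
      rw [if_neg (not_lt.2 hb)]
    have hr : wrad q a f Q W (rr x) = 0 := by
      unfold wrad
      rw [if_neg (not_lt.2 hb)]
    rw [hw, hr, mul_zero, mul_zero]
    have h5 : 0 ≤ 4 * Real.pi * auq q a * hk (tq q a) x * ftot κ q a f x ^ 2 := by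
      positivity
    linarith

end Pool.Agent.Lib.MP_4952d6_mp.M

end

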