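import Pool.Agent.Lib.MP_4952d6_mp.Pm.M04
import Pool.Agent.Lib.MP_4952d6_mp.Pm.M05
import Pool.Agent.Lib.MP_4952d6_mp.Pm.M09

/-! Merged modules (to save import time): M.GD, M.GE, M.GG, M.GH, M.GI, M.GJ, M.GK. -/

/-! ### M.GD -/

section

set_option autoImplicit false
set_option linter.unusedSectionVars false
set_option linter.unusedVariables false
open MeasureTheory Function Filter Topology Set ComplexConjugate

namespace Pool.Agent.Lib.MP_4952d6_mp.M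

/-! ### GD: the exponential moment -/

theorem GD_exp_half : Real.exp (1 / 2) ≤ 2 := by
  by_contra hc
  have h1 : 2 < Real.exp (1 / 2) := not_le.1 hc
  have h2 : Real.exp (1 / 2) * Real.exp (1 / 2) = Real.exp 1 := by
    rw [← Real.exp_add]
    norm_num
  have h3 := Real.exp_one_lt_d9
  nlinarith

theorem GD_bound {C q a : ℝ} {N : ℕ} {D : Dat} (h : D.GDm C q a N) (hs : Sm C q)
    {us uo : T3 → ℝ} {sh oh : (Fin 3 → ℤ) → ℝ} (S : Spl C q N D us uo sh oh) {n : ℕ} (hn : n ≤ N)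
    {j : ℝ} (hj : (N : ℝ) * q ^ 60 ≤ j) (hj2 : j ≤ 2 * (N * q ^ 60)) :
    n * D.ul 0 + (1 / q) ^ 2 * j ^ 2 * uo 0
      + 4 * n * (n * ∫ z, (1 - D.Fc z) ∂lam3) * (n * D.uh 0) ≤ j / 2 := by
  have hD := h.ok
  have hq0 := h.q0
  have hq1 : q ≤ 1 := GDm_q_le_one h
  have hC1 := h.C1
  have hC0 : 0 < C := by linarith
  have hN0 : (0 : ℝ) ≤ N := Nat.cast_nonneg N
  have hn0 : (0 : ℝ) ≤ n := Nat.cast_nonneg n
  have hnN : (n : ℝ) ≤ N := Nat.cast_le.2 hn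
  have hI0 := GDm_Ic_nonneg h
  have hu0 := hD.uh_nonneg 0
  have hj0 : 0 ≤ j := le_trans (by positivity) hj
  have hs1 := GDm_small' h hs (k := 1) (by norm_num) 17
  have hs2 := GDm_small' h hs (k := 2) (by norm_num) 57
  have hs3 := GDm_small' h hs (k := 2) (by norm_num) 179
  have hp1 : q ^ 17 ≤ 1 := pow_le_one₀ hq0.le hq1
  have hp2 : q ^ 57 ≤ 1 := pow_le_one₀ hq0.le hq1
  have hp3 : q ^ 179 ≤ 1 := pow_le_one₀ hq0.le hq1
  have e1 : C ^ 1 * q ^ (17 + 1) ≤ 1 / 10 ^ 9 := hs1.trans (by linarith)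
  have e2 : C ^ 2 * q ^ (57 + 1) ≤ 1 / 10 ^ 9 := hs2.trans (by linarith)
  have e3 : C ^ 2 * q ^ (179 + 1) ≤ 1 / 10 ^ 9 := hs3.trans (by linarith)
  have t1 : n * D.ul 0 ≤ 1 / 10 ^ 9 * j := by
    calc n * D.ul 0 ≤ N * (C * q ^ 78) := mul_le_mul hnN (h.ul_le 0) (hD.ul_nonneg 0) hN0
      _ = C ^ 1 * q ^ (17 + 1) * (N * q ^ 60) := by ring
      _ ≤ 1 / 10 ^ 9 * j := mul_le_mul e1 hj (by positivity) (by positivity)
  have t2 : (1 / q) ^ 2 * j ^ 2 * uo 0 ≤ 2 / 10 ^ 9 * j := by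
    have h1 : (1 / q) ^ 2 * q ^ 200 = q ^ 198 := by
      rw [div_pow, one_pow, div_mul_eq_mul_div, one_mul, div_eq_iff (by positivity)]
      ring
    calc (1 / q) ^ 2 * j ^ 2 * uo 0 ≤ (1 / q) ^ 2 * j ^ 2 * (C * q ^ 200) :=
          mul_le_mul_of_nonneg_left (S.uo_le 0) (by positivity)
      _ = j * j * (C * ((1 / q) ^ 2 * q ^ 200)) := by ring
      _ = j * j * (C * q ^ 198) := by rw [h1]
      _ ≤ 2 * (N * q ^ 60) * j * (C * q ^ 198) :=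
          mul_le_mul_of_nonneg_right (mul_le_mul_of_nonneg_right hj2 hj0) (by positivity)
      _ = 2 * C * ((N : ℝ) * q ^ 200) * q ^ 58 * j := by ring
      _ ≤ 2 * C * C * q ^ 58 * j := by
          refine mul_le_mul_of_nonneg_right (mul_le_mul_of_nonneg_right
            (mul_le_mul_of_nonneg_left h.NqU (by positivity)) (by positivity)) hj0
      _ = 2 * (C ^ 2 * q ^ (57 + 1)) * j := by ring
      _ ≤ 2 / 10 ^ 9 * j := by
          refine mul_le_mul_of_nonneg_right ?_ hj0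
          linarith
  have t3 : 4 * n * (n * ∫ z, (1 - D.Fc z) ∂lam3) * (n * D.uh 0) ≤ 4 / 10 ^ 9 * j := by
    have h1 := GDm_n_Ic h hn
    have h2 := GDm_n_uh0 h hn
    have h3 : 0 ≤ n * ∫ z, (1 - D.Fc z) ∂lam3 := mul_nonneg hn0 hI0
    have h4 : 0 ≤ n * D.uh 0 := mul_nonneg hn0 hu0
    calc 4 * n * (n * ∫ z, (1 - D.Fc z) ∂lam3) * (n * D.uh 0)
        ≤ 4 * N * (C * q ^ 240) * C := by
          refine mul_le_mul (mul_le_mul (by linarith) h1 h3 (by positivity)) h2 h4 (by positivity)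
      _ = 4 * (C ^ 2 * q ^ (179 + 1)) * (N * q ^ 60) := by ring
      _ ≤ 4 * (1 / 10 ^ 9) * j := by
          refine mul_le_mul (by linarith) hj (by positivity) (by positivity)
      _ = 4 / 10 ^ 9 * j := by ring
  linarith

theorem GD_Xg_bm {h : T3 → ℝ} (hh : BM h) (n : ℕ) :
    BM (fun p : (Fin n → T3) × T3 => Xg h p.1 p.2) := by
  unfold Xg
  refine BM.finset_sum _ fun j _ => ?_
  exact hh.comp (measurable_snd.sub ((measurable_pi_apply j).comp measurable_fst))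

theorem GD_Xg_shift (h : T3 → ℝ) {n : ℕ} (x : Fin n → T3) (y s : T3) :
    Xg h (fun i => x i + s) (y + s) = Xg h x y := by
  unfold Xg
  refine Finset.sum_congr rfl fun j _ => ?_
  rw [add_sub_add_right_eq_sub]

theorem EM {C q a : ℝ} {N : ℕ} {D : Dat} (h : D.GDm C q a N) (hs : Sm C q)
    {us uo : T3 → ℝ} {sh oh : (Fin 3 → ℤ) → ℝ} (S : Spl C q N D us uo sh oh) {δ τ : ℝ}
    (hδ : 0 ≤ δ) (hδ1 : δ ≤ 1) (hτ : 0 ≤ τ) (hτ1 : τ ≤ 1) {n : ℕ} (hn : n ≤ N) (y : T3) :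
    Eg (D.F δ τ) n (fun x => Real.exp (-(1 / q * (2 * τ * (Xg uo x y - n * oh 0))))) ≤ 2 := by
  have hD := h.ok
  have hq0 := h.q0
  have hq1 : q ≤ 1 := GDm_q_le_one h
  have hF := F_gas hD hδ hδ1 hτ
  have hF0 := F_gas hD hδ hδ1 (le_refl (0 : ℝ))
  have hZ := Zpos_m h hs hδ hδ1 hτ hτ1 (n := n) (by omega)
  have hN0 : (0 : ℝ) ≤ N := Nat.cast_nonneg N
  have hr4 : 4 ≤ (N : ℝ) * q ^ 60 := by
    refine h.Nq.trans (mul_le_mul_of_nonneg_left ?_ hN0)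
    exact pow_le_pow_of_le_one hq0.le hq1 (by norm_num)
  set r : ℝ := (N : ℝ) * q ^ 60 with hr
  obtain ⟨j, hj⟩ : ∃ j : ℕ, j = ⌈r⌉₊ := ⟨_, rfl⟩
  have hj1 : r ≤ j := hj ▸ Nat.le_ceil r
  have hj2 : (j : ℝ) ≤ 2 * r := by
    have := Nat.ceil_lt_add_one (show 0 ≤ r by linarith)
    rw [← hj] at this
    linarith
  have hjn : 1 ≤ j := by
    have : (1 : ℝ) ≤ j := by linarith
    exact_mod_cast this
  obtain ⟨T, hT⟩ : ∃ T : ℝ, T = n * D.ul 0 + (1 / q) ^ 2 * (j : ℝ) ^ 2 * uo 0 := ⟨_, rfl⟩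
  obtain ⟨R, hR⟩ : ∃ R : ℝ, R = 4 * n * (n * ∫ z, (1 - D.Fc z) ∂lam3) * (n * D.uh 0) := ⟨_, rfl⟩
  have hTR : T + R ≤ j / 2 := by
    rw [hT, hR]
    exact GD_bound h hs S hn hj1 hj2
  have hTR0 : 0 ≤ T + R := by
    rw [hT, hR]
    have h1 := hD.ul_nonneg 0
    have h2 := S.uo_nonneg 0
    have h3 := GDm_Ic_nonneg h
    have h4 := hD.uh_nonneg 0
    positivity
  have key := EM_pow hF hZ (φ := fun x y => -(1 / q * (2 * τ * (Xg uo x y - n * oh 0)))) ?_ ?_ hjn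
    (B := Real.exp (-(τ * ((n : ℝ) ^ 2 * D.uh 0)) + τ * T)) (W := Wg (D.F δ 0)) (Wg_bm hF0 n)
    (fun x => Wg_nonneg hF0 x) ?_ y
  · have hZr := Z_ratio h hs hδ hδ1 hτ hτ1 hn
    rw [← hR] at hZr
    have hE0 : 0 ≤ Eg (D.F δ τ) n
        (fun x => Real.exp (-(1 / q * (2 * τ * (Xg uo x y - n * oh 0))))) :=
      Eg_nonneg hF fun x => (Real.exp_pos _).le
    have h1 : Real.exp (-(τ * ((n : ℝ) ^ 2 * D.uh 0)) + τ * T) *
        (∫ x, Wg (D.F δ 0) x ∂(piN (Fin n))) / Zg (D.F δ τ) n ≤ Real.exp (1 / 2) ^ j := by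
      rw [div_le_iff₀ hZ]
      have h2 : Real.exp (-(τ * ((n : ℝ) ^ 2 * D.uh 0)) + τ * T) *
          (∫ x, Wg (D.F δ 0) x ∂(piN (Fin n))) ≤
          Real.exp (-(τ * ((n : ℝ) ^ 2 * D.uh 0)) + τ * T) *
          (Zg (D.F δ τ) n * Real.exp (τ * ((n : ℝ) ^ 2 * D.uh 0 + R))) :=
        mul_le_mul_of_nonneg_left hZr (Real.exp_pos _).le
      refine h2.trans ?_
      have h3 : Real.exp (-(τ * ((n : ℝ) ^ 2 * D.uh 0)) + τ * T) *
          (Zg (D.F δ τ) n * Real.exp (τ * ((n : ℝ) ^ 2 * D.uh 0 + R))) =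
          Real.exp (τ * (T + R)) * Zg (D.F δ τ) n := by
        have h4 : τ * (T + R) = (-(τ * ((n : ℝ) ^ 2 * D.uh 0)) + τ * T) +
            τ * ((n : ℝ) ^ 2 * D.uh 0 + R) := by ring
        rw [h4, Real.exp_add (-(τ * ((n : ℝ) ^ 2 * D.uh 0)) + τ * T)
          (τ * ((n : ℝ) ^ 2 * D.uh 0 + R))]
        ring
      rw [h3]
      refine mul_le_mul_of_nonneg_right ?_ hZ.le
      rw [← Real.exp_nat_mul]
      refine Real.exp_le_exp.2 ?_
      have h5 : τ * (T + R) ≤ 1 * (T + R) := mul_le_mul_of_nonneg_right hτ1 hTR0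
      linarith
    have h6 := key.trans h1
    have h7 := (pow_le_pow_iff_left₀ hE0 (Real.exp_pos (1 / 2)).le (by omega)).1 h6
    exact h7.trans GD_exp_half
  · exact ((((GD_Xg_bm S.uo_bm n).sub (BM.const _)).const_mul _).const_mul _).neg
  · intro x y s
    rw [GD_Xg_shift]
  · intro x y'
    have h1 := Wg_tilt hD hδ hδ1 (le_refl (0 : ℝ)) hτ x
    rw [sub_zero] at h1
    rw [h1, ← Real.exp_sum, mul_assoc, ← Real.exp_add, mul_comm (Real.exp _)]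
    refine mul_le_mul_of_nonneg_left (Real.exp_le_exp.2 ?_) (Wg_nonneg hF0 x)
    have h2 := EM_point S hτ (P := 1 / q) (by positivity) x y'
    rw [← hT] at h2
    refine le_trans (le_of_eq ?_) h2
    rw [Finset.sum_neg_distrib, ← Finset.mul_sum, ← Finset.mul_sum]
    ring

end Pool.Agent.Lib.MP_4952d6_mp.M

end

/-! ### M.GE -/

section

set_option autoImplicit false
set_option linter.unusedSectionVars false
set_option linter.unusedVariables false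
open MeasureTheory Function Filter Topology Set ComplexConjugate

namespace Pool.Agent.Lib.MP_4952d6_mp.M

theorem GE_bm {h : T3 → ℝ} (hh : BM h) (n : ℕ) (y : T3) :
    BM (fun x : Fin n → T3 => Xg h x y) :=
  BM.finset_sum _ fun j _ => hh.comp (measurable_sub' measurable_const (measurable_pi_apply j))

theorem GE_exp_bm {X : Type*} [MeasurableSpace X] {f : X → ℝ} (hf : BM f) :
    BM (fun x => Real.exp (f x)) := by
  obtain ⟨c, hc⟩ := hf.bdd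
  refine ⟨Real.measurable_exp.comp hf.meas, Real.exp c, fun x => ?_⟩
  rw [abs_of_pos (Real.exp_pos _)]
  exact Real.exp_le_exp.2 ((le_abs_self _).trans (hc x))

theorem GE_neg {X : Type*} [MeasurableSpace X] {f : X → ℝ} (hf : BM f) : BM (fun x => -f x) := by
  obtain ⟨c, hc⟩ := hf.bdd
  exact ⟨hf.meas.neg, c, fun x => by rw [abs_neg]; exact hc x⟩

theorem star_point {C q a : ℝ} {N : ℕ} {D : Dat} (h : D.GDm C q a N)
    {us uo : T3 → ℝ} {sh oh : (Fin 3 → ℤ) → ℝ} (S : Spl C q N D us uo sh oh) {τ m : ℝ}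
    (hτ : 0 ≤ τ) (hτ1 : τ ≤ 1) (hm : 0 ≤ m) (hm2 : m ≤ 2) {n : ℕ} (hn : n ≤ N)
    (x : Fin n → T3) (y : T3) :
    Real.exp (-(m * (2 * τ * (Xg D.ul x y - n * D.uh 0))))
      ≤ Real.exp (2 * m) + Real.exp (2 * m - 1 / q)
        * Real.exp (-(1 / q * (2 * τ * (Xg uo x y - n * oh 0)))) := by
  have hq := h.q0
  have hP : 2 ≤ 1 / q := by
    rw [le_div_iff₀ hq]
    linarith [h.q1]
  obtain ⟨w, hw⟩ : ∃ w : ℝ, w = 2 * τ * (Xg uo x y - n * oh 0) := ⟨_, rfl⟩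
  obtain ⟨P, hPd⟩ : ∃ P : ℝ, P = 1 / q := ⟨_, rfl⟩
  have hX : Xg D.ul x y = Xg us x y + Xg uo x y := by
    unfold Xg
    rw [← Finset.sum_add_distrib]
    exact Finset.sum_congr rfl fun j _ => S.add _
  have hXs : 0 ≤ Xg us x y := Finset.sum_nonneg fun j _ => S.us_nonneg _
  have hns : (n : ℝ) * sh 0 ≤ 1 / 2 :=
    (mul_le_mul_of_nonneg_right (Nat.cast_le.2 hn) (S.sh_nonneg 0)).trans S.sh0
  have hns0 : 0 ≤ (n : ℝ) * sh 0 := mul_nonneg (Nat.cast_nonneg n) (S.sh_nonneg 0)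
  have h1 : w - 1 ≤ 2 * τ * (Xg D.ul x y - n * D.uh 0) := by
    rw [hX, S.add_h 0, hw]
    have h2 : 0 ≤ τ * Xg us x y := mul_nonneg hτ hXs
    have h3 : τ * (n * sh 0) ≤ 1 * (1 / 2) := mul_le_mul hτ1 hns hns0 zero_le_one
    nlinarith
  have h4 : Real.exp (-(m * (2 * τ * (Xg D.ul x y - n * D.uh 0)))) ≤ Real.exp (m - m * w) := by
    refine Real.exp_le_exp.2 ?_
    have := mul_le_mul_of_nonneg_left h1 hm
    linarith
  refine h4.trans ?_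
  rw [← hw, ← hPd, ← Real.exp_add]
  rw [← hPd] at hP
  rcases le_or_gt (-1) w with hw1 | hw1
  · have h5 : Real.exp (m - m * w) ≤ Real.exp (2 * m) := by
      refine Real.exp_le_exp.2 ?_
      nlinarith
    have := Real.exp_pos (2 * m - P + -(P * w))
    linarith
  · have h5 : Real.exp (m - m * w) ≤ Real.exp (2 * m - P + -(P * w)) := by
      refine Real.exp_le_exp.2 ?_
      nlinarith [mul_nonneg (sub_nonneg.2 (hm2.trans hP)) (by linarith : 0 ≤ -1 - w)]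
    have := Real.exp_pos (2 * m)
    linarith

/-- (STAR) -/
theorem star {C q a : ℝ} {N : ℕ} {D : Dat} (h : D.GDm C q a N) (hs : Sm C q)
    {us uo : T3 → ℝ} {sh oh : (Fin 3 → ℤ) → ℝ} (S : Spl C q N D us uo sh oh) {δ τ m : ℝ}
    (hδ : 0 ≤ δ) (hδ1 : δ ≤ 1) (hτ : 0 ≤ τ) (hτ1 : τ ≤ 1) (hm : 0 ≤ m) (hm2 : m ≤ 2)
    {n : ℕ} (hn : n ≤ N) {Φ : (Fin n → T3) → ℝ} (hΦ : BM Φ) (h0 : ∀ x, 0 ≤ Φ x) {B : ℝ}
    (hB : ∀ x, Φ x ≤ B) (y : T3) :
    Eg (D.F δ τ) n (fun x => Φ x * Real.exp (-(m * (2 * τ * (Xg D.ul x y - n * D.uh 0)))))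
      ≤ 60 * Eg (D.F δ τ) n Φ + 120 * B * q ^ 1500 := by
  have hF := F_gas h.ok hδ hδ1 hτ
  have hB0 : 0 ≤ B := (h0 (fun _ => 0)).trans (hB _)
  have hbe : BM (fun x : Fin n → T3 => Real.exp (-(m * (2 * τ * (Xg D.ul x y - n * D.uh 0))))) :=
    GE_exp_bm (GE_neg (((((Xg_bm h.ok n y).sub (BM.const _)).const_mul (2 * τ)).const_mul m)))
  have hbw : BM (fun x : Fin n → T3 => Real.exp (-(1 / q * (2 * τ * (Xg uo x y - n * oh 0))))) :=
    GE_exp_bm (GE_neg (((((GE_bm S.uo_bm n y).sub (BM.const _)).const_mul (2 * τ)).const_mul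
      (1 / q))))
  have e4 : Real.exp 4 ≤ 60 := by
    have h1 := Real.exp_one_lt_d9
    have h2 : Real.exp 4 = Real.exp 1 ^ 4 := by
      rw [← Real.exp_nat_mul]; norm_num
    rw [h2]
    calc Real.exp 1 ^ 4 ≤ 2.7182818286 ^ 4 := pow_le_pow_left₀ (Real.exp_pos 1).le h1.le 4
      _ ≤ 60 := by norm_num
  have e2m : Real.exp (2 * m) ≤ 60 := (Real.exp_le_exp.2 (by linarith)).trans e4
  have e2q : Real.exp (2 * m - 1 / q) ≤ 60 * q ^ 1500 := by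
    rw [sub_eq_add_neg, Real.exp_add]
    exact mul_le_mul e2m hs.e (Real.exp_pos _).le (by norm_num)
  have hpt : ∀ x : Fin n → T3,
      Φ x * Real.exp (-(m * (2 * τ * (Xg D.ul x y - n * D.uh 0))))
        ≤ 60 * Φ x + B * (60 * q ^ 1500)
          * Real.exp (-(1 / q * (2 * τ * (Xg uo x y - n * oh 0)))) := by
    intro x
    have h1 := star_point h S hτ hτ1 hm hm2 hn x y
    have h2 := mul_le_mul_of_nonneg_left h1 (h0 x)
    refine h2.trans ?_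
    rw [mul_add]
    refine add_le_add ?_ ?_
    · rw [mul_comm]
      exact mul_le_mul_of_nonneg_right e2m (h0 x)
    · rw [← mul_assoc]
      refine mul_le_mul_of_nonneg_right ?_ (Real.exp_pos _).le
      exact mul_le_mul (hB x) e2q (Real.exp_pos _).le hB0
  have h3 := Eg_mono hF (hΦ.mul hbe) ((hΦ.const_mul 60).add (hbw.const_mul (B * (60 * q ^ 1500)))) hpt
  rw [Eg_add hF (hΦ.const_mul 60) (hbw.const_mul _), Eg_const_mul, Eg_const_mul] at h3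
  have h4 := EM h hs S hδ hδ1 hτ hτ1 hn y
  have h5 : B * (60 * q ^ 1500) * Eg (D.F δ τ) n
      (fun x => Real.exp (-(1 / q * (2 * τ * (Xg uo x y - n * oh 0))))) ≤
      B * (60 * q ^ 1500) * 2 := by
    refine mul_le_mul_of_nonneg_left h4 ?_
    have := h.q0
    positivity
  linarith

end Pool.Agent.Lib.MP_4952d6_mp.M

end

/-! ### M.GG -/

section

set_option autoImplicit false
set_option linter.unusedSectionVars false
set_option linter.unusedVariables false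
open MeasureTheory Function Filter Topology Set ComplexConjugate

namespace Pool.Agent.Lib.MP_4952d6_mp.M

/-! ### GG: the one particle ratio (file M/GG.lean) -/

theorem GG_Fc_bm {D : Dat} (hD : D.Ok) : BM (fun z => 1 - D.Fc z) :=
  (BM.const 1).sub (BM.of_mem_Icc (hD.Fc_WD 0).sm.measurable fun x => ⟨hD.Fc_nonneg x, hD.Fc_le x⟩)

theorem GG_Xg_bm {h : T3 → ℝ} (hh : BM h) (n : ℕ) (y : T3) :
    BM (fun x : Fin n → T3 => Xg h x y) :=
  BM.finset_sum _ fun j _ => hh.comp (measurable_sub' measurable_const (measurable_pi_apply j))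

theorem GG_exp_bm {α : Type*} [MeasurableSpace α] {Φ : α → ℝ} (hΦ : BM Φ) :
    BM (fun x => Real.exp (-(Φ x))) := by
  obtain ⟨hm, C, hC⟩ := hΦ
  refine ⟨Real.measurable_exp.comp hm.neg, Real.exp C, fun x => ?_⟩
  rw [abs_of_pos (Real.exp_pos _)]
  exact Real.exp_le_exp.2 (by have := neg_abs_le (Φ x); have := hC x; linarith)

theorem GG_Ag_Fr_bm {D : Dat} (hD : D.Ok) {δ : ℝ} (hδ : 0 ≤ δ) (hδ1 : δ ≤ 1) (n : ℕ) (y : T3) :
    BM (fun x : Fin n → T3 => Ag (D.Fr δ) x y) := by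
  have hFc : Measurable D.Fc := (hD.Fc_WD 0).sm.measurable
  refine BM.finset_prod _ fun j _ => ?_
  have h1 : BM (D.Fr δ) := by
    refine BM.of_mem_Icc (a := 0) (b := 1) ?_ fun x =>
      ⟨hδ.trans (Fr_bounds hD hδ hδ1 x).1, (Fr_bounds hD hδ hδ1 x).2⟩
    exact measurable_const.add (measurable_const.mul hFc)
  exact h1.comp (measurable_sub' measurable_const (measurable_pi_apply j))

/-- Common part: `⟨exp (-S)⟩ - error ≤ r exp (2 τ n û(0))`. -/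
theorem GG_main {C q a : ℝ} {N : ℕ} {D : Dat} (h : D.GDm C q a N) (hs : Sm C q)
    {us uo : T3 → ℝ} {sh oh : (Fin 3 → ℤ) → ℝ} (S : Spl C q N D us uo sh oh) {δ τ : ℝ}
    (hδ : 0 ≤ δ) (hδ1 : δ ≤ 1) (hτ : 0 ≤ τ) (hτ1 : τ ≤ 1) {n : ℕ} (hn : n ≤ N) :
    Eg (D.F δ τ) n (fun x => Real.exp (-(2 * τ * (Xg D.ul x 0 - n * D.uh 0))))
        - (60 * (C * q ^ 240) + 120 * q ^ 1500)
      ≤ rg (D.F δ τ) n * Real.exp (2 * τ * n * D.uh 0) := by
  have hD := h.ok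
  have hF := F_gas hD hδ hδ1 hτ
  have hZ := Zpos_m h hs hδ hδ1 hτ hτ1 (n := n) (by omega)
  have bX := GG_Xg_bm (ul_bm hD) n (0 : T3)
  have bS : BM (fun x : Fin n → T3 => 2 * τ * (Xg D.ul x 0 - n * D.uh 0)) :=
    (bX.sub (BM.const (n * D.uh 0))).const_mul (2 * τ)
  have bE := GG_exp_bm bS
  have bA := GG_Ag_Fr_bm hD hδ hδ1 n (0 : T3)
  have b1A : BM (fun x : Fin n → T3 => 1 - Ag (D.Fr δ) x 0) := (BM.const 1).sub bA
  have h1 := star h hs S hδ hδ1 hτ hτ1 zero_le_one one_le_two hn b1A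
    (fun x => (one_sub_Ag_Fr hD hδ hδ1 x 0).1) (B := 1) (fun x => by
      have h2 : 0 ≤ Ag (D.Fr δ) x 0 :=
        Finset.prod_nonneg fun j _ => hδ.trans (Fr_bounds hD hδ hδ1 _).1
      linarith) 0
  have h2 : Eg (D.F δ τ) n (fun x => 1 - Ag (D.Fr δ) x 0) ≤ C * q ^ 240 := by
    have h3 := Eg_mono hF b1A (GG_Xg_bm (GG_Fc_bm hD) n (0 : T3))
      (fun x => (one_sub_Ag_Fr hD hδ hδ1 x 0).2)
    rw [Eg_Xg hF hZ.ne' (GG_Fc_bm hD)] at h3
    exact h3.trans (GDm_n_Ic h hn)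
  have h3 : (fun x : Fin n → T3 => (1 - Ag (D.Fr δ) x 0)
      * Real.exp (-(1 * (2 * τ * (Xg D.ul x 0 - n * D.uh 0)))))
      = fun x => Real.exp (-(2 * τ * (Xg D.ul x 0 - n * D.uh 0)))
        - Real.exp (2 * τ * n * D.uh 0) * Ag (D.F δ τ) x 0 := by
    funext x
    rw [Ag_F hD, one_mul]
    have h4 : Real.exp (-(2 * τ * (Xg D.ul x 0 - n * D.uh 0)))
        = Real.exp (2 * τ * n * D.uh 0) * Real.exp (-(2 * τ * Xg D.ul x 0)) := by
      rw [← Real.exp_add]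
      congr 1
      ring
    rw [h4]
    ring
  rw [h3, Eg_sub hF bE ((GC_Ag_bm hF n 0).const_mul _), Eg_const_mul] at h1
  have h4 : rg (D.F δ τ) n = Eg (D.F δ τ) n (fun x => Ag (D.F δ τ) x 0) := rfl
  rw [h4]
  linarith

theorem GG_mean {D : Dat} (hD : D.Ok) {δ τ : ℝ} (hδ : 0 ≤ δ) (hδ1 : δ ≤ 1) (hτ : 0 ≤ τ) {n : ℕ}
    (hZ : 0 < Zg (D.F δ τ) n) :
    Eg (D.F δ τ) n (fun x => 2 * τ * (Xg D.ul x 0 - n * D.uh 0)) = 0 := by
  have hF := F_gas hD hδ hδ1 hτ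
  rw [Eg_const_mul, Eg_sub hF (GG_Xg_bm (ul_bm hD) n 0) (BM.const _), Eg_Xg hF hZ.ne' (ul_bm hD),
    ul_int hD, Eg_const hZ.ne', sub_self, mul_zero]

theorem GG_q {C q a : ℝ} {N : ℕ} {D : Dat} (h : D.GDm C q a N) (hs : Sm C q) :
    60 * (C * q ^ 240) + 120 * q ^ 1500 ≤ C * q ^ 220 := by
  have hq := h.q0
  have hC := h.C1
  have hqs := GDm_q_small h hs
  have h220 : 0 ≤ C * q ^ 220 := by positivity
  have q1 : q ≤ 1 := GDm_q_le_one h
  have h1 : q ^ 20 ≤ 1 / 10 ^ 9 := (pow_le_of_le_one hq.le q1 (by norm_num)).trans hqs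
  have h2 : q ^ 1280 ≤ 1 / 10 ^ 9 := (pow_le_of_le_one hq.le q1 (by norm_num)).trans hqs
  have e1 : C * q ^ 240 = q ^ 20 * (C * q ^ 220) := by ring
  have e2 : q ^ 1500 = q ^ 1280 * q ^ 220 := by rw [← pow_add]
  have h3 : q ^ 220 ≤ C * q ^ 220 := le_mul_of_one_le_left (by positivity) hC
  have h4 : C * q ^ 240 ≤ 1 / 10 ^ 9 * (C * q ^ 220) := by
    rw [e1]
    exact mul_le_mul_of_nonneg_right h1 h220
  have h5 : q ^ 1500 ≤ 1 / 10 ^ 9 * (C * q ^ 220) := by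
    rw [e2]
    exact mul_le_mul h2 h3 (by positivity) (by positivity)
  linarith

theorem R1_m {C q a : ℝ} {N : ℕ} {D : Dat} (h : D.GDm C q a N) (hs : Sm C q)
    {us uo : T3 → ℝ} {sh oh : (Fin 3 → ℤ) → ℝ} (S : Spl C q N D us uo sh oh) {δ τ : ℝ}
    (hδ : 0 ≤ δ) (hδ1 : δ ≤ 1) (hτ : 0 ≤ τ) (hτ1 : τ ≤ 1) {n : ℕ} (hn : n ≤ N) :
    1 / 2 ≤ rg (D.F δ τ) n * Real.exp (2 * τ * n * D.uh 0) := by
  have hD := h.ok
  have hF := F_gas hD hδ hδ1 hτ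
  have hZ := Zpos_m h hs hδ hδ1 hτ hτ1 (n := n) (by omega)
  have bS : BM (fun x : Fin n → T3 => 2 * τ * (Xg D.ul x 0 - n * D.uh 0)) :=
    ((GG_Xg_bm (ul_bm hD) n (0 : T3)).sub (BM.const (n * D.uh 0))).const_mul (2 * τ)
  have h1 := Eg_jensen hF hZ bS
  rw [GG_mean hD hδ hδ1 hτ hZ, neg_zero, Real.exp_zero] at h1
  have h2 := GG_main h hs S hδ hδ1 hτ hτ1 hn
  have h3 := GG_q h hs
  have hq := h.q0
  have h4 : C * q ^ 220 ≤ 1 / 10 ^ 9 := by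
    have h5 := GDm_small' h hs (k := 1) (by norm_num) 219
    rw [pow_one] at h5
    have h6 : q ^ 219 ≤ 1 := pow_le_one₀ hq.le (GDm_q_le_one h)
    refine h5.trans ?_
    exact mul_le_of_le_one_right (by norm_num) h6
  have h5 : (1 : ℝ) / 10 ^ 9 ≤ 1 / 2 := by norm_num
  linarith

theorem R1s_m {C q a : ℝ} {N : ℕ} {D : Dat} (h : D.GDm C q a N) (hs : Sm C q)
    {us uo : T3 → ℝ} {sh oh : (Fin 3 → ℤ) → ℝ} (S : Spl C q N D us uo sh oh) {k : ℕ}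
    (hk : k ≤ N) :
    1 + 1 / 2 * (1 - q ^ 18)
        * Eg (D.F 0 1) k (fun x => Tr (q ^ 18) (2 * Xg D.ul x 0 - 2 * k * D.uh 0) ^ 2)
        - C * q ^ 220
      ≤ Real.exp (2 * k * D.uh 0) * rg (D.F 0 1) k := by
  have hD := h.ok
  have hF : GasFn lam3 (D.F 0 1) := F_gas hD le_rfl zero_le_one zero_le_one
  have hZ := Zpos_m h hs (δ := 0) (τ := 1) le_rfl zero_le_one zero_le_one le_rfl
    (n := k) (by omega)
  have hq := h.q0
  have q1 : q ≤ 1 := GDm_q_le_one h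
  have hs0 : 0 < q ^ 18 := by positivity
  have hs1 : q ^ 18 ≤ 1 := pow_le_one₀ hq.le q1
  have bX := GG_Xg_bm (ul_bm hD) k (0 : T3)
  have bS : BM (fun x : Fin k → T3 => 2 * 1 * (Xg D.ul x 0 - k * D.uh 0)) :=
    (bX.sub (BM.const (k * D.uh 0))).const_mul (2 * 1)
  have bS' : BM (fun x : Fin k → T3 => 2 * Xg D.ul x 0 - 2 * k * D.uh 0) :=
    (bX.const_mul 2).sub (BM.const (2 * k * D.uh 0))
  have bT : BM (fun x : Fin k → T3 => Tr (q ^ 18) (2 * Xg D.ul x 0 - 2 * k * D.uh 0) ^ 2) := by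
    have hc : Continuous (Tr (q ^ 18)) :=
      continuous_iff_continuousAt.2 fun y => (Tr_hasDerivAt hs0 y).continuousAt
    have h1 : BM (fun x : Fin k → T3 => Tr (q ^ 18) (2 * Xg D.ul x 0 - 2 * k * D.uh 0)) :=
      ⟨hc.measurable.comp bS'.meas, q ^ 18 / 2, fun x => abs_Tr_le' hs0 _⟩
    exact h1.pow 2
  have h1 := GG_main h hs S le_rfl zero_le_one zero_le_one le_rfl hk
  have h2 := GG_q h hs
  have hpt : ∀ x : Fin k → T3, 1 - 2 * 1 * (Xg D.ul x 0 - k * D.uh 0)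
      + 1 / 2 * (1 - q ^ 18) * Tr (q ^ 18) (2 * Xg D.ul x 0 - 2 * k * D.uh 0) ^ 2
      ≤ Real.exp (-(2 * 1 * (Xg D.ul x 0 - k * D.uh 0))) := by
    intro x
    have h3 := exp_ge_Tr hs0 hs1 (2 * Xg D.ul x 0 - 2 * k * D.uh 0)
    have h4 : 2 * 1 * (Xg D.ul x 0 - k * D.uh 0) = 2 * Xg D.ul x 0 - 2 * k * D.uh 0 := by ring
    rw [h4]
    exact h3
  have b1 : BM (fun x : Fin k → T3 => 1 - 2 * 1 * (Xg D.ul x 0 - k * D.uh 0)) :=
    (BM.const 1).sub bS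
  have h3 := Eg_mono hF (b1.add (bT.const_mul (1 / 2 * (1 - q ^ 18)))) (GG_exp_bm bS) hpt
  rw [Eg_add hF b1 (bT.const_mul (1 / 2 * (1 - q ^ 18))), Eg_sub hF (BM.const 1) bS,
    Eg_const hZ.ne', GG_mean hD le_rfl zero_le_one zero_le_one hZ, Eg_const_mul] at h3
  have h4 : Real.exp (2 * 1 * k * D.uh 0) = Real.exp (2 * k * D.uh 0) := by
    congr 1
    ring
  rw [h4] at h1
  rw [mul_comm (Real.exp (2 * k * D.uh 0)) (rg (D.F 0 1) k)]
  rw [sub_zero] at h3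
  exact (sub_le_sub h3 h2).trans h1

end Pool.Agent.Lib.MP_4952d6_mp.M

end

/-! ### M.GH -/

section

set_option autoImplicit false
set_option linter.unusedSectionVars false
set_option linter.unusedVariables false
open MeasureTheory Function Filter Topology Set ComplexConjugate

namespace Pool.Agent.Lib.MP_4952d6_mp.M

/-! ### GH: fluctuation of the one body factor -/

theorem GH_exp_bm {α : Type*} [MeasurableSpace α] {f : α → ℝ} (hf : BM f) :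
    BM (fun x => Real.exp (f x)) := by
  obtain ⟨hm, K, hK⟩ := hf
  refine ⟨Real.measurable_exp.comp hm, Real.exp K, fun x => ?_⟩
  rw [abs_of_pos (Real.exp_pos _)]
  exact Real.exp_le_exp.2 ((le_abs_self _).trans (hK x))

theorem GH_exp_sq (s : ℝ) :
    (Real.exp (-s) - 1) ^ 2 ≤ s ^ 2 + s ^ 2 * Real.exp (-(2 * s)) := by
  have e2 : Real.exp (-(2 * s)) = Real.exp (-s) ^ 2 := by
    rw [sq, ← Real.exp_add]
    congr 1
    ring
  rw [e2]
  have hp := Real.exp_pos (-s)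
  rcases le_total 0 s with h | h
  · have h1 := Real.add_one_le_exp (-s)
    have h2 : Real.exp (-s) ≤ 1 := Real.exp_le_one_iff.2 (by linarith)
    have h3 : (Real.exp (-s) - 1) ^ 2 ≤ s ^ 2 := by
      have h4 : (1 - Real.exp (-s)) ^ 2 ≤ s ^ 2 :=
        pow_le_pow_left₀ (by linarith) (by linarith) 2
      linarith [show (Real.exp (-s) - 1) ^ 2 = (1 - Real.exp (-s)) ^ 2 by ring]
    have h5 : 0 ≤ s ^ 2 * Real.exp (-s) ^ 2 := by positivity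
    linarith
  · have h1 := Real.add_one_le_exp s
    have h2 : Real.exp s * Real.exp (-s) = 1 := by
      rw [← Real.exp_add, add_neg_cancel, Real.exp_zero]
    have h3 := mul_le_mul_of_nonneg_right h1 hp.le
    have h4 : Real.exp (-s) - 1 ≤ (-s) * Real.exp (-s) := by linarith
    have h5 : 1 ≤ Real.exp (-s) := Real.one_le_exp (by linarith)
    have h6 := pow_le_pow_left₀ (by linarith : 0 ≤ Real.exp (-s) - 1) h4 2
    have h7 : ((-s) * Real.exp (-s)) ^ 2 = s ^ 2 * Real.exp (-s) ^ 2 := by ring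
    rw [h7] at h6
    have h8 : 0 ≤ s ^ 2 := sq_nonneg s
    linarith

theorem GH_pt {A s c : ℝ} (hA0 : 0 ≤ A) (hA1 : A ≤ 1) :
    (A * (c * Real.exp (-s)) - c) ^ 2 ≤ c ^ 2 * (2 * ((1 - A) * Real.exp (-(2 * s)))
      + (2 * s ^ 2 + 2 * (s ^ 2 * Real.exp (-(2 * s))))) := by
  have e2 : Real.exp (-(2 * s)) = Real.exp (-s) ^ 2 := by
    rw [sq, ← Real.exp_add]
    congr 1
    ring
  have h1 := GH_exp_sq s
  have hp := Real.exp_pos (-(2 * s))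
  have h2 : ((A - 1) * Real.exp (-s)) ^ 2 ≤ (1 - A) * Real.exp (-(2 * s)) := by
    rw [mul_pow, ← e2]
    refine mul_le_mul_of_nonneg_right ?_ hp.le
    nlinarith
  have h3 : (A * Real.exp (-s) - 1) ^ 2 ≤ 2 * ((A - 1) * Real.exp (-s)) ^ 2
      + 2 * (Real.exp (-s) - 1) ^ 2 := by
    nlinarith [sq_nonneg ((A - 1) * Real.exp (-s) - (Real.exp (-s) - 1))]
  have h4 : (A * (c * Real.exp (-s)) - c) ^ 2 = c ^ 2 * (A * Real.exp (-s) - 1) ^ 2 := by ring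
  rw [h4]
  refine mul_le_mul_of_nonneg_left ?_ (sq_nonneg c)
  linarith

theorem GH_S_le {C q a : ℝ} {N : ℕ} {D : Dat} (h : D.GDm C q a N) {τ : ℝ}
    (hτ : 0 ≤ τ) (hτ1 : τ ≤ 1) {n : ℕ} (hn : n ≤ N) (x : Fin n → T3) :
    (2 * τ * (Xg D.ul x 0 - n * D.uh 0)) ^ 2 ≤ 16 * C ^ 4 / q ^ 244 := by
  have hD := h.ok
  have hq0 := h.q0
  have hq1 : q ≤ 1 := GDm_q_le_one h
  have hC1 := h.C1
  have hC0 : 0 < C := by linarith
  have hn0 : (0 : ℝ) ≤ n := Nat.cast_nonneg n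
  have hnN : (n : ℝ) ≤ N := Nat.cast_le.2 hn
  have hX0 : 0 ≤ Xg D.ul x 0 := Finset.sum_nonneg fun j _ => hD.ul_nonneg _
  have hX1 : Xg D.ul x 0 ≤ n * (C * q ^ 78) := by
    have h1 : Xg D.ul x 0 ≤ ∑ _j : Fin n, C * q ^ 78 := Finset.sum_le_sum fun j _ => h.ul_le _
    rw [Finset.sum_const, Finset.card_univ, Fintype.card_fin, nsmul_eq_mul] at h1
    exact h1
  have hN : (N : ℝ) ≤ C / q ^ 200 := by
    rw [le_div_iff₀ (by positivity)]
    exact h.NqU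
  have hX2 : Xg D.ul x 0 ≤ C ^ 2 / q ^ 122 := by
    refine hX1.trans ?_
    have h1 : n * (C * q ^ 78) ≤ C / q ^ 200 * (C * q ^ 78) :=
      mul_le_mul_of_nonneg_right (hnN.trans hN) (by positivity)
    refine h1.trans (le_of_eq ?_)
    field_simp
  have hu : n * D.uh 0 ≤ C ^ 2 / q ^ 122 := by
    refine (GDm_n_uh0 h hn).trans ?_
    rw [le_div_iff₀ (by positivity)]
    have h1 : q ^ 122 ≤ 1 := pow_le_one₀ hq0.le hq1
    nlinarith
  have hu0 : 0 ≤ n * D.uh 0 := mul_nonneg hn0 (hD.uh_nonneg 0)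
  have hK : 0 ≤ C ^ 2 / q ^ 122 := by positivity
  have h1 : |Xg D.ul x 0 - n * D.uh 0| ≤ C ^ 2 / q ^ 122 := by
    rw [abs_le]
    constructor <;> linarith
  have h2 : (Xg D.ul x 0 - n * D.uh 0) ^ 2 ≤ (C ^ 2 / q ^ 122) ^ 2 := by
    rw [← sq_abs]
    exact pow_le_pow_left₀ (abs_nonneg _) h1 2
  have h3 : (C ^ 2 / q ^ 122) ^ 2 = C ^ 4 / q ^ 244 := by
    rw [div_pow]
    ring
  have h4 : τ ^ 2 ≤ 1 := pow_le_one₀ hτ hτ1
  have h5 : (2 * τ * (Xg D.ul x 0 - n * D.uh 0)) ^ 2 =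
      4 * (τ ^ 2 * (Xg D.ul x 0 - n * D.uh 0) ^ 2) := by ring
  rw [h5]
  have h6 : τ ^ 2 * (Xg D.ul x 0 - n * D.uh 0) ^ 2 ≤ 1 * (C ^ 4 / q ^ 244) := by
    rw [← h3]
    exact mul_le_mul h4 h2 (sq_nonneg _) zero_le_one
  have h7 : 0 ≤ C ^ 4 / q ^ 244 := by positivity
  have h8 : 16 * C ^ 4 / q ^ 244 = 16 * (C ^ 4 / q ^ 244) := by ring
  rw [h8]
  linarith

theorem GH_num {C q a : ℝ} {N : ℕ} {D : Dat} (h : D.GDm C q a N) (hs : Sm C q) :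
    2 * (60 * (C * q ^ 240) + 120 * 1 * q ^ 1500) + (2 * (4 * (5 * C ^ 3 * q ^ 78))
      + 2 * (60 * (4 * (5 * C ^ 3 * q ^ 78)) + 120 * (16 * C ^ 4 / q ^ 244) * q ^ 1500))
      ≤ 4000 * C ^ 3 * q ^ 78 := by
  have hq0 := h.q0
  have hq1 : q ≤ 1 := GDm_q_le_one h
  have hC1 := h.C1
  have hC0 : 0 < C := by linarith
  have hC3 : 1 ≤ C ^ 3 := one_le_pow₀ hC1
  have hCC3 : C ≤ C ^ 3 := le_self_pow₀ hC1 (by norm_num)
  have h1 : C * q ^ 240 ≤ C ^ 3 * q ^ 78 :=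
    mul_le_mul hCC3 (pow_le_pow_of_le_one hq0.le hq1 (by norm_num)) (by positivity) (by positivity)
  have h2 : q ^ 1500 ≤ C ^ 3 * q ^ 78 := by
    have h3 : q ^ 1500 ≤ q ^ 78 := pow_le_pow_of_le_one hq0.le hq1 (by norm_num)
    have h4 : 0 < q ^ 78 := by positivity
    nlinarith
  have h3 : 120 * (16 * C ^ 4 / q ^ 244) * q ^ 1500 = 1920 * (C ^ 1 * q ^ (0 + 1)) * (C ^ 3 * q ^ 1255) := by
    field_simp
    ring
  have h4 := GDm_small' h hs (k := 1) (by norm_num) 0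
  rw [pow_zero, mul_one] at h4
  have h5 : C ^ 3 * q ^ 1255 ≤ C ^ 3 * q ^ 78 :=
    mul_le_mul_of_nonneg_left (pow_le_pow_of_le_one hq0.le hq1 (by norm_num)) (by positivity)
  have h6 : 1920 * (C ^ 1 * q ^ (0 + 1)) * (C ^ 3 * q ^ 1255) ≤ 1920 * (1 / 10 ^ 9) * (C ^ 3 * q ^ 78) := by
    refine mul_le_mul (by linarith) h5 (by positivity) (by positivity)
  have h7 : 0 < C ^ 3 * q ^ 78 := by positivity
  have h8 : 120 * (16 * C ^ 4 / q ^ 244) * q ^ 1500 ≤ 1 * (C ^ 3 * q ^ 78) := by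
    rw [h3]
    exact h6.trans (mul_le_mul_of_nonneg_right (by norm_num) h7.le)
  linarith

theorem R2_m {C q a : ℝ} {N : ℕ} {D : Dat} (h : D.GDm C q a N) (hs : Sm C q)
    {us uo : T3 → ℝ} {sh oh : (Fin 3 → ℤ) → ℝ} (S : Spl C q N D us uo sh oh) {δ τ : ℝ}
    (hδ : 0 ≤ δ) (hδ1 : δ ≤ 1) (hτ : 0 ≤ τ) (hτ1 : τ ≤ 1) {n : ℕ} (hn : n ≤ N) :
    Eg (D.F δ τ) n (fun x => (Ag (D.F δ τ) x 0 - Real.exp (-(2 * τ * n * D.uh 0))) ^ 2)
      ≤ Real.exp (-(2 * τ * n * D.uh 0)) ^ 2 * (4000 * C ^ 3 * q ^ 78) := by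
  have hD := h.ok
  have hq0 := h.q0
  have hF := F_gas hD hδ hδ1 hτ
  have hF0 := F_gas hD hδ hδ1 (le_refl (0 : ℝ))
  have hFr : D.F δ 0 = D.Fr δ := by
    funext z
    simp [Dat.F]
  rw [hFr] at hF0
  have hZ := Zpos_m h hs hδ hδ1 hτ hτ1 (n := n) (by omega)
  obtain ⟨c, hc⟩ : ∃ c : ℝ, c = Real.exp (-(2 * τ * n * D.uh 0)) := ⟨_, rfl⟩
  rw [← hc]
  have bA : BM (fun x : Fin n → T3 => 1 - Ag (D.Fr δ) x 0) :=
    (BM.const 1).sub ((Ag_bm hF0 n).comp (measurable_id.prodMk measurable_const))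
  have bS : BM (fun x : Fin n → T3 => 2 * τ * (Xg D.ul x 0 - n * D.uh 0)) :=
    ((Xg_bm hD n 0).sub (BM.const _)).const_mul _
  have bE : BM (fun x : Fin n → T3 => Real.exp (-(2 * (2 * τ * (Xg D.ul x 0 - n * D.uh 0))))) :=
    GH_exp_bm (bS.const_mul 2).neg
  have b1 : BM (fun x : Fin n → T3 => (Ag (D.F δ τ) x 0 - c) ^ 2) :=
    (((Ag_bm hF n).comp (measurable_id.prodMk measurable_const)).sub (BM.const c)).pow 2
  have b2 : BM (fun x : Fin n → T3 => 2 * ((1 - Ag (D.Fr δ) x 0) *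
      Real.exp (-(2 * (2 * τ * (Xg D.ul x 0 - n * D.uh 0)))))) := (bA.mul bE).const_mul 2
  have b3 : BM (fun x : Fin n → T3 => 2 * (2 * τ * (Xg D.ul x 0 - n * D.uh 0)) ^ 2) :=
    (bS.pow 2).const_mul 2
  have b4 : BM (fun x : Fin n → T3 => 2 * ((2 * τ * (Xg D.ul x 0 - n * D.uh 0)) ^ 2 *
      Real.exp (-(2 * (2 * τ * (Xg D.ul x 0 - n * D.uh 0)))))) := ((bS.pow 2).mul bE).const_mul 2
  have hpt : ∀ x : Fin n → T3, (Ag (D.F δ τ) x 0 - c) ^ 2 ≤ c ^ 2 *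
      (2 * ((1 - Ag (D.Fr δ) x 0) * Real.exp (-(2 * (2 * τ * (Xg D.ul x 0 - n * D.uh 0)))))
      + (2 * (2 * τ * (Xg D.ul x 0 - n * D.uh 0)) ^ 2
      + 2 * ((2 * τ * (Xg D.ul x 0 - n * D.uh 0)) ^ 2 *
        Real.exp (-(2 * (2 * τ * (Xg D.ul x 0 - n * D.uh 0))))))) := by
    intro x
    have h1 := one_sub_Ag_Fr hD hδ hδ1 x 0
    have hA0 : 0 ≤ Ag (D.Fr δ) x 0 :=
      Finset.prod_nonneg fun j _ => hδ.trans (Fr_bounds hD hδ hδ1 _).1
    have h2 := GH_pt (A := Ag (D.Fr δ) x 0) (s := 2 * τ * (Xg D.ul x 0 - n * D.uh 0)) (c := c) hA0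
      (by linarith [h1.1])
    have h3 : Ag (D.F δ τ) x 0 =
        Ag (D.Fr δ) x 0 * (c * Real.exp (-(2 * τ * (Xg D.ul x 0 - n * D.uh 0)))) := by
      rw [Ag_F hD, hc, ← Real.exp_add]
      congr 2
      ring
    rw [h3]
    exact h2
  refine (Eg_mono hF b1 ((b2.add (b3.add b4)).const_mul (c ^ 2)) hpt).trans ?_
  rw [Eg_const_mul]
  refine mul_le_mul_of_nonneg_left ?_ (sq_nonneg c)
  rw [Eg_add hF b2 (b3.add b4), Eg_add hF b3 b4, Eg_const_mul, Eg_const_mul, Eg_const_mul]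
  have hA1 : Eg (D.F δ τ) n (fun x => 1 - Ag (D.Fr δ) x 0) ≤ C * q ^ 240 := by
    have b5 : BM (fun x : Fin n → T3 => Xg (fun z => 1 - D.Fc z) x 0) := by
      unfold Xg
      refine BM.finset_sum _ fun j _ => ?_
      exact ((BM.const 1).sub (BM.of_mem_Icc (hD.Fc_WD 0).sm.measurable
        fun x => ⟨hD.Fc_nonneg x, hD.Fc_le x⟩)).comp (measurable_sub' measurable_const (measurable_pi_apply j))
    have h1 := Eg_mono hF bA b5 fun x => (one_sub_Ag_Fr hD hδ hδ1 x 0).2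
    rw [Eg_Xg hF hZ.ne' ((BM.const 1).sub (BM.of_mem_Icc (hD.Fc_WD 0).sm.measurable
        fun x => ⟨hD.Fc_nonneg x, hD.Fc_le x⟩)) 0] at h1
    exact h1.trans (GDm_n_Ic h hn)
  have hS2 : Eg (D.F δ τ) n (fun x => (2 * τ * (Xg D.ul x 0 - n * D.uh 0)) ^ 2)
      ≤ 4 * (5 * C ^ 3 * q ^ 78) := by
    have h1 := varX_m h hs hδ hδ1 hτ hτ1 hn
    have h2 : (fun x : Fin n → T3 => (2 * τ * (Xg D.ul x 0 - n * D.uh 0)) ^ 2) =
        fun x => (4 * τ ^ 2) * (Xg D.ul x 0 - n * D.uh 0) ^ 2 := by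
      funext x
      ring
    rw [h2, Eg_const_mul]
    have h3 : τ ^ 2 ≤ 1 := pow_le_one₀ hτ hτ1
    have h4 : 0 ≤ Eg (D.F δ τ) n (fun x => (Xg D.ul x 0 - n * D.uh 0) ^ 2) :=
      Eg_nonneg hF fun x => sq_nonneg _
    nlinarith
  have s1 := star h hs S hδ hδ1 hτ hτ1 (m := 2) (by norm_num) le_rfl hn bA
    (fun x => (one_sub_Ag_Fr hD hδ hδ1 x 0).1) (B := 1) (fun x => by
      have hA0 : 0 ≤ Ag (D.Fr δ) x 0 :=
        Finset.prod_nonneg fun j _ => hδ.trans (Fr_bounds hD hδ hδ1 _).1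
      linarith) 0
  have s2 := star h hs S hδ hδ1 hτ hτ1 (m := 2) (by norm_num) le_rfl hn (bS.pow 2)
    (fun x => sq_nonneg _) (B := 16 * C ^ 4 / q ^ 244) (fun x => GH_S_le h hτ hτ1 hn x) 0
  have h5 := GH_num h hs
  linarith

end Pool.Agent.Lib.MP_4952d6_mp.M

end

/-! ### M.GI -/

section

set_option autoImplicit false
set_option linter.unusedSectionVars false
set_option linter.unusedVariables false
open MeasureTheory Function Filter Topology Set ComplexConjugate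

namespace Pool.Agent.Lib.MP_4952d6_mp.M

/-- `Z_{n+2} = Z_n ∫ F M_n`. -/
theorem Z_two {F : T3 → ℝ} (hF : GasFn lam3 F) {n : ℕ} (hZ2 : 0 < Zg F (n + 2)) :
    Zg F (n + 2) = Zg F n * ∫ z, F z * Mg F n z ∂lam3 := by
  have hpp := pp_int hF n hZ2
  have e : ∫ z, pp F n z ∂lam3 = (∫ z, F z * Mg F n z ∂lam3) * (Zg F n / Zg F (n + 2)) := by
    rw [← integral_mul_const]
    refine integral_congr_ae (Eventually.of_forall fun z => ?_)
    simp only [pp, yy]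
    ring
  rw [e] at hpp
  field_simp at hpp
  linarith

theorem GI_int_F {C q a : ℝ} {N : ℕ} {D : Dat} (hG : D.GDm C q a N) {δ τ : ℝ}
    (hδ : 0 ≤ δ) (hδ1 : δ ≤ 1) (hτ : 0 ≤ τ) (hτ1 : τ ≤ 1) (hN : 1 ≤ N) :
    ∫ z, (1 - D.F δ τ z) ∂lam3 ≤ 3 * C * q ^ 78 := by
  have hGas := F_gas hG.ok hδ hδ1 hτ
  have hu := ul_bm hG.ok
  have hF := hGas.bm
  have hc : BM (fun z => 1 - D.Fc z) := (BM.const 1).sub (BM.of_mem_Icc
    (hG.ok.Fc_WD 0).sm.measurable fun x => ⟨hG.ok.Fc_nonneg x, hG.ok.Fc_le x⟩)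
  have hpt : ∀ z, 1 - D.F δ τ z ≤ (1 - D.Fc z) + 2 * D.ul z := by
    intro z
    have h1 := one_sub_Fr hG.ok hδ hδ1 z
    have h2 := Fr_bounds hG.ok hδ hδ1 z
    have h3 := hG.ok.ul_nonneg z
    have h4 := Real.add_one_le_exp (-(2 * τ * D.ul z))
    have h5 : Real.exp (-(2 * τ * D.ul z)) ≤ 1 := Real.exp_le_one_iff.2 (by
      have := mul_nonneg hτ h3
      linarith)
    have h6 : D.F δ τ z = D.Fr δ z * Real.exp (-(2 * τ * D.ul z)) := rfl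
    have h7 := Real.exp_pos (-(2 * τ * D.ul z))
    have h8 : τ * D.ul z ≤ D.ul z := by nlinarith
    rw [h6]
    nlinarith
  have h1 : ∫ z, (1 - D.F δ τ z) ∂lam3 ≤ ∫ z, ((1 - D.Fc z) + 2 * D.ul z) ∂lam3 :=
    integral_mono (((BM.const 1).sub hF).integrable _)
      ((hc.add (hu.const_mul 2)).integrable _) hpt
  have h2 : ∫ z, ((1 - D.Fc z) + 2 * D.ul z) ∂lam3
      = (∫ z, (1 - D.Fc z) ∂lam3) + 2 * D.uh 0 := by
    rw [integral_add (hc.integrable _) ((hu.const_mul 2).integrable _), integral_const_mul,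
      ul_int hG.ok]
  have h3 : D.uh 0 ≤ C * q ^ 78 := by
    rw [← ul_int hG.ok]
    have h4 : ∫ z, D.ul z ∂lam3 ≤ ∫ _z : T3, C * q ^ 78 ∂lam3 :=
      integral_mono (hu.integrable _) (integrable_const _) hG.ul_le
    simpa using h4
  have h4 := GDm_n_Ic hG hN
  have hq0 := hG.q0
  have h5 : C * q ^ 240 ≤ C * q ^ 78 := mul_le_mul_of_nonneg_left
    (pow_le_pow_of_le_one hq0.le (GDm_q_le_one hG) (by norm_num)) (by linarith [hG.C1])
  rw [Nat.cast_one, one_mul] at h4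
  linarith

/-- Pointwise bound for `M`. -/
theorem GI_M {C q a : ℝ} {N : ℕ} {D : Dat} (h : D.GDm C q a N) (hs : Sm C q)
    {us uo : T3 → ℝ} {sh oh : (Fin 3 → ℤ) → ℝ} (S : Spl C q N D us uo sh oh) {δ τ : ℝ}
    (hδ : 0 ≤ δ) (hδ1 : δ ≤ 1) (hτ : 0 ≤ τ) (hτ1 : τ ≤ 1) {n : ℕ} (hn : n ≤ N) (z : T3) :
    |Mg (D.F δ τ) n z - rg (D.F δ τ) n ^ 2|
      ≤ (16000 * C ^ 3 * q ^ 78) * rg (D.F δ τ) n ^ 2 := by
  have hF := F_gas h.ok hδ hδ1 hτ
  have hZ := Zpos_m h hs hδ hδ1 hτ hτ1 (n := n) (by omega)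
  have h1 := Mg_sub_sq hF hZ.ne' z (Real.exp (-(2 * τ * n * D.uh 0)))
  have h2 := R2_m h hs S hδ hδ1 hτ hτ1 hn
  have h3 := R1_m h hs S hδ hδ1 hτ hτ1 hn
  have hC : 0 < C := by linarith [h.C1]
  have hq := h.q0
  obtain ⟨c, hc⟩ : ∃ c : ℝ, c = Real.exp (-(2 * τ * n * D.uh 0)) := ⟨_, rfl⟩
  have hc0 : 0 < c := by rw [hc]; exact Real.exp_pos _
  have h4 : c ≤ 2 * rg (D.F δ τ) n := by
    have h5 := mul_le_mul_of_nonneg_right h3 hc0.le
    have h6 : Real.exp (2 * τ * n * D.uh 0) * c = 1 := by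
      rw [hc, ← Real.exp_add, add_neg_cancel, Real.exp_zero]
    rw [mul_assoc, h6, mul_one] at h5
    linarith
  rw [← hc] at h1 h2
  have h5 : c ^ 2 ≤ (2 * rg (D.F δ τ) n) ^ 2 := pow_le_pow_left₀ hc0.le h4 2
  have h6 : c ^ 2 * (4000 * C ^ 3 * q ^ 78) ≤ (2 * rg (D.F δ τ) n) ^ 2 * (4000 * C ^ 3 * q ^ 78) :=
    mul_le_mul_of_nonneg_right h5 (by positivity)
  refine h1.trans (h2.trans (h6.trans (le_of_eq ?_)))
  ring

theorem GI_pows {C q a : ℝ} {N : ℕ} {D : Dat} (h : D.GDm C q a N) (hs : Sm C q) :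
    C ^ 3 * q ^ 78 ≤ 1 / 10 ^ 9 ∧ C * q ^ 78 ≤ C ^ 3 * q ^ 78 ∧ 0 ≤ C * q ^ 78 := by
  have hq := h.q0
  have hC := h.C1
  have h1 := GDm_small' h hs (k := 3) (by norm_num) 77
  have h2 : q ^ 77 ≤ 1 := pow_le_one₀ hq.le (GDm_q_le_one h)
  refine ⟨?_, ?_, by positivity⟩
  · linarith
  · exact mul_le_mul_of_nonneg_right (le_self_pow₀ hC (by norm_num)) (by positivity)

/-- `∫ F M_n ≥ (1 - 6 C q^78) r_n²`. -/
theorem GI_int {C q a : ℝ} {N : ℕ} {D : Dat} (h : D.GDm C q a N) (hs : Sm C q)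
    {us uo : T3 → ℝ} {sh oh : (Fin 3 → ℤ) → ℝ} (S : Spl C q N D us uo sh oh) {δ τ : ℝ}
    (hδ : 0 ≤ δ) (hδ1 : δ ≤ 1) (hτ : 0 ≤ τ) (hτ1 : τ ≤ 1) {n : ℕ} (hn : n + 2 ≤ N) :
    rg (D.F δ τ) n ^ 2 - 6 * (C * q ^ 78) * rg (D.F δ τ) n ^ 2
      ≤ ∫ z, D.F δ τ z * Mg (D.F δ τ) n z ∂lam3 := by
  have hF := F_gas h.ok hδ hδ1 hτ
  have hZ := Zpos_m h hs hδ hδ1 hτ hτ1 (n := n) (by omega)
  have hMb := Mg_bm hF n
  obtain ⟨p1, p2, p3⟩ := GI_pows h hs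
  obtain ⟨r2, hr2⟩ : ∃ r2 : ℝ, r2 = rg (D.F δ τ) n ^ 2 := ⟨_, rfl⟩
  have hr0 : 0 ≤ r2 := by rw [hr2]; positivity
  have hM : ∀ z, Mg (D.F δ τ) n z ≤ 2 * r2 := by
    intro z
    have h1 := (abs_le.1 (GI_M h hs S hδ hδ1 hτ hτ1 (n := n) (by omega) z)).2
    rw [← hr2] at h1
    have h2 : 16000 * C ^ 3 * q ^ 78 ≤ 1 := by nlinarith
    nlinarith
  have h1 := Mg_int_ge hF hZ.ne'
  have h2 := GI_int_F h hδ hδ1 hτ hτ1 (by omega)
  have hFM : BM (fun z => D.F δ τ z * Mg (D.F δ τ) n z) := hF.bm.mul hMb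
  have h3 : ∫ z, Mg (D.F δ τ) n z ∂lam3
      ≤ ∫ z, (D.F δ τ z * Mg (D.F δ τ) n z + (2 * r2) * (1 - D.F δ τ z)) ∂lam3 := by
    refine integral_mono (hMb.integrable _)
      ((hFM.add (((BM.const 1).sub hF.bm).const_mul (2 * r2))).integrable _) fun z => ?_
    have h4 := hM z
    have h5 := hF.le_one z
    simp only
    nlinarith
  rw [integral_add (hFM.integrable _) ((((BM.const 1).sub hF.bm).const_mul (2 * r2)).integrable _),
    integral_const_mul] at h3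
  rw [← hr2] at h1 ⊢
  have h4 : (2 * r2) * ∫ z, (1 - D.F δ τ z) ∂lam3 ≤ (2 * r2) * (3 * C * q ^ 78) :=
    mul_le_mul_of_nonneg_left h2 (by positivity)
  linarith

/-- `∫ F M_n ≥ r_n² / 2`. -/
theorem int_FM_ge {C q a : ℝ} {N : ℕ} {D : Dat} (h : D.GDm C q a N) (hs : Sm C q)
    {us uo : T3 → ℝ} {sh oh : (Fin 3 → ℤ) → ℝ} (S : Spl C q N D us uo sh oh) {δ τ : ℝ}
    (hδ : 0 ≤ δ) (hδ1 : δ ≤ 1) (hτ : 0 ≤ τ) (hτ1 : τ ≤ 1) {n : ℕ} (hn : n + 2 ≤ N) :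
    rg (D.F δ τ) n ^ 2 / 2 ≤ ∫ z, D.F δ τ z * Mg (D.F δ τ) n z ∂lam3 := by
  refine le_trans ?_ (GI_int h hs S hδ hδ1 hτ hτ1 hn)
  obtain ⟨p1, p2, p3⟩ := GI_pows h hs
  have hr0 : 0 ≤ rg (D.F δ τ) n ^ 2 := by positivity
  have h1 : 6 * (C * q ^ 78) ≤ 1 / 2 := by linarith
  have h2 := mul_le_mul_of_nonneg_right h1 hr0
  linarith

theorem yy1_m {C q a : ℝ} {N : ℕ} {D : Dat} (h : D.GDm C q a N) (hs : Sm C q)
    {us uo : T3 → ℝ} {sh oh : (Fin 3 → ℤ) → ℝ} (S : Spl C q N D us uo sh oh) {δ τ : ℝ}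
    (hδ : 0 ≤ δ) (hδ1 : δ ≤ 1) (hτ : 0 ≤ τ) (hτ1 : τ ≤ 1) {n : ℕ} (hn : n + 2 ≤ N) (z : T3) :
    |yy (D.F δ τ) n z - 1| ≤ 100000 * C ^ 3 * q ^ 78 := by
  have hF := F_gas h.ok hδ hδ1 hτ
  have hZn := Zpos_m h hs hδ hδ1 hτ hτ1 (n := n) (by omega)
  have hZ2 := Zpos_m h hs hδ hδ1 hτ hτ1 (n := n + 2) (by omega)
  have hMb := Mg_bm hF n
  have hM := GI_M h hs S hδ hδ1 hτ hτ1 (n := n) (by omega : n ≤ N)
  have hlo := GI_int h hs S hδ hδ1 hτ hτ1 hn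
  have hhalf := int_FM_ge h hs S hδ hδ1 hτ hτ1 hn
  have hR1 := R1_m h hs S hδ hδ1 hτ hτ1 (n := n) (by omega)
  obtain ⟨p1, p2, p3⟩ := GI_pows h hs
  have hZI := Z_two hF hZ2
  obtain ⟨F, hFd⟩ : ∃ F, F = D.F δ τ := ⟨_, rfl⟩
  rw [← hFd] at hF hZn hZ2 hMb hM hlo hhalf hR1 hZI ⊢
  obtain ⟨I, hI⟩ : ∃ I : ℝ, I = ∫ z, F z * Mg F n z ∂lam3 := ⟨_, rfl⟩
  rw [← hI] at hZI hlo hhalf
  obtain ⟨E, hE⟩ : ∃ E : ℝ, E = C ^ 3 * q ^ 78 := ⟨_, rfl⟩
  obtain ⟨r, hr⟩ : ∃ r : ℝ, r = rg F n := ⟨_, rfl⟩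
  rw [← hr] at hM hlo hhalf hR1
  have hr0 : 0 < r := by
    by_contra hc
    have h1 := mul_nonpos_of_nonpos_of_nonneg (not_lt.1 hc) (Real.exp_pos (2 * τ * n * D.uh 0)).le
    have h3 := hR1.trans h1
    norm_num at h3
  have hE0 : 0 ≤ E := by
    have := h.C1; have := h.q0; rw [hE]; positivity
  have hE16 : 16000 * C ^ 3 * q ^ 78 = 16000 * E := by rw [hE]; ring
  have hE100 : 100000 * C ^ 3 * q ^ 78 = 100000 * E := by rw [hE]; ring
  rw [hE16] at hM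
  rw [hE100]
  rw [← hE] at p1 p2
  have hI0 : 0 < I := by
    have : 0 < r ^ 2 / 2 := by positivity
    linarith
  have hup : I ≤ r ^ 2 + 16000 * E * r ^ 2 := by
    have h1 : I ≤ ∫ _z : T3, (r ^ 2 + 16000 * E * r ^ 2) ∂lam3 := by
      rw [hI]
      refine integral_mono ((hF.bm.mul hMb).integrable _) (integrable_const _) fun z => ?_
      have h2 := (abs_le.1 (hM z)).2
      have h3 := mul_le_mul_of_nonneg_right (hF.le_one z) (Mg_nonneg hF n z)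
      simp only
      linarith
    simpa using h1
  have hyy : yy F n z * I = Mg F n z := by
    unfold yy
    rw [hZI]
    field_simp
  have hdiff : |Mg F n z - I| ≤ 32006 * E * r ^ 2 := by
    have h1 := abs_le.1 (hM z)
    have h2 : 6 * (C * q ^ 78) * r ^ 2 ≤ 6 * E * r ^ 2 := by gcongr
    have h3 : 0 ≤ E * r ^ 2 := by positivity
    rw [abs_le]
    constructor <;> linarith [h1.1, h1.2]
  have h6 : |yy F n z - 1| * I ≤ 32006 * E * r ^ 2 := by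
    have e : |yy F n z - 1| * I = |Mg F n z - I| := by
      conv_lhs => rw [← abs_of_pos hI0]
      rw [← abs_mul, sub_mul, hyy, one_mul]
    rw [e]
    exact hdiff
  have h7 : |yy F n z - 1| * (r ^ 2 / 2) ≤ 32006 * E * r ^ 2 :=
    (mul_le_mul_of_nonneg_left hhalf (abs_nonneg _)).trans h6
  have h8 : |yy F n z - 1| * (r ^ 2 / 2) ≤ 100000 * E * (r ^ 2 / 2) := by
    have h3 : 0 ≤ E * r ^ 2 := by positivity
    linarith
  exact le_of_mul_le_mul_right h8 (by positivity)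

end Pool.Agent.Lib.MP_4952d6_mp.M

end

/-! ### M.GJ -/

section

set_option autoImplicit false
set_option linter.unusedSectionVars false
set_option linter.unusedVariables false
open MeasureTheory Function Filter Topology Set ComplexConjugate

namespace Pool.Agent.Lib.MP_4952d6_mp.M

/-- `(e^{-s} - e^{-t})² ≤ (s-t)² (e^{-2s} + e^{-2t})`. -/
theorem GJ_exp (s t : ℝ) :
    (Real.exp (-s) - Real.exp (-t)) ^ 2
      ≤ (s - t) ^ 2 * (Real.exp (-(2 * s)) + Real.exp (-(2 * t))) := by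
  wlog hst : s ≤ t generalizing s t
  · have := this t s (le_of_not_ge hst)
    calc (Real.exp (-s) - Real.exp (-t)) ^ 2 = (Real.exp (-t) - Real.exp (-s)) ^ 2 := by ring
      _ ≤ (t - s) ^ 2 * (Real.exp (-(2 * t)) + Real.exp (-(2 * s))) := this
      _ = _ := by ring
  have e1 : Real.exp (-t) = Real.exp (-s) * Real.exp (-(t - s)) := by
    rw [← Real.exp_add]; congr 1; ring
  have e2 : Real.exp (-(2 * s)) = Real.exp (-s) ^ 2 := by
    rw [← Real.exp_nat_mul]; congr 1; push_cast; ring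
  have h1 := Real.add_one_le_exp (-(t - s))
  have h2 : Real.exp (-(t - s)) ≤ 1 := Real.exp_le_one_iff.2 (by linarith)
  have h3 : (1 - Real.exp (-(t - s))) ^ 2 ≤ (t - s) ^ 2 :=
    pow_le_pow_left₀ (by linarith) (by linarith) 2
  have h4 := Real.exp_pos (-(2 * t))
  rw [e2, e1]
  have h5 : (Real.exp (-s) - Real.exp (-s) * Real.exp (-(t - s))) ^ 2
      = Real.exp (-s) ^ 2 * (1 - Real.exp (-(t - s))) ^ 2 := by ring
  rw [h5]
  have h6 : 0 ≤ Real.exp (-s) ^ 2 := by positivity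
  have h7 := mul_le_mul_of_nonneg_left h3 h6
  have h8 : 0 ≤ (s - t) ^ 2 * Real.exp (-(2 * t)) := by positivity
  nlinarith

/-- Pointwise estimate. -/
theorem GJ_sq {c₀ c₁ s t : ℝ} (h0 : 0 ≤ c₀) (h0' : 0 ≤ 1 - c₀) (h1 : 0 ≤ c₁) (h1' : 0 ≤ 1 - c₁) :
    (c₀ * Real.exp (-s) - c₁ * Real.exp (-t)) ^ 2
      ≤ 3 * ((s - t) ^ 2 * Real.exp (-(2 * s))) + 3 * ((s - t) ^ 2 * Real.exp (-(2 * t)))
        + 3 * ((1 - c₀) * Real.exp (-(2 * s))) + 3 * ((1 - c₁) * Real.exp (-(2 * t))) := by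
  have hE := GJ_exp s t
  have e2 : ∀ s : ℝ, Real.exp (-(2 * s)) = Real.exp (-s) ^ 2 := fun s => by
    rw [← Real.exp_nat_mul]; congr 1; push_cast; ring
  have g : ∀ (c s : ℝ), 0 ≤ c → 0 ≤ 1 - c →
      ((1 - c) * Real.exp (-s)) ^ 2 ≤ (1 - c) * Real.exp (-(2 * s)) := by
    intro c s hc hc'
    rw [mul_pow, e2]
    refine mul_le_mul_of_nonneg_right ?_ (by positivity)
    nlinarith
  have g0 := g c₀ s h0 h0'
  have g1 := g c₁ t h1 h1'
  have e : c₀ * Real.exp (-s) - c₁ * Real.exp (-t)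
      = (Real.exp (-s) - Real.exp (-t)) - (1 - c₀) * Real.exp (-s) + (1 - c₁) * Real.exp (-t) := by
    ring
  rw [e]
  set u := Real.exp (-s) - Real.exp (-t)
  set v := (1 - c₀) * Real.exp (-s)
  set w := (1 - c₁) * Real.exp (-t)
  nlinarith [sq_nonneg (u + v), sq_nonneg (u - w), sq_nonneg (v + w)]

theorem GJ_Xg_bd {C q a : ℝ} {N : ℕ} {D : Dat} (h : D.GDm C q a N) {n : ℕ} (hn : n ≤ N)
    (x : Fin n → T3) (y : T3) :
    0 ≤ Xg D.ul x y ∧ Xg D.ul x y ≤ C ^ 2 / q ^ 122 := by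
  have hC := h.C1
  have hq := h.q0
  refine ⟨Finset.sum_nonneg fun j _ => h.ok.ul_nonneg _, ?_⟩
  have h1 : Xg D.ul x y ≤ ∑ _j : Fin n, C * q ^ 78 := Finset.sum_le_sum fun j _ => h.ul_le _
  rw [Finset.sum_const, Finset.card_univ, Fintype.card_fin, nsmul_eq_mul] at h1
  have hnN : (n : ℝ) ≤ N := Nat.cast_le.2 hn
  refine h1.trans ?_
  rw [le_div_iff₀ (by positivity)]
  calc (n : ℝ) * (C * q ^ 78) * q ^ 122 ≤ N * (C * q ^ 78) * q ^ 122 := by gcongr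
    _ = C * (N * q ^ 200) := by ring
    _ ≤ C * C := mul_le_mul_of_nonneg_left h.NqU (by linarith)
    _ = C ^ 2 := by ring

theorem ydiff_m {C q a : ℝ} {N : ℕ} {D : Dat} (h : D.GDm C q a N) (hs : Sm C q)
    {us uo : T3 → ℝ} {sh oh : (Fin 3 → ℤ) → ℝ} (S : Spl C q N D us uo sh oh) {n : ℕ}
    (hn : n + 2 ≤ N) (z : T3) :
    yy (D.F 0 1) n 0 - yy (D.F 0 1) n z
      ≤ 10000 * Eg (D.F 0 1) n (fun x => (Xg D.ul x 0 - Xg D.ul x z) ^ 2) + C * q ^ 230 := by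
  have hD := h.ok
  have hC := h.C1
  have hq := h.q0
  have hF : GasFn lam3 (D.F 0 1) := F_gas hD le_rfl zero_le_one zero_le_one
  have hnN : n ≤ N := by omega
  have hZn := Zpos_m h hs le_rfl zero_le_one zero_le_one le_rfl (n := n) (by omega)
  have hZ2 := Zpos_m h hs le_rfl zero_le_one zero_le_one le_rfl (n := n + 2) (by omega)
  have hR1 := R1_m h hs S le_rfl zero_le_one zero_le_one le_rfl hnN
  have hhalf := int_FM_ge h hs S le_rfl zero_le_one zero_le_one le_rfl hn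
  have hZI := Z_two hF hZ2
  have hMd := Mg_diff hF n z
  obtain ⟨I, hI⟩ : ∃ I : ℝ, I = ∫ z, D.F 0 1 z * Mg (D.F 0 1) n z ∂lam3 := ⟨_, rfl⟩
  rw [← hI] at hZI hhalf
  obtain ⟨r, hr⟩ : ∃ r : ℝ, r = rg (D.F 0 1) n := ⟨_, rfl⟩
  rw [← hr] at hhalf hR1
  obtain ⟨c, hc⟩ : ∃ c : ℝ, c = Real.exp (-(2 * n * D.uh 0)) := ⟨_, rfl⟩
  have hc0 : 0 < c := by rw [hc]; exact Real.exp_pos _
  have hcr : c ≤ 2 * r := by
    have h5 := mul_le_mul_of_nonneg_right hR1 hc0.le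
    have h6 : Real.exp (2 * 1 * n * D.uh 0) * c = 1 := by
      rw [hc, ← Real.exp_add]
      have : 2 * 1 * (n:ℝ) * D.uh 0 + -(2 * n * D.uh 0) = 0 := by ring
      rw [this, Real.exp_zero]
    rw [mul_assoc, h6, mul_one] at h5
    linarith
  have hr0 : 0 < r := by linarith
  have hI0 : 0 < I := by
    have : 0 < r ^ 2 / 2 := by positivity
    linarith
  -- the expectation of the square
  obtain ⟨E, hE⟩ : ∃ E : ℝ, E = Eg (D.F 0 1) n (fun x => (Xg D.ul x 0 - Xg D.ul x z) ^ 2) :=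
    ⟨_, rfl⟩
  have hFc : BM (fun z => 1 - D.Fc z) := (BM.const 1).sub (BM.of_mem_Icc
    (hD.Fc_WD 0).sm.measurable fun x => ⟨hD.Fc_nonneg x, hD.Fc_le x⟩)
  have bX : ∀ y, BM (fun x : Fin n → T3 => Xg D.ul x y) := fun y => Xg_bm hD n y
  have bS : BM (fun x : Fin n → T3 => 4 * (Xg D.ul x 0 - Xg D.ul x z) ^ 2) :=
    (((bX 0).sub (bX z)).pow 2).const_mul 4
  have hF0 : GasFn lam3 (D.F 0 0) := F_gas hD le_rfl zero_le_one le_rfl
  have eF0 : D.F 0 0 = D.Fr 0 := by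
    ext x
    simp [Dat.F]
  have bAc : ∀ y, BM (fun x : Fin n → T3 => 1 - Ag (D.Fr 0) x y) := by
    intro y
    rw [← eF0]
    exact (BM.const 1).sub ((Ag_bm hF0 n).comp (measurable_id.prodMk measurable_const))
  have hAc0 : ∀ (y : T3) (x : Fin n → T3), 0 ≤ 1 - Ag (D.Fr 0) x y := fun y x =>
    (one_sub_Ag_Fr hD (δ := 0) le_rfl zero_le_one x y).1
  have hAcn : ∀ (y : T3) (x : Fin n → T3), 0 ≤ Ag (D.Fr 0) x y := fun y x =>
    Finset.prod_nonneg fun j _ => (Fr_bounds hD le_rfl zero_le_one (y - x j)).1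
  have hAc1 : ∀ (y : T3) (x : Fin n → T3), 1 - Ag (D.Fr 0) x y ≤ 1 := fun y x => by
    have := hAcn y x; linarith
  have hAcE : ∀ y : T3, Eg (D.F 0 1) n (fun x => 1 - Ag (D.Fr 0) x y) ≤ C * q ^ 240 := by
    intro y
    have h1 := Eg_mono hF (bAc y) (GE_bm hFc n y)
      (fun x => (one_sub_Ag_Fr hD (δ := 0) le_rfl zero_le_one x y).2)
    rw [Eg_Xg hF hZn.ne' hFc] at h1
    exact h1.trans (GDm_n_Ic h hnN)
  have hSB : ∀ x : Fin n → T3, 4 * (Xg D.ul x 0 - Xg D.ul x z) ^ 2 ≤ 4 * (C ^ 2 / q ^ 122) ^ 2 := by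
    intro x
    have a0 := GJ_Xg_bd h hnN x 0
    have a1 := GJ_Xg_bd h hnN x z
    have a2 : |Xg D.ul x 0 - Xg D.ul x z| ≤ C ^ 2 / q ^ 122 := by
      rw [abs_le]; constructor <;> linarith [a0.1, a0.2, a1.1, a1.2]
    have a3 := pow_le_pow_left₀ (abs_nonneg _) a2 2
    rw [sq_abs] at a3
    linarith
  have st : ∀ y : T3, Eg (D.F 0 1) n (fun x => 4 * (Xg D.ul x 0 - Xg D.ul x z) ^ 2
      * Real.exp (-(2 * (2 * 1 * (Xg D.ul x y - n * D.uh 0)))))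
      ≤ 60 * (4 * E) + 120 * (4 * (C ^ 2 / q ^ 122) ^ 2) * q ^ 1500 := by
    intro y
    have h1 := star h hs S le_rfl zero_le_one zero_le_one le_rfl (m := 2) (by norm_num) le_rfl hnN
      bS (fun x => by positivity) hSB y
    rw [Eg_const_mul, ← hE] at h1
    exact h1
  have st2 : ∀ y : T3, Eg (D.F 0 1) n (fun x => (1 - Ag (D.Fr 0) x y)
      * Real.exp (-(2 * (2 * 1 * (Xg D.ul x y - n * D.uh 0)))))
      ≤ 60 * (C * q ^ 240) + 120 * q ^ 1500 := by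
    intro y
    have h1 := star h hs S le_rfl zero_le_one zero_le_one le_rfl (m := 2) (by norm_num) le_rfl hnN
      (bAc y) (hAc0 y) (hAc1 y) y
    have h2 := hAcE y
    linarith
  have bE : ∀ y : T3, BM (fun x : Fin n → T3 =>
      Real.exp (-(2 * (2 * 1 * (Xg D.ul x y - n * D.uh 0))))) := fun y =>
    GE_exp_bm (GE_neg ((((bX y).sub (BM.const _)).const_mul (2 * 1)).const_mul 2))
  have hpt : ∀ x : Fin n → T3, (Ag (D.F 0 1) x 0 - Ag (D.F 0 1) x z) ^ 2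
      ≤ c ^ 2 * (3 * (4 * (Xg D.ul x 0 - Xg D.ul x z) ^ 2
          * Real.exp (-(2 * (2 * 1 * (Xg D.ul x 0 - n * D.uh 0)))))
        + 3 * (4 * (Xg D.ul x 0 - Xg D.ul x z) ^ 2
          * Real.exp (-(2 * (2 * 1 * (Xg D.ul x z - n * D.uh 0)))))
        + 3 * ((1 - Ag (D.Fr 0) x 0) * Real.exp (-(2 * (2 * 1 * (Xg D.ul x 0 - n * D.uh 0)))))
        + 3 * ((1 - Ag (D.Fr 0) x z) * Real.exp (-(2 * (2 * 1 * (Xg D.ul x z - n * D.uh 0)))))) := by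
    intro x
    have hA : ∀ y, Ag (D.F 0 1) x y
        = c * (Ag (D.Fr 0) x y * Real.exp (-(2 * 1 * (Xg D.ul x y - n * D.uh 0)))) := by
      intro y
      rw [Ag_F hD 0 1 x y, hc, mul_left_comm, ← Real.exp_add]
      congr 2
      ring
    rw [hA 0, hA z, ← mul_sub, mul_pow]
    refine mul_le_mul_of_nonneg_left ?_ (by positivity)
    have h1 := GJ_sq (s := 2 * 1 * (Xg D.ul x 0 - n * D.uh 0))
      (t := 2 * 1 * (Xg D.ul x z - n * D.uh 0)) (hAcn 0 x) (hAc0 0 x) (hAcn z x) (hAc0 z x)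
    have e : (2 * 1 * (Xg D.ul x 0 - n * D.uh 0) - 2 * 1 * (Xg D.ul x z - n * D.uh 0)) ^ 2
        = 4 * (Xg D.ul x 0 - Xg D.ul x z) ^ 2 := by ring
    rw [e] at h1
    exact h1
  have b1 := ((bS.mul (bE 0)).const_mul 3)
  have b2 := ((bS.mul (bE z)).const_mul 3)
  have b3 := (((bAc 0).mul (bE 0)).const_mul 3)
  have b4 := (((bAc z).mul (bE z)).const_mul 3)
  have bA : ∀ y, BM (fun x : Fin n → T3 => Ag (D.F 0 1) x y) := fun y =>
    (Ag_bm hF n).comp (measurable_id.prodMk measurable_const)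
  have hsq := Eg_mono hF (((bA 0).sub (bA z)).pow 2) ((((b1.add b2).add b3).add b4).const_mul (c ^ 2))
    hpt
  rw [Eg_const_mul, Eg_add hF ((b1.add b2).add b3) b4, Eg_add hF (b1.add b2) b3, Eg_add hF b1 b2,
    Eg_const_mul, Eg_const_mul, Eg_const_mul, Eg_const_mul] at hsq
  obtain ⟨Q, hQ⟩ : ∃ Q : ℝ, Q = 6 * (60 * (4 * E) + 120 * (4 * (C ^ 2 / q ^ 122) ^ 2) * q ^ 1500)
    + 6 * (60 * (C * q ^ 240) + 120 * q ^ 1500) := ⟨_, rfl⟩
  have hsq2 : Eg (D.F 0 1) n (fun x => (Ag (D.F 0 1) x 0 - Ag (D.F 0 1) x z) ^ 2) ≤ c ^ 2 * Q := by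
    refine hsq.trans (mul_le_mul_of_nonneg_left ?_ (by positivity))
    rw [hQ]
    have h30 : (0:ℝ) ≤ 3 := by norm_num
    exact (add_le_add (add_le_add (add_le_add (mul_le_mul_of_nonneg_left (st 0) h30)
      (mul_le_mul_of_nonneg_left (st z) h30)) (mul_le_mul_of_nonneg_left (st2 0) h30))
      (mul_le_mul_of_nonneg_left (st2 z) h30)).trans (le_of_eq (by ring))
  have hE0 : 0 ≤ E := by rw [hE]; exact Eg_nonneg hF fun x => sq_nonneg _
  have hQ0 : 0 ≤ Q := by rw [hQ]; positivity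
  -- from `M` to `yy`
  have hyy : ∀ z, yy (D.F 0 1) n z = Mg (D.F 0 1) n z / I := by
    intro z
    unfold yy
    rw [hZI]
    field_simp
  rw [hyy 0, hyy z, ← sub_div, hMd]
  have h1 : 1 / 2 * Eg (D.F 0 1) n (fun x => (Ag (D.F 0 1) x 0 - Ag (D.F 0 1) x z) ^ 2) / I
      ≤ 4 * Q := by
    rw [div_le_iff₀ hI0]
    have h2 : c ^ 2 ≤ (2 * r) ^ 2 := pow_le_pow_left₀ hc0.le hcr 2
    have h3 : c ^ 2 * Q ≤ (2 * r) ^ 2 * Q := mul_le_mul_of_nonneg_right h2 hQ0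
    have h4 : 4 * Q * (r ^ 2 / 2) ≤ 4 * Q * I := mul_le_mul_of_nonneg_left hhalf (by positivity)
    have h5 : (2 * r) ^ 2 * Q = 2 * (4 * Q * (r ^ 2 / 2)) := by ring
    rw [h5] at h3
    have h6 := hsq2.trans h3
    calc 1 / 2 * Eg (D.F 0 1) n (fun x => (Ag (D.F 0 1) x 0 - Ag (D.F 0 1) x z) ^ 2)
        ≤ 1 / 2 * (2 * (4 * Q * (r ^ 2 / 2))) := mul_le_mul_of_nonneg_left h6 (by norm_num)
      _ = 4 * Q * (r ^ 2 / 2) := by ring
      _ ≤ 4 * Q * I := h4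
  refine h1.trans ?_
  rw [hQ]
  -- numerics
  have hsm := GDm_q_small h hs
  have hC3 : C ^ 3 * q ≤ 1 / 10 ^ 9 := GDm_small h hs (by norm_num)
  have n1 : (C ^ 2 / q ^ 122) ^ 2 * q ^ 1500 = C * (C ^ 3 * q) * q ^ 1255 := by
    field_simp
  have q1 := GDm_q_le_one h
  have n2 : (C ^ 2 / q ^ 122) ^ 2 * q ^ 1500 ≤ 1 / 10 ^ 9 * (C * q ^ 230) := by
    rw [n1]
    have : q ^ 1255 ≤ q ^ 230 := pow_le_pow_of_le_one hq.le q1 (by norm_num)
    calc C * (C ^ 3 * q) * q ^ 1255 ≤ C * (1 / 10 ^ 9) * q ^ 230 := by gcongr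
      _ = 1 / 10 ^ 9 * (C * q ^ 230) := by ring
  have n3 : C * q ^ 240 ≤ 1 / 10 ^ 9 * (C * q ^ 230) := by
    have h5 : q ^ 10 ≤ q := pow_le_of_le_one hq.le q1 (by norm_num)
    calc C * q ^ 240 = q ^ 10 * (C * q ^ 230) := by ring
      _ ≤ 1 / 10 ^ 9 * (C * q ^ 230) := by
        refine mul_le_mul_of_nonneg_right (h5.trans hsm) (by positivity)
  have n4 : q ^ 1500 ≤ 1 / 10 ^ 9 * (C * q ^ 230) := by
    have h5 : q ^ 1500 ≤ q ^ 240 := pow_le_pow_of_le_one hq.le q1 (by norm_num)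
    have h6 : q ^ 240 ≤ C * q ^ 240 := le_mul_of_one_le_left (by positivity) hC
    linarith
  have n5 : 0 ≤ C * q ^ 230 := by positivity
  linarith

end Pool.Agent.Lib.MP_4952d6_mp.M

end

/-! ### M.GK -/

section

set_option autoImplicit false
set_option linter.unusedSectionVars false
set_option linter.unusedVariables false
open MeasureTheory Function Filter Topology Set

namespace Pool.Agent.Lib.MP_4952d6_mp.M

/-- Collect the crude bounds. -/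
theorem gasOKm {C q a : ℝ} {N : ℕ} {D : Dat} (h : D.GDm C q a N)
    {us uo : T3 → ℝ} {sh oh : (Fin 3 → ℤ) → ℝ} (S : Spl C q N D us uo sh oh)
    (he : Real.exp (-(1 / q)) ≤ q ^ 1500)
    (hK : (100000 * C ^ 3) ^ 20 * q ≤ 1 / 1000) : GasOKm (100000 * C ^ 3) q a N D := by
  have hC := h.C1
  have hq := h.q0
  have hC3 : 1 ≤ C ^ 3 := one_le_pow₀ hC
  have hCC3 : C ≤ C ^ 3 := le_self_pow₀ hC (by norm_num)
  have hC23 : C ^ 2 ≤ C ^ 3 := pow_le_pow_right₀ hC (by norm_num)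
  have hs : Sm C q := by
    refine ⟨?_, he⟩
    have h1 : C ^ 8 ≤ C ^ 60 := pow_le_pow_right₀ hC (by norm_num)
    have h2 : (100000 * C ^ 3) ^ 20 * q = 100000 ^ 20 * (C ^ 60 * q) := by ring
    rw [h2] at hK
    have h3 : C ^ 8 * q ≤ C ^ 60 * q := mul_le_mul_of_nonneg_right h1 hq.le
    have h4 : (0:ℝ) ≤ C ^ 60 * q := by positivity
    have h5 : (10:ℝ) ^ 9 * (C ^ 60 * q) ≤ 100000 ^ 20 * (C ^ 60 * q) :=
      mul_le_mul_of_nonneg_right (by norm_num) h4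
    have h6 : (10:ℝ) ^ 9 * (C ^ 8 * q) ≤ 1 := by linarith
    rw [le_div_iff₀ (by norm_num)]
    linarith
  have k1 : C ≤ 100000 * C ^ 3 := by linarith
  have k2 : 5 * C ^ 2 ≤ 100000 * C ^ 3 := by linarith
  have k3 : 5 * C ^ 3 ≤ 100000 * C ^ 3 := by linarith
  refine ⟨GDm_mono h k1, hK, ?_, ?_, ?_, ?_, ?_, ?_, ?_⟩
  · intro δ τ d0 d1 t0 t1 n hn
    exact Zpos_m h hs d0 d1 t0 t1 hn
  · intro n hn
    have h1 := R1_m h hs S le_rfl zero_le_one zero_le_one le_rfl hn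
    by_contra hc
    have h2 := mul_nonpos_of_nonpos_of_nonneg (not_lt.1 hc) (Real.exp_pos (2 * 1 * n * D.uh 0)).le
    have h3 := h1.trans h2
    norm_num at h3
  · intro δ τ d0 d1 t0 t1 n hn1 hn
    obtain ⟨s1, s2⟩ := uS_m h hs d0 d1 t0 t1 hn1 hn
    exact ⟨s1, s2.trans (mul_le_mul_of_nonneg_right k2 (by positivity))⟩
  · intro δ τ d0 d1 t0 t1 n hn
    exact (varX_m h hs d0 d1 t0 t1 hn).trans (mul_le_mul_of_nonneg_right k3 (by positivity))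
  · intro δ τ d0 d1 t0 t1 n hn z
    exact yy1_m h hs S d0 d1 t0 t1 hn z
  · intro k hk
    have h1 := R1s_m h hs S hk
    have h2 : C * q ^ 220 ≤ 100000 * C ^ 3 * q ^ 220 :=
      mul_le_mul_of_nonneg_right k1 (by positivity)
    linarith
  · intro n hn z
    have h1 := ydiff_m h hs S hn z
    have h2 : C * q ^ 230 ≤ 100000 * C ^ 3 * q ^ 230 :=
      mul_le_mul_of_nonneg_right k1 (by positivity)
    linarith

end Pool.Agent.Lib.MP_4952d6_mp.M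

end

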