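import Pool.Agent.Lib.MP_4952d6_mp.Pk.G26
import Pool.Agent.Lib.MP_4952d6_mp.Pm.M02
import Pool.Agent.Lib.MP_4952d6_mp.Pm.M08

/-! Merged modules (to save import time): M.PGD. -/

/-! ### M.PGD -/

section

/-!
# PGD: the quantitative bounds, mesoscopic regime

As `DGD`, with the constant `A / κ ^ 4` and `a ≤ q ^ 200 / 8`: `a³ ≤ q^600`, `N q^200 = 1 / l³` between `512` and `1 / κ²` (`κ ≤ l²`).
-/

set_option autoImplicit false
set_option linter.unusedSectionVars false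
set_option linter.unusedVariables false
open MeasureTheory Function Filter Topology Set
open scoped ENNReal

namespace Pool.Agent.Lib.MP_4952d6_mp.M


section
variable {κ q a θ R₀ R : ℝ} {W f Q : ℝ → ℝ} {N : ℕ}

lemma DGD_M (h : Reg W R₀ R a f Q θ q) : 0 ≤ 4 * Real.pi * auq q a ∧
    4 * Real.pi * auq q a ≤ 8 * Real.pi * a := by
  have ha := h.a_pos
  have h1 := one_le_alq h.q_pos h.q_le
  have h2 := alq_le_two h.q_pos h.q_le
  have h0 : 0 ≤ alq q := by linarith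
  have hπ := Real.pi_pos
  unfold auq
  constructor
  · positivity
  · nlinarith [mul_le_mul_of_nonneg_left h2 (mul_pos hπ ha).le]

lemma DGD_Nq3 (h : Reg W R₀ R a f Q θ q) (hN : (N : ℝ) * a ^ 3 = q ^ 400) :
    (N : ℝ) * q ^ 200 = 1 / lq q a ^ 3 := by
  have hq := h.q_pos
  have ha := h.a_pos
  have h3 : (N : ℝ) = q ^ 400 / a ^ 3 := by
    rw [eq_div_iff (pow_ne_zero 3 ha.ne')]; exact hN
  rw [h3]
  unfold lq
  field_simp

lemma DGD_Nq (h : Reg W R₀ R a f Q θ q) (hN : (N : ℝ) * a ^ 3 = q ^ 400) :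
    512 ≤ (N : ℝ) * q ^ 200 := by
  rw [DGD_Nq3 h hN, le_div_iff₀ (pow_pos h.l_pos 3)]
  have h1 : lq q a ^ 3 ≤ (1 / 8) ^ 3 := pow_le_pow_left₀ h.l_pos.le h.lq_le 3
  linarith

lemma DGD_NqU {κ : ℝ} (hκ : 0 < κ) (h : Reg W R₀ R a f Q θ q) (hκl : κ ≤ lq q a ^ 2)
    (hN : (N : ℝ) * a ^ 3 = q ^ 400) : (N : ℝ) * q ^ 200 ≤ 1 / κ ^ 2 := by
  rw [DGD_Nq3 h hN]
  refine one_div_le_one_div_of_le (by positivity) ?_
  calc κ ^ 2 ≤ (lq q a ^ 2) ^ 2 := pow_le_pow_left₀ hκ.le hκl 2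
    _ = lq q a ^ 4 := by ring
    _ ≤ lq q a ^ 3 := pow_le_pow_of_le_one h.l_pos.le h.lq_le_one (by norm_num)

lemma DGD_uh0 (hκ : 0 < κ) (h : Reg W R₀ R a f Q θ q) (hN : (N : ℝ) * a ^ 3 = q ^ 400) :
    (N : ℝ) * mixh (omu κ q a) (tq q a) 0 ≤ 8 * Real.pi / κ ^ 2 := by
  have hM := DGD_M h
  have hl := DGD_lq_pos h.q_pos h.a_pos
  have h1 := mixh_zero_le (omu_ok hκ h.q_pos h.q_le h.a_pos)
  calc (N : ℝ) * mixh (omu κ q a) (tq q a) 0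
      ≤ N * ((4 * Real.pi * auq q a) / (κ ^ 2 / lq q a ^ 2)) := by gcongr
    _ ≤ N * ((8 * Real.pi * a) / (κ ^ 2 / lq q a ^ 2)) := by
        gcongr N * (?_ / _)
        exact hM.2
    _ = 8 * Real.pi / κ ^ 2 * (N * a * lq q a ^ 2) := by field_simp
    _ = 8 * Real.pi / κ ^ 2 := by rw [DGD_Nal h.q_pos hN, mul_one]

lemma DGD_ul (hκ : 0 < κ) (h : Reg W R₀ R a f Q θ q) (x : T3) :
    mix0 (omu κ q a) (tq q a) x ≤ 32 * Real.pi * (1 / κ ^ 2 + 1) * q ^ 78 := by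
  have hM := DGD_M h
  have hq := h.q_pos
  have ha := h.a_pos
  have hπ := Real.pi_pos
  have hl := DGD_lq_pos hq ha
  have hl1 := h.lq_le_one
  have h1 := mix0_le (omu_ok hκ h.q_pos h.q_le h.a_pos) x
  rw [sqrt_tq hq ha] at h1
  have h2 : a * lq q a ^ 2 ≤ q ^ 78 := by
    calc a * lq q a ^ 2 ≤ a * 1 := by
          gcongr
          exact pow_le_one₀ hl.le hl1
      _ ≤ q ^ 78 := by rw [mul_one]; exact h.a_le.trans (DGD_pow hq h.q_le (by norm_num))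
  calc mix0 (omu κ q a) (tq q a) x
      ≤ 4 * (4 * Real.pi * auq q a) * (1 / (κ ^ 2 / lq q a ^ 2) + 1 / (a / q ^ 79)) := h1
    _ ≤ 4 * (8 * Real.pi * a) * (1 / (κ ^ 2 / lq q a ^ 2) + 1 / (a / q ^ 79)) := by
        gcongr ?_ * _
        linarith [hM.2]
    _ = 32 * Real.pi * (1 / κ ^ 2 * (a * lq q a ^ 2) + q ^ 79) := by field_simp; ring
    _ ≤ 32 * Real.pi * (1 / κ ^ 2 * q ^ 78 + q ^ 78) := by
        gcongr 32 * Real.pi * (1 / κ ^ 2 * ?_ + ?_)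
        exact DGD_pow hq h.q_le (by norm_num)
    _ = 32 * Real.pi * (1 / κ ^ 2 + 1) * q ^ 78 := by ring

lemma DGD_sq (hκ : 0 < κ) (h : Reg W R₀ R a f Q θ q) (hN : (N : ℝ) * a ^ 3 = q ^ 400) :
    (N : ℝ) * ∑' p, mixh (omu κ q a) (tq q a) p ^ 2
      ≤ 256 * Real.pi ^ 2 * (1 / κ ^ 4 + 4 / κ) * q ^ 200 := by
  have hM := DGD_M h
  have hq := h.q_pos
  have ha := h.a_pos
  have hπ := Real.pi_pos
  have hl := DGD_lq_pos hq ha
  have hl1 := h.lq_le_one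
  have hok := omu_ok hκ h.q_pos h.q_le h.a_pos
  have h1 := (mixh_mul_tsum hok hok).2
  rw [DGD_sqrtc hκ hq ha] at h1
  have h0 : ∑' p, mixh (omu κ q a) (tq q a) p ^ 2
      = ∑' p, mixh (omu κ q a) (tq q a) p * mixh (omu κ q a) (tq q a) p := by
    refine tsum_congr fun p => ?_
    rw [sq]
  rw [h0]
  have h3 : lq q a ^ 3 ≤ 1 := pow_le_one₀ hl.le hl1
  calc (N : ℝ) * ∑' p, mixh (omu κ q a) (tq q a) p * mixh (omu κ q a) (tq q a) p
      ≤ N * (4 * (4 * Real.pi * auq q a) * (4 * Real.pi * auq q a)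
        * (1 / (κ ^ 2 / lq q a ^ 2 * (κ ^ 2 / lq q a ^ 2)) + 4 / (κ / lq q a))) := by gcongr
    _ ≤ N * (4 * (8 * Real.pi * a) * (8 * Real.pi * a)
        * (1 / (κ ^ 2 / lq q a ^ 2 * (κ ^ 2 / lq q a ^ 2)) + 4 / (κ / lq q a))) := by
        gcongr N * (4 * ?_ * ?_ * _)
        · exact hM.1
        · exact hM.2
        · exact hM.2
    _ = 256 * Real.pi ^ 2 * (1 / κ ^ 4 * lq q a ^ 3 + 4 / κ) * (N * a ^ 2 * lq q a) := by
        field_simp; ring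
    _ = 256 * Real.pi ^ 2 * (1 / κ ^ 4 * lq q a ^ 3 + 4 / κ) * q ^ 200 := by
        rw [DGD_Nal2 hq hN]
    _ ≤ 256 * Real.pi ^ 2 * (1 / κ ^ 4 * 1 + 4 / κ) * q ^ 200 := by gcongr
    _ = 256 * Real.pi ^ 2 * (1 / κ ^ 4 + 4 / κ) * q ^ 200 := by ring

lemma DGD_inv {C₁ : ℝ} (hC₁ : 0 ≤ C₁) (hκ : 0 < κ) (hκ1 : κ ≤ 1) (h : Reg W R₀ R a f Q θ q)
    (hb : ∀ (ω : ℝ → ℝ) (t M c : ℝ), MixOk ω t M c → c * t ≤ 1 → 0 ≤ M →
      Summable (fun p => mixh ω t p / Real.sqrt (ksq p)) ∧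
      ∑' p, mixh ω t p / Real.sqrt (ksq p) ≤ C₁ * M * (1 + Real.log (1 / (c * t)))) :
    Summable (fun p => mixh (omu κ q a) (tq q a) p / Real.sqrt (ksq p)) ∧
    ∑' p, mixh (omu κ q a) (tq q a) p / Real.sqrt (ksq p)
      ≤ 8 * Real.pi * C₁ * (243 + 2 / κ) * a / q := by
  have hM := DGD_M h
  have hq := h.q_pos
  have ha := h.a_pos
  have hπ := Real.pi_pos
  have hct := DGD_ct hκ hq ha
  have hct1 : κ ^ 2 / lq q a ^ 2 * tq q a ≤ 1 := by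
    rw [hct]
    exact mul_le_one₀ (pow_le_one₀ hκ.le hκ1) (by positivity)
      (pow_le_one₀ hq.le (by linarith [h.q_le]))
  obtain ⟨h1, h2⟩ := hb _ _ _ _ (omu_ok hκ h.q_pos h.q_le h.a_pos) hct1 hM.1
  refine ⟨h1, h2.trans ?_⟩
  rw [hct]
  have hlog := DGD_log hκ hκ1 hq h.q_le
  calc C₁ * (4 * Real.pi * auq q a) * (1 + Real.log (1 / (κ ^ 2 * q ^ 242)))
      ≤ C₁ * (4 * Real.pi * auq q a) * ((243 + 2 / κ) / q) :=
        mul_le_mul_of_nonneg_left hlog (mul_nonneg hC₁ hM.1)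
    _ ≤ C₁ * (8 * Real.pi * a) * ((243 + 2 / κ) / q) := by
        gcongr C₁ * ?_ * _
        exact hM.2
    _ = 8 * Real.pi * C₁ * (243 + 2 / κ) * a / q := by ring

lemma DGD_d1 (hκ : 0 < κ) (h : Reg W R₀ R a f Q θ q) (α : Fin 3) :
    ∫ z, |mix1 (omu κ q a) (tq q a) α z| ∂lam3 ≤ 64 * Real.pi / κ * a ^ 2 / q ^ 200 := by
  have hM := DGD_M h
  have hq := h.q_pos
  have ha := h.a_pos
  have hl := DGD_lq_pos hq ha
  have h1 := int_mix1_le (omu_ok hκ h.q_pos h.q_le h.a_pos) α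
  rw [DGD_sqrtc hκ hq ha] at h1
  calc ∫ z, |mix1 (omu κ q a) (tq q a) α z| ∂lam3
      ≤ 8 * (4 * Real.pi * auq q a) / (κ / lq q a) := h1
    _ ≤ 8 * (8 * Real.pi * a) / (κ / lq q a) := by
        gcongr 8 * ?_ / _
        exact hM.2
    _ = 64 * Real.pi / κ * a ^ 2 / q ^ 200 := by unfold lq; field_simp; ring

lemma DGD_d2 (hκ : 0 < κ) (h : Reg W R₀ R a f Q θ q) (α : Fin 3) :
    ∫ z, mix1 (omu κ q a) (tq q a) α z ^ 2 ∂lam3
      ≤ 256 * Real.pi ^ 2 * (1 / κ ^ 2 + 1) * a * q ^ 78 := by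
  have hM := DGD_M h
  have hq := h.q_pos
  have ha := h.a_pos
  have hπ := Real.pi_pos
  have hok := omu_ok hκ h.q_pos h.q_le h.a_pos
  calc ∫ z, mix1 (omu κ q a) (tq q a) α z ^ 2 ∂lam3
      ≤ (4 * Real.pi * auq q a) * mix0 (omu κ q a) (tq q a) 0 := int_mix1_sq_le hok α
    _ ≤ (8 * Real.pi * a) * (32 * Real.pi * (1 / κ ^ 2 + 1) * q ^ 78) :=
        mul_le_mul hM.2 (DGD_ul hκ h 0) (mix0_nonneg hok 0) (by positivity)
    _ = 256 * Real.pi ^ 2 * (1 / κ ^ 2 + 1) * a * q ^ 78 := by ring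

lemma DGD_dd (hκ : 0 < κ) (h : Reg W R₀ R a f Q θ q) (α β : Fin 3) :
    ∫ z, |mix2 (omu κ q a) (tq q a) α β z| * rr z ∂lam3
      ≤ 400 * Real.pi / κ * a ^ 2 / q ^ 200 := by
  have hM := DGD_M h
  have hq := h.q_pos
  have ha := h.a_pos
  have hl := DGD_lq_pos hq ha
  have h1 := int_mix2_rr_le (omu_ok hκ h.q_pos h.q_le h.a_pos) α β
  rw [DGD_sqrtc hκ hq ha] at h1
  calc ∫ z, |mix2 (omu κ q a) (tq q a) α β z| * rr z ∂lam3
      ≤ 50 * (4 * Real.pi * auq q a) / (κ / lq q a) := h1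
    _ ≤ 50 * (8 * Real.pi * a) / (κ / lq q a) := by
        gcongr 50 * ?_ / _
        exact hM.2
    _ = 400 * Real.pi / κ * a ^ 2 / q ^ 200 := by unfold lq; field_simp; ring

/-- sup of the second derivatives -/
lemma DGD_sup (hκ : 0 < κ) (h : Reg W R₀ R a f Q θ q) (α β : Fin 3) (x : T3) :
    |mix2 (omu κ q a) (tq q a) α β x|
      ≤ 192 * Real.pi * a * (1 / (κ ^ 2 * q ^ 242) + q ^ 237 / a ^ 3) := by
  have hM := DGD_M h
  have hq := h.q_pos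
  have ha := h.a_pos
  have h1 := abs_mix2_le (omu_ok hκ h.q_pos h.q_le h.a_pos) α β x
  rw [DGD_ct hκ hq ha, sqrt_tq hq ha] at h1
  calc |mix2 (omu κ q a) (tq q a) α β x|
      ≤ 24 * (4 * Real.pi * auq q a) * (1 / (κ ^ 2 * q ^ 242) + 1 / (a / q ^ 79) ^ 3) := h1
    _ ≤ 24 * (8 * Real.pi * a) * (1 / (κ ^ 2 * q ^ 242) + 1 / (a / q ^ 79) ^ 3) := by
        gcongr 24 * ?_ * _
        exact hM.2
    _ = 192 * Real.pi * a * (1 / (κ ^ 2 * q ^ 242) + q ^ 237 / a ^ 3) := by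
        rw [div_pow, one_div_div, ← pow_mul]; ring

lemma DGD_ddc (hκ : 0 < κ) (h : Reg W R₀ R a f Q θ q) (α β : Fin 3) :
    ∫ z, (1 - fs q a f (rr z) ^ 2) * (|mix2 (omu κ q a) (tq q a) α β z| * rr z) ∂lam3
      ≤ 768 * Real.pi ^ 2 * (1 / κ ^ 2 + 1) * a ^ 2 * q ^ 110 / q ^ 200 := by
  have hq := h.q_pos
  have ha := h.a_pos
  have hπ := Real.pi_pos
  have hok := omu_ok hκ h.q_pos h.q_le h.a_pos
  have hD := DPot_ok hκ h
  have hF : BM (fun x : T3 => fs q a f (rr x) ^ 2) :=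
    ⟨(hD.Fc_WD 0).sm.measurable, 1, fun x => by
      have h1 := hD.Fc_nonneg x
      have h2 := hD.Fc_le x
      simp only [DPot] at h1 h2
      rw [abs_of_nonneg h1]; exact h2⟩
  have hF1 : ∀ x : T3, 0 ≤ 1 - fs q a f (rr x) ^ 2 := fun x => by
    have h2 := hD.Fc_le x
    simp only [DPot] at h2
    linarith
  set S := 192 * Real.pi * a * (1 / (κ ^ 2 * q ^ 242) + q ^ 237 / a ^ 3) with hS
  have hS0 : 0 ≤ S := by positivity
  have hI : Integrable (fun z : T3 => (1 - fs q a f (rr z) ^ 2) * rr z) lam3 :=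
    (((BM.const 1).sub hF).mul JData.rr_bm').integrable _
  calc ∫ z, (1 - fs q a f (rr z) ^ 2) * (|mix2 (omu κ q a) (tq q a) α β z| * rr z) ∂lam3
      ≤ ∫ z, S * ((1 - fs q a f (rr z) ^ 2) * rr z) ∂lam3 := by
        refine integral_mono_of_nonneg (Eventually.of_forall fun z => ?_) (hI.const_mul S)
          (Eventually.of_forall fun z => ?_)
        · exact mul_nonneg (hF1 z) (mul_nonneg (abs_nonneg _) (rr_nonneg z))
        · have h1 := DGD_sup hκ h α β z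
          have h2 : 0 ≤ (1 - fs q a f (rr z) ^ 2) * rr z := mul_nonneg (hF1 z) (rr_nonneg z)
          calc (1 - fs q a f (rr z) ^ 2) * (|mix2 (omu κ q a) (tq q a) α β z| * rr z)
              = |mix2 (omu κ q a) (tq q a) α β z| * ((1 - fs q a f (rr z) ^ 2) * rr z) := by ring
            _ ≤ S * ((1 - fs q a f (rr z) ^ 2) * rr z) := mul_le_mul_of_nonneg_right h1 h2
    _ = S * ∫ z, (1 - fs q a f (rr z) ^ 2) * rr z ∂lam3 := integral_const_mul _ _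
    _ ≤ S * (4 * Real.pi * a * bq q a ^ 3) := mul_le_mul_of_nonneg_left h.Ic_rr_le hS0
    _ = 768 * Real.pi ^ 2 * a ^ 2 * (1 / κ ^ 2 * (a ^ 3 / q ^ 482) + 1 / q ^ 3) := by
        rw [hS]; unfold bq; field_simp; ring
    _ ≤ 768 * Real.pi ^ 2 * a ^ 2 * (1 / κ ^ 2 * (1 / q ^ 90) + 1 / q ^ 90) := by
        have e1 : a ^ 3 / q ^ 482 ≤ 1 / q ^ 90 := by
          rw [div_le_div_iff₀ (by positivity) (by positivity), one_mul]
          have e2 : a ^ 3 ≤ q ^ 600 := h.a3_le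
          calc a ^ 3 * q ^ 90 ≤ q ^ 600 * 1 := by
                gcongr
                exact pow_le_one₀ hq.le (by linarith [h.q_le])
            _ ≤ q ^ 482 := by
                rw [mul_one]; exact DGD_pow hq h.q_le (by norm_num)
        have e3 : 1 / q ^ 3 ≤ 1 / q ^ 90 :=
          one_div_le_one_div_of_le (by positivity) (DGD_pow hq h.q_le (by norm_num))
        gcongr
    _ = 768 * Real.pi ^ 2 * (1 / κ ^ 2 + 1) * a ^ 2 * q ^ 110 / q ^ 200 := by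
        have e4 : (1:ℝ) / q ^ 90 = q ^ 110 / q ^ 200 := by
          rw [div_eq_div_iff (by positivity) (by positivity), one_mul, ← pow_add]
        rw [e4]; ring

lemma DGD_Ic (h : Reg W R₀ R a f Q θ q) (hN : (N : ℝ) * a ^ 3 = q ^ 400) :
    (N : ℝ) * ∫ z, (1 - fs q a f (rr z) ^ 2) ∂lam3 ≤ 4 * Real.pi * q ^ 240 := by
  have hq := h.q_pos
  have ha := h.a_pos
  calc (N : ℝ) * ∫ z, (1 - fs q a f (rr z) ^ 2) ∂lam3
      ≤ N * (4 * Real.pi * a * bq q a ^ 2) := mul_le_mul_of_nonneg_left h.Ic_le (Nat.cast_nonneg _)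
    _ = 4 * Real.pi * ((N * a ^ 3) / q ^ 160) := by unfold bq; ring
    _ = 4 * Real.pi * q ^ 240 := by
        have e : q ^ 400 / q ^ 160 = q ^ 240 := by
          rw [div_eq_iff (by positivity), ← pow_add]
        rw [hN, e]

end

theorem DPot_GDm : ∃ A : ℝ, 1 ≤ A ∧
    ∀ (κ : ℝ) (W f Q : ℝ → ℝ) (R₀ R a θ q : ℝ) (N : ℕ), 0 < κ → κ ≤ 1 →
      Reg W R₀ R a f Q θ q → κ ≤ lq q a ^ 2 →
      (N : ℝ) * a ^ 3 = q ^ 400 → (DPot κ q a f Q W).GDm (A / κ ^ 4) q a N := by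
  obtain ⟨C₁, hC₁, hb₁⟩ := mixh_div_sqrt_tsum
  obtain ⟨C₂, hC₂, hb₂⟩ := mixh_cos_tsum
  obtain ⟨C₃, hC₃, hb₃⟩ := kcr_int
  have hπ := Real.pi_pos
  have hπ2 : 0 < Real.pi ^ 2 := by positivity
  have hπC₁ : 0 ≤ Real.pi * C₁ := by positivity
  have hπC₂ : 0 ≤ Real.pi * C₂ := by positivity
  obtain ⟨A, hA⟩ : ∃ A, A = 1 + 1000 * Real.pi + 4000 * Real.pi ^ 2 + 1960 * (Real.pi * C₁)
    + 8 * (Real.pi * C₂) + C₃ := ⟨_, rfl⟩
  refine ⟨A, by linarith, fun κ W f Q R₀ R a θ q N hκ hκ1 h hκl hN => ?_⟩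
  obtain ⟨t, ht⟩ : ∃ t, t = 1 / κ ^ 4 := ⟨_, rfl⟩
  have ht0 : 0 < t := by rw [ht]; positivity
  have hκ4 : κ ^ 4 ≤ 1 := pow_le_one₀ hκ.le hκ1
  have t1 : 1 ≤ t := by
    rw [ht, le_div_iff₀ (by positivity)]
    linarith
  have t2 : 1 / κ ≤ t := by
    rw [ht]
    refine one_div_le_one_div_of_le (by positivity) ?_
    calc κ ^ 4 ≤ κ ^ 1 := pow_le_pow_of_le_one hκ.le hκ1 (by norm_num)
      _ = κ := pow_one κ
  have t3 : 1 / κ ^ 2 ≤ t := by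
    rw [ht]
    exact one_div_le_one_div_of_le (by positivity) (pow_le_pow_of_le_one hκ.le hκ1 (by norm_num))
  have key : ∀ x y : ℝ, x ≤ y * t → y ≤ A → x ≤ A / κ ^ 4 := fun x y h1 h2 => by
    have e : A / κ ^ 4 = A * t := by rw [ht]; ring
    rw [e]
    exact h1.trans (mul_le_mul_of_nonneg_right h2 ht0.le)
  have hC : ∃ C, C = A / κ ^ 4 := ⟨_, rfl⟩
  obtain ⟨C, hC⟩ := hC
  rw [← hC] at key
  have s2 := mul_le_mul_of_nonneg_left t2 hπ.le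
  have s3 := mul_le_mul_of_nonneg_left t3 hπ.le
  have s1 := mul_le_mul_of_nonneg_left t1 hπ.le
  have r1 := mul_le_mul_of_nonneg_left t1 hπ2.le
  have r2 := mul_le_mul_of_nonneg_left t2 hπ2.le
  have r3 := mul_le_mul_of_nonneg_left t3 hπ2.le
  obtain ⟨c1, hc1⟩ : ∃ c, c = 8 * Real.pi / κ ^ 2 := ⟨_, rfl⟩
  obtain ⟨c2, hc2⟩ : ∃ c, c = 8 * Real.pi := ⟨_, rfl⟩
  obtain ⟨c3, hc3⟩ : ∃ c, c = 32 * Real.pi * (1 / κ ^ 2 + 1) := ⟨_, rfl⟩
  obtain ⟨c4, hc4⟩ : ∃ c, c = 256 * Real.pi ^ 2 * (1 / κ ^ 4 + 4 / κ) := ⟨_, rfl⟩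
  obtain ⟨c5, hc5⟩ : ∃ c, c = 8 * Real.pi * C₁ * (243 + 2 / κ) := ⟨_, rfl⟩
  obtain ⟨c6, hc6⟩ : ∃ c, c = 8 * Real.pi * C₂ := ⟨_, rfl⟩
  obtain ⟨c7, hc7⟩ : ∃ c, c = 64 * Real.pi / κ := ⟨_, rfl⟩
  obtain ⟨c8, hc8⟩ : ∃ c, c = 256 * Real.pi ^ 2 * (1 / κ ^ 2 + 1) := ⟨_, rfl⟩
  obtain ⟨c9, hc9⟩ : ∃ c, c = 400 * Real.pi / κ := ⟨_, rfl⟩
  obtain ⟨c10, hc10⟩ : ∃ c, c = 768 * Real.pi ^ 2 * (1 / κ ^ 2 + 1) := ⟨_, rfl⟩
  obtain ⟨c11, hc11⟩ : ∃ c, c = 4 * Real.pi := ⟨_, rfl⟩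
  have e1 : c1 = 8 * (Real.pi * (1 / κ ^ 2)) := by rw [hc1]; ring
  have e3 : c3 = 32 * (Real.pi * (1 / κ ^ 2)) + 32 * (Real.pi * 1) := by rw [hc3]; ring
  have e4 : c4 = 256 * (Real.pi ^ 2 * t) + 1024 * (Real.pi ^ 2 * (1 / κ)) := by
    rw [hc4, ht]; ring
  have e5 : c5 = 1944 * (Real.pi * C₁ * 1) + 16 * (Real.pi * C₁ * (1 / κ)) := by
    rw [hc5]; ring
  have e6 : c6 = 8 * (Real.pi * C₂ * 1) := by rw [hc6]; ring
  have e7 : c7 = 64 * (Real.pi * (1 / κ)) := by rw [hc7]; ring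
  have e8 : c8 = 256 * (Real.pi ^ 2 * (1 / κ ^ 2)) + 256 * (Real.pi ^ 2 * 1) := by rw [hc8]; ring
  have e9 : c9 = 400 * (Real.pi * (1 / κ)) := by rw [hc9]; ring
  have e10 : c10 = 768 * (Real.pi ^ 2 * (1 / κ ^ 2)) + 768 * (Real.pi ^ 2 * 1) := by
    rw [hc10]; ring
  have u1 := mul_le_mul_of_nonneg_left t1 hπC₁
  have u2 := mul_le_mul_of_nonneg_left t2 hπC₁
  have v1 := mul_le_mul_of_nonneg_left t1 hπC₂
  have w1 := mul_le_mul_of_nonneg_left t1 hC₃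
  have l0 : 1 ≤ C := key _ 1 (by linarith) (by linarith)
  have l1 : c1 ≤ C := key _ (8 * Real.pi) (by linarith) (by linarith)
  have l2 : c2 ≤ C := key _ (8 * Real.pi) (by linarith) (by linarith)
  have l3 : c3 ≤ C := key _ (64 * Real.pi) (by linarith) (by linarith)
  have l4 : c4 ≤ C := key _ (1280 * Real.pi ^ 2) (by linarith) (by linarith)
  have l5 : c5 ≤ C := key _ (1960 * (Real.pi * C₁)) (by linarith) (by linarith)
  have l6 : c6 ≤ C := key _ (8 * (Real.pi * C₂)) (by linarith) (by linarith)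
  have l7 : c7 ≤ C := key _ (64 * Real.pi) (by linarith) (by linarith)
  have l8 : c8 ≤ C := key _ (512 * Real.pi ^ 2) (by linarith) (by linarith)
  have l9 : c9 ≤ C := key _ (400 * Real.pi) (by linarith) (by linarith)
  have l10 : c10 ≤ C := key _ (1536 * Real.pi ^ 2) (by linarith) (by linarith)
  have l11 : c11 ≤ C := key _ (4 * Real.pi) (by linarith) (by linarith)
  have l12 : C₃ ≤ C := key _ C₃ (by linarith) (by linarith)
  have l13 : 1 / κ ^ 2 ≤ C := key _ 1 (by linarith) (by linarith)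
  rw [← hC]
  have hq := h.q_pos
  have ha := h.a_pos
  have hM := DGD_M h
  have hok := omu_ok hκ h.q_pos h.q_le h.a_pos
  have hinv := DGD_inv hC₁ hκ hκ1 h hb₁
  rw [← hc5] at hinv
  constructor
  · exact DPot_ok hκ h
  · exact l0
  · exact hq
  · linarith [h.q_le]
  · exact ha
  · exact hN
  · linarith [DGD_Nq h hN]
  · exact (DGD_NqU hκ h hκl hN).trans l13
  · exact ((DGD_uh0 hκ h hN).trans_eq hc1.symm).trans l1
  · exact fun p => mixh_le_zero hok p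
  · intro p
    calc ksq p * mixh (omu κ q a) (tq q a) p ≤ 4 * Real.pi * auq q a := ksq_mul_mixh_le hok p
      _ ≤ c2 * a := by rw [hc2]; exact hM.2
      _ ≤ C * a := mul_le_mul_of_nonneg_right l2 ha.le
  · intro x
    calc mix0 (omu κ q a) (tq q a) x ≤ c3 * q ^ 78 := by rw [hc3]; exact DGD_ul hκ h x
      _ ≤ C * q ^ 78 := mul_le_mul_of_nonneg_right l3 (by positivity)
  · calc (N : ℝ) * ∑' p, mixh (omu κ q a) (tq q a) p ^ 2 ≤ c4 * q ^ 200 := by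
          rw [hc4]; exact DGD_sq hκ h hN
      _ ≤ C * q ^ 200 := mul_le_mul_of_nonneg_right l4 (by positivity)
  · refine ⟨hinv.1, hinv.2.trans ?_⟩
    gcongr
  · intro z
    calc ∑' p, mixh (omu κ q a) (tq q a) p / ksq p * (1 - (ch p z).re)
        ≤ C₂ * (4 * Real.pi * auq q a) * rr z := (hb₂ _ _ _ _ hok z).2
      _ ≤ C₂ * (8 * Real.pi * a) * rr z :=
          mul_le_mul_of_nonneg_right (mul_le_mul_of_nonneg_left hM.2 hC₂) (rr_nonneg z)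
      _ = c6 * a * rr z := by rw [hc6]; ring
      _ ≤ C * a * rr z :=
          mul_le_mul_of_nonneg_right (mul_le_mul_of_nonneg_right l6 ha.le) (rr_nonneg z)
  · intro α
    calc ∫ z, |mix1 (omu κ q a) (tq q a) α z| ∂lam3 ≤ c7 * a ^ 2 / q ^ 200 := by
          rw [hc7]; exact DGD_d1 hκ h α
      _ ≤ C * a ^ 2 / q ^ 200 := by gcongr
  · intro α
    calc ∫ z, mix1 (omu κ q a) (tq q a) α z ^ 2 ∂lam3 ≤ c8 * a * q ^ 78 := by
          rw [hc8]; exact DGD_d2 hκ h α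
      _ ≤ C * a * q ^ 78 := by gcongr
  · intro α β
    calc ∫ z, |mix2 (omu κ q a) (tq q a) α β z| * rr z ∂lam3 ≤ c9 * a ^ 2 / q ^ 200 := by
          rw [hc9]; exact DGD_dd hκ h α β
      _ ≤ C * a ^ 2 / q ^ 200 := by gcongr
  · intro α β
    calc ∫ z, (1 - fs q a f (rr z) ^ 2) * (|mix2 (omu κ q a) (tq q a) α β z| * rr z) ∂lam3
        ≤ c10 * a ^ 2 * q ^ 110 / q ^ 200 := by rw [hc10]; exact DGD_ddc hκ h α β
      _ ≤ C * a ^ 2 * q ^ 110 / q ^ 200 := by gcongr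
  · calc (N : ℝ) * ∫ z, (1 - fs q a f (rr z) ^ 2) ∂lam3 ≤ c11 * q ^ 240 := by
          rw [hc11]; exact DGD_Ic h hN
      _ ≤ C * q ^ 240 := mul_le_mul_of_nonneg_right l11 (by positivity)
  · calc ∫ z, kcr q a f Q W (rr z) * rr z ∂lam3 ≤ C₃ * a ^ 2 * q ^ 110 / q ^ 200 :=
          hb₃ W f Q R₀ R a θ q h
      _ ≤ C * a ^ 2 * q ^ 110 / q ^ 200 := by gcongr

end Pool.Agent.Lib.MP_4952d6_mp.M

end

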