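import Pool.Agent.Lib.MP_4952d6_mp.Pk.G22
import Pool.Agent.Lib.MP_4952d6_mp.Pk.G24
import Pool.Agent.Lib.MP_4952d6_mp.Pm.M08

/-! Merged modules (to save import time): M.VC. -/

/-! ### M.VC -/

section

/-!
# VC: the summand of the upper bound for small momenta

`z = r²`, `w = √(1 + 16π/z)`, `b(z) = √(z² + 16πz) - z - 8π + 32π²/z = z (w-1)³ (w+3) / 8`.
`64π²α²e/z - hs ≤ 2 b + 64π²(α²-1)/z + z (X - x₀)² + 8π (1-e) X`, `x₀ = w - 1`.
-/

set_option autoImplicit false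
set_option linter.unusedSectionVars false
set_option linter.unusedVariables false
open MeasureTheory Function Filter Topology Set
open scoped ENNReal

namespace Pool.Agent.Lib.MP_4952d6_mp.M

/-- `b(z) = √(z² + 16 π z) - z - 8 π + 32 π² / z` -/
noncomputable def bz (z : ℝ) : ℝ :=
  Real.sqrt (z ^ 2 + 16 * Real.pi * z) - z - 8 * Real.pi + 32 * Real.pi ^ 2 / z

/-- `w(z) = √(1 + 16 π / z)` -/
noncomputable def wz (z : ℝ) : ℝ := Real.sqrt (1 + 16 * Real.pi / z)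

lemma VC_w_sq {z : ℝ} (hz : 0 < z) : z * wz z ^ 2 = z + 16 * Real.pi := by
  have hpi := Real.pi_pos
  unfold wz
  rw [Real.sq_sqrt (by positivity)]
  field_simp

lemma VC_w_ge {z : ℝ} (hz : 0 < z) : 1 ≤ wz z := by
  have hpi := Real.pi_pos
  unfold wz
  rw [Real.one_le_sqrt]
  have : 0 ≤ 16 * Real.pi / z := by positivity
  linarith

lemma VC_w_le {z : ℝ} (hz : 0 < z) : wz z - 1 ≤ 8 * Real.pi / z := by
  have hpi := Real.pi_pos
  have h1 := VC_w_sq hz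
  have h2 := VC_w_ge hz
  rw [le_div_iff₀ hz]
  nlinarith [mul_nonneg hz.le (sq_nonneg (wz z - 1))]

lemma VC_bz_eq {z : ℝ} (hz : 0 < z) : bz z = z * (wz z - 1) ^ 3 * (wz z + 3) / 8 := by
  have hpi := Real.pi_pos
  have h1 := VC_w_sq hz
  have h2 : Real.sqrt (z ^ 2 + 16 * Real.pi * z) = z * wz z := by
    have e : z ^ 2 + 16 * Real.pi * z = z ^ 2 * (1 + 16 * Real.pi / z) := by field_simp
    rw [e, Real.sqrt_mul (by positivity), Real.sqrt_sq hz.le]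
    rfl
  unfold bz
  rw [h2]
  have h3 : 32 * Real.pi ^ 2 / z = z * (wz z ^ 2 - 1) ^ 2 / 8 := by
    rw [div_eq_div_iff hz.ne' (by norm_num)]
    have h4 : z * (wz z ^ 2 - 1) = 16 * Real.pi := by linarith
    calc 32 * Real.pi ^ 2 * 8 = (16 * Real.pi) ^ 2 := by ring
      _ = (z * (wz z ^ 2 - 1)) ^ 2 := by rw [h4]
      _ = _ := by ring
  have h5 : 8 * Real.pi = z * (wz z ^ 2 - 1) / 2 := by linarith
  rw [h3, h5]
  ring

lemma VC_bz_nonneg {z : ℝ} (hz : 0 < z) : 0 ≤ bz z := by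
  rw [VC_bz_eq hz]
  have h := VC_w_ge hz
  have h1 : 0 ≤ wz z - 1 := by linarith
  positivity

lemma VC_bz_le {z : ℝ} (hz : 0 < z) : bz z ≤ 256 * Real.pi ^ 3 / z ^ 2 := by
  have hpi := Real.pi_pos
  rw [VC_bz_eq hz]
  have h := VC_w_ge hz
  have h1 : 0 ≤ wz z - 1 := by linarith
  have h2 := VC_w_le hz
  have h3 := VC_w_sq hz
  have h4 : z * (wz z - 1) ^ 3 * (wz z + 3) / 8 ≤ 4 * Real.pi * (wz z - 1) ^ 2 := by
    have h5 : z * (wz z - 1) * (wz z + 3) ≤ 2 * (16 * Real.pi) := by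
      have h6 : z * (wz z - 1) * (wz z + 1) = 16 * Real.pi := by linarith
      have h7 : z * (wz z - 1) * (wz z + 3) ≤ z * (wz z - 1) * (2 * (wz z + 1)) := by
        have : 0 ≤ z * (wz z - 1) := by positivity
        refine mul_le_mul_of_nonneg_left ?_ this
        linarith
      linarith
    have h8 := mul_le_mul_of_nonneg_right h5 (sq_nonneg (wz z - 1))
    nlinarith
  have h9 : (wz z - 1) ^ 2 ≤ (8 * Real.pi / z) ^ 2 := by gcongr
  calc _ ≤ 4 * Real.pi * (wz z - 1) ^ 2 := h4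
    _ ≤ 4 * Real.pi * (8 * Real.pi / z) ^ 2 := by gcongr
    _ = 256 * Real.pi ^ 3 / z ^ 2 := by field_simp; ring

/-- The algebraic part of the estimate for small momenta. -/
lemma VC_alg {α e X z w : ℝ} (hα1 : 1 ≤ α) (hα2 : α ≤ 2) (he0 : 0 < e) (he1 : e ≤ 1) (hX : 0 ≤ X)
    (hz : 0 < z) (hw1 : 1 ≤ w) (hw : z * w ^ 2 = z + 16 * Real.pi) :
    64 * Real.pi ^ 2 * α ^ 2 * e / z
      - (8 * Real.pi * α * (1 + e) * (X / (1 + X)) - z * (X ^ 2 / (1 + X)))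
      ≤ z * (w - 1) ^ 3 * (w + 3) / 4 + 192 * Real.pi ^ 2 * (α - 1) / z + z * (X - (w - 1)) ^ 2
        + 8 * Real.pi * (1 - e) * X := by
  have hpi := Real.pi_pos
  have hd : 0 < 1 + X := by linarith
  -- first term
  have h1 : 64 * Real.pi ^ 2 * α ^ 2 * e / z
      ≤ 64 * Real.pi ^ 2 / z + 192 * Real.pi ^ 2 * (α - 1) / z := by
    rw [← add_div]
    refine div_le_div_of_nonneg_right ?_ hz.le
    have h2 : α ^ 2 * e ≤ α ^ 2 := mul_le_of_le_one_right (sq_nonneg _) he1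
    have h3 : α ^ 2 ≤ 1 + 3 * (α - 1) := by nlinarith
    have h4 : 0 < 64 * Real.pi ^ 2 := by positivity
    nlinarith
  -- second term
  have h5 : X / (1 + X) ≤ X := div_le_self hX (by linarith)
  have h5' : 0 ≤ X / (1 + X) := by positivity
  have h6 : -(8 * Real.pi * α * (1 + e) * (X / (1 + X)))
      ≤ -(16 * Real.pi * (X / (1 + X))) + 8 * Real.pi * (1 - e) * X := by
    have h7 : 8 * Real.pi * (1 + e) * (X / (1 + X)) ≤ 8 * Real.pi * α * (1 + e) * (X / (1 + X)) := by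
      have : 8 * Real.pi * (1 + e) ≤ 8 * Real.pi * α * (1 + e) := by
        have h8 : 0 ≤ 8 * Real.pi * (1 + e) := by positivity
        nlinarith
      exact mul_le_mul_of_nonneg_right this h5'
    have h9 : 8 * Real.pi * (1 - e) * (X / (1 + X)) ≤ 8 * Real.pi * (1 - e) * X := by
      have : 0 ≤ 8 * Real.pi * (1 - e) := by
        have : 0 ≤ 1 - e := by linarith
        positivity
      exact mul_le_mul_of_nonneg_left h5 this
    have h10 : 16 * Real.pi * (X / (1 + X)) = 8 * Real.pi * (1 + e) * (X / (1 + X))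
        + 8 * Real.pi * (1 - e) * (X / (1 + X)) := by ring
    linarith
  -- the value of `Ψ`
  have h11 : -(16 * Real.pi * (X / (1 + X))) + z * (X ^ 2 / (1 + X))
      = -(z * (w - 1) ^ 2) + z * (X - (w - 1)) ^ 2 / (1 + X) := by
    have h12 : 16 * Real.pi = z * w ^ 2 - z := by linarith
    rw [h12]
    field_simp
    ring
  have h13 : z * (X - (w - 1)) ^ 2 / (1 + X) ≤ z * (X - (w - 1)) ^ 2 :=
    div_le_self (by positivity) (by linarith)
  have h14 : 64 * Real.pi ^ 2 / z - z * (w - 1) ^ 2 = z * (w - 1) ^ 3 * (w + 3) / 4 := by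
    have h15 : 64 * Real.pi ^ 2 / z = z * (w ^ 2 - 1) ^ 2 / 4 := by
      rw [div_eq_div_iff hz.ne' (by norm_num)]
      have h4 : z * (w ^ 2 - 1) = 16 * Real.pi := by linarith
      calc 64 * Real.pi ^ 2 * 4 = (16 * Real.pi) ^ 2 := by ring
        _ = (z * (w ^ 2 - 1)) ^ 2 := by rw [h4]
        _ = _ := by ring
    rw [h15]
    ring
  linarith

/-- `exp(-β (z + K²)) Lh κ 0 z ≤ Lh κ β z ≤ Lh κ 0 z` -/
lemma VC_Lh {κ β z : ℝ} (hκ : 0 < κ) (hβ : 0 ≤ β) (hz : 0 ≤ z) :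
    Real.exp (-(β * (z + K2 κ))) * Lh κ 0 z ≤ Lh κ β z ∧ Lh κ β z ≤ Lh κ 0 z := by
  have hpi := Real.pi_pos
  have e0 : ∀ φ, Real.exp (-(0 * (z + tauv κ φ))) = 1 := fun φ => by simp
  constructor
  · unfold Lh
    rw [← intervalIntegral.integral_const_mul]
    refine intervalIntegral.integral_mono_on (by positivity)
      (((MHB_cont hκ hz).intervalIntegrable _ _).const_mul _)
      ((MHB_cont hκ hz).intervalIntegrable _ _) fun φ _ => ?_
    obtain ⟨-, h3, h4⟩ := MHB_tau_pos hκ φ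
    rw [e0]
    have h5 : Real.exp (-(β * (z + K2 κ))) ≤ Real.exp (-(β * (z + tauv κ φ))) := by
      apply Real.exp_le_exp.2
      nlinarith
    have h6 : 0 ≤ 4 / Real.pi * Real.sin φ ^ 2 := by positivity
    have h7 : 0 < z + tauv κ φ := by linarith
    calc Real.exp (-(β * (z + K2 κ))) * (4 / Real.pi * Real.sin φ ^ 2 * (1 / (z + tauv κ φ)))
        = 4 / Real.pi * Real.sin φ ^ 2 * (Real.exp (-(β * (z + K2 κ))) / (z + tauv κ φ)) := by ring
      _ ≤ 4 / Real.pi * Real.sin φ ^ 2 * (Real.exp (-(β * (z + tauv κ φ))) / (z + tauv κ φ)) := by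
        gcongr
  · unfold Lh
    refine intervalIntegral.integral_mono_on (by positivity)
      ((MHB_cont hκ hz).intervalIntegrable _ _)
      ((MHB_cont hκ hz).intervalIntegrable _ _) fun φ _ => ?_
    obtain ⟨-, h3, h4⟩ := MHB_tau_pos hκ φ
    have h7 : 0 < z + tauv κ φ := by linarith
    rw [e0]
    have h5 : Real.exp (-(β * (z + tauv κ φ))) ≤ 1 := by
      rw [Real.exp_le_one_iff]
      have : 0 ≤ β * (z + tauv κ φ) := by positivity
      linarith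
    gcongr

/-- `y(z) = √(1 + 16 π / (z + κ²)) - 1` -/
noncomputable def yz (κ z : ℝ) : ℝ := Real.sqrt (1 + 16 * Real.pi / (z + κ ^ 2)) - 1

lemma VC_y {κ z : ℝ} (hκ : 0 < κ) (hz : 0 < z) :
    0 ≤ yz κ z ∧ yz κ z ≤ wz z - 1 ∧ 8 * Real.pi * Lh κ 0 z = yz κ z := by
  have hpi := Real.pi_pos
  have hzk : 0 < z + κ ^ 2 := by positivity
  refine ⟨?_, ?_, ?_⟩
  · have hs1 : 1 ≤ Real.sqrt (1 + 16 * Real.pi / (z + κ ^ 2)) := by
      rw [Real.one_le_sqrt]
      have : 0 ≤ 16 * Real.pi / (z + κ ^ 2) := by positivity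
      linarith
    unfold yz
    linarith
  · have : Real.sqrt (1 + 16 * Real.pi / (z + κ ^ 2)) ≤ wz z := by
      unfold wz
      apply Real.sqrt_le_sqrt
      have h1 : 16 * Real.pi / (z + κ ^ 2) ≤ 16 * Real.pi / z := by
        apply div_le_div_of_nonneg_left (by positivity) hz
        nlinarith [sq_nonneg κ]
      linarith
    unfold yz
    linarith
  · rw [Lh_zero hκ hz.le]
    unfold yz
    field_simp

/-- `X` is close to `y`. -/
lemma VC_X1 {κ q z : ℝ} (hκ : 0 < κ) (hκ1 : κ ≤ 1) (hq : 0 < q) (hq1 : q ≤ 1 / 100) (hz : 0 < z)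
    {Ca : ℝ} (hCa : 0 ≤ Ca) (hα : alq q - 1 ≤ Ca * q ^ 80) (hzq : q ^ 60 * z ≤ 1) :
    |8 * Real.pi * alq q * Lh κ (q ^ 242) z - yz κ z| ≤ (Ca + 53) * q ^ 80 * (8 * Real.pi / z) := by
  have hpi := Real.pi_pos
  have hpi4 := Real.pi_lt_d2
  have hα1 := one_le_alq hq hq1
  have hβ : 0 ≤ q ^ 242 := by positivity
  obtain ⟨hL1, hL2⟩ := VC_Lh (z := z) hκ hβ hz.le
  obtain ⟨hy1, hyw, hy0⟩ := VC_y hκ hz
  have hyz : yz κ z ≤ 8 * Real.pi / z := hyw.trans (VC_w_le hz)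
  have hLn : 0 ≤ Lh κ (q ^ 242) z := Lh_nonneg hκ hz.le
  have hK2 : K2 κ ≤ 52 := by
    unfold K2
    nlinarith
  have hK20 : 0 ≤ K2 κ := by unfold K2; positivity
  have hq80 : 0 < q ^ 80 := by positivity
  have hqq : q ^ 242 * (z + K2 κ) ≤ 53 * q ^ 80 := by
    have h1 : q ^ 242 * z ≤ q ^ 80 := by
      have e : q ^ 242 * z = q ^ 102 * q ^ 80 * (q ^ 60 * z) := by ring
      rw [e]
      have h2 : q ^ 102 ≤ 1 := pow_le_one₀ hq.le (by linarith)
      have h3 : q ^ 102 * q ^ 80 ≤ 1 * q ^ 80 := mul_le_mul_of_nonneg_right h2 hq80.le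
      have h4 : 0 ≤ q ^ 60 * z := by positivity
      calc q ^ 102 * q ^ 80 * (q ^ 60 * z) ≤ (1 * q ^ 80) * 1 :=
            mul_le_mul h3 hzq h4 (by positivity)
        _ = q ^ 80 := by ring
    have h5 : q ^ 242 * K2 κ ≤ q ^ 80 * 52 := by
      have h6 : q ^ 242 ≤ q ^ 80 := pow_le_pow_of_le_one hq.le (by linarith) (by norm_num)
      exact mul_le_mul h6 hK2 hK20 hq80.le
    linarith
  generalize hBd : q ^ 242 = B at *
  generalize hQd : q ^ 80 = Q at *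
  generalize hLd : Lh κ B z = L at *
  generalize hL0d : Lh κ 0 z = L0 at *
  generalize hyd : yz κ z = y at *
  generalize hαd : alq q = α at *
  generalize hKd : K2 κ = K at *
  have hup : 8 * Real.pi * α * L - y ≤ (α - 1) * y := by
    have h1 : 8 * Real.pi * α * L ≤ α * y := by
      rw [← hy0]
      have h2 : 0 ≤ 8 * Real.pi * α := by positivity
      calc 8 * Real.pi * α * L ≤ 8 * Real.pi * α * L0 :=
            mul_le_mul_of_nonneg_left hL2 h2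
        _ = _ := by ring
    linarith
  have hlo : y - 8 * Real.pi * α * L ≤ B * (z + K) * y := by
    have h1 : Real.exp (-(B * (z + K))) * y ≤ 8 * Real.pi * α * L := by
      rw [← hy0]
      calc Real.exp (-(B * (z + K))) * (8 * Real.pi * L0)
          = 8 * Real.pi * (Real.exp (-(B * (z + K))) * L0) := by ring
        _ ≤ 8 * Real.pi * L := by gcongr
        _ ≤ 8 * Real.pi * α * L := by
          have h3 : 0 ≤ 8 * Real.pi * L := by positivity
          nlinarith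
    have h2 := Real.add_one_le_exp (-(B * (z + K)))
    have h3 : (1 - B * (z + K)) * y ≤ Real.exp (-(B * (z + K))) * y :=
      mul_le_mul_of_nonneg_right (by linarith) hy1
    linarith
  have hδ0 : 0 ≤ (Ca + 53) * Q := by positivity
  have h8 : 0 ≤ 8 * Real.pi / z := by positivity
  have h53 : Ca * Q ≤ (Ca + 53) * Q := by nlinarith
  have h54 : 53 * Q ≤ (Ca + 53) * Q := by nlinarith
  rw [abs_le]
  constructor
  · have h9 : B * (z + K) * y ≤ (Ca + 53) * Q * (8 * Real.pi / z) :=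
      mul_le_mul (hqq.trans h54) hyz hy1 hδ0
    linarith
  · have h10 : (α - 1) * y ≤ (Ca + 53) * Q * (8 * Real.pi / z) :=
      mul_le_mul (hα.trans h53) hyz hy1 hδ0
    linarith

/-- `y` is close to `x₀`. -/
lemma VC_X2 {κ z : ℝ} (hκ : 0 < κ) (hz : 0 < z) :
    z * ((wz z - 1) - yz κ z) ^ 2 ≤ 16 * Real.pi * κ ^ 4 / z ^ 2 := by
  have hpi := Real.pi_pos
  obtain ⟨hy1, hyw, -⟩ := VC_y hκ hz
  set v : ℝ := Real.sqrt (1 + 16 * Real.pi / (z + κ ^ 2)) with hv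
  have hyv : yz κ z = v - 1 := rfl
  have hw1 := VC_w_ge hz
  have hw3 := VC_w_sq hz
  have hd : 0 ≤ wz z - v := by linarith
  have hv0 : 0 ≤ v := Real.sqrt_nonneg _
  -- `(w - v) w ≤ w² - v² ≤ 16π κ²/z²`
  have h1 : (wz z - v) * wz z ≤ 16 * Real.pi * κ ^ 2 / z ^ 2 := by
    have h2 : (wz z - v) * wz z ≤ wz z ^ 2 - v ^ 2 := by
      have : 0 ≤ (wz z - v) * v := by positivity
      nlinarith
    have h3 : wz z ^ 2 - v ^ 2 ≤ 16 * Real.pi * κ ^ 2 / z ^ 2 := by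
      have h4 : wz z ^ 2 = 1 + 16 * Real.pi / z := by
        unfold wz
        exact Real.sq_sqrt (by positivity)
      have h5 : v ^ 2 = 1 + 16 * Real.pi / (z + κ ^ 2) := by
        rw [hv]
        exact Real.sq_sqrt (by positivity)
      rw [h4, h5]
      have h6 : 1 + 16 * Real.pi / z - (1 + 16 * Real.pi / (z + κ ^ 2))
          = 16 * Real.pi * κ ^ 2 / (z * (z + κ ^ 2)) := by
        field_simp
        ring
      rw [h6]
      apply div_le_div_of_nonneg_left (by positivity) (by positivity)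
      nlinarith [mul_nonneg hz.le (sq_nonneg κ)]
    linarith
  have h0 : 0 ≤ (wz z - v) * wz z := by positivity
  have h7 : ((wz z - v) * wz z) ^ 2 ≤ (16 * Real.pi * κ ^ 2 / z ^ 2) ^ 2 :=
    pow_le_pow_left₀ h0 h1 2
  have h8 : (wz z - 1) - yz κ z = wz z - v := by rw [hyv]; ring
  rw [h8]
  -- multiply by `z w² ≥ 16 π`
  have h9 : 16 * Real.pi ≤ z * wz z ^ 2 := by linarith
  have h10 : 16 * Real.pi * (z * (wz z - v) ^ 2) ≤ z ^ 2 * ((wz z - v) * wz z) ^ 2 := by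
    have h11 : 0 ≤ z * (wz z - v) ^ 2 := by positivity
    have h12 := mul_le_mul_of_nonneg_right h9 h11
    calc _ ≤ z * wz z ^ 2 * (z * (wz z - v) ^ 2) := h12
      _ = _ := by ring
  have h13 : z ^ 2 * ((wz z - v) * wz z) ^ 2 ≤ z ^ 2 * (16 * Real.pi * κ ^ 2 / z ^ 2) ^ 2 :=
    mul_le_mul_of_nonneg_left h7 (sq_nonneg z)
  have h14 : z ^ 2 * (16 * Real.pi * κ ^ 2 / z ^ 2) ^ 2
      = 16 * Real.pi * (16 * Real.pi * κ ^ 4 / z ^ 2) := by
    field_simp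
  rw [h14] at h13
  exact le_of_mul_le_mul_left (h10.trans h13) (by positivity)

/-- `X` is close to `x₀`. -/
lemma VC_X {κ q z : ℝ} (hκ : 0 < κ) (hκ1 : κ ≤ 1) (hq : 0 < q) (hq1 : q ≤ 1 / 100) (hz : 0 < z)
    {Ca : ℝ} (hCa : 0 ≤ Ca) (hα : alq q - 1 ≤ Ca * q ^ 80) (hzq : q ^ 60 * z ≤ 1) :
    z * (8 * Real.pi * alq q * Lh κ (q ^ 242) z - (wz z - 1)) ^ 2
      ≤ (128 * Real.pi ^ 2 * (Ca + 53) ^ 2 * q ^ 20 + 32 * Real.pi * κ ^ 4) / z ^ 2 := by
  have hpi := Real.pi_pos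
  have hXy := VC_X1 hκ hκ1 hq hq1 hz hCa hα hzq
  have hxy := VC_X2 hκ hz
  have h5 : q ^ 160 * z ≤ q ^ 20 := by
    have e : q ^ 160 * z = q ^ 80 * q ^ 20 * (q ^ 60 * z) := by ring
    rw [e]
    have h6 : q ^ 80 ≤ 1 := pow_le_one₀ hq.le (by linarith)
    have h7 : 0 < q ^ 20 := by positivity
    have h8 : q ^ 80 * q ^ 20 ≤ 1 * q ^ 20 := mul_le_mul_of_nonneg_right h6 h7.le
    have h9 : 0 ≤ q ^ 60 * z := by positivity
    calc q ^ 80 * q ^ 20 * (q ^ 60 * z) ≤ (1 * q ^ 20) * 1 :=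
          mul_le_mul h8 hzq h9 (by positivity)
      _ = q ^ 20 := by ring
  generalize hXd : 8 * Real.pi * alq q * Lh κ (q ^ 242) z = X at *
  generalize hyd : yz κ z = y at *
  generalize hwd : wz z - 1 = w at *
  have h1 : z * (X - w) ^ 2 ≤ 2 * (z * (X - y) ^ 2) + 2 * (z * (w - y) ^ 2) := by
    have h2 : (X - w) ^ 2 ≤ 2 * (X - y) ^ 2 + 2 * (w - y) ^ 2 := by
      nlinarith [sq_nonneg ((X - y) + (w - y))]
    have h3 := mul_le_mul_of_nonneg_left h2 hz.le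
    linarith
  have h2 : z * (X - y) ^ 2 ≤ 64 * Real.pi ^ 2 * (Ca + 53) ^ 2 * q ^ 20 / z ^ 2 := by
    have h3 : (X - y) ^ 2 ≤ ((Ca + 53) * q ^ 80 * (8 * Real.pi / z)) ^ 2 := by
      rw [← sq_abs]
      exact pow_le_pow_left₀ (abs_nonneg _) hXy 2
    have h4 : z * ((Ca + 53) * q ^ 80 * (8 * Real.pi / z)) ^ 2 = 64 * Real.pi ^ 2 * (Ca + 53) ^ 2
        * (q ^ 160 * z) / z ^ 2 := by
      field_simp
      ring
    calc z * (X - y) ^ 2 ≤ z * ((Ca + 53) * q ^ 80 * (8 * Real.pi / z)) ^ 2 :=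
          mul_le_mul_of_nonneg_left h3 hz.le
      _ = _ := h4
      _ ≤ _ := by gcongr
  calc z * (X - w) ^ 2
      ≤ 2 * (64 * Real.pi ^ 2 * (Ca + 53) ^ 2 * q ^ 20 / z ^ 2)
        + 2 * (16 * Real.pi * κ ^ 4 / z ^ 2) := by linarith
    _ = _ := by ring

/-- The summand for `q^60 z ≤ 1`. -/
theorem VC_small : ∃ A : ℝ, 0 ≤ A ∧ ∀ κ q z r : ℝ, 0 < κ → κ ≤ 1 → 0 < q → q ≤ 1 / 100 → 0 < z →
    r ^ 2 = z → q ^ 60 * z ≤ 1 →
    64 * Real.pi ^ 2 * alq q ^ 2 * Real.exp (-(q ^ 242 * z)) / z - hs κ q r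
      ≤ 2 * bz z + A * (κ ^ 4 + q ^ 20) / z ^ 2 := by
  have hpi := Real.pi_pos
  obtain ⟨C, hC, hal⟩ := alq_le
  refine ⟨192 * Real.pi ^ 2 * (2 + C) + 128 * Real.pi ^ 2 * ((2 + C) + 53) ^ 2 + 32 * Real.pi
    + 128 * Real.pi ^ 2, by positivity, ?_⟩
  intro κ q z r hκ hκ1 hq hq1 hz hr hzq
  have hα1 := one_le_alq hq hq1
  have hα2 := alq_le_two hq hq1
  have hq80 : 0 < q ^ 80 := by positivity
  have hα : alq q - 1 ≤ (2 + C) * q ^ 80 := by
    have h1 := hal q hq hq1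
    have h2 : q ^ 160 ≤ q ^ 80 := pow_le_pow_of_le_one hq.le (by linarith) (by norm_num)
    have h3 : q ^ 240 ≤ q ^ 80 := pow_le_pow_of_le_one hq.le (by linarith) (by norm_num)
    nlinarith
  have hXx := VC_X hκ hκ1 hq hq1 hz (Ca := 2 + C) (by positivity) hα hzq
  have hβ : 0 ≤ q ^ 242 := by positivity
  have hLn : 0 ≤ Lh κ (q ^ 242) z := Lh_nonneg hκ hz.le
  have hLle : Lh κ (q ^ 242) z ≤ Real.exp (-(q ^ 242 * z)) / (z + κ ^ 2) := Lh_le hκ hβ hz.le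
  set e : ℝ := Real.exp (-(q ^ 242 * z)) with he
  have he0 : 0 < e := Real.exp_pos _
  have he1 : e ≤ 1 := by
    rw [he, Real.exp_le_one_iff]
    have : 0 ≤ q ^ 242 * z := by positivity
    linarith
  have he2 : 1 - e ≤ q ^ 242 * z := by
    have := Real.add_one_le_exp (-(q ^ 242 * z))
    linarith
  have hXs : Xs κ q r = 8 * Real.pi * alq q * Lh κ (q ^ 242) z := by
    unfold Xs
    rw [hr]
  have hhs : hs κ q r = 8 * Real.pi * alq q * (1 + e) * (Xs κ q r / (1 + Xs κ q r))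
      - z * (Xs κ q r ^ 2 / (1 + Xs κ q r)) := by
    unfold hs
    rw [hr]
  rw [← hXs] at hXx
  have hX0 : 0 ≤ Xs κ q r := by rw [hXs]; positivity
  have hXle : Xs κ q r ≤ 16 * Real.pi / z := by
    rw [hXs]
    have h1 : Lh κ (q ^ 242) z ≤ 1 / z := by
      refine hLle.trans ?_
      refine div_le_div₀ zero_le_one he1 hz ?_
      nlinarith [sq_nonneg κ]
    calc 8 * Real.pi * alq q * Lh κ (q ^ 242) z ≤ 8 * Real.pi * 2 * (1 / z) := by gcongr
      _ = 16 * Real.pi / z := by ring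
  have halg := VC_alg hα1 hα2 he0 he1 hX0 hz (VC_w_ge hz) (VC_w_sq hz)
  rw [hhs]
  have hb : z * (wz z - 1) ^ 3 * (wz z + 3) / 4 = 2 * bz z := by
    rw [VC_bz_eq hz]
    ring
  rw [hb] at halg
  refine halg.trans ?_
  have hq20 : 0 < q ^ 20 := by positivity
  have hz2 : 0 < z ^ 2 := by positivity
  -- the term with `α - 1`
  have t1 : 192 * Real.pi ^ 2 * (alq q - 1) / z ≤ 192 * Real.pi ^ 2 * (2 + C) * q ^ 20 / z ^ 2 := by
    have h1 : (alq q - 1) * z ≤ (2 + C) * q ^ 20 := by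
      calc (alq q - 1) * z ≤ (2 + C) * q ^ 80 * z := mul_le_mul_of_nonneg_right hα hz.le
        _ = (2 + C) * q ^ 20 * (q ^ 60 * z) := by ring
        _ ≤ (2 + C) * q ^ 20 * 1 := by gcongr
        _ = _ := mul_one _
    have h2 : 192 * Real.pi ^ 2 * (alq q - 1) / z = 192 * Real.pi ^ 2 * ((alq q - 1) * z) / z ^ 2 := by
      field_simp
    rw [h2, mul_assoc (192 * Real.pi ^ 2) (2 + C)]
    gcongr
  have t2 : 8 * Real.pi * (1 - e) * Xs κ q r ≤ 128 * Real.pi ^ 2 * q ^ 20 / z ^ 2 := by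
    have h1 : (1 - e) * Xs κ q r ≤ q ^ 242 * z * (16 * Real.pi / z) :=
      mul_le_mul he2 hXle hX0 (by positivity)
    have h2 : q ^ 242 * z * (16 * Real.pi / z) = 16 * Real.pi * (q ^ 242 * z ^ 2) / z ^ 2 := by
      field_simp
    have h3 : q ^ 242 * z ^ 2 ≤ q ^ 20 := by
      have e1 : q ^ 242 * z ^ 2 = q ^ 102 * q ^ 20 * (q ^ 60 * z) ^ 2 := by ring
      rw [e1]
      have h4 : (q ^ 60 * z) ^ 2 ≤ 1 := pow_le_one₀ (by positivity) hzq
      have h5 : q ^ 102 ≤ 1 := pow_le_one₀ hq.le (by linarith)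
      calc q ^ 102 * q ^ 20 * (q ^ 60 * z) ^ 2 ≤ 1 * q ^ 20 * 1 := by gcongr
        _ = q ^ 20 := by ring
    calc 8 * Real.pi * (1 - e) * Xs κ q r = 8 * Real.pi * ((1 - e) * Xs κ q r) := by ring
      _ ≤ 8 * Real.pi * (q ^ 242 * z * (16 * Real.pi / z)) := by gcongr
      _ = 8 * Real.pi * (16 * Real.pi * (q ^ 242 * z ^ 2) / z ^ 2) := by rw [h2]
      _ ≤ 8 * Real.pi * (16 * Real.pi * q ^ 20 / z ^ 2) := by gcongr
      _ = _ := by ring
  have hκ4 : 0 ≤ κ ^ 4 := by positivity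
  have hfin : 192 * Real.pi ^ 2 * (2 + C) * q ^ 20
      + (128 * Real.pi ^ 2 * (2 + C + 53) ^ 2 * q ^ 20 + 32 * Real.pi * κ ^ 4)
      + 128 * Real.pi ^ 2 * q ^ 20
      ≤ (192 * Real.pi ^ 2 * (2 + C) + 128 * Real.pi ^ 2 * ((2 + C) + 53) ^ 2 + 32 * Real.pi
    + 128 * Real.pi ^ 2) * (κ ^ 4 + q ^ 20) := by
    have a1 : 0 ≤ 192 * Real.pi ^ 2 * (2 + C) * κ ^ 4 := by positivity
    have a2 : 0 ≤ 128 * Real.pi ^ 2 * ((2 + C) + 53) ^ 2 * κ ^ 4 := by positivity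
    have a3 : 0 ≤ 32 * Real.pi * q ^ 20 := by positivity
    have a4 : 0 ≤ 128 * Real.pi ^ 2 * κ ^ 4 := by positivity
    nlinarith
  have hfin2 := div_le_div_of_nonneg_right hfin hz2.le
  rw [add_div, add_div] at hfin2
  linarith

end Pool.Agent.Lib.MP_4952d6_mp.M

end

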