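import Pool.Agent.Lib.MP_4952d6_mp.Pk.G54
import Pool.Agent.Lib.MP_4952d6_mp.Pm.M09
import Pool.Agent.Lib.MP_4952d6_mp.Pm.M12

/-! Merged modules (to save import time): M.VC2, M.VD. -/

/-! ### M.VC2 -/

section

/-!
# VC2: the summand of the upper bound for all momenta

`64π²α²e/z - hs ≤ A (β e/z + 1/z²)` for all `z > 0` (`β = q^242`), and the combined estimate.
-/

set_option autoImplicit false
set_option linter.unusedSectionVars false
set_option linter.unusedVariables false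
open MeasureTheory Function Filter Topology Set
open scoped ENNReal

namespace Pool.Agent.Lib.MP_4952d6_mp.M

/-- algebraic form of the summand -/
private theorem VC2_alg (m e X z : ℝ) (hX : 0 ≤ X) :
    m ^ 2 * e - z * (m * (1 + e) * (X / (1 + X)) - z * (X ^ 2 / (1 + X)))
      = (m - z * X) * (m * e - z * X) + (m * (1 + e) * (z * X ^ 2) - z ^ 2 * X ^ 3) / (1 + X) := by
  have h : 0 < 1 + X := by linarith
  field_simp
  ring

private theorem VC2_bd (m e X z K β : ℝ) (hm : 0 ≤ m) (he0 : 0 < e) (he1 : e ≤ 1) (hX : 0 ≤ X)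
    (hz : 0 < z) (hK : 0 ≤ K) (hβ : 0 ≤ β) (hYle : z * X ≤ m * e)
    (hYge : m * e - z * X ≤ m * e * (K * (β + 1 / z))) :
    m ^ 2 * e / z - (m * (1 + e) * (X / (1 + X)) - z * (X ^ 2 / (1 + X)))
      ≤ m ^ 2 * K * (β * e / z) + (m ^ 2 * K + 2 * m ^ 3) / z ^ 2 := by
  have hd : 0 < 1 + X := by linarith
  have hY0 : 0 ≤ z * X := by positivity
  have hme : m * e ≤ m := mul_le_of_le_one_right hm he1
  have hYm : z * X ≤ m := hYle.trans hme
  have h1 : (m - z * X) * (m * e - z * X) ≤ m * (m * e * (K * (β + 1 / z))) :=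
    mul_le_mul (by linarith) hYge (by linarith) hm
  have h2 : (m * (1 + e) * (z * X ^ 2) - z ^ 2 * X ^ 3) / (1 + X) ≤ 2 * m ^ 3 / z := by
    have h3 : (m * (1 + e) * (z * X ^ 2) - z ^ 2 * X ^ 3) / (1 + X) ≤ m * (1 + e) * (z * X ^ 2) := by
      rw [div_le_iff₀ hd]
      have h4 : 0 ≤ z ^ 2 * X ^ 3 := by positivity
      have h5 : 0 ≤ m * (1 + e) * (z * X ^ 2) * X := by positivity
      nlinarith
    have h6 : m * (1 + e) * (z * X ^ 2) = m * (1 + e) * (z * X) ^ 2 / z := by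
      field_simp
    have h7 : (z * X) ^ 2 ≤ m ^ 2 := pow_le_pow_left₀ hY0 hYm 2
    have h8 : m * (1 + e) * (z * X) ^ 2 ≤ m * 2 * m ^ 2 := by
      have : m * (1 + e) ≤ m * 2 := mul_le_mul_of_nonneg_left (by linarith) hm
      exact mul_le_mul this h7 (by positivity) (by positivity)
    refine h3.trans ?_
    rw [h6]
    have h9 := div_le_div_of_nonneg_right h8 hz.le
    calc _ ≤ m * 2 * m ^ 2 / z := h9
      _ = _ := by ring
  have h3 := VC2_alg m e X z hX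
  have h4 : m ^ 2 * e / z - (m * (1 + e) * (X / (1 + X)) - z * (X ^ 2 / (1 + X)))
      = (m ^ 2 * e - z * (m * (1 + e) * (X / (1 + X)) - z * (X ^ 2 / (1 + X)))) / z := by
    field_simp
  rw [h4, h3, div_le_iff₀ hz]
  have h5 : m * (m * e * (K * (β + 1 / z))) = (m ^ 2 * K * (β * e / z)) * z + m ^ 2 * K * e / z := by
    field_simp
  have h6 : m ^ 2 * K * e / z ≤ m ^ 2 * K / z := by
    have : m ^ 2 * K * e ≤ m ^ 2 * K := mul_le_of_le_one_right (by positivity) he1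
    exact div_le_div_of_nonneg_right this hz.le
  have h7 : (m ^ 2 * K * (β * e / z) + (m ^ 2 * K + 2 * m ^ 3) / z ^ 2) * z
      = (m ^ 2 * K * (β * e / z)) * z + m ^ 2 * K / z + 2 * m ^ 3 / z := by
    field_simp
    ring
  rw [h7]
  linarith

/-- The summand for all momenta. -/
theorem VC2_all : ∃ A : ℝ, 0 ≤ A ∧ ∀ κ q z r : ℝ, 0 < κ → κ ≤ 1 → 0 < q → q ≤ 1 / 100 → 0 < z →
    r ^ 2 = z →
    64 * Real.pi ^ 2 * alq q ^ 2 * Real.exp (-(q ^ 242 * z)) / z - hs κ q r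
      ≤ A * (q ^ 242 * Real.exp (-(q ^ 242 * z)) / z + 1 / z ^ 2) := by
  have hpi := Real.pi_pos
  refine ⟨(16 * Real.pi) ^ 2 * (1 + 16 * Real.pi) + 2 * (16 * Real.pi) ^ 3, by positivity, ?_⟩
  intro κ q z r hκ hκ1 hq hq1 hz hr
  have hα1 := one_le_alq hq hq1
  have hα2 := alq_le_two hq hq1
  have hm0 : 0 ≤ 8 * Real.pi * alq q := by positivity
  have hm1 : 8 * Real.pi * alq q ≤ 16 * Real.pi := by nlinarith
  have hK : 0 ≤ K2 κ := by unfold K2; positivity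
  have hK1 : K2 κ ≤ 1 + 16 * Real.pi := by unfold K2; nlinarith
  have hβ : 0 ≤ q ^ 242 := by positivity
  have hLle : Lh κ (q ^ 242) z ≤ Real.exp (-(q ^ 242 * z)) / (z + κ ^ 2) := Lh_le hκ hβ hz.le
  have hLge : Real.exp (-(q ^ 242 * (z + K2 κ))) / (z + K2 κ) ≤ Lh κ (q ^ 242) z :=
    Lh_ge hκ hβ hz.le
  have hLn : 0 ≤ Lh κ (q ^ 242) z := Lh_nonneg hκ hz.le
  have hXs : Xs κ q r = 8 * Real.pi * alq q * Lh κ (q ^ 242) z := by
    unfold Xs
    rw [hr]
  have hX0 : 0 ≤ Xs κ q r := by rw [hXs]; positivity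
  have hhs : 64 * Real.pi ^ 2 * alq q ^ 2 * Real.exp (-(q ^ 242 * z)) / z - hs κ q r
      = (8 * Real.pi * alq q) ^ 2 * Real.exp (-(q ^ 242 * z)) / z
        - (8 * Real.pi * alq q * (1 + Real.exp (-(q ^ 242 * z))) * (Xs κ q r / (1 + Xs κ q r))
      - z * (Xs κ q r ^ 2 / (1 + Xs κ q r))) := by
    unfold hs
    rw [hr]
    ring
  rw [hhs]
  generalize hβd : q ^ 242 = β at *
  generalize hmd : 8 * Real.pi * alq q = m at *
  generalize hXd : Xs κ q r = X at *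
  generalize hKd : K2 κ = K at *
  generalize hLd : Lh κ β z = L at *
  have he0 : 0 < Real.exp (-(β * z)) := Real.exp_pos _
  have he1 : Real.exp (-(β * z)) ≤ 1 := by
    rw [Real.exp_le_one_iff]
    have : 0 ≤ β * z := mul_nonneg hβ hz.le
    linarith
  have hYle : z * X ≤ m * Real.exp (-(β * z)) := by
    rw [hXs]
    have h1 : z * L ≤ Real.exp (-(β * z)) := by
      calc z * L ≤ z * (Real.exp (-(β * z)) / (z + κ ^ 2)) := mul_le_mul_of_nonneg_left hLle hz.le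
        _ = Real.exp (-(β * z)) * (z / (z + κ ^ 2)) := by ring
        _ ≤ Real.exp (-(β * z)) * 1 := by
            apply mul_le_mul_of_nonneg_left _ he0.le
            rw [div_le_one (by positivity)]
            nlinarith [sq_nonneg κ]
        _ = _ := mul_one _
    calc z * (m * L) = m * (z * L) := by ring
      _ ≤ m * Real.exp (-(β * z)) := mul_le_mul_of_nonneg_left h1 hm0
  have hYge : m * Real.exp (-(β * z)) - z * X
      ≤ m * Real.exp (-(β * z)) * (K * (β + 1 / z)) := by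
    rw [hXs]
    have h1 : Real.exp (-(β * (z + K))) = Real.exp (-(β * z)) * Real.exp (-(β * K)) := by
      rw [← Real.exp_add]
      congr 1
      ring
    have h2 : 1 - β * K ≤ Real.exp (-(β * K)) := by
      have := Real.add_one_le_exp (-(β * K))
      linarith
    have h3 : Real.exp (-(β * K)) ≤ 1 := by
      rw [Real.exp_le_one_iff]
      have : 0 ≤ β * K := mul_nonneg hβ hK
      linarith
    -- `1 - exp(-βK) z/(z+K) ≤ K (β + 1/z)`
    have h4 : 1 - K * (β + 1 / z) ≤ Real.exp (-(β * K)) * (z / (z + K)) := by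
      have h5 : z / (z + K) = 1 - K / (z + K) := by
        field_simp
        ring
      have h6 : K / (z + K) ≤ K * (1 / z) := by
        rw [mul_one_div]
        gcongr
        linarith
      have h7 : 0 ≤ K / (z + K) := by positivity
      rw [h5]
      have h8 : Real.exp (-(β * K)) * (K / (z + K)) ≤ 1 * (K / (z + K)) :=
        mul_le_mul_of_nonneg_right h3 h7
      nlinarith
    have h9 : Real.exp (-(β * z)) * (Real.exp (-(β * K)) * (z / (z + K))) ≤ z * L := by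
      calc Real.exp (-(β * z)) * (Real.exp (-(β * K)) * (z / (z + K)))
          = z * (Real.exp (-(β * (z + K))) / (z + K)) := by
            rw [h1]
            ring
        _ ≤ z * L := mul_le_mul_of_nonneg_left hLge hz.le
    have h10 : Real.exp (-(β * z)) * (1 - K * (β + 1 / z))
        ≤ Real.exp (-(β * z)) * (Real.exp (-(β * K)) * (z / (z + K))) :=
      mul_le_mul_of_nonneg_left h4 he0.le
    have h11 : m * (Real.exp (-(β * z)) * (1 - K * (β + 1 / z))) ≤ m * (z * L) :=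
      mul_le_mul_of_nonneg_left (h10.trans h9) hm0
    linarith
  refine (VC2_bd m (Real.exp (-(β * z))) X z K β hm0 he0 he1 hX0 hz hK hβ hYle hYge).trans ?_
  have h1 : m ^ 2 * K ≤ (16 * Real.pi) ^ 2 * (1 + 16 * Real.pi) := by gcongr
  have h2 : m ^ 3 ≤ (16 * Real.pi) ^ 3 := by gcongr
  have h3 : 0 ≤ β * Real.exp (-(β * z)) / z := by positivity
  have h4 : 0 ≤ 1 / z ^ 2 := by positivity
  have h5 : 0 ≤ 2 * (16 * Real.pi) ^ 3 := by positivity
  have h6 := mul_le_mul_of_nonneg_right h1 h3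
  have h7 : (m ^ 2 * K + 2 * m ^ 3) / z ^ 2
      ≤ ((16 * Real.pi) ^ 2 * (1 + 16 * Real.pi) + 2 * (16 * Real.pi) ^ 3) * (1 / z ^ 2) := by
    rw [div_eq_mul_one_div]
    exact mul_le_mul_of_nonneg_right (by linarith) h4
  have h8 := mul_nonneg h5 h3
  linarith

/-- Combined estimate of the summand. -/
theorem VC2_point : ∃ A : ℝ, 0 ≤ A ∧ ∀ κ q z r : ℝ, 0 < κ → κ ≤ 1 → 0 < q → q ≤ 1 / 100 → 0 < z →
    r ^ 2 = z →
    64 * Real.pi ^ 2 * alq q ^ 2 * Real.exp (-(q ^ 242 * z)) / z - hs κ q r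
      ≤ 2 * bz z + A * ((κ ^ 4 + q ^ 20) * (1 / z ^ 2) + (1 - Real.exp (-(q ^ 60 * z))) / z ^ 2
        + q ^ 242 * (Real.exp (-(q ^ 242 * z)) / z)) := by
  obtain ⟨A1, hA1, h1⟩ := VC_small
  obtain ⟨A2, hA2, h2⟩ := VC2_all
  refine ⟨A1 + 2 * A2, by positivity, ?_⟩
  intro κ q z r hκ hκ1 hq hq1 hz hr
  have he0 : 0 < Real.exp (-(q ^ 242 * z)) := Real.exp_pos _
  have hE1 : Real.exp (-(q ^ 60 * z)) ≤ 1 := by
    rw [Real.exp_le_one_iff]
    have : 0 ≤ q ^ 60 * z := by positivity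
    linarith
  have t1 : 0 ≤ (κ ^ 4 + q ^ 20) * (1 / z ^ 2) := by positivity
  have t2 : 0 ≤ (1 - Real.exp (-(q ^ 60 * z))) / z ^ 2 := div_nonneg (by linarith) (by positivity)
  have t3 : 0 ≤ q ^ 242 * (Real.exp (-(q ^ 242 * z)) / z) := by positivity
  rcases le_or_gt (q ^ 60 * z) 1 with hzq | hzq
  · have h3 := h1 κ q z r hκ hκ1 hq hq1 hz hr hzq
    refine h3.trans ?_
    have h4 : A1 * (κ ^ 4 + q ^ 20) / z ^ 2 = A1 * ((κ ^ 4 + q ^ 20) * (1 / z ^ 2)) := by ring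
    rw [h4]
    have a1 := mul_nonneg hA2 t1
    have a2 := mul_nonneg hA1 t2
    have a3 := mul_nonneg hA1 t3
    have a4 := mul_nonneg hA2 t2
    have a5 := mul_nonneg hA2 t3
    linarith
  · have h3 := h2 κ q z r hκ hκ1 hq hq1 hz hr
    refine h3.trans ?_
    have hb := VC_bz_nonneg hz
    have h4 : 1 / z ^ 2 ≤ 2 * ((1 - Real.exp (-(q ^ 60 * z))) / z ^ 2) := by
      rw [← mul_div_assoc]
      have h5 : Real.exp (-(q ^ 60 * z)) ≤ 1 / 2 := by
        have h6 : Real.exp (-(q ^ 60 * z)) ≤ Real.exp (-1) := Real.exp_le_exp.2 (by linarith)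
        have h7 : Real.exp (-1) ≤ 1 / 2 := by
          rw [Real.exp_neg, inv_eq_one_div]
          refine one_div_le_one_div_of_le (by norm_num) ?_
          have := Real.add_one_le_exp (1:ℝ)
          linarith
        linarith
      have : 0 < z ^ 2 := by positivity
      gcongr
      linarith
    have h5 : q ^ 242 * Real.exp (-(q ^ 242 * z)) / z = q ^ 242 * (Real.exp (-(q ^ 242 * z)) / z) := by
      ring
    rw [h5]
    have a0 := mul_le_mul_of_nonneg_left h4 hA2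
    have a1 := mul_nonneg hA2 t1
    have a2 := mul_nonneg hA1 t2
    have a3 := mul_nonneg hA1 t3
    have a4 := mul_nonneg hA2 t3
    have a5 := mul_nonneg hA1 t1
    linarith

end Pool.Agent.Lib.MP_4952d6_mp.M

end

/-! ### M.VD -/

section

/-!
# VD: comparison of the lattice sums (MV)

`(1/4)(Isq - l³ ∑' hs) = α² Cc(β) + (1/4) l³ ∑' [64π²α² e/z - hs]`,
`4 √π/q^40 + (1/2) l⁵ LS(l² q^80, 0, 8π/l²) = Cc(q^80) + (1/2) l³ ∑' exp(-q^80 z) b(z)`, `z = l² k²`.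
-/

set_option autoImplicit false
set_option linter.unusedSectionVars false
set_option linter.unusedVariables false
open MeasureTheory Function Filter Topology Set
open scoped ENNReal

namespace Pool.Agent.Lib.MP_4952d6_mp.M

/-- `∑' 1/z²` -/
lemma VD_S1 : ∃ C : ℝ, 0 ≤ C ∧ ∀ l : ℝ, 0 < l →
    Summable (fun p : Fin 3 → ℤ => if p = 0 then 0 else 1 / (l ^ 2 * ksq p) ^ 2) ∧
    l ^ 3 * (∑' p : Fin 3 → ℤ, if p = 0 then 0 else 1 / (l ^ 2 * ksq p) ^ 2) ≤ C / l := by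
  refine ⟨∑' p : Fin 3 → ℤ, if p = 0 then 0 else 1 / ksq p ^ 2, ?_, ?_⟩
  · refine tsum_nonneg fun p => ?_
    split_ifs with hp
    · exact le_rfl
    · have := VA_ksq_pos hp
      positivity
  · intro l hl
    have e : (fun p : Fin 3 → ℤ => if p = 0 then 0 else 1 / (l ^ 2 * ksq p) ^ 2)
        = fun p => 1 / l ^ 4 * (if p = 0 then 0 else 1 / ksq p ^ 2) := by
      funext p
      split_ifs with hp
      · simp
      · have := VA_ksq_pos hp
        field_simp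
    rw [e]
    refine ⟨VA_B1.mul_left _, le_of_eq ?_⟩
    rw [tsum_mul_left]
    field_simp

/-- `∑' (1 - exp(-t z))/z²` -/
lemma VD_S2 : ∃ C : ℝ, 0 ≤ C ∧ ∀ l t : ℝ, 0 < l → 0 ≤ t →
    Summable (fun p : Fin 3 → ℤ => if p = 0 then 0 else
      (1 - Real.exp (-(t * (l ^ 2 * ksq p)))) / (l ^ 2 * ksq p) ^ 2) ∧
    l ^ 3 * (∑' p : Fin 3 → ℤ, if p = 0 then 0 else
      (1 - Real.exp (-(t * (l ^ 2 * ksq p)))) / (l ^ 2 * ksq p) ^ 2) ≤ C * Real.sqrt t := by
  obtain ⟨C, hC, h⟩ := VA_B3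
  refine ⟨C, hC, fun l t hl ht => ?_⟩
  obtain ⟨h1, h2⟩ := h (t * l ^ 2) (by positivity)
  have e : (fun p : Fin 3 → ℤ => if p = 0 then 0 else
      (1 - Real.exp (-(t * (l ^ 2 * ksq p)))) / (l ^ 2 * ksq p) ^ 2)
      = fun p => 1 / l ^ 4 * (if p = 0 then 0 else
        (1 - Real.exp (-(t * l ^ 2 * ksq p))) / ksq p ^ 2) := by
    funext p
    split_ifs with hp
    · simp
    · have := VA_ksq_pos hp
      rw [mul_assoc t]
      field_simp
  rw [e]
  refine ⟨h1.mul_left _, ?_⟩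
  rw [tsum_mul_left]
  have h3 : Real.sqrt (t * l ^ 2) = Real.sqrt t * l := by
    rw [Real.sqrt_mul ht, Real.sqrt_sq hl.le]
  rw [h3] at h2
  calc _ ≤ l ^ 3 * (1 / l ^ 4 * (C * (Real.sqrt t * l))) := by gcongr
    _ = C * Real.sqrt t := by
      field_simp

/-- sums of `b` -/
lemma VD_b {l τ : ℝ} (hl : 0 < l) (hτ : 0 ≤ τ) :
    Summable (fun p : Fin 3 → ℤ => if p = 0 then 0 else bz (l ^ 2 * ksq p)) ∧
    Summable (fun p : Fin 3 → ℤ => if p = 0 then 0 else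
      Real.exp (-(τ * (l ^ 2 * ksq p))) * bz (l ^ 2 * ksq p)) := by
  obtain ⟨C, hC, h⟩ := VD_S1
  have h1 : Summable (fun p : Fin 3 → ℤ => if p = 0 then 0 else bz (l ^ 2 * ksq p)) := by
    refine Summable.of_nonneg_of_le (fun p => ?_) (fun p => ?_)
      ((h l hl).1.mul_left (256 * Real.pi ^ 3))
    · split_ifs with hp
      · exact le_rfl
      · have := VA_ksq_pos hp
        exact VC_bz_nonneg (by positivity)
    · split_ifs with hp
      · simp
      · have := VA_ksq_pos hp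
        have h2 := VC_bz_le (z := l ^ 2 * ksq p) (by positivity)
        rw [mul_one_div]
        exact h2
  refine ⟨h1, ?_⟩
  refine Summable.of_nonneg_of_le (fun p => ?_) (fun p => ?_) h1
  · split_ifs with hp
    · exact le_rfl
    · have := VA_ksq_pos hp
      have := VC_bz_nonneg (z := l ^ 2 * ksq p) (by positivity)
      positivity
  · split_ifs with hp
    · exact le_rfl
    · have := VA_ksq_pos hp
      have h2 := VC_bz_nonneg (z := l ^ 2 * ksq p) (by positivity)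
      refine mul_le_of_le_one_left h2 ?_
      rw [Real.exp_le_one_iff]
      have : 0 ≤ τ * (l ^ 2 * ksq p) := by positivity
      linarith

/-- `∑' b ≤ ∑' exp(-τ z) b + 256 π³ ∑' (1 - exp(-τ z))/z²` -/
lemma VD_b_split {l τ : ℝ} (hl : 0 < l) (hτ : 0 ≤ τ) :
    (∑' p : Fin 3 → ℤ, if p = 0 then 0 else bz (l ^ 2 * ksq p))
      ≤ (∑' p : Fin 3 → ℤ, if p = 0 then 0 else
          Real.exp (-(τ * (l ^ 2 * ksq p))) * bz (l ^ 2 * ksq p))
        + 256 * Real.pi ^ 3 * ∑' p : Fin 3 → ℤ, (if p = 0 then 0 else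
          (1 - Real.exp (-(τ * (l ^ 2 * ksq p)))) / (l ^ 2 * ksq p) ^ 2) := by
  obtain ⟨C, hC, h⟩ := VD_S2
  obtain ⟨h1, h2⟩ := VD_b hl hτ
  have h3 := (h l τ hl hτ).1
  rw [← tsum_mul_left, ← h2.tsum_add (h3.mul_left _)]
  refine h1.tsum_le_tsum (fun p => ?_) (h2.add (h3.mul_left _))
  split_ifs with hp
  · simp
  · have := VA_ksq_pos hp
    have h5 := VC_bz_le (z := l ^ 2 * ksq p) (by positivity)
    have h6 : Real.exp (-(τ * (l ^ 2 * ksq p))) ≤ 1 := by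
      rw [Real.exp_le_one_iff]
      have : 0 ≤ τ * (l ^ 2 * ksq p) := by positivity
      linarith
    have h7 : (1 - Real.exp (-(τ * (l ^ 2 * ksq p)))) * bz (l ^ 2 * ksq p)
        ≤ (1 - Real.exp (-(τ * (l ^ 2 * ksq p)))) * (256 * Real.pi ^ 3 / (l ^ 2 * ksq p) ^ 2) :=
      mul_le_mul_of_nonneg_left h5 (by linarith)
    have h8 : (1 - Real.exp (-(τ * (l ^ 2 * ksq p)))) * (256 * Real.pi ^ 3 / (l ^ 2 * ksq p) ^ 2)
        = 256 * Real.pi ^ 3 * ((1 - Real.exp (-(τ * (l ^ 2 * ksq p)))) / (l ^ 2 * ksq p) ^ 2) := by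
      ring
    linarith

/-- The lattice sum `LS` in terms of `b` and `VE`. -/
lemma VD_LS {l τ : ℝ} (hl : 0 < l) (hτ : 0 < τ) :
    l ^ 2 * LB.LS (l ^ 2 * τ) 0 (8 * Real.pi / l ^ 2)
      = (∑' p : Fin 3 → ℤ, if p = 0 then 0 else
          Real.exp (-(τ * (l ^ 2 * ksq p))) * bz (l ^ 2 * ksq p))
        - 32 * Real.pi ^ 2 * VE l τ := by
  have hpi := Real.pi_pos
  obtain ⟨h1, h2⟩ := VD_b (τ := τ) hl hτ.le
  have h3 := VB_VE_summable hl hτ
  unfold LB.LS VE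
  rw [← tsum_mul_left, ← tsum_mul_left, ← h2.tsum_sub (h3.mul_left _)]
  refine tsum_congr fun p => ?_
  split_ifs with hp
  · simp
  · have hk := VA_ksq_pos hp
    rw [LB.Mul_et_sq]
    have e1 : l ^ 2 * τ * ksq p = τ * (l ^ 2 * ksq p) := by ring
    rw [e1, add_zero]
    have e2 : l ^ 2 * LB.epsf (8 * Real.pi / l ^ 2) (ksq p)
        = Real.sqrt ((l ^ 2 * ksq p) ^ 2 + 16 * Real.pi * (l ^ 2 * ksq p)) := by
      unfold LB.epsf
      have h4 : (l ^ 2 * ksq p) ^ 2 + 16 * Real.pi * (l ^ 2 * ksq p)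
          = (l ^ 2) ^ 2 * (ksq p ^ 2 + 2 * (8 * Real.pi / l ^ 2) * ksq p) := by
        field_simp
        ring
      rw [h4, Real.sqrt_mul (by positivity), Real.sqrt_sq (by positivity)]
    have e3 : l ^ 2 * (Real.exp (-(τ * (l ^ 2 * ksq p)))
        * (LB.epsf (8 * Real.pi / l ^ 2) (ksq p) - ksq p - 8 * Real.pi / l ^ 2))
        = Real.exp (-(τ * (l ^ 2 * ksq p))) * (l ^ 2 * LB.epsf (8 * Real.pi / l ^ 2) (ksq p)
          - l ^ 2 * ksq p - 8 * Real.pi) := by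
      field_simp
    rw [e3, e2]
    unfold bz
    have hz : 0 < l ^ 2 * ksq p := by positivity
    generalize l ^ 2 * ksq p = z at *
    field_simp
    ring

/-- summability of `hs` without the summand `p = 0` -/
lemma VD_hs {κ q l : ℝ} (hκ : 0 < κ) (hq : 0 < q) (hq1 : q ≤ 1 / 100) (hl : 0 < l) :
    Summable (fun p : Fin 3 → ℤ => if p = 0 then 0 else hs κ q (l * Real.sqrt (ksq p))) := by
  obtain ⟨C, c, hc, hdec⟩ := hs_decay hκ hq hq1
  have h1 := (riemann_ksq hc (hs_continuousOn hκ hq hq1) hdec).1 l hl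
  have h2 := (hasSum_ite_eq (0 : Fin 3 → ℤ) (hs κ q (l * Real.sqrt (ksq 0)))).summable
  refine (h1.sub h2).congr fun p => ?_
  split_ifs with hp
  · rw [hp]
    ring
  · ring

/-- the sum of the differences -/
lemma VD_T : ∃ A : ℝ, 0 ≤ A ∧ ∀ κ q l : ℝ, 0 < κ → κ ≤ 1 → 0 < q → q ≤ 1 / 100 → 0 < l →
    64 * Real.pi ^ 2 * alq q ^ 2 * VE l (q ^ 242)
        - tsum0 (fun p => hs κ q (l * Real.sqrt (ksq p)))
      ≤ 2 * (∑' p : Fin 3 → ℤ, if p = 0 then 0 else bz (l ^ 2 * ksq p))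
        + A * ((κ ^ 4 + q ^ 20) * (∑' p : Fin 3 → ℤ, if p = 0 then 0 else
            1 / (l ^ 2 * ksq p) ^ 2)
          + (∑' p : Fin 3 → ℤ, if p = 0 then 0 else
            (1 - Real.exp (-(q ^ 60 * (l ^ 2 * ksq p)))) / (l ^ 2 * ksq p) ^ 2)
          + q ^ 242 * VE l (q ^ 242)) := by
  obtain ⟨A, hA, hpt⟩ := VC2_point
  obtain ⟨C1, hC1, hS1⟩ := VD_S1
  obtain ⟨C2, hC2, hS2⟩ := VD_S2
  refine ⟨A, hA, fun κ q l hκ hκ1 hq hq1 hl => ?_⟩
  have s1 := (hS1 l hl).1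
  have s2 := (hS2 l (q ^ 60) hl (by positivity)).1
  have s3 := VB_VE_summable (τ := q ^ 242) hl (by positivity)
  have s4 := (VD_b (τ := 0) hl le_rfl).1
  have s5 := VD_hs hκ hq hq1 hl
  unfold tsum0 VE
  have L := (s3.mul_left (64 * Real.pi ^ 2 * alq q ^ 2)).hasSum.sub s5.hasSum
  have R := (s4.mul_left 2).hasSum.add
    ((((s1.mul_left (κ ^ 4 + q ^ 20)).hasSum.add s2.hasSum).add
      (s3.mul_left (q ^ 242)).hasSum).mul_left A)
  simp only [tsum_mul_left] at L R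
  refine hasSum_le (fun p => ?_) L R
  by_cases hp : p = 0
  · simp [hp]
  · simp only [hp, if_false]
    have hk := VA_ksq_pos hp
    have hr : (l * Real.sqrt (ksq p)) ^ 2 = l ^ 2 * ksq p := by
      rw [mul_pow, Real.sq_sqrt hk.le]
    have h1 := hpt κ q (l ^ 2 * ksq p) (l * Real.sqrt (ksq p)) hκ hκ1 hq hq1 (by positivity) hr
    have h2 : 64 * Real.pi ^ 2 * alq q ^ 2 * (Real.exp (-(q ^ 242 * (l ^ 2 * ksq p)))
        / (l ^ 2 * ksq p))
        = 64 * Real.pi ^ 2 * alq q ^ 2 * Real.exp (-(q ^ 242 * (l ^ 2 * ksq p)))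
          / (l ^ 2 * ksq p) := by ring
    rw [h2]
    exact h1

lemma VD_Isq (q : ℝ) (hq : 0 < q) :
    1 / 4 * Isq q = alq q ^ 2 * (4 * Real.sqrt Real.pi / Real.sqrt (q ^ 242)) := by
  have hpi := Real.pi_pos
  unfold Isq
  rw [Real.sqrt_mul hpi.le]
  have hs1 : Real.sqrt Real.pi ^ 2 = Real.pi := Real.sq_sqrt hpi.le
  have hs0 : 0 < Real.sqrt Real.pi := Real.sqrt_pos.2 hpi
  have hs2 : 0 < Real.sqrt (q ^ 242) := Real.sqrt_pos.2 (by positivity)
  generalize Real.sqrt Real.pi = sp at *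
  generalize Real.sqrt (q ^ 242) = sq at *
  rw [← hs1]
  field_simp
  norm_num

lemma VD_sqrt_pow (q : ℝ) (hq : 0 < q) (n : ℕ) : Real.sqrt (q ^ (2 * n)) = q ^ n := by
  rw [mul_comm, pow_mul, Real.sqrt_sq (by positivity)]

/-- **(MV)** -/
theorem VD_main : MVStatement := by
  have hpi := Real.pi_pos
  obtain ⟨Ca, hCa, hal⟩ := alq_le
  obtain ⟨A, hA, hT⟩ := VD_T
  obtain ⟨C1, hC1, hS1⟩ := VD_S1
  obtain ⟨C2, hC2, hS2⟩ := VD_S2
  obtain ⟨C3, hC3, hE⟩ := VB_VE_le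
  refine ⟨1, 16 * Real.pi ^ 2 + 3 * (2 + Ca) * (4 * Real.sqrt Real.pi + 16 * Real.pi ^ 2)
    + A * (C1 + C2 + C3) + 256 * Real.pi ^ 3 * C2, 1 / 100, by positivity, by norm_num, ?_⟩
  intro κ q l hκ hq hqκ hl hl8 hκl
  rw [pow_one] at hqκ
  have hκ1 : κ ≤ 1 / 64 := hκl.trans ((pow_le_pow_left₀ hl.le hl8 2).trans (by norm_num))
  have hq1 : q ≤ 1 / 100 := by linarith
  have hqk : q ≤ κ := by linarith
  have hkl : κ ≤ l := hκl.trans (by
    rw [pow_two]
    exact mul_le_of_le_one_left hl.le (by linarith))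
  have hα1 := one_le_alq hq hq1
  have hα2 := alq_le_two hq hq1
  have qp : ∀ n : ℕ, 1 ≤ n → q ^ n ≤ q := fun n hn => by
    have := pow_le_pow_of_le_one hq.le (by linarith : q ≤ 1) hn
    rwa [pow_one] at this
  have hα : alq q - 1 ≤ (2 + Ca) * q := by
    have h1 := hal q hq hq1
    have h2 := qp 80 (by norm_num)
    have h3 := qp 160 (by norm_num)
    have h4 := qp 240 (by norm_num)
    have h5 := mul_le_mul_of_nonneg_left h4 hCa
    linarith
  -- notation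
  set Sb := ∑' p : Fin 3 → ℤ, (if p = 0 then 0 else bz (l ^ 2 * ksq p)) with hSb
  set Sbe := ∑' p : Fin 3 → ℤ, (if p = 0 then 0 else
    Real.exp (-(q ^ 80 * (l ^ 2 * ksq p))) * bz (l ^ 2 * ksq p)) with hSbe
  set S1 := ∑' p : Fin 3 → ℤ, (if p = 0 then 0 else 1 / (l ^ 2 * ksq p) ^ 2) with hS1d
  set S2 := ∑' p : Fin 3 → ℤ, (if p = 0 then 0 else
    (1 - Real.exp (-(q ^ 60 * (l ^ 2 * ksq p)))) / (l ^ 2 * ksq p) ^ 2) with hS2d
  set S3 := ∑' p : Fin 3 → ℤ, (if p = 0 then 0 else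
    (1 - Real.exp (-(q ^ 80 * (l ^ 2 * ksq p)))) / (l ^ 2 * ksq p) ^ 2) with hS3d
  have t1 := hT κ q l hκ (by linarith) hq hq1 hl
  have t2 : Sb ≤ Sbe + 256 * Real.pi ^ 3 * S3 := VD_b_split hl (by positivity)
  have t3 : l ^ 2 * LB.LS (l ^ 2 * q ^ 80) 0 (8 * Real.pi / l ^ 2)
      = Sbe - 32 * Real.pi ^ 2 * VE l (q ^ 80) := VD_LS hl (by positivity)
  have t4 := (hS1 l hl).2
  have t5 := (hS2 l (q ^ 60) hl (by positivity)).2
  have t6 := (hS2 l (q ^ 80) hl (by positivity)).2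
  have t7 := hE l (q ^ 242) hl (by positivity)
  have t8 := VB_mono (β := q ^ 242) (τ := q ^ 80) hl (by positivity)
    (pow_le_pow_of_le_one hq.le (by linarith) (by norm_num))
  have t9 := VB_le (β := q ^ 242) hl (by positivity) (by
    rw [le_div_iff₀ (by positivity)]
    have h1 : q ^ 242 ≤ 1 := pow_le_one₀ hq.le (by linarith)
    have h2 : l ^ 2 ≤ 1 := pow_le_one₀ hl.le (by linarith)
    calc q ^ 242 * l ^ 2 ≤ 1 * 1 := mul_le_mul h1 h2 (by positivity) zero_le_one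
      _ = 1 := one_mul 1)
  have e60 : Real.sqrt (q ^ 60) = q ^ 30 := VD_sqrt_pow q hq 30
  have e80 : Real.sqrt (q ^ 80) = q ^ 40 := VD_sqrt_pow q hq 40
  have e242 : Real.sqrt (q ^ 242) = q ^ 121 := VD_sqrt_pow q hq 121
  rw [← hS1d] at t4
  rw [← hS2d, e60] at t5
  rw [← hS3d, e80] at t6
  rw [e242] at t7
  -- left side
  have hL : 1 / 4 * (Isq q - l ^ 3 * tsum0 (fun p => hs κ q (l * Real.sqrt (ksq p))))
      = alq q ^ 2 * Cc l (q ^ 242) + 1 / 4 * l ^ 3 * (64 * Real.pi ^ 2 * alq q ^ 2 * VE l (q ^ 242)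
        - tsum0 (fun p => hs κ q (l * Real.sqrt (ksq p)))) := by
    rw [mul_sub, VD_Isq q hq]
    unfold Cc
    ring
  have hR : 4 * Real.sqrt Real.pi / q ^ 40
      + 1 / 2 * l ^ 5 * LB.LS (l ^ 2 * q ^ 80) 0 (8 * Real.pi / l ^ 2)
      = Cc l (q ^ 80) + 1 / 2 * l ^ 3 * Sbe := by
    have h1 : 1 / 2 * l ^ 5 * LB.LS (l ^ 2 * q ^ 80) 0 (8 * Real.pi / l ^ 2)
        = 1 / 2 * l ^ 3 * (l ^ 2 * LB.LS (l ^ 2 * q ^ 80) 0 (8 * Real.pi / l ^ 2)) := by ring
    rw [h1, t3]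
    unfold Cc
    rw [e80]
    ring
  rw [hL, hR]
  -- the first part
  have hl3 : 0 < l ^ 3 := by positivity
  have hl31 : l ^ 3 ≤ 1 := pow_le_one₀ hl.le (by linarith)
  have a1 : alq q ^ 2 * Cc l (q ^ 242) ≤ Cc l (q ^ 80)
      + (16 * Real.pi ^ 2 + 3 * (2 + Ca) * (4 * Real.sqrt Real.pi + 16 * Real.pi ^ 2)) * q := by
    have h1 : 16 * Real.pi ^ 2 * l ^ 3 * (q ^ 80 - q ^ 242) ≤ 16 * Real.pi ^ 2 * q := by
      have h2 : q ^ 80 - q ^ 242 ≤ q := by
        have h3 := qp 80 (by norm_num)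
        have h4 : 0 < q ^ 242 := by positivity
        linarith
      calc 16 * Real.pi ^ 2 * l ^ 3 * (q ^ 80 - q ^ 242) ≤ 16 * Real.pi ^ 2 * l ^ 3 * q :=
            mul_le_mul_of_nonneg_left h2 (by positivity)
        _ ≤ 16 * Real.pi ^ 2 * 1 * q := by gcongr
        _ = _ := by ring
    have h5 : (alq q ^ 2 - 1) * Cc l (q ^ 242)
        ≤ 3 * ((2 + Ca) * q) * (4 * Real.sqrt Real.pi + 16 * Real.pi ^ 2) := by
      have h6' : alq q ^ 2 - 1 = (alq q - 1) * (alq q + 1) := by ring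
      have h6 : 0 ≤ alq q ^ 2 - 1 := by
        rw [h6']
        exact mul_nonneg (by linarith) (by linarith)
      have h7 : alq q ^ 2 - 1 ≤ 3 * ((2 + Ca) * q) := by
        rw [h6', mul_comm]
        exact mul_le_mul (by linarith) hα (by linarith) (by norm_num)
      have h8 : 0 ≤ 4 * Real.sqrt Real.pi + 16 * Real.pi ^ 2 := by positivity
      have h9 : Cc l (q ^ 242) ≤ 4 * Real.sqrt Real.pi + 16 * Real.pi ^ 2 := by
        refine t9.trans ?_
        exact mul_le_of_le_one_right h8 (by linarith)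
      calc (alq q ^ 2 - 1) * Cc l (q ^ 242)
          ≤ (alq q ^ 2 - 1) * (4 * Real.sqrt Real.pi + 16 * Real.pi ^ 2) :=
            mul_le_mul_of_nonneg_left h9 h6
        _ ≤ _ := mul_le_mul_of_nonneg_right h7 h8
    have h10 : alq q ^ 2 * Cc l (q ^ 242) = Cc l (q ^ 242) + (alq q ^ 2 - 1) * Cc l (q ^ 242) := by
      ring
    rw [h10]
    linarith
  -- the second part
  have b1 : l ^ 3 * ((κ ^ 4 + q ^ 20) * S1) ≤ C1 * (κ ^ 3 + q) := by
    have h1 : (κ ^ 4 + q ^ 20) / l ≤ κ ^ 3 + q := by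
      rw [div_le_iff₀ hl]
      have h2 : κ ^ 4 ≤ κ ^ 3 * l := by
        have : κ ^ 4 = κ ^ 3 * κ := by ring
        rw [this]
        exact mul_le_mul_of_nonneg_left hkl (by positivity)
      have h3 : q ^ 20 ≤ q * l := by
        have e : q ^ 20 = q ^ 19 * q := by ring
        rw [e]
        exact mul_le_mul (qp 19 (by norm_num)) (hqk.trans hkl) hq.le hq.le
      linarith
    calc l ^ 3 * ((κ ^ 4 + q ^ 20) * S1) = (κ ^ 4 + q ^ 20) * (l ^ 3 * S1) := by ring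
      _ ≤ (κ ^ 4 + q ^ 20) * (C1 / l) := by gcongr
      _ = C1 * ((κ ^ 4 + q ^ 20) / l) := by ring
      _ ≤ C1 * (κ ^ 3 + q) := by gcongr
  have hκ3 : 0 ≤ κ ^ 3 := by positivity
  have b2 : l ^ 3 * S2 ≤ C2 * (κ ^ 3 + q) := by
    refine t5.trans (mul_le_mul_of_nonneg_left ?_ hC2)
    have := qp 30 (by norm_num)
    linarith
  have b3 : l ^ 3 * S3 ≤ C2 * (κ ^ 3 + q) := by
    refine t6.trans (mul_le_mul_of_nonneg_left ?_ hC2)
    have := qp 40 (by norm_num)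
    linarith
  have b4 : l ^ 3 * (q ^ 242 * VE l (q ^ 242)) ≤ C3 * (κ ^ 3 + q) := by
    calc l ^ 3 * (q ^ 242 * VE l (q ^ 242)) ≤ l ^ 3 * (q ^ 242 * (C3 * (q ^ 121)⁻¹ / l ^ 3)) := by
          gcongr
      _ = C3 * q ^ 121 := by
          field_simp
      _ ≤ C3 * (κ ^ 3 + q) := by
          refine mul_le_mul_of_nonneg_left ?_ hC3
          have := qp 121 (by norm_num)
          linarith
  have a2 : 1 / 4 * l ^ 3 * (64 * Real.pi ^ 2 * alq q ^ 2 * VE l (q ^ 242)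
        - tsum0 (fun p => hs κ q (l * Real.sqrt (ksq p))))
      ≤ 1 / 2 * l ^ 3 * Sbe + (A * (C1 + C2 + C3) + 256 * Real.pi ^ 3 * C2) * (κ ^ 3 + q) := by
    have h1 := mul_le_mul_of_nonneg_left t1 (by positivity : 0 ≤ 1 / 4 * l ^ 3)
    refine h1.trans ?_
    have h2 := mul_le_mul_of_nonneg_left t2 (by positivity : 0 ≤ 1 / 2 * l ^ 3)
    have h3 : 1 / 4 * l ^ 3 * (2 * Sb + A * ((κ ^ 4 + q ^ 20) * S1 + S2 + q ^ 242 * VE l (q ^ 242)))
        = 1 / 2 * l ^ 3 * Sb + 1 / 4 * (A * (l ^ 3 * ((κ ^ 4 + q ^ 20) * S1) + l ^ 3 * S2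
          + l ^ 3 * (q ^ 242 * VE l (q ^ 242)))) := by ring
    rw [h3]
    have h4 : A * (l ^ 3 * ((κ ^ 4 + q ^ 20) * S1) + l ^ 3 * S2
          + l ^ 3 * (q ^ 242 * VE l (q ^ 242)))
        ≤ A * (C1 * (κ ^ 3 + q) + C2 * (κ ^ 3 + q) + C3 * (κ ^ 3 + q)) :=
      mul_le_mul_of_nonneg_left (by linarith) hA
    have h5 : 1 / 2 * l ^ 3 * (Sbe + 256 * Real.pi ^ 3 * S3)
        = 1 / 2 * l ^ 3 * Sbe + 128 * Real.pi ^ 3 * (l ^ 3 * S3) := by ring
    rw [h5] at h2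
    have h6 : 128 * Real.pi ^ 3 * (l ^ 3 * S3) ≤ 128 * Real.pi ^ 3 * (C2 * (κ ^ 3 + q)) :=
      mul_le_mul_of_nonneg_left b3 (by positivity)
    have h7 : 0 ≤ A * (C1 * (κ ^ 3 + q) + C2 * (κ ^ 3 + q) + C3 * (κ ^ 3 + q)) := by positivity
    have h8 : 0 ≤ 128 * Real.pi ^ 3 * (C2 * (κ ^ 3 + q)) := by positivity
    linarith
  have h9 : 0 ≤ (16 * Real.pi ^ 2 + 3 * (2 + Ca) * (4 * Real.sqrt Real.pi + 16 * Real.pi ^ 2))
      * κ ^ 3 := by positivity
  linarith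

end Pool.Agent.Lib.MP_4952d6_mp.M

end

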