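import Pool.Agent.Lib.MP_4952d6_mp.Pk.G44
import Pool.Agent.Lib.MP_4952d6_mp.Pk.G55
import Pool.Agent.Lib.MP_4952d6_mp.Pm.M03
import Pool.Agent.Lib.MP_4952d6_mp.Pm.M04
import Pool.Agent.Lib.MP_4952d6_mp.Pm.M05
import Pool.Agent.Lib.MP_4952d6_mp.Pm.M09
import Pool.Agent.Lib.MP_4952d6_mp.Pm.M11

/-! Merged modules (to save import time): M.PU7E, M.PPB, M.PU7G. -/

/-! ### M.PU7E -/

section

/-!
# PU7E: integration against the cavity function, mesoscopic regime (first part: copies)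
-/

set_option autoImplicit false
set_option linter.unusedSectionVars false
set_option linter.unusedVariables false
open MeasureTheory Function Filter Topology Set
open scoped ENNReal

namespace Pool.Agent.Lib.MP_4952d6_mp.M

/-! ### Monotonicity in the constant -/

theorem PU7E_GDm_mono {C C' q a : ℝ} {N : ℕ} {D : Dat} (h : D.GDm C q a N) (hC : C ≤ C') :
    D.GDm C' q a N where
  ok := h.ok
  C1 := h.C1.trans hC
  q0 := h.q0
  q1 := h.q1
  a0 := h.a0
  hN := h.hN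
  Nq := h.Nq
  NqU := h.NqU.trans hC
  uh0 := h.uh0.trans hC
  uh_le := h.uh_le
  uh_ksq p := (h.uh_ksq p).trans (mul_le_mul_of_nonneg_right hC h.a0.le)
  ul_le x := (h.ul_le x).trans (mul_le_mul_of_nonneg_right hC (pow_nonneg h.q0.le _))
  uh_sq := h.uh_sq.trans (mul_le_mul_of_nonneg_right hC (pow_nonneg h.q0.le _))
  uh_inv := by
    refine ⟨h.uh_inv.1, h.uh_inv.2.trans ?_⟩
    rw [mul_div_assoc, mul_div_assoc]
    exact mul_le_mul_of_nonneg_right hC (div_nonneg h.a0.le h.q0.le)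
  uh_cos z := by
    refine (h.uh_cos z).trans ?_
    rw [mul_assoc, mul_assoc]
    exact mul_le_mul_of_nonneg_right hC (mul_nonneg h.a0.le (rr_nonneg z))
  d1 α := by
    refine (h.d1 α).trans ?_
    rw [mul_div_assoc, mul_div_assoc]
    exact mul_le_mul_of_nonneg_right hC (div_nonneg (sq_nonneg a) (pow_nonneg h.q0.le _))
  d2 α := by
    refine (h.d2 α).trans ?_
    rw [mul_assoc, mul_assoc]
    exact mul_le_mul_of_nonneg_right hC (mul_nonneg h.a0.le (pow_nonneg h.q0.le _))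
  dd α β := by
    refine (h.dd α β).trans ?_
    rw [mul_div_assoc, mul_div_assoc]
    exact mul_le_mul_of_nonneg_right hC (div_nonneg (sq_nonneg a) (pow_nonneg h.q0.le _))
  ddc α β := (h.ddc α β).trans
    (U7E_mono hC (sq_nonneg a) (pow_nonneg h.q0.le _) (pow_nonneg h.q0.le _))
  Ic := h.Ic.trans (mul_le_mul_of_nonneg_right hC (pow_nonneg h.q0.le _))
  Kint := h.Kint.trans
    (U7E_mono hC (sq_nonneg a) (pow_nonneg h.q0.le _) (pow_nonneg h.q0.le _))

theorem Spl_mono {C C' q : ℝ} {N : ℕ} {D : Dat} {us uo : T3 → ℝ} {sh oh : (Fin 3 → ℤ) → ℝ}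
    (h : Spl C q N D us uo sh oh) (hC : C ≤ C') (hq : 0 < q) : Spl C' q N D us uo sh oh where
  us_bm := h.us_bm
  uo_bm := h.uo_bm
  us_nonneg := h.us_nonneg
  uo_nonneg := h.uo_nonneg
  us_even := h.us_even
  uo_even := h.uo_even
  sh_nonneg := h.sh_nonneg
  oh_nonneg := h.oh_nonneg
  sh_summable := h.sh_summable
  oh_summable := h.oh_summable
  us_hasSum := h.us_hasSum
  uo_hasSum := h.uo_hasSum
  add := h.add
  add_h := h.add_h
  sh0 := h.sh0
  uo_le x := (h.uo_le x).trans (mul_le_mul_of_nonneg_right hC (pow_nonneg hq.le _))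

theorem GDm_V {C q a : ℝ} {N : ℕ} {D : Dat} (h : D.GDm C q a N) :
    0 ≤ D.Vn N ∧ D.Vn N ≤ 4 * C * q ^ 200 := by
  have hu := h.ok.uh_nonneg
  have hN : (0 : ℝ) ≤ N := Nat.cast_nonneg _
  have hs2 : Summable (fun p => D.uh p ^ 2) := by
    refine Summable.of_nonneg_of_le (fun p => sq_nonneg _) (fun p => ?_)
      (h.ok.uh_summable.mul_left (D.uh 0))
    rw [sq]
    exact mul_le_mul_of_nonneg_right (h.uh_le p) (hu p)
  have hterm : ∀ p, 0 ≤ 4 * (N : ℝ) * D.uh p ^ 2 / (1 + 2 * N * D.uh p) ∧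
      4 * (N : ℝ) * D.uh p ^ 2 / (1 + 2 * N * D.uh p) ≤ 4 * (N * D.uh p ^ 2) := by
    intro p
    have h1 : 1 ≤ 1 + 2 * (N : ℝ) * D.uh p := by
      have := mul_nonneg (mul_nonneg zero_le_two hN) (hu p)
      linarith
    have h2 : 0 ≤ 4 * (N : ℝ) * D.uh p ^ 2 := by positivity
    refine ⟨div_nonneg h2 (by linarith), ?_⟩
    have h3 := div_le_self h2 h1
    calc _ ≤ 4 * (N : ℝ) * D.uh p ^ 2 := h3
      _ = _ := by ring
  have hs : Summable (fun p : Fin 3 → ℤ => if p = 0 then 0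
      else 4 * (N : ℝ) * D.uh p ^ 2 / (1 + 2 * N * D.uh p)) := by
    refine Summable.of_nonneg_of_le (fun p => ?_) (fun p => ?_)
      ((hs2.mul_left (N : ℝ)).mul_left 4)
    · split_ifs
      · exact le_rfl
      · exact (hterm p).1
    · split_ifs
      · positivity
      · exact (hterm p).2
  constructor
  · refine tsum_nonneg fun p => ?_
    split_ifs
    · exact le_rfl
    · exact (hterm p).1
  · have h1 : D.Vn N ≤ ∑' p, 4 * ((N : ℝ) * D.uh p ^ 2) := by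
      refine hs.tsum_le_tsum (fun p => ?_) ((hs2.mul_left (N : ℝ)).mul_left 4)
      split_ifs
      · positivity
      · exact (hterm p).2
    rw [tsum_mul_left, tsum_mul_left] at h1
    have h2 := h.uh_sq
    linarith

theorem U7E_int {κ : ℝ} (hκ : 0 < κ) {W f Q : ℝ → ℝ} {R₀ R a θ q : ℝ}
    (h : Reg W R₀ R a f Q θ q) {n : ℕ} (hF : GasFn lam3 (fun x => ftot κ q a f x ^ 2))
    {A c y₀ : ℝ} (hA : 0 ≤ A) (hc : 0 ≤ c)
    (hy : ∀ z, yy (fun x => ftot κ q a f x ^ 2) n z ≤ y₀)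
    (hpt : ∀ᵐ x ∂lam3,
      2 * (effT (dftot κ q a f Q) (hftot κ q a f Q W) x + W (rr x) * ftot κ q a f x ^ 2)
      ≤ A * wrad q a f Q W (rr x) + c * (hk (tq q a) x * ftot κ q a f x ^ 2)
        + wl κ q a x * ftot κ q a f x ^ 2) :
    ∫ z, 2 * (effT (dftot κ q a f Q) (hftot κ q a f Q W) z + W (rr z) * ftot κ q a f z ^ 2)
        * yy (fun x => ftot κ q a f x ^ 2) n z ∂lam3
      ≤ A * y₀ * (∫ x, wrad q a f Q W (rr x) ∂lam3) + c * y₀
        + ∫ z, wl κ q a z * pp (fun x => ftot κ q a f x ^ 2) n z ∂lam3 := by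
  have hT := h.tdata hκ
  have ha := h.a_pos
  have ht : 0 < tq q a := tq_pos h.q_pos ha
  set F : T3 → ℝ := fun x => ftot κ q a f x ^ 2 with hFdef
  have hF1 : ∀ x, F x ≤ 1 := hF.le_one
  have hF0 : ∀ x, 0 ≤ F x := hF.nonneg
  have hFbm : BM F := BM.of_mem_Icc hF.meas fun x => ⟨hF0 x, hF1 x⟩
  have hyb : BM (yy F n) := yy_bm hF n
  have hy0 : ∀ z, 0 ≤ yy F n z := yy_nonneg hF n
  have hppb : BM (pp F n) := hFbm.mul hyb
  have hwlb : BM (wl κ q a) := mix0_bm (omw_ok hκ h.q_pos h.q_le ha)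
  have hrb : BM (fun x : T3 => wrad q a f Q W (rr x)) := h.wrad_bm
  have hkb : BM (hk (tq q a)) :=
    BM.of_mem_Icc (hkD_continuous 0 ht).measurable fun x => ⟨hk_nonneg _ x, hk_le ht x⟩
  have heff : BM (effT (dftot κ q a f Q) (hftot κ q a f Q W)) :=
    (BM.finset_sum _ fun α _ => (hT.df_bm α).pow 2).sub
      ((BM.finset_sum _ fun α _ => hT.hf_bm α).const_mul (1 / 2))
  have hWb : BM (fun x : T3 => W (rr x)) := by
    obtain ⟨M, hM⟩ := h.sc.W_bdd
    exact BM.of_mem_Icc (h.sc.W_meas.comp rr_measurable) fun x => ⟨h.sc.W_nonneg _, hM _⟩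
  have hL : BM (fun z => 2 * (effT (dftot κ q a f Q) (hftot κ q a f Q W) z + W (rr z) * F z)
      * yy F n z) := ((heff.add (hWb.mul hFbm)).const_mul 2).mul hyb
  have h1b : BM (fun z => A * y₀ * wrad q a f Q W (rr z)) := hrb.const_mul _
  have h2b : BM (fun z => c * y₀ * hk (tq q a) z) := hkb.const_mul _
  have h3b : BM (fun z => wl κ q a z * pp F n z) := hwlb.mul hppb
  have hle : ∫ z, 2 * (effT (dftot κ q a f Q) (hftot κ q a f Q W) z + W (rr z) * F z)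
        * yy F n z ∂lam3
      ≤ ∫ z, (A * y₀ * wrad q a f Q W (rr z) + c * y₀ * hk (tq q a) z
        + wl κ q a z * pp F n z) ∂lam3 := by
    refine integral_mono_ae (hL.integrable _) (((h1b.add h2b).add h3b).integrable _) ?_
    filter_upwards [hpt] with x hx
    have e1 := mul_le_mul_of_nonneg_right hx (hy0 x)
    have e2 : A * wrad q a f Q W (rr x) * yy F n x ≤ A * wrad q a f Q W (rr x) * y₀ :=
      mul_le_mul_of_nonneg_left (hy x) (mul_nonneg hA (h.wrad_nonneg _))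
    have e3 : c * (hk (tq q a) x * F x) * yy F n x ≤ c * (hk (tq q a) x * 1) * y₀ := by
      refine mul_le_mul ?_ (hy x) (hy0 x) ?_
      · exact mul_le_mul_of_nonneg_left (mul_le_mul_of_nonneg_left (hF1 x) (hk_nonneg _ x)) hc
      · exact mul_nonneg hc (mul_nonneg (hk_nonneg _ x) zero_le_one)
    show 2 * (effT (dftot κ q a f Q) (hftot κ q a f Q W) x + W (rr x) * F x) * yy F n x
      ≤ A * y₀ * wrad q a f Q W (rr x) + c * y₀ * hk (tq q a) x + wl κ q a x * (F x * yy F n x)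
    have e4 : (A * wrad q a f Q W (rr x) + c * (hk (tq q a) x * F x) + wl κ q a x * F x)
        * yy F n x = A * wrad q a f Q W (rr x) * yy F n x
          + c * (hk (tq q a) x * F x) * yy F n x + wl κ q a x * (F x * yy F n x) := by ring
    calc _ ≤ (A * wrad q a f Q W (rr x) + c * (hk (tq q a) x * F x) + wl κ q a x * F x)
        * yy F n x := e1
      _ = A * wrad q a f Q W (rr x) * yy F n x
          + c * (hk (tq q a) x * F x) * yy F n x + wl κ q a x * (F x * yy F n x) := e4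
      _ ≤ A * wrad q a f Q W (rr x) * y₀ + c * (hk (tq q a) x * 1) * y₀
          + wl κ q a x * (F x * yy F n x) := by linarith
      _ = _ := by ring
  refine hle.trans (le_of_eq ?_)
  rw [integral_add ((h1b.add h2b).integrable _) (h3b.integrable _),
    integral_add (h1b.integrable _) (h2b.integrable _), integral_const_mul, integral_const_mul,
    hk_integral ht, mul_one]


end Pool.Agent.Lib.MP_4952d6_mp.M

end

/-! ### M.PPB -/

section

/-!
# PPB: the kernel `ψ_b`, mesoscopic regime (copy of `DPB`, constant `6000 / κ ^ 4`)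
-/

set_option autoImplicit false
set_option linter.unusedSectionVars false
set_option linter.unusedVariables false
open MeasureTheory Function Filter Topology Set
open scoped ENNReal

namespace Pool.Agent.Lib.MP_4952d6_mp.M


theorem DPB_Fc_bm {W f Q : ℝ → ℝ} {R₀ R a θ q : ℝ} (h : Reg W R₀ R a f Q θ q) :
    BM (fun x : T3 => 1 - fs q a f (rr x) ^ 2) := by
  have hq := h.q_pos
  have ha := h.a_pos
  obtain ⟨L, hL⟩ := sbf_lip (tq_pos hq ha)
  have hs : Continuous (sbf (tq q a)) := by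
    refine LipschitzWith.continuous (K := Real.toNNReal L)
      (LipschitzWith.of_dist_le_mul fun r s => ?_)
    rw [Real.dist_eq, Real.dist_eq]
    exact (hL r s).trans (mul_le_mul_of_nonneg_right (Real.le_coe_toNNReal L) (abs_nonneg _))
  have hf := h.sc.f_cont
  have he : Continuous (efs q a) := by
    unfold efs
    exact (Real.continuous_exp.comp (continuous_const.mul (hs.sub continuous_const))).div_const _
  have hfs : Continuous (fs q a f) := by
    unfold fs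
    exact (hf.comp (continuous_id.min continuous_const)).mul
      (he.comp (continuous_id.min continuous_const))
  have hm : Measurable (fun x : T3 => 1 - fs q a f (rr x) ^ 2) :=
    (continuous_const.sub ((hfs.comp rr_continuous).pow 2)).measurable
  refine BM.of_mem_Icc hm (a := 0) (b := 1) fun x => ?_
  have h0 := h.fs_nonneg (rr x)
  have h1 := h.fs_le_one (rr_nonneg x)
  have h2 := mul_nonneg h0 (sub_nonneg.2 h1)
  have h3 := mul_nonneg h0 h0
  constructor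
  · linarith only [h1, h2, h3, pow_two (fs q a f (rr x))]
  · linarith only [h3, pow_two (fs q a f (rr x))]

theorem DPot_PB1 {κ : ℝ} (hκ : 0 < κ) (hκ1 : κ ≤ 1) {W f Q : ℝ → ℝ} {R₀ R a θ q : ℝ} {N : ℕ}
    (h : Reg W R₀ R a f Q θ q) (hN : (N : ℝ) * a ^ 3 = q ^ 400) :
    Dat.PB (1000 * (5 + 1 / κ ^ 2)) q a N (DPot κ q a f Q W) (mix0 (omp q a) (tq q a))
      (mixh (omp q a) (tq q a)) := by
  have hκ2 : 0 < 1 / κ ^ 2 := by positivity
  have hpi := Real.pi_pos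
  have hpi4 := Real.pi_lt_d2
  have hpi3 := Real.pi_gt_d2
  have hq := h.q_pos
  have hq1 := h.q_le
  have ha := h.a_pos
  have hC : (5000 : ℝ) ≤ 1000 * (5 + 1 / κ ^ 2) := by linarith only [hκ2]
  have hok := omp_ok hq hq1 ha
  have hμ := DPB_muq_pos hq ha
  have hl := DPB_lq_pos hq ha
  have hlm := DPB_lm hq ha
  have hsμ : Real.sqrt (muq q a ^ 2) = muq q a := Real.sqrt_sq hμ.le
  have hNa := DPB_Na hq ha hN
  clear hN
  refine ⟨mix0_bm hok, mix0_nonneg hok, mixh_nonneg hok, fun p => ?_, ?_, mixh_summable hok,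
    mix0_hasSum hok, fun p => ?_, ?_, ?_, ?_⟩
  · -- `ph ≤ 1`
    rw [omp_mixh hq ha]
    have hk := HKE_ksq_nonneg p
    have hE : Real.exp (-(tq q a * ksq p)) ≤ 1 := by
      rw [Real.exp_le_one_iff]
      have := mul_nonneg (tq_pos hq ha).le hk
      linarith
    rw [div_le_one (by positivity)]
    have hm2 : 0 < muq q a ^ 2 := by positivity
    linarith only [mul_le_mul_of_nonneg_left hE hm2.le, hk]
  · -- `ph 0 = 1`
    rw [omp_mixh hq ha, HKE_ksq_zero]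
    simp only [mul_zero, neg_zero, Real.exp_zero, mul_one, zero_add]
    exact div_self (by positivity)
  · -- `ph ≤ C N / q^4 û`
    have hk := HKE_ksq_nonneg p
    have hge := uh_ge hκ hκ1 hq hq1 ha p
    have hK0 : 0 < K2 κ := by unfold K2; positivity
    have hK : K2 κ ≤ 1 + 16 * Real.pi := by
      unfold K2
      have hk2 : κ ^ 2 ≤ 1 := pow_le_one₀ hκ.le hκ1
      linarith only [hk2]
    have hauq := DPB_auq_ge hq hq1 ha
    rw [omp_mixh hq ha]
    change _ ≤ 1000 * (5 + 1 / κ ^ 2) * (N : ℝ) / q ^ 4 * mixh (omu κ q a) (tq q a) p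
    generalize hE0 : Real.exp (-(tq q a * ksq p)) = E at *
    have hE : 0 < E := hE0 ▸ Real.exp_pos _
    generalize 1000 * (5 + 1 / κ ^ 2) = C at *
    have hC0 : 0 < C := by linarith
    have h1q : 1 ≤ 1 / q ^ 4 := by
      rw [le_div_iff₀ (by positivity), one_mul]
      exact pow_le_one₀ hq.le (by linarith)
    have key : lq q a ^ 2 * ksq p + K2 κ ≤ 2 * Real.pi * C * (lq q a ^ 2 * (ksq p + muq q a ^ 2)) := by
      rw [mul_add, hlm]
      have hx : 0 ≤ lq q a ^ 2 * ksq p := by positivity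
      have hpC : Real.pi * 5000 ≤ Real.pi * C := mul_le_mul_of_nonneg_left hC hpi.le
      have h2 : 1 + 16 * Real.pi ≤ 2 * Real.pi * C := by linarith only [hpC, hpi3]
      have h3 : 2 * Real.pi * C * 1 ≤ 2 * Real.pi * C * (1 / q ^ 4) :=
        mul_le_mul_of_nonneg_left h1q (by positivity)
      have h4 : 1 * (lq q a ^ 2 * ksq p) ≤ 2 * Real.pi * C * (lq q a ^ 2 * ksq p) :=
        mul_le_mul_of_nonneg_right (by linarith only [hpC, hpi3]) hx
      linarith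
    have hD : 0 < lq q a ^ 2 * ksq p + K2 κ := by positivity
    have h5 : muq q a ^ 2 * E / (ksq p + muq q a ^ 2) ≤
        C * (N : ℝ) / q ^ 4 * (2 * Real.pi * a * E * lq q a ^ 2 / (lq q a ^ 2 * ksq p + K2 κ)) := by
      have e1 : C * (N : ℝ) / q ^ 4 * (2 * Real.pi * a * E * lq q a ^ 2 /
          (lq q a ^ 2 * ksq p + K2 κ)) =
          (muq q a ^ 2 * E * (2 * Real.pi * C * lq q a ^ 2)) / (lq q a ^ 2 * ksq p + K2 κ) := by
        rw [← hNa]; ring
      rw [e1, div_le_div_iff₀ (by positivity) hD]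
      have h6 := mul_le_mul_of_nonneg_left key (show 0 ≤ muq q a ^ 2 * E by positivity)
      linarith
    refine h5.trans (mul_le_mul_of_nonneg_left (le_trans ?_ hge) (by positivity))
    rw [div_le_div_iff_of_pos_right hD]
    have h7 : 0 ≤ 2 * Real.pi * E * lq q a ^ 2 := by positivity
    have h8 := mul_le_mul_of_nonneg_left hauq h7
    linarith
  · -- first moment
    refine (int_mix0_rr_le hok).trans ?_
    rw [hsμ]
    have e1 : 3 * (3 * muq q a ^ 2) / (muq q a ^ 2 * muq q a) = 9 * (a * q ^ 2 / q ^ 200) := by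
      unfold muq
      field_simp
      ring
    rw [e1]
    have h1 : 0 ≤ a * q ^ 2 / q ^ 200 := by positivity
    have h2 : (9 : ℝ) * (a * q ^ 2 / q ^ 200) ≤ 1000 * (5 + 1 / κ ^ 2) * (a * q ^ 2 / q ^ 200) :=
      mul_le_mul_of_nonneg_right (by linarith) h1
    refine h2.trans (le_of_eq ?_)
    ring
  · -- core
    change ∫ z, mix0 (omp q a) (tq q a) z * (1 - fs q a f (rr z) ^ 2) ∂lam3 ≤ _
    have hbm := DPB_Fc_bm h
    have hS := mix0_le hok
    have hI := h.Ic_le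
    have hI0 : ∀ z : T3, 0 ≤ 1 - fs q a f (rr z) ^ 2 := fun z => by
      have h0 := h.fs_nonneg (rr z)
      have h1 := h.fs_le_one (rr_nonneg z)
      linarith only [h1, mul_nonneg h0 (sub_nonneg.2 h1), pow_two (fs q a f (rr z))]
    have hst := sqrt_tq hq ha
    rw [hst] at hS
    have h1 : ∫ z, mix0 (omp q a) (tq q a) z * (1 - fs q a f (rr z) ^ 2) ∂lam3 ≤
        ∫ z, 4 * (3 * muq q a ^ 2) * (1 / muq q a ^ 2 + 1 / (a / q ^ 79)) *
          (1 - fs q a f (rr z) ^ 2) ∂lam3 := by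
      refine integral_mono (((mix0_bm hok).mul hbm).integrable lam3)
        ((hbm.const_mul _).integrable lam3) fun z => ?_
      exact mul_le_mul_of_nonneg_right (hS z) (hI0 z)
    refine h1.trans ?_
    rw [integral_const_mul]
    refine (mul_le_mul_of_nonneg_left hI (by positivity)).trans ?_
    have e1 : 4 * (3 * muq q a ^ 2) * (1 / muq q a ^ 2 + 1 / (a / q ^ 79)) *
        (4 * Real.pi * a * bq q a ^ 2) = 48 * Real.pi * (a ^ 3 / q ^ 160 + q ^ 315) := by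
      unfold muq bq
      field_simp
      ring
    rw [e1]
    have h2 : a ^ 3 / q ^ 160 ≤ q ^ 300 := by
      rw [div_le_iff₀ (by positivity), ← pow_add]
      exact h.a3_le.trans (DPB_pow_le hq hq1 (by norm_num))
    have h3 : q ^ 315 ≤ q ^ 300 := DPB_pow_le hq hq1 (by norm_num)
    have h4 : 0 < q ^ 300 := by positivity
    calc 48 * Real.pi * (a ^ 3 / q ^ 160 + q ^ 315) ≤ 48 * Real.pi * (q ^ 300 + q ^ 300) :=
          mul_le_mul_of_nonneg_left (add_le_add h2 h3) (by positivity)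
      _ = (96 * Real.pi) * q ^ 300 := by ring
      _ ≤ 1000 * (5 + 1 / κ ^ 2) * q ^ 300 :=
          mul_le_mul_of_nonneg_right (by linarith) h4.le
  · -- long range part
    change ∫ z, mix0 (omp q a) (tq q a) z * (2 * mix0 (omu κ q a) (tq q a) z) ∂lam3 ≤ _
    have hu := omu_ok hκ hq hq1 ha
    have h1 : ∫ z, mix0 (omp q a) (tq q a) z * (2 * mix0 (omu κ q a) (tq q a) z) ∂lam3 =
        2 * ∑' p, mixh (omp q a) (tq q a) p * mixh (omu κ q a) (tq q a) p := by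
      rw [← int_mix0_mul hok hu, ← integral_const_mul]
      refine integral_congr_ae (Eventually.of_forall fun z => ?_)
      change _ = 2 * (mix0 (omp q a) (tq q a) z * mix0 (omu κ q a) (tq q a) z)
      ring
    rw [h1]
    have h2 := (mixh_mul_tsum hok hu).2
    rw [hsμ] at h2
    refine (mul_le_mul_of_nonneg_left h2 (by norm_num)).trans ?_
    have hau := DPB_auq_le hq hq1 ha
    have hau0 : 0 < auq q a := lt_of_lt_of_le ha (DPB_auq_ge hq hq1 ha)
    have e1 : 2 * (4 * (3 * muq q a ^ 2) * (4 * Real.pi * auq q a) *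
        (1 / (muq q a ^ 2 * (κ ^ 2 / lq q a ^ 2)) + 4 / muq q a)) =
        96 * Real.pi * (lq q a ^ 2 * (1 / κ ^ 2) + 4 * muq q a) * auq q a := by
      field_simp
      ring
    rw [e1]
    have h3 : 96 * Real.pi * (lq q a ^ 2 * (1 / κ ^ 2) + 4 * muq q a) * auq q a ≤
        96 * Real.pi * (lq q a ^ 2 * (1 / κ ^ 2) + 4 * muq q a) * (2 * a) :=
      mul_le_mul_of_nonneg_left hau (by positivity)
    refine h3.trans ?_
    have e2 : 96 * Real.pi * (lq q a ^ 2 * (1 / κ ^ 2) + 4 * muq q a) * (2 * a) =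
        192 * Real.pi * (a ^ 3 / q ^ 400 * (1 / κ ^ 2) + 4 * q ^ 198) := by
      unfold lq muq
      field_simp
      norm_num
    rw [e2]
    have h4 : a ^ 3 / q ^ 400 ≤ q ^ 198 := by
      rw [div_le_iff₀ (by positivity), ← pow_add]
      exact h.a3_le.trans (DPB_pow_le hq hq1 (by norm_num))
    have h5 : 0 < q ^ 198 := by positivity
    have h6 : a ^ 3 / q ^ 400 * (1 / κ ^ 2) ≤ q ^ 198 * (1 / κ ^ 2) :=
      mul_le_mul_of_nonneg_right h4 hκ2.le
    calc 192 * Real.pi * (a ^ 3 / q ^ 400 * (1 / κ ^ 2) + 4 * q ^ 198)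
        ≤ 192 * Real.pi * (q ^ 198 * (1 / κ ^ 2) + 5 * q ^ 198) :=
          mul_le_mul_of_nonneg_left (by linarith) (by positivity)
      _ = 192 * Real.pi * ((5 + 1 / κ ^ 2) * q ^ 198) := by ring
      _ ≤ 1000 * ((5 + 1 / κ ^ 2) * q ^ 198) :=
          mul_le_mul_of_nonneg_right (by linarith) (by positivity)
      _ = 1000 * (5 + 1 / κ ^ 2) * q ^ 198 := by ring

theorem DPot_PBm : ∃ A : ℝ, 1 ≤ A ∧
    ∀ (κ : ℝ) (W f Q : ℝ → ℝ) (R₀ R a θ q : ℝ) (N : ℕ), 0 < κ → κ ≤ 1 →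
      Reg W R₀ R a f Q θ q → (N : ℝ) * a ^ 3 = q ^ 400 →
      Dat.PB (A / κ ^ 4) q a N (DPot κ q a f Q W) (mix0 (omp q a) (tq q a))
        (mixh (omp q a) (tq q a)) := by
  refine ⟨6000, by norm_num, fun κ W f Q R₀ R a θ q N hκ hκ1 h hN => ?_⟩
  have h1 := DPot_PB1 hκ hκ1 h hN
  refine U7E_PB_mono h1 ?_ h.q_pos h.a_pos fun p => mixh_nonneg (omu_ok hκ h.q_pos h.q_le h.a_pos) p
  have hκ4 : κ ^ 4 ≤ κ ^ 2 := pow_le_pow_of_le_one hκ.le hκ1 (by norm_num)
  have t3 : 1 / κ ^ 2 ≤ 1 / κ ^ 4 := one_div_le_one_div_of_le (by positivity) hκ4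
  have t1 : 1 ≤ 1 / κ ^ 4 := by
    rw [le_div_iff₀ (by positivity), one_mul]
    exact pow_le_one₀ hκ.le hκ1
  have e : (6000 : ℝ) / κ ^ 4 = 6000 * (1 / κ ^ 4) := by ring
  rw [e]
  linarith

end Pool.Agent.Lib.MP_4952d6_mp.M

end

/-! ### M.PU7G -/

section

/-!
# PU7G: the energy bracket, mesoscopic regime

As `energy_bracket` of `U7E`, with the term `2 û(0)` kept, all constants bounded by `P = B / κ^132`, and the total error
`10000 P³ a q^202 ≤ a q^201 / 4`, because `q ≤ c₀ κ^396`.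
-/

set_option autoImplicit false
set_option linter.unusedSectionVars false
set_option linter.unusedVariables false
open MeasureTheory Function Filter Topology Set
open scoped ENNReal

namespace Pool.Agent.Lib.MP_4952d6_mp.M

theorem bracket_const {P C₁ C₃ C₄ C₅ G k : ℝ} (hP : 1 ≤ P) (h1 : 0 ≤ C₁) (h1' : C₁ ≤ P)
    (h3 : 0 ≤ C₃) (h3' : C₃ ≤ P) (h4 : 0 ≤ C₄) (h4' : C₄ ≤ P) (h5' : C₅ ≤ P)
    (hG : 0 ≤ G) (hG' : G ≤ P) (hk : 0 ≤ k) (hk' : k ≤ 1 + 16 * Real.pi) :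
    4 * Real.pi * (C₄ + (2 + C₄) * (2 * C₃ + 4 * (2 * C₁))
        + (1 + C₄) * (C₃ + (2 * C₃ + C₃) ^ 2 + 8 * (2 * C₃ + C₃) * (2 * C₁) + 3 * G) + C₅)
      + 16 * Real.pi * k + 2 * k * G ≤ 10000 * P ^ 3 := by
  have hpi := Real.pi_pos
  have hpi4 := Real.pi_lt_d2
  have hP0 : 0 < P := by linarith
  have p1 : P ≤ P ^ 3 := by
    calc P = P ^ 1 := (pow_one P).symm
      _ ≤ P ^ 3 := pow_le_pow_right₀ hP (by norm_num)
  have p2 : P ^ 2 ≤ P ^ 3 := pow_le_pow_right₀ hP (by norm_num)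
  have p3 : 1 ≤ P ^ 3 := one_le_pow₀ hP
  have p12 : P ≤ P ^ 2 := by
    calc P = P ^ 1 := (pow_one P).symm
      _ ≤ P ^ 2 := pow_le_pow_right₀ hP (by norm_num)
  have a1 : (2 + C₄) * (2 * C₃ + 4 * (2 * C₁)) ≤ (3 * P) * (10 * P) :=
    mul_le_mul (by linarith) (by linarith) (by positivity) (by positivity)
  have a2 : (2 * C₃ + C₃) ^ 2 ≤ (3 * P) ^ 2 := pow_le_pow_left₀ (by positivity) (by linarith) 2
  have a3 : 8 * (2 * C₃ + C₃) * (2 * C₁) ≤ 8 * (3 * P) * (2 * P) :=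
    mul_le_mul (by linarith) (by linarith) (by positivity) (by positivity)
  have a4 : C₃ + (2 * C₃ + C₃) ^ 2 + 8 * (2 * C₃ + C₃) * (2 * C₁) + 3 * G ≤ 61 * P ^ 2 := by
    have e1 : (3 * P) ^ 2 = 9 * P ^ 2 := by ring
    have e2 : 8 * (3 * P) * (2 * P) = 48 * P ^ 2 := by ring
    linarith
  have a5 : (1 + C₄) * (C₃ + (2 * C₃ + C₃) ^ 2 + 8 * (2 * C₃ + C₃) * (2 * C₁) + 3 * G)
      ≤ (2 * P) * (61 * P ^ 2) :=
    mul_le_mul (by linarith) a4 (by positivity) (by positivity)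
  have e3 : (2 * P) * (61 * P ^ 2) = 122 * P ^ 3 := by ring
  have e4 : (3 * P) * (10 * P) = 30 * P ^ 2 := by ring
  have a6 : C₄ + (2 + C₄) * (2 * C₃ + 4 * (2 * C₁))
        + (1 + C₄) * (C₃ + (2 * C₃ + C₃) ^ 2 + 8 * (2 * C₃ + C₃) * (2 * C₁) + 3 * G) + C₅
      ≤ 154 * P ^ 3 := by linarith
  have a7 : 4 * Real.pi * (C₄ + (2 + C₄) * (2 * C₃ + 4 * (2 * C₁))
        + (1 + C₄) * (C₃ + (2 * C₃ + C₃) ^ 2 + 8 * (2 * C₃ + C₃) * (2 * C₁) + 3 * G) + C₅)
      ≤ 4 * Real.pi * (154 * P ^ 3) := mul_le_mul_of_nonneg_left a6 (by positivity)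
  have a8 : 4 * Real.pi * (154 * P ^ 3) ≤ 4 * 3.15 * (154 * P ^ 3) :=
    mul_le_mul_of_nonneg_right (by linarith) (by positivity)
  have hk2 : k ≤ 52 := by linarith
  have a9 : 16 * Real.pi * k ≤ 16 * 3.15 * 52 :=
    mul_le_mul (by linarith) hk2 hk (by norm_num)
  have a10 : 2 * k * G ≤ 2 * 52 * P := mul_le_mul (by linarith) hG' hG (by norm_num)
  linarith

/-- monotonicity of `c / κ^m` -/
theorem div_pow_mono {κ c c' : ℝ} {m n : ℕ} (hκ : 0 < κ) (hκ1 : κ ≤ 1) (hc : 0 ≤ c) (hcc : c ≤ c')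
    (hmn : m ≤ n) : c / κ ^ m ≤ c' / κ ^ n := by
  have h1 : κ ^ n ≤ κ ^ m := pow_le_pow_of_le_one hκ.le hκ1 hmn
  exact (div_le_div_of_nonneg_left hc (by positivity) h1).trans
    (div_le_div_of_nonneg_right hcc (by positivity))

/-- lower bound of the bracket -/
theorem bracket_lower {κ q a : ℝ} {N : ℕ} (hκ : 0 < κ) (hκ1 : κ ≤ 1) (hq : 0 < q)
    (hq1 : q ≤ 1 / 100) (ha : 0 < a) (hN : (N : ℝ) * a ^ 3 = q ^ 400)
    (hNq : 4 ≤ (N : ℝ) * q ^ 200) {P : ℝ} (hP : 1 ≤ P) (hκP : 1 / κ ^ 2 ≤ P)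
    (hPq : 40000 * P ^ 3 * q ≤ 1) (hc : |c0q κ q a| ≤ P * q ^ 200) {V : ℝ} (hV : 0 ≤ V)
    {Ss : (Fin 3 → ℤ) → ℝ} (hSs : ∀ p, 0 ≤ Ss p ∧ Ss p ≤ 1) :
    -(4 * Real.pi * a * (-(2 * c0q κ q a) + V)
        - 1 / N * tsum0 (fun p => wlh κ q a p * (1 - Ss p))) ≤ N * a * q ^ 201 / 4 := by
  have hpi := Real.pi_pos
  have hpi4 := Real.pi_lt_d2
  have hqle : q ≤ 1 := by linarith
  have hw := omw_ok hκ hq hq1 ha
  have hw0 := wlh_nonneg hκ hq hq1 ha
  have hl := lq_pos hq ha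
  have hN0 : (0 : ℝ) < N := by
    by_contra hcon
    have h0 : (N : ℝ) = 0 := le_antisymm (not_lt.1 hcon) (Nat.cast_nonneg N)
    rw [h0, zero_mul] at hNq
    linarith
  have hNl : (N : ℝ) * a * lq q a ^ 2 = 1 := by
    unfold lq
    have e : (N : ℝ) * a * (a / q ^ 200) ^ 2 = (N * a ^ 3) / q ^ 400 := by field_simp
    rw [e, hN, div_self (by positivity)]
  have hA : 0 < auq q a := OMB_auq hq hq1 ha
  have hA2 : auq q a ≤ 2 * a := by
    unfold auq
    have := mul_le_mul_of_nonneg_left (alq_le_two hq hq1) ha.le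
    linarith
  have hK0 : 0 ≤ K2 κ := OMA_K2 κ
  have hK : K2 κ ≤ 52 := by
    unfold K2
    have : κ ^ 2 ≤ 1 := pow_le_one₀ hκ.le hκ1
    linarith
  -- the sum
  have hS : tsum0 (fun p => wlh κ q a p * (1 - Ss p)) ≤ mix0 (omw κ q a) (tq q a) 0 := by
    rw [mix0_zero_eq hw]
    unfold tsum0
    refine Summable.tsum_le_tsum (fun p => ?_) ?_ (mixh_summable hw)
    · split_ifs
      · exact hw0 p
      · have h1 := hSs p
        have h2 : wlh κ q a p * (1 - Ss p) ≤ wlh κ q a p * 1 :=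
          mul_le_mul_of_nonneg_left (by linarith) (hw0 p)
        rw [mul_one] at h2
        exact h2
    · refine Summable.of_nonneg_of_le (fun p => ?_) (fun p => ?_) (mixh_summable hw)
      · split_ifs
        · exact le_rfl
        · exact mul_nonneg (hw0 p) (by linarith [(hSs p).2])
      · split_ifs
        · exact hw0 p
        · have h1 := hSs p
          have h2 : wlh κ q a p * (1 - Ss p) ≤ wlh κ q a p * 1 :=
            mul_le_mul_of_nonneg_left (by linarith) (hw0 p)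
          rw [mul_one] at h2
          exact h2
  have h1 := mix0_le hw 0
  rw [sqrt_tq hq ha] at h1
  have hN1 : 1 / (N : ℝ) ≤ q ^ 79 := by
    rw [div_le_iff₀ hN0]
    have h2 : q ^ 200 ≤ q ^ 79 := pow_le_pow_of_le_one hq.le hqle (by norm_num)
    have h3 : (N : ℝ) * q ^ 200 ≤ N * q ^ 79 := mul_le_mul_of_nonneg_left h2 hN0.le
    linarith
  have hSN : 1 / N * tsum0 (fun p => wlh κ q a p * (1 - Ss p)) ≤ 11000 * P * (a * q ^ 79) := by
    calc 1 / N * tsum0 (fun p => wlh κ q a p * (1 - Ss p))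
        ≤ 1 / N * (4 * (4 * Real.pi * auq q a * (K2 κ / lq q a ^ 2))
            * (1 / (κ ^ 2 / lq q a ^ 2) + 1 / (a / q ^ 79))) :=
          mul_le_mul_of_nonneg_left (hS.trans h1) (by positivity)
      _ ≤ 1 / N * (4 * (4 * Real.pi * (2 * a) * (52 / lq q a ^ 2))
            * (1 / (κ ^ 2 / lq q a ^ 2) + 1 / (a / q ^ 79))) := by
          gcongr
      _ = 32 * Real.pi * 52 * (1 / N * (1 / κ ^ 2) * a + q ^ 79 * (1 / (N * lq q a ^ 2))) := by
          field_simp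
          ring
      _ = 32 * Real.pi * 52 * (1 / N * (1 / κ ^ 2) * a + q ^ 79 * a) := by
          have e : 1 / (N * lq q a ^ 2) = a := by
            rw [div_eq_iff (by positivity)]
            linarith
          rw [e]
      _ ≤ 32 * Real.pi * 52 * (q ^ 79 * P * a + q ^ 79 * (P * a)) := by
          have i1 : 1 / (N : ℝ) * (1 / κ ^ 2) ≤ q ^ 79 * P :=
            mul_le_mul hN1 hκP (by positivity) (by positivity)
          have i2 : a ≤ P * a := le_mul_of_one_le_left ha.le hP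
          gcongr
      _ = 64 * 52 * Real.pi * (P * (a * q ^ 79)) := by ring
      _ ≤ 64 * 52 * 3.15 * (P * (a * q ^ 79)) :=
          mul_le_mul_of_nonneg_right (by linarith) (by positivity)
      _ ≤ 11000 * P * (a * q ^ 79) := by
          have : 0 ≤ P * (a * q ^ 79) := by positivity
          linarith
  have h200 : q ^ 200 ≤ q ^ 79 := pow_le_pow_of_le_one hq.le hqle (by norm_num)
  have hc2 : 4 * Real.pi * a * (2 * c0q κ q a) ≤ 30 * P * (a * q ^ 79) := by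
    have i1 : c0q κ q a ≤ P * q ^ 79 :=
      (le_abs_self _).trans (hc.trans (mul_le_mul_of_nonneg_left h200 (by linarith)))
    have i2 : 4 * Real.pi * a * (2 * c0q κ q a) ≤ 4 * Real.pi * a * (2 * (P * q ^ 79)) :=
      mul_le_mul_of_nonneg_left (by linarith) (by positivity)
    have i3 : 8 * Real.pi * (P * (a * q ^ 79)) ≤ 30 * (P * (a * q ^ 79)) :=
      mul_le_mul_of_nonneg_right (by linarith) (by positivity)
    linarith
  have hVa : 0 ≤ 4 * Real.pi * a * V := by positivity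
  have hfin : 12000 * P * (a * q ^ 79) ≤ N * a * q ^ 201 / 4 := by
    have i1 : a * q * 4 ≤ a * q * (N * q ^ 200) :=
      mul_le_mul_of_nonneg_left hNq (by positivity)
    have i2 : P ≤ P ^ 3 := by
      calc P = P ^ 1 := (pow_one P).symm
        _ ≤ P ^ 3 := pow_le_pow_right₀ hP (by norm_num)
    have i3 : 40000 * P * q ≤ 1 :=
      (mul_le_mul_of_nonneg_right (by linarith) hq.le).trans hPq
    have i4 : q ^ 77 ≤ 1 := pow_le_one₀ hq.le hqle
    have i5 : 12000 * P * q * q ^ 77 ≤ 1 * 1 :=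
      mul_le_mul (by linarith [mul_nonneg (zero_le_one.trans hP) hq.le]) i4 (by positivity)
        (by norm_num)
    have i6 : 12000 * P * (a * q ^ 79) = (12000 * P * q * q ^ 77) * (a * q) := by ring
    have i7 : (12000 * P * q * q ^ 77) * (a * q) ≤ 1 * 1 * (a * q) :=
      mul_le_mul_of_nonneg_right i5 (by positivity)
    rw [i6]
    have i8 : (N : ℝ) * a * q ^ 201 = a * q * (N * q ^ 200) := by ring
    rw [i8]
    linarith
  have hPa : 0 ≤ P * (a * q ^ 79) := by positivity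
  linarith

/-- The energy bracket. -/
theorem energy_bracket_m (hG : MGStatement) : ∃ (c₀ A : ℝ), 0 < c₀ ∧ 1 ≤ A ∧
    ∀ (κ : ℝ) (W f Q : ℝ → ℝ) (R₀ R a θ q : ℝ) (N : ℕ), 0 < κ → κ ≤ 1 →
    Reg W R₀ R a f Q θ q → κ ≤ lq q a ^ 2 → q ≤ c₀ * κ ^ 396 →
    (N : ℝ) * a ^ 3 = q ^ 400 →
    (2 ≤ N ∧ 40000 * A * q ≤ κ ^ 4 ∧ |c0q κ q a| ≤ A / κ ^ 4 * q ^ 200 ∧
      (N : ℝ) * ∑' p, mixh (omu κ q a) (tq q a) p ^ 2 ≤ A / κ ^ 4 * q ^ 200) ∧
    (∀ z, yy (fun x => ftot κ q a f x ^ 2) (N - 2) z ≤ 2) ∧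
    0 < Zg (fun x => ftot κ q a f x ^ 2) N ∧
    -(4 * Real.pi * a * (-(2 * c0q κ q a) + 2 * mixh (omu κ q a) (tq q a) 0
          + (DPot κ q a f Q W).Vn N)
        - 1 / N * tsum0 (fun p => wlh κ q a p * (1 - (DPot κ q a f Q W).Ss 1 N p)))
      ≤ N * a * q ^ 201 / 4 ∧
    ∫ z, 2 * (effT (dftot κ q a f Q) (hftot κ q a f Q W) z + W (rr z) * ftot κ q a f z ^ 2)
        * yy (fun x => ftot κ q a f x ^ 2) (N - 2) z ∂lam3
      ≤ 8 * Real.pi * a + (4 * Real.pi * a * (-(2 * c0q κ q a) + 2 * mixh (omu κ q a) (tq q a) 0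
          + (DPot κ q a f Q W).Vn N)
        - 1 / N * tsum0 (fun p => wlh κ q a p * (1 - (DPot κ q a f Q W).Ss 1 N p)))
        + a * q ^ 201 / 4 := by
  obtain ⟨Ag, qg, hAg1, hqg, hgas⟩ := hG
  obtain ⟨AD, hAD1, hGD⟩ := DPot_GDm
  obtain ⟨AP, hAP1, hPB⟩ := DPot_PBm
  obtain ⟨AS, hAS1, hSp⟩ := DPot_Spl
  obtain ⟨Cw, hCw0, hwtot⟩ := wtot_le_m
  obtain ⟨C₄, hC4, hmr⟩ := main_radial
  obtain ⟨C₅, hC5, halq⟩ := alq_le
  obtain ⟨A₁, hA₁⟩ : ∃ A₁, A₁ = AD + AP + AS + Cw := ⟨_, rfl⟩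
  have hA1 : 1 ≤ A₁ := by linarith
  have hA0 : 0 < A₁ := by linarith
  have hAg0 : 0 < Ag := by linarith
  obtain ⟨B, hB⟩ : ∃ B, B = Ag * A₁ ^ 33 + C₄ + C₅ := ⟨_, rfl⟩
  have hA133 : A₁ ≤ Ag * A₁ ^ 33 := by
    have h1 : A₁ ^ 1 ≤ A₁ ^ 33 := pow_le_pow_right₀ hA1 (by norm_num)
    rw [pow_one] at h1
    have h2 : 1 * A₁ ^ 33 ≤ Ag * A₁ ^ 33 := mul_le_mul_of_nonneg_right hAg1 (by positivity)
    linarith
  have hAB : A₁ ≤ B := by linarith
  have hB1 : 1 ≤ B := by linarith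
  have hB0 : 0 < B := by linarith
  obtain ⟨D1, hD1⟩ : ∃ D1, D1 = 1000 * (Ag * A₁ ^ 3) ^ 20 := ⟨_, rfl⟩
  have hD10 : 0 < D1 := by rw [hD1]; positivity
  obtain ⟨D2, hD2⟩ : ∃ D2, D2 = 40000 * B ^ 3 := ⟨_, rfl⟩
  have hD20 : 0 < D2 := by rw [hD2]; positivity
  refine ⟨min qg (min (1 / D1) (1 / D2)), A₁,
    lt_min hqg (lt_min (by positivity) (by positivity)), hA1, ?_⟩
  intro κ W f Q R₀ R a θ q N hκ hκ1 h hκl hq0 hN
  have hq := h.q_pos
  have hq1 := h.q_le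
  have ha := h.a_pos
  have hqle : q ≤ 1 := h.q_le_one
  have hpi := Real.pi_pos
  obtain ⟨c₀, hc₀⟩ : ∃ c₀, c₀ = min qg (min (1 / D1) (1 / D2)) := ⟨_, rfl⟩
  rw [← hc₀] at hq0
  have g1 : c₀ ≤ qg := by rw [hc₀]; exact min_le_left _ _
  have g2 : c₀ ≤ 1 / D1 := by rw [hc₀]; exact (min_le_right _ _).trans (min_le_left _ _)
  have g3 : c₀ ≤ 1 / D2 := by rw [hc₀]; exact (min_le_right _ _).trans (min_le_right _ _)
  have hκ396 : 0 < κ ^ 396 := by positivity
  have hc₀0 : 0 < c₀ := by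
    by_contra hcon
    have : c₀ * κ ^ 396 ≤ 0 := mul_nonpos_of_nonpos_of_nonneg (not_lt.1 hcon) hκ396.le
    linarith
  have hqqg : q ≤ qg := by
    have h1 : κ ^ 396 ≤ 1 := pow_le_one₀ hκ.le hκ1
    have h2 : c₀ * κ ^ 396 ≤ c₀ * 1 := mul_le_mul_of_nonneg_left h1 hc₀0.le
    linarith
  -- the constants
  obtain ⟨C₁, hC₁⟩ : ∃ C₁, C₁ = A₁ / κ ^ 4 := ⟨_, rfl⟩
  obtain ⟨P, hP⟩ : ∃ P, P = B / κ ^ 132 := ⟨_, rfl⟩
  obtain ⟨C₃, hC₃⟩ : ∃ C₃, C₃ = Cw / κ ^ 2 := ⟨_, rfl⟩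
  obtain ⟨G, hG⟩ : ∃ G, G = Ag * C₁ ^ 33 := ⟨_, rfl⟩
  have hC10 : 0 < C₁ := by rw [hC₁]; positivity
  have hC30 : 0 ≤ C₃ := by rw [hC₃]; positivity
  have hG0 : 0 ≤ G := by rw [hG]; positivity
  have hC1P : C₁ ≤ P := by
    rw [hC₁, hP]
    exact div_pow_mono hκ hκ1 hA0.le hAB (by norm_num)
  have hC3P : C₃ ≤ P := by
    rw [hC₃, hP]
    exact div_pow_mono hκ hκ1 hCw0 (by linarith) (by norm_num)
  have hC31 : C₃ ≤ C₁ := by
    rw [hC₃, hC₁]
    exact div_pow_mono hκ hκ1 hCw0 (by linarith) (by norm_num)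
  have hBP : B ≤ P := by
    have h1 := div_pow_mono hκ hκ1 hB0.le (le_refl B) (Nat.zero_le 132)
    rw [pow_zero, div_one] at h1
    rw [hP]
    exact h1
  have hP1 : 1 ≤ P := hB1.trans hBP
  have hC4P : C₄ ≤ P := by
    have : 0 ≤ Ag * A₁ ^ 33 := by positivity
    linarith
  have hC5P : C₅ ≤ P := by
    have : 0 ≤ Ag * A₁ ^ 33 := by positivity
    linarith
  have hGP : G ≤ P := by
    have e : G = Ag * A₁ ^ 33 / κ ^ 132 := by
      rw [hG, hC₁, div_pow, ← pow_mul]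
      ring
    rw [e, hP]
    exact div_le_div_of_nonneg_right (by linarith) (by positivity)
  have hPq : 40000 * P ^ 3 * q ≤ 1 := by
    have e : 40000 * P ^ 3 = D2 / κ ^ 396 := by
      rw [hP, hD2, div_pow, ← pow_mul]
      ring
    rw [e]
    calc D2 / κ ^ 396 * q ≤ D2 / κ ^ 396 * (c₀ * κ ^ 396) :=
          mul_le_mul_of_nonneg_left hq0 (by positivity)
      _ = D2 * c₀ := by field_simp
      _ ≤ D2 * (1 / D2) := mul_le_mul_of_nonneg_left g3 hD20.le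
      _ = 1 := by field_simp
  have hgq : (Ag * C₁ ^ 3) ^ 20 * q ≤ 1 / 1000 := by
    have e : (Ag * C₁ ^ 3) ^ 20 = D1 / 1000 / κ ^ 240 := by
      rw [hC₁, hD1, div_pow, ← pow_mul, ← mul_div_assoc, div_pow, ← pow_mul]
      ring
    have h1 : κ ^ 396 ≤ κ ^ 240 := pow_le_pow_of_le_one hκ.le hκ1 (by norm_num)
    rw [e]
    calc D1 / 1000 / κ ^ 240 * q ≤ D1 / 1000 / κ ^ 240 * (c₀ * κ ^ 396) :=
          mul_le_mul_of_nonneg_left hq0 (by positivity)
      _ ≤ D1 / 1000 / κ ^ 240 * (c₀ * κ ^ 240) :=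
          mul_le_mul_of_nonneg_left (mul_le_mul_of_nonneg_left h1 hc₀0.le) (by positivity)
      _ = D1 * c₀ / 1000 := by field_simp
      _ ≤ D1 * (1 / D1) / 1000 := by
          have := mul_le_mul_of_nonneg_left g2 hD10.le
          linarith
      _ = 1 / 1000 := by field_simp
  have hκP : 1 / κ ^ 2 ≤ P := by
    have h1 := div_pow_mono hκ hκ1 zero_le_one hB1 (show 2 ≤ 132 by norm_num)
    rw [hP]
    exact h1
  have hAκ : 40000 * A₁ * q ≤ κ ^ 4 := by
    have h1 : 40000 * C₁ * q ≤ 1 := by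
      have i2 : P ≤ P ^ 3 := by
        calc P = P ^ 1 := (pow_one P).symm
          _ ≤ P ^ 3 := pow_le_pow_right₀ hP1 (by norm_num)
      exact (mul_le_mul_of_nonneg_right (by linarith) hq.le).trans hPq
    have e : 40000 * A₁ * q = 40000 * C₁ * q * κ ^ 4 := by
      rw [hC₁]
      field_simp
    rw [e]
    exact mul_le_of_le_one_left (by positivity) h1
  have h200 : q ^ 200 ≤ q := by
    calc q ^ 200 ≤ q ^ 1 := pow_le_pow_of_le_one hq.le hqle (by norm_num)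
      _ = q := pow_one q
  have h202 : q ^ 202 ≤ q := by
    calc q ^ 202 ≤ q ^ 1 := pow_le_pow_of_le_one hq.le hqle (by norm_num)
      _ = q := pow_one q
  have hp200 : 0 < q ^ 200 := pow_pos hq _
  have hp202 : 0 < q ^ 202 := pow_pos hq _
  have hPq1 : 40000 * P * q ≤ 1 := by
    have i2 : P ≤ P ^ 3 := by
      calc P = P ^ 1 := (pow_one P).symm
        _ ≤ P ^ 3 := pow_le_pow_right₀ hP1 (by norm_num)
    exact (mul_le_mul_of_nonneg_right (by linarith) hq.le).trans hPq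
  have hPq0 : 0 ≤ P * q := by positivity
  have hP200 : P * q ^ 200 ≤ P * q := mul_le_mul_of_nonneg_left h200 (by linarith)
  have hP202 : P * q ^ 202 ≤ P * q := mul_le_mul_of_nonneg_left h202 (by linarith)
  -- the data
  set D : Dat := DPot κ q a f Q W with hD
  have hgd : D.GDm C₁ q a N := by
    rw [hC₁]
    exact PU7E_GDm_mono (hGD κ W f Q R₀ R a θ q N hκ hκ1 h hκl hN)
      (div_le_div_of_nonneg_right (by linarith) (by positivity))
  have hpb : Dat.PB C₁ q a N D (mix0 (omp q a) (tq q a)) (mixh (omp q a) (tq q a)) := by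
    rw [hC₁]
    exact U7E_PB_mono (hPB κ W f Q R₀ R a θ q N hκ hκ1 h hN)
      (div_le_div_of_nonneg_right (by linarith) (by positivity)) hq ha hgd.ok.uh_nonneg
  have hsp := Spl_mono (C' := C₁) (hSp κ W f Q R₀ R a θ q N hκ hκ1 h hN)
    (by rw [hC₁]; exact div_le_div_of_nonneg_right (by linarith) (by positivity)) hq
  obtain ⟨n, rfl⟩ : ∃ n, N = n + 2 := by
    have h4 : 4 ≤ (N : ℝ) := by
      have h5 := hgd.Nq
      have h6 : q ^ 200 ≤ 1 := pow_le_one₀ hq.le hqle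
      have h7 : (N : ℝ) * q ^ 200 ≤ N * 1 := mul_le_mul_of_nonneg_left h6 (Nat.cast_nonneg _)
      linarith
    have h5 : 4 ≤ N := by exact_mod_cast h4
    exact ⟨N - 2, by omega⟩
  have hT := h.tdata hκ
  have hF : GasFn lam3 (fun x => ftot κ q a f x ^ 2) :=
    { meas := ((hT.WDf 0).sm.measurable).pow_const 2
      nonneg := fun x => sq_nonneg _
      le_one := fun x => pow_le_one₀ (hT.nonneg x) (hT.le_one x)
      even := fun x => by rw [hT.even x] }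
  have hgas' := hgas C₁ q a (n + 2) D _ _ _ _ _ _ hgd hsp hpb hqqg hgq
  rw [hD, DPot_F, ← hD, ← hG] at hgas'
  obtain ⟨hZ, hs1, hO1, hO2⟩ := hgas'
  have e2 : n + 2 - 2 = n := Nat.add_sub_cancel n 2
  rw [e2] at hO2 ⊢
  obtain ⟨hV0', hV'⟩ := GDm_V hgd
  have hu0 : 0 ≤ D.uh 0 := hgd.ok.uh_nonneg 0
  have hu0' : D.uh 0 ≤ C₁ * q ^ 200 := by
    have h1 := hgd.uh0
    have h2 := hgd.Nq
    have h3 : D.uh 0 * 4 ≤ D.uh 0 * (((n + 2 : ℕ) : ℝ) * q ^ 200) :=
      mul_le_mul_of_nonneg_left h2 hu0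
    have h4 : ((n + 2 : ℕ) : ℝ) * D.uh 0 * q ^ 200 ≤ C₁ * q ^ 200 :=
      mul_le_mul_of_nonneg_right h1 hp200.le
    have e : D.uh 0 * (((n + 2 : ℕ) : ℝ) * q ^ 200) = ((n + 2 : ℕ) : ℝ) * D.uh 0 * q ^ 200 := by
      ring
    linarith
  obtain ⟨V, hVd⟩ : ∃ V, V = 2 * D.uh 0 + D.Vn (n + 2) := ⟨_, rfl⟩
  have hV0 : 0 ≤ V := by linarith
  have hV : V ≤ 4 * (2 * C₁) * q ^ 200 := by
    have : 0 ≤ C₁ * q ^ 200 := by positivity
    linarith
  set F : T3 → ℝ := fun x => ftot κ q a f x ^ 2 with hFdef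
  set y₀ : ℝ := yy F n 0 with hy₀
  have hy0 : 0 ≤ y₀ := yy_nonneg hF n 0
  have hyle : ∀ z, yy F n z ≤ y₀ := yy_le hF n
  have hyb : y₀ ≤ 1 + V + G * q ^ 202 := by linarith
  have hGq : G * q ^ 202 ≤ P * q := (mul_le_mul_of_nonneg_right hGP hp202.le).trans hP202
  have hCq : C₁ * q ^ 200 ≤ P * q := (mul_le_mul_of_nonneg_right hC1P hp200.le).trans hP200
  have hC3q : C₃ * q ^ 200 ≤ P * q := (mul_le_mul_of_nonneg_right hC3P hp200.le).trans hP200
  have hy2 : y₀ ≤ 2 := by linarith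
  obtain ⟨hc0', hpt⟩ := hwtot κ W f Q R₀ R a θ q hκ hκ1 h
  rw [← hC₃] at hc0' hpt
  have hc01 : |c0q κ q a| ≤ C₁ * q ^ 200 :=
    hc0'.trans (mul_le_mul_of_nonneg_right hC31 hp200.le)
  have hcP : |c0q κ q a| ≤ P * q ^ 200 :=
    hc0'.trans (mul_le_mul_of_nonneg_right hC3P hp200.le)
  rw [← hC₁]
  refine ⟨⟨by omega, hAκ, hc01, hgd.uh_sq⟩, fun z => (hyle z).trans hy2, hZ, ?_, ?_⟩
  · have hSs : ∀ p, 0 ≤ D.Ss 1 (n + 2) p ∧ D.Ss 1 (n + 2) p ≤ 1 := by
      intro p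
      have h1 : 0 ≤ 2 * 1 * ((n + 2 : ℕ) : ℝ) * D.uh p := by
        have := hgd.ok.uh_nonneg p
        positivity
      constructor
      · unfold Dat.Ss
        positivity
      · unfold Dat.Ss
        rw [div_le_one (by linarith)]
        linarith
    have h1 := bracket_lower hκ hκ1 hq hq1 ha hN hgd.Nq hP1 hκP hPq hcP hV0 hSs
    rw [hVd] at h1
    have e : -(2 * c0q κ q a) + 2 * mixh (omu κ q a) (tq q a) 0 + D.Vn (n + 2)
        = -(2 * c0q κ q a) + (2 * D.uh 0 + D.Vn (n + 2)) := by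
      have : D.uh 0 = mixh (omu κ q a) (tq q a) 0 := rfl
      rw [this]
      ring
    rw [e]
    exact h1
  -- constants
  have hα1 := one_le_alq hq hq1
  have hα2 := alq_le_two hq hq1
  have hauq : 0 ≤ auq q a := mul_nonneg ha.le (zero_le_one.trans hα1)
  have hauq2 : auq q a ≤ 2 * a := by
    unfold auq
    have := mul_le_mul_of_nonneg_left hα2 ha.le
    linarith
  have hmh1 : mh κ (q ^ 242) ≤ 1 := mh_le_one (by positivity)
  have hmh2 : 1 - mh κ (q ^ 242) ≤ K2 κ * q ^ 242 := by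
    have := mh_ge_one_sub (κ := κ) (s := q ^ 242) (by positivity)
    linarith
  have hK2 : 0 ≤ K2 κ := OMA_K2 κ
  have hK2' : K2 κ ≤ 1 + 16 * Real.pi := by
    unfold K2
    have : κ ^ 2 ≤ 1 := pow_le_one₀ hκ.le hκ1
    linarith
  obtain ⟨E, hE⟩ : ∃ E, E = Real.exp (-(2 * c0q κ q a) + C₃ * q ^ 300) := ⟨_, rfl⟩
  obtain ⟨H, hH⟩ : ∃ H, H = Real.exp (-(2 * (auq q a * sbf (tq q a) (bq q a))))
    / (1 - q ^ 80) ^ 2 := ⟨_, rfl⟩
  have hE0 : 0 ≤ E := by rw [hE]; exact (Real.exp_pos _).le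
  have hH0 : 0 ≤ H := by rw [hH]; positivity
  have hint := U7E_int hκ h (n := n) hF (A := E * H)
    (c := 4 * Real.pi * auq q a * (1 - mh κ (q ^ 242))) (y₀ := y₀)
    (mul_nonneg hE0 hH0) (mul_nonneg (by positivity) (by linarith)) hyle
    (by rw [hE, hH]; exact hpt)
  -- `T1`
  have hT1a := hmr W f Q R₀ R a θ q h
  rw [← hH] at hT1a
  have hsm : (2 * C₃ + C₃) * q ^ 200 ≤ 1 := by linarith
  have hEy := U7E_arith1 (y := y₀) (C := 2 * C₁) (C₆ := C₃) (C₈ := G) hq hqle (by positivity)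
    hC30 hC30 hG0 hc0' hV0 hV hyb hsm
  obtain ⟨K, hKdef⟩ : ∃ K, K = C₃ + (2 * C₃ + C₃) ^ 2 + 8 * (2 * C₃ + C₃) * (2 * C₁) + 3 * G :=
    ⟨_, rfl⟩
  obtain ⟨U, hUdef⟩ : ∃ U, U = 2 * C₃ + 4 * (2 * C₁) := ⟨_, rfl⟩
  have hK0 : 0 ≤ K := by rw [hKdef]; positivity
  have hU0 : 0 ≤ U := by rw [hUdef]; positivity
  rw [← hE, ← hKdef] at hEy
  have hu : |-(2 * c0q κ q a) + V| ≤ U * q ^ 200 := by
    have h1 : |-(2 * c0q κ q a) + V| ≤ |-(2 * c0q κ q a)| + |V| := abs_add_le _ _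
    rw [abs_neg, abs_mul, abs_two, abs_of_nonneg hV0] at h1
    rw [hUdef]
    linarith
  obtain ⟨hP0, hPy⟩ := U7E_arith2 hq (hq1.trans (by norm_num)) hK0 hU0 hC4 hu hEy
  have hT1 : E * H * y₀ * (∫ x, wrad q a f Q W (rr x) ∂lam3)
      ≤ 4 * Real.pi * a * (1 - q ^ 80 - q ^ 160 + (-(2 * c0q κ q a) + V)
        + (C₄ + (2 + C₄) * U + (1 + C₄) * K) * q ^ 202) := by
    calc E * H * y₀ * (∫ x, wrad q a f Q W (rr x) ∂lam3)
        = (E * y₀) * (H * ∫ x, wrad q a f Q W (rr x) ∂lam3) := by ring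
      _ ≤ (E * y₀) * (4 * Real.pi * a * (1 - q ^ 80 - q ^ 160 + C₄ * q ^ 240)) :=
          mul_le_mul_of_nonneg_left hT1a (mul_nonneg hE0 hy0)
      _ = 4 * Real.pi * a * ((1 - q ^ 80 - q ^ 160 + C₄ * q ^ 240) * (E * y₀)) := by ring
      _ ≤ _ := mul_le_mul_of_nonneg_left hPy (by positivity)
  -- `T2`
  have hT2 : 4 * Real.pi * auq q a * (1 - mh κ (q ^ 242)) * y₀
      ≤ 16 * Real.pi * K2 κ * (a * q ^ 202) := by
    have h242 : q ^ 242 ≤ q ^ 202 := pow_le_pow_of_le_one hq.le hqle (by norm_num)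
    exact U7E_arith3 hauq hauq2 ha.le (by linarith)
      (hmh2.trans (mul_le_mul_of_nonneg_left h242 hK2)) hK2 hp202.le hy0 hy2 Real.pi_pos.le
  -- `T3`
  have hT3 := U7E_T3 hκ hq hq1 ha hN hF hZ (Ss := D.Ss 1 (n + 2)) (fun p => rfl)
    (B := G * q ^ 208) hs1 hO1
  have hT3b : 2 * K2 κ * a * (G * q ^ 208) ≤ 2 * K2 κ * G * (a * q ^ 202) := by
    have h208 : q ^ 208 ≤ q ^ 202 := pow_le_pow_of_le_one hq.le hqle (by norm_num)
    have h1 : 2 * K2 κ * a * G * q ^ 208 ≤ 2 * K2 κ * a * G * q ^ 202 :=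
      mul_le_mul_of_nonneg_left h208 (by positivity)
    calc 2 * K2 κ * a * (G * q ^ 208) = 2 * K2 κ * a * G * q ^ 208 := by ring
      _ ≤ 2 * K2 κ * a * G * q ^ 202 := h1
      _ = _ := by ring
  have hT3c : 4 * Real.pi * auq q a
      ≤ 4 * Real.pi * a * (1 + q ^ 80 + q ^ 160 + C₅ * q ^ 202) := by
    have h240 : q ^ 240 ≤ q ^ 202 := pow_le_pow_of_le_one hq.le hqle (by norm_num)
    have h1 : alq q ≤ 1 + q ^ 80 + q ^ 160 + C₅ * q ^ 202 := by
      have h2 := halq q hq hq1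
      have h3 : C₅ * q ^ 240 ≤ C₅ * q ^ 202 := mul_le_mul_of_nonneg_left h240 hC5
      linarith
    unfold auq
    calc 4 * Real.pi * (a * alq q) = 4 * Real.pi * a * alq q := by ring
      _ ≤ _ := mul_le_mul_of_nonneg_left h1 (by positivity)
  refine hint.trans ?_
  have hconst := bracket_const hP1 hC10.le hC1P hC30 hC3P hC4 hC4P hC5P hG0 hGP hK2 hK2'
  rw [← hKdef, ← hUdef] at hconst
  obtain ⟨Z, hZd⟩ : ∃ Z, Z = 4 * Real.pi * (C₄ + (2 + C₄) * U + (1 + C₄) * K + C₅)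
      + 16 * Real.pi * K2 κ + 2 * K2 κ * G := ⟨_, rfl⟩
  rw [← hZd] at hconst
  have hZerr : Z * (a * q ^ 202) ≤ a * q ^ 201 / 4 := by
    calc Z * (a * q ^ 202) ≤ 10000 * P ^ 3 * (a * q ^ 202) :=
          mul_le_mul_of_nonneg_right hconst (by positivity)
      _ = (40000 * P ^ 3 * q) * (a * q ^ 201 / 4) := by ring
      _ ≤ 1 * (a * q ^ 201 / 4) := mul_le_mul_of_nonneg_right hPq (by positivity)
      _ = _ := one_mul _
  have e3 : -(2 * c0q κ q a) + 2 * mixh (omu κ q a) (tq q a) 0 + D.Vn (n + 2)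
        = -(2 * c0q κ q a) + V := by
    have : D.uh 0 = mixh (omu κ q a) (tq q a) 0 := rfl
    rw [hVd, this]
    ring
  rw [e3]
  have e5 : 4 * Real.pi * a * (1 - q ^ 80 - q ^ 160 + (-(2 * c0q κ q a) + V)
        + (C₄ + (2 + C₄) * U + (1 + C₄) * K) * q ^ 202)
      + 16 * Real.pi * K2 κ * (a * q ^ 202)
      + (4 * Real.pi * a * (1 + q ^ 80 + q ^ 160 + C₅ * q ^ 202)
        - 1 / ((n + 2 : ℕ) : ℝ) * tsum0 (fun p => wlh κ q a p * (1 - D.Ss 1 (n + 2) p))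
        + 2 * K2 κ * G * (a * q ^ 202))
      = 8 * Real.pi * a + (4 * Real.pi * a * (-(2 * c0q κ q a) + V)
        - 1 / ((n + 2 : ℕ) : ℝ) * tsum0 (fun p => wlh κ q a p * (1 - D.Ss 1 (n + 2) p)))
        + Z * (a * q ^ 202) := by
    rw [hZd]
    ring
  linarith

end Pool.Agent.Lib.MP_4952d6_mp.M

end

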