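import Pool.Agent.Lib.MP_4952d6_mp.Pk.G17
import Pool.Agent.Lib.MP_4952d6_mp.Pk.G55
import Pool.Agent.Lib.MP_4952d6_mp.Pm.M06

/-! Merged modules (to save import time): M.GLh, M.GLi, M.PU7F. -/

/-! ### M.GLh -/

section

set_option autoImplicit false
set_option linter.unusedSectionVars false
set_option linter.unusedVariables false
open MeasureTheory Function Filter Topology Set ComplexConjugate

namespace Pool.Agent.Lib.MP_4952d6_mp.M

/-! Light copy of `U/GV` -/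

theorem GV_n2 {K q a : ℝ} {N : ℕ} {D : Dat} (h : GasOKm K q a N D) {n : ℕ} (hn : n + 2 = N) :
    2 ≤ n := by
  have hq0 := h.gd.q0
  have hq1 := h.gd.q1
  have h1 : q ^ 200 ≤ 1 := pow_le_one₀ hq0.le (by linarith)
  have h2 : (4 : ℝ) ≤ N := by
    refine h.gd.Nq.trans ?_
    exact mul_le_of_le_one_right (Nat.cast_nonneg N) h1
  have h3 : 4 ≤ N := by exact_mod_cast h2
  omega

theorem X_diff_le {K q a : ℝ} {N : ℕ} {D : Dat} (h : GasOKm K q a N D)
    {n : ℕ} (hn : n + 2 = N) (z : T3) :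
    Eg (D.F 0 1) n (fun x => (Xg D.ul x 0 - Xg D.ul x z) ^ 2)
      ≤ 2 * K ^ 2 * (N * a ^ 2 * rr z) + 120000 * K ^ 9 * q ^ 209 := by
  have hD := h.gd.ok
  have hn2 := GV_n2 h hn
  have hK1 := h.gd.C1
  have hq0 := h.gd.q0
  have ha := h.gd.a0
  have hnN : n ≤ N := by omega
  have hnN' : (n : ℝ) ≤ N := by exact_mod_cast hnN
  have hn0 : (0 : ℝ) ≤ n := Nat.cast_nonneg n
  have hF : GasFn lam3 (D.F 0 1) := F_gas hD le_rfl zero_le_one zero_le_one
  have hZ : Zg (D.F 0 1) n ≠ 0 :=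
    (h.Zpos 0 1 le_rfl zero_le_one zero_le_one le_rfl n (by omega)).ne'
  rw [Xg_diff hD hF (by omega) hZ z]
  obtain ⟨hs, hS⟩ := S_sum_abs h hnN (by omega : N ≤ 2 * n)
  have hcos := GV_summable_cos hD z
  have hu : ∀ p, 0 ≤ D.uh p := hD.uh_nonneg
  have hSn : ∀ p, 0 ≤ Sg (D.F 0 1) n p := fun p => Sg_nonneg hF n p
  -- pointwise bound
  have key : ∀ p, p ≠ 0 → D.uh p ^ 2 * (2 * (1 - (ch p z).re)) * Sg (D.F 0 1) n p
      ≤ 2 * (K * a) * (D.uh p / ksq p * (1 - (ch p z).re))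
        + 4 * D.uh 0 * (D.uh p * |Sg (D.F 0 1) n p - D.Ss 1 n p|) := by
    intro p hp
    have c0 := one_sub_re_nonneg p z
    have c2 := one_sub_re_le p z
    have hk := ksq_ge_one hp
    have hk0 : 0 < ksq p := by linarith
    have hSs : D.Ss 1 n p ≤ 1 := by
      unfold Dat.Ss
      have : 0 ≤ 2 * 1 * (n : ℝ) * D.uh p := mul_nonneg (by positivity) (hu p)
      rw [div_le_one (by linarith)]
      linarith
    set d := |Sg (D.F 0 1) n p - D.Ss 1 n p| with hd
    have hd0 : 0 ≤ d := abs_nonneg _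
    have hS1 : Sg (D.F 0 1) n p ≤ 1 + d := by
      have := le_abs_self (Sg (D.F 0 1) n p - D.Ss 1 n p)
      linarith
    have e1 : D.uh p ^ 2 * (1 - (ch p z).re)
        ≤ K * a * (D.uh p / ksq p * (1 - (ch p z).re)) := by
      have h1 := h.gd.uh_ksq p
      have h2 : D.uh p ^ 2 = (ksq p * D.uh p) * (D.uh p / ksq p) := by
        field_simp
      rw [h2]
      calc ksq p * D.uh p * (D.uh p / ksq p) * (1 - (ch p z).re)
          = ksq p * D.uh p * (D.uh p / ksq p * (1 - (ch p z).re)) := by ring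
        _ ≤ K * a * (D.uh p / ksq p * (1 - (ch p z).re)) :=
            mul_le_mul_of_nonneg_right h1 (mul_nonneg (div_nonneg (hu p) hk0.le) c0)
    have e2 : D.uh p ^ 2 * (1 - (ch p z).re) * d ≤ 2 * D.uh 0 * (D.uh p * d) := by
      have h3 : D.uh p ^ 2 ≤ D.uh 0 * D.uh p := by
        have : D.uh p ^ 2 = D.uh p * D.uh p := by ring
        rw [this]
        exact mul_le_mul_of_nonneg_right (h.gd.uh_le p) (hu p)
      calc D.uh p ^ 2 * (1 - (ch p z).re) * d ≤ (D.uh 0 * D.uh p) * 2 * d :=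
            mul_le_mul_of_nonneg_right (mul_le_mul h3 c2 c0 (mul_nonneg (hu 0) (hu p))) hd0
        _ = 2 * D.uh 0 * (D.uh p * d) := by ring
    have e3 : D.uh p ^ 2 * (2 * (1 - (ch p z).re)) * Sg (D.F 0 1) n p
        ≤ D.uh p ^ 2 * (2 * (1 - (ch p z).re)) * (1 + d) :=
      mul_le_mul_of_nonneg_left hS1 (mul_nonneg (sq_nonneg _) (by linarith))
    nlinarith
  have s1 : sm0 (fun p => 2 * (K * a) * (D.uh p / ksq p * (1 - (ch p z).re))) :=
    (sm0_of_summable hcos).const_mul _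
  have s2 : sm0 (fun p => 4 * D.uh 0 * (D.uh p * |Sg (D.F 0 1) n p - D.Ss 1 n p|)) :=
    hs.const_mul _
  have s3 : sm0 (fun p => D.uh p ^ 2 * (2 * (1 - (ch p z).re)) * Sg (D.F 0 1) n p) := by
    refine sm0_of (s1.add s2) fun p hp => ?_
    rw [abs_of_nonneg (mul_nonneg (mul_nonneg (sq_nonneg _)
      (by linarith [one_sub_re_nonneg p z])) (hSn p)), if_neg hp]
    exact key p hp
  have t1 := tsum0_mono s3 (s1.add s2) key
  rw [tsum0_add s1 s2, tsum0_const_mul, tsum0_const_mul] at t1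
  have t2 : tsum0 (fun p => D.uh p / ksq p * (1 - (ch p z).re)) ≤ K * a * rr z := by
    refine (tsum0_le_tsum hcos ?_).trans (h.gd.uh_cos z)
    rw [ksq_zero, div_zero, zero_mul]
  have hr := rr_nonneg z
  have hu0 : (n : ℝ) * D.uh 0 ≤ K :=
    (mul_le_mul_of_nonneg_right hnN' (hu 0)).trans h.gd.uh0
  have hKa : 0 ≤ K * a := by positivity
  have hT0 : 0 ≤ tsum0 (fun p => D.uh p * |Sg (D.F 0 1) n p - D.Ss 1 n p|) :=
    tsum0_nonneg fun p _ => mul_nonneg (hu p) (abs_nonneg _)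
  calc (n : ℝ) * tsum0 (fun p => D.uh p ^ 2 * (2 * (1 - (ch p z).re)) * Sg (D.F 0 1) n p)
      ≤ n * (2 * (K * a) * tsum0 (fun p => D.uh p / ksq p * (1 - (ch p z).re))
        + 4 * D.uh 0 * tsum0 (fun p => D.uh p * |Sg (D.F 0 1) n p - D.Ss 1 n p|)) :=
        mul_le_mul_of_nonneg_left t1 hn0
    _ = n * (2 * (K * a) * tsum0 (fun p => D.uh p / ksq p * (1 - (ch p z).re)))
        + 4 * ((n * D.uh 0) * tsum0 (fun p => D.uh p * |Sg (D.F 0 1) n p - D.Ss 1 n p|)) := by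
        ring
    _ ≤ N * (2 * (K * a) * (K * a * rr z)) + 4 * (K * (30000 * K ^ 8 * q ^ 209)) := by
        refine add_le_add (mul_le_mul hnN' (mul_le_mul_of_nonneg_left t2 (by positivity))
          (mul_nonneg (by positivity) (tsum0_nonneg fun p _ =>
            mul_nonneg (div_nonneg (hu p) (ksq_nonneg p)) (one_sub_re_nonneg p z)))
          (Nat.cast_nonneg N)) ?_
        exact mul_le_mul_of_nonneg_left (mul_le_mul hu0 hS hT0 (by linarith)) (by norm_num)
    _ = 2 * K ^ 2 * (N * a ^ 2 * rr z) + 120000 * K ^ 9 * q ^ 209 := by ring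

/-- `(U6.1)` for the cavity function. -/
theorem yy_diff_le {K q a : ℝ} {N : ℕ} {D : Dat} (h : GasOKm K q a N D)
    {n : ℕ} (hn : n + 2 = N) (z : T3) :
    yy (D.F 0 1) n 0 - yy (D.F 0 1) n z
      ≤ 20000 * K ^ 2 * (N * a ^ 2 * rr z) + 2000000000 * K ^ 9 * q ^ 209 := by
  have hK1 := h.gd.C1
  have hq0 := h.gd.q0
  have hq1 := h.gd.q1
  have h1 := h.ydiff n (by omega) z
  have h2 := X_diff_le h hn z
  have h3 : q ^ 230 ≤ q ^ 209 := pow_le_pow_of_le_one hq0.le (by linarith) (by norm_num)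
  have h4 : K ≤ K ^ 9 := le_self_pow₀ hK1 (by norm_num)
  have h5 : K * q ^ 230 ≤ K ^ 9 * q ^ 209 := mul_le_mul h4 h3 (by positivity) (by positivity)
  have h6 : 0 ≤ K ^ 9 * q ^ 209 := by positivity
  linarith

end Pool.Agent.Lib.MP_4952d6_mp.M

end

/-! ### M.GLi -/

section

set_option autoImplicit false
set_option linter.unusedSectionVars false
set_option linter.unusedVariables false
open MeasureTheory Function Filter Topology Set ComplexConjugate

namespace Pool.Agent.Lib.MP_4952d6_mp.M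

/-! Light copy of `U/GW` -/

theorem GW_gas {K q a : ℝ} {N : ℕ} {D : Dat} (h : GasOKm K q a N D) :
    GasFn lam3 (D.F 0 1) := F_gas h.gd.ok le_rfl zero_le_one zero_le_one

/-- Lower bound for `∫ ψ pp`. -/
theorem psi_pp_ge {K q a : ℝ} {N : ℕ} {D : Dat} {ψ : T3 → ℝ} {ph : (Fin 3 → ℤ) → ℝ}
    (h : GasOKm K q a N D) (hP : Dat.PB K q a N D ψ ph)
    {n : ℕ} (hn : n + 2 = N) :
    yy (D.F 0 1) n 0 * (1 - ∫ z, ψ z * (2 * D.ul z) ∂lam3 - K * q ^ 300) - 900000 * K ^ 11 * q ^ 202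
      ≤ ∫ z, ψ z * pp (D.F 0 1) n z ∂lam3 := by
  have hD := h.gd.ok
  have hG := GW_gas h
  have hq0 := h.gd.q0
  have hq1 := h.gd.q1
  have hK1 := h.gd.C1
  have ha0 := h.gd.a0
  set Yc := yy (D.F 0 1) n 0 with hYc
  have hYc0 : 0 ≤ Yc := yy_nonneg hG n 0
  have hyb := yy_bm hG n
  have hFb := hG.bm
  have hFcb : BM D.Fc := BM.of_mem_Icc (hD.Fc_WD 0).sm.measurable
    fun x => ⟨hD.Fc_nonneg x, hD.Fc_le x⟩
  have hul := ul_bm hD
  have hrr : BM (fun z : T3 => rr z) := JData.rr_bm'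
  -- pointwise
  have hpt : ∀ z, Yc * (ψ z - ψ z * (1 - D.Fc z) - ψ z * (2 * D.ul z))
      - (20000 * K ^ 2 * (N * a ^ 2) * (ψ z * rr z) + 2000000000 * K ^ 9 * q ^ 209 * ψ z)
      ≤ ψ z * pp (D.F 0 1) n z := by
    intro z
    have h1 := yy_diff_le h hn z
    have h2 : yy (D.F 0 1) n z ≤ Yc := yy_le hG n z
    have hF0 := hG.nonneg z
    have hF1 := hG.le_one z
    have hFge : 1 - (1 - D.Fc z) - 2 * D.ul z ≤ D.F 0 1 z := by
      have h3 : D.F 0 1 z = D.Fc z * Real.exp (-(2 * D.ul z)) := by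
        simp [Dat.F, Dat.Fr]
      have h4 : 1 - 2 * D.ul z ≤ Real.exp (-(2 * D.ul z)) := by
        have := Real.add_one_le_exp (-(2 * D.ul z))
        linarith
      have h5 := hD.Fc_nonneg z
      have h6 := hD.Fc_le z
      have h7 := hD.ul_nonneg z
      rw [h3]
      calc 1 - (1 - D.Fc z) - 2 * D.ul z ≤ D.Fc z * (1 - 2 * D.ul z) := by nlinarith
        _ ≤ D.Fc z * Real.exp (-(2 * D.ul z)) := mul_le_mul_of_nonneg_left h4 h5
    have hψ := hP.nonneg z
    have h8 : pp (D.F 0 1) n z = D.F 0 1 z * yy (D.F 0 1) n z := rfl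
    rw [h8]
    have h9 : D.F 0 1 z * yy (D.F 0 1) n z ≥ D.F 0 1 z * Yc - (Yc - yy (D.F 0 1) n z) := by
      nlinarith
    have h10 : D.F 0 1 z * Yc ≥ (1 - (1 - D.Fc z) - 2 * D.ul z) * Yc :=
      mul_le_mul_of_nonneg_right hFge hYc0
    have h11 : (1 - (1 - D.Fc z) - 2 * D.ul z) * Yc
        - (20000 * K ^ 2 * (N * a ^ 2 * rr z) + 2000000000 * K ^ 9 * q ^ 209)
        ≤ D.F 0 1 z * yy (D.F 0 1) n z := by linarith
    have h12 := mul_le_mul_of_nonneg_left h11 hψ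
    calc _ = ψ z * ((1 - (1 - D.Fc z) - 2 * D.ul z) * Yc
        - (20000 * K ^ 2 * (N * a ^ 2 * rr z) + 2000000000 * K ^ 9 * q ^ 209)) := by ring
      _ ≤ _ := h12
  have hb1 : BM (fun z => ψ z * (1 - D.Fc z)) := hP.bm.mul ((BM.const 1).sub hFcb)
  have hb2 : BM (fun z => ψ z * (2 * D.ul z)) := hP.bm.mul (hul.const_mul 2)
  have hb3 : BM (fun z => ψ z * rr z) := hP.bm.mul hrr
  have hbl1 : BM (fun z => Yc * (ψ z - ψ z * (1 - D.Fc z) - ψ z * (2 * D.ul z))) :=
    (((hP.bm.sub hb1).sub hb2).const_mul Yc)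
  have hbl2 : BM (fun z => 20000 * K ^ 2 * (N * a ^ 2) * (ψ z * rr z)
      + 2000000000 * K ^ 9 * q ^ 209 * ψ z) :=
    (hb3.const_mul _).add (hP.bm.const_mul _)
  have hint := integral_mono (μ := lam3) ((hbl1.sub hbl2).integrable _)
    ((hP.bm.mul (pp_bm hG n)).integrable _) hpt
  rw [integral_sub (hbl1.integrable _) (hbl2.integrable _), integral_const_mul,
    integral_sub ((hP.bm.sub hb1).integrable _) (hb2.integrable _),
    integral_sub (hP.bm.integrable _) (hb1.integrable _), psi_int hP,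
    integral_add ((hb3.const_mul _).integrable _) ((hP.bm.const_mul _).integrable _),
    integral_const_mul, integral_const_mul, psi_int hP] at hint
  have hm1 := hP.m1
  have hmc := hP.mc
  have hNa := h.gd.hN
  have e1 : 20000 * K ^ 2 * (N * a ^ 2) * ∫ z, ψ z * rr z ∂lam3 ≤ 20000 * K ^ 3 * q ^ 202 := by
    have hpos : 0 ≤ 20000 * K ^ 2 * ((N : ℝ) * a ^ 2) := by positivity
    calc 20000 * K ^ 2 * (N * a ^ 2) * ∫ z, ψ z * rr z ∂lam3
        ≤ 20000 * K ^ 2 * (N * a ^ 2) * (K * a * q ^ 2 / q ^ 200) :=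
          mul_le_mul_of_nonneg_left hm1 hpos
      _ = 20000 * K ^ 3 * ((N : ℝ) * a ^ 3) * q ^ 2 / q ^ 200 := by ring
      _ = 20000 * K ^ 3 * q ^ 202 := by
          rw [hNa]
          field_simp
  have e2 : 20000 * K ^ 3 * q ^ 202 ≤ 20000 * K ^ 11 * q ^ 202 := by
    have : K ^ 3 ≤ K ^ 11 := pow_le_pow_right₀ hK1 (by norm_num)
    have hq : 0 ≤ q ^ 202 := by positivity
    nlinarith
  have e3 : 2000000000 * K ^ 9 * q ^ 209 * 1 ≤ 800000 * K ^ 11 * q ^ 202 := by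
    have hK20 : 1 ≤ K ^ 20 := one_le_pow₀ hK1
    have hq3 : q ≤ 1 / 1000 := by
      have := h.small
      nlinarith
    have h7 : q ^ 7 ≤ (1 / 1000) ^ 7 := pow_le_pow_left₀ hq0.le hq3 7
    have h8 : 2000000000 * q ^ 7 ≤ 1 := by
      calc 2000000000 * q ^ 7 ≤ 2000000000 * (1 / 1000) ^ 7 := by gcongr
        _ ≤ 1 := by norm_num
    have h9 : K ^ 9 ≤ K ^ 11 := pow_le_pow_right₀ hK1 (by norm_num)
    have h10 : 0 ≤ K ^ 9 * q ^ 202 := by positivity
    calc 2000000000 * K ^ 9 * q ^ 209 * 1 = 2000000000 * q ^ 7 * (K ^ 9 * q ^ 202) := by ring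
      _ ≤ 1 * (K ^ 9 * q ^ 202) := mul_le_mul_of_nonneg_right h8 h10
      _ ≤ 1 * (K ^ 11 * q ^ 202) := by gcongr
      _ ≤ 800000 * K ^ 11 * q ^ 202 := by
        have : 0 ≤ K ^ 11 * q ^ 202 := by positivity
        linarith
  have e4 : Yc * (1 - ∫ z, ψ z * (2 * D.ul z) ∂lam3 - K * q ^ 300)
      ≤ Yc * (1 - ∫ z, ψ z * (1 - D.Fc z) ∂lam3 - ∫ z, ψ z * (2 * D.ul z) ∂lam3) :=
    mul_le_mul_of_nonneg_left (by linarith) hYc0
  have e5 : 0 ≤ K ^ 11 * q ^ 202 := by positivity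
  nlinarith

/-- Upper bound for `∫ ψ pp`. -/
theorem psi_pp_le {K q a : ℝ} {N : ℕ} {D : Dat} {ψ : T3 → ℝ} {ph : (Fin 3 → ℤ) → ℝ}
    (h : GasOKm K q a N D) (hP : Dat.PB K q a N D ψ ph)
    {n : ℕ} (hn : n + 2 = N) :
    ∫ z, ψ z * pp (D.F 0 1) n z ∂lam3
      ≤ 1 - 1 / N * tsum0 (fun p => ph p * (1 - D.Ss 1 N p)) + 60000 * K ^ 9 * q ^ 205 := by
  have hD := h.gd.ok
  have hG := GW_gas h
  have hq0 := h.gd.q0
  have hK1 := h.gd.C1
  have hZ : 0 < Zg (D.F 0 1) (n + 2) :=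
    h.Zpos 0 1 le_rfl zero_le_one zero_le_one le_rfl (n + 2) (by omega)
  have h1 := (pp_fourier hG n hZ hP.ph_summable (ph_even hP) hP.hasSum).2
  rw [hn, hP.ph_zero] at h1
  rw [h1]
  obtain ⟨hsm, hsle⟩ := S_sum_abs h (n := N) le_rfl (by omega)
  have hNn : (N : ℝ) = n + 2 := by rw [← hn]; push_cast; ring
  have hn0 : (0 : ℝ) ≤ n := Nat.cast_nonneg _
  have hNpos : (0 : ℝ) < N := by rw [hNn]; positivity
  have hS0 : ∀ p, 0 ≤ Sg (D.F 0 1) N p := Sg_nonneg hG N
  have hS1 : ∀ p, Sg (D.F 0 1) N p ≤ N := Sg_le hG N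
  have sA : sm0 (fun p => ph p * (1 - D.Ss 1 N p)) := by
    refine sm0_of hP.ph_summable fun p _ => ?_
    obtain ⟨ha, hb, _⟩ := GW_Ss (K := K) (q := q) (a := a) (N := N) hD p
    rw [abs_mul, abs_of_nonneg (hP.ph_nonneg p), abs_of_nonneg ha]
    calc ph p * (1 - D.Ss 1 N p) ≤ ph p * 1 := mul_le_mul_of_nonneg_left hb (hP.ph_nonneg p)
      _ = ph p := mul_one _
  have sB : sm0 (fun p => ph p * |Sg (D.F 0 1) N p - D.Ss 1 N p|) := by
    refine sm0_of (hP.ph_summable.mul_right ((N : ℝ) + 1)) fun p _ => ?_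
    obtain ⟨ha, hb, _⟩ := GW_Ss (K := K) (q := q) (a := a) (N := N) hD p
    rw [abs_mul, abs_abs, abs_of_nonneg (hP.ph_nonneg p)]
    refine mul_le_mul_of_nonneg_left ?_ (hP.ph_nonneg p)
    rw [abs_le]
    constructor
    · have := hS0 p; linarith
    · have := hS1 p; linarith
  have hcoef : 0 < 1 / ((n : ℝ) + 1) := by positivity
  have step1 : tsum0 (fun p => ph p * (Sg (D.F 0 1) N p - 1) / (n + 1))
      ≤ tsum0 (fun p => -(1 / ((n : ℝ) + 1)) * (ph p * (1 - D.Ss 1 N p))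
          + 1 / ((n : ℝ) + 1) * (ph p * |Sg (D.F 0 1) N p - D.Ss 1 N p|)) := by
    have hsum0 : sm0 (fun p => ph p * (Sg (D.F 0 1) N p - 1) / (n + 1)) := by
      refine sm0_of (hP.ph_summable.mul_right ((N : ℝ) + 1)) fun p _ => ?_
      rw [abs_div, abs_mul, abs_of_nonneg (hP.ph_nonneg p),
        abs_of_pos (by positivity : (0 : ℝ) < (n : ℝ) + 1)]
      have hb1 : |Sg (D.F 0 1) N p - 1| ≤ (N : ℝ) + 1 := by
        rw [abs_le]
        constructor
        · have := hS0 p; linarith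
        · have := hS1 p; linarith
      calc ph p * |Sg (D.F 0 1) N p - 1| / ((n : ℝ) + 1)
          ≤ ph p * |Sg (D.F 0 1) N p - 1| / 1 := by
            refine div_le_div_of_nonneg_left (mul_nonneg (hP.ph_nonneg p) (abs_nonneg _))
              one_pos (by linarith)
        _ = ph p * |Sg (D.F 0 1) N p - 1| := div_one _
        _ ≤ ph p * ((N : ℝ) + 1) := mul_le_mul_of_nonneg_left hb1 (hP.ph_nonneg p)
    refine tsum0_mono hsum0 ((sA.const_mul _).add (sB.const_mul _)) fun p _ => ?_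
    have hb2 : Sg (D.F 0 1) N p - 1
        ≤ -(1 - D.Ss 1 N p) + |Sg (D.F 0 1) N p - D.Ss 1 N p| := by
      have := le_abs_self (Sg (D.F 0 1) N p - D.Ss 1 N p)
      linarith
    have hb3 := mul_le_mul_of_nonneg_left hb2 (hP.ph_nonneg p)
    have hb4 := mul_le_mul_of_nonneg_left hb3 hcoef.le
    calc ph p * (Sg (D.F 0 1) N p - 1) / ((n : ℝ) + 1)
        = 1 / ((n : ℝ) + 1) * (ph p * (Sg (D.F 0 1) N p - 1)) := by ring
      _ ≤ 1 / ((n : ℝ) + 1) * (ph p * (-(1 - D.Ss 1 N p)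
            + |Sg (D.F 0 1) N p - D.Ss 1 N p|)) := hb4
      _ = _ := by ring
  rw [tsum0_add (sA.const_mul _) (sB.const_mul _), tsum0_const_mul, tsum0_const_mul] at step1
  have hA0 : 0 ≤ tsum0 (fun p => ph p * (1 - D.Ss 1 N p)) :=
    tsum0_nonneg fun p _ => mul_nonneg (hP.ph_nonneg p)
      (GW_Ss (K := K) (q := q) (a := a) (N := N) hD p).1
  have hB1 : tsum0 (fun p => ph p * |Sg (D.F 0 1) N p - D.Ss 1 N p|)
      ≤ K * N / q ^ 4 * (30000 * K ^ 8 * q ^ 209) := by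
    have hc : 0 ≤ K * N / q ^ 4 := by positivity
    calc tsum0 (fun p => ph p * |Sg (D.F 0 1) N p - D.Ss 1 N p|)
        ≤ tsum0 (fun p => K * N / q ^ 4 * (D.uh p * |Sg (D.F 0 1) N p - D.Ss 1 N p|)) := by
          refine tsum0_mono sB (hsm.const_mul _) fun p _ => ?_
          calc ph p * |Sg (D.F 0 1) N p - D.Ss 1 N p|
              ≤ (K * N / q ^ 4 * D.uh p) * |Sg (D.F 0 1) N p - D.Ss 1 N p| :=
                mul_le_mul_of_nonneg_right (hP.ph_uh p) (abs_nonneg _)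
            _ = _ := by ring
      _ = K * N / q ^ 4 * tsum0 (fun p => D.uh p * |Sg (D.F 0 1) N p - D.Ss 1 N p|) :=
          tsum0_const_mul _ _
      _ ≤ _ := mul_le_mul_of_nonneg_left hsle hc
  have hc1 : 1 / (N : ℝ) ≤ 1 / ((n : ℝ) + 1) :=
    one_div_le_one_div_of_le (by positivity) (by rw [hNn]; linarith)
  have hc2 : 1 / ((n : ℝ) + 1) ≤ 2 / N := by
    rw [div_le_div_iff₀ (by positivity) hNpos, hNn]
    linarith
  have hB2 : 1 / ((n : ℝ) + 1) * tsum0 (fun p => ph p * |Sg (D.F 0 1) N p - D.Ss 1 N p|)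
      ≤ 60000 * K ^ 9 * q ^ 205 := by
    have hx : 0 ≤ K * N / q ^ 4 * (30000 * K ^ 8 * q ^ 209) := by positivity
    calc 1 / ((n : ℝ) + 1) * tsum0 (fun p => ph p * |Sg (D.F 0 1) N p - D.Ss 1 N p|)
        ≤ 1 / ((n : ℝ) + 1) * (K * N / q ^ 4 * (30000 * K ^ 8 * q ^ 209)) :=
          mul_le_mul_of_nonneg_left hB1 hcoef.le
      _ ≤ 2 / N * (K * N / q ^ 4 * (30000 * K ^ 8 * q ^ 209)) :=
          mul_le_mul_of_nonneg_right hc2 hx
      _ = 60000 * K ^ 9 * q ^ 205 := by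
          field_simp
          ring
  have hA1 := mul_le_mul_of_nonneg_right hc1 hA0
  linarith

/-- (O2m): contact value, `M_{N-2}(0) / D_N ≤ 1 + 2 û(0) + V_N + c K^11 q^202`. -/
theorem gas_O2m {K q a : ℝ} {N : ℕ} {D : Dat} {ψ : T3 → ℝ} {ph : (Fin 3 → ℤ) → ℝ}
    (h : GasOKm K q a N D) (hP : Dat.PB K q a N D ψ ph) :
    yy (D.F 0 1) (N - 2) 0 ≤ 1 + 2 * D.uh 0 + D.Vn N + 3000000 * K ^ 11 * q ^ 202 := by
  have hD := h.gd.ok
  have hq0 := h.gd.q0
  have hq1 := h.gd.q1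
  have hK1 := h.gd.C1
  have hN2 : 2 ≤ N := by
    have h1 := GDm_four_le h.gd
    have h2 : 4 ≤ N := by exact_mod_cast h1
    omega
  obtain ⟨n, hn⟩ : ∃ n, n + 2 = N := ⟨N - 2, by omega⟩
  have hN2' : N - 2 = n := by omega
  rw [hN2']
  have hge := psi_pp_ge h hP hn
  have hle := psi_pp_le h hP hn
  have hNpos : (0 : ℝ) < N := by exact_mod_cast (by omega : 0 < N)
  have hy := psi_ul hP hD
  have hyle := hP.mu
  set Yc := yy (D.F 0 1) n 0 with hYc
  set y := ∫ z, ψ z * (2 * D.ul z) ∂lam3 with hydef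
  set A := 1 / (N : ℝ) * tsum0 (fun p => ph p * (1 - D.Ss 1 N p)) with hA
  -- summability
  have su : sm0 (fun p => 2 * (ph p * D.uh p)) := by
    refine sm0_of (hD.uh_summable.mul_left 2) fun p _ => ?_
    rw [abs_of_nonneg (by have := hP.ph_nonneg p; have := hD.uh_nonneg p; positivity)]
    have := mul_le_mul_of_nonneg_right (hP.ph_le p) (hD.uh_nonneg p)
    linarith
  have sA : sm0 (fun p => ph p * (1 - D.Ss 1 N p)) := by
    refine sm0_of hP.ph_summable fun p _ => ?_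
    obtain ⟨ha, hb, _⟩ := GW_Ss (K := K) (q := q) (a := a) (N := N) hD p
    rw [abs_mul, abs_of_nonneg (hP.ph_nonneg p), abs_of_nonneg ha]
    calc ph p * (1 - D.Ss 1 N p) ≤ ph p * 1 := mul_le_mul_of_nonneg_left hb (hP.ph_nonneg p)
      _ = ph p := mul_one _
  have hA0 : 0 ≤ A := by
    rw [hA]
    refine mul_nonneg (by positivity) (tsum0_nonneg fun p _ => mul_nonneg (hP.ph_nonneg p)
      (GW_Ss (K := K) (q := q) (a := a) (N := N) hD p).1)
  have hyA : y - A ≤ 2 * D.uh 0 + D.Vn N := by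
    have e1 : y - A = 2 * D.uh 0 + tsum0 (fun p => 2 * (ph p * D.uh p)
        - 1 / (N : ℝ) * (ph p * (1 - D.Ss 1 N p))) := by
      rw [tsum0_sub su (sA.const_mul _), tsum0_const_mul (1 / (N : ℝ)), hy, hA]
      ring
    rw [e1]
    unfold Dat.Vn
    have hVs := (Vn_bounds h (n := N) le_rfl).1
    have := tsum0_mono (su.sub (sA.const_mul (1 / (N : ℝ)))) hVs fun p _ => ?_
    · linarith
    · have hu := hD.uh_nonneg p
      have hpos : 0 < 1 + 2 * (N : ℝ) * D.uh p := by positivity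
      rw [(GW_Ss (K := K) (q := q) (a := a) (N := N) hD p).2.2]
      have e2 : 2 * (ph p * D.uh p)
          - 1 / (N : ℝ) * (ph p * (2 * N * D.uh p / (1 + 2 * N * D.uh p)))
          = ph p * (4 * N * D.uh p ^ 2 / (1 + 2 * N * D.uh p)) := by
        field_simp
        ring
      rw [e2]
      calc ph p * (4 * N * D.uh p ^ 2 / (1 + 2 * N * D.uh p))
          ≤ 1 * (4 * N * D.uh p ^ 2 / (1 + 2 * N * D.uh p)) :=
            mul_le_mul_of_nonneg_right (hP.ph_le p) (by positivity)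
        _ = _ := one_mul _
  have hAy : A ≤ y := by
    have e1 : y - A = 2 * D.uh 0 + tsum0 (fun p => 2 * (ph p * D.uh p)
        - 1 / (N : ℝ) * (ph p * (1 - D.Ss 1 N p))) := by
      rw [tsum0_sub su (sA.const_mul _), tsum0_const_mul (1 / (N : ℝ)), hy, hA]
      ring
    have h0 := hD.uh_nonneg 0
    have h2 : 0 ≤ tsum0 (fun p => 2 * (ph p * D.uh p)
        - 1 / (N : ℝ) * (ph p * (1 - D.Ss 1 N p))) := by
      refine tsum0_nonneg fun p _ => ?_
      have hu := hD.uh_nonneg p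
      have hpos : 0 < 1 + 2 * (N : ℝ) * D.uh p := by positivity
      rw [(GW_Ss (K := K) (q := q) (a := a) (N := N) hD p).2.2]
      have e2 : 2 * (ph p * D.uh p)
          - 1 / (N : ℝ) * (ph p * (2 * N * D.uh p / (1 + 2 * N * D.uh p)))
          = ph p * (4 * N * D.uh p ^ 2 / (1 + 2 * N * D.uh p)) := by
        field_simp
        ring
      rw [e2]
      have := hP.ph_nonneg p
      positivity
    linarith
  -- powers of q
  have hK0 : (0 : ℝ) ≤ K := by linarith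
  have hq202 : (0 : ℝ) ≤ q ^ 202 := by positivity
  have hK11 : K ≤ K ^ 11 := by
    calc K = K ^ 1 := (pow_one K).symm
      _ ≤ K ^ 11 := pow_le_pow_right₀ hK1 (by norm_num)
  have hK2 : K ^ 2 ≤ K ^ 11 := pow_le_pow_right₀ hK1 (by norm_num)
  have hK9 : K ^ 9 ≤ K ^ 11 := pow_le_pow_right₀ hK1 (by norm_num)
  have p300 : q ^ 300 ≤ q ^ 202 := pow_le_pow_of_le_one hq0.le (by linarith) (by norm_num)
  have p205 : q ^ 205 ≤ q ^ 202 := pow_le_pow_of_le_one hq0.le (by linarith) (by norm_num)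
  have p300' : q ^ 300 ≤ q ^ 198 := pow_le_pow_of_le_one hq0.le (by linarith) (by norm_num)
  have p396 : q ^ 396 ≤ q ^ 202 := pow_le_pow_of_le_one hq0.le (by linarith) (by norm_num)
  have hy0 : 0 ≤ y := hA0.trans hAy
  set w := y + K * q ^ 300 with hw
  have hw0 : 0 ≤ w := by positivity
  have hwle : w ≤ 2 * K * q ^ 198 := by
    linarith only [hyle, hw, mul_le_mul_of_nonneg_left p300' hK0]
  have hKq : K * q ≤ 1 / 1000 := by
    have h1 := h.small
    have h2 : K ≤ K ^ 20 := by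
      calc K = K ^ 1 := (pow_one K).symm
        _ ≤ K ^ 20 := pow_le_pow_right₀ hK1 (by norm_num)
    linarith only [h1, mul_le_mul_of_nonneg_right h2 hq0.le]
  have hwhalf : w ≤ 1 / 2 := by
    have h1 : q ^ 198 ≤ q := by
      calc q ^ 198 ≤ q ^ 1 := pow_le_pow_of_le_one hq0.le (by linarith) (by norm_num)
        _ = q := pow_one q
    linarith only [hwle, mul_le_mul_of_nonneg_left h1 hK0, hKq]
  have hw2 : w ^ 2 ≤ 4 * K ^ 2 * q ^ 396 := by
    have h1 : w ^ 2 ≤ (2 * K * q ^ 198) ^ 2 := pow_le_pow_left₀ hw0 hwle 2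
    calc w ^ 2 ≤ (2 * K * q ^ 198) ^ 2 := h1
      _ = 4 * K ^ 2 * q ^ 396 := by ring
  set E := 960000 * K ^ 11 * q ^ 202 with hE
  have hE0 : 0 ≤ E := by positivity
  have hmain : Yc * (1 - w) ≤ 1 - A + E := by
    have h1 : 60000 * K ^ 9 * q ^ 205 ≤ 60000 * K ^ 11 * q ^ 202 := by
      have : K ^ 9 * q ^ 205 ≤ K ^ 11 * q ^ 202 :=
        mul_le_mul hK9 p205 (by positivity) (by positivity)
      linarith
    have h2 := hge.trans hle
    have h3 : Yc * (1 - w) = Yc * (1 - y - K * q ^ 300) := by rw [hw]; ring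
    rw [h3, hE]
    linarith
  have hG := GW_gas h
  have hYc0 : 0 ≤ Yc := yy_nonneg hG n 0
  -- 1 ≤ (1 - w)(1 + w + 2w²)
  have hinv : 1 ≤ (1 - w) * (1 + w + 2 * w ^ 2) := by
    have h1 : 0 ≤ w ^ 2 * (1 - 2 * w) := mul_nonneg (sq_nonneg w) (by linarith only [hwhalf])
    linarith only [h1]
  have hYle : Yc ≤ (1 - A + E) * (1 + w + 2 * w ^ 2) := by
    have hx : 0 ≤ 1 + w + 2 * w ^ 2 := by positivity
    calc Yc = Yc * 1 := (mul_one _).symm
      _ ≤ Yc * ((1 - w) * (1 + w + 2 * w ^ 2)) := mul_le_mul_of_nonneg_left hinv hYc0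
      _ = (Yc * (1 - w)) * (1 + w + 2 * w ^ 2) := by ring
      _ ≤ (1 - A + E) * (1 + w + 2 * w ^ 2) := mul_le_mul_of_nonneg_right hmain hx
  have hexp : (1 - A + E) * (1 + w + 2 * w ^ 2) ≤ 1 + (y - A) + K * q ^ 300 + 2 * w ^ 2
      + 2 * E := by
    have h1 : (1 - A + E) * (1 + w + 2 * w ^ 2)
        = 1 + w + 2 * w ^ 2 - A - A * (w + 2 * w ^ 2) + E * (1 + w + 2 * w ^ 2) := by ring
    have h2 : 0 ≤ A * (w + 2 * w ^ 2) := by positivity
    have h3 : 1 + w + 2 * w ^ 2 ≤ 2 := by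
      have h5 : 0 ≤ w * (1 - 2 * w) := mul_nonneg hw0 (by linarith only [hwhalf])
      linarith only [h5, hwhalf]
    have h4 : E * (1 + w + 2 * w ^ 2) ≤ E * 2 := mul_le_mul_of_nonneg_left h3 hE0
    rw [h1]
    linarith only [h2, h4, hw]
  have f1 : K * q ^ 300 ≤ K ^ 11 * q ^ 202 := mul_le_mul hK11 p300 (by positivity) (by positivity)
  have f2 : 2 * w ^ 2 ≤ 8 * (K ^ 11 * q ^ 202) := by
    have : K ^ 2 * q ^ 396 ≤ K ^ 11 * q ^ 202 :=
      mul_le_mul hK2 p396 (by positivity) (by positivity)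
    linarith only [hw2, this]
  have f3 : K * q ^ 202 ≤ K ^ 11 * q ^ 202 := mul_le_mul_of_nonneg_right hK11 hq202
  have f4 : 0 ≤ K ^ 11 * q ^ 202 := by positivity
  have hfin := hYle.trans hexp
  linarith only [hfin, hE, hyA, f1, f2, f3, f4]

end Pool.Agent.Lib.MP_4952d6_mp.M

end

/-! ### M.PU7F -/

section

/-!
# PU7F: from the bracket to scaled sums, mesoscopic regime

Copy of `scaled_energy` of `U7F`: the additional term `N²/2 · 4π a · 2 û(0) = 2π a N x₀` cancels `- x₀`.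
-/

set_option autoImplicit false
set_option linter.unusedSectionVars false
set_option linter.unusedVariables false
open MeasureTheory Function Filter Topology Set
open scoped ENNReal

namespace Pool.Agent.Lib.MP_4952d6_mp.M

theorem scaled_energy_m : ∃ C : ℝ, 0 ≤ C ∧
    ∀ (κ C₁ : ℝ) (W f Q : ℝ → ℝ) (q a : ℝ) (N : ℕ), 0 < κ → κ ≤ 1 → 1 ≤ C₁ →
    0 < q → q ≤ 1 / 100 → 0 < a →
    (N : ℝ) * a ^ 3 = q ^ 400 → |c0q κ q a| ≤ C₁ * q ^ 200 →
    (N : ℝ) * ∑' p, mixh (omu κ q a) (tq q a) p ^ 2 ≤ C₁ * q ^ 200 →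
    Summable (fun p : Fin 3 → ℤ => if p = 0 then 0 else hs κ q (lq q a * Real.sqrt (ksq p))) ∧
    (N : ℝ) ^ 2 / 2 * (4 * Real.pi * a * (-(2 * c0q κ q a) + 2 * mixh (omu κ q a) (tq q a) 0
          + (DPot κ q a f Q W).Vn N)
        - 1 / N * tsum0 (fun p => wlh κ q a p * (1 - (DPot κ q a f Q W).Ss 1 N p)))
      ≤ (N : ℝ) ^ 2 * a * q ^ 200 * (1 / 4 * (Isq q - lq q a ^ 3
          * tsum0 (fun p => hs κ q (lq q a * Real.sqrt (ksq p)))))
        + C * C₁ * (N : ℝ) ^ 2 * a * q ^ 242 := by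
  obtain ⟨C₂, hC₂0, hC₂⟩ := alq_le
  refine ⟨2 * Real.pi * ((2 + C₂) * 2 + 2 * (1 + 16 * Real.pi) * 6), by positivity, ?_⟩
  intro κ C₁ W f Q q a N hκ hκ1 hC₁1 hq hq1 ha hNa hc hsq
  have hK2 : 0 < K2 κ := by unfold K2; positivity
  have hK2' : K2 κ ≤ 1 + 16 * Real.pi := by
    unfold K2
    have : κ ^ 2 ≤ 1 := pow_le_one₀ hκ.le hκ1
    linarith only [this]
  have hpi := Real.pi_pos
  have hok := omu_ok hκ hq hq1 ha
  set u : (Fin 3 → ℤ) → ℝ := mixh (omu κ q a) (tq q a) with hu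
  set l : ℝ := lq q a with hl
  have hlpos : 0 < l := by rw [hl]; unfold lq; positivity
  have hl2 : l = a / q ^ 200 := rfl
  have hu0 : ∀ p, 0 ≤ u p := fun p => mixh_nonneg hok p
  have hus : Summable u := mixh_summable hok
  have hN3 : (0:ℝ) < N := by
    by_contra hcon
    have h0 : (N : ℝ) = 0 := le_antisymm (not_lt.1 hcon) (Nat.cast_nonneg N)
    rw [h0, zero_mul] at hNa
    have : 0 < q ^ 400 := by positivity
    linarith only [this, hNa]
  have hNl : (N : ℝ) * a * l ^ 2 = 1 := by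
    rw [hl2]
    have : (N : ℝ) * a * (a / q ^ 200) ^ 2 = (N * a ^ 3) / q ^ 400 := by
      field_simp
    rw [this, hNa, div_self (by positivity)]
  set α : ℝ := alq q with hα
  have hα1 : 1 ≤ α := one_le_alq hq hq1
  have hα2 : α ≤ 2 := alq_le_two hq hq1
  have hau : auq q a = a * α := rfl
  -- x
  set x : (Fin 3 → ℤ) → ℝ := fun p => 2 * N * u p with hx
  have hx0 : ∀ p, 0 ≤ x p := fun p => by
    have := hu0 p
    simp only [hx]; positivity
  have hX : ∀ p, Xs κ q (l * Real.sqrt (ksq p)) = x p := by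
    intro p
    have hk : 0 ≤ ksq p := by
      unfold ksq; exact mul_nonneg (by positivity) (mom2_nonneg p)
    unfold Xs
    rw [mul_pow, Real.sq_sqrt hk]
    simp only [hx, hu]
    rw [uh_formula hκ hq ha p, hau]
    have : (2 * (N : ℝ) * (4 * Real.pi * (a * α) * lq q a ^ 2 * Lh κ (q ^ 242) (lq q a ^ 2 * ksq p)))
        = 8 * Real.pi * α * Lh κ (q ^ 242) (l ^ 2 * ksq p) * (N * a * l ^ 2) := by
      rw [hl]; ring
    rw [this, hNl, mul_one]
  set A : (Fin 3 → ℤ) → ℝ := fun p => x p / (1 + x p) with hA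
  set B : (Fin 3 → ℤ) → ℝ := fun p => x p ^ 2 / (1 + x p) with hB
  set e : (Fin 3 → ℤ) → ℝ := fun p => Real.exp (-(tq q a * ksq p)) with he
  have hk0 : ∀ p : Fin 3 → ℤ, 0 ≤ ksq p := fun p => by
    unfold ksq; exact mul_nonneg (by positivity) (mom2_nonneg p)
  have htq := tq_pos hq ha
  have he0 : ∀ p, 0 ≤ e p := fun p => Real.exp_nonneg _
  have he1 : ∀ p, e p ≤ 1 := fun p => by
    simp only [he]
    rw [Real.exp_le_one_iff]
    have := mul_nonneg htq.le (hk0 p)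
    linarith only [this]
  have hA0 : ∀ p, 0 ≤ A p := fun p => div_nonneg (hx0 p) (by have := hx0 p; linarith only [this])
  have hAx : ∀ p, A p ≤ x p := fun p => div_le_self (hx0 p) (by have := hx0 p; linarith only [this])
  have hB0 : ∀ p, 0 ≤ B p := fun p => div_nonneg (sq_nonneg _) (by have := hx0 p; linarith only [this])
  have hBx : ∀ p, B p ≤ x p := fun p => by
    have h1 := hx0 p
    simp only [hB]
    rw [div_le_iff₀ (by linarith only [h1])]
    have h2 : x p * (1 + x p) = x p + x p ^ 2 := by ring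
    linarith only [h1, h2]
  have hBx2 : ∀ p, B p ≤ x p ^ 2 := fun p => div_le_self (sq_nonneg _) (by have := hx0 p; linarith only [this])
  have hxs : Summable x := hus.mul_left _
  have habs : ∀ {f : (Fin 3 → ℤ) → ℝ}, (∀ p, 0 ≤ f p) → (∀ p, f p ≤ x p) → U7F_S0 f := by
    intro f h0 h1
    exact U7F_S0_of hxs fun p => by rw [abs_of_nonneg (h0 p)]; exact h1 p
  have sA : U7F_S0 A := habs hA0 hAx
  have sB : U7F_S0 B := habs hB0 hBx
  have sx : U7F_S0 x := habs hx0 fun p => le_rfl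
  have seA : U7F_S0 (fun p => e p * A p) := habs (fun p => mul_nonneg (he0 p) (hA0 p))
    fun p => (mul_le_of_le_one_left (hA0 p) (he1 p)).trans (hAx p)
  set M : ℝ := 4 * Real.pi * auq q a with hM
  have hM0 : 0 < M := by
    rw [hM, hau]
    have : 0 < a * α := mul_pos ha (by linarith only [hα1])
    positivity
  have skB : U7F_S0 (fun p => ksq p * B p) := by
    refine U7F_S0_of (hxs.mul_left (2 * N * M)) fun p => ?_
    rw [abs_of_nonneg (mul_nonneg (hk0 p) (hB0 p))]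
    have h1 := ksq_mul_mixh_le hok p
    have h2 : ksq p * x p ≤ 2 * N * M := by
      simp only [hx]
      calc ksq p * (2 * N * u p) = 2 * N * (ksq p * u p) := by ring
        _ ≤ 2 * N * M := mul_le_mul_of_nonneg_left h1 (by positivity)
    calc ksq p * B p ≤ ksq p * x p ^ 2 := mul_le_mul_of_nonneg_left (hBx2 p) (hk0 p)
      _ = (ksq p * x p) * x p := by ring
      _ ≤ 2 * N * M * x p := mul_le_mul_of_nonneg_right h2 (hx0 p)
  -- hs
  have hhs : ∀ p, hs κ q (l * Real.sqrt (ksq p))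
      = 8 * Real.pi * α * (A p + e p * A p) - l ^ 2 * (ksq p * B p) := by
    intro p
    have h1 : q ^ 242 * (l * Real.sqrt (ksq p)) ^ 2 = tq q a * ksq p := by
      rw [mul_pow, Real.sq_sqrt (hk0 p), ← tq_div_lq hq ha, ← hl]
      have : l ≠ 0 := hlpos.ne'
      field_simp
    unfold hs
    rw [hX, h1, mul_pow, Real.sq_sqrt (hk0 p)]
    simp only [hA, hB, he, hα]
    ring
  have shs : U7F_S0 (fun p => hs κ q (l * Real.sqrt (ksq p))) := by
    have := U7F_S0_sub (U7F_S0_mul (8 * Real.pi * α) (U7F_S0_add sA seA)) (U7F_S0_mul (l ^ 2) skB)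
    have e1 : (fun p => hs κ q (l * Real.sqrt (ksq p)))
        = fun p => 8 * Real.pi * α * (A p + e p * A p) - l ^ 2 * (ksq p * B p) := funext hhs
    rw [e1]; exact this
  refine ⟨shs, ?_⟩
  have hths : tsum0 (fun p => hs κ q (l * Real.sqrt (ksq p)))
      = 8 * Real.pi * α * (tsum0 A + tsum0 (fun p => e p * A p)) / 1
        - l ^ 2 * tsum0 (fun p => ksq p * B p) := by
    rw [U7F_congr hhs, U7F_sub (U7F_S0_mul _ (U7F_S0_add sA seA)) (U7F_S0_mul _ skB), U7F_mul,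
      U7F_mul, U7F_add sA seA, div_one]
  -- V
  have hV : (DPot κ q a f Q W).Vn N = 1 / N * tsum0 B := by
    unfold Dat.Vn
    rw [← U7F_mul]
    refine U7F_congr fun p => ?_
    change 4 * (N : ℝ) * u p ^ 2 / (1 + 2 * N * u p) = 1 / N * ((2 * N * u p) ^ 2 / (1 + 2 * N * u p))
    have : (0:ℝ) < 1 + 2 * N * u p := by have := hx0 p; simp only [hx] at this; linarith only [this]
    field_simp
    ring
  have hSA : tsum0 A = tsum0 x - tsum0 B := by
    rw [← U7F_sub sx sB]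
    refine U7F_congr fun p => ?_
    have : 0 < 1 + x p := by have := hx0 p; linarith only [this]
    simp only [hA, hB]
    field_simp
    ring
  -- c0
  set sb0 : ℝ := sbf (tq q a) 0 with hsb0
  have htot : ∑' p, u p = 1 / (2 * N) * (x 0 + tsum0 x) := by
    rw [U7F_total hus]
    have : tsum0 x = 2 * N * tsum0 u := by rw [← U7F_mul]
    rw [this]
    simp only [hx]
    field_simp
  have hc0 : -(2 * c0q κ q a) = 2 * (a * α) * sb0 - 1 / N * (x 0 + tsum0 x) := by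
    unfold c0q
    rw [mix0_zero_eq hok, htot, hau]
    field_simp
    ring
  -- w
  have hw : tsum0 (fun p => wlh κ q a p * (1 - (DPot κ q a f Q W).Ss 1 N p))
      = 4 * Real.pi * (a * α) * mh κ (q ^ 242) * tsum0 (fun p => e p * A p)
        - 1 / (2 * N) * tsum0 (fun p => ksq p * B p) := by
    rw [← U7F_mul, ← U7F_mul, ← U7F_sub (U7F_S0_mul _ seA) (U7F_S0_mul _ skB)]
    refine U7F_congr fun p => ?_
    rw [wlh_formula hκ hq hq1 ha p]
    have h1 : 1 - (DPot κ q a f Q W).Ss 1 N p = A p := by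
      change 1 - 1 / (1 + 2 * 1 * (N : ℝ) * u p) = 2 * N * u p / (1 + 2 * N * u p)
      have : (0:ℝ) < 1 + 2 * N * u p := by have := hx0 p; simp only [hx] at this; linarith only [this]
      have h2 : (1 + 2 * 1 * (N : ℝ) * u p) = 1 + 2 * N * u p := by ring
      rw [h2]
      field_simp
      ring
    rw [h1]
    change (4 * Real.pi * (a * α) * mh κ (q ^ 242) * e p - ksq p * u p) * A p
      = 4 * Real.pi * (a * α) * mh κ (q ^ 242) * (e p * A p) - 1 / (2 * N) * (ksq p * B p)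
    have h3 : ksq p * u p * A p = 1 / (2 * N) * (ksq p * B p) := by
      have : 0 < 1 + x p := by have := hx0 p; linarith only [this]
      simp only [hA, hB]
      have h4 : u p = x p / (2 * N) := by simp only [hx]; field_simp
      rw [h4]
      field_simp
    rw [sub_mul, h3]
    ring
  have hI : Isq q = 16 * Real.pi * α ^ 2 * (l * sb0) := by
    rw [hsb0, sbf_zero htq]
    have h1 : Real.pi * tq q a = (Real.pi * q ^ 242) * l ^ 2 := by
      rw [← tq_div_lq hq ha, ← hl]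
      have : l ≠ 0 := hlpos.ne'
      field_simp
    rw [h1, Real.sqrt_mul (by positivity), Real.sqrt_sq hlpos.le]
    unfold Isq
    have h2 : 0 < Real.sqrt (Real.pi * q ^ 242) := Real.sqrt_pos.2 (by positivity)
    rw [← hα]
    field_simp
    ring
  have hql : q ^ 200 * l = a := by rw [hl2]; field_simp
  have key := U7F_alg (N := (N : ℝ)) (m := mh κ (q ^ 242)) hN3.ne' hlpos.ne' ha.ne' hNl hql hI hV hSA hc0 hw
  have e0 : (N : ℝ) ^ 2 / 2 * (4 * Real.pi * a * (-(2 * c0q κ q a) + 2 * u 0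
          + (DPot κ q a f Q W).Vn N)
        - 1 / N * tsum0 (fun p => wlh κ q a p * (1 - (DPot κ q a f Q W).Ss 1 N p)))
      = (N : ℝ) ^ 2 / 2 * (4 * Real.pi * a * (-(2 * c0q κ q a)
          + (DPot κ q a f Q W).Vn N)
        - 1 / N * tsum0 (fun p => wlh κ q a p * (1 - (DPot κ q a f Q W).Ss 1 N p)))
        + 2 * Real.pi * a * N * x 0 := by
    simp only [hx]
    ring
  rw [e0, hths, key]
  -- bounds
  set SA : ℝ := tsum0 A
  set SB : ℝ := tsum0 B
  set SeA : ℝ := tsum0 (fun p => e p * A p)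
  have hC1 : C₁ ≤ |C₁| := le_abs_self _
  have hq1' : q ≤ 1 := by linarith only [hq1]
  have hSB0 : 0 ≤ SB := U7F_nonneg hB0
  have hSeA0 : 0 ≤ SeA := U7F_nonneg fun p => mul_nonneg (he0 p) (hA0 p)
  have hu2s : Summable (fun p => u p ^ 2) := by
    have h1 := (mixh_mul_tsum hok hok).1
    exact h1.congr fun p => by rw [sq]
  have hSB : SB ≤ 4 * N * (|C₁| * q ^ 200) := by
    have h1 : SB ≤ ∑' p, (2 * N * u p) ^ 2 := by
      have hs2 : Summable (fun p => (2 * (N:ℝ) * u p) ^ 2) :=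
        (hu2s.mul_left (4 * (N:ℝ) ^ 2)).congr fun p => by ring
      unfold SB
      unfold tsum0
      refine sB.tsum_le_tsum (fun p => ?_) hs2
      split_ifs
      · positivity
      · exact hBx2 p
    refine h1.trans ?_
    have h2 : ∑' p, (2 * (N:ℝ) * u p) ^ 2 = 4 * N * (N * ∑' p, u p ^ 2) := by
      rw [← tsum_mul_left, ← tsum_mul_left]
      congr 1; ext p; ring
    rw [h2]
    refine mul_le_mul_of_nonneg_left (hsq.trans ?_) (by positivity)
    exact mul_le_mul_of_nonneg_right hC1 (by positivity)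
  have hSeA : SeA ≤ 2 * N * (|C₁| + 2) := by
    have h1 : SeA ≤ tsum0 x := U7F_mono seA sx fun p =>
      (mul_le_of_le_one_left (hA0 p) (he1 p)).trans (hAx p)
    have h2 : tsum0 x ≤ ∑' p, x p := by
      rw [U7F_total hxs]; have := hx0 0; linarith only [this]
    have h3 : ∑' p, x p = 2 * N * (c0q κ q a + auq q a * sb0) := by
      simp only [hx]
      rw [tsum_mul_left]
      unfold c0q
      rw [mix0_zero_eq hok]
      ring
    have h4 : auq q a * sb0 ≤ 2 := by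
      rw [hsb0, sbf_zero htq, hau]
      have h5 : Real.sqrt (Real.pi * tq q a) = Real.sqrt Real.pi * (a / q ^ 79) := by
        rw [Real.sqrt_mul hpi.le, sqrt_tq hq ha]
      rw [h5, mul_one_div, div_le_iff₀ (by positivity)]
      have h6 : 1 ≤ Real.sqrt Real.pi := by
        rw [Real.one_le_sqrt]
        linarith only [Real.pi_gt_three]
      have h7 : 1 ≤ 1 / q ^ 79 := by
        rw [le_div_iff₀ (by positivity), one_mul]
        exact pow_le_one₀ hq.le hq1'
      have h8 : 1 ≤ Real.sqrt Real.pi * (1 / q ^ 79) := one_le_mul_of_one_le_of_one_le h6 h7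
      calc a * α ≤ a * 2 := mul_le_mul_of_nonneg_left hα2 ha.le
        _ = 2 * a * 1 := by ring
        _ ≤ 2 * a * (Real.sqrt Real.pi * (1 / q ^ 79)) :=
            mul_le_mul_of_nonneg_left h8 (by positivity)
        _ = 2 * (Real.sqrt Real.pi * (a / q ^ 79)) := by ring
    have h5 : c0q κ q a ≤ |C₁| := by
      have h6 := (le_abs_self (c0q κ q a)).trans hc
      have h7 : C₁ * q ^ 200 ≤ |C₁| * q ^ 200 := mul_le_mul_of_nonneg_right hC1 (by positivity)
      have h8 : |C₁| * q ^ 200 ≤ |C₁| * 1 :=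
        mul_le_mul_of_nonneg_left (pow_le_one₀ hq.le hq1') (abs_nonneg _)
      linarith only [h6, h7, h8]
    refine h1.trans (h2.trans ?_)
    rw [h3]
    exact mul_le_mul_of_nonneg_left (by linarith only [h4, h5]) (by positivity)
  -- final estimate
  have hα80 : α - 1 ≤ (2 + C₂) * q ^ 80 := by
    have h1 := hC₂ q hq hq1
    have h2 : q ^ 160 ≤ q ^ 80 := pow_le_pow_of_le_one hq.le hq1' (by norm_num)
    have h3 : q ^ 240 ≤ q ^ 80 := pow_le_pow_of_le_one hq.le hq1' (by norm_num)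
    have h4 := mul_le_mul_of_nonneg_left h3 hC₂0
    rw [← hα] at h1
    linarith only [h1, h2, h3, h4]
  have hmm : 1 - mh κ (q ^ 242) ≤ K2 κ * q ^ 242 := by
    have := mh_ge_one_sub (κ := κ) (s := q ^ 242) (by positivity)
    linarith only [this]
  have hmm0 : 0 ≤ 1 - mh κ (q ^ 242) := by
    have := mh_le_one (κ := κ) (s := q ^ 242) (by positivity)
    linarith only [this]
  have hBk : -(-(2 * N * c0q κ q a) + x 0 + SB) ≤ 2 * N * (|C₁| * q ^ 200) := by
    have h6 := (le_abs_self (c0q κ q a)).trans hc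
    have h7 : C₁ * q ^ 200 ≤ |C₁| * q ^ 200 := mul_le_mul_of_nonneg_right hC1 (by positivity)
    have h8 : 2 * (N:ℝ) * c0q κ q a ≤ 2 * N * (|C₁| * q ^ 200) :=
      mul_le_mul_of_nonneg_left (h6.trans h7) (by positivity)
    have h9 := hx0 0
    linarith only [h8, h9, hSB0]
  have hT1 : -(α - 1) * (-(2 * N * c0q κ q a) + x 0 + SB)
      ≤ ((2 + C₂) * (2 * |C₁|)) * (N * q ^ 242) := by
    have h1 : -(α - 1) * (-(2 * N * c0q κ q a) + x 0 + SB)
        = (α - 1) * (-(-(2 * N * c0q κ q a) + x 0 + SB)) := by ring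
    rw [h1]
    have h2 : (α - 1) * (-(-(2 * N * c0q κ q a) + x 0 + SB))
        ≤ (α - 1) * (2 * N * (|C₁| * q ^ 200)) :=
      mul_le_mul_of_nonneg_left hBk (by linarith only [hα1])
    have h3 : (α - 1) * (2 * N * (|C₁| * q ^ 200)) ≤ (2 + C₂) * q ^ 80 * (2 * N * (|C₁| * q ^ 200)) :=
      mul_le_mul_of_nonneg_right hα80 (by positivity)
    have h4 : (2 + C₂) * q ^ 80 * (2 * N * (|C₁| * q ^ 200))
        = (2 + C₂) * (2 * |C₁|) * (N * q ^ 280) := by ring
    have h5 : q ^ 280 ≤ q ^ 242 := pow_le_pow_of_le_one hq.le hq1' (by norm_num)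
    have h6 : (2 + C₂) * (2 * |C₁|) * (N * q ^ 280) ≤ (2 + C₂) * (2 * |C₁|) * (N * q ^ 242) :=
      mul_le_mul_of_nonneg_left (mul_le_mul_of_nonneg_left h5 hN3.le) (by positivity)
    rw [h4] at h3
    exact h2.trans (h3.trans h6)
  have hT2 : α * (1 - mh κ (q ^ 242)) * SeA ≤ 2 * K2 κ * (2 * (|C₁| + 2)) * (N * q ^ 242) := by
    calc α * (1 - mh κ (q ^ 242)) * SeA
        ≤ 2 * (K2 κ * q ^ 242) * (2 * N * (|C₁| + 2)) :=
          mul_le_mul (mul_le_mul hα2 hmm hmm0 (by norm_num)) hSeA hSeA0 (by positivity)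
      _ = _ := by ring
  have hfin : -(α - 1) * (-(2 * N * c0q κ q a) + x 0 + SB) - x 0 + α * (1 - mh κ (q ^ 242)) * SeA
      + x 0 ≤ ((2 + C₂) * (2 * |C₁|) + 2 * K2 κ * (2 * (|C₁| + 2))) * (N * q ^ 242) := by
    rw [add_mul]
    linarith only [hT1, hT2]
  have hCabs : |C₁| = C₁ := abs_of_nonneg (by linarith only [hC₁1])
  have hfc : (2 + C₂) * (2 * |C₁|) + 2 * K2 κ * (2 * (|C₁| + 2))
      ≤ ((2 + C₂) * 2 + 2 * (1 + 16 * Real.pi) * 6) * C₁ := by
    rw [hCabs]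
    have h1 : 2 * K2 κ * (2 * (C₁ + 2)) ≤ 2 * (1 + 16 * Real.pi) * (6 * C₁) :=
      mul_le_mul (by linarith only [hK2']) (by linarith only [hC₁1])
        (by linarith only [hC₁1]) (by positivity)
    linarith only [h1]
  have hfin1 := hfin.trans (mul_le_mul_of_nonneg_right hfc
    (by positivity : 0 ≤ (N : ℝ) * q ^ 242))
  have hfin2 := mul_le_mul_of_nonneg_left hfin1 (by positivity : 0 ≤ 2 * Real.pi * a * N)
  have e9 : 2 * Real.pi * a * N * (((2 + C₂) * 2 + 2 * (1 + 16 * Real.pi) * 6) * C₁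
      * (N * q ^ 242))
      = 2 * Real.pi * ((2 + C₂) * 2 + 2 * (1 + 16 * Real.pi) * 6) * C₁ * (N : ℝ) ^ 2 * a
        * q ^ 242 := by ring
  rw [e9] at hfin2
  linarith only [hfin2]

end Pool.Agent.Lib.MP_4952d6_mp.M

end

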