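import Pool.Agent.Lib.MP_4952d6_mp.Pk.G34
import Pool.Agent.Lib.MP_4952d6_mp.Pk.G41
import Pool.Agent.Lib.MP_4952d6_mp.Pk.G43
import Pool.Agent.Lib.MP_4952d6_mp.Pk.G59
import Pool.Agent.Lib.MP_4952d6_mp.Pm.M01
import Pool.Agent.Lib.MP_4952d6_mp.Pm.M07
import Pool.Agent.Lib.MP_4952d6_mp.Pm.M08

/-! Merged modules (to save import time): M.LFin. -/

/-! ### M.LFin -/

section

/-!
# M.LFin: the lower bound (ML) of the mesoscopic regime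
-/

set_option autoImplicit false
set_option linter.unusedSectionVars false
set_option linter.unusedVariables false
open MeasureTheory Function Filter Topology Set ComplexConjugate
open scoped ENNReal

namespace Pool.Agent.Lib.MP_4952d6_mp.LB

open Pool.Agent.Lib.MP_4952d6_mp.M in
theorem loc_cwM {N : ℕ} {C u t : ℝ} (ht : 0 < t) {ψ : (Fin N → T3) → ℂ}
    (hψ : MemLp ψ 2 (piN (Fin N))) (hL : LocL C u t ψ) :
    (∑ m, cw (8 * t) m (perp m (hψ.toLp ψ))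
      ≤ C * N ^ 2 * ((∑ i, nuQ (fc ψ) i) / u + u ^ 19 * N)) ∧
    (∑ m, cw (8 * t) m (QQ1 t m (hψ.toLp ψ))
      ≤ C * N ^ 2 * ((∑ i, nuQ (fc ψ) i) / u + u ^ 19 * N)) ∧
    (∑ m, qf (crowd (8 * t) m) (hψ.toLp ψ) ≤ C * N ^ 2) := by
  have e1 : t / 8 ≤ 8 * t := by linarith
  have m0 := hL.m0 (8 * t) e1 le_rfl
  have m1 := hL.m1 (8 * t) e1 le_rfl
  have m2 := hL.m2 (8 * t) e1 le_rfl
  rw [Fintype.card_fin] at m0 m1 m2
  refine ⟨le_trans (le_of_eq (Finset.sum_congr rfl fun m _ => ?_)) m1,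
    le_trans (le_of_eq (Finset.sum_congr rfl fun m _ => ?_)) m2,
    le_trans (le_of_eq (Finset.sum_congr rfl fun m _ => ?_)) m0⟩
  · unfold cw qf
    refine integral_congr_ae ?_
    filter_upwards [perp_ae hψ m] with x hx
    rw [hx, mul_comm]
  · unfold cw qf
    refine integral_congr_ae ?_
    filter_upwards [QQ1_ae ht hψ m] with x hx
    rw [hx, mul_comm]
  · unfold qf
    refine integral_congr_ae ?_
    filter_upwards [hψ.coeFn_toLp] with x hx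
    rw [hx, mul_comm]

/-- The constant of the elimination errors. -/
noncomputable def LFin_KE (C6 cm : ℝ) : ℝ :=
  64 * Real.pi ^ 2 + 128 * Real.pi ^ 2 * cm + 8 * Real.pi * C6 * (1 + cm)
    + 8 * Real.pi * (C6 + 1) * cm + 128 * Real.pi ^ 2 * cm

/-- The constant of the other errors. -/
noncomputable def LFin_KR (C8 C6 CA cm th : ℝ) : ℝ :=
  4 * Real.pi + 4 * Real.pi * CA + 4 * Real.pi * CA + (1 + 4 * Real.pi)
    + (8 * Real.pi + 1) ^ 2 + 16 * Real.pi * C8 * (th + 1) * cm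
    + (12 * Real.sqrt Real.pi + C6 + C6 * th)

/-- the elimination errors -/
lemma LFin_el {a u l Np M1 M2 C6 cm n : ℝ}
    (hl0 : 0 < l) (hl1 : l ≤ 1) (hu : 0 < u) (hu1 : u ≤ 1)
    (hal : a = l * u ^ 20) (hNl : n = 1 / (l ^ 3 * u ^ 20)) (hNp0 : 0 ≤ Np) (hM0 : 0 ≤ cm) (hC6 : 0 ≤ C6)
    (hL1 : M1 ≤ cm * n ^ 2 * (Np / u + u ^ 19 * n))
    (hL2 : M2 ≤ cm * n ^ 2 * (Np / u + u ^ 19 * n)) :
    u ^ 6 * (8 * Real.pi * a) ^ 2 * n ^ 2 / (l * u ^ 4)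
      + (l * u ^ 4) ^ 2 * (8 * Real.pi * a) ^ 2 * (M1 + M2)
      + C6 * a / (l * u ^ 4) * (u ^ 6 * (8 * Real.pi * a) * n ^ 2 + 8 * Real.pi * a * M1 / (n * u ^ 6))
      + (C6 * a * (l * u ^ 4) ^ 2 + u ^ 6) * (8 * Real.pi * a) * M1 / n
      + (l * u ^ 4) ^ 2 / u ^ 6 * ((8 * Real.pi * a) ^ 2 * ((l * u ^ 4)⁻¹ ^ 3 / n + 1) * M1)
      ≤ LFin_KE C6 cm * u * (1 / l ^ 5 + 1 / l ^ 2 * Np) := by
  subst hal
  subst hNl
  have T1 := LErr_1 hl0 hu hu1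
  have T2 := LErr_2 hl0 hu hu1 hNp0 hM0 hL1 hL2
  have T3 := LErr_3 hl0 hu hu1 hNp0 hM0 hC6 hL1
  have T4 := LErr_4 hl0 hl1 hu hu1 hNp0 hM0 hC6 hL1
  have T5 := LErr_5 hl0 hu hu1 hNp0 hM0 hL1
  have hY : 0 ≤ 1 / l ^ 2 * Np := by positivity
  have h1 : 64 * Real.pi ^ 2 * u * (1 / l ^ 5) ≤ 64 * Real.pi ^ 2 * u * (1 / l ^ 5 + 1 / l ^ 2 * Np) :=
    mul_le_mul_of_nonneg_left (le_add_of_nonneg_right hY) (by positivity)
  have h2 : LFin_KE C6 cm * u * (1 / l ^ 5 + 1 / l ^ 2 * Np)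
      = 64 * Real.pi ^ 2 * u * (1 / l ^ 5 + 1 / l ^ 2 * Np)
        + 128 * Real.pi ^ 2 * cm * u * (1 / l ^ 5 + 1 / l ^ 2 * Np)
        + 8 * Real.pi * C6 * (1 + cm) * u * (1 / l ^ 5 + 1 / l ^ 2 * Np)
        + 8 * Real.pi * (C6 + 1) * cm * u * (1 / l ^ 5 + 1 / l ^ 2 * Np)
        + 128 * Real.pi ^ 2 * cm * u * (1 / l ^ 5 + 1 / l ^ 2 * Np) := by
    unfold LFin_KE; ring
  rw [h2]
  linarith only [T1, T2, T3, T4, T5, h1]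

/-- the remaining errors -/
lemma LFin_re {a u l Np R M0 M1 A1 A2 B0 S al C8 C6 CA cm th n : ℝ}
    (hl0 : 0 < l) (hl1 : l ≤ 1) (hu : 0 < u) (hu1 : u ≤ 1)
    (hal : a = l * u ^ 20) (hNl : n = 1 / (l ^ 3 * u ^ 20)) (hNp0 : 0 ≤ Np) (hM0 : 0 ≤ cm) (hC6 : 0 ≤ C6)
    (hC8 : 0 ≤ C8) (hCA : 0 ≤ CA) (hθ0 : 0 ≤ th) (hR0 : 0 ≤ R) (hRθ : R ≤ th * a)
    (hM1n : 0 ≤ M1) (hM0n : 0 ≤ M0) (hal0 : 0 ≤ al) (hlam : al ≤ 1 / l ^ 2)
    (hL1 : M1 ≤ cm * n ^ 2 * (Np / u + u ^ 19 * n)) (hL3 : M0 ≤ cm * n ^ 2)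
    (hA1 : A1 ≤ CA * (l * u ^ 4)⁻¹ ^ 3) (hA2 : A2 ≤ CA * (l * u ^ 4)⁻¹ ^ 5)
    (hB : 8 * Real.pi * a ^ 2 / Real.sqrt (Real.pi * (l * u ^ 4) ^ 2)
      - C6 * a ^ 2 * (l * u ^ 4 + R / (l * u ^ 4) ^ 2) ≤ B0)
    (hS0 : 0 ≤ S) (hS1 : S ≤ n ^ 2) (hS2 : n ^ 2 - n - 2 * n * Np ≤ S) :
    4 * Real.sqrt Real.pi / u ^ 4 * (1 / l ^ 5)
      - LFin_KR C8 C6 CA cm th * u * (1 / l ^ 5 + 1 / l ^ 2 * Np)
      ≤ 1 / 2 * B0 * S - u ^ 40 * (8 * Real.pi * a) / 2 * n ^ 2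
        - 1 / 2 * (n * (8 * Real.pi * a)) * a ^ 2 * A2
        - 1 / 2 * (Np / n) * (n * (8 * Real.pi * a)) * A1
        - 1 / 2 * (Np / n) * (1 / (l * u ^ 4) ^ 2 + al + n * (8 * Real.pi * a))
        - (n * (8 * Real.pi * a) + al) ^ 2 * (l * u ^ 4) ^ 2 / u ^ 6 * Np
        - C8 * (8 * Real.pi * a) * ((R + a) / (l * u ^ 4))
          * ((u ^ 6)⁻¹ / n * M1 + 1 / (u ^ 6)⁻¹ * M0) := by
  subst hal
  subst hNl
  have T6 := LErr_6 hl0 hu hu1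
  have T7 := LErr_7 hl0 hu hu1 hCA hA2
  have T8 := LErr_8 hl0 hu hu1 hNp0 hCA hA1
  have T9 := LErr_9 hl0 hl1 hu hu1 hNp0 hlam
  have T10 := LErr_10 hl0 hu hu1 hNp0 hal0 hlam
  have T11 := LErr_11 hl0 hu hu1 hNp0 hM0 hC8 hθ0 hRθ hM1n hM0n hL1 hL3
  have T12 := LErr_12 hl0 hl1 hu hu1 hNp0 hC6 hθ0 hR0 hRθ hB hS0 hS1 hS2
  have hpi := Real.pi_pos
  have hX : 0 < 1 / l ^ 5 := by positivity
  have hY : 0 ≤ 1 / l ^ 2 * Np := by positivity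
  have h1 : 4 * Real.pi * u * (1 / l ^ 5) ≤ 4 * Real.pi * u * (1 / l ^ 5 + 1 / l ^ 2 * Np) :=
    mul_le_mul_of_nonneg_left (le_add_of_nonneg_right hY) (by positivity)
  have h2 : 4 * Real.pi * CA * u * (1 / l ^ 5) ≤ 4 * Real.pi * CA * u * (1 / l ^ 5 + 1 / l ^ 2 * Np) :=
    mul_le_mul_of_nonneg_left (le_add_of_nonneg_right hY) (by positivity)
  have h3 : 4 * Real.pi * CA * u * (1 / l ^ 2 * Np) ≤ 4 * Real.pi * CA * u * (1 / l ^ 5 + 1 / l ^ 2 * Np) :=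
    mul_le_mul_of_nonneg_left (le_add_of_nonneg_left hX.le) (by positivity)
  have h4 : (1 + 4 * Real.pi) * u * (1 / l ^ 2 * Np)
      ≤ (1 + 4 * Real.pi) * u * (1 / l ^ 5 + 1 / l ^ 2 * Np) :=
    mul_le_mul_of_nonneg_left (le_add_of_nonneg_left hX.le) (by positivity)
  have h5 : (8 * Real.pi + 1) ^ 2 * u * (1 / l ^ 2 * Np)
      ≤ (8 * Real.pi + 1) ^ 2 * u * (1 / l ^ 5 + 1 / l ^ 2 * Np) :=
    mul_le_mul_of_nonneg_left (le_add_of_nonneg_left hX.le) (by positivity)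
  have h6 : LFin_KR C8 C6 CA cm th * u * (1 / l ^ 5 + 1 / l ^ 2 * Np)
      = 4 * Real.pi * u * (1 / l ^ 5 + 1 / l ^ 2 * Np)
        + 4 * Real.pi * CA * u * (1 / l ^ 5 + 1 / l ^ 2 * Np)
        + 4 * Real.pi * CA * u * (1 / l ^ 5 + 1 / l ^ 2 * Np)
        + (1 + 4 * Real.pi) * u * (1 / l ^ 5 + 1 / l ^ 2 * Np)
        + (8 * Real.pi + 1) ^ 2 * u * (1 / l ^ 5 + 1 / l ^ 2 * Np)
        + 16 * Real.pi * C8 * (th + 1) * cm * u * (1 / l ^ 5 + 1 / l ^ 2 * Np)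
        + (12 * Real.sqrt Real.pi + C6 + C6 * th) * u * (1 / l ^ 5 + 1 / l ^ 2 * Np) := by
    unfold LFin_KR; ring
  rw [h6]
  linarith only [T6, T7, T8, T9, T10, T11, T12, h1, h2, h3, h4, h5]

/-- final arithmetic -/
lemma LFin_real {a u l t lam Np R M0 M1 M2 A1 A2 B0 S LS1 LS2 TVv C8 C6 CA cm th n : ℝ}
    (hl0 : 0 < l) (hl1 : l ≤ 1) (hu : 0 < u) (hu1 : u ≤ 1)
    (hal : a = l * u ^ 20) (hNl : n = 1 / (l ^ 3 * u ^ 20)) (htl : t = (l * u ^ 4) ^ 2)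
    (hst : Real.sqrt t = l * u ^ 4) (hsa : Real.sqrt (a ^ 2) = a)
    (hNp0 : 0 ≤ Np) (hM0 : 0 ≤ cm) (hC6 : 0 ≤ C6)
    (hC8 : 0 ≤ C8) (hCA : 0 ≤ CA) (hθ0 : 0 ≤ th) (hR0 : 0 ≤ R) (hRθ : R ≤ th * a)
    (hM1n : 0 ≤ M1) (hM0n : 0 ≤ M0) (hlam : |lam| ≤ 1 / l ^ 2)
    (hL1 : M1 ≤ cm * n ^ 2 * (Np / u + u ^ 19 * n)) (hL2 : M2 ≤ cm * n ^ 2 * (Np / u + u ^ 19 * n))
    (hL3 : M0 ≤ cm * n ^ 2)
    (hA1 : A1 ≤ CA * (Real.sqrt t)⁻¹ ^ 3) (hA2 : A2 ≤ CA * (Real.sqrt t)⁻¹ ^ 5)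
    (hB : 8 * Real.pi * a ^ 2 / Real.sqrt (Real.pi * t)
      - C6 * a ^ 2 * (Real.sqrt t + R / t) ≤ B0)
    (hS0 : 0 ≤ S) (hS1 : S ≤ n ^ 2) (hS2 : n ^ 2 - n - 2 * n * Np ≤ S) (hLS : LS2 ≤ LS1)
    (key : (1 - u ^ 40) * (8 * Real.pi * a) / 2 * n ^ 2
      + 1 / 2 * B0 * S
      + 1 / 2 * LS1 - 1 / 2 * (n * (8 * Real.pi * a))
      - 1 / 2 * (n * (8 * Real.pi * a)) * a ^ 2 * A2
      - 1 / 2 * (Np / n) * (n * (8 * Real.pi * a)) * A1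
      - 1 / 2 * (Np / n) * (1 / t + |lam| + n * (8 * Real.pi * a))
      - (n * (8 * Real.pi * a) + |lam|) ^ 2 * t / u ^ 6 * Np
      - C8 * (u ^ 6 * (8 * Real.pi * a) ^ 2 * n ^ 2 / Real.sqrt t
      + t * (8 * Real.pi * a) ^ 2 * (M1 + M2)
      + C6 * a / Real.sqrt t * (u ^ 6 * (8 * Real.pi * a) * n ^ 2 + 8 * Real.pi * a * M1 / (n * u ^ 6))
      + (C6 * a * t + u ^ 6) * (8 * Real.pi * a) * M1 / n
      + t / u ^ 6 * ((8 * Real.pi * a) ^ 2 * ((Real.sqrt t)⁻¹ ^ 3 / n + 1) * M1))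
      - C8 * (8 * Real.pi * a) * ((R + Real.sqrt (a ^ 2)) / Real.sqrt t)
        * ((u ^ 6)⁻¹ / n * M1 + 1 / (u ^ 6)⁻¹ * M0)
      ≤ TVv + lam * Np) :
    4 * Real.pi * (n * (n - 1)) * a + 4 * Real.sqrt Real.pi / u ^ 4 * (n ^ 2 * a * u ^ 20)
      + 1 / 2 * LS2 - (C8 * LFin_KE C6 cm + LFin_KR C8 C6 CA cm th) * u * (n ^ 2 * a * u ^ 20 + n * a * Np)
      - lam * Np ≤ TVv := by
  rw [hst, hsa, htl] at key
  rw [hst] at hA1 hA2 hB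
  rw [htl] at hB
  have hE := LFin_el hl0 hl1 hu hu1 hal hNl hNp0 hM0 hC6 hL1 hL2
  have hF := LFin_re (C8 := C8) hl0 hl1 hu hu1 hal hNl hNp0 hM0 hC6 hC8 hCA hθ0 hR0 hRθ hM1n hM0n
    (abs_nonneg lam) hlam hL1 hL3 hA1 hA2 hB hS0 hS1 hS2
  have hCE := mul_le_mul_of_nonneg_left hE hC8
  have hNna : n ^ 2 * a * u ^ 20 = 1 / l ^ 5 := by
    rw [hNl, hal]; field_simp
  have hNna2 : n * a * Np = 1 / l ^ 2 * Np := by
    rw [hNl, hal]; field_simp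
  rw [hNna, hNna2]
  generalize (u ^ 6 * (8 * Real.pi * a) ^ 2 * n ^ 2 / (l * u ^ 4)
      + (l * u ^ 4) ^ 2 * (8 * Real.pi * a) ^ 2 * (M1 + M2)
      + C6 * a / (l * u ^ 4) * (u ^ 6 * (8 * Real.pi * a) * n ^ 2 + 8 * Real.pi * a * M1 / (n * u ^ 6))
      + (C6 * a * (l * u ^ 4) ^ 2 + u ^ 6) * (8 * Real.pi * a) * M1 / n
      + (l * u ^ 4) ^ 2 / u ^ 6 * ((8 * Real.pi * a) ^ 2 * ((l * u ^ 4)⁻¹ ^ 3 / n + 1) * M1)) = E1 at *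
  linarith only [hCE, hF, key, hLS]

open Pool.Agent.Lib.MP_4952d6_mp.M in
theorem ml_statement : MLStatement := by
  intro θ CM
  obtain ⟨C8, hC8, h8⟩ := pre8M sum_statement
  obtain ⟨C6, hC6, h6⟩ := (show C6M from c6M)
  obtain ⟨CA, hCA, hA⟩ := limA
  obtain ⟨cm, hcm⟩ : ∃ cm : ℝ, cm = max CM 0 := ⟨_, rfl⟩
  obtain ⟨th, hth⟩ : ∃ th : ℝ, th = max θ 0 := ⟨_, rfl⟩
  have hM0 : 0 ≤ cm := by rw [hcm]; exact le_max_right _ _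
  have hM1 : CM ≤ cm := by rw [hcm]; exact le_max_left _ _
  have hθ0 : 0 ≤ th := by rw [hth]; exact le_max_right _ _
  have hθ1 : θ ≤ th := by rw [hth]; exact le_max_left _ _
  have hpi := Real.pi_pos
  refine ⟨C8 * LFin_KE C6 cm + LFin_KR C8 C6 CA cm th, min (1 / 2) (1 / (2 * (th + 1))), ?_,
    lt_min (by norm_num) (by positivity), ?_⟩
  · unfold LFin_KE LFin_KR
    positivity
  intro u hu huu0 N W f Q R₀ R a hsc hNa ha8 hRθ 𝒱 h𝒱 ψ hψ hLoc lam hlam1 hlam2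
  have hu12 : u ≤ 1 / 2 := huu0.le.trans (min_le_left _ _)
  have hu0d : u ≤ 1 / (2 * (th + 1)) := huu0.le.trans (min_le_right _ _)
  have hu1 : u ≤ 1 := by linarith
  have hpow : ∀ n : ℕ, 1 ≤ n → u ^ n ≤ u := by
    intro n hn
    calc u ^ n ≤ u ^ 1 := pow_le_pow_of_le_one hu.le hu1 hn
      _ = u := pow_one u
  have ha := hsc.a_pos
  have hR0 : 0 ≤ R := hsc.R_pos.le
  have hRθ' : R ≤ th * a := hRθ.trans (mul_le_mul_of_nonneg_right hθ1 ha.le)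
  have hthu : th * u ≤ 1 / 2 := by
    have h3 := hu0d
    rw [le_div_iff₀ (by positivity)] at h3
    linarith
  -- the length `l`
  obtain ⟨l, hl⟩ : ∃ l : ℝ, l = a / u ^ 20 := ⟨_, rfl⟩
  have hl0 : 0 < l := by rw [hl]; positivity
  have hal : a = l * u ^ 20 := by rw [hl]; field_simp
  have hl8 : l ≤ 1 / 8 := by
    rw [hl, div_le_iff₀ (by positivity)]
    linarith
  have hl1 : l ≤ 1 := by linarith
  have hNl : (N : ℝ) = 1 / (l ^ 3 * u ^ 20) := by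
    have h1 : (N : ℝ) * (l * u ^ 20) ^ 3 = u ^ 40 := by rw [← hal]; exact hNa
    have h2 : (N : ℝ) * (l ^ 3 * u ^ 20) * u ^ 40 = 1 * u ^ 40 := by
      rw [one_mul]
      calc (N : ℝ) * (l ^ 3 * u ^ 20) * u ^ 40 = (N : ℝ) * (l * u ^ 20) ^ 3 := by ring
        _ = u ^ 40 := h1
    rw [eq_div_iff (by positivity)]
    exact mul_right_cancel₀ (by positivity) h2
  have hNpos : (0:ℝ) < N := by rw [hNl]; positivity
  have hNpos' : 0 < N := by exact_mod_cast hNpos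
  have hR8 : R ≤ 1 / 8 := by
    have h1 : u ^ 20 ≤ u := hpow 20 (by norm_num)
    calc R ≤ th * a := hRθ'
      _ ≤ th * (u ^ 20 / 8) := mul_le_mul_of_nonneg_left ha8 hθ0
      _ ≤ th * (u / 8) := mul_le_mul_of_nonneg_left (by linarith) hθ0
      _ = th * u / 8 := by ring
      _ ≤ 1 / 8 := by linarith
  -- time scale
  have hau : a / u ^ 16 = l * u ^ 4 := by
    rw [hal]; field_simp
  obtain ⟨t, htdef⟩ : ∃ t : ℝ, t = (a / u ^ 16) ^ 2 := ⟨_, rfl⟩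
  rw [← htdef] at hLoc ⊢
  have htl : t = (l * u ^ 4) ^ 2 := by rw [htdef, hau]
  have ht : 0 < t := by rw [htl]; positivity
  have hst : Real.sqrt t = l * u ^ 4 := by
    rw [htl]; exact Real.sqrt_sq (by positivity)
  have ht1 : t ≤ 1 := by
    rw [htl]
    have h1 : l * u ^ 4 ≤ 1 * 1 := mul_le_mul hl1 (pow_le_one₀ hu.le hu1) (by positivity) (by norm_num)
    exact pow_le_one₀ (by positivity) (by linarith)
  have hat : a ^ 2 ≤ t := by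
    rw [htl, hal]
    have h1 : u ^ 20 ≤ u ^ 4 := pow_le_pow_of_le_one hu.le hu1 (by norm_num)
    have h2 : l * u ^ 20 ≤ l * u ^ 4 := mul_le_mul_of_nonneg_left h1 hl0.le
    exact pow_le_pow_left₀ (by positivity) h2 2
  have hRt : R ^ 2 ≤ t / 2 := by
    have h1 : u ^ 16 ≤ u := hpow 16 (by norm_num)
    have h2 : R ≤ (l * u ^ 4) * (1 / 2) := by
      calc R ≤ th * a := hRθ'
        _ = th * u ^ 16 * (l * u ^ 4) := by rw [hal]; ring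
        _ ≤ th * u * (l * u ^ 4) :=
            mul_le_mul_of_nonneg_right (mul_le_mul_of_nonneg_left h1 hθ0) (by positivity)
        _ ≤ 1 / 2 * (l * u ^ 4) := mul_le_mul_of_nonneg_right hthu (by positivity)
        _ = _ := by ring
    have h5 : R ^ 2 ≤ ((l * u ^ 4) * (1 / 2)) ^ 2 := pow_le_pow_left₀ hR0 h2 2
    rw [htl]
    have h6 : 0 ≤ (l * u ^ 4) ^ 2 := by positivity
    rw [mul_pow] at h5
    linarith
  have hRt' : R ^ 2 ≤ t := by linarith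
  -- charge data
  obtain ⟨h, k, w, hD⟩ := h6 W f Q R₀ R a hsc hR8 (u ^ 40) (by positivity)
  -- the state
  obtain ⟨Ψ, hΨ⟩ : ∃ Ψ : HS (Fin N), Ψ = hψ.1.toLp ψ := ⟨_, rfl⟩
  have hΨ1 : ‖Ψ‖ = 1 := by rw [hΨ]; exact norm_toLp_one hψ.1 hψ.2.1
  obtain ⟨hL1, hL2, hL3⟩ := loc_cwM ht hψ.1 hLoc
  rw [← hΨ] at hL1 hL2 hL3
  have hdepe : ∑ i, nuQ (fc ψ) i = ∑ j, ‖perp j Ψ‖ ^ 2 := by
    rw [hΨ]
    exact Finset.sum_congr rfl fun i _ => nuQ_toLp hψ.1 i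
  rw [hdepe] at hL1 hL2 ⊢
  have hNp0 : 0 ≤ ∑ j, ‖perp j Ψ‖ ^ 2 := Finset.sum_nonneg fun j _ => sq_nonneg _
  have hkin := (kin_sum hψ).1
  rw [← hΨ] at hkin
  -- the lower bound at fixed N
  have hst0 : 0 < Real.sqrt t := Real.sqrt_pos.2 ht
  have key := h8 N t (u ^ 6) (a ^ 2) (8 * Real.pi * a) R (u ^ 40) (C6 * a * t)
    (C6 * a / Real.sqrt t) (u ^ 6) (u ^ 6)⁻¹ lam h k w hNpos' ht ht1 (by positivity)
    ((hpow 6 (by norm_num)).trans hu12) (by positivity) hat (by positivity) hD.sr hR0 hRt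
    hD.k_bm hD.w_bm hD.w_nonneg hD.w_le (by positivity) (pow_le_one₀ hu.le hu1) hD.two
    (hD.p1 t ht ht1 hRt') (hD.p2 t ht ht1 hRt') (by positivity)
    (by positivity) (by positivity) (by positivity) hlam1 Ψ hΨ1 hkin
  obtain ⟨hA1, hA2⟩ := hA t ht ht1
  have hS00 := fin_S00 hΨ1
  have hS2 := S00_ge hΨ1
  have hp3 := hD.p3 t ht ht1 hRt'
  have hM1n : 0 ≤ ∑ m, cw (8 * t) m (perp m Ψ) := Finset.sum_nonneg fun m _ => cw_nonneg _ _ _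
  have hM0n : 0 ≤ ∑ m, qf (crowd (8 * t) m) Ψ := Finset.sum_nonneg fun m _ =>
    qf_nonneg (fun x => Finset.sum_nonneg fun j _ => hk_nonneg _ _) _
  -- `lam`
  have hlamabs : |lam| ≤ 1 / l ^ 2 := by
    have h1 : (N : ℝ) * a = 1 / l ^ 2 := by
      rw [hNl, hal]; field_simp
    have h64 : (64 : ℝ) ≤ 1 / l ^ 2 := by
      rw [le_div_iff₀ (by positivity)]
      have : l ^ 2 ≤ (1 / 8) ^ 2 := pow_le_pow_left₀ hl0.le hl8 2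
      linarith
    have h2 : 2 * Real.pi ^ 2 ≤ 64 := by
      have h3 : Real.pi ^ 2 ≤ 4 ^ 2 := pow_le_pow_left₀ hpi.le Real.pi_le_four 2
      linarith
    rw [abs_le]
    constructor
    · linarith
    · rw [← h1]; exact hlam2
  have hG : LS t lam (8 * Real.pi * (N * a)) ≤ LS t lam (N * ((1 - u ^ 40) * (8 * Real.pi * a))) := by
    have h40 : 0 ≤ 1 - u ^ 40 := by
      have := pow_le_one₀ (n := 40) hu.le hu1
      linarith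
    refine LS_anti ht hlam1 (by positivity) ?_
    have h0 : 0 ≤ u ^ 40 * (N * (8 * Real.pi * a)) := by positivity
    linarith
  have hsa : Real.sqrt (a ^ 2) = a := Real.sqrt_sq ha.le
  have hpot := pot_ge ht.le hsc.W_meas hsc.W_nonneg hsc.W_bdd hD.sr.bm
    hD.sr.even hD.k_bm hD.k_nonneg hD.k_even hD.out h𝒱 hψ
  rw [← hΨ] at hpot
  refine le_trans (ENNReal.ofReal_le_ofReal ?_) hpot
  unfold elErr at key
  have hcm1 : CM * (N:ℝ) ^ 2 ≤ cm * (N:ℝ) ^ 2 :=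
    mul_le_mul_of_nonneg_right hM1 (sq_nonneg _)
  change _ ≤ TV t h k Ψ
  generalize TV t h k Ψ = TVv at *
  generalize (∑ j, ∑ l ∈ Finset.univ.erase j, ‖Phi0 j l Ψ‖ ^ 2) = SS at *
  generalize (∫ z, h z * w z ∂lam3)
          - 1 / 2 * ∑' p, alp t p * ‖fc3 (fun y => (h y : ℂ)) p‖ ^ 2 = B0 at *
  generalize ∑ m, cw (8 * t) m (perp m Ψ) = M1 at *
  generalize ∑ m, cw (8 * t) m (QQ1 t m Ψ) = M2 at *
  generalize ∑ m, qf (crowd (8 * t) m) Ψ = M0 at *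
  generalize (∑' p : Fin 3 → ℤ, et t p ^ 2) = A1 at *
  generalize (∑' p : Fin 3 → ℤ, et t p ^ 2 * ksq p) = A2 at *
  generalize LS t lam (N * ((1 - u ^ 40) * (8 * Real.pi * a))) = LS1 at *
  generalize LS t lam (8 * Real.pi * (N * a)) = LS2 at *
  generalize ∑ j, ‖perp j Ψ‖ ^ 2 = Np at *
  have hb0 : 0 ≤ Np / u + u ^ 19 * (N : ℝ) := by positivity
  have hN3 : CM * (N:ℝ) ^ 2 * (Np / u + u ^ 19 * N) ≤ cm * (N:ℝ) ^ 2 * (Np / u + u ^ 19 * N) :=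
    mul_le_mul_of_nonneg_right hcm1 hb0
  exact LFin_real hl0 hl1 hu hu1 hal hNl htl hst hsa hNp0 hM0 hC6 hC8 hCA hθ0 hR0 hRθ' hM1n hM0n
    hlamabs (hL1.trans hN3) (hL2.trans hN3) (hL3.trans hcm1) hA1 hA2 hp3 hS00.1 hS00.2 hS2 hG key

end Pool.Agent.Lib.MP_4952d6_mp.LB

end

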