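import Pool.Agent.Lib.MP_4952d6_mp.Pk.G29
import Pool.Agent.Lib.MP_4952d6_mp.Pk.G58
import Pool.Agent.Lib.MP_4952d6_mp.Pm.M08
import Pool.Agent.Lib.MP_4952d6_mp.Pm.M09
import Pool.Agent.Lib.MP_4952d6_mp.Pm.M13

/-! Merged modules (to save import time): M.AI, M.Asm. -/

/-! ### M.AI -/

section

/-!
# MM in torus form: the local moment bounds `M.LocL`

Same proof as LA-I2 and LA-I3; the splitting level is `Λ² = 1/u`, so `∑ ∫ ‖G‖² (crowd + N)² ≤ N² (D/u + C u^19 N)`, `D = ∑ nuQ`.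
No hypothesis on `D`, and only `a ≤ u^20/8`.
-/

set_option autoImplicit false
set_option linter.unusedSectionVars false
set_option linter.unusedVariables false
open MeasureTheory Function Filter Topology Set ComplexConjugate
open scoped ENNReal

namespace Pool.Agent.Lib.MP_4952d6_mp.LA

theorem M_sum {N : ℕ} (hN : 0 < N) {u C : ℝ} (hu : 0 < u) (hC : 0 ≤ C) {ψ : (Fin N → T3) → ℂ}
    {G : Fin N → (Fin N → T3) → ℂ} (hG : ∀ m, MemLp (G m) 2 (piN (Fin N)))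
    (hGν : ∀ m, ∫ x, ‖G m x‖ ^ 2 ∂(piN (Fin N)) ≤ nuQ (fc ψ) m) {s : ℝ} (hs : 0 < s)
    (h40 : ∑ m, ∫ x, ‖G m x‖ ^ 2 * (crowd s m x + N) ^ 40 ∂(piN (Fin N)) ≤ C * (N : ℝ) ^ 41) :
    ∑ m, ∫ x, ‖G m x‖ ^ 2 * (crowd s m x + N) ^ 2 ∂(piN (Fin N))
      ≤ (C + 1) * (N : ℝ) ^ 2 * ((∑ i, nuQ (fc ψ) i) / u + u ^ 19 * (N : ℝ)) := by
  have hn : (0 : ℝ) < N := by exact_mod_cast hN
  have hsu : 0 < Real.sqrt u := Real.sqrt_pos.2 hu
  set Λ : ℝ := (Real.sqrt u)⁻¹ with hΛd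
  have hΛ : 0 < Λ := inv_pos.2 hsu
  have hsq : Real.sqrt u ^ 2 = u := Real.sq_sqrt hu.le
  have e1 : Λ ^ 2 = u⁻¹ := by
    rw [hΛd, inv_pow, hsq]
  have e2 : (Λ⁻¹) ^ 38 = u ^ 19 := by
    rw [hΛd, inv_inv]
    calc Real.sqrt u ^ 38 = (Real.sqrt u ^ 2) ^ 19 := by ring
      _ = u ^ 19 := by rw [hsq]
  have h1 : ∀ m, ∫ x, ‖G m x‖ ^ 2 * (crowd s m x + N) ^ 2 ∂(piN (Fin N)) ≤
      (N : ℝ) ^ 2 * Λ ^ 2 * nuQ (fc ψ) m + ((((N : ℝ)⁻¹) ^ 38 * (Λ⁻¹) ^ 38) *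
        ∫ x, ‖G m x‖ ^ 2 * (crowd s m x + N) ^ 40 ∂(piN (Fin N))) := by
    intro m
    refine (I2_one (hG m) ((I2_crowd hs m).add (BM.const (N : ℝ)))
      (fun x => add_nonneg (I2_crowd_nonneg s m x) hn.le) hn hΛ).trans ?_
    exact add_le_add_left (mul_le_mul_of_nonneg_left (hGν m) (by positivity)) _
  refine (Finset.sum_le_sum fun m _ => h1 m).trans ?_
  rw [Finset.sum_add_distrib, ← Finset.mul_sum, ← Finset.mul_sum]
  have h3 := mul_le_mul_of_nonneg_left h40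
    (by positivity : 0 ≤ ((N : ℝ)⁻¹) ^ 38 * (Λ⁻¹) ^ 38)
  have e3 : ((N : ℝ)⁻¹) ^ 38 * (N : ℝ) ^ 41 = (N : ℝ) ^ 3 := by
    field_simp
  have hD : 0 ≤ ∑ i, nuQ (fc ψ) i := Finset.sum_nonneg fun i _ => nuQ_nonneg _ _
  set D : ℝ := ∑ i, nuQ (fc ψ) i with hDd
  have h4 : 0 ≤ D / u := by positivity
  have h5 : 0 ≤ u ^ 19 * (N : ℝ) := by positivity
  calc (N : ℝ) ^ 2 * Λ ^ 2 * D + ((N : ℝ)⁻¹) ^ 38 * (Λ⁻¹) ^ 38 *
        ∑ m, ∫ x, ‖G m x‖ ^ 2 * (crowd s m x + N) ^ 40 ∂(piN (Fin N))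
      ≤ (N : ℝ) ^ 2 * Λ ^ 2 * D + ((N : ℝ)⁻¹) ^ 38 * (Λ⁻¹) ^ 38 * (C * (N : ℝ) ^ 41) := by
        linarith
    _ = (N : ℝ) ^ 2 * (D / u) + C * (((N : ℝ)⁻¹) ^ 38 * (N : ℝ) ^ 41) * (Λ⁻¹) ^ 38 := by
        rw [e1]; ring
    _ = (N : ℝ) ^ 2 * (D / u) + C * ((N : ℝ) ^ 2 * (u ^ 19 * (N : ℝ))) := by
        rw [e2, e3]; ring
    _ ≤ (C + 1) * (N : ℝ) ^ 2 * (D / u + u ^ 19 * (N : ℝ)) := by
        have h6 : 0 ≤ C * ((N : ℝ) ^ 2 * (D / u)) := by positivity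
        have h7 : 0 ≤ (N : ℝ) ^ 2 * (u ^ 19 * (N : ℝ)) := by positivity
        nlinarith only [h6, h7]

theorem locL (θ cw Kμ : ℝ) (hθ : 1 ≤ θ) (hcw : 0 < cw) (hKμ : 0 ≤ Kμ) :
    ∃ C Y0 : ℝ, 0 < C ∧ 0 < Y0 ∧ ∀ Y : ℝ, 0 < Y → Y < Y0 → ∀ (l R a : ℝ) (w : ℝ → ℝ)
      (N : ℕ) (R₀ e : ℝ) (𝒱 : T3 → ℝ≥0∞) (ψ : (Fin N → T3) → ℂ)
      (g : Fin N → Fin 3 → (Fin N → T3) → ℂ), Par θ cw Kμ Y l R a w N R₀ 𝒱 →
      Mini R₀ 𝒱 (Kμ / l ^ 2) e ψ g → ∀ u : ℝ, 0 < u →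
      ∀ t : ℝ, 0 < t → 16 * t ≤ l ^ 2 → 1 ≤ N * (Real.sqrt (t / 8)) ^ 3 → M.LocL C u t ψ := by
  obtain ⟨C1, Y1, hC1, hY1, H1⟩ := crowd_moments θ cw Kμ hθ hcw hKμ 1
  obtain ⟨C2, Y2, hC2, hY2, H2⟩ := high_moments θ cw Kμ hθ hcw hKμ
  refine ⟨C1 + (C2 + 1), min Y1 Y2, by positivity, lt_min hY1 hY2, ?_⟩
  intro Y hY hYlt l R a w N R₀ e 𝒱 ψ g hPar hMini u hu t ht ht16 htN
  have hYl1 : Y < Y1 := hYlt.trans_le (min_le_left _ _)
  have hYl2 : Y < Y2 := hYlt.trans_le (min_le_right _ _)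
  have hψ : MemLp ψ 2 (piN (Fin N)) := hMini.fe.hg.mem
  have hN : 0 < N := by
    rcases Nat.eq_zero_or_pos N with h | h
    · exfalso
      rw [h] at htN
      norm_num at htN
    · exact h
  have hn : (0 : ℝ) < N := by exact_mod_cast hN
  have hs1 : ∀ s, t / 8 ≤ s → s ≤ 8 * t → 0 < s ∧ 2 * s ≤ l ^ 2 ∧ 1 ≤ N * (Real.sqrt s) ^ 3 := by
    intro s h1 h2
    refine ⟨by linarith, by linarith, htN.trans ?_⟩
    refine mul_le_mul_of_nonneg_left ?_ hn.le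
    exact pow_le_pow_left₀ (Real.sqrt_nonneg _) (Real.sqrt_le_sqrt h1) 3
  have ht2 : 0 < t / 2 := by linarith
  have ht2l : t / 2 ≤ l ^ 2 := by linarith
  have hD : 0 ≤ ∑ i, nuQ (fc ψ) i := Finset.sum_nonneg fun i _ => nuQ_nonneg _ _
  have hX : 0 ≤ (∑ i, nuQ (fc ψ) i) / u + u ^ 19 * (N : ℝ) := by positivity
  refine ⟨?_, ?_, ?_⟩
  · intro s h1 h2
    obtain ⟨hs, hsl, hsN⟩ := hs1 s h1 h2
    have h3 := H1 Y hY hYl1 l R a w N R₀ e 𝒱 ψ g hPar hMini s hs hsl hsN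
    rw [Fintype.card_fin]
    have h4 : ∀ m, ∫ x, ‖ψ x‖ ^ 2 * crowd s m x ∂(piN (Fin N)) =
        ∫ x, crowd s m x ^ 1 * ‖ψ x‖ ^ 2 ∂(piN (Fin N)) := by
      intro m
      refine integral_congr_ae (Eventually.of_forall fun x => ?_)
      simp only [pow_one]
      ring
    rw [Finset.sum_congr rfl fun m _ => h4 m]
    refine h3.trans ?_
    refine mul_le_mul_of_nonneg_right ?_ (by positivity)
    linarith
  · intro s h1 h2
    obtain ⟨hs, hsl, hsN⟩ := hs1 s h1 h2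
    have h3 := (H2 Y hY hYl2 l R a w N R₀ e 𝒱 ψ g hPar hMini s (t / 2) hs hsl hsN ht2 ht2l).1
    rw [Fintype.card_fin]
    refine (M_sum hN hu hC2.le (G := fun m x => ψ x - avj m ψ x)
      (fun m => hψ.sub (avj_memLp hψ m)) (fun m => avj_sub hψ m) hs h3).trans ?_
    refine mul_le_mul_of_nonneg_right (mul_le_mul_of_nonneg_right ?_ (by positivity)) hX
    linarith
  · intro s h1 h2
    obtain ⟨hs, hsl, hsN⟩ := hs1 s h1 h2
    have h3 := (H2 Y hY hYl2 l R a w N R₀ e 𝒱 ψ g hPar hMini s (t / 2) hs hsl hsN ht2 ht2l).2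
    rw [Fintype.card_fin]
    refine (M_sum hN hu hC2.le (G := fun m x => ψ x - htj (t / 2) m ψ x)
      (fun m => hψ.sub (htj_memLp hψ ht2 m)) (fun m => htj_sub hψ ht2 m) hs h3).trans ?_
    refine mul_le_mul_of_nonneg_right (mul_le_mul_of_nonneg_right ?_ (by positivity)) hX
    linarith

/-- **(MM), torus form.** -/
def MMTStatement : Prop :=
  ∀ θ cw : ℝ, 0 < cw → ∃ C u0 : ℝ, 0 < C ∧ 0 < u0 ∧ ∀ u : ℝ, 0 < u → u < u0 →
    ∀ (N : ℕ) (W f Q w : ℝ → ℝ) (R₀ R a : ℝ), Scat W R₀ R a f Q → a ≤ u ^ 20 / 8 →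
      (N : ℝ) * a ^ 3 = u ^ 40 → R ≤ θ * a →
      Measurable w → (∀ t, 0 ≤ w t) → (∀ t, w t ≤ (R⁻¹) ^ 2) → (∀ t, R ≤ t → w t = 0) →
      cw * R ≤ sig * ∫ t in Ioi (0:ℝ), t ^ 2 * w t →
      ∀ 𝒱 : T3 → ℝ≥0∞, AEMeasurable 𝒱 lam3 → (∀ y, 𝒱 (-y) = 𝒱 y) →
      (∀ᵐ y ∂lam3, ENNReal.ofReal (2 * W (rr y)) ≤ 𝒱 y) →
      (∫⁻ y, 𝒱 y ∂lam3 ≤ (∫⁻ y, ENNReal.ofReal (2 * W (rr y)) ∂lam3) + ENNReal.ofReal a) →
      (∀ᵐ y ∂lam3, R₀ ≤ rr y → ENNReal.ofReal (w (rr y)) ≤ 𝒱 y) →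
      ∀ ψ : (Fin N → T3) → ℂ, tAdm R₀ 𝒱 ψ → (∀ φ : (Fin N → T3) → ℂ, tAdm R₀ 𝒱 φ → tE 𝒱 ψ ≤ tE 𝒱 φ) →
      ∀ t : ℝ, (a / u ^ 16) ^ 2 / 2 ≤ t → t ≤ 2 * (a / u ^ 16) ^ 2 → M.LocL C u t ψ

theorem mm_final : MMTStatement := by
  intro θ cw hcw
  obtain ⟨K, hK, hmini⟩ := exists_mini
  obtain ⟨Y1, hY1, hmini⟩ := hmini (max θ 1) (le_max_right _ _)
  obtain ⟨C, Y2, hC, hY2, hloc⟩ := locL (max θ 1) cw K (le_max_right _ _) hcw hK.le
  refine ⟨C, min (min Y1 Y2) (1 / 2), hC, lt_min (lt_min hY1 hY2) (by norm_num), ?_⟩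
  intro u hu hult N W f Q w R₀ R a hS ha hN hR hwm hw0 hwle hwz hwi 𝒱 hVm hVs hVW hVi hVw ψ hψ hmin t ht1 ht2
  have hu1 : u < 1 / 2 := hult.trans_le (min_le_right _ _)
  have huY : u ^ 20 ≤ u := by
    calc u ^ 20 = u * u ^ 19 := by ring
      _ ≤ u * 1 := mul_le_mul_of_nonneg_left (pow_le_one₀ hu.le (by linarith)) hu.le
      _ = u := mul_one _
  have hult' : u < min Y1 Y2 := hult.trans_le (min_le_left _ _)
  have hYa : u ^ 20 < Y1 := huY.trans_lt (hult'.trans_le (min_le_left _ _))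
  have hYb : u ^ 20 < Y2 := huY.trans_lt (hult'.trans_le (min_le_right _ _))
  have hY : 0 < u ^ 20 := by positivity
  have hNY : (N : ℝ) * a ^ 3 = (u ^ 20) ^ 2 := by rw [hN]; ring
  have ha0 : 0 < a := hS.a_pos
  have hl8 : a / u ^ 20 ≤ 1 / 8 := by
    rw [div_le_iff₀ hY]
    linarith
  have hRθ : R ≤ max θ 1 * a := hR.trans (mul_le_mul_of_nonneg_right (le_max_left _ _) ha0.le)
  obtain ⟨g, e, hM⟩ := hmini (u ^ 20) hY hYa N W f Q R₀ R a hS hl8 hNY hRθ 𝒱 hVm hVs hVW hVi ψ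
    hψ hmin
  have hpar : Par (max θ 1) cw K (u ^ 20) (a / u ^ 20) R a w N R₀ 𝒱 :=
    ⟨ha0, hS.a_le, hRθ, rfl, hl8, hNY, hwm, hw0, hwle, hwz, hwi, hVw⟩
  have hl : 0 < a / u ^ 20 := by positivity
  have hu8 : u ^ 8 ≤ 1 / 64 := by
    calc u ^ 8 ≤ (1 / 2 : ℝ) ^ 8 := pow_le_pow_left₀ hu.le hu1.le 8
      _ ≤ 1 / 64 := by norm_num
  have htsc : (a / u ^ 16) ^ 2 = (a / u ^ 20) ^ 2 * u ^ 8 := by
    field_simp
  have htscpos : 0 < (a / u ^ 16) ^ 2 := by positivity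
  have ht0 : 0 < t := by linarith
  refine hloc (u ^ 20) hY hYb (a / u ^ 20) R a w N R₀ e 𝒱 ψ g hpar hM u hu t ht0 ?_ ?_
  · have h1 : 16 * t ≤ 32 * (a / u ^ 16) ^ 2 := by linarith
    have h2 : (a / u ^ 16) ^ 2 ≤ (a / u ^ 20) ^ 2 * (1 / 64) := by
      rw [htsc]
      exact mul_le_mul_of_nonneg_left hu8 (by positivity)
    nlinarith [sq_nonneg (a / u ^ 20)]
  · have hle : a / u ^ 16 / 4 ≤ Real.sqrt (t / 8) := by
      apply Real.le_sqrt_of_sq_le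
      have h3 : (a / u ^ 16 / 4) ^ 2 = (a / u ^ 16) ^ 2 / 16 := by ring
      rw [h3]
      linarith
    have hcube : (a / u ^ 16 / 4) ^ 3 ≤ Real.sqrt (t / 8) ^ 3 :=
      pow_le_pow_left₀ (by positivity) hle 3
    have key : (N : ℝ) * (a / u ^ 16 / 4) ^ 3 = 1 / (64 * u ^ 8) := by
      have h4 : (N : ℝ) * (a / u ^ 16 / 4) ^ 3 = ((N : ℝ) * a ^ 3) / (64 * u ^ 48) := by
        field_simp
        ring
      rw [h4, hN]
      rw [div_eq_div_iff (by positivity) (by positivity)]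
      ring
    have h5 : (1 : ℝ) ≤ 1 / (64 * u ^ 8) := by
      rw [le_div_iff₀ (by positivity)]
      linarith
    calc (1 : ℝ) ≤ 1 / (64 * u ^ 8) := h5
      _ = (N : ℝ) * (a / u ^ 16 / 4) ^ 3 := key.symm
      _ ≤ (N : ℝ) * Real.sqrt (t / 8) ^ 3 :=
        mul_le_mul_of_nonneg_left hcube (Nat.cast_nonneg _)

end Pool.Agent.Lib.MP_4952d6_mp.LA

end

/-! ### M.Asm -/

section

/-!
# Physical assembly of the mesoscopic theorem

`Z = ρ A³`, `A = scatLen`, `κ = Z^(2κ₀)`, `κ₀ = 1/(1600 (M+3))`, `z = Z^(1/800) = κ^(M+3)`, `q^400 = ρ a³ ≤ Z = z^800`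
(`a` the scattering length of a truncation with `(1-δ) A ≤ a ≤ A`), `q ≤ z²`.
-/

set_option autoImplicit false
set_option linter.unusedSectionVars false
set_option linter.unusedVariables false
open MeasureTheory Function Filter Topology Set
open scoped ENNReal

namespace Pool.Agent.Lib.MP_4952d6_mp

/-- Parameters. -/
lemma Asm_par {M : ℕ} {Z τ κ₀ : ℝ} (hκ₀ : κ₀ = 1 / (1600 * ((M : ℝ) + 3))) (hZ : 0 < Z)
    (hτ1 : τ ≤ 1 / 2) (hτ : 0 < τ) (hZτ : Z < τ ^ (1 / κ₀)) :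
    ∃ κ z : ℝ, 0 < κ ∧ 0 < z ∧ κ = Z ^ (2 * κ₀) ∧ z ^ 800 = Z ∧ z = κ ^ (M + 3) ∧
      Real.sqrt κ = Z ^ κ₀ ∧ Z ^ κ₀ ≤ τ ∧ z ≤ Z ^ κ₀ ∧ κ ≤ 1 := by
  have hM3 : (0 : ℝ) < (M : ℝ) + 3 := by positivity
  have hκp : 0 < κ₀ := by rw [hκ₀]; positivity
  have hZ1 : Z ≤ 1 := by
    refine hZτ.le.trans ?_
    exact Real.rpow_le_one hτ.le (by linarith) (by positivity)
  have e1 : Z ^ κ₀ ≤ τ := by
    calc Z ^ κ₀ ≤ (τ ^ (1 / κ₀)) ^ κ₀ := Real.rpow_le_rpow hZ.le hZτ.le hκp.le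
      _ = τ := by
        rw [← Real.rpow_mul hτ.le, one_div, inv_mul_cancel₀ hκp.ne', Real.rpow_one]
  have hκ8 : κ₀ ≤ 1 / 800 := by
    rw [hκ₀]
    rw [div_le_div_iff₀ (by positivity) (by norm_num)]
    nlinarith
  refine ⟨Z ^ (2 * κ₀), Z ^ ((1 : ℝ) / 800), Real.rpow_pos_of_pos hZ _, Real.rpow_pos_of_pos hZ _,
    rfl, ?_, ?_, ?_, e1, ?_, ?_⟩
  · rw [← Real.rpow_natCast, ← Real.rpow_mul hZ.le]
    norm_num
  · rw [← Real.rpow_natCast, ← Real.rpow_mul hZ.le]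
    congr 1
    rw [hκ₀]
    push_cast
    field_simp
    norm_num
  · rw [show Z ^ (2 * κ₀) = (Z ^ κ₀) ^ 2 by
      rw [← Real.rpow_natCast, ← Real.rpow_mul hZ.le]
      congr 1
      push_cast
      ring]
    rw [Real.sqrt_sq (Real.rpow_nonneg hZ.le _)]
  · exact Real.rpow_le_rpow_of_exponent_ge hZ hZ1 hκ8
  · exact Real.rpow_le_one hZ.le hZ1 (by positivity)

/-- Consequences for `q`. -/
lemma Asm_q {M : ℕ} {κ z q c₀ τ : ℝ} (hκ : 0 < κ) (hκ1 : κ ≤ 1) (hz : 0 < z) (hq : 0 < q)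
    (hzκ : z = κ ^ (M + 3)) (hqz : q ^ 400 ≤ z ^ 800) (hzτ : z ≤ τ) (hτc : τ ≤ c₀) :
    q ≤ c₀ * κ ^ M ∧ q / κ ^ 3 ≤ z ∧ q ≤ z ^ 2 := by
  have h1 : q ≤ z ^ 2 := by
    have h2 : q ^ 400 ≤ (z ^ 2) ^ 400 := by
      calc q ^ 400 ≤ z ^ 800 := hqz
        _ = (z ^ 2) ^ 400 := by ring
    exact le_of_pow_le_pow_left₀ (by norm_num) (by positivity) h2
  have h3 : z ≤ κ ^ M := by
    rw [hzκ, pow_add]
    exact mul_le_of_le_one_right (by positivity) (pow_le_one₀ hκ.le hκ1)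
  have h4 : z ≤ κ ^ 3 := by
    rw [hzκ, pow_add]
    exact mul_le_of_le_one_left (by positivity) (pow_le_one₀ hκ.le hκ1)
  refine ⟨?_, ?_, h1⟩
  · calc q ≤ z ^ 2 := h1
      _ = z * z := by ring
      _ ≤ c₀ * κ ^ M := mul_le_mul (hzτ.trans hτc) h3 hz.le (hz.le.trans (hzτ.trans hτc))
  · rw [div_le_iff₀ (by positivity)]
    calc q ≤ z ^ 2 := h1
      _ = z * z := by ring
      _ ≤ z * κ ^ 3 := mul_le_mul_of_nonneg_left h4 hz.le

/-- Comparison of the scattering length of a truncation with the limit. -/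
lemma Asm_ratio {ρ a A δ : ℝ} (hρ : 0 < ρ) (ha : 0 < a) (haA : a ≤ A) (hδ : 0 ≤ δ)
    (hδ1 : δ ≤ 1 / 5) (h : (1 - δ) * A ≤ a) :
    (1 - 3 * δ) * Real.sqrt (ρ * A ^ 3) ≤ Real.sqrt (ρ * a ^ 3) ∧
      Real.sqrt (ρ * a ^ 3) ≤ Real.sqrt (ρ * A ^ 3) ∧
      Real.sqrt (ρ * A) ≤ (1 + 2 * δ) * Real.sqrt (ρ * a) ∧
      Real.sqrt (ρ * a) ≤ Real.sqrt (ρ * A) := by
  have hA : 0 < A := ha.trans_le haA
  refine ⟨?_, sqrt_mono hρ haA, ?_, Real.sqrt_le_sqrt (by gcongr)⟩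
  · refine Real.le_sqrt_of_sq_le ?_
    rw [mul_pow, Y_sq hρ hA]
    have h2 : ((1 - δ) * A) ^ 3 ≤ a ^ 3 := by
      refine pow_le_pow_left₀ ?_ h 3
      exact mul_nonneg (by linarith) hA.le
    have h3 : (1 - 3 * δ) ^ 2 ≤ (1 - δ) ^ 3 := by
      have e1 := mul_nonneg hδ hδ
      have e2 := mul_nonneg hδ (sub_nonneg.2 hδ1)
      have e3 := mul_nonneg (mul_nonneg hδ hδ) hδ
      have e4 := mul_nonneg (mul_nonneg hδ hδ) (sub_nonneg.2 hδ1)
      nlinarith only [e1, e2, e3, e4, hδ]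
    calc (1 - 3 * δ) ^ 2 * (ρ * A ^ 3) ≤ (1 - δ) ^ 3 * (ρ * A ^ 3) :=
          mul_le_mul_of_nonneg_right h3 (by positivity)
      _ = ρ * ((1 - δ) * A) ^ 3 := by ring
      _ ≤ ρ * a ^ 3 := mul_le_mul_of_nonneg_left h2 hρ.le
  · rw [Real.sqrt_le_left (by positivity), mul_pow, Real.sq_sqrt (by positivity)]
    have h3 : 1 ≤ (1 + 2 * δ) ^ 2 * (1 - δ) := by
      have e1 := mul_nonneg hδ hδ
      have e2 := mul_nonneg hδ (sub_nonneg.2 hδ1)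
      have e4 := mul_nonneg (mul_nonneg hδ hδ) (sub_nonneg.2 hδ1)
      nlinarith only [e1, e2, e4, hδ]
    calc ρ * A = ρ * A * 1 := by ring
      _ ≤ ρ * A * ((1 + 2 * δ) ^ 2 * (1 - δ)) := mul_le_mul_of_nonneg_left h3 (by positivity)
      _ = (1 + 2 * δ) ^ 2 * (ρ * ((1 - δ) * A)) := by ring
      _ ≤ (1 + 2 * δ) ^ 2 * (ρ * a) := by gcongr

/-- The final estimate. -/
lemma Asm_num {p YA Y s l Cb Cs Cx δ : ℝ} (hY : 0 < Y) (hYA : 0 < YA) (h1 : (1 - 3 * δ) * YA ≤ Y)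
    (h2 : Y ≤ YA) (hδ : 0 ≤ δ) (hl0 : 0 ≤ l) (hlb : l ≤ Cb) (hCx : |p / Y - l| ≤ Cx)
    (hs : |l - s| ≤ Cs * (2 * δ)) : |p / YA - s| ≤ Cx + 3 * Cb * δ + 2 * Cs * δ := by
  have hx : p / YA = (Y / YA) * (p / Y) := by field_simp
  have hx1 : Y / YA ≤ 1 := by rwa [div_le_one hYA]
  have hx0 : 1 - 3 * δ ≤ Y / YA := by rwa [le_div_iff₀ hYA]
  have hxp : 0 < Y / YA := by positivity
  have e : p / YA - s = (Y / YA) * (p / Y - l) - (1 - Y / YA) * l + (l - s) := by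
    rw [hx]; ring
  rw [e]
  have a1 : |(Y / YA) * (p / Y - l)| ≤ Cx := by
    rw [abs_mul, abs_of_pos hxp]
    calc Y / YA * |p / Y - l| ≤ 1 * |p / Y - l| := mul_le_mul_of_nonneg_right hx1 (abs_nonneg _)
      _ ≤ Cx := by rw [one_mul]; exact hCx
  have a2 : |(1 - Y / YA) * l| ≤ 3 * Cb * δ := by
    rw [abs_of_nonneg (mul_nonneg (by linarith) hl0)]
    calc (1 - Y / YA) * l ≤ (3 * δ) * Cb :=
          mul_le_mul (by linarith) hlb hl0 (by positivity)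
      _ = 3 * Cb * δ := by ring
  calc |(Y / YA) * (p / Y - l) - (1 - Y / YA) * l + (l - s)|
      ≤ |(Y / YA) * (p / Y - l) - (1 - Y / YA) * l| + |l - s| := abs_add_le _ _
    _ ≤ |(Y / YA) * (p / Y - l)| + |(1 - Y / YA) * l| + |l - s| := by
        gcongr
        exact abs_sub _ _
    _ ≤ _ := by linarith

/-- **Final theorem**, with a power rate. -/
def M.MesoRate : Prop :=
  ∃ κ₀ : ℝ, 0 < κ₀ ∧ ∀ (m R₀ R : ℝ) (v : (Fin 3 → ℝ) → ℝ), 0 < m → 0 ≤ R₀ → R₀ < R →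
    Integrable v → (∀ x, 0 ≤ v x) →
    (∀ x y : Fin 3 → ℝ, ∑ α, x α ^ 2 = ∑ α, y α ^ 2 → v x = v y) →
    (∀ x : Fin 3 → ℝ, R ^ 2 ≤ ∑ α, x α ^ 2 → v x = 0) → (0 < R₀ ∨ 0 < ∫ x, v x) →
    0 < scatLen m R₀ v ∧
    ∃ C ρ₀ : ℝ, 0 < C ∧ 0 < ρ₀ ∧ ∀ ρ : ℝ, 0 < ρ → ρ < ρ₀ → ∀ N : ℕ,
      10 ≤ side ρ N * Real.sqrt (ρ * scatLen m R₀ v) →
      side ρ N * Real.sqrt (ρ * scatLen m R₀ v) ≤ (ρ * scatLen m R₀ v ^ 3) ^ (-κ₀) →
      1 ≤ N ∧ (∃ φ : (Fin N → Fin 3 → ℝ) → ℂ, Admissible m R₀ v N (side ρ N) φ) ∧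
      ∀ ψ : (Fin N → Fin 3 → ℝ) → ℂ, Admissible m R₀ v N (side ρ N) ψ →
        (∀ φ : (Fin N → Fin 3 → ℝ) → ℂ, Admissible m R₀ v N (side ρ N) φ →
          energy m v N (side ρ N) ψ ≤ energy m v N (side ρ N) φ) →
        |(1 - condFraction N (side ρ N) ψ) / Real.sqrt (ρ * scatLen m R₀ v ^ 3)
          - M.sl (1 / (side ρ N * Real.sqrt (ρ * scatLen m R₀ v)))|
          ≤ C * (ρ * scatLen m R₀ v ^ 3) ^ κ₀

/-- **Physical assembly.** -/
theorem meso_assembly (hX : M.MXEStatement) (hA : LA.MMTStatement) : M.MesoRate := by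
  obtain ⟨Mn, hX⟩ := hX
  set κ₀ : ℝ := 1 / (1600 * ((Mn : ℝ) + 3)) with hκ₀
  have hκ₀p : 0 < κ₀ := by rw [hκ₀]; positivity
  refine ⟨κ₀, hκ₀p, ?_⟩
  intro m R₀ R v hm hR0 hR hv hv0 hrad hsupp hgen0
  have hRpos : 0 < R := hR0.trans_lt hR
  obtain ⟨g, hgm, hg0, hg⟩ := exists_rep hv hv0 hrad
  set u : ℝ → ℝ := fun r => if r < R then m * g r else 0 with hu
  have hum : Measurable u := Measurable.ite measurableSet_Iio (hgm.const_mul m) measurable_const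
  have hu0 : ∀ r, 0 ≤ u r := fun r => by
    simp only [hu]; split_ifs
    · exact mul_nonneg hm.le (hg0 r)
    · exact le_rfl
  have huR : ∀ r, R ≤ r → u r = 0 := fun r hr => by
    simp only [hu]; rw [if_neg (not_lt.2 hr)]
  have huv : ∀ᵐ r : ℝ, 0 < r → u r = m * prof v r := by
    filter_upwards [hg] with r hr hr0
    simp only [hu]
    split_ifs with h
    · rw [hr hr0]
    · have : prof v r = 0 := by
        refine hsupp _ ?_
        simp [Fin.sum_univ_three]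
        push Not at h
        exact pow_le_pow_left₀ hRpos.le h 2
      rw [this, mul_zero]
  have hradp : ∀ x, v x = prof v (nr x) := prof_eq hrad
  have hvm : AEMeasurable v volume := hv.aestronglyMeasurable.aemeasurable
  have hIv : IntegrableOn (fun r => r ^ 2 * prof v r) (Ioi (0:ℝ)) := by
    rw [← integrable_nr]
    exact hv.congr (Eventually.of_forall hradp)
  have hi : IntegrableOn (fun r => r ^ 2 * u r) (Ioi (0:ℝ)) := by
    refine (hIv.const_mul m).congr ((ae_restrict_iff' measurableSet_Ioi).2 ?_)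
    filter_upwards [huv] with r hr hr0
    rw [hr hr0]; ring
  have hUm : ∫ r in Ioi (0:ℝ), r ^ 2 * u r = m * ∫ r in Ioi (0:ℝ), r ^ 2 * prof v r := by
    rw [← integral_const_mul]
    refine setIntegral_congr_ae measurableSet_Ioi ?_
    filter_upwards [huv] with r hr hr0
    rw [hr hr0]; ring
  have hUv : ∫ x, v x = sig / m * ∫ r in Ioi (0:ℝ), r ^ 2 * u r := by
    have e1 : ∫ x, v x = sig * ∫ r in Ioi (0:ℝ), r ^ 2 * prof v r := by
      rw [← integral_nr]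
      exact integral_congr_ae (Eventually.of_forall hradp)
    rw [e1, hUm]; field_simp
  set U : ℝ := ∫ r in Ioi (0:ℝ), r ^ 2 * u r with hUdef
  set al : ℝ := scatLen m R₀ v with hal
  have hσ := sig_pos
  have hgen : 0 < R₀ ∨ 0 < U := by
    rcases hgen0 with h | h
    · exact Or.inl h
    · right
      rw [hUv] at h
      have h1 : 0 < sig / m := by positivity
      exact (mul_pos_iff_of_pos_left h1).1 h
  obtain ⟨A, hA0, halA, hup, hlow⟩ := exists_data hum hu0 hi hR0 hgen hm hv hv0 hradp huv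
  have hWle : ∀ n K : ℝ, ∀ᵐ r : ℝ, 0 < r → tr u n K r ≤ m * prof v r := by
    intro n K
    filter_upwards [huv] with r hr hr0
    rw [← hr hr0]
    exact tr_le hu0 n K r
  have hAal : A = al := by
    refine le_antisymm (le_of_forall_lt fun c hc => ?_) halA
    obtain ⟨k, hk1, hk⟩ := hlow c hc
    obtain ⟨a, f, Q, h, hca⟩ := hk k (max k (R₀ + 1)) le_rfl (le_max_left _ _)
      (lt_of_lt_of_le (by linarith) (le_max_right _ _))
    exact hca.trans_le (h.le_scatLen hm hv hv0 hradp (hWle _ _))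
  rw [← hAal]
  -- constants
  set θ : ℝ := 2 * R / A with hθ
  obtain ⟨w0, hw0m, hw00, hw01, hw0R, hw0u, hw0I⟩ := F5_shape hum hu0 hR0 hR huR hgen
  set Iw : ℝ := ∫ r in Ioi (0:ℝ), r ^ 2 * w0 r with hIw
  set cw : ℝ := sig * Iw / R with hcw
  have hcw0 : 0 < cw := by rw [hcw]; positivity
  obtain ⟨CM, u0, hCM, hu00, hA'⟩ := hA θ cw hcw0
  obtain ⟨CX, c₀, hCX, hc₀, hX'⟩ := hX θ CM
  obtain ⟨Cs, hCs, hsl⟩ := sl_close
  obtain ⟨Cb, hCb, hslb⟩ := sl_bdd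
  set τ : ℝ := min (min c₀ (1 / 5)) (u0 / 2) with hτd
  have hτ0 : 0 < τ := by
    rw [hτd]
    exact lt_min (lt_min hc₀ (by norm_num)) (by positivity)
  have hτc : τ ≤ c₀ := (min_le_left _ _).trans (min_le_left _ _)
  have hτ5 : τ ≤ 1 / 5 := (min_le_left _ _).trans (min_le_right _ _)
  have hτ1 : τ ≤ 1 / 2 := by linarith
  have hτu : τ ≤ u0 / 2 := min_le_right _ _
  refine ⟨hA0, 2 * CX + 3 * Cb + 2 * Cs, min (τ ^ (1 / κ₀) / A ^ 3) (25 / (A * R ^ 2)),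
    by positivity, lt_min (by positivity) (by positivity), ?_⟩
  intro ρ hρ hρ1 N hK1 hK2
  have hρa : ρ < τ ^ (1 / κ₀) / A ^ 3 := hρ1.trans_le (min_le_left _ _)
  have hρb : ρ < 25 / (A * R ^ 2) := hρ1.trans_le (min_le_right _ _)
  have hN1 : 1 ≤ N := by
    rcases Nat.eq_zero_or_pos N with h | h
    · exfalso
      rw [h] at hK1
      have h0 : side ρ 0 = 0 := by
        unfold side
        rw [Nat.cast_zero, zero_div, Real.zero_rpow (by norm_num)]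
      rw [h0, zero_mul] at hK1
      linarith
    · exact h
  have hN0 : (0:ℝ) < N := by exact_mod_cast hN1
  have hL := side_pos hρ hN1
  have hL3 := side_cube hρ hN1
  set L : ℝ := side ρ N with hLdef
  -- parameters
  have hZ : 0 < ρ * A ^ 3 := by positivity
  have hZτ : ρ * A ^ 3 < τ ^ (1 / κ₀) := by rwa [lt_div_iff₀ (by positivity)] at hρa
  obtain ⟨κ, z, hκ, hz, hκZ, hzZ, hzκ, hκs, hZκτ, hzZκ, hκ1⟩ := Asm_par hκ₀ hZ hτ1 hτ0 hZτ
  have hzτ : z ≤ τ := hzZκ.trans hZκτ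
  obtain ⟨δ, hδd⟩ : ∃ δ : ℝ, δ = (ρ * A ^ 3) ^ κ₀ := ⟨_, rfl⟩
  have hδ0 : 0 < δ := by rw [hδd]; positivity
  have hδ1 : δ ≤ 1 / 5 := by rw [hδd]; exact hZκτ.trans hτ5
  have hK : 0 < L * Real.sqrt (ρ * A) := by linarith
  have h2R : 2 * R < L := by
    have h1 : Real.sqrt (ρ * A) * R < 5 := by
      have h2 : ρ * (A * R ^ 2) < 25 := by rwa [lt_div_iff₀ (by positivity)] at hρb
      have h3 : Real.sqrt (ρ * A) * R = Real.sqrt (ρ * (A * R ^ 2)) := by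
        rw [← mul_assoc, Real.sqrt_mul (show 0 ≤ ρ * A by positivity) (R ^ 2),
          Real.sqrt_sq hRpos.le]
      rw [h3, Real.sqrt_lt' (by norm_num)]
      linarith
    have h4 : 0 < Real.sqrt (ρ * A) := Real.sqrt_pos.2 (by positivity)
    have h5 : 2 * R * Real.sqrt (ρ * A) < L * Real.sqrt (ρ * A) := by
      nlinarith only [h1, hK1]
    exact lt_of_mul_lt_mul_right h5 h4.le
  -- truncation
  obtain ⟨k, hk1, hk⟩ := hlow ((1 - δ) * A) (by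
    have := mul_pos hδ0 hA0
    linarith only [this])
  set qm : ℝ := (ρ * (A / 2) ^ 3) ^ ((1 : ℝ) / 400) with hqm
  have hqm0 : 0 < qm := by rw [hqm]; positivity
  set ε₁ : ℝ := min (A / 2 * qm ^ 201 / (2 * sig)) (A / (4 * sig)) with hε₁
  have hε₁0 : 0 < ε₁ := by rw [hε₁]; exact lt_min (by positivity) (by positivity)
  have hε₁2 : ε₁ ≤ A / 2 * qm ^ 201 / (2 * sig) := min_le_left _ _
  have hε₁3 : ε₁ ≤ A / (4 * sig) := min_le_right _ _
  obtain ⟨k₂, hk₂1, hk₂⟩ := tr_small hum hu0 hi hε₁0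
  set n : ℝ := max k k₂ with hn
  set K : ℝ := max n R with hKd
  have hn1 : 1 ≤ n := hk1.trans (le_max_left _ _)
  have hn0 : 0 ≤ n := by linarith
  have hfun : tr u n K = tr u n R := by
    funext r
    unfold tr
    by_cases h1 : r < R
    · rw [if_pos h1, if_pos (h1.trans_le (le_max_right _ _))]
    · rw [if_neg h1, huR r (not_lt.1 h1), min_eq_left hn0]
      split_ifs <;> rfl
  obtain ⟨a', f', Q', h', hca'⟩ := hk n K (le_max_left _ _)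
    ((le_max_left _ _).trans (le_max_left _ _)) (hR.trans_le (le_max_right _ _))
  have hgen' : 0 < R₀ ∨ 0 < ∫ r in Ioi (0:ℝ), r ^ 2 * tr u n R r := by
    rcases hR0.eq_or_lt with h0 | h0
    · right
      have h1 := h'.a_le_int
      rw [← h0, zero_add, tr_integral_Ioi (hRpos.le.trans (le_max_right _ _)), hfun] at h1
      exact h'.a_pos.trans_le h1
    · exact Or.inl h0
  obtain ⟨a, f, Q, h⟩ := scat_tr hum hu0 hR0 hn0 hR hgen'
  have haa : a' ≤ a := h.mono h' fun r _ => le_of_eq (by rw [hfun])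
  have haA' : (1 - δ) * A ≤ a := hca'.le.trans haa
  have haA : a ≤ A := hup n R a f Q hn0 h
  have ha : 0 < a := h.a_pos
  have hA2a : A ≤ 2 * a := by
    have h1 := mul_le_mul_of_nonneg_right hδ1 hA0.le
    linarith only [haA', h1, hA0]
  have hcharge : U - (∫ r in Ioi (0:ℝ), r ^ 2 * tr u n R r) ≤ ε₁ := by
    have h1 := hk₂ n K (le_max_right _ _) ((le_max_right _ _).trans (le_max_left _ _))
    rwa [hfun] at h1
  have hcharge0 : 0 ≤ U - (∫ r in Ioi (0:ℝ), r ^ 2 * tr u n R r) := by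
    have h1 : ∫ r in Ioi (0:ℝ), r ^ 2 * tr u n R r ≤ U :=
      integral_mono (tr_int hum hu0 hi hn0 R) hi fun r =>
        mul_le_mul_of_nonneg_left (tr_le hu0 n R r) (sq_nonneg r)
    linarith
  have hI0 : 0 ≤ ∫ r in Ioi (0:ℝ), r ^ 2 * tr u n R r :=
    setIntegral_nonneg measurableSet_Ioi fun r _ => mul_nonneg (sq_nonneg r) (h.W_nonneg r)
  obtain ⟨hr1, hr2, hr3, hr4⟩ := Asm_ratio hρ ha haA hδ0.le hδ1 haA'
  -- the parameter q
  set q : ℝ := (ρ * a ^ 3) ^ ((1 : ℝ) / 400) with hqd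
  have hra : 0 < ρ * a ^ 3 := by positivity
  have hq0 : 0 < q := Real.rpow_pos_of_pos hra _
  have hq400 : q ^ 400 = ρ * a ^ 3 := by
    rw [hqd, ← Real.rpow_natCast, ← Real.rpow_mul hra.le]
    norm_num
  have hqmq : qm ≤ q := by
    rw [hqm, hqd]
    refine Real.rpow_le_rpow (by positivity) ?_ (by norm_num)
    have h1 : A / 2 ≤ a := by linarith
    gcongr
  have hq200 : q ^ 200 = Real.sqrt (ρ * a ^ 3) := by
    rw [← hq400, show q ^ 400 = (q ^ 200) ^ 2 by ring, Real.sqrt_sq (by positivity)]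
  have hqz : q ^ 400 ≤ z ^ 800 := by
    rw [hq400, hzZ]
    gcongr
  obtain ⟨hqκ, hq3, hqz2⟩ := Asm_q hκ hκ1 hz hq0 hzκ hqz hzτ hτc
  have hNa : (N:ℝ) * (a / L) ^ 3 = q ^ 400 := by
    rw [hq400, ← hL3, div_pow]
    field_simp
  -- the length l
  have hrA : 0 < Real.sqrt (ρ * A) := Real.sqrt_pos.2 (by positivity)
  have hrap : 0 < Real.sqrt (ρ * a) := Real.sqrt_pos.2 (by positivity)
  have hl : lq q (a / L) = 1 / (L * Real.sqrt (ρ * a)) := by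
    unfold lq
    rw [hq200]
    have h1 : Real.sqrt (ρ * a ^ 3) = a * Real.sqrt (ρ * a) := by
      rw [show ρ * a ^ 3 = a ^ 2 * (ρ * a) by ring, Real.sqrt_mul (by positivity),
        Real.sqrt_sq ha.le]
    rw [h1]
    field_simp
  have hlpos : 0 < lq q (a / L) := by rw [hl]; positivity
  have hKn8 : 8 ≤ L * Real.sqrt (ρ * a) := by
    have h1 : L * Real.sqrt (ρ * A) ≤ L * ((1 + 2 * δ) * Real.sqrt (ρ * a)) :=
      mul_le_mul_of_nonneg_left hr3 hL.le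
    -- use the sharper bound `√(1-δ) ≥ 4/5`
    have h2 : 4 / 5 * Real.sqrt (ρ * A) ≤ Real.sqrt (ρ * a) := by
      refine Real.le_sqrt_of_sq_le ?_
      rw [mul_pow, Real.sq_sqrt (by positivity)]
      have h3 : (1 - 1 / 5) * A ≤ a := by
        refine le_trans ?_ haA'
        exact mul_le_mul_of_nonneg_right (by linarith) hA0.le
      have h4 : (4 / 5 : ℝ) ^ 2 * (ρ * A) ≤ ρ * ((1 - 1 / 5) * A) := by
        nlinarith only [mul_pos hρ hA0]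
      exact h4.trans (mul_le_mul_of_nonneg_left h3 hρ.le)
    nlinarith only [mul_le_mul_of_nonneg_left h2 hL.le, hK1]
  have hl8 : a / L ≤ q ^ 200 / 8 := by
    have h1 : lq q (a / L) ≤ 1 / 8 := by
      rw [hl]
      exact one_div_le_one_div_of_le (by norm_num) hKn8
    unfold lq at h1
    rw [div_le_iff₀ (by positivity)] at h1
    linarith
  have hκl : κ ≤ lq q (a / L) ^ 2 := by
    have h1 : 1 / (L * Real.sqrt (ρ * A)) ≤ lq q (a / L) := by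
      rw [hl]
      exact one_div_le_one_div_of_le (by positivity) (mul_le_mul_of_nonneg_left hr4 hL.le)
    have h2 : (ρ * A ^ 3) ^ κ₀ ≤ 1 / (L * Real.sqrt (ρ * A)) := by
      rw [Real.rpow_neg hZ.le] at hK2
      rw [le_one_div (Real.rpow_pos_of_pos hZ _) hK, one_div]
      exact hK2
    have h3 : κ = ((ρ * A ^ 3) ^ κ₀) ^ 2 := by
      rw [hκZ, show 2 * κ₀ = κ₀ * 2 by ring, Real.rpow_mul hZ.le, Real.rpow_two]
    rw [h3]
    exact pow_le_pow_left₀ (Real.rpow_nonneg hZ.le _) (h2.trans h1) 2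
  have hRθ : R / L ≤ θ * (a / L) := by
    rw [← mul_div_assoc]
    refine div_le_div_of_nonneg_right ?_ hL.le
    rw [hθ, div_mul_eq_mul_div, le_div_iff₀ hA0]
    linarith only [mul_le_mul_of_nonneg_left hA2a hRpos.le]
  have hscat := h.scale hL
  have hpot := F4_pot h hm hradp (hWle n R) hL
  have hVm : AEMeasurable (Vp m L v) lam3 := (aem_vper hL hvm).const_mul _
  have hch := F4_charge hm hv hv0 hradp hL
  rw [← hUm] at hch
  have hchW := F4_chargeW h hL h2R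
  -- the charge difference
  set cd : ℝ := U - (∫ r in Ioi (0:ℝ), r ^ 2 * tr u n R r) with hcd
  -- moments
  have hRL : 0 < R / L := by positivity
  have hwm : Measurable fun t : ℝ => L ^ 2 * w0 (L * t) :=
    (hw0m.comp (measurable_const_mul L)).const_mul _
  have hwn : ∀ t, 0 ≤ L ^ 2 * w0 (L * t) := fun t => by
    have := hw00 (L * t)
    positivity
  have hwb : ∀ t, L ^ 2 * w0 (L * t) ≤ ((R / L)⁻¹) ^ 2 := fun t => by
    have h1 := mul_le_mul_of_nonneg_left (hw01 (L * t)) (sq_nonneg L)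
    refine h1.trans (le_of_eq ?_)
    rw [inv_div, div_pow, inv_pow]
    field_simp
  have hwz : ∀ t, R / L ≤ t → L ^ 2 * w0 (L * t) = 0 := fun t ht => by
    rw [div_le_iff₀ hL] at ht
    rw [hw0R (L * t) (by linarith), mul_zero]
  have hwc : cw * (R / L) ≤ sig * ∫ t in Ioi (0:ℝ), t ^ 2 * (L ^ 2 * w0 (L * t)) := by
    rw [F5_scale hL, ← hIw, hcw]
    refine le_of_eq ?_
    field_simp
  have hwV : ∀ᵐ y ∂lam3, R₀ / L ≤ rr y →
      ENNReal.ofReal (L ^ 2 * w0 (L * rr y)) ≤ Vp m L v y := by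
    have h1 : ∀ᵐ r : ℝ, 0 < r → (if r < R₀ then 0 else w0 r / 2) ≤ m * prof v r := by
      filter_upwards [huv] with r hr hr0
      rw [← hr hr0]
      split_ifs with h2
      · exact hu0 r
      · have := hw0u r (not_lt.1 h2)
        linarith
    have h3 := F5_pot hm hradp h1 hL
    filter_upwards [h3] with y hy hy1
    rw [div_le_iff₀ hL] at hy1
    rw [if_neg (not_lt.2 (by linarith))] at hy
    refine le_trans (le_of_eq ?_) hy
    congr 1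
    ring
  have hcV : ∫⁻ y, Vp m L v y ∂lam3
      ≤ (∫⁻ y, ENNReal.ofReal (2 * (L ^ 2 * tr u n R (L * rr y))) ∂lam3)
        + ENNReal.ofReal (a / L) := by
    rw [hch, hchW, ← ENNReal.ofReal_add (by positivity) (by positivity)]
    refine ENNReal.ofReal_le_ofReal ?_
    have h1 : 2 * sig * cd ≤ a := by
      calc 2 * sig * cd ≤ 2 * sig * (A / (4 * sig)) := by
            have := hcharge.trans hε₁3
            gcongr
        _ = A / 2 := by field_simp; ring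
        _ ≤ a := by linarith
    have h2 : 2 * sig / L * U - 2 * sig / L * (∫ r in Ioi (0:ℝ), r ^ 2 * tr u n R r) ≤ a / L := by
      rw [← mul_sub, div_mul_eq_mul_div]
      exact div_le_div_of_nonneg_right h1 hL.le
    linarith
  have hq1 : q ≤ τ := by
    have h1 : z ^ 2 ≤ z := by
      have h2 : z ≤ 1 := by linarith
      nlinarith only [h2, hz]
    linarith
  have hu0q : q ^ 10 < u0 := by
    have h1 : q ^ 10 ≤ q := by
      calc q ^ 10 = q * q ^ 9 := by ring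
        _ ≤ q * 1 := mul_le_mul_of_nonneg_left (pow_le_one₀ hq0.le (by linarith)) hq0.le
        _ = q := mul_one _
    linarith
  -- the rest of the potential
  have hWm : Measurable (fun y : T3 => ENNReal.ofReal (2 * (L ^ 2 * tr u n R (L * rr y)))) :=
    (((h.W_meas.comp ((measurable_const_mul L).comp rr_measurable)).const_mul
      _).const_mul _).ennreal_ofReal
  set V₂ : T3 → ℝ≥0∞ := fun y =>
    hVm.mk (Vp m L v) y - ENNReal.ofReal (2 * (L ^ 2 * tr u n R (L * rr y))) with hV₂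
  have hV₂m : Measurable V₂ := hVm.measurable_mk.sub hWm
  have hle2 : ∀ᵐ y ∂lam3, Vp m L v y ≤
      ENNReal.ofReal (2 * (L ^ 2 * tr u n R (L * rr y))) + V₂ y := by
    filter_upwards [hVm.ae_eq_mk] with y hy
    rw [hy, hV₂]
    exact le_add_tsub
  have hint : ∫⁻ y, V₂ y ∂lam3 ≤ ENNReal.ofReal (a / L * q ^ 201) := by
    have h1 : ∫⁻ y, V₂ y ∂lam3 = (∫⁻ y, Vp m L v y ∂lam3)
        - ∫⁻ y, ENNReal.ofReal (2 * (L ^ 2 * tr u n R (L * rr y))) ∂lam3 := by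
      rw [hV₂, lintegral_sub hWm (by rw [hchW]; exact ENNReal.ofReal_ne_top) ?_]
      · rw [lintegral_congr_ae hVm.ae_eq_mk.symm]
      · filter_upwards [hpot, hVm.ae_eq_mk] with y hy hy2
        rw [← hy2]
        exact hy
    rw [h1, hch, hchW, ← ENNReal.ofReal_sub _ (by positivity), ← mul_sub]
    refine ENNReal.ofReal_le_ofReal ?_
    have h2 : 2 * sig * cd ≤ a * q ^ 201 := by
      calc 2 * sig * cd ≤ 2 * sig * (A / 2 * qm ^ 201 / (2 * sig)) := by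
            have := hcharge.trans hε₁2
            gcongr
        _ = A / 2 * qm ^ 201 := by field_simp
        _ ≤ a * q ^ 201 := by
            have h3 : A / 2 ≤ a := by linarith
            gcongr
    calc 2 * sig / L * cd = (2 * sig * cd) / L := by ring
      _ ≤ (a * q ^ 201) / L := div_le_div_of_nonneg_right h2 hL.le
      _ = a / L * q ^ 201 := by ring
  obtain ⟨⟨φ, hφ⟩, hfinX⟩ := hX' κ q hκ hq0 hqκ N _ _ _ _ _ _ hscat hNa hl8 hκl hRθ (Vp m L v)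
    V₂ hV₂m hpot hle2 hint
  refine ⟨hN1, ⟨BB N L φ, adm_BB hm hL hR0 hvm hφ⟩, fun ψ hψ hmin => ?_⟩
  have hmin' := F4_min hm hL hR0 hvm hψ hmin
  have hadm := adm_TT hm hL hR0 hvm hψ
  have hloc := hA' (q ^ 10) (by positivity) hu0q N _ _ _ (fun t => L ^ 2 * w0 (L * t)) _ _ _ hscat
    (by rw [← pow_mul]; exact hl8) (by rw [← pow_mul]; exact hNa) hRθ hwm hwn hwb hwz hwc
    (Vp m L v) hVm (F5_Vp_neg hL hrad) hpot hcV hwV (TT N L ψ) hadm hmin'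
    ((a / L / (q ^ 10) ^ 16) ^ 2) (by
      have : 0 ≤ (a / L / (q ^ 10) ^ 16) ^ 2 := sq_nonneg _
      linarith) (by
      have : 0 ≤ (a / L / (q ^ 10) ^ 16) ^ 2 := sq_nonneg _
      linarith)
  have hexp : (q ^ 10) ^ 16 = q ^ 160 := by rw [← pow_mul]
  rw [hexp] at hloc
  have hfin := hfinX (TT N L ψ) hadm hmin' hloc
  rw [condFraction_eq hN1 hL hψ]
  set D : ℝ := ∑ i, nuQ (fc (TT N L ψ)) i with hD
  have hYpos : 0 < Real.sqrt (ρ * a ^ 3) := Y_pos hρ ha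
  have hYApos : 0 < Real.sqrt (ρ * A ^ 3) := Y_pos hρ hA0
  have hd : lq q (a / L) ^ 3 * D = (1 - (1 - D / N)) / Real.sqrt (ρ * a ^ 3) := by
    have h1 : lq q (a / L) ^ 3 = 1 / (N * Real.sqrt (ρ * a ^ 3)) := by
      unfold lq
      rw [hq200, div_pow, div_pow]
      have h2 : Real.sqrt (ρ * a ^ 3) ^ 3 = ρ * a ^ 3 * Real.sqrt (ρ * a ^ 3) := by
        rw [show Real.sqrt (ρ * a ^ 3) ^ 3 = Real.sqrt (ρ * a ^ 3) ^ 2 * Real.sqrt (ρ * a ^ 3) by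
          ring, Y_sq hρ ha]
      rw [h2]
      have h3 : (N : ℝ) = ρ * L ^ 3 := by
        rw [div_eq_iff (by positivity)] at hL3
        exact hL3
      rw [h3]
      field_simp
    rw [h1]
    field_simp
    ring
  rw [hd] at hfin
  have hCX2 : CX * (Real.sqrt κ + q / κ ^ 3) ≤ 2 * CX * δ := by
    have h1 : Real.sqrt κ + q / κ ^ 3 ≤ 2 * δ := by
      rw [hκs, hδd]
      linarith
    calc CX * (Real.sqrt κ + q / κ ^ 3) ≤ CX * (2 * δ) := mul_le_mul_of_nonneg_left h1 hCX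
      _ = _ := by ring
  have hsl2 : |M.sl (lq q (a / L)) - M.sl (1 / (L * Real.sqrt (ρ * A)))| ≤ Cs * (2 * δ) := by
    refine hsl _ _ (2 * δ) (by positivity) hlpos (by positivity) (by linarith) ?_ ?_
    · rw [hl, ← mul_one_div, mul_comm (1 + 2 * δ), one_div_mul_eq_div, mul_one_div,
        div_le_div_iff₀ (by positivity) (by positivity)]
      calc 1 * (L * Real.sqrt (ρ * A)) ≤ L * ((1 + 2 * δ) * Real.sqrt (ρ * a)) := by
            rw [one_mul]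
            exact mul_le_mul_of_nonneg_left hr3 hL.le
        _ = _ := by ring
    · rw [hl]
      have h1 : 1 / (L * Real.sqrt (ρ * A)) ≤ 1 / (L * Real.sqrt (ρ * a)) :=
        one_div_le_one_div_of_le (by positivity) (mul_le_mul_of_nonneg_left hr4 hL.le)
      refine h1.trans ?_
      have h2 : 0 < 1 / (L * Real.sqrt (ρ * a)) := by positivity
      nlinarith only [h2, hδ0]
  have hend := Asm_num hYpos hYApos hr1 hr2 hδ0.le (sl_nonneg hlpos) (hslb _ hlpos) hfin hsl2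
  rw [← hδd]
  refine hend.trans ?_
  linarith only [hCX2]

end Pool.Agent.Lib.MP_4952d6_mp

end

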