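import Pool.Agent.Lib.MP_4952d6_mp.Pk.G25
import Pool.Agent.Lib.MP_4952d6_mp.Pm.M04
import Pool.Agent.Lib.MP_4952d6_mp.Pm.M08
import Pool.Agent.Lib.MP_4952d6_mp.Pm.M10
import Pool.Agent.Lib.MP_4952d6_mp.Pm.M14
import Pool.Agent.Lib.MP_4952d6_mp.Pm.M15
import Pool.Agent.Lib.MP_4952d6_mp.Pm.M16
import Pool.Agent.Lib.MP_4952d6_mp.Pm.M17
import Pool.Agent.Lib.MP_4952d6_mp.Pm.M18
import Pool.Agent.Lib.MP_4952d6_mp.Pm.M19

/-! Merged modules (to save import time): M.GFin, M.GMG, M.PMain, M.Final. -/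

/-! ### M.GFin -/

section

set_option autoImplicit false
set_option linter.unusedSectionVars false
set_option linter.unusedVariables false
open MeasureTheory Function Filter Topology Set

namespace Pool.Agent.Lib.MP_4952d6_mp.M

/-! # Results of the stream MG -/

theorem exp_neg_inv_le {q : ℝ} (hq : 0 < q) (h : q ≤ 1 / (Nat.factorial 1501 : ℝ)) :
    Real.exp (-(1 / q)) ≤ q ^ 1500 := by
  obtain ⟨F, hF⟩ : ∃ F : ℝ, F = (Nat.factorial 1501 : ℝ) := ⟨_, rfl⟩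
  have hF0 : 0 < F := by rw [hF]; exact_mod_cast Nat.factorial_pos 1501
  rw [← hF] at h
  have h1 := Real.pow_div_factorial_le_exp (1 / q) (by positivity) 1501
  rw [← hF] at h1
  have h2 : F ≤ 1 / q := by
    rw [le_div_iff₀ hq]
    rw [le_div_iff₀ hF0] at h
    linarith
  have h3 : (1 / q) ^ 1500 ≤ Real.exp (1 / q) := by
    refine le_trans ?_ h1
    rw [le_div_iff₀ hF0, pow_succ]
    exact mul_le_mul_of_nonneg_left h2 (by positivity)
  rw [Real.exp_neg]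
  have h4 : q ^ 1500 = ((1 / q) ^ 1500)⁻¹ := by
    rw [one_div, inv_pow, inv_inv]
  rw [h4]
  exact inv_anti₀ (by positivity) h3

/-- Gas part of the mesoscopic upper bound. -/
theorem gas_m : ∃ A q₀ : ℝ, 1 ≤ A ∧ 0 < q₀ ∧ ∀ (C q a : ℝ) (N : ℕ) (D : Dat)
    (us uo : T3 → ℝ) (sh oh : (Fin 3 → ℤ) → ℝ) (ψ : T3 → ℝ) (ph : (Fin 3 → ℤ) → ℝ),
    D.GDm C q a N → Spl C q N D us uo sh oh → Dat.PB C q a N D ψ ph → q ≤ q₀ →
    (A * C ^ 3) ^ 20 * q ≤ 1 / 1000 →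
    (∀ n ≤ N, 0 < Zg (D.F 0 1) n) ∧
    Summable (fun p => if p = 0 then 0 else D.uh p * |Sg (D.F 0 1) N p - D.Ss 1 N p|) ∧
    tsum0 (fun p => D.uh p * |Sg (D.F 0 1) N p - D.Ss 1 N p|) ≤ A * (A * C ^ 3) ^ 8 * q ^ 209 ∧
    yy (D.F 0 1) (N - 2) 0 ≤ 1 + 2 * D.uh 0 + D.Vn N + A * (A * C ^ 3) ^ 11 * q ^ 202 := by
  refine ⟨3000000, 1 / (Nat.factorial 1501 : ℝ), by norm_num, ?_, ?_⟩
  · have : (0:ℝ) < (Nat.factorial 1501 : ℝ) := by exact_mod_cast Nat.factorial_pos 1501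
    positivity
  intro C q a N D us uo sh oh ψ ph hD S hP hq hK
  have hC := hD.C1
  have hq0 := hD.q0
  have he := exp_neg_inv_le hq0 hq
  have hC3 : 0 < C ^ 3 := by positivity
  have hle : 100000 * C ^ 3 ≤ 3000000 * C ^ 3 := by linarith
  have hK' : (100000 * C ^ 3) ^ 20 * q ≤ 1 / 1000 :=
    (mul_le_mul_of_nonneg_right (pow_le_pow_left₀ (by positivity) hle 20) hq0.le).trans hK
  have hG := gasOKm hD S he hK'
  have hCK : C ≤ 100000 * C ^ 3 := by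
    have : C ≤ C ^ 3 := le_self_pow₀ hC (by norm_num)
    linarith
  have hP' := PBm_mono hP hD hCK
  obtain ⟨s1, s2⟩ := S_sum_abs hG (n := N) le_rfl (by omega)
  have s3 := gas_O2m hG hP'
  refine ⟨fun n hn => hG.Zpos 0 1 le_rfl zero_le_one zero_le_one le_rfl n (by omega), s1,
    s2.trans ?_, s3.trans ?_⟩
  · have h1 : (100000 * C ^ 3) ^ 8 ≤ (3000000 * C ^ 3) ^ 8 := pow_le_pow_left₀ (by positivity) hle 8
    have h2 : (0:ℝ) ≤ (3000000 * C ^ 3) ^ 8 := by positivity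
    calc 30000 * (100000 * C ^ 3) ^ 8 * q ^ 209 ≤ 30000 * (3000000 * C ^ 3) ^ 8 * q ^ 209 := by gcongr
      _ ≤ 3000000 * (3000000 * C ^ 3) ^ 8 * q ^ 209 := by gcongr; norm_num
  · have h1 : (100000 * C ^ 3) ^ 11 ≤ (3000000 * C ^ 3) ^ 11 :=
      pow_le_pow_left₀ (by positivity) hle 11
    have h2 : 3000000 * (100000 * C ^ 3) ^ 11 * q ^ 202 ≤ 3000000 * (3000000 * C ^ 3) ^ 11 * q ^ 202 := by
      gcongr
    linarith

end Pool.Agent.Lib.MP_4952d6_mp.M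

end

/-! ### M.GMG -/

section

set_option autoImplicit false
set_option linter.unusedSectionVars false
set_option linter.unusedVariables false
open MeasureTheory Function Filter Topology Set

namespace Pool.Agent.Lib.MP_4952d6_mp.M

/-! # `MGStatement` is proved -/

theorem mg_statement : MGStatement := by
  obtain ⟨A₀, q₀, hA, hq0, H⟩ := gas_m
  refine ⟨A₀ ^ 12, min q₀ 1, one_le_pow₀ hA, lt_min hq0 one_pos, ?_⟩
  intro C q a N D us uo sh oh ψ ph hD S hP hq hK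
  have hC : 1 ≤ C := hD.C1
  have hqp : 0 < q := hD.q0
  have hq1 : q ≤ 1 := hq.trans (min_le_right _ _)
  have hqq : q ≤ q₀ := hq.trans (min_le_left _ _)
  have hA0 : 0 ≤ A₀ := zero_le_one.trans hA
  have hC0 : 0 ≤ C := zero_le_one.trans hC
  have hAA : A₀ ≤ A₀ ^ 12 := le_self_pow₀ hA (by norm_num)
  have hAC : A₀ * C ^ 3 ≤ A₀ ^ 12 * C ^ 3 := mul_le_mul_of_nonneg_right hAA (by positivity)
  have hK' : (A₀ * C ^ 3) ^ 20 * q ≤ 1 / 1000 :=
    (mul_le_mul_of_nonneg_right (pow_le_pow_left₀ (by positivity) hAC 20) hqp.le).trans hK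
  obtain ⟨h1, h2, h3, h4⟩ := H C q a N D us uo sh oh ψ ph hD S hP hqq hK'
  refine ⟨h1 N le_rfl, h2, h3.trans ?_, h4.trans ?_⟩
  · have e1 : A₀ ^ 9 ≤ A₀ ^ 12 := pow_le_pow_right₀ hA (by norm_num)
    have e2 : C ^ 24 ≤ C ^ 33 := pow_le_pow_right₀ hC (by norm_num)
    have e3 : q ^ 209 ≤ q ^ 208 := pow_le_pow_of_le_one hqp.le hq1 (by norm_num)
    calc A₀ * (A₀ * C ^ 3) ^ 8 * q ^ 209 = A₀ ^ 9 * C ^ 24 * q ^ 209 := by ring
      _ ≤ A₀ ^ 12 * C ^ 33 * q ^ 208 := by gcongr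
  · have e : A₀ * (A₀ * C ^ 3) ^ 11 * q ^ 202 = A₀ ^ 12 * C ^ 33 * q ^ 202 := by ring
    rw [e]

end Pool.Agent.Lib.MP_4952d6_mp.M

end

/-! ### M.PMain -/

section

/-!
# PMain: the upper bound of the mesoscopic theorem (`MUStatement`) from the gas input (`MGStatement`)

As `U_main` of `U8E`: `TData.upper` gives `tE ≤ N(N-1)(I + ζ)`, `2 I ≤ 8π a + Br + a q^201/4`, so with `X = N² a q^200`
`N(N-1) I ≤ 4π N(N-1) a + (N²/2) Br + (N/2)(-Br) + X q/8`, `-Br ≤ N a q^201/4` (`bracket_lower`) and `(N²/2) Br ≤ X (1/4)(Isq - l³ Σ hs) + X q/4`.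
-/

set_option autoImplicit false
set_option linter.unusedSectionVars false
set_option linter.unusedVariables false
open MeasureTheory Function Filter Topology Set
open scoped ENNReal

namespace Pool.Agent.Lib.MP_4952d6_mp.M

/-- the final arithmetic -/
theorem main_arith {n a q I ζ S E Br : ℝ} (hn : 1 ≤ n) (ha : 0 < a) (hq : 0 < q)
    (hζ : 0 ≤ ζ)
    (h1 : 2 * I ≤ 8 * Real.pi * a + Br + a * q ^ 201 / 4)
    (h2 : n ^ 2 / 2 * Br ≤ n ^ 2 * a * q ^ 200 * S + E)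
    (h3 : -Br ≤ n * a * q ^ 201 / 4) (h4 : E ≤ n ^ 2 * a * q ^ 201 / 4) :
    n * (n - 1) * (I + 2 * ζ / 2)
      ≤ 4 * Real.pi * (n * (n - 1)) * a + n ^ 2 * a * q ^ 200 * (S + q) + n ^ 2 * ζ := by
  have hn0 : 0 < n := by linarith
  have hnn : 0 ≤ n * (n - 1) := mul_nonneg hn0.le (by linarith)
  have hnn2 : n * (n - 1) ≤ n ^ 2 := by nlinarith
  have e1 : n * (n - 1) * (I + 2 * ζ / 2) = n * (n - 1) / 2 * (2 * I) + n * (n - 1) * ζ := by ring
  have e2 := mul_le_mul_of_nonneg_left h1 (show 0 ≤ n * (n - 1) / 2 by positivity)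
  have e3 : n * (n - 1) * ζ ≤ n ^ 2 * ζ := mul_le_mul_of_nonneg_right hnn2 hζ
  have hX : 0 < a * q ^ 201 := by positivity
  have e4 : n * (n - 1) / 2 * (8 * Real.pi * a + Br + a * q ^ 201 / 4)
      = 4 * Real.pi * (n * (n - 1)) * a + n ^ 2 / 2 * Br + n / 2 * (-Br)
        + n * (n - 1) / 8 * (a * q ^ 201) := by ring
  have e5 : n / 2 * (-Br) ≤ n / 2 * (n * a * q ^ 201 / 4) :=
    mul_le_mul_of_nonneg_left h3 (by positivity)
  have e6 : n / 2 * (n * a * q ^ 201 / 4) = n ^ 2 * (a * q ^ 201) / 8 := by ring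
  have e7 : n * (n - 1) / 8 * (a * q ^ 201) ≤ n ^ 2 / 8 * (a * q ^ 201) :=
    mul_le_mul_of_nonneg_right (by linarith) hX.le
  have e8 : n ^ 2 * a * q ^ 200 * (S + q) = n ^ 2 * a * q ^ 200 * S + n ^ 2 * (a * q ^ 201) := by
    ring
  have e9 : n ^ 2 * a * q ^ 201 / 4 = n ^ 2 * (a * q ^ 201) / 4 := by ring
  have e10 : 0 < n ^ 2 * (a * q ^ 201) := by positivity
  rw [e1, e8]
  rw [e4] at e2
  rw [e6] at e5
  rw [e9] at h4
  linarith

theorem mustatement (hG : MGStatement) : MUStatement := by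
  obtain ⟨c₁, A, hc₁, hA1, hbr⟩ := energy_bracket_m hG
  obtain ⟨Cs, hCs0, hsc⟩ := scaled_energy_m
  refine ⟨396, fun θ => ?_⟩
  have hθ1 : 1 ≤ max θ 1 := le_max_right _ _
  obtain ⟨c₀, hc₀⟩ : ∃ c₀ : ℝ, c₀ = min c₁ (min (1 / 100) (min (1 / max θ 1) (1 / (Cs + 1)))) :=
    ⟨_, rfl⟩
  have hc₀0 : 0 < c₀ := by
    rw [hc₀]
    exact lt_min hc₁ (lt_min (by norm_num) (lt_min (by positivity) (by positivity)))
  have b1 : c₀ ≤ c₁ := by rw [hc₀]; exact min_le_left _ _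
  have b2 : c₀ ≤ 1 / 100 := by rw [hc₀]; exact (min_le_right _ _).trans (min_le_left _ _)
  have b3 : c₀ ≤ 1 / max θ 1 := by
    rw [hc₀]; exact ((min_le_right _ _).trans (min_le_right _ _)).trans (min_le_left _ _)
  have b4 : c₀ ≤ 1 / (Cs + 1) := by
    rw [hc₀]; exact ((min_le_right _ _).trans (min_le_right _ _)).trans (min_le_right _ _)
  refine ⟨c₀, hc₀0, ?_⟩
  intro κ q hκ hq0 hqκ N W f Q R₀ R a hS hNq ha8 hκl hR 𝒱 𝒱₂ h𝒱₂ hle ζ hζ0 hζ
  have ha0 : 0 < a := hS.a_pos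
  have hl0 : 0 < lq q a := lq_pos hq0 ha0
  have hl8 : lq q a ≤ 1 / 8 := by
    unfold lq
    rw [div_le_iff₀ (pow_pos hq0 200)]
    linarith
  have hκ1 : κ ≤ 1 := by
    have h1 : lq q a ^ 2 ≤ 1 := pow_le_one₀ hl0.le (by linarith)
    linarith
  have hκM : κ ^ 396 ≤ 1 := pow_le_one₀ hκ.le hκ1
  have hqc : q ≤ c₀ := by
    have h1 : c₀ * κ ^ 396 ≤ c₀ * 1 := mul_le_mul_of_nonneg_left hκM hc₀0.le
    linarith
  have hq100 : q ≤ 1 / 100 := hqc.trans b2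
  have hq1 : q ≤ 1 := by linarith
  have hθq : max θ 1 * q ≤ 1 := by
    have h1 : q ≤ 1 / max θ 1 := hqc.trans b3
    rw [le_div_iff₀ (by linarith)] at h1
    linarith
  have hReg : Reg W R₀ R a f Q (max θ 1) q :=
    ⟨hS, hR.trans (mul_le_mul_of_nonneg_right (le_max_left _ _) ha0.le), hθ1, hθq, hq0, hq100, ha8⟩
  have hqκ1 : q ≤ c₁ * κ ^ 396 := hqκ.trans (mul_le_mul_of_nonneg_right b1 (by positivity))
  obtain ⟨⟨hN2, hAq, hc0, huh⟩, hyy, hZ, hBr, hI⟩ :=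
    hbr κ W f Q R₀ R a (max θ 1) q N hκ hκ1 hReg hκl hqκ1 hNq
  have hκ4 : 0 < κ ^ 4 := by positivity
  have hA0 : 0 < A := by linarith
  have hC1 : 1 ≤ A / κ ^ 4 := by
    rw [le_div_iff₀ hκ4, one_mul]
    exact (pow_le_one₀ hκ.le hκ1).trans hA1
  obtain ⟨-, hse⟩ := hsc κ (A / κ ^ 4) W f Q q a N hκ hκ1 hC1 hq0 hq100 ha0 hNq hc0 huh
  have hWb : BM (fun x : T3 => W (rr x)) := by
    obtain ⟨M, hM0, hM⟩ := hS.exists_M
    exact ⟨hS.W_meas.comp rr_measurable, M, fun x => by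
      rw [abs_of_nonneg (hS.W_nonneg _)]
      exact hM _⟩
  obtain ⟨hI0, ψ, hadm, hE⟩ := (hReg.tdata hκ).upper (R₀ := R₀) (fun x hx => hReg.ftot_core x hx)
    hN2 hWb (fun x => hS.W_nonneg _) (fun x => by rw [rr_neg]) h𝒱₂ hle hζ0 hζ hZ hyy
  refine ⟨ψ, hadm, hE.trans (ENNReal.ofReal_le_ofReal ?_)⟩
  have h2I : ∫ z, 2 * (effT (dftot κ q a f Q) (hftot κ q a f Q W) z
        + W (rr z) * ftot κ q a f z ^ 2)
        * yy (fun x => ftot κ q a f x ^ 2) (N - 2) z ∂lam3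
      = 2 * ∫ z, (effT (dftot κ q a f Q) (hftot κ q a f Q W) z
        + W (rr z) * ftot κ q a f z ^ 2)
        * yy (fun x => ftot κ q a f x ^ 2) (N - 2) z ∂lam3 := by
    rw [← integral_const_mul]
    refine integral_congr_ae (Eventually.of_forall fun z => ?_)
    dsimp only
    ring
  rw [h2I] at hI
  have hN1 : (1 : ℝ) ≤ N := by exact_mod_cast (show 1 ≤ N by omega)
  have hEr : Cs * (A / κ ^ 4) * (N : ℝ) ^ 2 * a * q ^ 242 ≤ (N : ℝ) ^ 2 * a * q ^ 201 / 4 := by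
    have i1 : A / κ ^ 4 * q ≤ 1 / 40000 := by
      rw [div_mul_eq_mul_div, div_le_iff₀ hκ4]
      linarith
    have i2 : Cs * q ^ 40 ≤ 1 := by
      have i3 : q ≤ 1 / (Cs + 1) := hqc.trans b4
      have i4 : q ^ 40 ≤ q ^ 1 := pow_le_pow_of_le_one hq0.le hq1 (by norm_num)
      rw [pow_one] at i4
      rw [le_div_iff₀ (by positivity)] at i3
      have i5 : Cs * q ^ 40 ≤ Cs * q := mul_le_mul_of_nonneg_left i4 hCs0
      linarith
    have i6 : (Cs * q ^ 40) * (A / κ ^ 4 * q) ≤ 1 * (1 / 40000) :=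
      mul_le_mul i2 i1 (by positivity) (by norm_num)
    have i7 : 0 ≤ (N : ℝ) ^ 2 * a * q ^ 201 := by positivity
    have i8 := mul_le_mul_of_nonneg_right i6 i7
    have i9 : Cs * (A / κ ^ 4) * (N : ℝ) ^ 2 * a * q ^ 242
        = (Cs * q ^ 40) * (A / κ ^ 4 * q) * ((N : ℝ) ^ 2 * a * q ^ 201) := by ring
    rw [i9]
    linarith
  exact main_arith hN1 ha0 hq0 hζ0 hI hse hBr hEr

end Pool.Agent.Lib.MP_4952d6_mp.M

end

/-! ### M.Final -/

section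

/-!
# The two sided mesoscopic theorem
-/

set_option autoImplicit false

namespace Pool.Agent.Lib.MP_4952d6_mp

theorem meso_rate : M.MesoRate :=
  meso_assembly (M.mxe_of
    (LB.mx_final LB.ml_statement (M.mustatement M.mg_statement) M.VD_main)
    (M.mustatement M.mg_statement)) LA.mm_final

end Pool.Agent.Lib.MP_4952d6_mp

end

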